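import Pool.Agent.Helper66.Kiss.StA3

set_option autoImplicit false

/-! # Stage A: both points of the most antipodal pair are blocked -/

namespace Pool.Agent.Helper66.Kiss

open Real Set Filter Topology

lemma inner3 (a b c : ℝ) (s φ : ℝ) : inner ℝ (!₂[a, b, c] : E3) (pt s φ) =
    √(1 - s ^ 2) * (a * cos φ + b * sin φ) + c * s := by
  rw [inner_eq]
  simp [pt]
  ring

lemma inner3_e3 (a b c : ℝ) : inner ℝ (!₂[a, b, c] : E3) e3 = c := by
  rw [inner_eq]; simp [e3]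

/-- the most antipodal point is unique -/
lemma uniq_MA {z φ : Fin 11 → ℝ} (hF : Fe z φ) {s s' : Fin 11} (h : z s ≤ -(9 / 10))
    (h' : z s' ≤ -(9 / 10)) : s = s' := by
  by_contra hne
  have h1 := hF.2 s s' hne
  unfold gg at h1
  have h2 := (hF.1 s).1
  have h3 := (hF.1 s').1
  have a1 : √(1 - z s ^ 2) ≤ 45 / 100 := by
    rw [Real.sqrt_le_left (by norm_num)]; nlinarith
  have a2 : √(1 - z s' ^ 2) ≤ 45 / 100 := by
    rw [Real.sqrt_le_left (by norm_num)]; nlinarith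
  have b1 := Real.sqrt_nonneg (1 - z s ^ 2)
  have b2 := Real.sqrt_nonneg (1 - z s' ^ 2)
  have c1 := Real.neg_one_le_cos (φ s - φ s')
  have d1 : √(1 - z s ^ 2) * √(1 - z s' ^ 2) ≤ 45 / 100 * (45 / 100) :=
    mul_le_mul a1 a2 b2 (by norm_num)
  have d2 : 0 ≤ √(1 - z s ^ 2) * √(1 - z s' ^ 2) := mul_nonneg b1 b2
  have d3 : -(√(1 - z s ^ 2) * √(1 - z s' ^ 2)) ≤
      √(1 - z s ^ 2) * √(1 - z s' ^ 2) * cos (φ s - φ s') := by nlinarith
  have d4 : 81 / 100 ≤ z s * z s' := by nlinarith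
  linarith

/-- **the north pole is blocked** -/
theorem blocked_N {z φ : Fin 11 → ℝ} (hF : Fe z φ) {s : Fin 11} (_ : Psi (pinN z φ) ≤ -(z s))
    (h9 : z s ≤ -(9 / 10)) (h1 : -1 < z s) (hG : ¬ GainA z φ) :
    ∃ a b, z a = 1 / 2 ∧ z b = 1 / 2 ∧ 0 ≤ sin (φ a - φ s) ∧ sin (φ b - φ s) ≤ 0 ∧
      cos (φ a - φ s) + cos (φ b - φ s) ≤ 0 := by
  classical
  rcases gordan2 (Finset.univ.filter fun k : Fin 11 => z k = 1 / 2)
    (fun k => cos (φ k - φ s)) (fun k => sin (φ k - φ s))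
    (fun k _ => by rw [add_comm]; exact sin_sq_add_cos_sq _) with ⟨p, q, hp, hpq⟩ | ⟨a, ha, b, hb, h⟩
  swap
  · simp only [Finset.mem_filter, Finset.mem_univ, true_and] at ha hb
    exact ⟨a, b, ha, hb, h⟩
  exfalso
  apply hG
  set u : E3 := !₂[p * cos (φ s) - q * sin (φ s), p * sin (φ s) + q * cos (φ s), 0] with hu
  have key : ∀ k, inner ℝ u (pt (z k) (φ k)) =
      √(1 - z k ^ 2) * (p * cos (φ k - φ s) + q * sin (φ k - φ s)) := by
    intro k
    rw [hu, inner3, cos_sub, sin_sub]; ring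
  refine gainA_move hF 0 s.succ (Fin.succ_ne_zero s).symm u ?_ ?_ ?_ ?_
  · rw [pinN_zero, hu, inner3_e3]
  · intro k hk hc
    obtain ⟨l, rfl⟩ := Fin.exists_succ_eq.2 hk
    rw [pinN_zero, pinN_succ, inner_e3_pt] at hc
    rw [pinN_succ, key]
    have := hpq l (by simp [hc])
    have h2 : 0 < √(1 - z l ^ 2) := sqrt_pos_of ⟨by linarith, by linarith⟩
    exact mul_neg_of_pos_of_neg h2 this
  · rw [pinN_succ, key, sub_self, cos_zero, sin_zero]
    have h2 : 0 < √(1 - z s ^ 2) := sqrt_pos_of ⟨h1, by linarith⟩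
    nlinarith
  · intro s' hs'
    have h3 : z s' ≤ z s := by
      have := neg_le_Mu z s
      linarith
    have := uniq_MA hF h9 (h3.trans h9)
    rw [this]
    exact Or.inl ⟨rfl, rfl⟩

/-- **the most antipodal point is blocked** -/
theorem blocked_S {z φ : Fin 11 → ℝ} (hF : Fe z φ) {s : Fin 11} (_ : Psi (pinN z φ) ≤ -(z s))
    (h9 : z s ≤ -(9 / 10)) (h1 : -1 < z s) (hG : ¬ GainA z φ) :
    ∃ a b, a ≠ s ∧ b ≠ s ∧ gg (z s) (z a) (φ s) (φ a) = 1 / 2 ∧
      gg (z s) (z b) (φ s) (φ b) = 1 / 2 ∧ 0 ≤ sin (φ a - φ s) ∧ sin (φ b - φ s) ≤ 0 ∧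
      z a + z b ≤ z s := by
  classical
  have hr : 0 < √(1 - z s ^ 2) := sqrt_pos_of ⟨h1, by linarith⟩
  have hr2 : √(1 - z s ^ 2) ^ 2 = 1 - z s ^ 2 := Real.sq_sqrt (by nlinarith)
  have h3 : 0 < √3 := by positivity
  have h33 : √3 ^ 2 = 3 := Real.sq_sqrt (by norm_num)
  -- north and east components of the contacts
  set X : Fin 11 → ℝ := fun k => (z k - z s / 2) / √(1 - z s ^ 2) / (√3 / 2) with hX
  set Y : Fin 11 → ℝ := fun k => √(1 - z k ^ 2) * sin (φ k - φ s) / (√3 / 2) with hY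
  have hpos : ∀ k, k ≠ s → gg (z s) (z k) (φ s) (φ k) = 1 / 2 → 0 < √(1 - z k ^ 2) := by
    intro k hk hc
    rcases eq_or_lt_of_le (Real.sqrt_nonneg (1 - z k ^ 2)) with h | h
    · exfalso
      unfold gg at hc
      rw [← h] at hc
      have h5 := Real.sqrt_eq_zero'.1 h.symm
      have h6 := (hF.1 k)
      have h7 : z k = -1 := by nlinarith
      rw [h7] at hc
      linarith
    · exact h
  -- the contact equation
  have hcon : ∀ k, k ≠ s → gg (z s) (z k) (φ s) (φ k) = 1 / 2 →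
      √(1 - z s ^ 2) * (√(1 - z k ^ 2) * cos (φ k - φ s)) = 1 / 2 - z s * z k := by
    intro k _ hc
    unfold gg at hc
    rw [← cos_neg, neg_sub] at hc
    linarith
  have hunit : ∀ k, k ≠ s → gg (z s) (z k) (φ s) (φ k) = 1 / 2 → X k ^ 2 + Y k ^ 2 = 1 := by
    intro k hk hc
    have e1 := hcon k hk hc
    have hk2 : √(1 - z k ^ 2) ^ 2 = 1 - z k ^ 2 :=
      Real.sq_sqrt (by have := hF.1 k; nlinarith)
    have e2 : (√(1 - z k ^ 2) * sin (φ k - φ s)) ^ 2 * √(1 - z s ^ 2) ^ 2 =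
        (1 - z k ^ 2) * (1 - z s ^ 2) - (1 / 2 - z s * z k) ^ 2 := by
      rw [← e1]
      have := sin_sq_add_cos_sq (φ k - φ s)
      have e3 : sin (φ k - φ s) ^ 2 = 1 - cos (φ k - φ s) ^ 2 := by linarith
      rw [mul_pow, mul_pow, mul_pow, e3, hk2, hr2]
      ring
    simp only [hX, hY]
    rw [div_pow, div_pow, div_pow, div_pow, h33, hr2]
    have hne : (1 : ℝ) - z s ^ 2 ≠ 0 := by rw [← hr2]; positivity
    rw [hr2] at e2
    have e4 : (√(1 - z k ^ 2) * sin (φ k - φ s)) ^ 2 =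
        ((1 - z k ^ 2) * (1 - z s ^ 2) - (1 / 2 - z s * z k) ^ 2) / (1 - z s ^ 2) := by
      rw [eq_div_iff hne]; exact e2
    rw [e4]
    field_simp
    linear_combination (4 * z k ^ 2 - 4 * z k * z s + 4 * z s ^ 2 - 3) * h33
  rcases gordan2 (Finset.univ.filter fun k : Fin 11 => k ≠ s ∧ gg (z s) (z k) (φ s) (φ k) = 1 / 2)
    X Y (fun k hk => by
      simp only [Finset.mem_filter, Finset.mem_univ, true_and] at hk
      exact hunit k hk.1 hk.2) with ⟨p, q, hp, hpq⟩ | ⟨a, ha, b, hb, y1, y2, x1⟩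
  swap
  · simp only [Finset.mem_filter, Finset.mem_univ, true_and] at ha hb
    refine ⟨a, b, ha.1, hb.1, ha.2, hb.2, ?_, ?_, ?_⟩
    · have := hpos a ha.1 ha.2
      simp only [hY] at y1
      by_contra hcon
      push Not at hcon
      have h5 : √(1 - z a ^ 2) * sin (φ a - φ s) / (√3 / 2) < 0 :=
        div_neg_of_neg_of_pos (mul_neg_of_pos_of_neg this hcon) (by positivity)
      linarith
    · have := hpos b hb.1 hb.2
      simp only [hY] at y2
      by_contra hcon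
      push Not at hcon
      have h5 : 0 < √(1 - z b ^ 2) * sin (φ b - φ s) / (√3 / 2) :=
        div_pos (mul_pos this hcon) (by positivity)
      linarith
    · simp only [hX] at x1
      rw [← add_div, ← add_div] at x1
      have h5 : z a - z s / 2 + (z b - z s / 2) ≤ 0 := by
        by_contra hcon
        push Not at hcon
        have : 0 < (z a - z s / 2 + (z b - z s / 2)) / √(1 - z s ^ 2) / (√3 / 2) :=
          div_pos (div_pos hcon hr) (by positivity)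
        linarith
      linarith
  exfalso
  apply hG
  set u : E3 := !₂[-(p * z s * cos (φ s)) - q * sin (φ s), -(p * z s * sin (φ s)) + q * cos (φ s),
    p * √(1 - z s ^ 2)] with hu
  have key : ∀ k, inner ℝ u (pt (z k) (φ k)) =
      p * (-(z s * (√(1 - z k ^ 2) * cos (φ k - φ s))) + √(1 - z s ^ 2) * z k) +
      q * (√(1 - z k ^ 2) * sin (φ k - φ s)) := by
    intro k
    rw [hu, inner3, cos_sub, sin_sub]; ring
  refine gainA_move hF s.succ 0 (Fin.succ_ne_zero s) u ?_ ?_ ?_ ?_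
  · rw [pinN_succ, key, sub_self, cos_zero, sin_zero]
    ring
  · intro k hk hc
    rcases Fin.eq_zero_or_eq_succ k with rfl | ⟨l, rfl⟩
    · exfalso
      rw [pinN_zero, pinN_succ, inner_pt_e3] at hc
      linarith
    · have hls : l ≠ s := fun h => hk (by rw [h])
      rw [pinN_succ, pinN_succ, ← gg_eq] at hc
      have h5 := hpq l (by simp only [Finset.mem_filter, Finset.mem_univ, true_and]; exact ⟨hls, hc⟩)
      have e1 := hcon l hls hc
      rw [pinN_succ, key]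
      have e2 : -(z s * (√(1 - z l ^ 2) * cos (φ l - φ s))) + √(1 - z s ^ 2) * z l =
          (√3 / 2) * X l := by
        simp only [hX]
        have e3 : √(1 - z l ^ 2) * cos (φ l - φ s) = (1 / 2 - z s * z l) / √(1 - z s ^ 2) := by
          rw [eq_div_iff hr.ne']; linarith
        rw [e3]
        field_simp
        rw [hr2]; ring
      have e4 : √(1 - z l ^ 2) * sin (φ l - φ s) = (√3 / 2) * Y l := by
        simp only [hY]; field_simp
      rw [e2, e4]
      have h6 : 0 < √3 / 2 := by positivity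
      nlinarith
  · rw [pinN_zero, hu, inner3_e3]
    exact mul_neg_of_neg_of_pos hp hr
  · intro s' hs'
    have h3 : z s' ≤ z s := by
      have := neg_le_Mu z s
      linarith
    have := uniq_MA hF h9 (h3.trans h9)
    rw [this]
    exact Or.inr ⟨rfl, rfl⟩

/-- the states which remain for stage A; `s` is the most antipodal point -/
structure SA (c0 c1 : ℝ) (z φ : Fin 11 → ℝ) (s : Fin 11) : Prop where
  fe : Fe z φ
  srt : Srtd φ
  psi : Psi (pinN z φ) ≤ -(z s)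
  hi : z s < -c0
  lo : -c1 ≤ z s
  /-- no pair is more antipodal -/
  P1 : ∀ i j, i ≠ j → z s ≤ gg (z i) (z j) (φ i) (φ j)
  /-- the north pole is blocked -/
  P2 : ∃ a b, z a = 1 / 2 ∧ z b = 1 / 2 ∧ 0 ≤ sin (φ a - φ s) ∧ sin (φ b - φ s) ≤ 0 ∧
      cos (φ a - φ s) + cos (φ b - φ s) ≤ 0
  /-- the most antipodal point is blocked -/
  P3 : ∃ a b, a ≠ s ∧ b ≠ s ∧ gg (z s) (z a) (φ s) (φ a) = 1 / 2 ∧
      gg (z s) (z b) (φ s) (φ b) = 1 / 2 ∧ 0 ≤ sin (φ a - φ s) ∧ sin (φ b - φ s) ≤ 0 ∧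
      z a + z b ≤ z s

/-- the states which remain near the pole; `s` is the most antipodal point -/
structure SL (c0 : ℝ) (z φ : Fin 11 → ℝ) (s : Fin 11) : Prop where
  fe : Fe z φ
  srt : Srtd φ
  psi : Psi (pinN z φ) ≤ -(z s)
  hi : z s < -c0
  /-- no pair is more antipodal -/
  P1 : ∀ i j, i ≠ j → z s ≤ gg (z i) (z j) (φ i) (φ j)
  /-- the north pole is blocked -/
  P2 : -1 < z s → ∃ a b, z a = 1 / 2 ∧ z b = 1 / 2 ∧ 0 ≤ sin (φ a - φ s) ∧
      sin (φ b - φ s) ≤ 0 ∧ cos (φ a - φ s) + cos (φ b - φ s) ≤ 0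
  /-- the most antipodal point is blocked -/
  P3 : -1 < z s → ∃ a b, a ≠ s ∧ b ≠ s ∧ gg (z s) (z a) (φ s) (φ a) = 1 / 2 ∧
      gg (z s) (z b) (φ s) (φ b) = 1 / 2 ∧ 0 ≤ sin (φ a - φ s) ∧ sin (φ b - φ s) ≤ 0 ∧
      z a + z b ≤ z s

lemma SL.toSA {c0 c1 : ℝ} {z φ : Fin 11 → ℝ} {s : Fin 11} (h : SL c0 z φ s) (h1 : c1 < 1)
    (h2 : -c1 ≤ z s) : SA c0 c1 z φ s :=
  ⟨h.fe, h.srt, h.psi, h.hi, h2, h.P1, h.P2 (by linarith), h.P3 (by linarith)⟩

/-- **Reduction to the remaining states.** -/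
theorem stageL2 {Φ : (Fin 11 → ℝ) → ℝ} (hΦ : Continuous Φ)
    (hΦp : ∀ z (τ : Equiv.Perm (Fin 11)), Φ (z ∘ τ) = Φ z) {c0 : ℝ} (h0 : 9 / 10 ≤ c0)
    (hSDP : ∀ X ∈ Conf, c0 < Psi X) (good : ∀ z φ s, SL c0 z φ s → GainL Φ z φ) :
    ∀ X ∈ Conf, JB X := by
  refine stageL hΦ hΦp ?_
  intro z φ hF hsr ⟨s, hs⟩
  by_contra hG
  have hGA : ¬ GainA z φ := fun h => hG (Or.inl h)
  have h9 := hSDP _ (pinN_mem hF)
  have hzs : z s < -c0 := by linarith
  have hz9 : z s ≤ -(9 / 10) := by linarith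
  refine hG (good z φ s ⟨hF, hsr, hs, hzs, ?_, fun h1 => blocked_N hF hs hz9 h1 hGA,
    fun h1 => blocked_S hF hs hz9 h1 hGA⟩)
  intro i j hij
  have := le_Psi (pinN z φ) (i := i.succ) (j := j.succ) (fun h => hij (Fin.succ_injective _ h))
  rw [pinN_succ, pinN_succ, ← gg_eq] at this
  linarith

end Pool.Agent.Helper66.Kiss
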