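import Pool.Agent.Helper66.Kiss.LeafL
import Pool.Agent.Helper66.Kiss.StA4

set_option autoImplicit false

/-! # Gain at direction leaves: stage A, normal form -/

namespace Pool.Agent.Helper66.Kiss

open Real Set Filter Topology Pk

/-- **gain of the first functional from a lift** -/
theorem gainA_of_lifts {z φ : Fin 11 → ℝ} {F : (Fin 11 → ℝ) → ℝ → Fin 11 → ℝ}
    {lo hi : Fin 11 → ℝ} (hL : LiftsN z φ F) (hlaw : Law2 z F lo hi)
    (hg : ∀ s, Mu z = -(z s) → hi s < 0) : GainA z φ := by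
  obtain ⟨U1, hU1, ε1, hε1, h1⟩ := hL
  -- a common constant
  obtain ⟨κ, hκ, hκ2⟩ : ∃ κ > 0, ∀ s, Mu z = -(z s) → hi s ≤ -(2 * κ) := by
    obtain ⟨s0, hs0⟩ := exists_Mu z
    obtain ⟨s, hs, hm⟩ := Finset.exists_max_image (Finset.univ.filter fun s =>
      Mu z = -(z s)) hi ⟨s0, by simpa using hs0⟩
    simp only [Finset.mem_filter, Finset.mem_univ, true_and] at hs hm
    refine ⟨-(hi s) / 2, by linarith [hg s hs], fun s' hs' => ?_⟩
    have := hm s' hs'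
    linarith
  have h2 : ∀ᶠ p : (Fin 11 → ℝ) × ℝ in 𝓝 (z, 0), ∀ s, Mu z = -(z s) → AdmN p.1 →
      0 ≤ p.2 → F p.1 p.2 s - p.1 s ≤ -κ * p.2 := by
    rw [eventually_all]; intro s
    by_cases h : Mu z = -(z s)
    · filter_upwards [hlaw.vel s κ hκ] with p hp _ ha h0
      have := (hp ha 0 le_rfl h0).2
      rw [sub_zero, hlaw.start] at this
      have := hκ2 s h
      nlinarith
    · exact Eventually.of_forall fun _ h' => absurd h' h
  rw [nhds_prod_eq, Filter.eventually_prod_iff] at h2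
  obtain ⟨P, hP, Q, hQ, hPQ⟩ := h2
  obtain ⟨ε2, hε2, hQε⟩ := Metric.eventually_nhds_iff.1 hQ
  set ε := min ε1 (ε2 / 2) with hε
  have hε0 : 0 < ε := lt_min hε1 (by linarith)
  have e1 : ε ≤ ε1 := min_le_left _ _
  have e2 : ε ≤ ε2 / 2 := min_le_right _ _
  have hq : Q ε := by
    apply hQε
    rw [Real.dist_eq, sub_zero, abs_of_pos hε0]; linarith
  have hU : U1 ∩ (fun x : HL => x.1) ⁻¹' ({y | P y} ∩ {y | ∀ s, Mu y = -(y s) → Mu z = -(z s)}) ∈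
      𝓝 (z, φ) := by
    refine inter_mem hU1 (continuous_fst.continuousAt (inter_mem hP ?_))
    exact Mu_near z
  refine ⟨_, hU, κ * ε, mul_pos hκ hε0, ?_⟩
  rintro y η ⟨hy1, hy2, hy3⟩ hF hs
  obtain ⟨s, hM⟩ := exists_Mu y
  obtain ⟨η', hF', hJ⟩ := h1 y η hy1 hF hs ε hε0.le e1
  have h3 := hPQ hy2 hq s (hy3 s hM) hF.1 hε0.le
  refine Or.inr ⟨_, pinN_mem hF', ?_, fun h => hJ.trans h⟩
  have h4 := neg_le_Psi (F y ε) η' s
  linarith

/-- the lowest point of a leaf is the first one -/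
lemma eq_zero_of_Mu {z φ : Fin 11 → ℝ} (hFe : Fe z φ) (h9 : z 0 ≤ -(9 / 10)) {s : Fin 11}
    (hs : Mu z = -(z s)) : s = 0 := by
  have h2 : z s ≤ z 0 := by
    have := neg_le_Mu z 0
    linarith
  exact uniq_MA hFe (h2.trans h9) h9

/-- **gain of the first functional at a direction leaf** -/
theorem gainA_of_leafK {z φ : Fin 11 → ℝ} {V W : Fin 10 → ℝ} {κ ρ : ℝ} {D R : ℕ → ℕ → ℕ}
    (H : LeafK z φ V W κ ρ D R) (hFe : Fe z φ) (hκ : 0 < κ) (h1 : -1 < z 0)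
    (h9 : z 0 ≤ -(9 / 10)) : GainA z φ := by
  refine gainA_of_lifts (H.lifts hFe) (hF_law (kV_VW H.vw) fun k => (hFe.1 k).2) ?_
  intro s hs
  have h3 := eq_zero_of_Mu hFe h9 hs
  subst h3
  show hHi (kV κ V 0) (kV κ W 0) (z 0) < 0
  rw [kV_zero, kV_zero]
  unfold hHi
  have h4 : 0 < 1 - z 0 ^ 2 := by nlinarith
  rw [if_pos (by linarith)]
  nlinarith

/-- the law does not raise the least height -/
lemma Mu_law {z φ : Fin 11 → ℝ} {V W : Fin 10 → ℝ} {κ : ℝ} (hFe : Fe z φ) (hκ : 0 ≤ κ)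
    (h9 : z 0 ≤ -(9 / 10)) : ∃ N ∈ 𝓝 z, ∀ y ∈ N, AdmN y → ∀ t, 0 ≤ t →
      Mu y ≤ Mu (hF (kV κ V) (kV κ W) y t) := by
  refine ⟨_, Mu_near z, fun y hy ha t h0 => ?_⟩
  obtain ⟨s, hs⟩ := exists_Mu y
  have h3 := eq_zero_of_Mu hFe h9 (hy s hs)
  subst h3
  refine le_trans ?_ (neg_le_Mu _ 0)
  rw [hs]
  show -(y 0) ≤ -(hf (kV κ V 0) (kV κ W 0) (y 0) t)
  rw [kV_zero, kV_zero, hf_plain]
  have h1 : 0 ≤ 1 - y 0 ^ 2 := by
    have := ha 0
    nlinarith [this.1, this.2]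
  have h2 : min (y 0 + t * (-κ * (1 - y 0 ^ 2))) (max (y 0) (1 / 2)) ≤
      y 0 + t * (-κ * (1 - y 0 ^ 2)) := min_le_left _ _
  have h3 : 0 ≤ t * (κ * (1 - y 0 ^ 2)) := mul_nonneg h0 (mul_nonneg hκ h1)
  linarith

/-- **gain of the second functional at a direction leaf** -/
theorem gainS_of_leafK {Φ : (Fin 11 → ℝ) → ℝ} {z φ : Fin 11 → ℝ} {V W : Fin 10 → ℝ} {κ ρ : ℝ}
    {D R : ℕ → ℕ → ℕ} (H : LeafK z φ V W κ ρ D R) (hFe : Fe z φ) (h9 : z 0 ≤ -(9 / 10))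
    (hG : Grows z (hF (kV κ V) (kV κ W)) Φ) : GainS Φ z φ := by
  obtain ⟨U1, hU1, ε1, hε1, h1⟩ := H.lifts hFe
  obtain ⟨U2, hU2, ε2, hε2, c, hc, h2⟩ := hG
  obtain ⟨U3, hU3, h3⟩ := Mu_law (V := V) (W := W) hFe H.κ0 h9
  set ε := min ε1 ε2 with hε
  have hε0 : 0 < ε := lt_min hε1 hε2
  have e1 : ε ≤ ε1 := min_le_left _ _
  have e2 : ε ≤ ε2 := min_le_right _ _
  refine ⟨U1 ∩ (fun x : HL => x.1) ⁻¹' (U2 ∩ U3), ?_, c * ε, mul_pos hc hε0, ?_⟩
  · exact inter_mem hU1 (continuous_fst.continuousAt (inter_mem hU2 hU3))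
  · rintro y η ⟨hy1, hy2, hy3⟩ hF hs
    obtain ⟨η', hF', hJ⟩ := h1 y η hy1 hF hs ε hε0.le e1
    exact Or.inr ⟨_, η', hF', h3 y hy3 hF.1 ε hε0.le, h2 y hy2 hF.1 ε hε0.le e2,
      fun h => hJ.trans h⟩

/-! ## normal form of stage A: the most antipodal point is the first one -/

lemma shφ_sub (m : Fin 11) (η : Fin 11 → ℝ) (k : Fin 11) :
    ∃ q : ℤ, shφ m η k - shφ m η 0 = η (k + m) - η m + q * (2 * π) := by
  unfold shφ
  have h0 : (0 : Fin 11).val + m.val < 11 := by simp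
  rw [if_pos h0]
  by_cases h : k.val + m.val < 11
  · refine ⟨0, ?_⟩
    rw [if_pos h]; simp
  · refine ⟨1, ?_⟩
    rw [if_neg h, zero_add]; push_cast; ring

theorem SA.shift {c0 c1 : ℝ} {z φ : Fin 11 → ℝ} {s : Fin 11} (h : SA c0 c1 z φ s) :
    SA c0 c1 (shz s z) (shφ s φ) 0 := by
  have e0 : shz s z 0 = z s := by unfold shz; rw [zero_add]
  have hz : ∀ a, shz s z (a - s) = z a := fun a => by unfold shz; rw [sub_add_cancel]
  have hφ : ∀ a, ∃ q : ℤ, shφ s φ (a - s) - shφ s φ 0 = φ a - φ s + q * (2 * π) := fun a => by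
    have := shφ_sub s φ (a - s)
    rwa [sub_add_cancel] at this
  have hs : ∀ a, sin (shφ s φ (a - s) - shφ s φ 0) = sin (φ a - φ s) := fun a => by
    obtain ⟨q, hq⟩ := hφ a
    rw [hq, Real.sin_add_int_mul_two_pi]
  have hc : ∀ a, cos (shφ s φ (a - s) - shφ s φ 0) = cos (φ a - φ s) := fun a => by
    obtain ⟨q, hq⟩ := hφ a
    rw [hq, Real.cos_add_int_mul_two_pi]
  have hgg : ∀ a, gg (shz s z 0) (shz s z (a - s)) (shφ s φ 0) (shφ s φ (a - s)) =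
      gg (z s) (z a) (φ s) (φ a) := fun a => by
    unfold gg
    rw [e0, hz, ← cos_neg, neg_sub, hc, ← cos_neg (φ s - φ a), neg_sub]
  refine ⟨Fe_shift h.fe s, h.srt.shift s, ?_, ?_, ?_, ?_, ?_, ?_⟩
  · rw [Psi_shift, e0]; exact h.psi
  · rw [e0]; exact h.hi
  · rw [e0]; exact h.lo
  · intro i j hij
    rw [e0]
    have := h.P1 (i + s) (j + s) (fun h => hij (add_right_cancel h))
    obtain ⟨m, hm⟩ := shφ_turn s φ i
    obtain ⟨m', hm'⟩ := shφ_turn s φ j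
    rw [gg_turn hm hm']
    exact this
  · obtain ⟨a, b, h1, h2, h3, h4, h5⟩ := h.P2
    exact ⟨a - s, b - s, by rw [hz, h1], by rw [hz, h2], by rw [hs]; exact h3, by rw [hs]; exact h4,
      by rw [hc, hc]; exact h5⟩
  · obtain ⟨a, b, h1, h2, h3, h4, h5, h6, h7⟩ := h.P3
    refine ⟨a - s, b - s, fun e => h1 (sub_eq_zero.1 e), fun e => h2 (sub_eq_zero.1 e), ?_, ?_,
      by rw [hs]; exact h5, by rw [hs]; exact h6, by rw [hz, hz, e0]; exact h7⟩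
    · rw [hgg]; exact h3
    · rw [hgg]; exact h4

/-- the same for the states near the pole -/
theorem SL.shift {c0 : ℝ} {z φ : Fin 11 → ℝ} {s : Fin 11} (h : SL c0 z φ s) :
    SL c0 (shz s z) (shφ s φ) 0 := by
  have e0 : shz s z 0 = z s := by unfold shz; rw [zero_add]
  rcases eq_or_lt_of_le (h.fe.1 s).1 with h1 | h1
  · refine ⟨Fe_shift h.fe s, h.srt.shift s, ?_, ?_, ?_, ?_, ?_⟩
    · rw [Psi_shift, e0]; exact h.psi
    · rw [e0]; exact h.hi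
    · intro i j hij
      rw [e0]
      have := h.P1 (i + s) (j + s) (fun h => hij (add_right_cancel h))
      obtain ⟨m, hm⟩ := shφ_turn s φ i
      obtain ⟨m', hm'⟩ := shφ_turn s φ j
      rw [gg_turn hm hm']
      exact this
    · intro h2; rw [e0, ← h1] at h2; exact absurd h2 (lt_irrefl _)
    · intro h2; rw [e0, ← h1] at h2; exact absurd h2 (lt_irrefl _)
  · have h2 : SA c0 (-(z s)) z φ s :=
      ⟨h.fe, h.srt, h.psi, h.hi, by linarith, h.P1, h.P2 h1, h.P3 h1⟩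
    have h3 := h2.shift
    exact ⟨h3.fe, h3.srt, h3.psi, h3.hi, h3.P1, fun _ => h3.P2, fun _ => h3.P3⟩

/-- **it suffices to treat the states whose most antipodal point is the first one** -/
theorem certA_of_zero {c0 c1 : ℝ} {Φ : (Fin 11 → ℝ) → ℝ}
    (hΦp : ∀ z (τ : Equiv.Perm (Fin 11)), Φ (z ∘ τ) = Φ z)
    (h : ∀ z φ, SA c0 c1 z φ 0 → GainL Φ z φ) :
    ∀ z φ s, SA c0 c1 z φ s → GainL Φ z φ := fun _ _ s hS =>
  GainL.shift hΦp s (h _ _ hS.shift)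

lemma rfφ_sub (η : Fin 11 → ℝ) (a s : Fin 11) : rfφ η a.rev - rfφ η s.rev = -(η a - η s) := by
  unfold rfφ
  rw [Fin.rev_rev, Fin.rev_rev]; ring

/-- the reflection of a state -/
theorem SA.refl' {c0 c1 : ℝ} {z φ : Fin 11 → ℝ} {s : Fin 11} (h : SA c0 c1 z φ s) :
    SA c0 c1 (rfz z) (rfφ φ) s.rev := by
  have hz : ∀ a : Fin 11, rfz z a.rev = z a := fun a => by unfold rfz; rw [Fin.rev_rev]
  have hs : ∀ a, sin (rfφ φ a.rev - rfφ φ s.rev) = -sin (φ a - φ s) := fun a => by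
    rw [rfφ_sub, sin_neg]
  have hc : ∀ a, cos (rfφ φ a.rev - rfφ φ s.rev) = cos (φ a - φ s) := fun a => by
    rw [rfφ_sub, cos_neg]
  have hgg : ∀ a b : Fin 11, gg (rfz z a.rev) (rfz z b.rev) (rfφ φ a.rev) (rfφ φ b.rev) =
      gg (z a) (z b) (φ a) (φ b) := fun a b => by
    unfold gg
    rw [hz, hz, rfφ_sub, cos_neg]
  refine ⟨Fe_refl h.fe, h.srt.refl', ?_, ?_, ?_, ?_, ?_, ?_⟩
  · rw [Psi_refl, hz]; exact h.psi
  · rw [hz]; exact h.hi
  · rw [hz]; exact h.lo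
  · intro i j hij
    rw [hz]
    have := hgg i.rev j.rev
    rw [Fin.rev_rev, Fin.rev_rev] at this
    rw [this]
    exact h.P1 _ _ fun e => hij (Fin.rev_injective e)
  · obtain ⟨a, b, h1, h2, h3, h4, h5⟩ := h.P2
    refine ⟨b.rev, a.rev, by rw [hz, h2], by rw [hz, h1], by rw [hs]; linarith,
      by rw [hs]; linarith, by rw [hc, hc]; linarith⟩
  · obtain ⟨a, b, h1, h2, h3, h4, h5, h6, h7⟩ := h.P3
    refine ⟨b.rev, a.rev, fun e => h2 (Fin.rev_injective e), fun e => h1 (Fin.rev_injective e),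
      by rw [hgg]; exact h4, by rw [hgg]; exact h3, by rw [hs]; linarith, by rw [hs]; linarith,
      by rw [hz, hz, hz]; linarith⟩

/-- the reflection of a state in normal form, in normal form -/
theorem SA.refl0 {c0 c1 : ℝ} {z φ : Fin 11 → ℝ} (h : SA c0 c1 z φ 0) :
    SA c0 c1 (shz 10 (rfz z)) (shφ 10 (rfφ φ)) 0 := by
  have h1 := h.refl'
  have h2 : (0 : Fin 11).rev = 10 := rfl
  rw [h2] at h1
  exact h1.shift

theorem GainA.refl0 {z φ : Fin 11 → ℝ} (h : GainA (shz 10 (rfz z)) (shφ 10 (rfφ φ))) :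
    GainA z φ := GainA.refl (GainA.shift 10 h)

theorem GainL.refl0 {Φ : (Fin 11 → ℝ) → ℝ}
    (hΦp : ∀ z (τ : Equiv.Perm (Fin 11)), Φ (z ∘ τ) = Φ z) {z φ : Fin 11 → ℝ}
    (h : GainL Φ (shz 10 (rfz z)) (shφ 10 (rfφ φ))) : GainL Φ z φ :=
  GainL.refl hΦp (GainL.shift hΦp 10 h)

/-- the reflection of a state near the pole in normal form, in normal form -/
theorem SL.refl0 {c0 : ℝ} {z φ : Fin 11 → ℝ} (h : SL c0 z φ 0) :
    SL c0 (shz 10 (rfz z)) (shφ 10 (rfφ φ)) 0 := by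
  have e0 : shz 10 (rfz z) 0 = z 0 := by unfold shz rfz; rw [zero_add]; rfl
  rcases eq_or_lt_of_le (h.fe.1 0).1 with h1 | h1
  · refine ⟨Fe_shift (Fe_refl h.fe) 10, (h.srt.refl').shift 10, ?_, ?_, ?_, ?_, ?_⟩
    · rw [Psi_shift, Psi_refl, e0]; exact h.psi
    · rw [e0]; exact h.hi
    · intro i j hij
      rw [e0, ← h1]
      have h3 := Fe_shift (Fe_refl h.fe) 10
      unfold gg
      have a1 := Real.neg_one_le_cos (shφ 10 (rfφ φ) i - shφ 10 (rfφ φ) j)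
      set a := shz 10 (rfz z) i
      set b := shz 10 (rfz z) j
      have ha : -1 ≤ a ∧ a ≤ 1 / 2 := h3.1 i
      have hb : -1 ≤ b ∧ b ≤ 1 / 2 := h3.1 j
      have q1 := Real.sq_sqrt (show 0 ≤ 1 - a ^ 2 by nlinarith [ha.1, ha.2])
      have q2 := Real.sq_sqrt (show 0 ≤ 1 - b ^ 2 by nlinarith [hb.1, hb.2])
      have p1 := Real.sqrt_nonneg (1 - a ^ 2)
      have p2 := Real.sqrt_nonneg (1 - b ^ 2)
      have p3 : 0 ≤ √(1 - a ^ 2) * √(1 - b ^ 2) := mul_nonneg p1 p2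
      have p4 : -(√(1 - a ^ 2) * √(1 - b ^ 2)) ≤ √(1 - a ^ 2) * √(1 - b ^ 2) *
        cos (shφ 10 (rfφ φ) i - shφ 10 (rfφ φ) j) := by nlinarith
      nlinarith [sq_nonneg (√(1 - a ^ 2) - √(1 - b ^ 2)), sq_nonneg (a + b)]
    · intro h2; rw [e0, ← h1] at h2; exact absurd h2 (lt_irrefl _)
    · intro h2; rw [e0, ← h1] at h2; exact absurd h2 (lt_irrefl _)
  · have h2 : SA c0 (-(z 0)) z φ 0 :=
      ⟨h.fe, h.srt, h.psi, h.hi, by linarith, h.P1, h.P2 h1, h.P3 h1⟩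
    have h3 := h2.refl0
    exact ⟨h3.fe, h3.srt, h3.psi, h3.hi, h3.P1, fun _ => h3.P2, fun _ => h3.P3⟩

/-- heights of the reflection in normal form -/
lemma refl0_zero (z : Fin 11 → ℝ) : shz 10 (rfz z) 0 = z 0 := by
  unfold shz rfz; rw [zero_add]; rfl

lemma refl0_succ (z : Fin 11 → ℝ) (l : Fin 10) : shz 10 (rfz z) l.succ = z l.rev.succ := by
  unfold shz rfz
  congr 1
  revert l; decide

end Pool.Agent.Helper66.Kiss
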