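import Pool.Agent.Helper66.Kiss.Glob

set_option autoImplicit false

/-! # Stage A: ascent of the angle of the most antipodal pair -/

namespace Pool.Agent.Helper66.Kiss

open Real Set Filter Topology

lemma pairs_ne : (Finset.univ.filter fun q : Fin 12 × Fin 12 => q.1 ≠ q.2).Nonempty :=
  ⟨(0, 1), by simp⟩

/-- minus the least inner product of two points -/
noncomputable def Psi (X : Fin 12 → E3) : ℝ :=
  (Finset.univ.filter fun q : Fin 12 × Fin 12 => q.1 ≠ q.2).sup' pairs_ne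
    fun q => -inner ℝ (X q.1) (X q.2)

lemma le_Psi (X : Fin 12 → E3) {i j : Fin 12} (h : i ≠ j) : -inner ℝ (X i) (X j) ≤ Psi X := by
  unfold Psi
  exact Finset.le_sup' (fun q : Fin 12 × Fin 12 => -inner ℝ (X q.1) (X q.2))
    (by simpa using h : (i, j) ∈ Finset.univ.filter fun q : Fin 12 × Fin 12 => q.1 ≠ q.2)

lemma exists_Psi (X : Fin 12 → E3) : ∃ i j, i ≠ j ∧ Psi X = -inner ℝ (X i) (X j) := by
  obtain ⟨q, hq, h⟩ := Finset.exists_mem_eq_sup' pairs_ne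
    fun q : Fin 12 × Fin 12 => -inner ℝ (X q.1) (X q.2)
  exact ⟨q.1, q.2, (Finset.mem_filter.1 hq).2, h⟩

lemma Psi_cont : Continuous Psi := by
  unfold Psi
  refine Continuous.finset_sup'_apply _ fun q _ => ?_
  exact ((continuous_apply q.1).inner (continuous_apply q.2)).neg

attribute [irreducible] Psi

lemma Psi_le_of {X Y : Fin 12 → E3} (f : Fin 12 → Fin 12) (hf : Function.Injective f)
    (h : ∀ i j, inner ℝ (X i) (X j) = inner ℝ (Y (f i)) (Y (f j))) : Psi X ≤ Psi Y := by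
  obtain ⟨i, j, hij, e⟩ := exists_Psi X
  rw [e, h]
  exact le_Psi Y (fun h => hij (hf h))

lemma Psi_eq_of {X Y : Fin 12 → E3} (σ : Equiv.Perm (Fin 12))
    (h : ∀ i j, inner ℝ (X i) (X j) = inner ℝ (Y (σ i)) (Y (σ j))) : Psi X = Psi Y := by
  refine le_antisymm (Psi_le_of σ σ.injective h) (Psi_le_of σ.symm σ.symm.injective ?_)
  intro i j
  rw [h, σ.apply_symm_apply, σ.apply_symm_apply]

/-- the permutation behind `ext11` -/
noncomputable def extP (τ : Equiv.Perm (Fin 11)) : Equiv.Perm (Fin 12) :=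
  Equiv.ofBijective (ext11 τ) (Finite.injective_iff_bijective.1 (ext11_inj τ))

lemma Psi_ext (z φ : Fin 11 → ℝ) (τ : Equiv.Perm (Fin 11)) :
    Psi (pinN (z ∘ τ) (φ ∘ τ)) = Psi (pinN z φ) := by
  refine Psi_eq_of (extP τ) fun i j => ?_
  rw [← pinN_comp_ext]; rfl

/-- states for which the north pole and some other point are the most antipodal pair -/
def MA (z φ : Fin 11 → ℝ) : Prop := ∃ s, Psi (pinN z φ) ≤ -(z s)

lemma neg_le_Psi (z φ : Fin 11 → ℝ) (s : Fin 11) : -(z s) ≤ Psi (pinN z φ) := by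
  have := le_Psi (pinN z φ) (i := 0) (j := s.succ) (Fin.succ_ne_zero s).symm
  rwa [pinN_zero, pinN_succ, inner_e3_pt] at this

/-- minus the least height -/
noncomputable def Mu (z : Fin 11 → ℝ) : ℝ :=
  Finset.univ.sup' ⟨0, Finset.mem_univ (0 : Fin 11)⟩ fun k => -(z k)

lemma neg_le_Mu (z : Fin 11 → ℝ) (s : Fin 11) : -(z s) ≤ Mu z :=
  Finset.le_sup' (fun k => -(z k)) (Finset.mem_univ s)

lemma exists_Mu (z : Fin 11 → ℝ) : ∃ s, Mu z = -(z s) := by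
  obtain ⟨s, -, h⟩ := Finset.exists_mem_eq_sup' ⟨0, Finset.mem_univ (0 : Fin 11)⟩ fun k => -(z k)
  exact ⟨s, h⟩

lemma Mu_cont : Continuous Mu := by
  unfold Mu
  exact Continuous.finset_sup'_apply _ fun k _ => (continuous_apply k).neg

lemma Mu_perm (z : Fin 11 → ℝ) (τ : Equiv.Perm (Fin 11)) : Mu (z ∘ τ) = Mu z := by
  apply le_antisymm
  · obtain ⟨s, h⟩ := exists_Mu (z ∘ τ)
    rw [h]; exact neg_le_Mu z (τ s)
  · obtain ⟨s, h⟩ := exists_Mu z
    rw [h]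
    have := neg_le_Mu (z ∘ τ) (τ.symm s)
    simpa using this

lemma Mu_le_Psi (z φ : Fin 11 → ℝ) : Mu z ≤ Psi (pinN z φ) := by
  obtain ⟨s, h⟩ := exists_Mu z
  rw [h]; exact neg_le_Psi z φ s

attribute [irreducible] Mu

/-- local gain of the angle of the most antipodal pair at a sorted state -/
def GainA (z φ : Fin 11 → ℝ) : Prop :=
  ∃ U ∈ 𝓝 (z, φ), ∃ δ > 0, ∀ y η, (y, η) ∈ U → Fe y η → Srtd η →
    JB (pinN y η) ∨ ∃ X ∈ Conf, Mu y + δ ≤ Psi X ∧ (JB X → JB (pinN y η))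

/-- local gain of a second functional, the least height does not rise -/
def GainS (Φ : (Fin 11 → ℝ) → ℝ) (z φ : Fin 11 → ℝ) : Prop :=
  ∃ U ∈ 𝓝 (z, φ), ∃ δ > 0, ∀ y η, (y, η) ∈ U → Fe y η → Srtd η →
    JB (pinN y η) ∨ ∃ y' η', Fe y' η' ∧ Mu y ≤ Mu y' ∧ Φ y + δ ≤ Φ y' ∧
      (JB (pinN y' η') → JB (pinN y η))

/-- local gain of one of the two functionals -/
def GainL (Φ : (Fin 11 → ℝ) → ℝ) (z φ : Fin 11 → ℝ) : Prop := GainA z φ ∨ GainS Φ z φ

lemma exists_ptc (v : E3) (hv : inner ℝ v v = 1) (s : ℝ) (hs : inner ℝ e3 v = s)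
    (h1 : s ≤ 1 / 2) : -1 ≤ s ∧ ∃ φ, v = pt s φ := by
  have hv' := hv
  rw [inner_eq] at hv hs
  simp [e3] at hs
  have hs1 : -1 ≤ s := by rw [← hs]; nlinarith [sq_nonneg (v 0), sq_nonneg (v 1)]
  refine ⟨hs1, ?_⟩
  rcases eq_or_lt_of_le hs1 with h | h
  · refine ⟨0, ?_⟩
    rw [← h, pt_neg_one]
    rw [← h] at hs
    have h0 : v 0 = 0 := by nlinarith [sq_nonneg (v 0), sq_nonneg (v 1)]
    have h2 : v 1 = 0 := by nlinarith [sq_nonneg (v 0), sq_nonneg (v 1)]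
    ext i; fin_cases i <;> simp [e3, h0, h2, hs]
  · obtain ⟨φ, -, -, h⟩ := exists_pt v hv' s (by rw [inner_eq]; simp [e3, hs]) (by nlinarith)
    exact ⟨φ, h⟩

/-- pinning the most antipodal pair -/
theorem repin {X : Fin 12 → E3} (hX : X ∈ Conf) : ∃ z φ, Fe z φ ∧ Srtd φ ∧ MA z φ ∧
    Psi (pinN z φ) = Psi X ∧ (JB (pinN z φ) → JB X) := by
  obtain ⟨i, j, hij, e⟩ := exists_Psi X
  set σ : Equiv.Perm (Fin 12) := Equiv.swap 0 i with hσ
  have hσ0 : σ 0 = i := Equiv.swap_apply_left 0 i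
  have hXσ := comp_mem hX σ
  have he : inner ℝ (X i) (X i) = 1 := ((mem_Conf_iff X).1 hX).1 i
  obtain ⟨a, b, hab⟩ := exists_rot (X i) he
  have j1 := joined_rotZ hXσ a
  have j2 := joined_rotX j1.target_mem b
  have jj := j1.trans j2
  set Y : Fin 12 → E3 := fun i => rotX b (rotZ a ((X ∘ σ) i)) with hY
  have hYm : Y ∈ Conf := jj.target_mem
  obtain ⟨hY1, hY2⟩ := (mem_Conf_iff Y).1 hYm
  have Y0 : Y 0 = e3 := by simp only [hY, Function.comp, hσ0, hab]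
  have hYi : ∀ k l, inner ℝ (Y k) (Y l) = inner ℝ (X (σ k)) (X (σ l)) := by
    intro k l
    simp only [hY, Function.comp]
    rw [inner_rotX, inner_rotZ]
  have hpt : ∀ k : Fin 11, -1 ≤ inner ℝ e3 (Y k.succ) ∧ ∃ φ, Y k.succ = pt (inner ℝ e3 (Y k.succ)) φ := by
    intro k
    refine exists_ptc (Y k.succ) (hY1 _) _ rfl ?_
    rw [← Y0]
    exact hY2 0 k.succ (Fin.succ_ne_zero k).symm
  choose hz φ hφ using hpt
  set z : Fin 11 → ℝ := fun k => inner ℝ e3 (Y k.succ) with hzd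
  have hz2 : ∀ k, z k ≤ 1 / 2 := by
    intro k
    simp only [hzd]
    rw [← Y0]
    exact hY2 0 k.succ (Fin.succ_ne_zero k).symm
  have eY : Y = pinN z φ := by
    funext k
    rcases Fin.eq_zero_or_eq_succ k with rfl | ⟨l, rfl⟩
    · rw [pinN_zero, Y0]
    · rw [pinN_succ]; exact hφ l
  have hF : Fe z φ := by
    refine ⟨fun k => ⟨hz k, hz2 k⟩, fun k l hkl => ?_⟩
    rw [gg_eq, ← pinN_succ z φ k, ← pinN_succ z φ l, ← eY]
    exact hY2 _ _ (fun h => hkl (Fin.succ_injective _ h))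
  have hPsi : Psi (pinN z φ) = Psi X := by
    rw [← eY]
    exact Psi_eq_of σ hYi
  have hJ : JB (pinN z φ) → JB X := by
    intro h
    rw [← eY] at h
    have h2 : JB (X ∘ σ) := jj.trans h
    have h3 := h2.comp σ⁻¹
    have e' : (X ∘ ⇑σ) ∘ ⇑σ⁻¹ = X := by funext i; simp
    rwa [e'] at h3
  -- the antipodal point
  have hMA : MA z φ := by
    have hsj : (σ.symm j) ≠ 0 := by
      intro h
      have : j = σ 0 := by rw [← h, σ.apply_symm_apply]
      rw [hσ0] at this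
      exact hij this.symm
    obtain ⟨s, hs⟩ := Fin.exists_succ_eq.2 hsj
    refine ⟨s, ?_⟩
    rw [hPsi, e]
    have h1 := hYi 0 s.succ
    rw [hs, σ.apply_symm_apply, hσ0, Y0] at h1
    have : z s = inner ℝ e3 (Y (σ.symm j)) := by simp only [hzd]; rw [hs]
    rw [this, h1]
  -- sorting
  set ψ : Fin 11 → ℝ := fun k => red (φ k) with hψ
  have hFψ : Fe z ψ := ⟨hF.1, fun k l hkl => by
    show gg (z k) (z l) (red (φ k)) (red (φ l)) ≤ 1 / 2
    rw [gg_red]; exact hF.2 k l hkl⟩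
  have eψ : pinN z ψ = pinN z φ := pinN_red z φ
  refine ⟨z ∘ Tuple.sort ψ, ψ ∘ Tuple.sort ψ, Fe_perm hFψ _, ⟨Tuple.monotone_sort ψ, fun k =>
    ⟨(red_mem _).1, (red_mem _).2.le⟩⟩, ?_, ?_, ?_⟩
  · obtain ⟨s, hs⟩ := hMA
    refine ⟨(Tuple.sort ψ).symm s, ?_⟩
    rw [Psi_ext, eψ]
    simpa using hs
  · rw [Psi_ext, eψ, hPsi]
  · intro h
    have := JB_perm _ h
    rw [eψ] at this
    exact hJ this

/-- **Lexicographic ascent.** -/
theorem stageL {Φ : (Fin 11 → ℝ) → ℝ} (hΦ : Continuous Φ)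
    (hΦp : ∀ z (τ : Equiv.Perm (Fin 11)), Φ (z ∘ τ) = Φ z)
    (good : ∀ z φ, Fe z φ → Srtd φ → MA z φ → GainL Φ z φ) : ∀ X ∈ Conf, JB X := by
  by_contra hcon
  push Not at hcon
  obtain ⟨X0, hX0, hJ0⟩ := hcon
  have hpc : Continuous fun x : HL => pinN x.1 x.2 :=
    continuous_pinN (fun k => (continuous_apply k).comp continuous_fst)
      (fun k => (continuous_apply k).comp continuous_snd)
  -- the bad states
  set B : Set HL := {x | x ∈ SS univ ∧ ¬ JB (pinN x.1 x.2)} with hB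
  have hrep : ∀ X ∈ Conf, ¬ JB X → ∃ x ∈ B, Mu x.1 = Psi X ∧ MA x.1 x.2 := by
    intro X hX hJ
    obtain ⟨z, φ, k1, k2, k3, k4, k5⟩ := repin hX
    refine ⟨(z, φ), ⟨⟨k1, mem_univ _, k2⟩, fun h => hJ (k5 h)⟩, ?_, k3⟩
    obtain ⟨s, hs⟩ := k3
    refine le_antisymm ?_ ?_
    · rw [← k4]; exact Mu_le_Psi z φ
    · rw [← k4]; exact hs.trans (neg_le_Mu z s)
  have hAc : IsCompact (closure B) := (SS_compact isClosed_univ).closure_of_subset fun x hx => hx.1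
  have hAs : closure B ⊆ SS univ := closure_minimal (fun x hx => hx.1) (SS_compact isClosed_univ).isClosed
  obtain ⟨x0, hx0, -⟩ := hrep X0 hX0 hJ0
  have hMc : Continuous fun x : HL => Mu x.1 := Mu_cont.comp continuous_fst
  have hΦc : Continuous fun x : HL => Φ x.1 := hΦ.comp continuous_fst
  obtain ⟨xm, hxm, hmax⟩ := hAc.exists_isMaxOn ⟨x0, subset_closure hx0⟩ hMc.continuousOn
  set M := Mu xm.1 with hM
  have hle : ∀ x ∈ closure B, Mu x.1 ≤ M := fun x hx => hmax hx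
  -- the best bad states of the first functional
  have hA' : IsCompact (closure B ∩ {x | Mu x.1 = M}) :=
    hAc.inter_right (isClosed_eq hMc continuous_const)
  obtain ⟨xs, ⟨hxs, hxsM⟩, hmax'⟩ := hA'.exists_isMaxOn ⟨xm, hxm, rfl⟩ hΦc.continuousOn
  have hxsM' : Mu xs.1 = M := hxsM
  have hle' : ∀ x ∈ closure B, Mu x.1 = M → Φ x.1 ≤ Φ xs.1 := fun x hx h => hmax' ⟨hx, h⟩
  -- configurations which are not joined to the base have a functional at most `M`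
  have hPsi : ∀ X ∈ Conf, ¬ JB X → Psi X ≤ M := by
    intro X hX hJ
    obtain ⟨x, hx, h, -⟩ := hrep X hX hJ
    rw [← h]; exact hle x (subset_closure hx)
  have hPs : Psi (pinN xs.1 xs.2) ≤ M := by
    have hcl : IsClosed {x : HL | Psi (pinN x.1 x.2) ≤ M} :=
      isClosed_le (Psi_cont.comp hpc) continuous_const
    exact (closure_minimal (fun x hx => hPsi _ (pinN_mem hx.1.1) hx.2) hcl) hxs
  obtain ⟨hF, -, hs⟩ := hAs hxs
  have hMA : MA xs.1 xs.2 := by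
    obtain ⟨s, h⟩ := exists_Mu xs.1
    exact ⟨s, by rw [← h, hxsM']; exact hPs⟩
  rcases good xs.1 xs.2 hF hs hMA with ⟨U, hU, δ, hδ, hg⟩ | ⟨U, hU, δ, hδ, hg⟩
  · -- gain of the first functional
    have hV : {x : HL | M - δ / 2 < Mu x.1} ∈ 𝓝 (xs.1, xs.2) :=
      hMc.continuousAt (lt_mem_nhds (by show M - δ / 2 < Mu xs.1; rw [hxsM']; linarith))
    obtain ⟨b, ⟨hbU, hbV⟩, hbB⟩ := mem_closure_iff_nhds.1 hxs _ (inter_mem hU hV)
    have hbV' : M - δ / 2 < Mu b.1 := hbV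
    rcases hg b.1 b.2 hbU hbB.1.1 hbB.1.2.2 with h | ⟨X, h1, h2, h3⟩
    · exact hbB.2 h
    · have := hPsi X h1 fun h => hbB.2 (h3 h)
      linarith
  · -- gain of the second functional
    have key : ∀ ε > 0, ∃ x ∈ closure B, M - ε < Mu x.1 ∧ Φ xs.1 + δ / 2 ≤ Φ x.1 := by
      intro ε hε
      have hV : {x : HL | M - ε < Mu x.1} ∈ 𝓝 (xs.1, xs.2) :=
        hMc.continuousAt (lt_mem_nhds (by show M - ε < Mu xs.1; rw [hxsM']; linarith))
      have hW : {x : HL | Φ xs.1 - δ / 2 < Φ x.1} ∈ 𝓝 (xs.1, xs.2) :=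
        hΦc.continuousAt (lt_mem_nhds (by show Φ xs.1 - δ / 2 < Φ xs.1; linarith))
      obtain ⟨b, ⟨⟨hbU, hbV⟩, hbW⟩, hbB⟩ := mem_closure_iff_nhds.1 hxs _
        (inter_mem (inter_mem hU hV) hW)
      have hbV' : M - ε < Mu b.1 := hbV
      have hbW' : Φ xs.1 - δ / 2 < Φ b.1 := hbW
      rcases hg b.1 b.2 hbU hbB.1.1 hbB.1.2.2 with h | ⟨y', η', h1, h2, h3, h4⟩
      · exact absurd h hbB.2
      · obtain ⟨τ, ζ, k1, k2, k3⟩ := exists_sorted h1
        refine ⟨(y' ∘ τ, ζ), subset_closure ⟨⟨k1, mem_univ _, k2⟩, fun h => hbB.2 (h4 (k3 h))⟩,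
          ?_, ?_⟩
        · show M - ε < Mu (y' ∘ τ)
          rw [Mu_perm]; linarith
        · show Φ xs.1 + δ / 2 ≤ Φ (y' ∘ τ)
          rw [hΦp]; linarith
    have hK : IsCompact (closure B ∩ {x | Φ xs.1 + δ / 2 ≤ Φ x.1}) :=
      hAc.inter_right (isClosed_le continuous_const hΦc)
    obtain ⟨x1, h1, -, h2⟩ := key 1 one_pos
    obtain ⟨xk, ⟨hxk, hxk2⟩, hmaxk⟩ := hK.exists_isMaxOn ⟨x1, h1, h2⟩ hMc.continuousOn
    have hlt : Mu xk.1 < M := by
      refine lt_of_le_of_ne (hle xk hxk) fun h => ?_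
      have := hle' xk hxk h
      have hxk2' : Φ xs.1 + δ / 2 ≤ Φ xk.1 := hxk2
      linarith
    obtain ⟨x2, h3, h4, h5⟩ := key (M - Mu xk.1) (by linarith)
    have h6 : Mu x2.1 ≤ Mu xk.1 := hmaxk ⟨h3, h5⟩
    linarith

end Pool.Agent.Helper66.Kiss
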