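import Pool.Agent.Helper66.Kiss.LeafA

set_option autoImplicit false

/-! # Direction leaves, final form: pairs and combinatorics of walks -/

namespace Pool.Agent.Helper66.Kiss

open Real Set Filter Topology Pk

/-! ## bounds for pairs of heights -/

/-- edge bound for two heights; a point moving up against a static point which is lower than half
of it is allowed with any constant `0 ≤ c`, and so is a point moving up at the wall above a point
at the touching height which is static above and moves below this height -/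
def EBr (x y v w v' w' c : ℝ) : Prop :=
  EBp x y v w v' w' c ∨ (v' = 0 ∧ w' = 0 ∧ 0 ≤ v ∧ y < x / 2 ∧ 0 ≤ c) ∨
    (v = 0 ∧ w = 0 ∧ 0 ≤ v' ∧ x < y / 2 ∧ 0 ≤ c) ∨
    (x = 1 / 2 ∧ y = -(1 / 2) ∧ w = v ∧ 0 < v ∧ v' = 0 ∧ 0 < w' ∧
      nr x y (v * (1 - x ^ 2)) (w' * (1 - y ^ 2)) < 0 ∧ 0 ≤ c) ∨
    (x = -(1 / 2) ∧ y = 1 / 2 ∧ w' = v' ∧ 0 < v' ∧ v = 0 ∧ 0 < w ∧
      nr x y (w * (1 - x ^ 2)) (v' * (1 - y ^ 2)) < 0 ∧ 0 ≤ c)

/-- two static points may have a constant not below `-ρ`; every other pair needs a margin of ten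
units -/
def EBq (x y v w v' w' ρ c : ℝ) : Prop :=
  (v = 0 ∧ w = 0 ∧ v' = 0 ∧ w' = 0 ∧ -ρ ≤ c) ∨ EBr x y v w v' w' (c - 10 * ρ)

lemma EBr.symm {x y v w v' w' c : ℝ} (h : EBr x y v w v' w' c) : EBr y x v' w' v w c := by
  rcases h with h | h | h | ⟨h1, h2, h3, h4, h5, h6, h7, h8⟩ | ⟨h1, h2, h3, h4, h5, h6, h7, h8⟩
  · exact Or.inl h.symm
  · exact Or.inr (Or.inr (Or.inl h))
  · exact Or.inr (Or.inl h)
  · exact Or.inr (Or.inr (Or.inr (Or.inr ⟨h2, h1, h3, h4, h5, h6, by rw [nr_comm]; exact h7, h8⟩)))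
  · exact Or.inr (Or.inr (Or.inr (Or.inl ⟨h2, h1, h3, h4, h5, h6, by rw [nr_comm]; exact h7, h8⟩)))

lemma EBq.symm {x y v w v' w' ρ c : ℝ} (h : EBq x y v w v' w' ρ c) : EBq y x v' w' v w ρ c := by
  rcases h with ⟨h1, h2, h3, h4, h5⟩ | h
  · exact Or.inl ⟨h3, h4, h1, h2, h5⟩
  · exact Or.inr h.symm

lemma EBp.mono {x y v w v' w' c c' : ℝ} (h : EBp x y v w v' w' c) (hc : c ≤ c') :
    EBp x y v w v' w' c' := by
  rcases h with ⟨h, h'⟩ | ⟨h1, h2, h3, h4, h5⟩
  · refine Or.inl ⟨fun h1 => ?_, h'⟩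
    obtain ⟨a1, a2, a3, a4⟩ := h h1
    exact ⟨a1.trans hc, a2.trans hc, a3.trans hc, a4.trans hc⟩
  · exact Or.inr ⟨h1, h2, h3, h4, h5.trans hc⟩

lemma EBr.mono {x y v w v' w' c c' : ℝ} (h : EBr x y v w v' w' c) (hc : c ≤ c') :
    EBr x y v w v' w' c' := by
  rcases h with h | ⟨h1, h2, h3, h4, h5⟩ | ⟨h1, h2, h3, h4, h5⟩ |
    ⟨h1, h2, h3, h4, h5, h6, h7, h8⟩ | ⟨h1, h2, h3, h4, h5, h6, h7, h8⟩
  · exact Or.inl (h.mono hc)
  · exact Or.inr (Or.inl ⟨h1, h2, h3, h4, h5.trans hc⟩)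
  · exact Or.inr (Or.inr (Or.inl ⟨h1, h2, h3, h4, h5.trans hc⟩))
  · exact Or.inr (Or.inr (Or.inr (Or.inl ⟨h1, h2, h3, h4, h5, h6, h7, h8.trans hc⟩)))
  · exact Or.inr (Or.inr (Or.inr (Or.inr ⟨h1, h2, h3, h4, h5, h6, h7, h8.trans hc⟩)))

lemma EBq.mono {x y v w v' w' ρ c c' : ℝ} (h : EBq x y v w v' w' ρ c) (hc : c ≤ c') :
    EBq x y v w v' w' ρ c' := by
  rcases h with ⟨h1, h2, h3, h4, h5⟩ | h
  · exact Or.inl ⟨h1, h2, h3, h4, h5.trans hc⟩
  · exact Or.inr (h.mono (by linarith))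

/-- the law moves up -/
lemma hf_mono {v w x : ℝ} (h : VW v w) (h0 : 0 ≤ v) (hx : -1 ≤ x ∧ x ≤ 1 / 2) {s t : ℝ}
    (hst : s ≤ t) : hf v w x s ≤ hf v w x t := by
  have hw : 0 ≤ w := by
    rcases h with h | ⟨h1, h2⟩
    · rw [h]; exact h0
    · linarith
  have h1 : 0 ≤ 1 - x ^ 2 := by nlinarith [hx.1, hx.2]
  have a1 := mul_le_mul_of_nonneg_right hst (mul_nonneg hw h1)
  have a2 := mul_le_mul_of_nonneg_right hst (mul_nonneg h0 h1)
  unfold hf
  exact min_le_min (min_le_min (by linarith) (by linarith)) le_rfl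

/-- the cosine increases with a height as long as twice the other height is smaller -/
lemma RR_mono_left {a b y : ℝ} (ha : -1 < a) (hab : a ≤ b) (hb : b < 1) (hy : -1 < y ∧ y < 1)
    (h : y < a / 2) : RR a y ≤ RR b y := by
  have key := seg_strictMono (x := a) (y := y) (a := 1) (b := 0) (t := b - a) (by
    intro s hs
    exact ⟨⟨by linarith [hs.1], by linarith [hs.2]⟩, ⟨by linarith [hy.1], by linarith [hy.2]⟩⟩) (by
    intro s hs
    unfold nr
    have h1 : 0 < 1 - (a + s * 1) ^ 2 := by nlinarith [hs.1, hs.2]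
    have h2 : (y + s * 0) - (a + s * 1) / 2 < 0 := by linarith [hs.1]
    have := div_neg_of_neg_of_pos h2 h1
    simp only [mul_zero, add_zero, mul_one, zero_div] at this ⊢
    linarith)
  have h1 := key.monotoneOn ⟨le_rfl, by linarith⟩ ⟨by linarith, le_rfl⟩ (by linarith : (0 : ℝ) ≤ b - a)
  simp only [add_zero, mul_one, mul_zero] at h1
  rwa [show a + (b - a) = b by ring] at h1

section

variable {n : ℕ}

lemma monoQ_up {z v w : Fin n → ℝ} {i j : Fin n} (hvw : ∀ k, VW (v k) (w k))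
    (hz : ∀ k, z k ≤ 1 / 2) (hi : -1 < z i) (hj : -1 < z j) (h1 : v j = 0) (h2 : w j = 0)
    (h3 : 0 ≤ v i) (h4 : z j < z i / 2) : MonoQ z (hF v w) i j := by
  have hlaw := hF_law hvw hz
  have hFi : Tendsto (fun p : (Fin n → ℝ) × ℝ => hF v w p.1 p.2 i) (𝓝 (z, 0)) (𝓝 (z i)) :=
    ((continuous_apply i).tendsto _).comp hlaw.near
  have hpj : Tendsto (fun p : (Fin n → ℝ) × ℝ => p.1 j) (𝓝 (z, 0)) (𝓝 (z j)) :=
    ((continuous_apply j).comp continuous_fst).tendsto' _ _ rfl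
  have hd : Tendsto (fun p : (Fin n → ℝ) × ℝ => hF v w p.1 p.2 i / 2 - p.1 j) (𝓝 (z, 0))
      (𝓝 (z i / 2 - z j)) := (hFi.div_const 2).sub hpj
  unfold MonoQ
  filter_upwards [ev_all_le (stat_hF (z := z) (v := v) (w := w) h1 h2),
    ev_all_le (hFi.eventually (lt_mem_nhds hi)),
    ev_all_le (hd.eventually (lt_mem_nhds (by linarith : 0 < z i / 2 - z j))),
    hpj.eventually (lt_mem_nhds hj)] with p p1 p2 p3 p4 ha s h0 hs
  have e1 := p1 s h0 hs ha h0
  have e2 := p1 p.2 (h0.trans hs) le_rfl ha (h0.trans hs)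
  rw [e1, e2]
  have q1 := p2 s h0 hs
  have q2 := p3 s h0 hs
  have q3 : hF v w p.1 s i ≤ hF v w p.1 p.2 i := hf_mono (hvw i) h3 (ha i) hs
  have q4 : hF v w p.1 p.2 i ≤ 1 / 2 := hf_le (ha i).2 _
  exact Or.inl (RR_mono_left q1 q3 (by linarith) ⟨p4, by linarith [(ha j).2]⟩ (by linarith))

/-- at the wall, a lower point below the touching height is free -/
lemma RR_wall_ge {y : ℝ} (h0 : -1 < y) (h1 : y ≤ -(1 / 2)) : 1 ≤ RR (1 / 2) y := by
  have c1 := sqrt_pos_of (z := 1 / 2) ⟨by norm_num, le_rfl⟩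
  have c2 := sqrt_pos_of (z := y) ⟨h0, by linarith⟩
  unfold RR
  rw [le_div_iff₀ (mul_pos c1 c2), one_mul]
  have e1 : √(1 - (1 / 2 : ℝ) ^ 2) * √(1 - y ^ 2) = √((3 / 4) * (1 - y ^ 2)) := by
    rw [← Real.sqrt_mul (by norm_num)]; norm_num
  rw [e1]
  apply Real.sqrt_le_iff.2
  constructor
  · linarith
  · nlinarith [sq_nonneg (y + 1 / 2)]

/-- the law of a two-valued point which does not move above the touching height -/
lemma hf_zero {w y t : ℝ} (hw : 0 < w) (hy1 : y ≤ 1 / 2) (ht : 0 ≤ t)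
    (hy0 : -1 ≤ y) : hf 0 w y t = if -(1 / 2) ≤ y then y else min (y + t * (w * (1 - y ^ 2))) (-(1 / 2)) := by
  have h3 : 0 ≤ 1 - y ^ 2 := by nlinarith
  have h4 : 0 ≤ t * (w * (1 - y ^ 2)) := mul_nonneg ht (mul_nonneg hw.le h3)
  unfold hf
  rw [max_eq_right hy1, sub_zero, div_self hw.ne', mul_one, zero_mul, mul_zero, add_zero]
  split_ifs with h
  · rw [max_eq_right (by linarith : -(1 / 2) - y ≤ 0), add_zero,
      min_eq_right (by linarith : y ≤ y + t * (w * (1 - y ^ 2)))]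
    exact min_eq_left hy1
  · push Not at h
    rw [max_eq_left (by linarith : 0 ≤ -(1 / 2) - y), show y + (-(1 / 2) - y) = -(1 / 2) by ring]
    apply min_eq_left
    exact (min_le_right _ _).trans (by norm_num)

/-- the two-point motion, pure form -/
lemma corner_pt {V W x y t s : ℝ} (hV : 0 < V) (hW : 0 < W) (hx : 0 < x ∧ x ≤ 1 / 2)
    (hy : -1 < y ∧ y < 0) (h0 : 0 ≤ s) (hst : s ≤ t)
    (hn : ∀ r ∈ Icc 0 t, x + r * (V * (1 - x ^ 2)) < 1 / 2 → y + r * (W * (1 - y ^ 2)) ≤ -(1 / 2) →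
      nr (x + r * (V * (1 - x ^ 2))) (y + r * (W * (1 - y ^ 2))) (V * (1 - x ^ 2)) (W * (1 - y ^ 2)) < 0) :
    RR (hf V V x s) (hf 0 W y s) ≤ RR (hf V V x t) (hf 0 W y t) ∨ 1 ≤ RR (hf V V x t) (hf 0 W y t) := by
  have ht0 : 0 ≤ t := h0.trans hst
  have hx2 : 0 < 1 - x ^ 2 := by nlinarith [hx.1, hx.2]
  have hy2 : 0 < 1 - y ^ 2 := by nlinarith [hy.1, hy.2]
  set a := V * (1 - x ^ 2) with ha
  set b := W * (1 - y ^ 2) with hb
  have ha0 : 0 < a := mul_pos hV hx2
  have hb0 : 0 < b := mul_pos hW hy2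
  have eU : ∀ r, hf V V x r = min (x + r * a) (1 / 2) := by
    intro r; rw [hf_plain, max_eq_right hx.2]
  have eL : ∀ r, 0 ≤ r → hf 0 W y r = if -(1 / 2) ≤ y then y else min (y + r * b) (-(1 / 2)) :=
    fun r hr => hf_zero hW (by linarith [hy.2]) hr hy.1.le
  rw [eU s, eU t, eL s h0, eL t ht0]
  have mU : min (x + s * a) (1 / 2) ≤ min (x + t * a) (1 / 2) :=
    min_le_min (by nlinarith) le_rfl
  have mU0 : 0 < min (x + s * a) (1 / 2) := lt_min (by nlinarith [mul_nonneg h0 ha0.le, hx.1]) (by norm_num)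
  have mU1 : min (x + t * a) (1 / 2) ≤ 1 / 2 := min_le_right _ _
  by_cases hyc : -(1 / 2) ≤ y
  · rw [if_pos hyc, if_pos hyc]
    exact Or.inl (RR_mono_left (by linarith) mU (by linarith) ⟨hy.1, by linarith [hy.2]⟩ (by linarith [hy.2]))
  rw [if_neg hyc, if_neg hyc]
  push Not at hyc
  have mL : ∀ r, 0 ≤ r → -1 < min (y + r * b) (-(1 / 2)) ∧ min (y + r * b) (-(1 / 2)) ≤ -(1 / 2) :=
    fun r hr => ⟨lt_min (by nlinarith [mul_nonneg hr hb0.le, hy.1]) (by norm_num), min_le_right _ _⟩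
  rcases le_or_gt (1 / 2) (x + t * a) with h1 | h1
  · right
    rw [min_eq_right h1]
    exact RR_wall_ge (mL t ht0).1 (mL t ht0).2
  left
  have hs1 : x + s * a < 1 / 2 := by nlinarith
  rw [min_eq_left h1.le, min_eq_left hs1.le]
  -- the segment up to time `T`
  have seg : ∀ T, 0 ≤ T → T ≤ t → y + T * b ≤ -(1 / 2) → ∀ r, 0 ≤ r → r ≤ T →
      RR (x + r * a) (y + r * b) ≤ RR (x + T * a) (y + T * b) := by
    intro T hT0 hT1 hT2 r hr0 hr1
    have key := seg_strictMono (x := x) (y := y) (a := a) (b := b) (t := T) (by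
      intro q hq
      have q1 := mul_nonneg hq.1 ha0.le
      have q2 := mul_nonneg hq.1 hb0.le
      have q3 : q * a ≤ t * a := mul_le_mul_of_nonneg_right (hq.2.trans hT1) ha0.le
      have q4 : q * b ≤ T * b := mul_le_mul_of_nonneg_right hq.2 hb0.le
      exact ⟨⟨by linarith [hx.1], by linarith⟩, ⟨by linarith [hy.1], by linarith⟩⟩) (by
      intro q hq
      have q3 : q * a ≤ t * a := mul_le_mul_of_nonneg_right (hq.2.trans hT1) ha0.le
      have q4 : q * b ≤ T * b := mul_le_mul_of_nonneg_right hq.2 hb0.le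
      exact hn q ⟨hq.1, hq.2.trans hT1⟩ (by linarith) (by linarith))
    exact key.monotoneOn ⟨hr0, hr1⟩ ⟨hT0, le_rfl⟩ hr1
  rcases le_or_gt (y + t * b) (-(1 / 2)) with h2 | h2
  · have hs2 : y + s * b ≤ -(1 / 2) := by nlinarith
    rw [min_eq_left h2, min_eq_left hs2]
    exact seg t ht0 le_rfl h2 s h0 hst
  · rw [min_eq_right h2.le]
    set T := (-(1 / 2) - y) / b with hT
    have hTb : y + T * b = -(1 / 2) := by rw [hT, div_mul_cancel₀ _ hb0.ne']; ring
    have hT0 : 0 ≤ T := div_nonneg (by linarith) hb0.le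
    have hT1 : T ≤ t := by rw [hT, div_le_iff₀ hb0]; linarith
    have up : ∀ r, 0 ≤ r → r ≤ t → RR (x + r * a) (-(1 / 2)) ≤ RR (x + t * a) (-(1 / 2)) := by
      intro r hr0 hr1
      have q1 := mul_nonneg hr0 ha0.le
      have q3 : r * a ≤ t * a := mul_le_mul_of_nonneg_right hr1 ha0.le
      exact RR_mono_left (by linarith [hx.1]) (by linarith) (by linarith) (by norm_num) (by linarith [hx.1])
    rcases le_or_gt s T with h3 | h3
    · have hs2 : y + s * b ≤ -(1 / 2) := by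
        have := mul_le_mul_of_nonneg_right h3 hb0.le
        linarith
      rw [min_eq_left hs2]
      have := seg T hT0 hT1 hTb.le s h0 h3
      rw [hTb] at this
      exact this.trans (up T hT0 hT1)
    · have hs2 : -(1 / 2) ≤ y + s * b := by
        have := mul_le_mul_of_nonneg_right h3.le hb0.le
        linarith
      rw [min_eq_right hs2]
      exact up s h0 hst

/-- **A moving upper point at the wall above a two-valued lower point at the touching height** -/
theorem monoQ_corner {z v w : Fin n → ℝ} {i j : Fin n} (hzi : z i = 1 / 2)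
    (hzj : z j = -(1 / 2)) (h1 : w i = v i) (h2 : 0 < v i) (h3 : v j = 0) (h4 : 0 < w j)
    (h5 : nr (z i) (z j) (v i * (1 - z i ^ 2)) (w j * (1 - z j ^ 2)) < 0) :
    MonoQ z (hF v w) i j := by
  have hpi : Tendsto (fun p : (Fin n → ℝ) × ℝ => p.1 i) (𝓝 (z, 0)) (𝓝 (z i)) :=
    ((continuous_apply i).comp continuous_fst).tendsto' _ _ rfl
  have hpj : Tendsto (fun p : (Fin n → ℝ) × ℝ => p.1 j) (𝓝 (z, 0)) (𝓝 (z j)) :=
    ((continuous_apply j).comp continuous_fst).tendsto' _ _ rfl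
  have hpt : Tendsto (fun p : (Fin n → ℝ) × ℝ => p.2) (𝓝 (z, 0)) (𝓝 0) :=
    continuous_snd.tendsto' _ _ rfl
  have hA : Tendsto (fun p : (Fin n → ℝ) × ℝ => v i * (1 - p.1 i ^ 2)) (𝓝 (z, 0))
      (𝓝 (v i * (1 - z i ^ 2))) := (tendsto_const_nhds.sub (hpi.pow 2)).const_mul _
  have hB : Tendsto (fun p : (Fin n → ℝ) × ℝ => w j * (1 - p.1 j ^ 2)) (𝓝 (z, 0))
      (𝓝 (w j * (1 - z j ^ 2))) := (tendsto_const_nhds.sub (hpj.pow 2)).const_mul _
  have hX : Tendsto (fun p : (Fin n → ℝ) × ℝ => p.1 i + p.2 * (v i * (1 - p.1 i ^ 2))) (𝓝 (z, 0))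
      (𝓝 (z i)) := by
    have := hpi.add (hpt.mul hA)
    rwa [zero_mul, add_zero] at this
  have hY : Tendsto (fun p : (Fin n → ℝ) × ℝ => p.1 j + p.2 * (w j * (1 - p.1 j ^ 2))) (𝓝 (z, 0))
      (𝓝 (z j)) := by
    have := hpj.add (hpt.mul hB)
    rwa [zero_mul, add_zero] at this
  have hN : Tendsto (fun p : (Fin n → ℝ) × ℝ => nr (p.1 i + p.2 * (v i * (1 - p.1 i ^ 2)))
      (p.1 j + p.2 * (w j * (1 - p.1 j ^ 2))) (v i * (1 - p.1 i ^ 2)) (w j * (1 - p.1 j ^ 2)))
      (𝓝 (z, 0)) (𝓝 (nr (z i) (z j) (v i * (1 - z i ^ 2)) (w j * (1 - z j ^ 2)))) := by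
    unfold nr
    refine Tendsto.add (Tendsto.div ?_ ?_ ?_) (Tendsto.div ?_ ?_ ?_)
    · exact (hY.sub (hX.div_const 2)).mul hA
    · exact tendsto_const_nhds.sub (hX.pow 2)
    · rw [hzi]; norm_num
    · exact (hX.sub (hY.div_const 2)).mul hB
    · exact tendsto_const_nhds.sub (hY.pow 2)
    · rw [hzj]; norm_num
  unfold MonoQ
  filter_upwards [ev_all_le (hN.eventually (gt_mem_nhds h5)),
    hpi.eventually (lt_mem_nhds (by rw [hzi]; norm_num : 0 < z i)),
    hpj.eventually (lt_mem_nhds (by rw [hzj]; norm_num : -1 < z j)),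
    hpj.eventually (gt_mem_nhds (by rw [hzj]; norm_num : z j < 0))] with p p1 p3 p4 p5 ha s h0 hs
  unfold hF
  rw [h1, h3]
  exact corner_pt h2 h4 ⟨p3, (ha i).2⟩ ⟨p4, p5⟩ h0 hs
    (fun r hr _ _ => p1 r hr.1 hr.2)

lemma EBr.toEBs {z v w : Fin n → ℝ} {i j : Fin n} {c : ℝ} (hvw : ∀ k, VW (v k) (w k))
    (hz : ∀ k, z k ≤ 1 / 2) (hi : -1 < z i) (hj : -1 < z j)
    (h : EBr (z i) (z j) (v i) (w i) (v j) (w j) c) :
    EBs z (hF v w) (fun k => hLo (v k) (w k) (z k)) (fun k => hHi (v k) (w k) (z k)) i j c := by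
  rcases h with h | ⟨h1, h2, h3, h4, h5⟩ | ⟨h1, h2, h3, h4, h5⟩ |
    ⟨h1, h2, h3, h4, h5, h6, h7, h8⟩ | ⟨h1, h2, h3, h4, h5, h6, h7, h8⟩
  · exact h.toEBs
  · exact Or.inr ⟨monoQ_up hvw hz hi hj h1 h2 h3 h4, h5⟩
  · exact Or.inr ⟨(monoQ_up hvw hz hj hi h1 h2 h3 h4).symm, h5⟩
  · exact Or.inr ⟨monoQ_corner h1 h2 h3 h4 h5 h6 h7, h8⟩
  · refine Or.inr ⟨(monoQ_corner h2 h1 h3 h4 h5 h6 ?_).symm, h8⟩
    rw [nr_comm]; exact h7

end

/-! ## correction of the constants -/

open Classical in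
/-- the corrected constant -/
noncomputable def fixc {X : Type*} (st : X → Prop) (ρ : ℝ) (c : X → X → ℝ) (i j : X) : ℝ :=
  if st i ∧ st j ∧ -ρ ≤ c i j then 0 else c i j - 10 * ρ

lemma fixc_ok {X : Type*} {st : X → Prop} {E : X → X → ℝ → Prop} (h0 : ∀ i j, st i → st j → E i j 0)
    {ρ : ℝ} {c : X → X → ℝ} {i j : X} (h : (st i ∧ st j ∧ -ρ ≤ c i j) ∨ E i j (c i j - 10 * ρ)) :
    E i j (fixc st ρ c i j) := by
  unfold fixc
  split_ifs with h1
  · exact h0 i j h1.1 h1.2.1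
  · rcases h with h | h
    · exact absurd h h1
    · exact h

lemma fixc_sum {X : Type*} {st : X → Prop} {ρ : ℝ} (hρ : 0 < ρ) {c : X → X → ℝ} {χ : ℕ → X} {q : ℕ}
    (hq0 : 1 ≤ q) (hq : q ≤ 11) (hns : ∃ k ≤ q, ¬ st (χ k)) :
    ∑ k ∈ Finset.range q, fixc st ρ c (χ k) (χ (k + 1)) ≤
      ∑ k ∈ Finset.range q, c (χ k) (χ (k + 1)) := by
  classical
  -- an edge with a moving end
  obtain ⟨k0, hk0, hs0⟩ : ∃ k0 < q, ¬ (st (χ k0) ∧ st (χ (k0 + 1))) := by
    obtain ⟨k, hk, hs⟩ := hns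
    rcases Nat.lt_or_ge k q with h | h
    · exact ⟨k, h, fun h' => hs h'.1⟩
    · refine ⟨q - 1, by omega, fun h' => hs ?_⟩
      have : k = q - 1 + 1 := by omega
      rw [this]; exact h'.2
  have h1 : ∀ k ∈ Finset.range q, fixc st ρ c (χ k) (χ (k + 1)) ≤
      c (χ k) (χ (k + 1)) + ρ + if k = k0 then -(11 * ρ) else 0 := by
    intro k _
    by_cases hk : k = k0
    · rw [if_pos hk, hk]
      unfold fixc
      rw [if_neg (fun h => hs0 ⟨h.1, h.2.1⟩)]
      linarith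
    · rw [if_neg hk]
      unfold fixc
      split_ifs with h2
      · linarith [h2.2.2]
      · linarith
  have h2 := Finset.sum_le_sum h1
  rw [Finset.sum_add_distrib, Finset.sum_add_distrib, Finset.sum_const, Finset.card_range,
    Finset.sum_ite_eq', if_pos (Finset.mem_range.2 hk0), nsmul_eq_mul] at h2
  have h3 : (q : ℝ) ≤ 11 := by exact_mod_cast hq
  nlinarith

/-! ## walks with eleven nodes, split at the first node -/

lemma succ_clN_dm {a : ℕ} (ha : a % 11 ≠ 0) :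
    (clN 10 (by norm_num) (dm 0 a)).succ = clN 11 (by norm_num) a := by
  have := clN_dm 0 (a := a) (by simpa using ha)
  rwa [Fin.succAbove_zero] at this

/-- a closed walk with eleven nodes either avoids the first node or is a path closed by a hop -/
theorem walk_split {v : ℕ → ℕ} {r : ℕ} (hv : IsWalk 11 v r) (he : v r = v 0 + 11) :
    (r ≤ 10 ∧ ∃ g : ℕ → ℕ, IsWalk 10 g r ∧ g r = g 0 + 10 ∧
      ∀ k ≤ r, (clN 10 (by norm_num) (g k)).succ = clN 11 (by norm_num) (v k)) ∨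
    (∃ (u g : ℕ → ℕ) (q : ℕ), r = q + 2 ∧ IsWalk 11 u r ∧ u r = u 0 + 11 ∧
      clN 11 (by norm_num) (u 0) = 0 ∧ clN 11 (by norm_num) (u r) = 0 ∧
      (∀ f : Fin 11 → Fin 11 → ℝ,
        ∑ k ∈ Finset.range r, f (clN 11 (by norm_num) (u k)) (clN 11 (by norm_num) (u (k + 1))) =
          ∑ k ∈ Finset.range r, f (clN 11 (by norm_num) (v k)) (clN 11 (by norm_num) (v (k + 1)))) ∧
      (∀ Q : Fin 11 → Fin 11 → Prop, (∀ k < r, Q (clN 11 (by norm_num) (v k))
        (clN 11 (by norm_num) (v (k + 1)))) →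
        ∀ k < r, Q (clN 11 (by norm_num) (u k)) (clN 11 (by norm_num) (u (k + 1)))) ∧
      (∀ k ≤ q, (clN 10 (by norm_num) (g k)).succ = clN 11 (by norm_num) (u (k + 1))) ∧
      (1 ≤ q → q + 1 ≤ 10 ∧ IsWalk 10 g (q + 1) ∧ g (q + 1) = g 0 + 10 ∧ Psd 0 (g q) (g 0))) := by
  have hrpos : 0 < r := by
    rcases Nat.eq_zero_or_pos r with h | h
    · rw [h] at he; omega
    · exact h
  by_cases hs : ∀ k < r, v k % 11 ≠ 0
  · left
    have hs' : ∀ k ≤ r, v k % 11 ≠ 0 := by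
      intro k hk
      rcases Nat.lt_or_ge k r with h | h
      · exact hs k h
      · have : k = r := by omega
        rw [this, he, Nat.add_mod_right]
        exact hs 0 hrpos
    have hw : IsWalk 10 (fun k => dm 0 (v k)) r := by
      intro k hk
      obtain ⟨a1, a2⟩ := hv k hk
      refine ⟨dm_lt 0 a1 (hs' k hk.le) (hs' _ hk), ?_⟩
      have := dm_lt 0 a2 (hs' _ hk) (by rw [Nat.add_mod_right]; exact hs' k hk.le)
      rwa [dm_add] at this
    have he' : dm 0 (v r) = dm 0 (v 0) + 10 := by rw [he, dm_add]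
    have hr10 : r ≤ 10 := by
      have := isWalk_ge hw r le_rfl
      omega
    exact ⟨hr10, fun k => dm 0 (v k), hw, he', fun k hk => succ_clN_dm (hs' k hk)⟩
  · right
    push Not at hs
    obtain ⟨k0, hk0, hs0⟩ := hs
    obtain ⟨u, b1, b2, b3, b4, b5⟩ := walk_rot (n := 11) (by norm_num) k0 hk0 hv he
    have hu0 : u 0 % 11 = 0 := by rw [b3]; exact hs0
    have c0 : clN 11 (by norm_num) (u 0) = 0 := by unfold clN; ext; exact hu0
    have cr : clN 11 (by norm_num) (u r) = 0 := by rw [b2, clN_add]; exact c0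
    have hmono : ∀ k j, k ≤ j → j ≤ r → u k ≤ u j := by
      intro k j hkj
      induction j with
      | zero => intro _; rw [Nat.le_zero.1 hkj]
      | succ j ih =>
        intro hj
        rcases Nat.lt_or_ge k (j + 1) with h | h
        · have := ih (by omega) (by omega)
          have := (b1 j (by omega)).1
          omega
        · have : k = j + 1 := by omega
          rw [this]
    have hin : ∀ k, 0 < k → k < r → u k % 11 ≠ 0 := by
      intro k h1 h2 h3
      have g1 := isWalk_ge b1 k h2.le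
      have g2 := (b1 k h2).1
      have g3 := hmono (k + 1) r (by omega) le_rfl
      rw [b2] at g3
      omega
    have hr2 : r ≠ 1 := by
      intro h
      have := (b1 0 (by omega)).2
      rw [h] at b2
      simp only [zero_add] at this
      omega
    obtain ⟨q, rfl⟩ : ∃ q, r = q + 2 := ⟨r - 2, by omega⟩
    have hin1 : ∀ k, k ≤ q → u (k + 1) % 11 ≠ 0 := fun k hk => hin (k + 1) (by omega) (by omega)
    set g : ℕ → ℕ := fun k => if k ≤ q then dm 0 (u (k + 1)) else dm 0 (u 1) + 10 with hg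
    have g_le : ∀ k, k ≤ q → g k = dm 0 (u (k + 1)) := fun k hk => if_pos hk
    have g_last : g (q + 1) = dm 0 (u 1) + 10 := if_neg (by omega)
    refine ⟨u, g, q, rfl, b1, b2, c0, cr, b4, b5, ?_, ?_⟩
    · intro k hk
      rw [g_le k hk]
      exact succ_clN_dm (hin1 k hk)
    · intro hq
      have hgw : IsWalk 10 g (q + 1) := by
        intro k hk
        rcases Nat.lt_or_ge k q with h | h
        · rw [g_le k h.le, g_le (k + 1) h]
          obtain ⟨a1, a2⟩ := b1 (k + 1) (by omega)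
          refine ⟨dm_lt 0 a1 (hin1 k h.le) (hin1 _ h), ?_⟩
          have := dm_lt 0 a2 (hin1 _ h) (by rw [Nat.add_mod_right]; exact hin1 k h.le)
          rwa [dm_add] at this
        · have hkq : k = q := by omega
          rw [hkq, g_le q le_rfl, g_last]
          constructor
          · have h1 : u (q + 1) < u 1 + 11 := by
              have g1 := (b1 (q + 1) (by omega)).1
              have g2 := (b1 0 (by omega)).1
              rw [show q + 1 + 1 = q + 2 by ring, b2] at g1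
              rw [zero_add] at g2
              omega
            have := dm_lt 0 h1 (hin1 q le_rfl) (by
              rw [Nat.add_mod_right]; exact hin1 0 (by omega))
            rwa [dm_add] at this
          · have h1 : u 1 < u (q + 1) := by
              have g1 := hmono 2 (q + 1) (by omega) (by omega)
              have g2 : u 1 < u 2 := (b1 1 (by omega)).1
              omega
            have := dm_lt 0 h1 (hin1 0 (by omega)) (hin1 q le_rfl)
            omega
      have hge : g (q + 1) = g 0 + 10 := by rw [g_last, g_le 0 (by omega)]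
      have hq10 : q + 1 ≤ 10 := by
        have := isWalk_ge hgw (q + 1) le_rfl
        omega
      refine ⟨hq10, hgw, hge, ?_⟩
      rw [g_le q le_rfl, g_le 0 (by omega)]
      refine psd_of 0 hu0 ?_ ?_ (b1 0 (by omega)).1
      · have := hmono 1 (q + 1) (by omega) (by omega)
        have := (b1 0 (by omega)).1
        simp only [zero_add] at this
        omega
      · have := (b1 (q + 1) (by omega)).1
        rw [show q + 1 + 1 = q + 2 by ring, b2] at this
        exact this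

end Pool.Agent.Helper66.Kiss
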