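import Pool.Agent.Helper66.Kiss.DlG0
import Pool.Agent.Helper98.DL.FDef

set_option autoImplicit false

/-! # All leaves: functions for the kernel -/

namespace Pool.Agent.Helper66.Kiss.DlG

open Pool.Agent.Helper98.FD

/-- direction leaf -/
noncomputable def k0G (L D r : Nat) : Bool :=
  an (Nat.ble (nat_lit 1) (b1F L)) (an (Nat.ble (nat_lit 1) (kKF D)) (dlF L D r))

/-- the nodes of the functional check -/
noncomputable def k1C (L D r E : Nat) : Bool :=
  funG E (nkF L D r (nat_lit 0)) (nkF L D r (nat_lit 1)) (nkF L D r (nat_lit 2))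
    (nkF L D r (nat_lit 3)) (nkF L D r (nat_lit 4)) (nkF L D r (nat_lit 5))
    (nkF L D r (nat_lit 6)) (nkF L D r (nat_lit 7)) (nkF L D r (nat_lit 8))
    (nkF L D r (nat_lit 9))

/-- functional leaf; `E` thresholds -/
noncomputable def k1B (L D r E : Nat) : Bool :=
  an (dlF L D r) (an (k1C L D r E)
    (Bool.rec (motive := fun _ => Bool) (poF L D r) true (Nat.ble (nat_lit 1) (b1F L))))

/-- functional leaf -/
noncomputable def k1G (L D r : Nat) : Bool :=
  fzB (Nat.div D (nat_lit 281474976710656)) fun D' =>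
    k1B L D' r (Nat.mod D (nat_lit 281474976710656))

/-- the kinds -/
noncomputable def kdG (L D r k : Nat) : Bool :=
  Nat.rec (motive := fun _ => Bool) (k0G L D r) (fun k _ =>
  Nat.rec (motive := fun _ => Bool) (k1G L D r) (fun k _ =>
  Nat.rec (motive := fun _ => Bool) (r1H L) (fun k _ =>
  Nat.rec (motive := fun _ => Bool) (j1H L) (fun k _ =>
  Nat.rec (motive := fun _ => Bool) (j2H L) (fun k _ =>
  Nat.rec (motive := fun _ => Bool) false (fun k _ =>
  Nat.rec (motive := fun _ => Bool) (j3H L) (fun _ _ => false) k) k) k) k) k) k) k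

/-- **all leaves**, kinds `0, 1, 2, 3, 4, 6` -/
noncomputable def dlG (L _f D r : Nat) : Bool := kdG L D r (Nat.mod r (nat_lit 8))

/-- **all leaves**, with the order of the first and the last node (kind `5`) -/
noncomputable def dlH (L f D r : Nat) : Bool :=
  Bool.rec (motive := fun _ => Bool) (dlG L f D r) (syH L)
    (Nat.beq (Nat.mod r (nat_lit 8)) (nat_lit 5))

end Pool.Agent.Helper66.Kiss.DlG
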