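import Pool.Agent.Helper66.Kiss.R1B

set_option autoImplicit false

/-! # Assembly: what remains are the tables -/

namespace Pool.Agent.Helper66.Kiss

open Real Set Filter Topology

/-- states whose neighbours are all joined to the base -/
lemma gainS_of_J {Φ : (Fin 11 → ℝ) → ℝ} {z φ : Fin 11 → ℝ}
    (h : GainP univ (fun _ => 0) z φ) : GainS Φ z φ := by
  obtain ⟨U, hU, δ, hδ, hg⟩ := h
  refine ⟨U, hU, δ, hδ, fun y η hy hF hs => Or.inl ?_⟩
  rcases hg y η hy hF hs (mem_univ _) with h | ⟨y', η', -, -, h, -⟩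
  · exact h
  · exfalso; linarith

/-- **Assembly.** `certA`: tilts at least `arccos c1`; `certB`: tilts at most `arccos c1`. The first
point is the most antipodal one. -/
theorem assemble {c0 c1 : ℝ} (h0 : 9 / 10 ≤ c0) (h1 : c1 < 1)
    (hSDP : ∀ X ∈ Conf, c0 < Psi X)
    (certA : ∀ z φ, SA c0 c1 z φ 0 → GainL PhiB z φ)
    (certB : ∀ z φ, SL c0 z φ 0 → z 0 ≤ -c1 →
      (∀ ρ : Equiv.Perm (Fin 11), ¬ Helper54.R1.Box (z ∘ ρ)) → GainL PhiB z φ) :
    IsPathConnected Conf := by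
  have hA : ∀ X ∈ Conf, JB X := by
    refine stageL2 PhiB_cont PhiB_perm h0 hSDP ?_
    intro z φ s hS
    refine GainL.shift PhiB_perm s ?_
    have h := hS.shift
    rcases le_total (-c1) (shz s z 0) with h2 | h2
    · exact certA _ _ (h.toSA h1 h2)
    · by_cases hb : ∃ ρ : Equiv.Perm (Fin 11), Helper54.R1.Box (shz s z ∘ ρ)
      · obtain ⟨ρ, hρ⟩ := hb
        exact Or.inr (r1_gainS h.fe ρ hρ)
      · push Not at hb
        exact certB _ _ h h2 hb
  exact ⟨base, base_mem, fun {x} hx => (hA x hx).symm⟩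

end Pool.Agent.Helper66.Kiss
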