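import Pool.Agent.Helper54.R1.Lab

set_option autoImplicit false

/-! # The FCC/HCP box from the classes of the ten points -/

namespace Pool.Agent.Helper66.Kiss

open Helper54.R1

/-- the class is `0` near the ring, `1` near the equator, `2` near the upper ring -/
theorem box_of_classes {z : Fin 11 → ℝ} {cl : Fin 10 → ℕ}
    (hM : (Finset.univ.filter fun l => cl l = 1).card = 2)
    (hU : (Finset.univ.filter fun l => cl l = 2).card = 4)
    (hL : (Finset.univ.filter fun l => cl l = 0).card = 4)
    (h1 : ∀ l, cl l = 1 → |z l.succ| ≤ 1 / 16)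
    (h2 : ∀ l, cl l = 2 → 1 / 2 - 3 / 256 ≤ z l.succ)
    (h0 : ∀ l, cl l = 0 → |z l.succ + 1 / 2| ≤ 3 / 256) (hS : z 0 ≤ -15 / 16) :
    ∃ ρ : Equiv.Perm (Fin 11), Box (z ∘ ρ) := by
  classical
  obtain ⟨a, b, hab, hMe⟩ := Finset.card_eq_two.1 hM
  have hmem : ∀ x, x ∈ ({a, b} : Finset (Fin 10)) → cl x = 1 := fun x hx => by
    rw [← hMe] at hx; exact (Finset.mem_filter.1 hx).2
  have ha : cl a = 1 := hmem a (by simp)
  have hb : cl b = 1 := hmem b (by simp)
  -- the upper of the two middle points
  obtain ⟨p, q, hpq, hp, hq, hle⟩ : ∃ p q : Fin 10, p ≠ q ∧ cl p = 1 ∧ cl q = 1 ∧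
      z q.succ ≤ z p.succ := by
    rcases le_total (z b.succ) (z a.succ) with h | h
    · exact ⟨a, b, hab, ha, hb, h⟩
    · exact ⟨b, a, hab.symm, hb, ha, h⟩
  set eU := (Finset.univ.filter fun l => cl l = 2).orderEmbOfFin hU with heU
  set eL := (Finset.univ.filter fun l => cl l = 0).orderEmbOfFin hL with heL
  have cU : ∀ k, cl (eU k) = 2 := fun k =>
    (Finset.mem_filter.1 (Finset.orderEmbOfFin_mem _ hU k)).2
  have cL : ∀ k, cl (eL k) = 0 := fun k =>
    (Finset.mem_filter.1 (Finset.orderEmbOfFin_mem _ hL k)).2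
  set f : Fin 11 → Fin 11 := ![p.succ, (eU 0).succ, (eU 1).succ, (eU 2).succ, (eU 3).succ, q.succ,
    (eL 0).succ, (eL 1).succ, (eL 2).succ, (eL 3).succ, 0] with hf
  have f0 : f 0 = p.succ := rfl
  have f5 : f 5 = q.succ := rfl
  have f10 : f 10 = 0 := rfl
  have fU : ∀ k : Fin 4, f (iU k) = (eU k).succ := by intro k; fin_cases k <;> rfl
  have fL : ∀ k : Fin 4, f (iL k) = (eL k).succ := by intro k; fin_cases k <;> rfl
  have hinj : Function.Injective f := by
    intro i j hij
    have hc : ∀ i, i = 0 ∨ i = 5 ∨ i = 10 ∨ (∃ k, i = iU k) ∨ (∃ k, i = iL k) := by decide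
    rcases hc i with rfl | rfl | rfl | ⟨k, rfl⟩ | ⟨k, rfl⟩ <;>
    rcases hc j with rfl | rfl | rfl | ⟨l, rfl⟩ | ⟨l, rfl⟩
    · rfl
    · rw [f0, f5] at hij; exact absurd (Fin.succ_injective _ hij) hpq
    · rw [f0, f10] at hij; exact absurd hij (Fin.succ_ne_zero _)
    · rw [f0, fU] at hij
      have := Fin.succ_injective _ hij
      have h3 := cU l
      rw [← this, hp] at h3; omega
    · rw [f0, fL] at hij
      have := Fin.succ_injective _ hij
      have h3 := cL l
      rw [← this, hp] at h3; omega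
    · rw [f0, f5] at hij; exact absurd (Fin.succ_injective _ hij).symm hpq
    · rfl
    · rw [f5, f10] at hij; exact absurd hij (Fin.succ_ne_zero _)
    · rw [f5, fU] at hij
      have := Fin.succ_injective _ hij
      have h3 := cU l
      rw [← this, hq] at h3; omega
    · rw [f5, fL] at hij
      have := Fin.succ_injective _ hij
      have h3 := cL l
      rw [← this, hq] at h3; omega
    · rw [f0, f10] at hij; exact absurd hij.symm (Fin.succ_ne_zero _)
    · rw [f5, f10] at hij; exact absurd hij.symm (Fin.succ_ne_zero _)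
    · rfl
    · rw [fU, f10] at hij; exact absurd hij.symm (Fin.succ_ne_zero _)
    · rw [fL, f10] at hij; exact absurd hij.symm (Fin.succ_ne_zero _)
    · rw [f0, fU] at hij
      have := Fin.succ_injective _ hij
      have h3 := cU k
      rw [this, hp] at h3; omega
    · rw [f5, fU] at hij
      have := Fin.succ_injective _ hij
      have h3 := cU k
      rw [this, hq] at h3; omega
    · rw [fU, f10] at hij; exact absurd hij (Fin.succ_ne_zero _)
    · rw [fU, fU] at hij
      rw [eU.injective (Fin.succ_injective _ hij)]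
    · rw [fU, fL] at hij
      have := Fin.succ_injective _ hij
      have h3 := cU k
      have h4 := cL l
      rw [this, h4] at h3; omega
    · rw [f0, fL] at hij
      have := Fin.succ_injective _ hij
      have h3 := cL k
      rw [this, hp] at h3; omega
    · rw [f5, fL] at hij
      have := Fin.succ_injective _ hij
      have h3 := cL k
      rw [this, hq] at h3; omega
    · rw [fL, f10] at hij; exact absurd hij (Fin.succ_ne_zero _)
    · rw [fU, fL] at hij
      have := Fin.succ_injective _ hij
      have h3 := cL k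
      have h4 := cU l
      rw [this, h4] at h3; omega
    · rw [fL, fL] at hij
      rw [eL.injective (Fin.succ_injective _ hij)]
  refine ⟨Equiv.ofBijective f (Finite.injective_iff_bijective.1 hinj), ?_, ?_, ?_, ?_, ?_, ?_⟩
  · show |z (f 0)| ≤ _; rw [f0]; exact h1 _ hp
  · show |z (f 5)| ≤ _; rw [f5]; exact h1 _ hq
  · show z (f 5) ≤ z (f 0); rw [f5, f0]; exact hle
  · intro k; show _ ≤ z (f (iU k)); rw [fU]; exact h2 _ (cU k)
  · intro k; show |z (f (iL k)) + 1 / 2| ≤ _; rw [fL]; exact h0 _ (cL k)
  · show z (f 10) ≤ _; rw [f10]; exact hS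

end Pool.Agent.Helper66.Kiss
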