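import Pool.Agent.Helper66.Kiss.Local

set_option autoImplicit false

/-! # Ascent with one point at the north pole -/

namespace Pool.Agent.Helper66.Kiss

open Real Set Filter Topology

/-- north pole and eleven points with heights `z` and longitudes `φ` -/
noncomputable def pinN (z φ : Fin 11 → ℝ) : Fin 12 → E3 := Fin.cons e3 (fun k => pt (z k) (φ k))

lemma pinN_zero (z φ : Fin 11 → ℝ) : pinN z φ 0 = e3 := rfl
lemma pinN_succ (z φ : Fin 11 → ℝ) (k : Fin 11) : pinN z φ k.succ = pt (z k) (φ k) := rfl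

/-- feasible heights and longitudes -/
def Fe (z φ : Fin 11 → ℝ) : Prop :=
  (∀ k, -1 ≤ z k ∧ z k ≤ 1 / 2) ∧ ∀ i j, i ≠ j → gg (z i) (z j) (φ i) (φ j) ≤ 1 / 2

lemma pinN_mem {z φ : Fin 11 → ℝ} (h : Fe z φ) : pinN z φ ∈ Conf := by
  obtain ⟨h1, h2⟩ := h
  rw [mem_Conf_iff]
  constructor
  · intro i
    rcases Fin.eq_zero_or_eq_succ i with rfl | ⟨k, rfl⟩
    · exact inner_e3_e3
    · rw [pinN_succ]
      exact inner_pt_self _ _ (by nlinarith [(h1 k).1, (h1 k).2])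
  · intro i j hij
    rcases Fin.eq_zero_or_eq_succ i with rfl | ⟨k, rfl⟩ <;>
      rcases Fin.eq_zero_or_eq_succ j with rfl | ⟨l, rfl⟩
    · exact absurd rfl hij
    · rw [pinN_zero, pinN_succ, inner_e3_pt]; exact (h1 l).2
    · rw [pinN_zero, pinN_succ, inner_pt_e3]; exact (h1 k).2
    · rw [pinN_succ, pinN_succ, ← gg_eq]
      exact h2 k l (fun h => hij (by rw [h]))

lemma continuous_pinN {X : Type*} [TopologicalSpace X] {z φ : X → Fin 11 → ℝ}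
    (hz : ∀ k, Continuous fun x => z x k) (hφ : ∀ k, Continuous fun x => φ x k) :
    Continuous fun x => pinN (z x) (φ x) := by
  refine continuous_pi fun i => ?_
  rcases Fin.eq_zero_or_eq_succ i with rfl | ⟨k, rfl⟩
  · simp only [pinN_zero]; exact continuous_const
  · simp only [pinN_succ]; exact continuous_pt (hz k) (hφ k)

lemma continuous_gg {X : Type*} [TopologicalSpace X] {a b c d : X → ℝ} (ha : Continuous a)
    (hb : Continuous b) (hc : Continuous c) (hd : Continuous d) :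
    Continuous fun x => gg (a x) (b x) (c x) (d x) := by
  unfold gg; fun_prop

/-- reduce a longitude to `[0, 2π)` -/
noncomputable def red (x : ℝ) : ℝ := toIcoMod Real.two_pi_pos 0 x

lemma red_mem (x : ℝ) : 0 ≤ red x ∧ red x < 2 * π := by
  have := toIcoMod_mem_Ico Real.two_pi_pos 0 x
  simpa [red] using this

lemma red_eq (x : ℝ) : ∃ m : ℤ, red x = x + m * (2 * π) := by
  refine ⟨-toIcoDiv Real.two_pi_pos 0 x, ?_⟩
  unfold red toIcoMod
  rw [zsmul_eq_mul]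
  push_cast; ring

lemma pt_red (s x : ℝ) : pt s (red x) = pt s x := by
  obtain ⟨m, hm⟩ := red_eq x
  unfold pt
  rw [hm, Real.cos_add_int_mul_two_pi, Real.sin_add_int_mul_two_pi]

lemma gg_red (z w a b : ℝ) : gg z w (red a) (red b) = gg z w a b := by
  rw [gg_eq, gg_eq, pt_red, pt_red]

lemma pinN_red (z φ : Fin 11 → ℝ) : pinN z (fun k => red (φ k)) = pinN z φ := by
  unfold pinN; congr 1; funext k; exact pt_red _ _

/-- heights and longitudes -/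
abbrev HL := (Fin 11 → ℝ) × (Fin 11 → ℝ)

/-- the conditions on a velocity field at a state; `dir` asks for longitude velocities `ψ` for which
every contact strictly opens. A point at the south pole must rest (then `dir` asks `V z k > 0` for
the points touching it). -/
structure GoodDir (R : Set (Fin 11 → ℝ)) (Φ : (Fin 11 → ℝ) → ℝ) (z φ : Fin 11 → ℝ)
    (V : (Fin 11 → ℝ) → Fin 11 → ℝ) (c : ℝ) : Prop where
  pos : 0 < c
  smooth : ∀ k, ContDiffAt ℝ 1 (fun z => V z k) z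
  pole : ∀ k, -1 < z k ∨ (z k = -1 ∧ ∀ᶠ z' in 𝓝 z, V z' k = 0)
  stay : ∀ᶠ p : (Fin 11 → ℝ) × ℝ in 𝓝 (z, 0), p.1 ∈ R → (∀ k, -1 ≤ p.1 k ∧ p.1 k ≤ 1 / 2) →
    0 ≤ p.2 → mv V p.1 p.2 ∈ R ∧ (∀ k, -1 ≤ mv V p.1 p.2 k ∧ mv V p.1 p.2 k ≤ 1 / 2)
  gain : ∀ᶠ p : (Fin 11 → ℝ) × ℝ in 𝓝 (z, 0), p.1 ∈ R → (∀ k, -1 ≤ p.1 k ∧ p.1 k ≤ 1 / 2) →
    0 ≤ p.2 → Φ p.1 + c * p.2 ≤ Φ (mv V p.1 p.2)
  dir : ∃ ψ : Fin 11 → ℝ, ∀ i j, i ≠ j → gg (z i) (z j) (φ i) (φ j) = 1 / 2 →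
    nr (z i) (z j) (V z i) (V z j) -
      √(1 - z i ^ 2) * √(1 - z j ^ 2) * sin (φ i - φ j) * (ψ i - ψ j) < 0

/-- uniform gain for all states near `(z, φ)` -/
def Gain (R : Set (Fin 11 → ℝ)) (Φ : (Fin 11 → ℝ) → ℝ) (z φ : Fin 11 → ℝ) : Prop :=
  ∃ U ∈ 𝓝 (z, φ), ∃ δ > 0, ∀ y η, (y, η) ∈ U → Fe y η → y ∈ R → ∃ y' η', Fe y' η' ∧ y' ∈ R ∧
    JoinedIn Conf (pinN y η) (pinN y' η') ∧ Φ y + δ ≤ Φ y'

/-- the cycle condition gives the longitude velocities (no point at the south pole) -/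
theorem dir_of_cyc {z φ v : Fin 11 → ℝ} (hz : ∀ k, -1 < z k) (hF : Fe z φ)
    (vert : ∀ i j, i ≠ j → gg (z i) (z j) (φ i) (φ j) = 1 / 2 → sin (φ j - φ i) = 0 →
      nr (z i) (z j) (v i) (v j) < 0)
    (cyc : ∀ (κ : ℕ → Fin 11) (r : ℕ), 0 < r → (∀ i < r, ∀ j < r, κ i = κ j → i = j) →
      κ r = κ 0 → (∀ k < r, East z φ (κ k) (κ (k + 1))) →
      ∑ k ∈ Finset.range r, wd (z (κ k)) (z (κ (k + 1))) = 2 * π →
      ∑ k ∈ Finset.range r, rate (z (κ k)) (z (κ (k + 1))) (v (κ k)) (v (κ (k + 1))) < 0) :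
    ∃ ψ : Fin 11 → ℝ, ∀ i j, i ≠ j → gg (z i) (z j) (φ i) (φ j) = 1 / 2 →
      nr (z i) (z j) (v i) (v j) -
        √(1 - z i ^ 2) * √(1 - z j ^ 2) * sin (φ i - φ j) * (ψ i - ψ j) < 0 :=
  exists_psi (fun k => ⟨hz k, (hF.1 k).2⟩) hF.2 vert cyc

lemma GoodDir.toGain {R : Set (Fin 11 → ℝ)} {Φ : (Fin 11 → ℝ) → ℝ} {z φ : Fin 11 → ℝ}
    {V : (Fin 11 → ℝ) → Fin 11 → ℝ} {c : ℝ} (hF : Fe z φ) (hg : GoodDir R Φ z φ V c) :
    Gain R Φ z φ := by
  have hz1 : ∀ k, -1 ≤ z k ∧ z k < 1 := fun k => ⟨(hF.1 k).1, by linarith [(hF.1 k).2]⟩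
  obtain ⟨ψ, hψ⟩ := hg.dir
  have e1 := pairs_local (φ := φ) (ψ := ψ) hz1 hg.smooth hg.pole hF.2 hψ
  have hproj : Tendsto (fun p : HL × ℝ => (p.1.1, p.2)) (𝓝 ((z, φ), 0)) (𝓝 (z, 0)) := by
    have : Continuous (fun p : HL × ℝ => (p.1.1, p.2)) := by fun_prop
    exact this.tendsto' _ _ rfl
  have e2 := hproj.eventually hg.stay
  have e3 := hproj.eventually hg.gain
  have e4 := (e1.and e2).and e3
  rw [nhds_prod_eq, Filter.eventually_prod_iff] at e4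
  obtain ⟨P, hP, Q, hQ, hPQ⟩ := e4
  obtain ⟨ε, hε, hεQ⟩ := Metric.eventually_nhds_iff.1 hQ
  have hQ' : ∀ t, 0 ≤ t → t ≤ ε / 2 → Q t := by
    intro t h0 h1
    apply hεQ
    rw [Real.dist_eq, sub_zero, abs_of_nonneg h0]; linarith
  refine ⟨{y | P y}, hP, c * (ε / 2), mul_pos hg.pos (by linarith), ?_⟩
  intro y η hyP hyF hyR
  have hall := fun t (h0 : 0 ≤ t) (h1 : t ≤ ε / 2) => hPQ hyP (hQ' t h0 h1)
  have hfe : ∀ t, 0 ≤ t → t ≤ ε / 2 → Fe (mv V y t) (fun k => η k + t * ψ k) := by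
    intro t h0 h1
    obtain ⟨⟨a1, a2⟩, -⟩ := hall t h0 h1
    exact ⟨(a2 hyR hyF.1 h0).2, a1 hyF.2 h0⟩
  refine ⟨mv V y (ε / 2), fun k => η k + ε / 2 * ψ k, hfe (ε / 2) (by linarith) le_rfl, ?_, ?_, ?_⟩
  · exact ((hall (ε / 2) (by linarith) le_rfl).1.2 hyR hyF.1 (by linarith)).1
  · have hj := joined_of_seg (f := fun t => pinN (mv V y t) (fun k => η k + t * ψ k)) 0 (ε / 2)
      (Continuous.continuousOn (continuous_pinN (fun k => by unfold mv; fun_prop)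
        (fun k => by fun_prop))) (by
        intro t ht
        rw [uIcc_of_le (by linarith)] at ht
        exact pinN_mem (hfe t ht.1 ht.2))
    have e0 : pinN (mv V y 0) (fun k => η k + 0 * ψ k) = pinN y η := by
      congr 1
      · funext k; simp [mv]
      · funext k; simp
    rwa [e0] at hj
  · exact (hall (ε / 2) (by linarith) le_rfl).2 hyR hyF.1 (by linarith)

/-- **Ascent with `N` pinned**, general form. `R` is a closed set of heights, `Φ` a continuous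
function of the heights, `T` an open set of states. -/
theorem pinned_gain {R : Set (Fin 11 → ℝ)} (hR : IsClosed R) {T : Set HL}
    (hT : IsOpen T) {Φ : (Fin 11 → ℝ) → ℝ} (hΦ : Continuous Φ)
    (good : ∀ z φ, Fe z φ → z ∈ R → (z, φ) ∉ T → Gain R Φ z φ) :
    ∀ z φ, Fe z φ → z ∈ R → ∃ z' φ', Fe z' φ' ∧ z' ∈ R ∧ (z', φ') ∈ T ∧
      JoinedIn Conf (pinN z φ) (pinN z' φ') := by
  have hpi := Real.pi_pos
  set A : Set HL := {x | Fe x.1 x.2 ∧ x.1 ∈ R ∧ ∀ k, x.2 k ∈ Icc 0 (2 * π)} with hA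
  have hcl : IsClosed A := by
    have e : A = {x : HL | x.1 ∈ R} ∩ (⋂ k, {x : HL | -1 ≤ x.1 k} ∩ {x : HL | x.1 k ≤ 1 / 2} ∩
        {x : HL | 0 ≤ x.2 k} ∩ {x : HL | x.2 k ≤ 2 * π}) ∩
        ⋂ i, ⋂ j, {x : HL | i ≠ j → gg (x.1 i) (x.1 j) (x.2 i) (x.2 j) ≤ 1 / 2} := by
      ext x
      simp only [hA, Fe, mem_ofPred_eq, mem_inter_iff, mem_iInter, mem_Icc]
      constructor
      · rintro ⟨⟨h1, h2⟩, h3, h4⟩
        exact ⟨⟨h3, fun k => ⟨⟨⟨(h1 k).1, (h1 k).2⟩, (h4 k).1⟩, (h4 k).2⟩⟩, h2⟩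
      · rintro ⟨⟨h3, h⟩, h2⟩
        exact ⟨⟨fun k => ⟨(h k).1.1.1, (h k).1.1.2⟩, h2⟩, h3, fun k => ⟨(h k).1.2, (h k).2⟩⟩
    rw [e]
    refine ((hR.preimage continuous_fst).inter (isClosed_iInter fun k => ?_)).inter
      (isClosed_iInter fun i => isClosed_iInter fun j => ?_)
    · have c1 : Continuous fun x : HL => x.1 k := by fun_prop
      have c2 : Continuous fun x : HL => x.2 k := by fun_prop
      exact (((isClosed_le continuous_const c1).inter (isClosed_le c1 continuous_const)).inter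
        (isClosed_le continuous_const c2)).inter (isClosed_le c2 continuous_const)
    · by_cases hij : i = j
      · have : {x : HL | i ≠ j → gg (x.1 i) (x.1 j) (x.2 i) (x.2 j) ≤ 1 / 2} = univ := by
          ext x; simp [hij]
        rw [this]; exact isClosed_univ
      · have : {x : HL | i ≠ j → gg (x.1 i) (x.1 j) (x.2 i) (x.2 j) ≤ 1 / 2} =
            {x : HL | gg (x.1 i) (x.1 j) (x.2 i) (x.2 j) ≤ 1 / 2} := by
          ext x; simp [hij]
        rw [this]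
        exact isClosed_le (continuous_gg (by fun_prop) (by fun_prop) (by fun_prop) (by fun_prop))
          continuous_const
  have hcomp : IsCompact A := by
    have hb : A ⊆ (Set.pi univ fun _ => Icc (-1 : ℝ) (1 / 2)) ×ˢ
        (Set.pi univ fun _ => Icc (0 : ℝ) (2 * π)) := by
      rintro x ⟨⟨h1, -⟩, -, h3⟩
      exact ⟨fun k _ => h1 k, fun k _ => h3 k⟩
    exact ((isCompact_univ_pi fun _ => isCompact_Icc).prod
      (isCompact_univ_pi fun _ => isCompact_Icc)).of_isClosed_subset hcl hb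
  have hmain := ascent (A := A) (T := T) hcomp hT
    (fun x => pinN x.1 x.2) (fun x => Φ x.1) (fun x hx => pinN_mem hx.1)
    ((hΦ.comp continuous_fst).continuousOn) (by
    rintro ⟨z, φ⟩ ⟨hF, hzR, hφ⟩ hnT
    obtain ⟨U, hU, δ, hδ, hg⟩ := good z φ hF hzR hnT
    refine ⟨U, hU, δ, hδ, ?_⟩
    rintro ⟨y, η⟩ ⟨hyU, hyF, hyR, hyη⟩
    obtain ⟨y', η', f1, f2, f3, f4⟩ := hg y η hyU hyF hyR
    refine ⟨(y', fun k => red (η' k)), ⟨⟨f1.1, fun i j hij => ?_⟩, f2, fun k =>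
      ⟨(red_mem _).1, (red_mem _).2.le⟩⟩, ?_, f4⟩
    · show gg (y' i) (y' j) (red (η' i)) (red (η' j)) ≤ 1 / 2
      rw [gg_red]; exact f1.2 i j hij
    · show JoinedIn Conf (pinN y η) (pinN y' fun k => red (η' k))
      rw [pinN_red y' η']
      exact f3)
  intro z φ hF hzR
  obtain ⟨⟨z', φ'⟩, ⟨⟨h1, h2, -⟩, h3⟩, h4⟩ := hmain (z, fun k => red (φ k))
    ⟨⟨hF.1, fun i j hij => by
      show gg (z i) (z j) (red (φ i)) (red (φ j)) ≤ 1 / 2
      rw [gg_red]; exact hF.2 i j hij⟩, hzR, fun k => ⟨(red_mem _).1, (red_mem _).2.le⟩⟩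
  refine ⟨z', φ', h1, h2, h3, ?_⟩
  have : JoinedIn Conf (pinN z (fun k => red (φ k))) (pinN z' φ') := h4
  rwa [pinN_red] at this

/-- **Ascent with `N` pinned.** -/
theorem pinned_ascent {R : Set (Fin 11 → ℝ)} (hR : IsClosed R) {T : Set HL}
    (hT : IsOpen T) {Φ : (Fin 11 → ℝ) → ℝ} (hΦ : Continuous Φ)
    (good : ∀ z φ, Fe z φ → z ∈ R → (z, φ) ∉ T → ∃ V c, GoodDir R Φ z φ V c) :
    ∀ z φ, Fe z φ → z ∈ R → ∃ z' φ', Fe z' φ' ∧ z' ∈ R ∧ (z', φ') ∈ T ∧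
      JoinedIn Conf (pinN z φ) (pinN z' φ') :=
  pinned_gain hR hT hΦ fun z φ hF hzR hnT => by
    obtain ⟨V, c, h⟩ := good z φ hF hzR hnT
    exact h.toGain hF

end Pool.Agent.Helper66.Kiss
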