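import Pool.Agent.Helper66.Kiss.EndPairs
import Pool.Agent.Helper66.Kiss.Pin

set_option autoImplicit false

/-! # The end region: the height path -/

namespace Pool.Agent.Helper66.Kiss

open Real Set Filter Topology

/-! ## ordered longitudes -/

lemma cos_le_of_gg {z w a b : ℝ} (hz : -1 < z ∧ z ≤ 1 / 2) (hw : -1 < w ∧ w ≤ 1 / 2)
    (h : gg z w a b ≤ 1 / 2) :
    cos (b - a) ≤ (1 / 2 - z * w) / (√(1 - z ^ 2) * √(1 - w ^ 2)) := by
  have c := mul_pos (sqrt_pos_of hz) (sqrt_pos_of hw)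
  rw [le_div_iff₀ c]
  unfold gg at h
  rw [← cos_neg, neg_sub] at h
  linarith

lemma wd_le_of_gg {z w a b : ℝ} (hz : -1 < z ∧ z ≤ 1 / 2) (hw : -1 < w ∧ w ≤ 1 / 2)
    (h : gg z w a b ≤ 1 / 2) (h0 : 0 ≤ b - a) (h1 : b - a ≤ 2 * π) :
    wd z w ≤ b - a ∧ b - a ≤ 2 * π - wd z w :=
  cos_le_iff h0 h1 (cos_le_of_gg hz hw h)

lemma wd_eq_zero {z w : ℝ} (hz : -1 < z ∧ z ≤ 1 / 2) (hw : -1 < w ∧ w ≤ 1 / 2)
    (h : √(1 - z ^ 2) * √(1 - w ^ 2) + z * w ≤ 1 / 2) : wd z w = 0 := by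
  have c := mul_pos (sqrt_pos_of hz) (sqrt_pos_of hw)
  unfold wd
  apply Real.arccos_of_one_le
  rw [le_div_iff₀ c]
  linarith

/-- five points on a short arc -/
lemma pigeon {L : Finset (Fin 11)} (hL : 5 ≤ L.card) {θ : Fin 11 → ℝ} {d lo : ℝ} (hd : 0 < d)
    (h1 : ∀ k ∈ L, lo ≤ θ k ∧ θ k < lo + 4 * d)
    (h2 : ∀ k ∈ L, ∀ l ∈ L, k ≠ l → θ k ≤ θ l → d ≤ θ l - θ k) : False := by
  have hmaps : ∀ k ∈ L, ⌊(θ k - lo) / d⌋₊ ∈ Finset.range 4 := by
    intro k hk
    obtain ⟨a, b⟩ := h1 k hk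
    rw [Finset.mem_range, Nat.floor_lt (div_nonneg (by linarith) hd.le), div_lt_iff₀ hd]
    push_cast
    linarith
  obtain ⟨x, hx, y, hy, hxy, hf⟩ := Finset.exists_ne_map_eq_of_card_lt_of_maps_to
    (s := L) (t := Finset.range 4) (by rw [Finset.card_range]; omega) hmaps
  have key : ∀ x ∈ L, ∀ y ∈ L, x ≠ y → ⌊(θ x - lo) / d⌋₊ = ⌊(θ y - lo) / d⌋₊ → θ x ≤ θ y → False := by
    intro x hx y hy hxy hf hle
    have a1 := h2 x hx y hy hxy hle
    have a2 := Nat.floor_le (div_nonneg (by linarith [(h1 x hx).1] : (0 : ℝ) ≤ θ x - lo) hd.le)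
    have a3 := Nat.lt_floor_add_one ((θ y - lo) / d)
    rw [← hf] at a3
    have a4 : (θ y - lo) / d - (θ x - lo) / d < 1 := by linarith
    rw [← sub_div, div_lt_one hd] at a4
    linarith
  rcases le_total (θ x) (θ y) with h | h
  · exact key x hx y hy hxy hf h
  · exact key y hy x hx hxy.symm hf.symm h

/-- heights of the end region -/
structure ER (z : Fin 11 → ℝ) (s : Fin 11) (U : Finset (Fin 11)) : Prop where
  sU : s ∉ U
  card : U.card = 5
  sz : z s ≤ -(99 / 100)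
  up : ∀ k ∈ U, 1 / 2 - 3 / 512 ≤ z k ∧ z k ≤ 1 / 2
  lo : ∀ k, k ∉ U → k ≠ s → |z k + 1 / 2| ≤ 4 / 512

lemma ER.range {z : Fin 11 → ℝ} {s : Fin 11} {U : Finset (Fin 11)} (h : ER z s U) (hs : -1 < z s)
    (k : Fin 11) : -1 < z k ∧ z k ≤ 1 / 2 := by
  by_cases hk : k = s
  · subst hk; exact ⟨hs, by linarith [h.sz]⟩
  by_cases hU : k ∈ U
  · have := h.up k hU; exact ⟨by linarith, this.2⟩
  · have := abs_le.1 (h.lo k hU hk); constructor <;> linarith

lemma tau_small {z φ : Fin 11 → ℝ} (hF : Fe z φ) {s : Fin 11} {U : Finset (Fin 11)}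
    (hE : ER z s U) (hs0 : -1 < z s) : tS (z s) ≤ 0.0061 := by
  by_contra hcon
  push Not at hcon
  have hpi := Real.pi_gt_d4
  have hpi' := Real.pi_lt_d4
  have hC := CC_bd
  norm_num at hpi hpi' hC
  obtain ⟨t0, t1⟩ := tS_bd hs0 hE.sz
  set τ := tS (z s) with hτ
  have hzs : z s = zS τ := (zS_tS ⟨hs0, by linarith [hE.sz]⟩).symm
  have hr := hE.range hs0
  set L := (insert s U)ᶜ with hL
  have hLc : L.card = 5 := by
    rw [hL, Finset.card_compl, Finset.card_insert_of_notMem hE.sU, hE.card]; simp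
  have hmem : ∀ k ∈ L, k ≠ s ∧ k ∉ U := by
    intro k hk
    simp only [hL, Finset.mem_compl, Finset.mem_insert, not_or] at hk
    exact hk
  have hθ := fun k => red_mem (φ k - φ s)
  refine pigeon (L := L) (θ := fun k => red (φ k - φ s)) (d := CC - 0.035) (lo := 0.7) hLc.ge
    (by linarith) ?_ ?_
  · intro k hk
    obtain ⟨k1, k2⟩ := hmem k hk
    have hlo := hE.lo k k2 k1
    obtain ⟨x1, x2⟩ := aU_bd_L hlo
    have hzk : zL (aU (-(z k))) = z k := zL_aU ⟨(hr k).1, by linarith [(hr k).2]⟩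
    set a := aU (-(z k)) with ha
    have hw : 0.7 ≤ wd (z s) (z k) := by
      rw [hzs, ← hzk, wd_SL t0 (by linarith)]
      have hQ : Qp τ a ≤ 0.755 := by
        unfold Qp
        have h3 := sqrt3_bd
        have ha0 : 0 < a := by linarith
        rw [div_le_iff₀ (by positivity)]
        have e1 : 1.73205 * (0.9896 * τ) ≤ √3 * (a * τ) :=
          mul_le_mul h3.1.le (mul_le_mul_of_nonneg_right (by linarith) t0.le) (by positivity) (by linarith)
        have e2 : 9 * a ^ 2 - 1 ≤ 8.2 := by nlinarith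
        have e3 : 1 - a ^ 2 ≤ 0.0207 := by nlinarith
        have e4 : τ ^ 2 * (9 * a ^ 2 - 1) ≤ τ ^ 2 * 8.2 := mul_le_mul_of_nonneg_left e2 (sq_nonneg τ)
        have e5 : 0 ≤ (τ - 0.0061) * (0.0709 - τ) := mul_nonneg (by linarith) (by linarith)
        nlinarith
      have hc : 0.755 ≤ cos (0.7 : ℝ) := by
        have := Real.one_sub_sq_div_two_le_cos (x := (0.7 : ℝ))
        norm_num at this ⊢
        linarith
      have := Real.arccos_le_arccos (hQ.trans hc)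
      rwa [Real.arccos_cos (by norm_num) (by norm_num; linarith)] at this
    have hg := hF.2 s k k1.symm
    have hcos := cos_le_of_gg (hr s) (hr k) hg
    obtain ⟨m, hm⟩ := red_eq (φ k - φ s)
    have hcos' : cos (red (φ k - φ s)) ≤
        (1 / 2 - z s * z k) / (√(1 - z s ^ 2) * √(1 - z k ^ 2)) := by
      rw [hm, Real.cos_add_int_mul_two_pi]; exact hcos
    obtain ⟨a1, a2⟩ := cos_le_iff (hθ k).1 (hθ k).2.le hcos'
    change wd (z s) (z k) ≤ _ at a1
    change _ ≤ 2 * π - wd (z s) (z k) at a2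
    constructor
    · linarith
    · norm_num at hw ⊢
      linarith
  · intro k hk l hl hkl hle
    obtain ⟨k1, k2⟩ := hmem k hk
    obtain ⟨l1, l2⟩ := hmem l hl
    obtain ⟨x1, x2⟩ := aU_bd_L (hE.lo k k2 k1)
    obtain ⟨y1, y2⟩ := aU_bd_L (hE.lo l l2 l1)
    have hw := low_LL (x := 1 - aU (-(z k))) (y := 1 - aU (-(z l))) ⟨x1, x2⟩ ⟨y1, y2⟩
    rw [sub_sub_cancel, sub_sub_cancel, zL_aU ⟨(hr k).1, by linarith [(hr k).2]⟩,
      zL_aU ⟨(hr l).1, by linarith [(hr l).2]⟩] at hw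
    have hg := hF.2 k l hkl
    have hcos := cos_le_of_gg (hr k) (hr l) hg
    obtain ⟨m, hm⟩ := red_eq (φ k - φ s)
    obtain ⟨m', hm'⟩ := red_eq (φ l - φ s)
    have hcos' : cos (red (φ l - φ s) - red (φ k - φ s)) ≤
        (1 / 2 - z k * z l) / (√(1 - z k ^ 2) * √(1 - z l ^ 2)) := by
      rw [hm, hm', show φ l - φ s + m' * (2 * π) - (φ k - φ s + m * (2 * π)) =
        (φ l - φ k) + ((m' - m : ℤ) : ℝ) * (2 * π) by push_cast; ring, Real.cos_add_int_mul_two_pi]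
      exact hcos
    obtain ⟨a1, a2⟩ := cos_le_iff (by linarith) (by linarith [(hθ k).1, (hθ l).2]) hcos'
    change wd (z k) (z l) ≤ _ at a1
    linarith

/-! ## the path -/

/-- coordinates -/
noncomputable def xc (U : Finset (Fin 11)) (z : Fin 11 → ℝ) (k : Fin 11) : ℝ :=
  if k ∈ U then 1 - aU (z k) else 1 - aU (-(z k))

/-- the height path -/
noncomputable def zp (s : Fin 11) (U : Finset (Fin 11)) (z : Fin 11 → ℝ) (t : ℝ) (k : Fin 11) : ℝ :=
  if k = s then zS ((1 - t) ^ 3 * tS (z s)) else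
    if k ∈ U then zU (1 - (1 - t) ^ 4 * xc U z k) else zL (1 - eL (1 - t) (xc U z k))

lemma continuous_zS : Continuous zS := by
  unfold zS
  exact Continuous.div (by fun_prop) (by fun_prop) (fun x => by positivity)

lemma continuous_zU : Continuous zU := by
  unfold zU
  exact Continuous.div (by fun_prop) (by fun_prop) (fun x => by positivity)

lemma continuous_zL : Continuous zL := by
  unfold zL
  exact Continuous.div (by fun_prop) (by fun_prop) (fun x => by positivity)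

lemma zp_cont (s : Fin 11) (U : Finset (Fin 11)) (z : Fin 11 → ℝ) (k : Fin 11) :
    Continuous fun t => zp s U z t k := by
  unfold zp
  by_cases hk : k = s
  · simp only [hk, if_true]
    exact continuous_zS.comp (by fun_prop)
  by_cases hU : k ∈ U
  · simp only [hk, if_false, hU, if_true]
    exact continuous_zU.comp (by fun_prop)
  · simp only [hk, if_false, hU]
    refine continuous_zL.comp (continuous_const.sub ?_)
    unfold eL
    split_ifs
    · fun_prop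
    · fun_prop

lemma zU_range {a : ℝ} (ha : 0.9 ≤ a ∧ a ≤ 1) : 0.4 < zU a ∧ zU a ≤ 1 / 2 := by
  unfold zU
  have h1 : 0 < 3 * a ^ 2 + 1 := by positivity
  constructor
  · rw [lt_div_iff₀ h1]; nlinarith [ha.1]
  · rw [div_le_iff₀ h1]; nlinarith [ha.1, ha.2]

lemma zL_range {a : ℝ} (ha : 0.98 ≤ a ∧ a ≤ 1.02) : -0.52 < zL a ∧ zL a < -0.48 := by
  unfold zL
  have h1 : 0 < 3 * a ^ 2 + 1 := by positivity
  constructor
  · rw [lt_div_iff₀ h1]; nlinarith [ha.1, ha.2]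
  · rw [div_lt_iff₀ h1]; nlinarith [ha.1, ha.2]

lemma zS_range {τ : ℝ} (hτ : 0 < τ ∧ τ ≤ 0.0061) : -1 < zS τ ∧ zS τ < -0.99 := by
  unfold zS
  have h1 : 0 < 1 + τ ^ 2 := by positivity
  have h2 : 0 < τ ^ 2 := by have := hτ.1; positivity
  have h3 : τ ^ 2 ≤ 0.0061 ^ 2 := pow_le_pow_left₀ hτ.1.le hτ.2 2
  constructor
  · rw [lt_div_iff₀ h1]; linarith
  · rw [div_lt_iff₀ h1]; norm_num at h3 ⊢; linarith

lemma wd_tendsto {l : Filter ℝ} {f g : ℝ → ℝ} {a b : ℝ} (hf : Tendsto f l (𝓝 a))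
    (hg : Tendsto g l (𝓝 b)) (ha : -1 < a ∧ a ≤ 1 / 2) (hb : -1 < b ∧ b ≤ 1 / 2) :
    Tendsto (fun t => wd (f t) (g t)) l (𝓝 (wd a b)) := by
  unfold wd
  refine (Real.continuous_arccos.tendsto _).comp (Tendsto.div ?_ ?_ ?_)
  · exact tendsto_const_nhds.sub (hf.mul hg)
  · exact ((Real.continuous_sqrt.tendsto _).comp (tendsto_const_nhds.sub (hf.pow 2))).mul
      ((Real.continuous_sqrt.tendsto _).comp (tendsto_const_nhds.sub (hg.pow 2)))
  · exact (mul_pos (sqrt_pos_of ha) (sqrt_pos_of hb)).ne'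

/-- the limit of the width of a pair with the lowest point -/
lemma sl_lim {τ x : ℝ} (hτ : 0 < τ) (hx : -0.0106 ≤ x ∧ x ≤ 0.0104) :
    ∃ L, Tendsto (fun t => wd (zS ((1 - t) ^ 3 * τ)) (zL (1 - eL (1 - t) x))) (𝓝[<] 1) (𝓝 L) := by
  have h30 : 0 < √3 := Real.sqrt_pos.2 (by norm_num)
  have hev : ∀ᶠ t in 𝓝[<] (1 : ℝ), 0 < t ∧ t < 1 := by
    have : Ioo (0 : ℝ) 1 ∈ 𝓝[<] (1 : ℝ) := Ioo_mem_nhdsLT one_pos
    filter_upwards [this] with t ht using ht
  rcases lt_or_ge 0 x with h | h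
  · refine ⟨0, ?_⟩
    have hc : 0 < √3 / 4 * x / τ := by positivity
    have hev2 : ∀ᶠ t in 𝓝[<] (1 : ℝ), 1 - t < √3 / 4 * x / τ := by
      have : Ioo (1 - √3 / 4 * x / τ) 1 ∈ 𝓝[<] (1 : ℝ) := Ioo_mem_nhdsLT (by linarith)
      filter_upwards [this] with t ht
      linarith [ht.1]
    refine (tendsto_const_nhds (x := (0 : ℝ))).congr' ?_
    filter_upwards [hev, hev2] with t ht ht2
    have hσ : 0 < 1 - t := by linarith [ht.2]
    have hσ1 : 1 - t ≤ 1 := by linarith [ht.1]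
    set σ := 1 - t with hσd
    have e3 : eL σ x = σ ^ 2 * x := by unfold eL; rw [if_pos h.le]
    have h3 : 0 < σ ^ 3 * τ := by positivity
    have hs2 : σ ^ 2 ≤ 1 := pow_le_one₀ hσ.le hσ1
    have hs0 : 0 ≤ σ ^ 2 * x := by positivity
    have hsx : σ ^ 2 * x ≤ x := by nlinarith
    rw [e3, wd_SL h3 (by linarith [hx.2])]
    symm
    apply Real.arccos_of_one_le
    rw [Qp_eq (by linarith [hx.2]) h3]
    have hh1 := (hh_bd (x := σ ^ 2 * x) ⟨hs0, by linarith [hx.2]⟩).1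
    have hb := (bq_bd (a := 1 - σ ^ 2 * x) ⟨by linarith [hx.2], by linarith⟩).1
    have e5 : 1 ≤ √3 / 4 * hh (σ ^ 2 * x) / (σ ^ 3 * τ) := by
      rw [le_div_iff₀ h3, one_mul]
      rw [lt_div_iff₀ hτ] at ht2
      have e6 : σ ^ 2 * (σ * τ) ≤ σ ^ 2 * (√3 / 4 * x) := mul_le_mul_of_nonneg_left ht2.le (by positivity)
      have e7 : √3 / 4 * (σ ^ 2 * x) ≤ √3 / 4 * hh (σ ^ 2 * x) :=
        mul_le_mul_of_nonneg_left hh1 (by positivity)
      nlinarith
    have e8 : 0 ≤ √3 * (σ ^ 3 * τ) * bq (1 - σ ^ 2 * x) := by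
      apply mul_nonneg (by positivity); linarith
    linarith
  · -- the cosine extends continuously
    set G : ℝ → ℝ := fun t => -(√3 / 4 * ((1 - t) * (-x * (2 + (1 - t) ^ 4 * -x)) /
      (2 * (1 + (1 - t) ^ 4 * -x)) / τ)) + √3 * ((1 - t) ^ 3 * τ) *
      ((9 * (1 + (1 - t) ^ 4 * -x) ^ 2 - 1) / (24 * (1 + (1 - t) ^ 4 * -x))) with hG
    have hGc : Continuous G := by
      have hne : ∀ t : ℝ, 0 < 1 + (1 - t) ^ 4 * -x := fun t => by
        have : 0 ≤ (1 - t) ^ 4 * -x := mul_nonneg (by positivity) (by linarith)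
        linarith
      refine Continuous.add (Continuous.neg (continuous_const.mul (Continuous.div_const
        (Continuous.div (by fun_prop) (by fun_prop) fun t => ?_) _))) (Continuous.mul (by fun_prop)
        (Continuous.div (by fun_prop) (by fun_prop) fun t => ?_))
      · have := hne t; positivity
      · have := hne t; positivity
    refine ⟨arccos (G 1), ?_⟩
    have h1 : Tendsto (fun t => arccos (G t)) (𝓝[<] 1) (𝓝 (arccos (G 1))) :=
      ((Real.continuous_arccos.comp hGc).tendsto 1).mono_left nhdsWithin_le_nhds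
    refine h1.congr' ?_
    filter_upwards [hev] with t ht
    have hσ : 0 < 1 - t := by linarith [ht.2]
    have hσ1 : 1 - t ≤ 1 := by linarith [ht.1]
    simp only [hG]
    set σ := 1 - t with hσd
    have e3 : eL σ x = -(σ ^ 4 * -x) := by
      unfold eL
      split_ifs with h5
      · have : x = 0 := le_antisymm h h5
        rw [this]; simp
      · ring
    have h3 : 0 < σ ^ 3 * τ := by positivity
    have hw0 : 0 ≤ σ ^ 4 * -x := mul_nonneg (by positivity) (by linarith)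
    rw [e3, wd_SL h3 (by linarith), Qp_eq (by linarith) h3, hh_neg]
    congr 1
    unfold gd bq
    rw [sub_neg_eq_add]
    have hw1 : 0 < 1 + σ ^ 4 * -x := by linarith
    field_simp

end Pool.Agent.Helper66.Kiss
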