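import Pool.Agent.Helper66.Kiss.LiftMain
import Pool.Agent.Helper66.Kiss.EndPath

set_option autoImplicit false

/-! # Local gain on the level of heights -/

namespace Pool.Agent.Helper66.Kiss

open Real Set Filter Topology

/-! ## the ascent lemma for a property -/

/-- If near every point of the compact set `A` every point of `A` has the property `P` or can be
moved inside `A` with a fixed gain of `Φ` such that `P` can be pulled back, then `P` holds on `A`. -/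
theorem ascentP {X : Type*} [TopologicalSpace X] [T2Space X] {A : Set X} (hA : IsCompact A)
    {Φ : X → ℝ} (hΦ : ContinuousOn Φ A) {P : X → Prop}
    (h : ∀ x ∈ A, ∃ U ∈ 𝓝 x, ∃ δ > 0, ∀ y ∈ U, y ∈ A → P y ∨ ∃ y' ∈ A, Φ y + δ ≤ Φ y' ∧ (P y' → P y)) :
    ∀ x ∈ A, P x := by
  by_contra hcon
  push Not at hcon
  obtain ⟨x, hx, hPx⟩ := hcon
  set R : Set X := {z | z ∈ A ∧ ¬ P z} with hR
  have hxR : x ∈ R := ⟨hx, hPx⟩
  have hcl : closure R ⊆ A := closure_minimal (fun z hz => hz.1) hA.isClosed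
  have hK : IsCompact (closure R) := hA.of_isClosed_subset isClosed_closure hcl
  obtain ⟨Y, hY, hmax⟩ := hK.exists_isMaxOn ⟨x, subset_closure hxR⟩ (hΦ.mono hcl)
  obtain ⟨U, hU, δ, hδ, hh⟩ := h Y (hcl hY)
  have h1 : ∀ᶠ y in 𝓝[A] Y, Φ Y - δ < Φ y := by
    have := hΦ Y (hcl hY)
    exact this.eventually (lt_mem_nhds (by linarith))
  have h2 : ∀ᶠ y in 𝓝 Y, y ∈ A → Φ Y - δ < Φ y := by
    rwa [eventually_nhdsWithin_iff] at h1
  obtain ⟨y, hy, hyR⟩ := mem_closure_iff_nhds.1 hY _ (inter_mem hU h2)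
  rcases hh y hy.1 hyR.1 with h3 | ⟨y', hy'A, hg, hP⟩
  · exact hyR.2 h3
  · have h4 : y' ∈ R := ⟨hy'A, fun h => hyR.2 (hP h)⟩
    have h5 : Φ y' ≤ Φ Y := hmax (subset_closure h4)
    have h6 := hy.2 hyR.1
    linarith

/-! ## finitely many walks matter -/

section

variable {n : ℕ}

lemma ev_walks (hn : 0 < n) {X : Type*} {l : Filter X} {D : Fin n → Fin n → Prop}
    {P : X → (ℕ → Fin n) → ℕ → Prop}
    (hcong : ∀ x κ κ' r, (∀ k ≤ r, κ k = κ' k) → P x κ r → P x κ' r)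
    (h : ∀ (v : ℕ → ℕ) (r : ℕ), r ≤ n → IsWalk n v r → v r = v 0 + n →
      (∀ k < r, ¬ D (clN n hn (v k)) (clN n hn (v (k + 1)))) →
      ∀ᶠ x in l, P x (fun k => clN n hn (v k)) r) :
    ∀ᶠ x in l, ∀ (v : ℕ → ℕ) (r : ℕ), r ≤ n → IsWalk n v r → v r = v 0 + n →
      (∀ k < r, ¬ D (clN n hn (v k)) (clN n hn (v (k + 1)))) → P x (fun k => clN n hn (v k)) r := by
  classical
  have hfin : ∀ᶠ x in l, ∀ (r : Fin (n + 1)) (κ : Fin (n + 1) → Fin n),
      (∃ v : ℕ → ℕ, IsWalk n v r ∧ v r = v 0 + n ∧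
        (∀ k < r.val, ¬ D (clN n hn (v k)) (clN n hn (v (k + 1)))) ∧
        ∀ k : Fin (n + 1), k.val ≤ r.val → κ k = clN n hn (v k)) →
      P x (fun k => κ ⟨min k n, by omega⟩) r := by
    rw [eventually_all]; intro r
    rw [eventually_all]; intro κ
    by_cases hv : ∃ v : ℕ → ℕ, IsWalk n v r ∧ v r = v 0 + n ∧
        (∀ k < r.val, ¬ D (clN n hn (v k)) (clN n hn (v (k + 1)))) ∧
        ∀ k : Fin (n + 1), k.val ≤ r.val → κ k = clN n hn (v k)
    · obtain ⟨v, h1, h2, h3, h4⟩ := hv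
      filter_upwards [h v r.val (by omega) h1 h2 h3] with x hx _
      refine hcong x _ _ r.val (fun k hk => ?_) hx
      have hkn : min k n = k := min_eq_left (by omega)
      rw [h4 ⟨min k n, by omega⟩ (by simp only [hkn]; exact hk)]
      simp only [hkn]
    · exact Eventually.of_forall fun x h => absurd h hv
  filter_upwards [hfin] with x hx v r hr hv he hD
  have := hx ⟨r, by omega⟩ (fun k => clN n hn (v k.val)) ⟨v, hv, he, hD, fun k _ => rfl⟩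
  refine hcong x _ _ r (fun k hk => ?_) this
  have hkn : min k n = k := min_eq_left (by omega)
  simp only [hkn]

end

/-! ## laws -/

/-- admissible heights -/
def Adm (y : Fin 11 → ℝ) : Prop := ∀ k, -1 ≤ y k ∧ y k ≤ 1 / 2

/-- the width of the pair `i j` grows at most with speed `c` along the law `F`, for all heights
near `z` and small times -/
def Edge (z : Fin 11 → ℝ) (F : (Fin 11 → ℝ) → ℝ → Fin 11 → ℝ) (i j : Fin 11) (c : ℝ) : Prop :=
  ∀ᶠ p : (Fin 11 → ℝ) × ℝ in 𝓝 (z, 0), Adm p.1 → 0 ≤ p.2 →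
    wd (F p.1 p.2 i) (F p.1 p.2 j) ≤ wd (p.1 i) (p.1 j) + c * p.2

/-- the same for every larger speed -/
def EdgeS (z : Fin 11 → ℝ) (F : (Fin 11 → ℝ) → ℝ → Fin 11 → ℝ) (i j : Fin 11) (c : ℝ) : Prop :=
  ∀ γ > 0, Edge z F i j (c + γ)

lemma Edge.mono {z : Fin 11 → ℝ} {F : (Fin 11 → ℝ) → ℝ → Fin 11 → ℝ} {i j : Fin 11} {c c' : ℝ}
    (h : Edge z F i j c) (hc : c ≤ c') : Edge z F i j c' := by
  unfold Edge at h ⊢
  filter_upwards [h] with p hp ha h0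
  have := mul_le_mul_of_nonneg_right hc h0
  linarith [hp ha h0]

lemma Edge.toS {z : Fin 11 → ℝ} {F : (Fin 11 → ℝ) → ℝ → Fin 11 → ℝ} {i j : Fin 11} {c : ℝ}
    (h : Edge z F i j c) : EdgeS z F i j c := fun γ hγ => h.mono (by linarith)

lemma Edge.symm {z : Fin 11 → ℝ} {F : (Fin 11 → ℝ) → ℝ → Fin 11 → ℝ} {i j : Fin 11} {c : ℝ}
    (h : Edge z F i j c) : Edge z F j i c := by
  unfold Edge at h ⊢
  filter_upwards [h] with p hp ha h0
  rw [wd_comm, wd_comm (p.1 j)]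
  exact hp ha h0

/-- from strict rates to usable constants -/
lemma edges_of_rates {z : Fin 11 → ℝ} {F : (Fin 11 → ℝ) → ℝ → Fin 11 → ℝ} {κ : ℕ → Fin 11} {r : ℕ}
    {c : ℕ → ℝ} (h : ∀ k < r, EdgeS z F (κ k) (κ (k + 1)) (c k))
    (hc : ∑ k ∈ Finset.range r, c k < 0) :
    ∃ c' : ℕ → ℝ, (∀ k < r, Edge z F (κ k) (κ (k + 1)) (c' k)) ∧ ∑ k ∈ Finset.range r, c' k ≤ 0 := by
  set γ := (-∑ k ∈ Finset.range r, c k) / (r + 1) with hγ
  have hr : (0 : ℝ) < r + 1 := by positivity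
  have hγ0 : 0 < γ := div_pos (by linarith) hr
  refine ⟨fun k => c k + γ, fun k hk => h k hk γ hγ0, ?_⟩
  rw [Finset.sum_add_distrib, Finset.sum_const, Finset.card_range, nsmul_eq_mul]
  have e : γ * (r + 1) = -∑ k ∈ Finset.range r, c k := by rw [hγ]; field_simp
  nlinarith

/-- data of a law near `z` -/
structure Law (z : Fin 11 → ℝ) (F : (Fin 11 → ℝ) → ℝ → Fin 11 → ℝ) (D : Fin 11 → Fin 11 → Prop) :
    Prop where
  start : ∀ y, F y 0 = y
  cont : ∀ y k, Continuous fun t => F y t k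
  near : Tendsto (fun p : (Fin 11 → ℝ) × ℝ => F p.1 p.2) (𝓝 (z, 0)) (𝓝 z)
  wall : ∀ᶠ p : (Fin 11 → ℝ) × ℝ in 𝓝 (z, 0), Adm p.1 → 0 ≤ p.2 → ∀ k, F p.1 p.2 k ≤ 1 / 2
  symm : ∀ i j, D i j → D j i
  far : ∀ i j, i ≠ j → D i j → √(1 - z i ^ 2) * √(1 - z j ^ 2) + z i * z j < 1 / 2
  vert : ∀ i j, i ≠ j → ¬ D i j → -(1 / 3) < √(1 - z i ^ 2) * √(1 - z j ^ 2) + z i * z j
  pole : ∀ i j, i ≠ j → ¬ D i j → ∀ᶠ p : (Fin 11 → ℝ) × ℝ in 𝓝 (z, 0), Adm p.1 → 0 ≤ p.2 →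
    -(√(1 - p.1 i ^ 2) * √(1 - p.1 j ^ 2)) ≤ 1 / 2 - p.1 i * p.1 j →
    -(√(1 - F p.1 p.2 i ^ 2) * √(1 - F p.1 p.2 j ^ 2)) ≤ 1 / 2 - F p.1 p.2 i * F p.1 p.2 j

/-- width of a walk given by the nodes -/
noncomputable def tw (z : Fin 11 → ℝ) (κ : ℕ → Fin 11) (r : ℕ) : ℝ :=
  ∑ k ∈ Finset.range r, wd (z (κ k)) (z (κ (k + 1)))

/-- sorted longitudes -/
def Srtd (η : Fin 11 → ℝ) : Prop := Monotone η ∧ ∀ k, 0 ≤ η k ∧ η k ≤ 2 * π

lemma cont_vert (i j : Fin 11) :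
    Continuous fun z : Fin 11 → ℝ => √(1 - z i ^ 2) * √(1 - z j ^ 2) + z i * z j := by fun_prop

lemma wd_tendsto' {X : Type*} {l : Filter X} {f g : X → ℝ} {a b : ℝ} (hf : Tendsto f l (𝓝 a))
    (hg : Tendsto g l (𝓝 b)) (ha : -1 < a ∧ a ≤ 1 / 2) (hb : -1 < b ∧ b ≤ 1 / 2) :
    Tendsto (fun t => wd (f t) (g t)) l (𝓝 (wd a b)) := by
  unfold wd
  refine (Real.continuous_arccos.tendsto _).comp (Tendsto.div ?_ ?_ ?_)
  · exact tendsto_const_nhds.sub (hf.mul hg)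
  · exact ((Real.continuous_sqrt.tendsto _).comp (tendsto_const_nhds.sub (hf.pow 2))).mul
      ((Real.continuous_sqrt.tendsto _).comp (tendsto_const_nhds.sub (hg.pow 2)))
  · exact (mul_pos (sqrt_pos_of ha) (sqrt_pos_of hb)).ne'

/-- walk totals of a feasible sorted state -/
lemma walk_of_fe {y η : Fin 11 → ℝ} (hF : Fe y η) (hy : ∀ k, -1 < y k) (hs : Srtd η)
    {v : ℕ → ℕ} {r : ℕ} (hv : IsWalk 11 v r) (he : v r = v 0 + 11) :
    tw y (fun k => clN 11 (by norm_num) (v k)) r ≤ 2 * π := by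
  have hr : ∀ k, -1 < y k ∧ y k ≤ 1 / 2 := fun k => ⟨hy k, (hF.1 k).2⟩
  have hord : ∀ i j, i < j → wd (y i) (y j) ≤ η j - η i ∧ η j - η i ≤ 2 * π - wd (y i) (y j) := by
    intro i j hij
    have := hs.1 hij.le
    exact wd_le_of_gg (hr i) (hr j) (hF.2 i j hij.ne) (by linarith)
      (by linarith [(hs.2 i).1, (hs.2 j).2])
  have := lft_tel (n := 11) (by norm_num) (ω := fun i j => wd (y i) (y j))
    (fun i j => wd_comm _ _) hord r hv
  have e2 := lft_add_mul (n := 11) (by norm_num) η (v 0) 1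
  rw [mul_one] at e2
  rw [he, e2] at this
  push_cast at this
  unfold tw
  unfold total at this
  linarith

/-- **Local lifting.** If every closed walk of winding one without dropped pairs which has at least
the full length at `z` does not grow along the law, then all feasible sorted states near `z` can be
moved along the law for a uniform time. -/
theorem LL {z : Fin 11 → ℝ} (hz : ∀ k, -1 < z k ∧ z k ≤ 1 / 2)
    {F : (Fin 11 → ℝ) → ℝ → Fin 11 → ℝ} {D : Fin 11 → Fin 11 → Prop} (hL : Law z F D)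
    (walk : ∀ (v : ℕ → ℕ) (r : ℕ), r ≤ 11 → IsWalk 11 v r → v r = v 0 + 11 →
      (∀ k < r, ¬ D (clN 11 (by norm_num) (v k)) (clN 11 (by norm_num) (v (k + 1)))) →
      2 * π ≤ tw z (fun k => clN 11 (by norm_num) (v k)) r →
      ∃ c : ℕ → ℝ, (∀ k < r, Edge z F (clN 11 (by norm_num) (v k))
        (clN 11 (by norm_num) (v (k + 1))) (c k)) ∧ ∑ k ∈ Finset.range r, c k ≤ 0) :
    ∃ U ∈ 𝓝 z, ∃ ε > 0, ∀ y ∈ U, ∀ η, Fe y η → Srtd η → ∀ t, 0 ≤ t → t ≤ ε →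
      ∃ η', Fe (F y t) η' ∧ JoinedIn Conf (pinN y η) (pinN (F y t) η') := by
  have hn : 0 < 11 := by norm_num
  have hcomp : ∀ k, Tendsto (fun p : (Fin 11 → ℝ) × ℝ => F p.1 p.2 k) (𝓝 (z, 0)) (𝓝 (z k)) :=
    fun k => ((continuous_apply k).tendsto _).comp hL.near
  have hfst : ∀ k, Tendsto (fun p : (Fin 11 → ℝ) × ℝ => p.1 k) (𝓝 (z, 0)) (𝓝 (z k)) := fun k =>
    ((continuous_apply k).comp continuous_fst).tendsto' _ _ rfl
  -- the good events
  have e1 : ∀ᶠ p : (Fin 11 → ℝ) × ℝ in 𝓝 (z, 0), ∀ k, -1 < F p.1 p.2 k := by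
    rw [eventually_all]; intro k
    exact (hcomp k).eventually (lt_mem_nhds (hz k).1)
  have e2 : ∀ᶠ p : (Fin 11 → ℝ) × ℝ in 𝓝 (z, 0), ∀ i j, i ≠ j → D i j →
      √(1 - F p.1 p.2 i ^ 2) * √(1 - F p.1 p.2 j ^ 2) + F p.1 p.2 i * F p.1 p.2 j < 1 / 2 := by
    rw [eventually_all]; intro i
    rw [eventually_all]; intro j
    by_cases hij : i ≠ j ∧ D i j
    · have h1 := ((cont_vert i j).tendsto z).comp hL.near
      filter_upwards [h1.eventually (gt_mem_nhds (hL.far i j hij.1 hij.2))] with p hp _ _ using hp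
    · exact Eventually.of_forall fun p h1 h2 => absurd ⟨h1, h2⟩ hij
  have e3 : ∀ᶠ p : (Fin 11 → ℝ) × ℝ in 𝓝 (z, 0), ∀ i j, i ≠ j → ¬ D i j →
      -(1 / 3) < √(1 - F p.1 p.2 i ^ 2) * √(1 - F p.1 p.2 j ^ 2) + F p.1 p.2 i * F p.1 p.2 j := by
    rw [eventually_all]; intro i
    rw [eventually_all]; intro j
    by_cases hij : i ≠ j ∧ ¬ D i j
    · have h1 := ((cont_vert i j).tendsto z).comp hL.near
      filter_upwards [h1.eventually (lt_mem_nhds (hL.vert i j hij.1 hij.2))] with p hp _ _ using hp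
    · exact Eventually.of_forall fun p h1 h2 => absurd ⟨h1, h2⟩ hij
  have e4 : ∀ᶠ p : (Fin 11 → ℝ) × ℝ in 𝓝 (z, 0), ∀ i j, i ≠ j → ¬ D i j → Adm p.1 → 0 ≤ p.2 →
      -(√(1 - p.1 i ^ 2) * √(1 - p.1 j ^ 2)) ≤ 1 / 2 - p.1 i * p.1 j →
      -(√(1 - F p.1 p.2 i ^ 2) * √(1 - F p.1 p.2 j ^ 2)) ≤ 1 / 2 - F p.1 p.2 i * F p.1 p.2 j := by
    rw [eventually_all]; intro i
    rw [eventually_all]; intro j
    by_cases hij : i ≠ j ∧ ¬ D i j
    · filter_upwards [hL.pole i j hij.1 hij.2] with p hp _ _ using hp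
    · exact Eventually.of_forall fun p h1 h2 => absurd ⟨h1, h2⟩ hij
  have e5 : ∀ᶠ p : (Fin 11 → ℝ) × ℝ in 𝓝 (z, 0), ∀ (v : ℕ → ℕ) (r : ℕ), r ≤ 11 →
      IsWalk 11 v r → v r = v 0 + 11 →
      (∀ k < r, ¬ D (clN 11 hn (v k)) (clN 11 hn (v (k + 1)))) → (Adm p.1 → 0 ≤ p.2 →
        tw p.1 (fun k => clN 11 hn (v k)) r ≤ 2 * π →
        tw (F p.1 p.2) (fun k => clN 11 hn (v k)) r ≤ 2 * π) := by
    refine ev_walks (P := fun (p : (Fin 11 → ℝ) × ℝ) (κ : ℕ → Fin 11) (r : ℕ) => Adm p.1 → 0 ≤ p.2 → tw p.1 κ r ≤ 2 * π →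
      tw (F p.1 p.2) κ r ≤ 2 * π) hn ?_ ?_
    · intro p κ κ' r hκ h ha h0 h1
      have e : ∀ y, tw y κ' r = tw y κ r := by
        intro y
        unfold tw
        refine Finset.sum_congr rfl fun k hk => ?_
        have := Finset.mem_range.1 hk
        rw [hκ k (by omega), hκ (k + 1) (by omega)]
      rw [e] at h1 ⊢
      exact h ha h0 h1
    · intro v r hr hv he hD
      rcases lt_or_ge (tw z (fun k => clN 11 hn (v k)) r) (2 * π) with hlt | hge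
      · have hT : Tendsto (fun p : (Fin 11 → ℝ) × ℝ => tw (F p.1 p.2) (fun k => clN 11 hn (v k)) r)
            (𝓝 (z, 0)) (𝓝 (tw z (fun k => clN 11 hn (v k)) r)) := by
          unfold tw
          exact tendsto_finsetSum _ fun k _ => wd_tendsto' (hcomp _) (hcomp _) (hz _) (hz _)
        filter_upwards [hT.eventually (gt_mem_nhds hlt)] with p hp _ _ _ using hp.le
      · obtain ⟨c, hc, hs⟩ := walk v r hr hv he hD hge
        have hall : ∀ᶠ p : (Fin 11 → ℝ) × ℝ in 𝓝 (z, 0), ∀ k : Fin r, Adm p.1 → 0 ≤ p.2 →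
            wd (F p.1 p.2 (clN 11 hn (v k))) (F p.1 p.2 (clN 11 hn (v (k + 1)))) ≤
              wd (p.1 (clN 11 hn (v k))) (p.1 (clN 11 hn (v (k + 1)))) + c k * p.2 := by
          rw [eventually_all]; intro k
          exact hc k.val k.isLt
        filter_upwards [hall] with p hp ha h0 h1
        have h2 : tw (F p.1 p.2) (fun k => clN 11 hn (v k)) r ≤
            tw p.1 (fun k => clN 11 hn (v k)) r + (∑ k ∈ Finset.range r, c k) * p.2 := by
          unfold tw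
          rw [Finset.sum_mul, ← Finset.sum_add_distrib]
          refine Finset.sum_le_sum fun k hk => ?_
          exact hp ⟨k, Finset.mem_range.1 hk⟩ ha h0
        have h3 := mul_nonpos_of_nonpos_of_nonneg hs h0
        linarith
  have hev := (((e1.and e2).and e3).and e4).and (e5.and hL.wall)
  rw [nhds_prod_eq, Filter.eventually_prod_iff] at hev
  obtain ⟨P, hP, Q, hQ, hPQ⟩ := hev
  obtain ⟨ε, hε, hεQ⟩ := Metric.eventually_nhds_iff.1 hQ
  have hQ' : ∀ t, 0 ≤ t → t ≤ ε / 2 → Q t := by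
    intro t h0 h1
    apply hεQ
    rw [Real.dist_eq, sub_zero, abs_of_nonneg h0]; linarith
  refine ⟨{y | P y}, hP, ε / 2, by linarith, ?_⟩
  intro y hy η hF hs t ht0 htε
  have hadm : Adm y := hF.1
  have hall := fun τ (h0 : 0 ≤ τ) (h1 : τ ≤ ε / 2) => hPQ hy (hQ' τ h0 h1)
  have hstart : F y 0 = y := hL.start y
  have hy1 : ∀ k, -1 < y k := by
    intro k
    have := (hall 0 le_rfl (by linarith)).1.1.1.1 k
    rwa [hstart] at this
  have hyr : ∀ k, -1 < y k ∧ y k ≤ 1 / 2 := fun k => ⟨hy1 k, (hadm k).2⟩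
  have hq : ∀ i j, i ≠ j → -(√(1 - y i ^ 2) * √(1 - y j ^ 2)) ≤ 1 / 2 - y i * y j := by
    intro i j hij
    have h1 := cos_le_of_gg (hyr i) (hyr j) (hF.2 i j hij)
    have c := mul_pos (sqrt_pos_of (hyr i)) (sqrt_pos_of (hyr j))
    rw [le_div_iff₀ c] at h1
    have := Real.neg_one_le_cos (η j - η i)
    nlinarith
  have htime : ∀ τ ∈ Icc (0 : ℝ) 1, 0 ≤ τ * t ∧ τ * t ≤ ε / 2 := by
    intro τ hτ
    constructor
    · exact mul_nonneg hτ.1 ht0
    · nlinarith [hτ.2]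
  have hrange : ∀ τ ∈ Icc (0 : ℝ) 1, ∀ k, -1 < F y (τ * t) k ∧ F y (τ * t) k ≤ 1 / 2 := by
    intro τ hτ k
    obtain ⟨h0, h1⟩ := htime τ hτ
    exact ⟨(hall _ h0 h1).1.1.1.1 k, (hall _ h0 h1).2.2 hadm h0 k⟩
  have hH : HPath 11 (by norm_num) D (fun τ => F y (τ * t)) := by
    refine ⟨hL.symm, ?_, fun τ hτ => hrange τ ⟨hτ.1, hτ.2.le⟩, ?_, ?_, ?_, ?_, ?_⟩
    · intro k
      exact ((hL.cont y k).comp (continuous_id.mul continuous_const)).continuousOn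
    · intro i j hij _
      have hc : ∀ k, Tendsto (fun τ => F y (τ * t) k) (𝓝[<] (1 : ℝ)) (𝓝 (F y (1 * t) k)) := fun k =>
        (((hL.cont y k).comp (continuous_id.mul continuous_const)).tendsto 1).mono_left
          nhdsWithin_le_nhds
      exact ⟨_, wd_tendsto' (hc i) (hc j) (hrange 1 ⟨zero_le_one, le_rfl⟩ i)
        (hrange 1 ⟨zero_le_one, le_rfl⟩ j)⟩
    · intro τ hτ i j hij hD
      obtain ⟨h0, h1⟩ := htime τ ⟨hτ.1, hτ.2.le⟩
      exact ((hall _ h0 h1).1.1.1.2 i j hij hD).le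
    · intro τ hτ i j hij hD
      obtain ⟨h0, h1⟩ := htime τ ⟨hτ.1, hτ.2.le⟩
      exact (hall _ h0 h1).1.2 i j hij hD hadm h0 (hq i j hij)
    · intro τ hτ i j hij hD
      obtain ⟨h0, h1⟩ := htime τ ⟨hτ.1, hτ.2.le⟩
      exact (hall _ h0 h1).1.1.2 i j hij hD
    · intro τ hτ v r hr hv he hD
      obtain ⟨h0, h1⟩ := htime τ ⟨hτ.1, hτ.2.le⟩
      have := (hall _ h0 h1).2.1 v r hr hv he hD hadm h0 (walk_of_fe hF hy1 hs hv he)
      exact this
  have hord : ∀ i j, i < j → wd (y i) (y j) ≤ η j - η i ∧ η j - η i ≤ 2 * π - wd (y i) (y j) := by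
    intro i j hij
    have := hs.1 hij.le
    exact wd_le_of_gg (hyr i) (hyr j) (hF.2 i j hij.ne) (by linarith)
      (by linarith [(hs.2 i).1, (hs.2 j).2])
  have hz0 : F y (0 * t) = y := by rw [zero_mul, hstart]
  have hz1 : F y (1 * t) = F y t := by rw [one_mul]
  obtain ⟨φ1, hF1, hJ⟩ := lift11 hH (φ0 := η) (fun i j hij => by
      have := hs.1 hij.le
      exact ⟨by linarith, by linarith [(hs.2 i).1, (hs.2 j).2]⟩)
    (fun i j hij _ => by rw [hz0]; exact hord i j hij)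
  rw [hz0, hz1] at hJ
  rw [hz1] at hF1
  exact ⟨φ1, hF1, hJ⟩

end Pool.Agent.Helper66.Kiss
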