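import Pool.Agent.Helper66.Kiss.EndRegion
import Pool.Agent.Helper66.Kiss.LL

set_option autoImplicit false

/-! # Global theorems -/

namespace Pool.Agent.Helper66.Kiss

open Real Set Filter Topology

/-- joined to the base point -/
def JB (X : Fin 12 → E3) : Prop := JoinedIn Conf X base

lemma JB.of_joined {X Y : Fin 12 → E3} (h : JoinedIn Conf X Y) (hY : JB Y) : JB X := h.trans hY

lemma JB.comp {X : Fin 12 → E3} (h : JB X) (σ : Equiv.Perm (Fin 12)) : JB (X ∘ σ) :=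
  (comp_joined h σ).trans (base_comp_joined σ)

/-! ## the mirror -/

/-- the mirror image -/
noncomputable def mir (v : E3) : E3 := !₂[v 0, -v 1, v 2]

lemma inner_mir (u v : E3) : inner ℝ (mir u) (mir v) = inner ℝ u v := by
  rw [inner_eq, inner_eq]; simp [mir]

lemma continuous_mir : Continuous mir := by unfold mir; fun_prop

lemma mir_mir (v : E3) : mir (mir v) = v := by
  ext i; fin_cases i <;> simp [mir]

lemma mir_pt (s φ : ℝ) : mir (pt s φ) = pt s (-φ) := by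
  ext i; fin_cases i <;> simp [mir, pt]

lemma mir_e3 : mir e3 = e3 := by
  ext i; fin_cases i <;> simp [mir, e3]

lemma mir_neg (v : E3) : mir (-v) = -mir v := by
  ext i; fin_cases i <;> simp [mir]

lemma mir_mem {X : Fin 12 → E3} (h : X ∈ Conf) : (fun i => mir (X i)) ∈ Conf := by
  rw [mem_Conf_iff] at h ⊢
  exact ⟨fun i => by rw [inner_mir]; exact h.1 i, fun i j hij => by
    rw [inner_mir]; exact h.2 i j hij⟩

lemma JB.mir {X : Fin 12 → E3} (h : JB X) : JB (fun i => mir (X i)) := by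
  have hc : Continuous (fun p : Fin 12 → E3 => fun i => Kiss.mir (p i)) :=
    continuous_pi fun i => continuous_mir.comp (continuous_apply i)
  have h1 : JoinedIn Conf (fun i => Kiss.mir (X i)) (fun i => Kiss.mir (base i)) :=
    (h.map hc).mono (by rintro _ ⟨x, hx, rfl⟩; exact mir_mem hx)
  refine h1.trans (twoRing_joined h1.target_mem ?_)
  refine ⟨1, e3, ?_, ?_, ?_, ?_⟩
  · show Kiss.mir (base 0) = e3
    have : base 0 = e3 := rfl
    rw [this, mir_e3]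
  · show Kiss.mir (base 1) = -e3
    have : base 1 = -e3 := rfl
    rw [this, mir_neg, mir_e3]
  · intro k
    show inner ℝ e3 (Kiss.mir (base (up k))) = 1 / 2
    have : base (up k) = pt (1 / 2) (th k) := by
      unfold base; rw [two]; exact asm_up _ _ _ _ _
    rw [this, mir_pt, inner_e3_pt]
  · intro k
    show inner ℝ e3 (Kiss.mir (base (lo k))) = -(1 / 2)
    have : base (lo k) = pt (-(1 / 2)) (th k) := by
      unfold base; rw [two]; exact asm_lo _ _ _ _ _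
    rw [this, mir_pt, inner_e3_pt]

/-! ## relabelling, rotations, reflections of pinned states -/

lemma JB_perm {z φ : Fin 11 → ℝ} (τ : Equiv.Perm (Fin 11)) (h : JB (pinN (z ∘ τ) (φ ∘ τ))) :
    JB (pinN z φ) := by
  refine joined_of_lab (ext11_inj τ) ?_
  rw [pinN_comp_ext]
  exact h

lemma rotZ_pt (c s φ : ℝ) : rotZ c (pt s φ) = pt s (φ + c) := by
  ext i
  fin_cases i
  · simp [rotZ, pt, cos_add]; ring
  · simp [rotZ, pt, sin_add]; ring
  · simp [rotZ, pt]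

lemma rotZ_e3 (c : ℝ) : rotZ c e3 = e3 := by
  ext i; fin_cases i <;> simp [rotZ, e3]

/-- states with longitudes rotated and shifted by full turns -/
lemma JB_turn {z φ φ' : Fin 11 → ℝ} (hF : Fe z φ) (c : ℝ)
    (h : ∀ k, ∃ m : ℤ, φ' k = φ k + c + m * (2 * π)) (hJ : JB (pinN z φ')) : JB (pinN z φ) := by
  have e : (fun i => rotZ c (pinN z φ i)) = pinN z φ' := by
    funext i
    rcases Fin.eq_zero_or_eq_succ i with rfl | ⟨k, rfl⟩
    · rw [pinN_zero, pinN_zero, rotZ_e3]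
    · rw [pinN_succ, pinN_succ, rotZ_pt]
      obtain ⟨m, hm⟩ := h k
      unfold pt
      rw [hm, Real.cos_add_int_mul_two_pi, Real.sin_add_int_mul_two_pi]
  have := joined_rotZ (pinN_mem hF) c
  rw [e] at this
  exact this.trans hJ

lemma gg_turn {z w a b a' b' c : ℝ} {m m' : ℤ} (ha : a' = a + c + m * (2 * π))
    (hb : b' = b + c + m' * (2 * π)) : gg z w a' b' = gg z w a b := by
  unfold gg
  have : a' - b' = a - b + ((m - m' : ℤ) : ℝ) * (2 * π) := by rw [ha, hb]; push_cast; ring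
  rw [this, Real.cos_add_int_mul_two_pi]

lemma Fe_turn {z φ φ' : Fin 11 → ℝ} (hF : Fe z φ) (c : ℝ)
    (h : ∀ k, ∃ m : ℤ, φ' k = φ k + c + m * (2 * π)) : Fe z φ' := by
  refine ⟨hF.1, fun i j hij => ?_⟩
  obtain ⟨m, hm⟩ := h i
  obtain ⟨m', hm'⟩ := h j
  rw [gg_turn hm hm']
  exact hF.2 i j hij

lemma Fe_perm {z φ : Fin 11 → ℝ} (hF : Fe z φ) (τ : Equiv.Perm (Fin 11)) : Fe (z ∘ τ) (φ ∘ τ) :=
  ⟨fun k => hF.1 (τ k), fun i j hij => hF.2 (τ i) (τ j) (fun e => hij (τ.injective e))⟩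

lemma JB_neg {z φ : Fin 11 → ℝ} (h : JB (pinN z (fun k => -φ k))) : JB (pinN z φ) := by
  have := h.mir
  have e : (fun i => mir (pinN z (fun k => -φ k) i)) = pinN z φ := by
    funext i
    rcases Fin.eq_zero_or_eq_succ i with rfl | ⟨k, rfl⟩
    · rw [pinN_zero, pinN_zero, mir_e3]
    · rw [pinN_succ, pinN_succ, mir_pt, neg_neg]
  rwa [e] at this

lemma Fe_neg {z φ : Fin 11 → ℝ} (hF : Fe z φ) : Fe z (fun k => -φ k) := by
  refine ⟨hF.1, fun i j hij => ?_⟩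
  have := hF.2 i j hij
  unfold gg at this ⊢
  rw [← cos_neg]
  have e : -(-φ i - -φ j) = φ i - φ j := by ring
  rwa [e]

/-- sorting a feasible state -/
lemma exists_sorted {z φ : Fin 11 → ℝ} (hF : Fe z φ) : ∃ (τ : Equiv.Perm (Fin 11))
    (φ' : Fin 11 → ℝ), Fe (z ∘ τ) φ' ∧ Srtd φ' ∧ (JB (pinN (z ∘ τ) φ') → JB (pinN z φ)) := by
  set ψ : Fin 11 → ℝ := fun k => red (φ k) with hψ
  refine ⟨Tuple.sort ψ, ψ ∘ Tuple.sort ψ, ?_, ⟨Tuple.monotone_sort ψ, fun k =>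
    ⟨(red_mem _).1, (red_mem _).2.le⟩⟩, fun h => ?_⟩
  · exact Fe_perm ⟨hF.1, fun i j hij => by
      show gg (z i) (z j) (red (φ i)) (red (φ j)) ≤ 1 / 2
      rw [gg_red]; exact hF.2 i j hij⟩ _
  · have := JB_perm _ h
    rwa [hψ, pinN_red] at this

/-! ## Stage B: ascent of a function of the heights with the north pole pinned -/

/-- local gain at a sorted state -/
def GainP (R : Set (Fin 11 → ℝ)) (Φ : (Fin 11 → ℝ) → ℝ) (z φ : Fin 11 → ℝ) : Prop :=
  ∃ U ∈ 𝓝 (z, φ), ∃ δ > 0, ∀ y η, (y, η) ∈ U → Fe y η → Srtd η → y ∈ R →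
    JB (pinN y η) ∨ ∃ y' η', Fe y' η' ∧ y' ∈ R ∧ Φ y + δ ≤ Φ y' ∧
      (JB (pinN y' η') → JB (pinN y η))

lemma gainP_of_gain {R : Set (Fin 11 → ℝ)} {Φ : (Fin 11 → ℝ) → ℝ} {z φ : Fin 11 → ℝ}
    (h : Gain R Φ z φ) : GainP R Φ z φ := by
  obtain ⟨U, hU, δ, hδ, h⟩ := h
  refine ⟨U, hU, δ, hδ, fun y η hy hF _ hR => Or.inr ?_⟩
  obtain ⟨y', η', h1, h2, h3, h4⟩ := h y η hy hF hR
  exact ⟨y', η', h1, h2, h4, fun h => h3.trans h⟩

/-- the set of the sorted feasible states -/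
def SS (R : Set (Fin 11 → ℝ)) : Set HL := {x | Fe x.1 x.2 ∧ x.1 ∈ R ∧ Srtd x.2}

lemma SS_compact {R : Set (Fin 11 → ℝ)} (hR : IsClosed R) : IsCompact (SS R) := by
  have hcl : IsClosed (SS R) := by
    have e : SS R = {x : HL | x.1 ∈ R} ∩ (⋂ k, {x : HL | -1 ≤ x.1 k} ∩ {x : HL | x.1 k ≤ 1 / 2} ∩
        {x : HL | 0 ≤ x.2 k} ∩ {x : HL | x.2 k ≤ 2 * π}) ∩
        (⋂ i, ⋂ j, {x : HL | i ≠ j → gg (x.1 i) (x.1 j) (x.2 i) (x.2 j) ≤ 1 / 2}) ∩
        (⋂ i, ⋂ j, {x : HL | i ≤ j → x.2 i ≤ x.2 j}) := by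
      ext x
      simp only [SS, Srtd, Monotone, Fe, mem_ofPred_eq, mem_inter_iff, mem_iInter]
      constructor
      · rintro ⟨⟨h1, h2⟩, h3, h4, h5⟩
        exact ⟨⟨⟨h3, fun k => ⟨⟨⟨(h1 k).1, (h1 k).2⟩, (h5 k).1⟩, (h5 k).2⟩⟩, h2⟩,
          fun i j hij => h4 hij⟩
      · rintro ⟨⟨⟨h3, h⟩, h2⟩, h4⟩
        exact ⟨⟨fun k => ⟨(h k).1.1.1, (h k).1.1.2⟩, h2⟩, h3, fun i j hij => h4 i j hij,
          fun k => ⟨(h k).1.2, (h k).2⟩⟩
    rw [e]
    refine ((((hR.preimage continuous_fst).inter (isClosed_iInter fun k => ?_)).inter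
      (isClosed_iInter fun i => isClosed_iInter fun j => ?_))).inter
      (isClosed_iInter fun i => isClosed_iInter fun j => ?_)
    · have c1 : Continuous fun x : HL => x.1 k := by fun_prop
      have c2 : Continuous fun x : HL => x.2 k := by fun_prop
      exact (((isClosed_le continuous_const c1).inter (isClosed_le c1 continuous_const)).inter
        (isClosed_le continuous_const c2)).inter (isClosed_le c2 continuous_const)
    · by_cases hij : i = j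
      · have : {x : HL | i ≠ j → gg (x.1 i) (x.1 j) (x.2 i) (x.2 j) ≤ 1 / 2} = univ := by
          ext x; simp [hij]
        rw [this]; exact isClosed_univ
      · have : {x : HL | i ≠ j → gg (x.1 i) (x.1 j) (x.2 i) (x.2 j) ≤ 1 / 2} =
            {x : HL | gg (x.1 i) (x.1 j) (x.2 i) (x.2 j) ≤ 1 / 2} := by
          ext x; simp [hij]
        rw [this]
        exact isClosed_le (continuous_gg (by fun_prop) (by fun_prop) (by fun_prop) (by fun_prop))
          continuous_const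
    · by_cases hij : i ≤ j
      · have : {x : HL | i ≤ j → x.2 i ≤ x.2 j} = {x : HL | x.2 i ≤ x.2 j} := by
          ext x; simp [hij]
        rw [this]
        exact isClosed_le (by fun_prop) (by fun_prop)
      · have : {x : HL | i ≤ j → x.2 i ≤ x.2 j} = univ := by
          ext x; simp [hij]
        rw [this]; exact isClosed_univ
  have hb : SS R ⊆ (Set.pi univ fun _ => Icc (-1 : ℝ) (1 / 2)) ×ˢ
      (Set.pi univ fun _ => Icc (0 : ℝ) (2 * π)) := by
    rintro x ⟨⟨h1, -⟩, -, h3⟩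
    exact ⟨fun k _ => h1 k, fun k _ => h3.2 k⟩
  exact ((isCompact_univ_pi fun _ => isCompact_Icc).prod
    (isCompact_univ_pi fun _ => isCompact_Icc)).of_isClosed_subset hcl hb

/-- **Stage B.** -/
theorem stageB {R : Set (Fin 11 → ℝ)} (hR : IsClosed R)
    (hRp : ∀ z (τ : Equiv.Perm (Fin 11)), z ∈ R → z ∘ τ ∈ R) {Φ : (Fin 11 → ℝ) → ℝ}
    (hΦ : Continuous Φ) (hΦp : ∀ z (τ : Equiv.Perm (Fin 11)), Φ (z ∘ τ) = Φ z)
    {W : Set (Fin 11 → ℝ)} (hW : IsOpen W)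
    (hWP : ∀ z φ, Fe z φ → z ∈ R → z ∈ W → JB (pinN z φ))
    (good : ∀ z φ, Fe z φ → Srtd φ → z ∈ R → z ∉ W → GainP R Φ z φ) :
    ∀ z φ, Fe z φ → z ∈ R → JB (pinN z φ) := by
  have hmain := ascentP (A := SS R) (SS_compact hR) (Φ := fun x => Φ x.1)
    (hΦ.comp continuous_fst).continuousOn (P := fun x => JB (pinN x.1 x.2)) (by
    rintro ⟨z, φ⟩ ⟨hF, hzR, hs⟩
    by_cases hzW : z ∈ W
    · refine ⟨{x | x.1 ∈ W}, (hW.preimage continuous_fst).mem_nhds hzW, 1, one_pos, ?_⟩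
      rintro ⟨y, η⟩ hy ⟨hyF, hyR, -⟩
      exact Or.inl (hWP y η hyF hyR hy)
    · obtain ⟨U, hU, δ, hδ, hg⟩ := good z φ hF hs hzR hzW
      refine ⟨U, hU, δ, hδ, ?_⟩
      rintro ⟨y, η⟩ hy ⟨hyF, hyR, hys⟩
      rcases hg y η hy hyF hys hyR with h | ⟨y', η', h1, h2, h3, h4⟩
      · exact Or.inl h
      · right
        obtain ⟨τ, ζ, k1, k2, k3⟩ := exists_sorted h1
        refine ⟨(y' ∘ τ, ζ), ⟨k1, hRp _ _ h2, k2⟩, ?_, fun h => h4 (k3 h)⟩
        show Φ y + δ ≤ Φ (y' ∘ τ)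
        rw [hΦp]; exact h3)
  intro z φ hF hzR
  obtain ⟨τ, ζ, k1, k2, k3⟩ := exists_sorted hF
  exact k3 (hmain (z ∘ τ, ζ) ⟨k1, hRp _ _ hzR, k2⟩)

end Pool.Agent.Helper66.Kiss
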