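import Pool.Agent.Helper66.Kiss.DlF
import Pool.Agent.Helper98.DL.DS10
import Pool.Agent.Helper66.Kiss.Assemble
import Pool.Agent.Helper91.Kiss.AnyH
import Pool.Agent.Helper91.Kiss.AltD
import Pool.Agent.Helper66.Kiss.R1C
import Pool.Agent.Helper54.KA.RunU

set_option autoImplicit false

/-! # The leaves of the certificate: soundness -/

namespace Pool.Agent.Helper66.Kiss.Dl

open Real Set Pool.Agent.Helper98.DL Pool.Agent.Helper66.Kiss Pool.Agent.Helper91.Kiss
  Pool.Agent.Helper54.KA Pool.Agent.Helper54.R1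

/-- eleven heights of a sequence -/
def Zf (z : ℕ → ℝ) : Fin 11 → ℝ := fun k => z k

/-- the hypothesis of the certificate -/
def HyL (z φ : ℕ → ℝ) : Prop := SL (11 / 12) (Zf z) (Zf φ) 0

/-- the conclusion of the certificate -/
def PyL (z φ : ℕ → ℝ) : Prop := GainL PhiB (Zf z) (Zf φ)

lemma cond_true {a b : Bool} (h : cond a b false = true) : a = true ∧ b = true := by
  cases a
  · exact absurd h (by simp)
  · exact ⟨rfl, h⟩

/-- the sum over the ten nodes -/
lemma sum10_eq (F : ℕ → ℕ → ℕ → ℕ) (L : ℕ) : sum10 F L = ∑ l : Fin 10,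
    F (l + 1) (fdK L (l + 2) % 65536) (fdK L (l + 2) / 65536) := by
  rw [sum10N fun l => F (l + 1) (fdK L (l + 2) % 65536) (fdK L (l + 2) / 65536)]
  unfold sum10
  simp only [fz_pr]
  rfl

/-- the height of the first point -/
lemma z0_le {L : ℕ} {z : ℕ → ℝ} (hB : InB L z) {K : ℕ}
    (h : Nat.ble (Nat.div (fdK L 1) 65536) (32768 + K) = true) :
    z 0 ≤ -((1 - ((K : ℝ) / 4096) ^ 2) / (1 + ((K : ℝ) / 4096) ^ 2)) := by
  have h1 := hB 0 (by norm_num)
  obtain ⟨hk, -, -, hhi⟩ := h1
  rcases hk with ⟨h0, -⟩ | ⟨-, -, c2⟩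
  · exact absurd rfl h0
  obtain ⟨b, hb, hb'⟩ := isS0_form c2
  rw [zero_add] at hb hhi
  have h2 : fd L 1 / 65536 ≤ 32768 + K := Nat.le_of_ble_eq_true h
  rw [hb] at h2 hhi
  have h3 : b ≤ K := by omega
  refine hhi.trans ?_
  rw [hgt_S, neg_le_neg_iff, div_le_div_iff₀ (by positivity) (by positivity)]
  have h4 : (b : ℝ) / 4096 ≤ (K : ℝ) / 4096 := by
    have : (b : ℝ) ≤ K := by exact_mod_cast h3
    linarith
  have h5 : (0 : ℝ) ≤ (b : ℝ) / 4096 := by positivity
  nlinarith

/-! ## counting -/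

/-- sums of powers of `256` -/
lemma count_sum {w : Fin 10 → ℕ} {p q r t : ℕ} (hpq : p ≠ q) (hpr : p ≠ r) (hpt : p ≠ t)
    (hqr : q ≠ r) (hqt : q ≠ t) (hrt : r ≠ t)
    (hw : ∀ l, w l = p ∨ w l = q ∨ w l = r ∨ w l = t) :
    ∑ l, w l = p * (Finset.univ.filter fun l => w l = p).card +
      q * (Finset.univ.filter fun l => w l = q).card +
      r * (Finset.univ.filter fun l => w l = r).card +
      t * (Finset.univ.filter fun l => w l = t).card ∧
    (Finset.univ.filter fun l => w l = p).card + (Finset.univ.filter fun l => w l = q).card +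
      (Finset.univ.filter fun l => w l = r).card + (Finset.univ.filter fun l => w l = t).card =
      10 := by
  have e : ∀ l, w l = p * (if w l = p then 1 else 0) + q * (if w l = q then 1 else 0) +
      r * (if w l = r then 1 else 0) + t * (if w l = t then 1 else 0) ∧
      (if w l = p then 1 else 0) + (if w l = q then 1 else 0) +
      (if w l = r then 1 else 0) + (if w l = t then 1 else 0) = 1 := by
    intro l
    rcases hw l with h | h | h | h
    · rw [if_pos h, if_neg (by rw [h]; exact hpq), if_neg (by rw [h]; exact hpr),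
        if_neg (by rw [h]; exact hpt)]
      omega
    · rw [if_pos h, if_neg (by rw [h]; exact hpq.symm), if_neg (by rw [h]; exact hqr),
        if_neg (by rw [h]; exact hqt)]
      omega
    · rw [if_pos h, if_neg (by rw [h]; exact hpr.symm), if_neg (by rw [h]; exact hqr.symm),
        if_neg (by rw [h]; exact hrt)]
      omega
    · rw [if_pos h, if_neg (by rw [h]; exact hpt.symm), if_neg (by rw [h]; exact hqt.symm),
        if_neg (by rw [h]; exact hrt.symm)]
      omega
  constructor
  · rw [Finset.card_filter, Finset.card_filter, Finset.card_filter, Finset.card_filter,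
      Finset.mul_sum, Finset.mul_sum, Finset.mul_sum, Finset.mul_sum, ← Finset.sum_add_distrib,
      ← Finset.sum_add_distrib, ← Finset.sum_add_distrib]
    exact Finset.sum_congr rfl fun l _ => (e l).1
  · rw [Finset.card_filter, Finset.card_filter, Finset.card_filter, Finset.card_filter,
      ← Finset.sum_add_distrib, ← Finset.sum_add_distrib, ← Finset.sum_add_distrib,
      Finset.sum_congr rfl fun l _ => (e l).2]
    simp

/-! ## the box of the two packings -/

lemma r1w_cases (k a b : ℕ) : (r1w k a b = 1 ∧ 3840 ≤ a ∧ b ≤ 4352) ∨ (r1w k a b = 256 ∧ 6096 ≤ a) ∨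
    (r1w k a b = 65536 ∧ 2000 ≤ a ∧ b ≤ 2096) ∨ r1w k a b = 16777216 := by
  unfold r1w
  simp only [cb_cond]
  cases h1 : Nat.ble 6096 a with
  | true => exact Or.inr (Or.inl ⟨rfl, Nat.le_of_ble_eq_true h1⟩)
  | false =>
    cases h2 : Nat.ble 3840 a with
    | true =>
      cases h3 : Nat.ble b 4352 with
      | true => exact Or.inl ⟨rfl, Nat.le_of_ble_eq_true h2, Nat.le_of_ble_eq_true h3⟩
      | false => exact Or.inr (Or.inr (Or.inr rfl))
    | false =>
      cases h4 : Nat.ble 2000 a with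
      | true =>
        cases h5 : Nat.ble b 2096 with
        | true => exact Or.inr (Or.inr (Or.inl ⟨rfl, Nat.le_of_ble_eq_true h4,
            Nat.le_of_ble_eq_true h5⟩))
        | false => exact Or.inr (Or.inr (Or.inr rfl))
      | false => exact Or.inr (Or.inr (Or.inr rfl))

theorem r1C_sound {L : ℕ} {z φ : ℕ → ℝ} (h : r1C L = true) (hB : InB L z)
    (hH : HyL z φ) : PyL z φ := by
  unfold r1C at h
  rw [cb_cond] at h
  obtain ⟨h1, h2⟩ := cond_true h
  have h3 := Nat.eq_of_beq_eq_true h2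
  rw [sum10_eq] at h3
  obtain ⟨hbox, -⟩ := box_bridge (Z := Zf z) hB (fun _ => rfl)
  set w : Fin 10 → ℕ := fun l => r1w (l + 1) (fdK L (l + 2) % 65536) (fdK L (l + 2) / 65536)
    with hw
  have hcs : ∀ l : Fin 10, (w l = 1 ∧ 3840 ≤ fdK L (l + 2) % 65536 ∧ fdK L (l + 2) / 65536 ≤ 4352) ∨
      (w l = 256 ∧ 6096 ≤ fdK L (l + 2) % 65536) ∨
      (w l = 65536 ∧ 2000 ≤ fdK L (l + 2) % 65536 ∧ fdK L (l + 2) / 65536 ≤ 2096) ∨
      w l = 16777216 := fun l => r1w_cases _ _ _
  obtain ⟨c1, c2⟩ := count_sum (w := w) (p := 1) (q := 256) (r := 65536) (t := 16777216)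
    (by norm_num) (by norm_num) (by norm_num) (by norm_num) (by norm_num) (by norm_num)
    (fun l => by
      rcases hcs l with h | h | h | h
      · exact Or.inl h.1
      · exact Or.inr (Or.inl h.1)
      · exact Or.inr (Or.inr (Or.inl h.1))
      · exact Or.inr (Or.inr (Or.inr h)))
  have h3' : ∑ l, w l = 263170 := h3
  rw [h3'] at c1
  clear_value w
  have n1 : (Finset.univ.filter fun l => w l = 1).card = 2 := by omega
  have n2 : (Finset.univ.filter fun l => w l = 256).card = 4 := by omega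
  have n3 : (Finset.univ.filter fun l => w l = 65536).card = 4 := by omega
  clear c1 c2 h3 h3' h2 h
  set cl : Fin 10 → ℕ := fun l => if w l = 1 then 1 else if w l = 256 then 2 else
    if w l = 65536 then 0 else 3 with hcl
  have d1 : ∀ l, cl l = 1 ↔ w l = 1 := by
    intro l
    simp only [hcl]
    split_ifs with a b c
    · simp [a]
    · simp [a]
    · simp [a]
    · simp [a]
  have d2 : ∀ l, cl l = 2 ↔ w l = 256 := by
    intro l
    simp only [hcl]
    split_ifs with a b c
    · simp [a]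
    · simp [b]
    · simp [b]
    · simp [b]
  have d0 : ∀ l, cl l = 0 ↔ w l = 65536 := by
    intro l
    simp only [hcl]
    split_ifs with a b c
    · simp [a]
    · simp [b]
    · simp [c]
    · simp [c]
  clear_value cl
  obtain ⟨ρ, hρ⟩ := box_of_classes (z := Zf z) (cl := cl) (by simp only [d1]; exact n1)
    (by simp only [d2]; exact n2) (by simp only [d0]; exact n3) (by
      intro l hl
      rw [d1] at hl
      rcases hcs l with h | h | h | h
      · have e1 : (3840 : ℝ) ≤ ((fdK L (l + 2) % 65536 : ℕ) : ℝ) := by exact_mod_cast h.2.1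
        have e2 : ((fdK L (l + 2) / 65536 : ℕ) : ℝ) ≤ 4352 := by exact_mod_cast h.2.2
        have := hbox.lo l
        have := hbox.hi l
        rw [abs_le]
        constructor <;> linarith
      · omega
      · omega
      · omega) (by
      intro l hl
      rw [d2] at hl
      rcases hcs l with h | h | h | h
      · omega
      · have e1 : (6096 : ℝ) ≤ ((fdK L (l + 2) % 65536 : ℕ) : ℝ) := by exact_mod_cast h.2
        have := hbox.lo l
        linarith
      · omega
      · omega) (by
      intro l hl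
      rw [d0] at hl
      rcases hcs l with h | h | h | h
      · omega
      · omega
      · have e1 : (2000 : ℝ) ≤ ((fdK L (l + 2) % 65536 : ℕ) : ℝ) := by exact_mod_cast h.2.1
        have e2 : ((fdK L (l + 2) / 65536 : ℕ) : ℝ) ≤ 2096 := by exact_mod_cast h.2.2
        have := hbox.lo l
        have := hbox.hi l
        rw [abs_le]
        constructor <;> linarith
      · omega) (by
      have := z0_le hB (K := 735) h1
      refine this.trans ?_
      norm_num)
  exact Or.inr (r1_gainS hH.fe ρ hρ)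

/-! ## five points at each ring -/

lemma j2w_cases (k a b : ℕ) : (j2w k a b = 1 ∧ 6080 ≤ a) ∨ (j2w k a b = 256 ∧ b ≤ 2112) ∨
    j2w k a b = 65536 := by
  unfold j2w
  simp only [cb_cond]
  cases h1 : Nat.ble 6080 a with
  | true => exact Or.inl ⟨rfl, Nat.le_of_ble_eq_true h1⟩
  | false =>
    cases h2 : Nat.ble b 2112 with
    | true => exact Or.inr (Or.inl ⟨rfl, Nat.le_of_ble_eq_true h2⟩)
    | false => exact Or.inr (Or.inr rfl)

theorem j2C_sound {L : ℕ} {z φ : ℕ → ℝ} (h : j2C L = true) (hB : InB L z) : PyL z φ := by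
  classical
  unfold j2C at h
  rw [cb_cond] at h
  obtain ⟨h1, h2⟩ := cond_true h
  have h3 := Nat.eq_of_beq_eq_true h2
  rw [sum10_eq] at h3
  obtain ⟨hbox, -⟩ := box_bridge (Z := Zf z) hB (fun _ => rfl)
  set w : Fin 10 → ℕ := fun l => j2w (l + 1) (fdK L (l + 2) % 65536) (fdK L (l + 2) / 65536)
    with hw
  have hcs : ∀ l : Fin 10, (w l = 1 ∧ 6080 ≤ fdK L (l + 2) % 65536) ∨
      (w l = 256 ∧ fdK L (l + 2) / 65536 ≤ 2112) ∨ w l = 65536 := fun l => j2w_cases _ _ _
  obtain ⟨c1, c2⟩ := count_sum (w := w) (p := 1) (q := 256) (r := 65536) (t := 16777216)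
    (by norm_num) (by norm_num) (by norm_num) (by norm_num) (by norm_num) (by norm_num)
    (fun l => by
      rcases hcs l with h | h | h
      · exact Or.inl h.1
      · exact Or.inr (Or.inl h.1)
      · exact Or.inr (Or.inr (Or.inl h)))
  have h3' : ∑ l, w l = 1285 := h3
  rw [h3'] at c1
  clear_value w
  have n1 : (Finset.univ.filter fun l => w l = 1).card = 5 := by omega
  have n3 : (Finset.univ.filter fun l => w l = 65536).card = 0 := by omega
  have n4 : ∀ l, w l ≠ 65536 := by
    intro l hl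
    rw [Finset.card_eq_zero] at n3
    have : l ∈ (Finset.univ.filter fun l => w l = 65536) := by simp [hl]
    rw [n3] at this
    exact absurd this (Finset.notMem_empty l)
  clear c1 c2 h3 h3' h2 h
  set U : Finset (Fin 11) := (Finset.univ.filter fun l => w l = 1).map (Fin.succEmb 10) with hU
  have hmem : ∀ l : Fin 10, l.succ ∈ U ↔ w l = 1 := by
    intro l
    rw [hU, Finset.mem_map]
    constructor
    · rintro ⟨a, ha, he⟩
      have : a = l := Fin.succ_injective _ he
      subst this
      exact (Finset.mem_filter.1 ha).2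
    · intro hl
      exact ⟨l, Finset.mem_filter.2 ⟨Finset.mem_univ _, hl⟩, rfl⟩
  refine Or.inr (gainS_of_J (gainP_jany (s := 0) (U := U) ?_ ?_ ?_ ?_ ?_))
  · rw [hU, Finset.mem_map]
    rintro ⟨a, -, he⟩
    exact Fin.succ_ne_zero a he
  · rw [hU, Finset.card_map]; exact n1
  · have := z0_le hB (K := 36) h1
    refine lt_of_le_of_lt this ?_
    norm_num
  · intro k hk
    rcases Fin.eq_zero_or_eq_succ k with rfl | ⟨l, rfl⟩
    · exfalso
      rw [hU, Finset.mem_map] at hk
      obtain ⟨a, -, he⟩ := hk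
      exact Fin.succ_ne_zero a he
    · rw [hmem] at hk
      rcases hcs l with h | h | h
      · have e1 : (6080 : ℝ) ≤ ((fdK L (l + 2) % 65536 : ℕ) : ℝ) := by exact_mod_cast h.2
        have := hbox.lo l
        linarith
      · omega
      · omega
  · intro k hk hk0
    obtain ⟨l, rfl⟩ := Fin.exists_succ_eq.2 hk0
    rw [hmem] at hk
    rcases hcs l with h | h | h
    · exact absurd h.1 hk
    · have e1 : ((fdK L (l + 2) / 65536 : ℕ) : ℝ) ≤ 2112 := by exact_mod_cast h.2
      have := hbox.hi l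
      linarith
    · exact absurd h (n4 l)

/-! ## alternating points -/

lemma j1w_zero {b c k x X : ℕ} (h : j1w b c k x X = 0) :
    ((k + b) % 2 = 0 → X ≤ c) ∧ ((k + b) % 2 = 1 → c + 3669 ≤ x) := by
  unfold j1w lowP at h
  simp only [cb_cond] at h
  cases h1 : Nat.beq (Nat.mod (Nat.add k b) 2) 0 with
  | true =>
    have e1 : (k + b) % 2 = 0 := Nat.eq_of_beq_eq_true h1
    rw [h1] at h
    cases h2 : Nat.ble X c with
    | true => exact ⟨fun _ => Nat.le_of_ble_eq_true h2, fun h => by omega⟩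
    | false => rw [h2] at h; exact absurd h (by simp)
  | false =>
    have e1 : (k + b) % 2 ≠ 0 := Nat.ne_of_beq_eq_false h1
    rw [h1] at h
    cases h2 : Nat.ble (Nat.add c 3669) x with
    | true => exact ⟨fun h => absurd h e1, fun _ => Nat.le_of_ble_eq_true h2⟩
    | false => rw [h2] at h; exact absurd h (by simp)

theorem j1B_sound {b L : ℕ} {z φ : ℕ → ℝ} (hb : b = 0 ∨ b = 1)
    (h0 : Nat.ble (Nat.div (fdK L 1) 65536) 32808 = true) (h : j1B b L = true)
    (hB : InB L z) : PyL z φ := by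
  unfold j1B at h
  rw [fz_pr, cb_cond] at h
  obtain ⟨h1, h2⟩ := cond_true h
  have h3 := Nat.eq_of_beq_eq_true h2
  rw [sum10_eq, mx_eq] at h3
  rw [mx_eq] at h1
  obtain ⟨hbox, -⟩ := box_bridge (Z := Zf z) hB (fun _ => rfl)
  have hc1 : 2147 ≤ max 2147 (j1m b L) := le_max_left _ _
  have hc2 : max 2147 (j1m b L) ≤ 2280 := Nat.le_of_ble_eq_true h1
  generalize max 2147 (j1m b L) = c at h3 hc1 hc2
  have hz : ∀ l : Fin 10, j1w b c (l + 1) (fdK L (l + 2) % 65536) (fdK L (l + 2) / 65536) = 0 := by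
    intro l
    exact (Finset.sum_eq_zero_iff.1 h3) l (Finset.mem_univ l)
  have d1 : (2147 : ℝ) ≤ c := by exact_mod_cast hc1
  have d2 : (c : ℝ) ≤ 2280 := by exact_mod_cast hc2
  refine Or.inr (gainS_of_J (gainP_jalt (b := b) (l0 := (c : ℝ) / 4096 - 1) hb ?_ ?_ ?_ ?_))
  · norm_num
    constructor <;> linarith
  · have := z0_le hB (K := 40) h0
    refine lt_of_le_of_lt this ?_
    norm_num
  · intro k hk
    obtain ⟨k0, k1⟩ := hk
    rcases Fin.eq_zero_or_eq_succ k with rfl | ⟨l, rfl⟩
    · exact absurd rfl k0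
    · have hl : (l.succ.val : ℕ) % 11 = l + 1 := by
        rw [Fin.val_succ]; omega
      rw [hl] at k1
      have e1 := (j1w_zero (hz l)).2 k1
      have e2 : (c : ℝ) + 3669 ≤ ((fdK L (l + 2) % 65536 : ℕ) : ℝ) := by exact_mod_cast e1
      have := hbox.lo l
      norm_num
      linarith
  · intro k hk
    obtain ⟨k0, k1⟩ := hk
    rcases Fin.eq_zero_or_eq_succ k with rfl | ⟨l, rfl⟩
    · exact absurd rfl k0
    · have hl : (l.succ.val : ℕ) % 11 = l + 1 := by
        rw [Fin.val_succ]; omega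
      rw [hl] at k1
      have e1 := (j1w_zero (hz l)).1 k1
      have e2 : ((fdK L (l + 2) / 65536 : ℕ) : ℝ) ≤ c := by exact_mod_cast e1
      have := hbox.hi l
      linarith

/-! ## all leaves -/

lemma dir_sound {L D r : ℕ} {z φ : ℕ → ℝ} (hH : HyL z φ) (hB : InB L z) (h : dleaf L D r = true)
    (h1 : bk1 L ≠ 0) (h2 : 1 ≤ pK D) : PyL z φ := by
  have hp : (0 : ℝ) < 1 / 8192 := by norm_num
  have H := leafK_of_dleafP (Z := Zf z) hp hH.fe hH.srt hB (fun _ => rfl) h
    (fun h => absurd h h1)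
  have h9 : Zf z 0 ≤ -(9 / 10) := by
    have := hH.hi
    linarith
  refine gainL_of_leafK H hH.fe h9 (Or.inl ⟨?_, ?_⟩)
  · exact mul_pos (Nat.cast_pos.2 h2) hp
  · rcases eq_or_lt_of_le (hH.fe.1 0).1 with h | h
    · exact absurd (pole_bk1 (Z := Zf z) hB (fun _ => rfl) h.symm) h1
    · exact h

lemma fun_sound {L D r E : ℕ} {z φ : ℕ → ℝ} (hH : HyL z φ) (hB : InB L z)
    (h : dleaf L D r = true) (h1 : bk1 L = 0 → poleL L D r = true) (h2 : funC L D r E = true) :
    PyL z φ := by
  have hp : (0 : ℝ) < 1 / 8192 := by norm_num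
  have H := leafK_of_dleafP (Z := Zf z) hp hH.fe hH.srt hB (fun _ => rfl) h h1
  have h9 : Zf z 0 ≤ -(9 / 10) := by
    have := hH.hi
    linarith
  obtain ⟨hc, hin⟩ := cells_of_dleaf (Z := Zf z) hB (fun _ => rfl) h
  refine gainL_of_leafK H hH.fe h9 (Or.inr ⟨fun l => ?_, funC_sound h2 hc hin⟩)
  have h3 := (InC_iff.1 (hin l)).1
  unfold zz at h3
  have h4 : (0 : ℝ) ≤ (Helper98.DL.lo (Helper98.DL.cL L D r l) : ℕ) := Nat.cast_nonneg _
  linarith

/-- **soundness of all leaves** -/
theorem dlAll_sound (L f D r : ℕ) (h : dlAll L f D r = true) : Helper54.KA.Good HyL PyL L f := by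
  intro z φ hH hB _
  unfold dlAll at h
  generalize Nat.mod r 8 = kd at h
  rcases kd with _ | _ | _ | _ | _ | kd
  · rw [nb_zero, cb_cond, cb_cond] at h
    obtain ⟨h1, h⟩ := cond_true h
    obtain ⟨h2, h3⟩ := cond_true h
    have e1 := Nat.le_of_ble_eq_true h1
    exact dir_sound hH hB h3 (by omega) (Nat.le_of_ble_eq_true h2)
  · rw [nb_succ, nb_zero, fz_pr, cb_cond] at h
    obtain ⟨h1, h2⟩ := cond_true h
    rw [cb_cond, cb_cond] at h2
    cases hk : Nat.ble 1 (bk1 L) with
    | true =>
      rw [hk] at h2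
      have e1 := Nat.le_of_ble_eq_true hk
      exact fun_sound hH hB h2 (fun h => by omega) h1
    | false =>
      rw [hk] at h2
      obtain ⟨h3, h4⟩ := cond_true h2
      exact fun_sound hH hB h3 (fun _ => h4) h1
  · rw [nb_succ, nb_succ, nb_zero] at h
    exact r1C_sound h hB hH
  · rw [nb_succ, nb_succ, nb_succ, nb_zero] at h
    unfold j1C at h
    rw [cb_cond, cb_cond] at h
    obtain ⟨h0, h⟩ := cond_true h
    cases h1 : j1B 0 L with
    | true => exact j1B_sound (Or.inl rfl) h0 h1 hB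
    | false =>
      rw [h1] at h
      cases h2 : j1B 1 L with
      | true => exact j1B_sound (Or.inr rfl) h0 h2 hB
      | false =>
        rw [h2] at h
        exact absurd h (by simp)
  · rw [nb_succ, nb_succ, nb_succ, nb_succ, nb_zero] at h
    exact j2C_sound h hB
  · rw [nb_succ, nb_succ, nb_succ, nb_succ, nb_succ] at h
    exact absurd h (by simp)

end Pool.Agent.Helper66.Kiss.Dl
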