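import Pool.Agent.Helper66.Kiss.DlG1
import Pool.Agent.Helper66.Kiss.DlS
import Pool.Agent.Helper91.Dl.J3C

set_option autoImplicit false

/-! # The leaves other than direction leaves: soundness of the functions for the kernel -/

namespace Pool.Agent.Helper66.Kiss.DlG

open Pool.Agent.Helper98.DL Pool.Agent.Helper66.Kiss Pool.Agent.Helper91.Kiss
  Pool.Agent.Helper66.Kiss.Dl Pool.Agent.Helper91.Dl

theorem syH_eq (L : ℕ) : syH L = symC L := rfl

theorem j3H_eq (L : ℕ) : j3H L = j3C L := rfl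

lemma j3G_eq (k g : ℕ) : j3G g = j3w k (Nat.mod g 65536) (Nat.div g 65536) := rfl

theorem j1H_sound {L : ℕ} {z φ : ℕ → ℝ} (h : j1H L = true)
    (hB : Pool.Agent.Helper54.KA.InB L z) : PyL z φ := by
  obtain ⟨h0, h1⟩ := an_true h
  cases h2 : j1G (fG L 3) (fG L 5) (fG L 7) (fG L 9) (fG L 11) (fG L 2) (fG L 4)
    (fG L 6) (fG L 8) (fG L 10) with
  | true => exact j1B_sound (Or.inl rfl) h0 (j1B_0 h2) hB
  | false =>
    rw [h2] at h1
    cases h3 : j1G (fG L 2) (fG L 4) (fG L 6) (fG L 8) (fG L 10) (fG L 3) (fG L 5)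
      (fG L 7) (fG L 9) (fG L 11) with
    | true => exact j1B_sound (Or.inr rfl) h0 (j1B_1 h3) hB
    | false =>
      rw [h3] at h1
      exact absurd h1 (by simp)

end Pool.Agent.Helper66.Kiss.DlG
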