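import Pool.Agent.Helper98.DL.FEq
import Pool.Agent.Helper66.Kiss.DlG
import Pool.Agent.Helper66.Kiss.DlG2

set_option autoImplicit false

/-! # All leaves: soundness of the functions for the kernel -/

namespace Pool.Agent.Helper66.Kiss.DlG

open Pool.Agent.Helper98.DL Pool.Agent.Helper66.Kiss Pool.Agent.Helper91.Kiss
  Pool.Agent.Helper66.Kiss.Dl Pool.Agent.Helper91.Dl Pool.Agent.Helper98.FD Pool.Agent.Helper54.KA

lemma fzB_eq (n : ℕ) (f : ℕ → Bool) : fzB n f = f n := by cases n <;> rfl

/-- **soundness of all leaves** -/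
theorem dlG_sound {L f D r : ℕ} {z φ : ℕ → ℝ} (h : dlG L f D r = true) (hH : HyL z φ)
    (hB : InB L z) : PyL z φ := by
  unfold dlG at h
  generalize Nat.mod r (nat_lit 8) = kd at h
  unfold kdG at h
  rcases kd with _ | _ | _ | _ | _ | _ | _ | kd
  · have h' : k0G L D r = true := h
    obtain ⟨h1, h2⟩ := an_true h'
    obtain ⟨h3, h4⟩ := an_true h2
    have e1 : 1 ≤ b1F L := Nat.le_of_ble_eq_true h1
    have e2 : 1 ≤ kKF D := Nat.le_of_ble_eq_true h3
    rw [b1F_k] at e1
    rw [kKF_k] at e2
    exact dir_sound hH hB (dlF_k h4) (by omega) e2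
  · have h' : k1G L D r = true := h
    unfold k1G at h'
    rw [fzB_eq] at h'
    obtain ⟨h1, h2⟩ := an_true h'
    obtain ⟨h3, h4⟩ := an_true h2
    refine fun_sound hH hB (dlF_k h1) (fun h0 => ?_)
      (E := Nat.mod D (nat_lit 281474976710656)) ?_
    · refine poF_k h1 ?_
      rw [b1F_k, h0] at h4
      exact h4
    · rw [← funG_eq]
      unfold k1C at h3
      rw [nkF_k h1 (by norm_num), nkF_k h1 (by norm_num), nkF_k h1 (by norm_num),
        nkF_k h1 (by norm_num), nkF_k h1 (by norm_num), nkF_k h1 (by norm_num),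
        nkF_k h1 (by norm_num), nkF_k h1 (by norm_num), nkF_k h1 (by norm_num),
        nkF_k h1 (by norm_num)] at h3
      exact h3
  · have h' : r1H L = true := h
    rw [r1H_eq] at h'
    exact r1C_sound h' hB hH
  · have h' : j1H L = true := h
    exact j1H_sound h' hB
  · have h' : j2H L = true := h
    rw [j2H_eq] at h'
    exact j2C_sound h' hB
  · have h' : false = true := h
    exact absurd h' (by simp)
  · have h' : j3H L = true := h
    rw [j3H_eq] at h'
    exact j3C_sound h' hB
  · have h' : false = true := h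
    exact absurd h' (by simp)

/-- **soundness of all leaves**, at the roots -/
theorem dlG_root (L f D r : ℕ) (h : dlG L f D r = true) : Helper54.KA.Good HSL PR L f :=
  fun _ _ hH hB _ => dlG_sound h (HSL.hy hH) hB

/-- **soundness of all leaves**, with the order of two nodes -/
theorem dlH_root (L f D r : ℕ) (h : dlH L f D r = true) : Helper54.KA.Good HSB PR L f := by
  intro z φ hH hB hF
  unfold dlH at h
  cases hk : Nat.beq (Nat.mod r (nat_lit 8)) (nat_lit 5) with
  | true =>
    rw [hk] at h
    have h' : syH L = true := h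
    rw [syH_eq] at h'
    exact absurd hH.2 (symC_sound h' hB)
  | false =>
    rw [hk] at h
    exact dlG_root L f D r h z φ hH.1 hB hF

end Pool.Agent.Helper66.Kiss.DlG
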