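import Mathlib

set_option autoImplicit false

/-! # Longest walks on a circle: continuous potentials

Nodes are the natural numbers; node `a` and node `a + n` are the same node of the circle. A walk is
an increasing sequence of naturals with steps `< n`. If every closed walk with at most `n` steps
and winding number `w` has length at most `c * w`, then there are potentials `φ k` (`k < n`) with
`W i j ≤ φ j - φ i ≤ c - W j (i + n)` for `i < j < n`, given by an explicit formula which is
continuous in `W`. -/

namespace Pool.Agent.Helper66.Kiss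

open Finset

/-- increasing walk with `r` steps -/
def IsWalk (n : ℕ) (v : ℕ → ℕ) (r : ℕ) : Prop := ∀ i < r, v i < v (i + 1) ∧ v (i + 1) < v i + n

/-- length of a walk -/
def total (W : ℕ → ℕ → ℝ) (v : ℕ → ℕ) (r : ℕ) : ℝ := ∑ i ∈ range r, W (v i) (v (i + 1))

/-- longest walk from `0` to `m` -/
noncomputable def lp (n : ℕ) (W : ℕ → ℕ → ℝ) : ℕ → ℝ
  | 0 => 0
  | (m + 1) => (Finset.univ : Finset (Fin (m + 1))).sup' ⟨0, Finset.mem_univ _⟩
      (fun j => if m + 1 < j.val + n then lp n W j.val + W j.val (m + 1)
        else lp n W m + W m (m + 1))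
decreasing_by all_goals omega

variable {n : ℕ} {W : ℕ → ℕ → ℝ} {c : ℝ}

lemma lp_zero : lp n W 0 = 0 := by rw [lp]

lemma lp_ge {j m : ℕ} (h1 : j < m) (h2 : m < j + n) : lp n W j + W j m ≤ lp n W m := by
  obtain ⟨m, rfl⟩ : ∃ k, m = k + 1 := ⟨m - 1, by omega⟩
  conv_rhs => rw [lp]
  have := Finset.le_sup' (s := (Finset.univ : Finset (Fin (m + 1))))
    (f := fun j => if m + 1 < j.val + n then lp n W j.val + W j.val (m + 1)
        else lp n W m + W m (m + 1)) (Finset.mem_univ (⟨j, h1⟩ : Fin (m + 1)))
  simp only [h2, if_true] at this
  exact this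

lemma lp_attained (hn : 2 ≤ n) (m : ℕ) : ∃ j, j < m + 1 ∧ m + 1 < j + n ∧
    lp n W (m + 1) = lp n W j + W j (m + 1) := by
  have h := Finset.exists_mem_eq_sup' (s := (Finset.univ : Finset (Fin (m + 1))))
    ⟨0, Finset.mem_univ _⟩ (fun j => if m + 1 < j.val + n then lp n W j.val + W j.val (m + 1)
        else lp n W m + W m (m + 1))
  obtain ⟨j, -, hj⟩ := h
  by_cases hjn : m + 1 < j.val + n
  · refine ⟨j, j.isLt, hjn, ?_⟩
    rw [lp, hj, if_pos hjn]
  · refine ⟨m, by omega, by omega, ?_⟩
    rw [lp, hj, if_neg hjn]

lemma total_succ (v : ℕ → ℕ) (r : ℕ) : total W v (r + 1) = total W v r + W (v r) (v (r + 1)) := by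
  unfold total; rw [sum_range_succ]

lemma total_congr {v v' : ℕ → ℕ} {r : ℕ} (h : ∀ i ≤ r, v i = v' i) : total W v r = total W v' r := by
  unfold total
  refine sum_congr rfl fun i hi => ?_
  have := mem_range.1 hi
  rw [h i (by omega), h (i + 1) (by omega)]

lemma total_add (v : ℕ → ℕ) (r s : ℕ) :
    total W v (r + s) = total W v r + total W (fun i => v (r + i)) s := by
  unfold total
  rw [sum_range_add]
  simp only [add_assoc]

lemma lp_walk (hn : 2 ≤ n) : ∀ m : ℕ, ∃ v r, IsWalk n v r ∧ v 0 = 0 ∧ v r = m ∧
    total W v r = lp n W m := by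
  intro m
  induction m using Nat.strong_induction_on with
  | _ m ih =>
    rcases Nat.eq_zero_or_pos m with rfl | hm
    · exact ⟨fun _ => 0, 0, fun i hi => absurd hi (by omega), rfl, rfl, by simp [total, lp_zero]⟩
    · obtain ⟨m, rfl⟩ : ∃ k, m = k + 1 := ⟨m - 1, by omega⟩
      obtain ⟨j, hj1, hj2, hj3⟩ := lp_attained (W := W) hn m
      obtain ⟨v, r, hv, h0, hr, ht⟩ := ih j hj1
      refine ⟨fun i => if i ≤ r then v i else m + 1, r + 1, ?_, ?_, ?_, ?_⟩
      · intro i hi
        rcases Nat.lt_or_ge i r with h | h
        · simp only [h.le, if_true, Nat.succ_le_of_lt h]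
          exact hv i h
        · have hir : i = r := by omega
          subst hir
          simp only [le_refl, if_true, Nat.succ_le_iff, lt_irrefl, if_false, hr]
          omega
      · simp [h0]
      · simp
      · rw [total_succ]
        have e1 : total W (fun i => if i ≤ r then v i else m + 1) r = total W v r :=
          total_congr (fun i hi => by simp [hi])
        rw [e1, ht, hj3]
        simp [hr]

lemma walk_le_lp {v : ℕ → ℕ} (h0 : v 0 = 0) : ∀ r : ℕ, IsWalk n v r → total W v r ≤ lp n W (v r) := by
  intro r
  induction r with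
  | zero => intro _; simp [total, h0, lp_zero]
  | succ r ih =>
    intro hv
    rw [total_succ]
    have h1 := ih (fun i hi => hv i (by omega))
    have h2 := hv r (by omega)
    have h3 := lp_ge (n := n) (W := W) h2.1 h2.2
    linarith

lemma IsWalk.strictMono {v : ℕ → ℕ} {r : ℕ} (hv : IsWalk n v r) {i j : ℕ} (hij : i < j) (hj : j ≤ r) :
    v i < v j := by
  induction j with
  | zero => omega
  | succ j ih =>
    have h1 := (hv j (by omega)).1
    rcases Nat.lt_or_ge i j with h | h
    · exact lt_trans (ih h (by omega)) h1
    · have : i = j := by omega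
      subst this; exact h1

/-- removing closed walks -/
lemma reduce (hn : 0 < n) (hper : ∀ a b, W (a + n) (b + n) = W a b)
    (hcl : ∀ (v : ℕ → ℕ) (r w : ℕ), r ≤ n → IsWalk n v r → v r = v 0 + n * w → 1 ≤ w →
      total W v r ≤ c * w) :
    ∀ (r : ℕ) (v : ℕ → ℕ), IsWalk n v r → v 0 = 0 → ∃ (w : ℕ) (v' : ℕ → ℕ) (r' : ℕ),
      IsWalk n v' r' ∧ v' 0 = 0 ∧ r' < n ∧ v' r' + n * w = v r ∧
      total W v r ≤ total W v' r' + c * w := by
  have hperw : ∀ w a b, W (a + n * w) (b + n * w) = W a b := by
    intro w
    induction w with
    | zero => intro a b; simp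
    | succ w ih => intro a b; rw [show a + n * (w + 1) = (a + n * w) + n by ring,
        show b + n * (w + 1) = (b + n * w) + n by ring, hper, ih]
  intro r
  induction r using Nat.strong_induction_on with
  | _ r ih =>
    intro v hv h0
    rcases Nat.lt_or_ge r n with hr | hr
    · exact ⟨0, v, r, hv, h0, hr, by simp, by simp⟩
    · -- pigeonhole
      have hpg : ∃ i j : ℕ, i < j ∧ j ≤ n ∧ v i % n = v j % n := by
        have hmaps : ∀ a ∈ Finset.range (n + 1), v a % n ∈ Finset.range n := by
          intro a _; exact mem_range.2 (Nat.mod_lt _ hn)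
        obtain ⟨x, hx, y, hy, hxy, hf⟩ := Finset.exists_ne_map_eq_of_card_lt_of_maps_to
          (s := Finset.range (n + 1)) (t := Finset.range n) (by simp) hmaps
        rw [mem_range] at hx hy
        rcases Nat.lt_or_gt_of_ne hxy with h | h
        · exact ⟨x, y, h, by omega, hf⟩
        · exact ⟨y, x, h, by omega, hf.symm⟩
      obtain ⟨i, j, hij, hjn, hmod⟩ := hpg
      have hlt : v i < v j := hv.strictMono hij (by omega)
      obtain ⟨w0, hw0⟩ : ∃ w0, v j = v i + n * w0 := by
        have h1 := Nat.div_add_mod (v i) n
        have h2 := Nat.div_add_mod (v j) n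
        refine ⟨v j / n - v i / n, ?_⟩
        have h3 : v i / n ≤ v j / n := Nat.div_le_div_right hlt.le
        rw [Nat.mul_sub]
        have h4 : n * (v i / n) ≤ n * (v j / n) := Nat.mul_le_mul_left _ h3
        omega
      have hw1 : 1 ≤ w0 := by
        rcases Nat.eq_zero_or_pos w0 with h | h
        · subst h; simp at hw0; omega
        · exact h
      obtain ⟨d, hd⟩ : ∃ d, j = i + d := ⟨j - i, by omega⟩
      obtain ⟨s, hs⟩ : ∃ s, r = i + d + s := ⟨r - (i + d), by omega⟩
      -- the closed walk
      have hsub : total W (fun k => v (i + k)) d ≤ c * w0 := by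
        refine hcl (fun k => v (i + k)) d w0 (by omega) ?_ ?_ hw1
        · intro k hk
          have := hv (i + k) (by omega)
          simpa [add_assoc] using this
        · show v (i + d) = v (i + 0) + n * w0
          rw [← hd, hw0]; simp
      -- the shortened walk
      set u : ℕ → ℕ := fun k => if k ≤ i then v k else v (k + d) - n * w0 with hu
      have hge : ∀ k, i ≤ k → k + d ≤ r → n * w0 ≤ v (k + d) ∧ (v i + n * w0 ≤ v (k + d)) := by
        intro k hk hkr
        have : v (i + d) ≤ v (k + d) := by
          rcases Nat.eq_or_lt_of_le hk with h | h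
          · rw [h]
          · exact (hv.strictMono (by omega) hkr).le
        rw [← hd, hw0] at this
        constructor <;> omega
      have hud : ∀ k, i ≤ k → k + d ≤ r → u k = v (k + d) - n * w0 := by
        intro k hk _
        rcases Nat.eq_or_lt_of_le hk with h | h
        · subst h
          simp only [hu, le_refl, if_true]
          rw [← hd, hw0]; omega
        · simp only [hu]
          rw [if_neg (by omega)]
      have huw : IsWalk n u (i + s) := by
        intro k hk
        rcases Nat.lt_or_ge k i with h | h
        · have e1 : u k = v k := by simp [hu, h.le]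
          have e2 : u (k + 1) = v (k + 1) := by simp only [hu]; rw [if_pos (by omega)]
          rw [e1, e2]; exact hv k (by omega)
        · rw [hud k h (by omega), hud (k + 1) (by omega) (by omega)]
          have h1 := hv (k + d) (by omega)
          have h2 := (hge k h (by omega)).1
          rw [show k + 1 + d = k + d + 1 by ring]
          omega
      have hu0 : u 0 = 0 := by simp [hu, h0]
      obtain ⟨w, v', r', hv', h0', hr', hend, htot⟩ := ih (i + s) (by omega) u huw hu0
      refine ⟨w + w0, v', r', hv', h0', hr', ?_, ?_⟩
      · have e1 : u (i + s) = v r - n * w0 := by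
          rw [hud (i + s) (by omega) (by omega), show i + s + d = r by omega]
        have e2 : n * w0 ≤ v r := by
          have := (hge (i + s) (by omega) (by omega)).1
          rwa [show i + s + d = r by omega] at this
        rw [mul_add]; omega
      · have e1 : total W v r = total W v i + total W (fun k => v (i + k)) d +
            total W (fun k => v (i + d + k)) s := by
          rw [hs, total_add, total_add]
        have e2 : total W u (i + s) = total W v i + total W (fun k => v (i + d + k)) s := by
          rw [total_add]
          congr 1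
          · exact total_congr (fun k hk => by simp [hu, hk])
          · unfold total
            refine sum_congr rfl fun k hk => ?_
            have hk' := mem_range.1 hk
            show W (u (i + k)) (u (i + (k + 1))) = W (v (i + d + k)) (v (i + d + (k + 1)))
            rw [hud (i + k) (by omega) (by omega)]
            rw [hud (i + (k + 1)) (by omega) (by omega)]
            have h1 := (hge (i + k) (by omega) (by omega)).1
            have h2 := (hge (i + (k + 1)) (by omega) (by omega)).1
            have := hperw w0 (v (i + k + d) - n * w0) (v (i + (k + 1) + d) - n * w0)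
            rw [Nat.sub_add_cancel h1, Nat.sub_add_cancel h2] at this
            rw [← this, show i + d + k = i + k + d by ring,
              show i + d + (k + 1) = i + (k + 1) + d by ring]
        push_cast
        rw [e1]
        rw [e2] at htot
        linarith

/-- the potential -/
noncomputable def pot (n : ℕ) (c : ℝ) (W : ℕ → ℕ → ℝ) (hn : 0 < n) (k : ℕ) : ℝ :=
  (Finset.range n).sup' ⟨0, mem_range.2 hn⟩ (fun j => lp n W (k + n * j) - c * j)

lemma pot_ge (hn : 0 < n) (k j : ℕ) (hj : j < n) : lp n W (k + n * j) - c * j ≤ pot n c W hn k :=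
  Finset.le_sup' (f := fun j => lp n W (k + n * j) - c * j) (mem_range.2 hj)

lemma pot_lower (hn : 0 < n) {i j : ℕ} (hij : i < j) (hj : j < n)
    (hper : ∀ a b, W (a + n) (b + n) = W a b) : W i j ≤ pot n c W hn j - pot n c W hn i := by
  have hperw : ∀ w a b, W (a + n * w) (b + n * w) = W a b := by
    intro w
    induction w with
    | zero => intro a b; simp
    | succ w ih => intro a b; rw [show a + n * (w + 1) = (a + n * w) + n by ring,
        show b + n * (w + 1) = (b + n * w) + n by ring, hper, ih]
  obtain ⟨l, hl, he⟩ := Finset.exists_mem_eq_sup' (s := Finset.range n) ⟨0, mem_range.2 hn⟩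
    (fun j => lp n W (i + n * j) - c * j)
  have h1 : pot n c W hn i = lp n W (i + n * l) - c * l := he
  have h2 := pot_ge (n := n) (W := W) (c := c) hn j l (mem_range.1 hl)
  have h3 := lp_ge (n := n) (W := W) (j := i + n * l) (m := j + n * l) (by omega) (by omega)
  rw [hperw] at h3
  rw [h1]; linarith

lemma pot_upper (hn : 2 ≤ n) {i j : ℕ} (hij : i < j) (hj : j < n)
    (hper : ∀ a b, W (a + n) (b + n) = W a b)
    (hcl : ∀ (v : ℕ → ℕ) (r w : ℕ), r ≤ n → IsWalk n v r → v r = v 0 + n * w → 1 ≤ w →
      total W v r ≤ c * w) :
    pot n c W (by omega) j - pot n c W (by omega) i ≤ c - W j (i + n) := by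
  have hn0 : 0 < n := by omega
  have hperw : ∀ w a b, W (a + n * w) (b + n * w) = W a b := by
    intro w
    induction w with
    | zero => intro a b; simp
    | succ w ih => intro a b; rw [show a + n * (w + 1) = (a + n * w) + n by ring,
        show b + n * (w + 1) = (b + n * w) + n by ring, hper, ih]
  obtain ⟨l, hl, he⟩ := Finset.exists_mem_eq_sup' (s := Finset.range n) ⟨0, mem_range.2 hn0⟩
    (fun l => lp n W (j + n * l) - c * l)
  have h1 : pot n c W hn0 j = lp n W (j + n * l) - c * l := he
  have hl' := mem_range.1 hl
  have h3 := lp_ge (n := n) (W := W) (j := j + n * l) (m := i + n * (l + 1))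
    (by rw [mul_add]; omega) (by rw [mul_add]; omega)
  have e3 : W (j + n * l) (i + n * (l + 1)) = W j (i + n) := by
    rw [show i + n * (l + 1) = (i + n) + n * l by ring, hperw]
  rw [e3] at h3
  -- lp (i + n (l+1)) ≤ pot i + c (l+1)
  have h4 : lp n W (i + n * (l + 1)) - c * ((l + 1 : ℕ) : ℝ) ≤ pot n c W hn0 i := by
    rcases Nat.lt_or_ge (l + 1) n with h | h
    · exact pot_ge hn0 i (l + 1) h
    · have hln : l + 1 = n := by omega
      obtain ⟨v, r, hv, h0, hr, ht⟩ := lp_walk (W := W) hn (i + n * (l + 1))
      obtain ⟨w, v', r', hv', h0', hr', hend, htot⟩ := reduce hn0 hper hcl r v hv h0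
      -- v' r' < n * n
      have hb : ∀ k, k ≤ r' → v' k ≤ (n - 1) * k := by
        intro k
        induction k with
        | zero => intro _; simp [h0']
        | succ k ih =>
          intro hk
          have := hv' k (by omega)
          have := ih (by omega)
          rw [mul_add]; omega
      have hb' := hb r' le_rfl
      have hb2 : (n - 1) * r' ≤ (n - 1) * (n - 1) := Nat.mul_le_mul_left _ (by omega)
      have hb3 : (n - 1) * (n - 1) < n * n := by
        obtain ⟨p, rfl⟩ : ∃ p, n = p + 1 := ⟨n - 1, by omega⟩
        simp only [Nat.add_sub_cancel]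
        nlinarith
      rw [hr, hln] at hend
      have hw1 : 1 ≤ w := by
        rcases Nat.eq_zero_or_pos w with hw | hw
        · subst hw; simp at hend; omega
        · exact hw
      have hwn : w ≤ n := by
        by_contra hcon
        have : n * (n + 1) ≤ n * w := Nat.mul_le_mul_left _ (by omega)
        rw [mul_add] at this
        omega
      have e5 : v' r' = i + n * (n - w) := by
        have : n * (n - w) + n * w = n * n := by rw [← mul_add, Nat.sub_add_cancel hwn]
        omega
      have h6 := walk_le_lp (W := W) h0' r' hv'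
      rw [e5] at h6
      have h7 := pot_ge (n := n) (W := W) (c := c) hn0 i (n - w) (by omega)
      rw [← ht]
      have e8 : ((n - w : ℕ) : ℝ) = (n : ℝ) - w := by push_cast [hwn]; ring
      rw [e8] at h7
      rw [hln]
      linarith
  push_cast at h4
  rw [h1]
  linarith

lemma continuous_lp {X : Type*} [TopologicalSpace X] {V : X → ℕ → ℕ → ℝ}
    (hV : ∀ a b, Continuous fun x => V x a b) : ∀ m, Continuous fun x => lp n (V x) m := by
  intro m
  induction m using Nat.strong_induction_on with
  | _ m ih =>
    rcases Nat.eq_zero_or_pos m with rfl | hm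
    · simp only [lp_zero]; exact continuous_const
    · obtain ⟨m, rfl⟩ : ∃ k, m = k + 1 := ⟨m - 1, by omega⟩
      have e : (fun x => lp n (V x) (m + 1)) =
          (fun x => (Finset.univ : Finset (Fin (m + 1))).sup' ⟨0, Finset.mem_univ _⟩
            (fun j => if m + 1 < j.val + n then lp n (V x) j.val + V x j.val (m + 1)
              else lp n (V x) m + V x m (m + 1))) := by
        funext x; rw [lp]
      rw [e]
      apply Continuous.finset_sup'_apply
      intro j _
      by_cases h : m + 1 < j.val + n
      · simp only [h, if_true]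
        exact (ih j.val (by omega)).add (hV _ _)
      · simp only [h, if_false]
        exact (ih m (by omega)).add (hV _ _)

lemma continuous_pot {X : Type*} [TopologicalSpace X] {V : X → ℕ → ℕ → ℝ} (hn : 0 < n)
    (hV : ∀ a b, Continuous fun x => V x a b) (k : ℕ) :
    Continuous fun x => pot n c (V x) hn k := by
  unfold pot
  apply Continuous.finset_sup'_apply
  intro j _
  exact (continuous_lp hV _).sub continuous_const

end Pool.Agent.Helper66.Kiss
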