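import Pool.Agent.Helper66.Kiss.Labels
import Pool.Agent.Helper66.Kiss.Walks

set_option autoImplicit false

/-! # Twelve kissing spheres: configurations with an antipodal pair, reduced to ten real heights -/

namespace Pool.Agent.Helper66.Kiss

open Real Set

/-- least longitude difference of two points at heights `z`, `w` at angle `≥ π/3` -/
noncomputable def wd (z w : ℝ) : ℝ := arccos ((1 / 2 - z * w) / (√(1 - z ^ 2) * √(1 - w ^ 2)))

lemma wd_comm (z w : ℝ) : wd z w = wd w z := by
  unfold wd; rw [mul_comm z w, mul_comm (√(1 - z ^ 2))]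

lemma wd_nonneg (z w : ℝ) : 0 ≤ wd z w := Real.arccos_nonneg _

lemma cos_le_iff {x q : ℝ} (h0 : 0 ≤ x) (h1 : x ≤ 2 * π) :
    cos x ≤ q → arccos q ≤ x ∧ x ≤ 2 * π - arccos q := by
  intro h
  rcases le_total x π with h2 | h2
  · have h3 : arccos q ≤ x := by
      have := Real.arccos_le_arccos h
      rwa [Real.arccos_cos h0 h2] at this
    have := Real.arccos_le_pi q
    exact ⟨h3, by linarith⟩
  · have h3 : arccos q ≤ 2 * π - x := by
      have h4 : cos (2 * π - x) ≤ q := by rwa [Real.cos_two_pi_sub]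
      have := Real.arccos_le_arccos h4
      rwa [Real.arccos_cos (by linarith) (by linarith)] at this
    have := Real.arccos_le_pi q
    exact ⟨by linarith, by linarith⟩

lemma cos_le_of_arccos {x q : ℝ} (hq : -1 ≤ q) (h1 : arccos q ≤ x) (h2 : x ≤ 2 * π - arccos q) :
    cos x ≤ q := by
  rcases le_total 1 q with h | h
  · exact (Real.cos_le_one x).trans h
  · have h0 := Real.arccos_nonneg q
    rw [← Real.cos_arccos hq h]
    rcases le_total x π with h3 | h3
    · exact Real.cos_le_cos_of_nonneg_of_le_pi h0 h3 h1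
    · rw [← Real.cos_two_pi_sub x]
      exact Real.cos_le_cos_of_nonneg_of_le_pi h0 (by linarith) (by linarith)

lemma sqrt_pos_of_band {z : ℝ} (hz : |z| ≤ 1 / 2) : 0 < √(1 - z ^ 2) := by
  apply Real.sqrt_pos.2
  have := abs_le.1 hz
  nlinarith

lemma band_abs_mul {z w : ℝ} (hz : |z| ≤ 1 / 2) (hw : |w| ≤ 1 / 2) : |z * w| ≤ 1 / 4 := by
  rw [abs_mul]
  have := mul_le_mul hz hw (abs_nonneg _) (by norm_num)
  linarith

lemma third_le {z w : ℝ} (hz : |z| ≤ 1 / 2) (hw : |w| ≤ 1 / 2) :
    1 / 3 ≤ (1 / 2 - z * w) / (√(1 - z ^ 2) * √(1 - w ^ 2)) := by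
  have h1 := sqrt_pos_of_band hz
  have h2 := sqrt_pos_of_band hw
  rw [le_div_iff₀ (mul_pos h1 h2)]
  have hzz := abs_le.1 hz
  have hww := abs_le.1 hw
  have hzw := abs_le.1 (band_abs_mul hz hw)
  have e1 : √(1 - z ^ 2) ^ 2 = 1 - z ^ 2 := Real.sq_sqrt (by nlinarith)
  have e2 : √(1 - w ^ 2) ^ 2 = 1 - w ^ 2 := Real.sq_sqrt (by nlinarith)
  have h3 : (√(1 - z ^ 2) * √(1 - w ^ 2)) ^ 2 ≤ (1 - |z * w|) ^ 2 := by
    rw [mul_pow, e1, e2]
    have : |z * w| ^ 2 = (z * w) ^ 2 := sq_abs _
    have h4 : 2 * |z * w| ≤ z ^ 2 + w ^ 2 := by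
      rw [abs_mul]
      nlinarith [sq_nonneg (|z| - |w|), sq_abs z, sq_abs w]
    nlinarith
  have h5 : √(1 - z ^ 2) * √(1 - w ^ 2) ≤ 1 - |z * w| :=
    (abs_le_of_sq_le_sq' h3 (by linarith [band_abs_mul hz hw])).2
  have h6 := neg_abs_le (z * w)
  rcases le_total 0 (z * w) with h | h
  · rw [abs_of_nonneg h] at h5; linarith
  · rw [abs_of_nonpos h] at h5; linarith

lemma wd_le_al {z w : ℝ} (hz : |z| ≤ 1 / 2) (hw : |w| ≤ 1 / 2) : wd z w ≤ al :=
  Real.arccos_le_arccos (third_le hz hw)

lemma inner_pt_le_iff {z w : ℝ} (hz : |z| ≤ 1 / 2) (hw : |w| ≤ 1 / 2) (φ ψ : ℝ) :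
    inner ℝ (pt z φ) (pt w ψ) ≤ 1 / 2 ↔
      cos (ψ - φ) ≤ (1 / 2 - z * w) / (√(1 - z ^ 2) * √(1 - w ^ 2)) := by
  have h1 := sqrt_pos_of_band hz
  have h2 := sqrt_pos_of_band hw
  rw [inner_pt, le_div_iff₀ (mul_pos h1 h2), ← cos_neg, neg_sub]
  constructor <;> intro h <;> linarith

/-- ordered longitudes for ten heights -/
def Ord (z φ : Fin 10 → ℝ) : Prop :=
  ∀ i j, i < j → wd (z i) (z j) ≤ φ j - φ i ∧ φ j - φ i ≤ 2 * π - wd (z i) (z j)

def ix (k : Fin 10) : Fin 12 := ⟨k.val + 2, by omega⟩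

lemma casesIx (i : Fin 12) : i = 0 ∨ i = 1 ∨ ∃ k, i = ix k := by revert i; decide

lemma ix_inj {k l : Fin 10} : ix k = ix l ↔ k = l := by revert k l; decide

/-- two poles and ten points with heights `z` and longitudes `φ` -/
noncomputable def band (z φ : Fin 10 → ℝ) : Fin 12 → E3 := fun i =>
  if i = 0 then e3 else if i = 1 then -e3 else
    pt (z ⟨i.val - 2, by omega⟩) (φ ⟨i.val - 2, by omega⟩)

lemma band_zero (z φ : Fin 10 → ℝ) : band z φ 0 = e3 := rfl
lemma band_one (z φ : Fin 10 → ℝ) : band z φ 1 = -e3 := rfl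
lemma band_ix (z φ : Fin 10 → ℝ) (k : Fin 10) : band z φ (ix k) = pt (z k) (φ k) := by
  fin_cases k <;> rfl

lemma band_mem {z φ : Fin 10 → ℝ} (hz : ∀ i, |z i| ≤ 1 / 2) (h : Ord z φ) : band z φ ∈ Conf := by
  have hsq : ∀ k, (z k) ^ 2 ≤ 1 := fun k => by
    have := abs_le.1 (hz k); nlinarith
  have hpp : ∀ k m, k < m → inner ℝ (pt (z k) (φ k)) (pt (z m) (φ m)) ≤ 1 / 2 := by
    intro k m hkm
    rw [inner_pt_le_iff (hz k) (hz m)]
    refine cos_le_of_arccos ?_ (h k m hkm).1 (h k m hkm).2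
    linarith [third_le (hz k) (hz m)]
  rw [mem_Conf_iff]
  constructor
  · intro i
    rcases casesIx i with rfl | rfl | ⟨k, rfl⟩
    · rw [band_zero]; exact inner_e3_e3
    · rw [band_one, inner_neg_neg]; exact inner_e3_e3
    · rw [band_ix]; exact inner_pt_self _ _ (hsq k)
  · intro i j hij
    rcases casesIx i with rfl | rfl | ⟨k, rfl⟩ <;> rcases casesIx j with rfl | rfl | ⟨m, rfl⟩ <;>
      simp only [band_zero, band_one, band_ix]
    · exact absurd rfl hij
    · rw [inner_neg_right, inner_e3_e3]; norm_num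
    · rw [inner_e3_pt]; exact (abs_le.1 (hz m)).2
    · rw [inner_neg_left, inner_e3_e3]; norm_num
    · exact absurd rfl hij
    · rw [inner_neg_left, inner_e3_pt]; linarith [(abs_le.1 (hz m)).1]
    · rw [inner_pt_e3]; exact (abs_le.1 (hz k)).2
    · rw [inner_neg_right, inner_pt_e3]; linarith [(abs_le.1 (hz k)).1]
    · rcases lt_trichotomy k m with hkm | hkm | hkm
      · exact hpp k m hkm
      · exact absurd (by rw [hkm]) hij
      · rw [real_inner_comm]; exact hpp m k hkm

lemma continuous_band {X : Type*} [TopologicalSpace X] {z φ : X → Fin 10 → ℝ}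
    (hz : ∀ k, Continuous fun x => z x k) (hφ : ∀ k, Continuous fun x => φ x k) :
    Continuous fun x => band (z x) (φ x) := by
  refine continuous_pi fun i => ?_
  rcases casesIx i with rfl | rfl | ⟨k, rfl⟩
  · simp only [band_zero]; exact continuous_const
  · simp only [band_one]; exact continuous_const
  · simp only [band_ix]; exact continuous_pt (hz k) (hφ k)

/-- at fixed heights the ordered longitudes form a convex set -/
lemma band_joined {z φ φ' : Fin 10 → ℝ} (hz : ∀ i, |z i| ≤ 1 / 2) (h : Ord z φ) (h' : Ord z φ') :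
    JoinedIn Conf (band z φ) (band z φ') := by
  have hj := joined_of_fun (f := fun t => band z (fun k => (1 - t) * φ k + t * φ' k))
    (continuous_band (fun k => continuous_const) (fun k => by fun_prop)) (by
      intro t ht
      refine band_mem hz ?_
      intro k m hkm
      obtain ⟨h1, h2⟩ := h k m hkm
      obtain ⟨h3, h4⟩ := h' k m hkm
      constructor
      · have e1 := mul_le_mul_of_nonneg_left h1 (by linarith [ht.2] : (0 : ℝ) ≤ 1 - t)
        have e2 := mul_le_mul_of_nonneg_left h3 ht.1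
        show wd (z k) (z m) ≤ (1 - t) * φ m + t * φ' m - ((1 - t) * φ k + t * φ' k)
        linarith
      · have e1 := mul_le_mul_of_nonneg_left h2 (by linarith [ht.2] : (0 : ℝ) ≤ 1 - t)
        have e2 := mul_le_mul_of_nonneg_left h4 ht.1
        show (1 - t) * φ m + t * φ' m - ((1 - t) * φ k + t * φ' k) ≤ 2 * π - wd (z k) (z m)
        linarith)
  simpa using hj

/-! ## the walk conditions -/

/-- the class of a natural number modulo ten -/
def cl (a : ℕ) : Fin 10 := ⟨a % 10, Nat.mod_lt _ (by norm_num)⟩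

lemma cl_add (a : ℕ) : cl (a + 10) = cl a := by
  unfold cl; congr 1; exact Nat.add_mod_right a 10

lemma cl_of_lt {a : ℕ} (h : a < 10) : cl a = ⟨a, h⟩ := by
  unfold cl; congr 1; exact Nat.mod_eq_of_lt h

/-- widths as a function of two naturals -/
noncomputable def WW (z : Fin 10 → ℝ) (a b : ℕ) : ℝ := wd (z (cl a)) (z (cl b))

lemma WW_per (z : Fin 10 → ℝ) (a b : ℕ) : WW z (a + 10) (b + 10) = WW z a b := by
  unfold WW; rw [cl_add, cl_add]

/-- **Closed walk conditions**: closed walks of winding one with six to ten members -/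
def CW (z : Fin 10 → ℝ) : Prop :=
  ∀ (v : ℕ → ℕ) (r : ℕ), 6 ≤ r → r ≤ 10 → IsWalk 10 v r → v r = v 0 + 10 →
    total (WW z) v r ≤ 2 * π

/-- **The height space of the band.** -/
def HS : Set (Fin 10 → ℝ) := {z | (∀ i, |z i| ≤ 1 / 2) ∧ CW z}

lemma total_le_al {z : Fin 10 → ℝ} (hz : ∀ i, |z i| ≤ 1 / 2) (v : ℕ → ℕ) (r : ℕ) :
    total (WW z) v r ≤ r * al := by
  unfold total
  calc _ ≤ ∑ i ∈ Finset.range r, al := Finset.sum_le_sum fun i _ => wd_le_al (hz _) (hz _)
    _ = r * al := by simp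

lemma closed_all {z : Fin 10 → ℝ} (h : z ∈ HS) (v : ℕ → ℕ) (r w : ℕ) (hr : r ≤ 10)
    (hv : IsWalk 10 v r) (he : v r = v 0 + 10 * w) (hw : 1 ≤ w) :
    total (WW z) v r ≤ 2 * π * w := by
  have h1 := total_le_al h.1 v r
  have h2 := al_le
  have h3 := al_nonneg
  have hpi := Real.pi_pos
  rcases Nat.lt_or_ge 1 w with hw2 | hw2
  · have hr' : (r : ℝ) ≤ 10 := by exact_mod_cast hr
    have hw' : (2 : ℝ) ≤ w := by exact_mod_cast hw2
    nlinarith
  · have hw1 : w = 1 := by omega
    subst hw1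
    rcases Nat.lt_or_ge r 6 with h6 | h6
    · have hr' : (r : ℝ) ≤ 5 := by exact_mod_cast (by omega : r ≤ 5)
      push_cast
      nlinarith
    · have := h.2 v r h6 hr hv (by simpa using he)
      push_cast
      linarith

/-- maximal potentials give ordered longitudes -/
noncomputable def lon (z : Fin 10 → ℝ) (k : Fin 10) : ℝ :=
  pot 10 (2 * π) (WW z) (by norm_num) k.val

lemma lon_ord {z : Fin 10 → ℝ} (h : z ∈ HS) : Ord z (lon z) := by
  intro i j hij
  have hi := i.isLt
  have hj := j.isLt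
  have ei : cl i.val = i := by rw [cl_of_lt hi]
  have ej : cl j.val = j := by rw [cl_of_lt hj]
  have h1 := pot_lower (n := 10) (W := WW z) (c := 2 * π) (by norm_num) (i := i.val) (j := j.val)
    hij hj (WW_per z)
  have h2 := pot_upper (n := 10) (W := WW z) (c := 2 * π) (by norm_num) (i := i.val) (j := j.val)
    hij hj (WW_per z) (closed_all h)
  have e1 : WW z i.val j.val = wd (z i) (z j) := by unfold WW; rw [ei, ej]
  have e2 : WW z j.val (i.val + 10) = wd (z i) (z j) := by
    unfold WW; rw [cl_add, ei, ej, wd_comm]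
  rw [e1] at h1
  rw [e2] at h2
  exact ⟨h1, h2⟩

/-- a path in the height space lifts to the configuration space -/
lemma lift_path {z z' : Fin 10 → ℝ} (h : JoinedIn HS z z') :
    JoinedIn Conf (band z (lon z)) (band z' (lon z')) := by
  obtain ⟨γ, hγ⟩ := h
  have hc : ∀ k, Continuous fun t => γ t k := fun k => (continuous_apply k).comp γ.continuous
  have hW : ∀ a b, Continuous fun t => WW (γ t) a b := by
    intro a b
    unfold WW wd
    refine Real.continuous_arccos.comp (Continuous.div ?_ ?_ ?_)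
    · exact continuous_const.sub ((hc _).mul (hc _))
    · exact ((Real.continuous_sqrt.comp (continuous_const.sub ((hc _).pow 2))).mul
        (Real.continuous_sqrt.comp (continuous_const.sub ((hc _).pow 2))))
    · intro t
      exact (mul_pos (sqrt_pos_of_band ((hγ t).1 _)) (sqrt_pos_of_band ((hγ t).1 _))).ne'
  have hl : ∀ k, Continuous fun t => lon (γ t) k := fun k => continuous_pot (by norm_num) hW _
  refine ⟨⟨⟨fun t => band (γ t) (lon (γ t)), continuous_band hc hl⟩, by simp, by simp⟩, ?_⟩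
  intro t
  exact band_mem (hγ t).1 (lon_ord (hγ t))

/-- actual longitudes imply the walk conditions -/
lemma mem_HS_of_ord {z φ : Fin 10 → ℝ} (hz : ∀ i, |z i| ≤ 1 / 2) (h : Ord z φ) : z ∈ HS := by
  refine ⟨hz, ?_⟩
  intro v r _ _ hv he
  set Φ : ℕ → ℝ := fun m => φ (cl m) + 2 * π * (m / 10 : ℕ) with hΦ
  have hstep : ∀ a b, a < b → b < a + 10 → WW z a b ≤ Φ b - Φ a := by
    intro a b hab hba
    have h1 := Nat.div_add_mod a 10
    have h2 := Nat.div_add_mod b 10
    have h3 := Nat.mod_lt a (show 0 < 10 by norm_num)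
    have h4 := Nat.mod_lt b (show 0 < 10 by norm_num)
    unfold WW
    rcases Nat.lt_or_ge (a / 10) (b / 10) with hd | hd
    · have hd1 : b / 10 = a / 10 + 1 := by omega
      have hlt : cl b < cl a := by
        show b % 10 < a % 10
        omega
      have := (h _ _ hlt).2
      rw [wd_comm] at this
      simp only [hΦ, hd1]
      push_cast
      linarith
    · have hd1 : b / 10 = a / 10 := by omega
      have hlt : cl a < cl b := by
        show a % 10 < b % 10
        omega
      have := (h _ _ hlt).1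
      simp only [hΦ, hd1]
      linarith
  have htel : ∀ s, s ≤ r → total (WW z) v s ≤ Φ (v s) - Φ (v 0) := by
    intro s
    induction s with
    | zero => intro _; simp [total]
    | succ s ih =>
      intro hs
      rw [total_succ]
      have h1 := ih (by omega)
      have h2 := hv s (by omega)
      have h3 := hstep _ _ h2.1 h2.2
      linarith
  have h5 := htel r le_rfl
  have h6 : Φ (v 0 + 10) = Φ (v 0) + 2 * π := by
    simp only [hΦ, cl_add]
    rw [Nat.add_div_right _ (by norm_num)]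
    push_cast; ring
  rw [he, h6] at h5
  linarith

/-- the target: five heights `1/2` and five heights `-1/2` -/
def Tgt (z : Fin 10 → ℝ) : Prop :=
  (∀ i, z i = 1 / 2 ∨ z i = -(1 / 2)) ∧ (Finset.univ.filter fun i => z i = 1 / 2).card = 5

lemma isTwoRing_of_tgt {z φ : Fin 10 → ℝ} (h : Tgt z) : IsTwoRing (band z φ) := by
  classical
  obtain ⟨h1, h2⟩ := h
  set A := Finset.univ.filter fun i => z i = 1 / 2 with hA
  set B := Finset.univ.filter fun i => z i = -(1 / 2) with hB
  have hAB : B = Aᶜ := by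
    ext i
    simp only [hA, hB, Finset.mem_filter, Finset.mem_univ, true_and, Finset.mem_compl]
    constructor
    · intro h3 h4; rw [h3] at h4; norm_num at h4
    · intro h3; exact (h1 i).resolve_left h3
  have hBc : B.card = 5 := by rw [hAB, Finset.card_compl, h2]; simp
  let eA := A.orderIsoOfFin h2
  let eB := B.orderIsoOfFin hBc
  have hmA : ∀ k, z (eA k).1 = 1 / 2 := fun k => by
    have := (eA k).2
    simpa [hA] using this
  have hmB : ∀ k, z (eB k).1 = -(1 / 2) := fun k => by
    have := (eB k).2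
    simpa [hB] using this
  let f : Fin 12 → Fin 12 := asm 0 1 (fun k => ix (eA k).1) (fun k => ix (eB k).1)
  have hf : Function.Injective f := by
    have hu0 : ∀ k, ix k ≠ 0 := by decide
    have hu1 : ∀ k, ix k ≠ 1 := by decide
    have hne : ∀ k m, (eA k).1 ≠ (eB m).1 := by
      intro k m h
      have e1 := hmA k
      rw [h, hmB m] at e1
      norm_num at e1
    intro i j hij
    simp only [f] at hij
    rcases cases12 i with rfl | rfl | ⟨k, rfl⟩ | ⟨k, rfl⟩ <;>
    rcases cases12 j with rfl | rfl | ⟨m, rfl⟩ | ⟨m, rfl⟩ <;>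
    simp only [asm_zero, asm_one, asm_up, asm_lo] at hij
    · rfl
    · exact absurd hij (by decide)
    · exact absurd hij.symm (hu0 _)
    · exact absurd hij.symm (hu0 _)
    · exact absurd hij (by decide)
    · rfl
    · exact absurd hij.symm (hu1 _)
    · exact absurd hij.symm (hu1 _)
    · exact absurd hij (hu0 _)
    · exact absurd hij (hu1 _)
    · rw [eA.injective (Subtype.ext (ix_inj.1 hij))]
    · exact absurd (ix_inj.1 hij) (hne _ _)
    · exact absurd hij (hu0 _)
    · exact absurd hij (hu1 _)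
    · exact absurd (ix_inj.1 hij).symm (hne _ _)
    · rw [eB.injective (Subtype.ext (ix_inj.1 hij))]
  let σ : Equiv.Perm (Fin 12) := Equiv.ofBijective f (Finite.injective_iff_bijective.1 hf)
  have hσ : ⇑σ = f := rfl
  refine ⟨σ, e3, ?_, ?_, ?_, ?_⟩
  · rw [hσ]; rfl
  · rw [hσ]; rfl
  · intro k
    rw [hσ]
    show inner ℝ e3 (band z φ (asm 0 1 (fun k => ix (eA k).1) (fun k => ix (eB k).1) (up k))) = 1 / 2
    rw [asm_up, band_ix, inner_e3_pt, hmA]
  · intro k
    rw [hσ]
    show inner ℝ e3 (band z φ (asm 0 1 (fun k => ix (eA k).1) (fun k => ix (eB k).1) (lo k))) =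
      -(1 / 2)
    rw [asm_lo, band_ix, inner_e3_pt, hmB]

/-- **The statement about ten real heights** -/
def BandStmt : Prop := ∀ z ∈ HS, ∃ z', JoinedIn HS z z' ∧ Tgt z'

/-- The band statement solves all band configurations. -/
theorem band_to_base (H : BandStmt) {z φ : Fin 10 → ℝ} (hz : ∀ i, |z i| ≤ 1 / 2) (h : Ord z φ) :
    JoinedIn Conf (band z φ) base := by
  have hm := mem_HS_of_ord hz h
  obtain ⟨z', hj, ht⟩ := H z hm
  have h1 := band_joined hz h (lon_ord hm)
  have h2 := lift_path hj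
  have h3 := twoRing_joined h2.target_mem (isTwoRing_of_tgt ht)
  exact (h1.trans h2).trans h3

lemma exists_sort10 {z φ : Fin 10 → ℝ} (hz : ∀ k, |z k| ≤ 1 / 2) (h0 : ∀ k, 0 ≤ φ k)
    (h2 : ∀ k, φ k < 2 * π)
    (hc : ∀ k m, k ≠ m → inner ℝ (pt (z k) (φ k)) (pt (z m) (φ m)) ≤ 1 / 2) :
    ∃ τ : Equiv.Perm (Fin 10), Ord (z ∘ τ) (φ ∘ τ) := by
  refine ⟨Tuple.sort φ, fun k m hkm => ?_⟩
  have hm := Tuple.monotone_sort φ
  have h1 : (φ ∘ Tuple.sort φ) k ≤ (φ ∘ Tuple.sort φ) m := hm hkm.le
  simp only [Function.comp] at h1 ⊢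
  refine cos_le_iff (by linarith) (by linarith [h0 (Tuple.sort φ k), h2 (Tuple.sort φ m)]) ?_
  rw [← inner_pt_le_iff (hz _) (hz _)]
  exact hc _ _ (fun h => hkm.ne ((Tuple.sort φ).injective h))

/-- extension of a permutation of the band to all labels -/
noncomputable def extB (τ : Equiv.Perm (Fin 10)) : Equiv.Perm (Fin 12) :=
  Equiv.ofBijective (fun i => if i = 0 then 0 else if i = 1 then 1 else
    ix (τ ⟨i.val - 2, by omega⟩)) (by
    rw [← Finite.injective_iff_bijective]
    have hu0 : ∀ k, ix k ≠ 0 := by decide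
    have hu1 : ∀ k, ix k ≠ 1 := by decide
    intro i j hij
    by_cases i0 : i = 0 <;> by_cases j0 : j = 0 <;> by_cases i1 : i = 1 <;> by_cases j1 : j = 1 <;>
      simp only [i0, j0, i1, j1, if_true, if_false] at hij ⊢
    all_goals first
      | rfl
      | (exfalso; revert hij; decide)
      | (exfalso; exact hu0 _ hij)
      | (exfalso; exact hu0 _ hij.symm)
      | (exfalso; exact hu1 _ hij)
      | (exfalso; exact hu1 _ hij.symm)
      | skip
    have h3 := τ.injective (ix_inj.1 hij)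
    have h4 : i.val - 2 = j.val - 2 := by simpa using congrArg Fin.val h3
    have h5 : i.val ≠ 0 := fun h => i0 (Fin.ext h)
    have h6 : j.val ≠ 0 := fun h => j0 (Fin.ext h)
    have h7 : i.val ≠ 1 := fun h => i1 (Fin.ext h)
    have h8 : j.val ≠ 1 := fun h => j1 (Fin.ext h)
    exact Fin.ext (by omega))

lemma extB_ix (τ : Equiv.Perm (Fin 10)) (k : Fin 10) : extB τ (ix k) = ix (τ k) := by
  have e : ⇑(extB τ) = fun i : Fin 12 => if i = 0 then 0 else if i = 1 then 1 else
    ix (τ ⟨i.val - 2, by omega⟩) := rfl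
  have hu0 : ix k ≠ 0 := by revert k; decide
  have hu1 : ix k ≠ 1 := by revert k; decide
  rw [e]
  simp only [hu0, hu1, if_false]
  congr 2

lemma band_comp_ext (z φ : Fin 10 → ℝ) (τ : Equiv.Perm (Fin 10)) :
    band z φ ∘ extB τ = band (z ∘ τ) (φ ∘ τ) := by
  funext i
  rcases casesIx i with rfl | rfl | ⟨k, rfl⟩
  · rfl
  · rfl
  · simp only [Function.comp, extB_ix, band_ix]

/-- **Reduction to ten heights.** If `BandStmt` holds, every configuration with two antipodal points
is joined to the base point. -/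
theorem antipodal_joined (H : BandStmt) {y : Fin 12 → E3} (hy : y ∈ Conf) {a b : Fin 12}
    (hab : y b = -y a) : JoinedIn Conf y base := by
  have hne : a ≠ b := by
    rintro rfl
    have h1 := ((mem_Conf_iff y).1 hy).1 a
    have h2 : y a = 0 := by
      have : (2 : ℝ) • y a = 0 := by rw [two_smul]; nth_rewrite 1 [hab]; simp
      simpa using this
    rw [h2] at h1; simp at h1
  -- relabel
  obtain ⟨σ, hσ0, hσ1⟩ : ∃ σ : Equiv.Perm (Fin 12), σ 0 = a ∧ σ 1 = b := by
    refine ⟨Equiv.swap (Equiv.swap 0 a 1) b * Equiv.swap 0 a, ?_, ?_⟩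
    · rw [Equiv.Perm.mul_apply, Equiv.swap_apply_left]
      refine Equiv.swap_apply_of_ne_of_ne ?_ hne
      intro h
      have : Equiv.swap 0 a (Equiv.swap 0 a 1) = Equiv.swap 0 a a := by rw [← h]
      simp at this
    · rw [Equiv.Perm.mul_apply, Equiv.swap_apply_left]
  have hyσ := comp_mem hy σ
  have he : inner ℝ (y a) (y a) = 1 := ((mem_Conf_iff y).1 hy).1 _
  obtain ⟨α, β, hab'⟩ := exists_rot (y a) he
  have j1 := joined_rotZ hyσ α
  have j2 := joined_rotX j1.target_mem β
  have j := j1.trans j2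
  set z : Fin 12 → E3 := fun i => rotX β (rotZ α ((y ∘ σ) i)) with hz
  have hzm : z ∈ Conf := j.target_mem
  obtain ⟨hz1, hz2⟩ := (mem_Conf_iff z).1 hzm
  have z0 : z 0 = e3 := by simp only [hz, Function.comp, hσ0, hab']
  have z1 : z 1 = -e3 := by simp only [hz, Function.comp, hσ1, hab, rot_neg, hab']
  have hix0 : ∀ k, ix k ≠ 0 := by decide
  have hix1 : ∀ k, ix k ≠ 1 := by decide
  have hht : ∀ k, |inner ℝ e3 (z (ix k))| ≤ 1 / 2 := by
    intro k
    rw [abs_le]
    have h1 := hz2 0 (ix k) (fun h => hix0 k h.symm)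
    have h2 := hz2 1 (ix k) (fun h => hix1 k h.symm)
    rw [z0] at h1
    rw [z1, inner_neg_left] at h2
    constructor <;> linarith
  choose φ hφ0 hφ2 hφ using fun k => exists_pt (z (ix k)) (hz1 _) (inner ℝ e3 (z (ix k))) rfl (by
    have := abs_le.1 (hht k); nlinarith)
  set h : Fin 10 → ℝ := fun k => inner ℝ e3 (z (ix k)) with hh
  have ez : z = band h φ := by
    funext i
    rcases casesIx i with rfl | rfl | ⟨k, rfl⟩
    · rw [z0]; rfl
    · rw [z1]; rfl
    · rw [band_ix]; exact hφ k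
  obtain ⟨τ, hτ⟩ := exists_sort10 hht hφ0 hφ2 (by
    intro k m hkm
    have := hz2 (ix k) (ix m) (fun h => hkm (ix_inj.1 h))
    rwa [hφ k, hφ m] at this)
  have j3 : JoinedIn Conf (z ∘ extB τ) base := by
    rw [ez, band_comp_ext]
    exact band_to_base H (fun i => hht (τ i)) hτ
  have j4 : JoinedIn Conf z base := by
    have h := comp_joined j3 (extB τ)⁻¹
    have e : (z ∘ ⇑(extB τ)) ∘ ⇑(extB τ)⁻¹ = z := by funext i; simp
    rw [e] at h
    exact h.trans (base_comp_joined _)
  have j5 : JoinedIn Conf (y ∘ σ) base := j.trans j4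
  have h := comp_joined j5 σ⁻¹
  have e' : (y ∘ ⇑σ) ∘ ⇑σ⁻¹ = y := by funext i; simp
  rw [e'] at h
  exact h.trans (base_comp_joined _)

/-- **S10649 from the two parts**: every configuration can be moved to one with an antipodal pair,
and the band statement. -/
theorem isPathConnected_of_parts (H : BandStmt)
    (A : ∀ x ∈ Conf, ∃ y, (∃ a b, y b = -y a) ∧ JoinedIn Conf x y) : IsPathConnected Conf := by
  refine ⟨base, base_mem, fun {x} hx => ?_⟩
  obtain ⟨y, ⟨a, b, hab⟩, hxy⟩ := A x hx
  exact (hxy.trans (antipodal_joined H hxy.target_mem hab)).symm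

end Pool.Agent.Helper66.Kiss
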