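import Mathlib

set_option autoImplicit false

/-! # Twelve kissing spheres: basic tools (configuration space, relabelling, rotations) -/

namespace Pool.Agent.Helper66.Kiss

open Real Set

abbrev E3 := EuclideanSpace ℝ (Fin 3)

/-- The configuration space of S10649. -/
def Conf : Set (Fin 12 → E3) :=
  {p | (∀ i, ‖p i‖ = 1) ∧ ∀ i j, i ≠ j → Real.pi / 3 ≤ InnerProductGeometry.angle (p i) (p j)}

lemma mem_Conf_iff (p : Fin 12 → E3) :
    p ∈ Conf ↔ (∀ i, inner ℝ (p i) (p i) = 1) ∧ ∀ i j, i ≠ j → inner ℝ (p i) (p j) ≤ 1 / 2 := by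
  have key : ∀ u v : E3, ‖u‖ = 1 → ‖v‖ = 1 →
      (Real.pi / 3 ≤ InnerProductGeometry.angle u v ↔ inner ℝ u v ≤ 1 / 2) := by
    intro u v hu hv
    unfold InnerProductGeometry.angle
    rw [hu, hv, one_mul, div_one]
    have h1 : inner ℝ u v ≤ 1 := by
      have := real_inner_le_norm u v
      rwa [hu, hv, one_mul] at this
    have h2 : -1 ≤ inner ℝ u v := by
      have := abs_le.1 (abs_real_inner_le_norm u v)
      rw [hu, hv, one_mul] at this
      exact this.1
    constructor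
    · intro h
      have := Real.cos_le_cos_of_nonneg_of_le_pi (by positivity) (Real.arccos_le_pi _) h
      rwa [Real.cos_arccos h2 h1, Real.cos_pi_div_three] at this
    · intro h
      have h3 : Real.pi / 3 = Real.arccos (1 / 2) := by
        rw [← Real.cos_pi_div_three, Real.arccos_cos (by positivity) (by linarith [Real.pi_pos])]
      rw [h3]
      exact Real.arccos_le_arccos h
  have hn : ∀ u : E3, ‖u‖ = 1 ↔ inner ℝ u u = 1 := by
    intro u
    rw [real_inner_self_eq_norm_sq]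
    constructor
    · intro h; rw [h]; norm_num
    · intro h
      nlinarith [norm_nonneg u]
  constructor
  · rintro ⟨h1, h2⟩
    exact ⟨fun i => (hn _).1 (h1 i), fun i j hij => (key _ _ (h1 i) (h1 j)).1 (h2 i j hij)⟩
  · rintro ⟨h1, h2⟩
    have h1' : ∀ i, ‖p i‖ = 1 := fun i => (hn _).2 (h1 i)
    exact ⟨h1', fun i j hij => (key _ _ (h1' i) (h1' j)).2 (h2 i j hij)⟩

/-- relabelling -/
lemma comp_mem {p : Fin 12 → E3} (hp : p ∈ Conf) (σ : Equiv.Perm (Fin 12)) : p ∘ σ ∈ Conf :=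
  ⟨fun _ => hp.1 _, fun _ _ hij => hp.2 _ _ (fun h => hij (σ.injective h))⟩

lemma comp_joined {p q : Fin 12 → E3} (h : JoinedIn Conf p q) (σ : Equiv.Perm (Fin 12)) :
    JoinedIn Conf (p ∘ σ) (q ∘ σ) := by
  have hc : Continuous (fun p : Fin 12 → E3 => p ∘ σ) :=
    continuous_pi fun i => continuous_apply (σ i)
  exact (h.map hc).mono (by rintro _ ⟨x, hx, rfl⟩; exact comp_mem hx σ)

/-- Path from a continuous function on `[0,1]`. -/
lemma joined_of_fun {f : ℝ → Fin 12 → E3} (hf : Continuous f)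
    (h : ∀ t ∈ Icc (0 : ℝ) 1, f t ∈ Conf) : JoinedIn Conf (f 0) (f 1) :=
  JoinedIn.ofLine (f := f) hf.continuousOn rfl rfl (by rintro _ ⟨t, ht, rfl⟩; exact h t ht)

/-- Path from a continuous function on a segment `[a,b]` (in any order). -/
lemma joined_of_seg {f : ℝ → Fin 12 → E3} (a b : ℝ) (hf : ContinuousOn f (uIcc a b))
    (h : ∀ t ∈ uIcc a b, f t ∈ Conf) : JoinedIn Conf (f a) (f b) := by
  have hm : ∀ t ∈ Icc (0 : ℝ) 1, a + t * (b - a) ∈ uIcc a b := by
    intro t ht
    rw [mem_uIcc]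
    rcases le_total a b with hab | hab
    · left; constructor
      · nlinarith [ht.1, ht.2]
      · nlinarith [ht.1, ht.2]
    · right; constructor
      · nlinarith [ht.1, ht.2]
      · nlinarith [ht.1, ht.2]
  refine JoinedIn.ofLine (f := fun t => f (a + t * (b - a))) ?_ (by simp) (by simp) ?_
  · exact hf.comp (by fun_prop) hm
  · rintro _ ⟨t, ht, rfl⟩
    exact h _ (hm t ht)

/-! ## inner products in coordinates -/

lemma inner_eq (u v : E3) : inner ℝ u v = u 0 * v 0 + u 1 * v 1 + u 2 * v 2 := by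
  rw [EuclideanSpace.inner_eq_star_dotProduct]
  simp [dotProduct, Fin.sum_univ_three]
  ring

/-! ## rotations -/

/-- rotation about the third axis -/
noncomputable def rotZ (t : ℝ) (v : E3) : E3 :=
  !₂[cos t * v 0 - sin t * v 1, sin t * v 0 + cos t * v 1, v 2]

/-- rotation about the first axis -/
noncomputable def rotX (t : ℝ) (v : E3) : E3 :=
  !₂[v 0, cos t * v 1 - sin t * v 2, sin t * v 1 + cos t * v 2]

lemma inner_rotZ (t : ℝ) (u v : E3) : inner ℝ (rotZ t u) (rotZ t v) = inner ℝ u v := by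
  rw [inner_eq, inner_eq]
  simp [rotZ]
  linear_combination (u 0 * v 0 + u 1 * v 1) * (sin_sq_add_cos_sq t)

lemma inner_rotX (t : ℝ) (u v : E3) : inner ℝ (rotX t u) (rotX t v) = inner ℝ u v := by
  rw [inner_eq, inner_eq]
  simp [rotX]
  linear_combination (u 1 * v 1 + u 2 * v 2) * (sin_sq_add_cos_sq t)

lemma rotZ_zero (v : E3) : rotZ 0 v = v := by
  ext i; fin_cases i <;> simp [rotZ]

lemma rotX_zero (v : E3) : rotX 0 v = v := by
  ext i; fin_cases i <;> simp [rotX]

lemma continuous_rotZ (v : E3) : Continuous (fun t => rotZ t v) := by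
  unfold rotZ; fun_prop

lemma continuous_rotX (v : E3) : Continuous (fun t => rotX t v) := by
  unfold rotX; fun_prop

lemma joined_rotZ {p : Fin 12 → E3} (hp : p ∈ Conf) (a : ℝ) :
    JoinedIn Conf p (fun i => rotZ a (p i)) := by
  have h := joined_of_fun (f := fun t i => rotZ (t * a) (p i))
    (continuous_pi fun i => (continuous_rotZ (p i)).comp (by fun_prop)) (by
      intro t _
      rw [mem_Conf_iff] at hp ⊢
      exact ⟨fun i => by rw [inner_rotZ]; exact hp.1 i, fun i j hij => by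
        rw [inner_rotZ]; exact hp.2 i j hij⟩)
  simpa [rotZ_zero] using h

lemma joined_rotX {p : Fin 12 → E3} (hp : p ∈ Conf) (a : ℝ) :
    JoinedIn Conf p (fun i => rotX a (p i)) := by
  have h := joined_of_fun (f := fun t i => rotX (t * a) (p i))
    (continuous_pi fun i => (continuous_rotX (p i)).comp (by fun_prop)) (by
      intro t _
      rw [mem_Conf_iff] at hp ⊢
      exact ⟨fun i => by rw [inner_rotX]; exact hp.1 i, fun i j hij => by
        rw [inner_rotX]; exact hp.2 i j hij⟩)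
  simpa [rotX_zero] using h

/-- every point of the unit circle is `(cos t, sin t)`, `0 ≤ t < 2π` -/
lemma exists_angle (a b : ℝ) (h : a ^ 2 + b ^ 2 = 1) :
    ∃ t, 0 ≤ t ∧ t < 2 * π ∧ cos t = a ∧ sin t = b := by
  have ha : -1 ≤ a ∧ a ≤ 1 := by constructor <;> nlinarith [sq_nonneg b]
  have hs : sin (arccos a) = |b| := by
    rw [Real.sin_arccos, show 1 - a ^ 2 = b ^ 2 by linarith, Real.sqrt_sq_eq_abs]
  rcases le_or_gt 0 b with hb | hb
  · refine ⟨arccos a, Real.arccos_nonneg a, ?_, Real.cos_arccos ha.1 ha.2, ?_⟩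
    · linarith [Real.arccos_le_pi a, Real.pi_pos]
    · rw [hs, abs_of_nonneg hb]
  · refine ⟨2 * π - arccos a, ?_, ?_, ?_, ?_⟩
    · linarith [Real.arccos_le_pi a, Real.pi_pos]
    · have : 0 < arccos a := by
        rw [Real.arccos_pos]
        rcases lt_or_eq_of_le ha.2 with h1 | h1
        · exact h1
        · subst h1; nlinarith
      linarith
    · rw [Real.cos_two_pi_sub, Real.cos_arccos ha.1 ha.2]
    · rw [Real.sin_two_pi_sub, hs, abs_of_neg hb]; ring

/-- the north pole -/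
noncomputable def e3 : E3 := !₂[0, 0, 1]

/-- Every unit vector is brought to the north pole by rotations `rotX b ∘ rotZ a`. -/
lemma exists_rot (e : E3) (he : inner ℝ e e = 1) : ∃ a b : ℝ, rotX b (rotZ a e) = e3 := by
  rw [inner_eq] at he
  -- choose a with first coordinate zero
  obtain ⟨a, ha⟩ : ∃ a, cos a * e 0 - sin a * e 1 = 0 := by
    rcases eq_or_ne (e 0 ^ 2 + e 1 ^ 2) 0 with h | h
    · have h0 : e 0 = 0 := by nlinarith [sq_nonneg (e 0), sq_nonneg (e 1)]
      have h1 : e 1 = 0 := by nlinarith [sq_nonneg (e 0), sq_nonneg (e 1)]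
      exact ⟨0, by simp [h0]⟩
    · have hpos : 0 < e 0 ^ 2 + e 1 ^ 2 := lt_of_le_of_ne (by positivity) (Ne.symm h)
      set r := √(e 0 ^ 2 + e 1 ^ 2) with hr
      have hr0 : 0 < r := Real.sqrt_pos.2 hpos
      have hr2 : r ^ 2 = e 0 ^ 2 + e 1 ^ 2 := Real.sq_sqrt hpos.le
      obtain ⟨t, _, _, h1, h2⟩ := exists_angle (e 1 / r) (e 0 / r) (by
        field_simp
        linarith)
      refine ⟨t, ?_⟩
      rw [h1, h2]; ring
  set v := rotZ a e with hv
  have hv0 : v 0 = 0 := by simp [hv, rotZ, ha]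
  have hvv : inner ℝ v v = 1 := by rw [hv, inner_rotZ, inner_eq]; exact he
  rw [inner_eq, hv0] at hvv
  obtain ⟨b, _, _, h1, h2⟩ := exists_angle (v 2) (v 1) (by linarith)
  refine ⟨a, b, ?_⟩
  ext i
  fin_cases i
  · simp [rotX, e3]; exact hv0
  · simp [rotX, e3, h1, h2]; ring
  · simp [rotX, e3, h1, h2]; linarith

/-- points on the sphere with given height and longitude -/
noncomputable def pt (s φ : ℝ) : E3 := !₂[√(1 - s ^ 2) * cos φ, √(1 - s ^ 2) * sin φ, s]

lemma inner_pt (s s' φ φ' : ℝ) :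
    inner ℝ (pt s φ) (pt s' φ') = √(1 - s ^ 2) * √(1 - s' ^ 2) * cos (φ - φ') + s * s' := by
  rw [inner_eq, cos_sub]
  simp [pt]
  ring

lemma inner_e3_pt (s φ : ℝ) : inner ℝ e3 (pt s φ) = s := by
  rw [inner_eq]; simp [pt, e3]

lemma inner_pt_e3 (s φ : ℝ) : inner ℝ (pt s φ) e3 = s := by
  rw [inner_eq]; simp [pt, e3]

lemma inner_e3_e3 : inner ℝ e3 e3 = 1 := by
  rw [inner_eq]; simp [e3]

lemma inner_pt_self (s φ : ℝ) (hs : s ^ 2 ≤ 1) : inner ℝ (pt s φ) (pt s φ) = 1 := by
  rw [inner_pt, sub_self, cos_zero, Real.mul_self_sqrt (by linarith)]; ring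

lemma exists_pt (v : E3) (hv : inner ℝ v v = 1) (s : ℝ) (hs : inner ℝ e3 v = s) (h1 : s ^ 2 < 1) :
    ∃ φ, 0 ≤ φ ∧ φ < 2 * π ∧ v = pt s φ := by
  rw [inner_eq] at hv hs
  simp [e3] at hs
  have hr : 0 < √(1 - s ^ 2) := Real.sqrt_pos.2 (by linarith)
  have hr2 : √(1 - s ^ 2) ^ 2 = 1 - s ^ 2 := Real.sq_sqrt (by linarith)
  obtain ⟨t, h0, h2π, hc, hsn⟩ := exists_angle (v 0 / √(1 - s ^ 2)) (v 1 / √(1 - s ^ 2)) (by
    rw [div_pow, div_pow, ← add_div, hr2, div_eq_one_iff_eq (by linarith)]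
    rw [hs] at hv; linarith)
  refine ⟨t, h0, h2π, ?_⟩
  ext i
  fin_cases i
  · simp [pt, hc]; field_simp
  · simp [pt, hsn]; field_simp
  · simp [pt, hs]

lemma pt_add_two_pi (s φ : ℝ) : pt s (φ + 2 * π) = pt s φ := by
  simp [pt, cos_add_two_pi, sin_add_two_pi]

lemma continuous_pt {X : Type*} [TopologicalSpace X] {s φ : X → ℝ} (hs : Continuous s)
    (hφ : Continuous φ) : Continuous fun x => pt (s x) (φ x) := by
  unfold pt; fun_prop

end Pool.Agent.Helper66.Kiss
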