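import Pool.Agent.Helper66.Kiss.Merc

set_option autoImplicit false

/-! # Chord inequalities, first part: numerics, pairs of the same type, mixed pairs -/

namespace Pool.Agent.Helper66.Kiss

open Real Set Filter Topology

/-- the fifth of a full turn -/
noncomputable def CC : ℝ := 2 * π / 5

lemma cos_CC : cos CC = (√5 - 1) / 4 := by
  have h1 : CC = 2 * (π / 5) := by unfold CC; ring
  rw [h1, Real.cos_two_mul, Real.cos_pi_div_five]
  have h5 : √5 ^ 2 = (5 : ℝ) := Real.sq_sqrt (by norm_num)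
  nlinarith

lemma sqrt5_bd : (2.236 : ℝ) < √5 ∧ √5 < 2.23607 := by
  constructor
  · apply Real.lt_sqrt_of_sq_lt; norm_num
  · rw [Real.sqrt_lt' (by norm_num)]; norm_num

lemma cos_CC_bd : 0.309 ≤ cos CC ∧ cos CC ≤ 0.30902 := by
  rw [cos_CC]
  have := sqrt5_bd
  constructor <;> norm_num at this ⊢ <;> linarith [this.1, this.2]

lemma CC_bd : 1.2566 < CC ∧ CC < 1.25664 := by
  unfold CC
  have h1 := Real.pi_gt_d6
  have h2 := Real.pi_lt_d6
  constructor <;> norm_num at h1 h2 ⊢ <;> linarith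

lemma sin_CC_bd : 0.951 ≤ sin CC ∧ sin CC ≤ 0.9511 := by
  have h := Real.sin_sq_add_cos_sq CC
  have hc := cos_CC_bd
  have hs : 0 ≤ sin CC := Real.sin_nonneg_of_nonneg_of_le_pi (by linarith [CC_bd.1])
    (by linarith [CC_bd.2, Real.pi_gt_three])
  have h1 : 0.309 ^ 2 ≤ cos CC ^ 2 := by
    apply pow_le_pow_left₀ (by norm_num) hc.1
  have h2 : cos CC ^ 2 ≤ 0.30902 ^ 2 := by
    apply pow_le_pow_left₀ (by linarith [hc.1]) hc.2
  constructor
  · by_contra hcon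
    push Not at hcon
    nlinarith
  · by_contra hcon
    push Not at hcon
    nlinarith

/-- the lower bound for the width of a pair of the same type -/
lemma wlow {q : ℝ} (h : q ≤ 0.342) : CC - 0.035 ≤ arccos q := by
  have h1 : 0.342 ≤ cos (CC - 0.035) := by
    rw [Real.cos_sub]
    have c1 := cos_CC_bd.1
    have s1 := sin_CC_bd.1
    have c2 : 1 - 0.035 ^ 2 / 2 ≤ cos (0.035 : ℝ) := Real.one_sub_sq_div_two_le_cos
    have s2 : (0.035 : ℝ) - 0.035 ^ 3 / 6 < sin 0.035 := Real.sin_gt_sub_cube (by norm_num)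
    have e1 : 0.309 * (1 - 0.035 ^ 2 / 2) ≤ cos CC * cos (0.035 : ℝ) :=
      mul_le_mul c1 c2 (by norm_num) (by linarith)
    have e2 : 0.951 * ((0.035 : ℝ) - 0.035 ^ 3 / 6) ≤ sin CC * sin 0.035 :=
      mul_le_mul s1 s2.le (by norm_num) (by linarith)
    norm_num at e1 e2 ⊢
    linarith
  have h2 := Real.arccos_le_arccos (h.trans h1)
  rwa [Real.arccos_cos (by linarith [CC_bd.1]) (by linarith [CC_bd.2, Real.pi_gt_three])] at h2

/-! ## pairs of the same type -/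

lemma Qs_comm (a b : ℝ) : Qs a b = Qs b a := by unfold Qs; ring

lemma Qs_diff {a a' b : ℝ} (ha : 0 < a) (ha' : 0 < a') (hb : 0 < b) :
    Qs a b - Qs a' b = (a' - a) * ((9 * b ^ 2 - 1) / (24 * b) / (a * a') - 3 * (1 - b ^ 2) / (8 * b)) := by
  unfold Qs
  field_simp
  ring

lemma beta_bd {a a' b : ℝ} (ha : 0.989 ≤ a ∧ a ≤ 1.011) (ha' : 0.989 ≤ a' ∧ a' ≤ 1.011)
    (hb : 0.989 ≤ b ∧ b ≤ 1.011) :
    0 ≤ (9 * b ^ 2 - 1) / (24 * b) / (a * a') - 3 * (1 - b ^ 2) / (8 * b) ∧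
    (9 * b ^ 2 - 1) / (24 * b) / (a * a') - 3 * (1 - b ^ 2) / (8 * b) ≤ 0.36 := by
  obtain ⟨a1, a2⟩ := ha
  obtain ⟨b1, b2⟩ := ha'
  obtain ⟨c1, c2⟩ := hb
  have hb0 : 0 < b := by linarith
  have haa : 0 < a * a' := by apply mul_pos <;> linarith
  have h1 : 0.978 ≤ a * a' := by nlinarith
  have h2 : a * a' ≤ 1.0222 := by nlinarith
  have e1 : (9 * b ^ 2 - 1) / (24 * b) ≤ 0.338 := by
    rw [div_le_iff₀ (by positivity)]; nlinarith
  have e2 : 0.328 ≤ (9 * b ^ 2 - 1) / (24 * b) := by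
    rw [le_div_iff₀ (by positivity)]; nlinarith
  have e3 : 3 * (1 - b ^ 2) / (8 * b) ≤ 0.0084 := by
    rw [div_le_iff₀ (by positivity)]; nlinarith
  have e4 : -0.0084 ≤ 3 * (1 - b ^ 2) / (8 * b) := by
    rw [le_div_iff₀ (by positivity)]; nlinarith
  set p := (9 * b ^ 2 - 1) / (24 * b) with hp
  have e5 : p / (a * a') ≤ 0.3457 := by
    rw [div_le_iff₀ haa]; nlinarith
  have e6 : 0.31 ≤ p / (a * a') := by
    rw [le_div_iff₀ haa]; nlinarith
  constructor <;> linarith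

lemma Qs_step {a a' b e : ℝ} (ha : 0.989 ≤ a ∧ a ≤ 1.011) (ha' : 0.989 ≤ a' ∧ a' ≤ 1.011)
    (hb : 0.989 ≤ b ∧ b ≤ 1.011) (he : 0 ≤ e) (h : a' - a ≤ e) : Qs a b - Qs a' b ≤ 0.36 * e := by
  rw [Qs_diff (by linarith [ha.1]) (by linarith [ha'.1]) (by linarith [hb.1])]
  obtain ⟨h1, h2⟩ := beta_bd ha ha' hb
  rcases le_total 0 (a' - a) with h0 | h0
  · nlinarith
  · nlinarith

lemma Qs_one : Qs 1 1 = 1 / 3 := by unfold Qs; norm_num

lemma Qs_le {a b : ℝ} (ha : 0.9896 ≤ a ∧ a ≤ 1.011) (hb : 0.9896 ≤ b ∧ b ≤ 1.011) :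
    Qs a b ≤ 0.342 := by
  have h1 := Qs_step (a := a) (a' := 1) (b := b) (e := 0.0104) ⟨by linarith [ha.1], ha.2⟩
    (by norm_num) ⟨by linarith [hb.1], hb.2⟩ (by norm_num) (by linarith [ha.1])
  have h2 := Qs_step (a := b) (a' := 1) (b := 1) (e := 0.0104) ⟨by linarith [hb.1], hb.2⟩
    (by norm_num) (by norm_num) (by norm_num) (by linarith [hb.1])
  rw [Qs_comm 1 b] at h1
  rw [Qs_one] at h2
  norm_num at h1 h2 ⊢
  linarith

lemma Qs_ge {a b e : ℝ} (ha : 0.989 ≤ a ∧ a ≤ 1.011) (hb : 0.989 ≤ b ∧ b ≤ 1.011) (he : 0 ≤ e)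
    (h1 : a ≤ 1 + e) (h2 : b ≤ 1 + e) : 1 / 3 - 0.72 * e ≤ Qs a b := by
  have h3 := Qs_step (a := 1) (a' := a) (b := b) (e := e) (by norm_num) ha hb he (by linarith)
  have h4 := Qs_step (a := 1) (a' := b) (b := 1) (e := e) (by norm_num) hb (by norm_num) he
    (by linarith)
  rw [Qs_comm 1 b] at h3
  rw [Qs_one] at h4
  linarith

/-- **Chord inequality for a pair of the same type** -/
lemma same_chord {a a' b b' e σ : ℝ} (ha : 0.9896 ≤ a ∧ a ≤ 1.011) (ha' : 0.989 ≤ a' ∧ a' ≤ 1.011)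
    (hb : 0.9896 ≤ b ∧ b ≤ 1.011) (hb' : 0.989 ≤ b' ∧ b' ≤ 1.011) (hσ : 0 ≤ σ ∧ σ ≤ 1)
    (he : 0 ≤ e) (h1 : a' - a ≤ (1 - σ) * e) (h2 : b' - b ≤ (1 - σ) * e)
    (hq : 0.72 * e ≤ 0.985 * (Qs a b - 0.30902)) :
    arccos (Qs a' b') ≤ σ * arccos (Qs a b) + (1 - σ) * CC := by
  have hpi := Real.pi_gt_three
  have hC := CC_bd
  have hCc := cos_CC_bd
  have hCs := sin_CC_bd
  have ha1 : 0.989 ≤ a ∧ a ≤ 1.011 := ⟨by linarith [ha.1], ha.2⟩
  have hb1 : 0.989 ≤ b ∧ b ≤ 1.011 := ⟨by linarith [hb.1], hb.2⟩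
  have hd0 : 0 ≤ 1 - σ := by linarith [hσ.2]
  have hd : Qs a b - Qs a' b' ≤ 0.72 * ((1 - σ) * e) := by
    have s1 := Qs_step (b := b) ha1 ha' hb1 (mul_nonneg hd0 he) h1
    have s2 := Qs_step (b := a') hb1 hb' ha' (mul_nonneg hd0 he) h2
    rw [Qs_comm b a', Qs_comm b' a'] at s2
    linarith
  have hQ := Qs_le ha hb
  have hQ0 : 0.30902 ≤ Qs a b := by nlinarith
  set D := arccos (Qs a b) with hD
  have hcos : cos D = Qs a b := Real.cos_arccos (by linarith) (by linarith)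
  have hD0 : 0 ≤ D := Real.arccos_nonneg _
  have hDC : D ≤ CC := by
    have := Real.arccos_le_arccos (hCc.2.trans hQ0)
    rwa [Real.arccos_cos (by linarith [hC.1]) (by linarith [hC.2])] at this
  set θ := σ * D + (1 - σ) * CC with hθ
  have hθ0 : 0 ≤ θ := by
    have := mul_nonneg hσ.1 hD0
    have := mul_nonneg hd0 (by linarith [hC.1] : (0 : ℝ) ≤ CC)
    linarith
  have hθC : θ ≤ CC := by
    have := mul_le_mul_of_nonneg_left hDC hσ.1
    linarith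
  have ht := cos_tangent (θ := θ) (ω := D) hθ0 (by linarith [hC.2]) hD0 (by linarith [hC.2])
  have ht2 := cos_tangent (θ := D) (ω := CC) hD0 (by linarith [hC.2]) (by linarith [hC.1])
    (by linarith [hC.2])
  have hsD : 0.9394 ≤ sin D := by
    have h := Real.sin_sq_add_cos_sq D
    have hs : 0 ≤ sin D := Real.sin_nonneg_of_nonneg_of_le_pi hD0 (Real.arccos_le_pi _)
    rw [hcos] at h
    have h3 : Qs a b ^ 2 ≤ 0.342 ^ 2 := pow_le_pow_left₀ (by linarith) hQ 2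
    by_contra hcon
    push Not at hcon
    nlinarith
  have h5 : 0.985 * (Qs a b - 0.30902) ≤ (CC - D) * sin D := by
    have e1 : Qs a b - cos CC ≤ (CC - D) * sin CC := by rw [← hcos]; linarith
    have e2 : (CC - D) * (0.985 * sin CC) ≤ (CC - D) * sin D := by
      apply mul_le_mul_of_nonneg_left _ (by linarith)
      have := hCs.2
      linarith
    nlinarith
  have h6 : cos θ ≤ Qs a' b' := by
    have e1 : θ - D = (1 - σ) * (CC - D) := by rw [hθ]; ring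
    rw [e1, hcos] at ht
    have e2 := mul_le_mul_of_nonneg_left (hq.trans h5) hd0
    nlinarith
  have h7 := Real.arccos_le_arccos h6
  rwa [Real.arccos_cos hθ0 (by linarith [hC.2])] at h7

/-! ## mixed pairs -/

/-- `(1 - a^2)/(2a)` at `a = 1 - x` -/
noncomputable def hh (x : ℝ) : ℝ := x * (2 - x) / (2 * (1 - x))

lemma Qm_eq {x y : ℝ} (hx : x < 1) (hy : y < 1) :
    1 - Qm (1 - x) (1 - y) = x + y - x * y - hh x * hh y / 2 := by
  have h1 : 0 < 1 - x := by linarith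
  have h2 : 0 < 1 - y := by linarith
  unfold Qm hh
  field_simp
  ring

lemma hh_scale {x t : ℝ} (hx : 0 ≤ x ∧ x ≤ 0.02) (ht : 0 ≤ t ∧ t ≤ 1) :
    t ^ 2 * hh x ≤ hh (t * x) ∧ hh (t * x) ≤ t * hh x := by
  have h1 : 0 < 1 - x := by linarith [hx.2]
  have htx : t * x ≤ x := by nlinarith [hx.1, ht.2]
  have htx0 : 0 ≤ t * x := mul_nonneg ht.1 hx.1
  have h2 : 0 < 1 - t * x := by linarith
  unfold hh
  constructor
  · rw [← mul_div_assoc, div_le_div_iff₀ (by positivity) (by positivity)]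
    have key : 0 ≤ (2 - t * x) * (1 - x) - t * (2 - x) * (1 - t * x) := by
      have e : (2 - t * x) * (1 - x) - t * (2 - x) * (1 - t * x) =
          (1 - t) * (2 - 2 * x * (1 + t) + t * x * x) := by ring
      rw [e]
      apply mul_nonneg (by linarith [ht.2])
      nlinarith [mul_nonneg htx0 hx.1]
    nlinarith [mul_nonneg htx0 key]
  · rw [← mul_div_assoc, div_le_div_iff₀ (by positivity) (by positivity)]
    have key : 0 ≤ (2 - x) * (1 - t * x) - (2 - t * x) * (1 - x) := by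
      have e : (2 - x) * (1 - t * x) - (2 - t * x) * (1 - x) = x * (1 - t) := by ring
      rw [e]; exact mul_nonneg hx.1 (by linarith [ht.2])
    nlinarith [mul_nonneg htx0 key]

lemma hh_bd {x : ℝ} (hx : 0 ≤ x ∧ x ≤ 0.02) : x ≤ hh x ∧ hh x ≤ 1.02 * x := by
  have h1 : 0 < 1 - x := by linarith [hx.2]
  unfold hh
  constructor
  · rw [le_div_iff₀ (by positivity)]; nlinarith [hx.1, hx.2]
  · rw [div_le_iff₀ (by positivity)]; nlinarith [hx.1, hx.2]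

lemma ul_high {x y u : ℝ} (hx : 0 ≤ x ∧ x ≤ 0.02) (hy : 0 ≤ y ∧ y ≤ 0.02) (hu : 0 ≤ u ∧ u ≤ 1) :
    1 - Qm (1 - u ^ 2 * x) (1 - u * y) ≤ u * (1 - Qm (1 - x) (1 - y)) := by
  have hu2 : 0 ≤ u ^ 2 ∧ u ^ 2 ≤ 1 := ⟨by positivity, by nlinarith [hu.1, hu.2]⟩
  rw [Qm_eq (by nlinarith [hx.1, hx.2, hu2.1, hu2.2]) (by nlinarith [hy.1, hy.2, hu.1, hu.2]),
    Qm_eq (by linarith [hx.2]) (by linarith [hy.2])]
  have a1 := (hh_scale hx hu2).1
  have a2 := (hh_scale hy hu).1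
  obtain ⟨b1, b2⟩ := hh_bd hx
  obtain ⟨b3, b4⟩ := hh_bd hy
  have hX0 : 0 ≤ hh x := by linarith [hx.1]
  have hY0 : 0 ≤ hh y := by linarith [hy.1]
  have a3 : u ^ 6 * (hh x * hh y) ≤ hh (u ^ 2 * x) * hh (u * y) := by
    have := mul_le_mul a1 a2 (by positivity) (le_trans (by positivity) a1)
    calc u ^ 6 * (hh x * hh y) = (u ^ 2) ^ 2 * hh x * (u ^ 2 * hh y) := by ring
      _ ≤ _ := this
  have a4 : hh x * hh y ≤ 0.021 * x := by
    have := mul_le_mul b2 b4 hY0 (by linarith [hx.1] : (0 : ℝ) ≤ 1.02 * x)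
    nlinarith [hx.1, hy.1, hy.2, mul_nonneg hx.1 hy.1, mul_nonneg hx.1 (by linarith [hy.2] : (0 : ℝ) ≤ 0.02 - y)]
  set P := hh x * hh y with hP
  have hP0 : 0 ≤ P := mul_nonneg hX0 hY0
  have hxy : x * y ≤ 0.02 * x := by nlinarith [hx.1, hy.2]
  have hxy0 : 0 ≤ x * y := mul_nonneg hx.1 hy.1
  -- the difference
  have hu5 : 1 + u + u ^ 2 + u ^ 3 + u ^ 4 ≤ 5 := by
    have h3 : u ^ 3 ≤ 1 := pow_le_one₀ hu.1 hu.2
    have h4 : u ^ 4 ≤ 1 := pow_le_one₀ hu.1 hu.2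
    linarith [hu.2, hu2.2]
  have key : 0 ≤ x - x * y * (1 + u) - P * (1 + u + u ^ 2 + u ^ 3 + u ^ 4) / 2 := by
    have c1 : x * y * (1 + u) ≤ 0.02 * x * 2 := mul_le_mul hxy (by linarith [hu.2]) (by linarith [hu.1]) (by linarith [hx.1])
    have c2 : P * (1 + u + u ^ 2 + u ^ 3 + u ^ 4) ≤ 0.021 * x * 5 :=
      mul_le_mul a4 hu5 (by linarith [hu.1, hu2.1, pow_nonneg hu.1 3, pow_nonneg hu.1 4]) (by linarith [hx.1])
    linarith [hx.1]
  have e : u * (x + y - x * y - P / 2) - (u ^ 2 * x + u * y - u ^ 2 * x * (u * y) - u ^ 6 * P / 2) =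
      u * (1 - u) * (x - x * y * (1 + u) - P * (1 + u + u ^ 2 + u ^ 3 + u ^ 4) / 2) := by ring
  have h9 := mul_nonneg (mul_nonneg hu.1 (by linarith [hu.2] : (0 : ℝ) ≤ 1 - u)) key
  rw [← e] at h9
  linarith

/-- `-hh (-v)` -/
noncomputable def gd (v : ℝ) : ℝ := v * (2 + v) / (2 * (1 + v))

lemma hh_neg (v : ℝ) : hh (-v) = - gd v := by unfold hh gd; ring_nf

lemma gd_bd {v : ℝ} (hv : 0 ≤ v ∧ v ≤ 0.02) : 0.99 * v ≤ gd v ∧ gd v ≤ v := by
  have h1 : 0 < 1 + v := by linarith [hv.1]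
  unfold gd
  constructor
  · rw [le_div_iff₀ (by positivity)]; nlinarith [hv.1, hv.2]
  · rw [div_le_iff₀ (by positivity)]; nlinarith [hv.1, hv.2]

lemma gd_scale {v w : ℝ} (hv : 0 ≤ v ∧ v ≤ 0.02) (hw : 0 ≤ w ∧ w ≤ 1) :
    gd (w * v) ≤ w * gd v + w * v ^ 2 * (1 - w) / 2 := by
  have h1 : 0 < 1 + v := by linarith [hv.1]
  have hwv : 0 ≤ w * v := mul_nonneg hw.1 hv.1
  have h2 : 0 < 1 + w * v := by linarith
  have e : w * gd v + w * v ^ 2 * (1 - w) / 2 - gd (w * v) =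
      w * v ^ 2 * (1 - w) / 2 * (1 - 1 / ((1 + v) * (1 + w * v))) := by
    unfold gd
    field_simp
    ring
  have h3 : 1 / ((1 + v) * (1 + w * v)) ≤ 1 := by
    rw [div_le_one (by positivity)]
    nlinarith [hv.1, mul_nonneg hv.1 hwv]
  have h4 : 0 ≤ w * v ^ 2 * (1 - w) / 2 * (1 - 1 / ((1 + v) * (1 + w * v))) := by
    apply mul_nonneg _ (by linarith)
    have := mul_nonneg (mul_nonneg hw.1 (sq_nonneg v)) (by linarith [hw.2] : (0 : ℝ) ≤ 1 - w)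
    linarith
  rw [← e] at h4
  linarith

lemma gd_nonneg {v : ℝ} (hv : 0 ≤ v) : 0 ≤ gd v := by unfold gd; positivity

lemma ul_deep {x v w : ℝ} (hx : 0 ≤ x ∧ x ≤ 0.02) (hv : 0 ≤ v ∧ v ≤ 0.02) (hw : 0 ≤ w ∧ w ≤ 1) :
    1 - Qm (1 - w * x) (1 - -(w * v)) ≤ w * (1 - Qm (1 - x) (1 - -v)) := by
  have hwx : 0 ≤ w * x := mul_nonneg hw.1 hx.1
  have hwx' : w * x ≤ x := by nlinarith [hx.1, hw.2]
  have hwv : 0 ≤ w * v := mul_nonneg hw.1 hv.1
  rw [Qm_eq (by linarith [hx.2]) (by linarith), Qm_eq (by linarith [hx.2]) (by linarith [hv.1]),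
    hh_neg, hh_neg]
  have a1 := (hh_scale hx hw).2
  have a2 := gd_scale hv hw
  obtain ⟨b1, b2⟩ := hh_bd hx
  obtain ⟨b3, b4⟩ := gd_bd hv
  have hX0 : 0 ≤ hh x := by linarith [hx.1]
  have hG0 : 0 ≤ gd v := by linarith [hv.1]
  have hGw : 0 ≤ gd (w * v) := gd_nonneg hwv
  have a3 : hh (w * x) * gd (w * v) ≤ w * hh x * (w * gd v + w * v ^ 2 * (1 - w) / 2) :=
    mul_le_mul a1 a2 hGw (mul_nonneg hw.1 hX0)
  have hv2 : v ^ 2 / 2 ≤ gd v := by nlinarith [hv.1, hv.2]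
  have key : 0 ≤ x * v + hh x * gd v / 2 - w * hh x * v ^ 2 / 4 := by
    have c0 : w * hh x ≤ hh x := by nlinarith [hw.2]
    have c1 : w * hh x * v ^ 2 ≤ hh x * v ^ 2 := mul_le_mul_of_nonneg_right c0 (sq_nonneg v)
    have c2 : hh x * (v ^ 2 / 2) ≤ hh x * gd v := mul_le_mul_of_nonneg_left hv2 hX0
    have c3 := mul_nonneg hx.1 hv.1
    linarith
  have h9 := mul_nonneg (mul_nonneg hw.1 (by linarith [hw.2] : (0 : ℝ) ≤ 1 - w)) key
  have e : w * (x + -v - x * -v - hh x * -gd v / 2) - (w * x + -(w * v) - w * x * -(w * v) +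
      w * hh x * (w * gd v + w * v ^ 2 * (1 - w) / 2) / 2) =
      w * (1 - w) * (x * v + hh x * gd v / 2 - w * hh x * v ^ 2 / 4) := by ring
  rw [← e] at h9
  have e2 : hh (w * x) * -gd (w * v) = - (hh (w * x) * gd (w * v)) := by ring
  rw [e2]
  linarith

lemma sin_scale {σ y : ℝ} (hσ : 0 ≤ σ ∧ σ ≤ 1) (hy : 0 ≤ y ∧ y ≤ π) : σ * sin y ≤ sin (σ * y) := by
  have h := strictConcaveOn_sin_Icc.concaveOn.2 (x := y) ⟨hy.1, hy.2⟩ (y := 0)
    ⟨le_rfl, Real.pi_pos.le⟩ hσ.1 (by linarith [hσ.2] : (0 : ℝ) ≤ 1 - σ) (by ring)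
  simpa using h

/-- widths of mixed pairs shrink at least linearly -/
lemma ul_arccos {Q Q' c σ : ℝ} (hσ : 0 ≤ σ ∧ σ ≤ 1) (hQ : -1 ≤ Q) (hc : 0 ≤ c ∧ c ≤ σ ^ 2)
    (h : 1 - Q' ≤ c * (1 - Q)) : arccos Q' ≤ σ * arccos Q := by
  have hpi := Real.pi_pos
  have h0 := mul_nonneg hσ.1 (Real.arccos_nonneg Q)
  rcases le_total 1 Q with h1 | h1
  · have : 1 ≤ Q' := by nlinarith [hc.1]
    rw [Real.arccos_of_one_le this]; exact h0
  · set p := arccos Q with hp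
    have hcos : cos p = Q := Real.cos_arccos hQ h1
    have hp0 : 0 ≤ p := Real.arccos_nonneg _
    have hpp : p ≤ π := Real.arccos_le_pi _
    have h2 : cos (σ * p) ≤ 1 - σ ^ 2 * (1 - cos p) := by
      have e1 : cos (σ * p) = 1 - 2 * sin (σ * (p / 2)) ^ 2 := by
        rw [show σ * p = 2 * (σ * (p / 2)) by ring, Real.cos_two_mul, ← Real.sin_sq_add_cos_sq (σ * (p / 2))]
        ring
      have e2 : cos p = 1 - 2 * sin (p / 2) ^ 2 := by
        conv_lhs => rw [show p = 2 * (p / 2) by ring]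
        rw [Real.cos_two_mul, ← Real.sin_sq_add_cos_sq (p / 2)]
        ring
      have h3 := sin_scale hσ (y := p / 2) ⟨by linarith, by linarith⟩
      have h4 : 0 ≤ sin (p / 2) := Real.sin_nonneg_of_nonneg_of_le_pi (by linarith) (by linarith)
      have h5 : (σ * sin (p / 2)) ^ 2 ≤ sin (σ * (p / 2)) ^ 2 :=
        pow_le_pow_left₀ (mul_nonneg hσ.1 h4) h3 2
      rw [e1, e2]
      nlinarith
    have h3 : cos (σ * p) ≤ Q' := by
      rw [hcos] at h2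
      nlinarith [hc.2]
    have h4 := Real.arccos_le_arccos h3
    rwa [Real.arccos_cos h0 (by nlinarith [hσ.2])] at h4

end Pool.Agent.Helper66.Kiss
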