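import Pool.Agent.Helper66.Kiss.ChordA

set_option autoImplicit false

/-! # Chord inequalities, second part: pairs with the lowest point; arithmetic of the caps -/

namespace Pool.Agent.Helper66.Kiss

open Real Set Filter Topology

/-- `Bq` -/
noncomputable def bq (a : ℝ) : ℝ := (9 * a ^ 2 - 1) / (24 * a)

lemma Qp_eq {x τ : ℝ} (hx : x < 1) (hτ : 0 < τ) :
    Qp τ (1 - x) = √3 / 4 * hh x / τ + √3 * τ * bq (1 - x) := by
  have h1 : 0 < 1 - x := by linarith
  have h3 : √3 ^ 2 = (3 : ℝ) := Real.sq_sqrt (by norm_num)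
  have h30 : 0 < √3 := Real.sqrt_pos.2 (by norm_num)
  unfold Qp hh bq
  rw [div_eq_iff (by positivity)]
  field_simp
  rw [h3]
  ring

lemma bq_bd {a : ℝ} (ha : 0.989 ≤ a ∧ a ≤ 1.011) : 0.328 ≤ bq a ∧ bq a ≤ 0.338 := by
  obtain ⟨c1, c2⟩ := ha
  have hb0 : 0 < a := by linarith
  unfold bq
  constructor
  · rw [le_div_iff₀ (by positivity)]; nlinarith
  · rw [div_le_iff₀ (by positivity)]; nlinarith

lemma bq_mono {a b : ℝ} (ha : 0 < a) (hab : a ≤ b) : bq a ≤ bq b := by
  have hb : 0 < b := by linarith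
  unfold bq
  rw [div_le_div_iff₀ (by positivity) (by positivity)]
  nlinarith [mul_nonneg (mul_pos ha hb).le (by linarith : (0 : ℝ) ≤ b - a)]

lemma bq_lip {a b : ℝ} (ha : 1 ≤ a) (hab : a ≤ b) : bq b - bq a ≤ 0.42 * (b - a) := by
  have ha0 : 0 < a := by linarith
  have hb : 0 < b := by linarith
  have e : bq b - bq a = (b - a) * (9 + 1 / (a * b)) / 24 := by
    unfold bq; field_simp; ring
  rw [e]
  have h1 : 1 / (a * b) ≤ 1 := by
    rw [div_le_one (by positivity)]; nlinarith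
  nlinarith [mul_nonneg (by linarith : (0 : ℝ) ≤ b - a) (by linarith : (0 : ℝ) ≤ 1 - 1 / (a * b))]

lemma sqrt3_bd : (1.73205 : ℝ) < √3 ∧ √3 < 1.7321 := by
  constructor
  · apply Real.lt_sqrt_of_sq_lt; norm_num
  · rw [Real.sqrt_lt' (by norm_num)]; norm_num

lemma cube_ge {σ : ℝ} (hσ : 0 ≤ σ ∧ σ ≤ 1) : 1 - 3 * (1 - σ) ≤ σ ^ 3 := by
  nlinarith [mul_nonneg (sq_nonneg (1 - σ)) (by linarith [hσ.1] : (0 : ℝ) ≤ σ + 2)]

/-- the second part of the cosine -/
noncomputable def y2 (τ x : ℝ) : ℝ := √3 * τ * bq (1 - x)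

lemma y2_bd {x τ : ℝ} (hx : -0.011 ≤ x ∧ x ≤ 0.0104) (hτ : 0 < τ ∧ τ ≤ 0.0061) :
    0 < y2 τ x ∧ y2 τ x ≤ 0.0036 := by
  obtain ⟨b1, b2⟩ := bq_bd (a := 1 - x) ⟨by linarith [hx.2], by linarith [hx.1]⟩
  have h3 := sqrt3_bd
  unfold y2
  constructor
  · have : 0 < √3 := by linarith
    have := mul_pos this hτ.1
    exact mul_pos this (by linarith)
  · have e1 : √3 * τ ≤ 1.7321 * 0.0061 := mul_le_mul h3.2.le hτ.2 hτ.1.le (by norm_num)
    have e2 : √3 * τ * bq (1 - x) ≤ 1.7321 * 0.0061 * 0.338 :=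
      mul_le_mul e1 b2 (by linarith) (by norm_num)
    norm_num at e2 ⊢
    linarith

/-- **lower bound along the path, high lower point** -/
lemma sl_high {x τ σ : ℝ} (hx : 0 ≤ x ∧ x ≤ 0.0104) (hτ : 0 < τ) (hσ : 0 < σ ∧ σ ≤ 1) :
    Qp τ (1 - x) + (1 - σ) * (0.97 * Qp τ (1 - x) - 3.97 * y2 τ x) ≤
      Qp (σ ^ 3 * τ) (1 - σ ^ 2 * x) ∧ y2 τ x ≤ Qp τ (1 - x) := by
  have h30 : 0 < √3 := Real.sqrt_pos.2 (by norm_num)
  have hσ0 := hσ.1
  have hs2 : σ ^ 2 ≤ 1 := pow_le_one₀ hσ.1.le hσ.2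
  have hs2' : 0 < σ ^ 2 := by have := hσ.1; positivity
  have hs3 : 0 < σ ^ 3 := by have := hσ.1; positivity
  have hsx : σ ^ 2 * x ≤ x := by nlinarith [hx.1]
  have hsx0 : 0 ≤ σ ^ 2 * x := mul_nonneg hs2'.le hx.1
  have hx1 : 0 < 1 - x := by linarith [hx.2]
  have hx2 : 0 < 1 - σ ^ 2 * x := by linarith
  have hhx := (hh_bd (x := x) ⟨hx.1, by linarith [hx.2]⟩).1
  rw [Qp_eq (by linarith) hτ, Qp_eq (by linarith) (by positivity)]
  have hy2 : y2 τ x = √3 * τ * bq (1 - x) := rfl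
  -- first part
  have k1 : σ ^ 3 * (1 + 0.97 * (1 - σ)) * hh x ≤ hh (σ ^ 2 * x) := by
    unfold hh
    rw [← mul_div_assoc, div_le_div_iff₀ (by positivity) (by positivity)]
    have key : 0 ≤ (1 - σ) * ((1 - 0.97 * σ) * (2 - x) * (1 - σ ^ 2 * x) - x * (1 + σ)) := by
      apply mul_nonneg (by linarith [hσ.2])
      have e1 : (0.03 : ℝ) * 1.98 ≤ (1 - 0.97 * σ) * (2 - x) :=
        mul_le_mul (by linarith [hσ.2]) (by linarith [hx.2]) (by norm_num) (by linarith [hσ.2])
      have e2 : (0.03 : ℝ) * 1.98 * 0.98 ≤ (1 - 0.97 * σ) * (2 - x) * (1 - σ ^ 2 * x) :=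
        mul_le_mul e1 (by linarith [hx.2]) (by norm_num) (by linarith)
      have e3 : x * (1 + σ) ≤ 0.0104 * 2 := mul_le_mul hx.2 (by linarith [hσ.2]) (by linarith [hσ.1]) (by norm_num)
      norm_num at e2 e3 ⊢
      linarith
    have e : (1 - σ) * ((1 - 0.97 * σ) * (2 - x) * (1 - σ ^ 2 * x) - x * (1 + σ)) =
        (2 - σ ^ 2 * x) * (1 - x) - σ * (1 + 0.97 * (1 - σ)) * (2 - x) * (1 - σ ^ 2 * x) := by ring
    rw [e] at key
    have := mul_nonneg (mul_nonneg hs2'.le hx.1) key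
    nlinarith
  have k2 : (1 + 0.97 * (1 - σ)) * (√3 / 4 * hh x / τ) ≤ √3 / 4 * hh (σ ^ 2 * x) / (σ ^ 3 * τ) := by
    have : (1 + 0.97 * (1 - σ)) * (√3 / 4 * hh x / τ) =
        √3 / 4 * (σ ^ 3 * (1 + 0.97 * (1 - σ)) * hh x) / (σ ^ 3 * τ) := by
      field_simp
    rw [this]
    apply div_le_div_of_nonneg_right _ (by positivity)
    exact mul_le_mul_of_nonneg_left k1 (by positivity)
  -- second part
  have k3 : (1 - 3 * (1 - σ)) * y2 τ x ≤ √3 * (σ ^ 3 * τ) * bq (1 - σ ^ 2 * x) := by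
    have hb := bq_mono (a := 1 - x) (b := 1 - σ ^ 2 * x) hx1 (by linarith)
    have hb0 : 0 ≤ bq (1 - x) := by
      unfold bq; apply div_nonneg _ (by positivity); nlinarith [hx.2, hx.1]
    have c := cube_ge ⟨hσ.1.le, hσ.2⟩
    have hy0 : 0 ≤ y2 τ x := by rw [hy2]; positivity
    calc (1 - 3 * (1 - σ)) * y2 τ x ≤ σ ^ 3 * y2 τ x := mul_le_mul_of_nonneg_right c hy0
      _ = √3 * (σ ^ 3 * τ) * bq (1 - x) := by rw [hy2]; ring
      _ ≤ _ := mul_le_mul_of_nonneg_left hb (by positivity)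
  constructor
  · rw [← hy2]
    nlinarith
  · rw [← hy2]
    have : 0 ≤ √3 / 4 * hh x / τ := by
      apply div_nonneg _ hτ.le
      apply mul_nonneg (by positivity); linarith [hx.1]
    linarith

/-- **lower bound along the path, deep lower point** -/
lemma sl_deep {v τ σ : ℝ} (hv : 0 ≤ v ∧ v ≤ 0.0107) (hτ : 0 < τ) (hσ : 0 < σ ∧ σ ≤ 1) :
    (Qp τ (1 - -v) - y2 τ (-v)) * (σ + 0.022 * (1 - σ)) + y2 τ (-v) * (1 - 3.06 * (1 - σ)) ≤
      Qp (σ ^ 3 * τ) (1 - -(σ ^ 4 * v)) ∧ Qp τ (1 - -v) ≤ y2 τ (-v) := by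
  have h30 : 0 < √3 := Real.sqrt_pos.2 (by norm_num)
  have hσ0 := hσ.1
  have hs4 : σ ^ 4 ≤ 1 := pow_le_one₀ hσ.1.le hσ.2
  have hs4' : 0 < σ ^ 4 := by positivity
  have hs3 : 0 < σ ^ 3 := by positivity
  have hsv : σ ^ 4 * v ≤ v := by nlinarith [hv.1]
  have hsv0 : 0 ≤ σ ^ 4 * v := mul_nonneg hs4'.le hv.1
  have h14 : 1 - σ ^ 4 ≤ 4 * (1 - σ) := by
    have e : 4 * (1 - σ) - (1 - σ ^ 4) = (1 - σ) ^ 2 * (3 + 2 * σ + σ ^ 2) := by ring
    have := mul_nonneg (sq_nonneg (1 - σ)) (by positivity : (0 : ℝ) ≤ 3 + 2 * σ + σ ^ 2)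
    linarith
  obtain ⟨g1, g2⟩ := gd_bd (v := v) ⟨hv.1, by linarith [hv.2]⟩
  have hG0 : 0 ≤ gd v := gd_nonneg hv.1
  rw [Qp_eq (by linarith [hv.1]) hτ, Qp_eq (by linarith) (by positivity), hh_neg, hh_neg]
  have hy2 : y2 τ (-v) = √3 * τ * bq (1 - -v) := rfl
  have k1 : gd (σ ^ 4 * v) ≤ σ ^ 3 * (σ + 0.022 * (1 - σ)) * gd v := by
    have h1 := gd_scale (v := v) (w := σ ^ 4) ⟨hv.1, by linarith [hv.2]⟩ ⟨hs4'.le, hs4⟩
    have h2 : v ^ 2 * (1 - σ ^ 4) / 2 ≤ 0.022 * (1 - σ) * gd v := by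
      have e1 : v ^ 2 * (1 - σ ^ 4) ≤ v ^ 2 * (4 * (1 - σ)) := mul_le_mul_of_nonneg_left h14 (sq_nonneg v)
      have e2 : v ^ 2 ≤ 0.0107 * v := by nlinarith [hv.1, hv.2]
      have e3 : v ^ 2 ≤ 0.011 * gd v := by linarith
      have e4 : v ^ 2 * (1 - σ) ≤ 0.011 * gd v * (1 - σ) :=
        mul_le_mul_of_nonneg_right e3 (by linarith [hσ.2])
      nlinarith
    have h3 : σ ^ 4 ≤ σ ^ 3 := pow_le_pow_of_le_one hσ.1.le hσ.2 (by norm_num)
    have h4 : 0 ≤ v ^ 2 * (1 - σ ^ 4) / 2 := by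
      have := mul_nonneg (sq_nonneg v) (by linarith : (0 : ℝ) ≤ 1 - σ ^ 4)
      linarith
    have h5 : σ ^ 4 * (v ^ 2 * (1 - σ ^ 4) / 2) ≤ σ ^ 3 * (0.022 * (1 - σ) * gd v) :=
      mul_le_mul h3 h2 h4 hs3.le
    nlinarith
  have k2 : (√3 / 4 * -gd v / τ) * (σ + 0.022 * (1 - σ)) ≤
      √3 / 4 * -gd (σ ^ 4 * v) / (σ ^ 3 * τ) := by
    have : (√3 / 4 * -gd v / τ) * (σ + 0.022 * (1 - σ)) =
        √3 / 4 * (-(σ ^ 3 * (σ + 0.022 * (1 - σ)) * gd v)) / (σ ^ 3 * τ) := by
      field_simp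
    rw [this]
    apply div_le_div_of_nonneg_right _ (by positivity)
    exact mul_le_mul_of_nonneg_left (by linarith) (by positivity)
  have k3 : y2 τ (-v) * (1 - 3.06 * (1 - σ)) ≤ √3 * (σ ^ 3 * τ) * bq (1 - -(σ ^ 4 * v)) := by
    obtain ⟨b1, b2⟩ := bq_bd (a := 1 - -v) ⟨by linarith [hv.1], by linarith [hv.2]⟩
    have hb1 : 1 / 3 ≤ bq (1 - -v) := by
      have h1 := bq_mono (a := 1) (b := 1 - -v) one_pos (by linarith [hv.1])
      have h2 : bq 1 = 1 / 3 := by unfold bq; norm_num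
      linarith
    have hl := bq_lip (a := 1 - -(σ ^ 4 * v)) (b := 1 - -v) (by linarith) (by linarith)
    have hl2 : (1 - 0.06 * (1 - σ)) * bq (1 - -v) ≤ bq (1 - -(σ ^ 4 * v)) := by
      have e1 : v * (1 - σ ^ 4) ≤ 0.0107 * (4 * (1 - σ)) :=
        mul_le_mul hv.2 h14 (by linarith) (by norm_num)
      have e2 : 0.06 * (1 - σ) * (1 / 3) ≤ 0.06 * (1 - σ) * bq (1 - -v) :=
        mul_le_mul_of_nonneg_left hb1 (by linarith [hσ.2])
      nlinarith [hσ.2]
    have c := cube_ge ⟨hσ.1.le, hσ.2⟩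
    have c3 : σ ^ 3 ≤ 1 := pow_le_one₀ hσ.1.le hσ.2
    have c2 : 1 - 3.06 * (1 - σ) ≤ σ ^ 3 * (1 - 0.06 * (1 - σ)) := by
      nlinarith [mul_nonneg (by linarith : (0 : ℝ) ≤ 1 - σ ^ 3) (by linarith [hσ.2] : (0 : ℝ) ≤ 1 - σ)]
    have hy0 : 0 ≤ y2 τ (-v) := by rw [hy2]; positivity
    calc y2 τ (-v) * (1 - 3.06 * (1 - σ)) ≤ y2 τ (-v) * (σ ^ 3 * (1 - 0.06 * (1 - σ))) :=
        mul_le_mul_of_nonneg_left c2 hy0
      _ = √3 * (σ ^ 3 * τ) * ((1 - 0.06 * (1 - σ)) * bq (1 - -v)) := by rw [hy2]; ring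
      _ ≤ _ := mul_le_mul_of_nonneg_left hl2 (by positivity)
  constructor
  · rw [← hy2]
    have e : √3 / 4 * -gd v / τ + y2 τ (-v) - y2 τ (-v) = √3 / 4 * -gd v / τ := by ring
    rw [e]
    linarith
  · rw [← hy2]
    have : 0 ≤ √3 / 4 * gd v / τ := by positivity
    have e : √3 / 4 * -gd v / τ = - (√3 / 4 * gd v / τ) := by ring
    rw [e]; linarith

/-! ## the cap of a pair with the lowest point -/

/-- the cap as a function of the cosine -/
noncomputable def Bs (y : ℝ) : ℝ :=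
  if arccos y ≤ 0.7 then 0 else if arccos y ≤ 1.3967 then arccos y - 0.15 else
    if 0 ≤ y then arccos y + 0.012 else arccos (-0.03)

/-- admissible pairs of a cap `B` and an initial width `ω` -/
def Good (B ω : ℝ) : Prop :=
  0 ≤ ω ∧ B ≤ 1.66 ∧ B ≤ ω + 0.035 ∧ (ω ≤ 1.3967 → B ≤ max 0 (ω - 0.15)) ∧ (ω ≤ 0.7 → B ≤ 0)

lemma good_zero : Good 0 0 := by
  refine ⟨le_rfl, by norm_num, by norm_num, fun _ => le_max_left _ _, fun _ => le_rfl⟩

lemma arccos_small : arccos (-0.03) ≤ π / 2 + 0.031 := by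
  have h1 : cos (π / 2 + 0.031) ≤ -0.03 := by
    rw [add_comm, Real.cos_add_pi_div_two]
    have := Real.sin_gt_sub_cube (x := 0.031) (by norm_num)
    norm_num at this ⊢
    linarith
  have h2 := Real.arccos_le_arccos h1
  rwa [Real.arccos_cos (by linarith [Real.pi_pos]) (by linarith [Real.pi_gt_three])] at h2

lemma good_Bs (y : ℝ) : Good (Bs y) (arccos y) := by
  have h0 := Real.arccos_nonneg y
  have hpi := Real.pi_lt_d4
  have hpi' := Real.pi_gt_d4
  norm_num at hpi hpi'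
  unfold Bs
  split_ifs with h1 h2 h3
  · exact ⟨h0, by norm_num, by linarith, fun _ => le_max_left _ _, fun _ => le_rfl⟩
  · refine ⟨h0, by linarith, by linarith, fun _ => le_max_right _ _, fun h => absurd h h1⟩
  · have : arccos y ≤ π / 2 := Real.arccos_le_pi_div_two.2 h3
    exact ⟨h0, by norm_num; linarith, by linarith, fun h => absurd h h2, fun h => absurd h h1⟩
  · have h5 : π / 2 ≤ arccos y := by
      by_contra hcon
      exact h3 (Real.arccos_le_pi_div_two.1 (not_le.1 hcon).le)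
    have := arccos_small
    exact ⟨h0, by norm_num at this ⊢; linarith, by norm_num at this ⊢; linarith, fun h => absurd h h2, fun h => absurd h h1⟩

/-- **the chord inequality for a pair with the lowest point** -/
lemma sl_chord {y f η σ : ℝ} (hσ : 0 ≤ σ ∧ σ ≤ 1) (hy : -1 ≤ y) (hη : 0 < η ∧ η ≤ 0.0036)
    (h : (η ≤ y ∧ y + (1 - σ) * (0.97 * y - 3.97 * η) ≤ f) ∨
      (y ≤ η ∧ (y - η) * (σ + 0.022 * (1 - σ)) + η * (1 - 3.06 * (1 - σ)) ≤ f)) :
    arccos f ≤ σ * arccos y + (1 - σ) * Bs y := by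
  have hpi := Real.pi_lt_d4
  have hpi' := Real.pi_gt_d4
  norm_num at hpi hpi'
  obtain ⟨s0, s1⟩ := hσ
  have hd0 : 0 ≤ 1 - σ := by linarith
  have hw0 := Real.arccos_nonneg y
  unfold Bs
  split_ifs with h1 h2 h3
  · -- small width
    rcases le_total 1 y with hy1 | hy1
    · rw [Real.arccos_of_one_le hy1]
      rcases h with ⟨a1, a2⟩ | ⟨a1, a2⟩
      · have : 1 ≤ f := by
          have := mul_nonneg hd0 (by linarith [hη.2] : (0 : ℝ) ≤ 0.97 * y - 3.97 * η)
          linarith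
        rw [Real.arccos_of_one_le this]; simp
      · linarith [hη.2]
    · have hc : cos (arccos y) = y := Real.cos_arccos hy hy1
      set w := arccos y with hw
      have hyl : 0.755 ≤ y := by
        rw [← hc]
        have e1 : 1 - w ^ 2 / 2 ≤ cos w := Real.one_sub_sq_div_two_le_cos
        have e2 : w ^ 2 ≤ 0.7 ^ 2 := pow_le_pow_left₀ hw0 h1 2
        norm_num at e2 ⊢
        linarith
      rcases h with ⟨a1, a2⟩ | ⟨a1, a2⟩
      · have e1 : 0 ≤ σ * w := mul_nonneg s0 hw0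
        have e2 : σ * w ≤ w := by nlinarith
        have ht := cos_tangent (θ := σ * w) (ω := w) e1 (by linarith) hw0 (by linarith)
        have e3 : w * sin w ≤ 0.49 := by
          have := Real.sin_le hw0
          have hsn : 0 ≤ sin w := Real.sin_nonneg_of_nonneg_of_le_pi hw0 (by linarith)
          have := mul_le_mul h1 (this.trans h1) hsn (by norm_num)
          norm_num at this ⊢
          linarith
        have e4 : cos (σ * w) ≤ f := by
          rw [hc] at ht
          have e5 := mul_le_mul_of_nonneg_left (by linarith [hη.2] : w * sin w ≤ 0.97 * y - 3.97 * η) hd0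
          nlinarith
        have e5 := Real.arccos_le_arccos e4
        rw [Real.arccos_cos e1 (by linarith)] at e5
        linarith
      · linarith [hη.2]
  · -- middle
    push Not at h1
    have hy1 : y ≤ 1 := by
      by_contra hcon
      push Not at hcon
      rw [Real.arccos_of_one_le hcon.le] at h1
      norm_num at h1
    have hc : cos (arccos y) = y := Real.cos_arccos hy hy1
    set w := arccos y with hw
    have hyl : 0.17 ≤ y := by
      rw [← hc]
      have e1 : cos 1.3967 ≤ cos w := Real.cos_le_cos_of_nonneg_of_le_pi hw0 (by norm_num; linarith) h2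
      have e2 : cos (1.3967 : ℝ) = sin (π / 2 - 1.3967) := by rw [Real.sin_pi_div_two_sub]
      have e3 : sin (0.1740 : ℝ) ≤ sin (π / 2 - 1.3967) :=
        Real.sin_le_sin_of_le_of_le_pi_div_two (by norm_num; linarith) (by norm_num) (by norm_num; linarith)
      have e4 := Real.sin_gt_sub_cube (x := 0.1740) (by norm_num)
      norm_num at e1 e2 e3 e4 ⊢
      linarith
    rcases h with ⟨a1, a2⟩ | ⟨a1, a2⟩
    · have e1 : 0 ≤ w - 0.15 * (1 - σ) := by norm_num at h1 ⊢; linarith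
      have ht := cos_tangent (θ := w - 0.15 * (1 - σ)) (ω := w) e1 (by norm_num at h2; linarith) hw0
        (by norm_num at h2; linarith)
      have e4 : cos (w - 0.15 * (1 - σ)) ≤ f := by
        rw [hc] at ht
        have hsn := Real.sin_le_one w
        have e5 := mul_le_mul_of_nonneg_left hsn (by linarith : (0 : ℝ) ≤ 0.15 * (1 - σ))
        have e6 := mul_le_mul_of_nonneg_left (by norm_num at hyl; linarith [hη.2] : (0.15 : ℝ) ≤ 0.97 * y - 3.97 * η) hd0
        linarith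
      have e5 := Real.arccos_le_arccos e4
      rw [Real.arccos_cos e1 (by norm_num at h2; linarith)] at e5
      linarith
    · linarith [hη.2]
  · -- large width, nonnegative cosine
    push Not at h2
    have hy1 : y ≤ 1 := by
      by_contra hcon
      push Not at hcon
      rw [Real.arccos_of_one_le hcon.le] at h2
      norm_num at h2
    have hc : cos (arccos y) = y := Real.cos_arccos hy hy1
    set w := arccos y with hw
    have hwp : w ≤ π / 2 := Real.arccos_le_pi_div_two.2 h3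
    have hf : y - 0.0111 * (1 - σ) ≤ f := by
      rcases h with ⟨a1, a2⟩ | ⟨a1, a2⟩
      · have e6 := mul_nonneg hd0 (by linarith [hη.2] : (0 : ℝ) ≤ 0.97 * y - 3.97 * η + 0.0111)
        linarith
      · have e7 : 0 ≤ (η - y) * (1 - (σ + 0.022 * (1 - σ))) :=
          mul_nonneg (by linarith) (by linarith)
        have e8 : 3.06 * η ≤ 0.0111 := by linarith [hη.2]
        have e9 := mul_le_mul_of_nonneg_left e8 hd0
        linarith
    have hsw : 0.98 ≤ sin w := by
      have e1 : cos w ≤ cos 1.3967 := Real.cos_le_cos_of_nonneg_of_le_pi (by norm_num) (by linarith) h2.le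
      have e2 : cos (1.3967 : ℝ) = sin (π / 2 - 1.3967) := by rw [Real.sin_pi_div_two_sub]
      have e3 : sin (π / 2 - 1.3967) ≤ π / 2 - 1.3967 := Real.sin_le (by norm_num; linarith)
      have e4 : cos w ≤ 0.175 := by norm_num at e1 e2 e3 ⊢; linarith
      have h := Real.sin_sq_add_cos_sq w
      have hs : 0 ≤ sin w := Real.sin_nonneg_of_nonneg_of_le_pi hw0 (by linarith)
      have e5 : cos w ^ 2 ≤ 0.175 ^ 2 := pow_le_pow_left₀ (by rw [hc]; exact h3) e4 2
      by_contra hcon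
      push Not at hcon
      nlinarith
    set t := 0.012 * (1 - σ) with ht
    have ht0 : 0 ≤ t := by positivity
    have ht1 : t ≤ 0.012 := by rw [ht]; linarith
    have e1 : 0.99 * t ≤ sin t := by
      rcases eq_or_lt_of_le ht0 with h5 | h5
      · rw [← h5]; simp
      · have := Real.sin_gt_sub_cube h5
        have h6 : t ^ 3 / 6 ≤ 0.01 * t := by
          have : t ^ 2 ≤ 0.012 ^ 2 := pow_le_pow_left₀ ht0 ht1 2
          nlinarith
        linarith
    have e2 : cos (w + t) ≤ f := by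
      rw [Real.cos_add]
      have c1 : cos w * cos t ≤ y := by
        rw [hc]
        have := Real.cos_le_one t
        nlinarith
      have c2 : 0.98 * (0.99 * t) ≤ sin w * sin t := mul_le_mul hsw e1 (by positivity) (by linarith)
      have c3 : 0.0111 * (1 - σ) ≤ 0.98 * (0.99 * t) := by rw [ht]; nlinarith
      linarith
    have e5 := Real.arccos_le_arccos e2
    rw [Real.arccos_cos (by linarith) (by linarith)] at e5
    rw [ht] at e5
    linarith
  · -- negative cosine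
    push Not at h3
    have hc : cos (arccos y) = y := Real.cos_arccos hy (by linarith)
    set w := arccos y with hw
    have hwp : π / 2 ≤ w := by
      by_contra hcon
      exact absurd (Real.arccos_le_pi_div_two.1 (not_le.1 hcon).le) (by linarith)
    have hwpi : w ≤ π := Real.arccos_le_pi y
    have hf : σ * y + (1 - σ) * (-0.03) ≤ f := by
      rcases h with ⟨a1, a2⟩ | ⟨a1, a2⟩
      · linarith [hη.1]
      · have e7 : 0 ≤ (1 - σ) * (0.03 + 0.022 * (y - η) - 2.06 * η) :=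
          mul_nonneg hd0 (by linarith [hη.2])
        linarith
    set b := arccos (-0.03) with hb
    have hbc : cos b = -0.03 := Real.cos_arccos (by norm_num) (by norm_num)
    have hbp : π / 2 ≤ b := by
      by_contra hcon
      exact absurd (Real.arccos_le_pi_div_two.1 (not_le.1 hcon).le) (by norm_num)
    have hbpi : b ≤ π := Real.arccos_le_pi _
    have hconc := strictConcaveOn_sin_Icc.concaveOn.2 (x := w - π / 2)
      ⟨by linarith, by linarith⟩ (y := b - π / 2) ⟨by linarith, by linarith⟩ s0 hd0 (by ring)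
    simp only [smul_eq_mul] at hconc
    rw [Real.sin_sub_pi_div_two, Real.sin_sub_pi_div_two, hc, hbc] at hconc
    have e1 : σ * (w - π / 2) + (1 - σ) * (b - π / 2) = (σ * w + (1 - σ) * b) - π / 2 := by ring
    rw [e1, Real.sin_sub_pi_div_two] at hconc
    have e4 : cos (σ * w + (1 - σ) * b) ≤ f := by linarith
    have e5 := Real.arccos_le_arccos e4
    rwa [Real.arccos_cos (by nlinarith) (by nlinarith)] at e5

/-- arithmetic of the caps -/
lemma cap_arith {m : ℕ} {B1 B2 w1 w2 : ℝ} (h1 : Good B1 w1) (h2 : Good B2 w2)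
    (h : m * (CC - 0.035) + w1 + w2 ≤ 2 * π) : m * CC + B1 + B2 ≤ 2 * π := by
  have hC := CC_bd
  have e5 : 2 * π = 5 * CC := by unfold CC; ring
  rw [e5] at h ⊢
  obtain ⟨a0, a1, a2, a3, a4⟩ := h1
  obtain ⟨b0, b1, b2, b3, b4⟩ := h2
  norm_num at hC
  have hm : m ≤ 5 := by
    by_contra hcon
    push Not at hcon
    have : (6 : ℝ) ≤ m := by exact_mod_cast hcon
    nlinarith
  interval_cases m
  · norm_num at *; linarith
  · norm_num at *; linarith
  · norm_num at *; linarith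
  · -- three
    norm_num at h ⊢
    rcases le_total w1 w2 with hw | hw
    · have c := a3 (by norm_num; linarith)
      rcases le_total 0 (w1 - 0.15) with h5 | h5
      · rw [max_eq_right h5] at c; norm_num at *; linarith
      · rw [max_eq_left h5] at c; norm_num at *; linarith
    · have c := b3 (by norm_num; linarith)
      rcases le_total 0 (w2 - 0.15) with h5 | h5
      · rw [max_eq_right h5] at c; norm_num at *; linarith
      · rw [max_eq_left h5] at c; norm_num at *; linarith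
  · -- four
    norm_num at h ⊢
    rcases le_total w1 w2 with hw | hw
    · have c := b3 (by norm_num; linarith)
      have d := a4 (by norm_num; linarith)
      rcases le_total 0 (w2 - 0.15) with h5 | h5
      · rw [max_eq_right h5] at c; norm_num at *; linarith
      · rw [max_eq_left h5] at c; norm_num at *; linarith
    · have c := a3 (by norm_num; linarith)
      have d := b4 (by norm_num; linarith)
      rcases le_total 0 (w1 - 0.15) with h5 | h5
      · rw [max_eq_right h5] at c; norm_num at *; linarith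
      · rw [max_eq_left h5] at c; norm_num at *; linarith
  · norm_num at h ⊢
    have c := a4 (by norm_num; linarith)
    have d := b4 (by norm_num; linarith)
    linarith

end Pool.Agent.Helper66.Kiss
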