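import Pool.Agent.Helper66.Kiss.Basic

set_option autoImplicit false

/-! # Monotone closed curves of winding number at least two cross themselves -/

namespace Pool.Agent.Helper66.Kiss

open Real Set

/-- tangent of the latitude along the great circle arc over the longitudes `a`, `b` -/
noncomputable def arcH (a b s t θ : ℝ) : ℝ := (s * sin (b - θ) + t * sin (θ - a)) / sin (b - a)

lemma arcH_left {a b s t : ℝ} (h : sin (b - a) ≠ 0) : arcH a b s t a = s := by
  unfold arcH; rw [sub_self, sin_zero, mul_zero, add_zero]; field_simp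

lemma arcH_right {a b s t : ℝ} (h : sin (b - a) ≠ 0) : arcH a b s t b = t := by
  unfold arcH; rw [sub_self, sin_zero, mul_zero, zero_add]; field_simp

lemma continuous_arcH (a b s t : ℝ) : Continuous (arcH a b s t) := by
  unfold arcH; fun_prop

lemma locate {α : ℕ → ℝ} : ∀ (m : ℕ) (θ : ℝ), α 0 ≤ θ → θ ≤ α (m + 1) →
    ∃ i, i ≤ m ∧ α i ≤ θ ∧ θ ≤ α (i + 1) := by
  intro m
  induction m with
  | zero => intro θ h1 h2; exact ⟨0, le_rfl, h1, h2⟩
  | succ m ih =>
    intro θ h1 h2
    rcases le_total θ (α (m + 1)) with h | h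
    · obtain ⟨i, hi, h3⟩ := ih θ h1 h
      exact ⟨i, by omega, h3⟩
    · exact ⟨m + 1, le_rfl, h, h2⟩

lemma cross {r w : ℕ} (hr : 0 < r) (hw : 1 ≤ w) {α τ : ℕ → ℝ} (h1 : ∀ k, α k < α (k + 1))
    (h2 : ∀ k, α (k + 1) < α k + π) (h3 : ∀ k, α (k + r) = α k + 2 * π * w)
    (h4 : ∀ k, τ (k + r) = τ k) :
    ∃ i j θ, i < r ∧ j < 2 * r ∧ α i ≤ θ ∧ θ ≤ α (i + 1) ∧ α j ≤ θ + 2 * π ∧ θ + 2 * π ≤ α (j + 1) ∧
      arcH (α i) (α (i + 1)) (τ i) (τ (i + 1)) θ =
      arcH (α j) (α (j + 1)) (τ j) (τ (j + 1)) (θ + 2 * π) := by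
  classical
  have hpi := Real.pi_pos
  have hmono : StrictMono α := strictMono_nat_of_lt_succ h1
  have hsin : ∀ k, sin (α (k + 1) - α k) ≠ 0 := by
    intro k
    exact (Real.sin_pos_of_pos_of_lt_pi (by linarith [h1 k]) (by linarith [h2 k])).ne'
  have hwR : (1 : ℝ) ≤ w := by exact_mod_cast hw
  have hex : ∀ θ, ∃ k, θ < α (k + 1) := by
    intro θ
    have hm : ∀ m : ℕ, α (m * r) = α 0 + 2 * π * w * m := by
      intro m
      induction m with
      | zero => simp
      | succ m ih => rw [Nat.succ_mul, h3, ih]; push_cast; ring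
    obtain ⟨m, hm'⟩ := exists_nat_gt ((θ - α 0) / (2 * π * w))
    refine ⟨m * r, ?_⟩
    have : θ < α (m * r) := by
      rw [hm m]
      rw [div_lt_iff₀ (by positivity)] at hm'
      linarith
    exact this.trans (h1 _)
  set f : ℝ → ℝ := fun θ => arcH (α (Nat.find (hex θ))) (α (Nat.find (hex θ) + 1))
    (τ (Nat.find (hex θ))) (τ (Nat.find (hex θ) + 1)) θ with hfdef
  have hf : ∀ k θ, α k ≤ θ → θ ≤ α (k + 1) → f θ = arcH (α k) (α (k + 1)) (τ k) (τ (k + 1)) θ := by
    intro k θ hk1 hk2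
    rcases lt_or_eq_of_le hk2 with h | h
    · have : Nat.find (hex θ) = k := by
        rw [Nat.find_eq_iff]
        refine ⟨h, fun m hm => not_lt.2 ?_⟩
        exact (hmono.monotone (by omega : m + 1 ≤ k)).trans hk1
      simp only [hfdef, this]
    · have : Nat.find (hex θ) = k + 1 := by
        rw [Nat.find_eq_iff]
        refine ⟨by rw [h]; exact h1 _, fun m hm => not_lt.2 ?_⟩
        rw [h]
        exact hmono.monotone (by omega : m + 1 ≤ k + 1)
      simp only [hfdef, this]
      rw [h, arcH_left (hsin _), arcH_right (hsin _)]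
  have hcont : ∀ k, ContinuousOn f (Icc (α 0) (α (k + 1))) := by
    have hc : ∀ k, ContinuousOn f (Icc (α k) (α (k + 1))) := by
      intro k
      refine ((continuous_arcH (α k) (α (k + 1)) (τ k) (τ (k + 1))).continuousOn).congr ?_
      intro θ hθ
      exact hf k θ hθ.1 hθ.2
    intro k
    induction k with
    | zero => exact hc 0
    | succ k ih =>
      have : Icc (α 0) (α (k + 1 + 1)) = Icc (α 0) (α (k + 1)) ∪ Icc (α (k + 1)) (α (k + 1 + 1)) := by
        rw [Icc_union_Icc_eq_Icc (hmono.monotone (by omega)) (h1 _).le]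
      rw [this]
      exact ih.union_of_isClosed (hc _) isClosed_Icc isClosed_Icc
  have hr1 : α r = α 0 + 2 * π * w := by have := h3 0; rwa [zero_add] at this
  have hr2 : α (2 * r) = α r + 2 * π * w := by rw [two_mul]; exact h3 r
  have hfr : f (α r) = f (α 0) := by
    rw [hf r (α r) le_rfl (h1 _).le, hf 0 (α 0) le_rfl (h1 _).le, arcH_left (hsin _),
      arcH_left (hsin _)]
    have := h4 0; rwa [zero_add] at this
  have hmaps : MapsTo (fun θ : ℝ => θ + 2 * π) (Icc (α 0) (α r)) (Icc (α 0) (α (2 * r))) := by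
    intro θ hθ
    refine ⟨by have := hθ.1; show α 0 ≤ θ + 2 * π; linarith, ?_⟩
    have := hθ.2
    show θ + 2 * π ≤ α (2 * r)
    rw [hr2]; nlinarith
  have hc1 : ContinuousOn f (Icc (α 0) (α r)) := by
    have := hcont (r - 1); rwa [Nat.sub_add_cancel hr] at this
  have hc2 : ContinuousOn f (Icc (α 0) (α (2 * r))) := by
    have := hcont (2 * r - 1); rwa [Nat.sub_add_cancel (by omega)] at this
  have hT : ContinuousOn (fun θ => f (θ + 2 * π) - f θ) (Icc (α 0) (α r)) :=
    (hc2.comp (by fun_prop) hmaps).sub hc1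
  have hsum : ∑ k ∈ Finset.range w, (f (α 0 + 2 * π * k + 2 * π) - f (α 0 + 2 * π * k)) = 0 := by
    have e : ∀ m : ℕ, ∑ k ∈ Finset.range m, (f (α 0 + 2 * π * k + 2 * π) - f (α 0 + 2 * π * k)) =
        f (α 0 + 2 * π * m) - f (α 0) := by
      intro m
      induction m with
      | zero => simp
      | succ m ih =>
        rw [Finset.sum_range_succ, ih]
        push_cast
        rw [show α 0 + 2 * π * ((m : ℝ) + 1) = α 0 + 2 * π * m + 2 * π by ring]
        ring
    rw [e w, ← hr1, hfr, sub_self]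
  have hin : ∀ k ∈ Finset.range w, α 0 + 2 * π * k ∈ Icc (α 0) (α r) := by
    intro k hk
    have hk' : (k : ℝ) ≤ w := by exact_mod_cast (Finset.mem_range.1 hk).le
    rw [hr1]
    constructor
    · have : (0 : ℝ) ≤ k := Nat.cast_nonneg _
      nlinarith
    · nlinarith
  obtain ⟨k1, hk1, hp1⟩ : ∃ k ∈ Finset.range w,
      f (α 0 + 2 * π * k + 2 * π) - f (α 0 + 2 * π * k) ≤ 0 := by
    by_contra hcon
    push Not at hcon
    have := Finset.sum_pos hcon ⟨0, Finset.mem_range.2 (by omega)⟩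
    linarith
  obtain ⟨k2, hk2, hp2⟩ : ∃ k ∈ Finset.range w,
      0 ≤ f (α 0 + 2 * π * k + 2 * π) - f (α 0 + 2 * π * k) := by
    by_contra hcon
    push Not at hcon
    have := Finset.sum_neg hcon ⟨0, Finset.mem_range.2 (by omega)⟩
    linarith
  obtain ⟨θ, hθ, hθ0⟩ := isPreconnected_Icc.intermediate_value (hin k1 hk1) (hin k2 hk2) hT
    ⟨hp1, hp2⟩
  have hθ0' : f (θ + 2 * π) = f θ := by
    have : f (θ + 2 * π) - f θ = 0 := hθ0
    linarith
  obtain ⟨i, hi, hi1, hi2⟩ := locate (α := α) (r - 1) θ hθ.1 (by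
    rw [Nat.sub_add_cancel hr]; exact hθ.2)
  obtain ⟨j, hj, hj1, hj2⟩ := locate (α := α) (2 * r - 1) (θ + 2 * π) (hmaps hθ).1 (by
    rw [Nat.sub_add_cancel (by omega)]; exact (hmaps hθ).2)
  refine ⟨i, j, θ, by omega, by omega, hi1, hi2, hj1, hj2, ?_⟩
  rw [← hf i θ hi1 hi2, ← hf j _ hj1 hj2, hθ0']

/-- crossing arcs: an inequality for four unit vectors -/
lemma no_cross {a b x y : E3} {s t s' t' m : ℝ} (ha : inner ℝ a a = (1 : ℝ))
    (hb : inner ℝ b b = (1 : ℝ)) (hx : inner ℝ x x = (1 : ℝ)) (hy : inner ℝ y y = (1 : ℝ))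
    (hs : 0 ≤ s) (ht : 0 ≤ t) (hs' : 0 ≤ s') (ht' : 0 ≤ t') (hst : 0 < s + t) (hst' : 0 < s' + t')
    (he : s • a + t • b = s' • x + t' • y)
    (h1 : inner ℝ a x ≤ m) (h2 : inner ℝ a y ≤ m) (h3 : inner ℝ b x ≤ m) (h4 : inner ℝ b y ≤ m)
    (hab : -1 ≤ inner ℝ a b) (hxy : -1 ≤ inner ℝ x y)
    (hc : 4 * m ^ 2 < (1 + inner ℝ a b) * (1 + inner ℝ x y)) : False := by
  set P := s • a + t • b with hP
  have e1 : inner ℝ P P = s ^ 2 + t ^ 2 + 2 * (s * t) * inner ℝ a b := by
    rw [hP]
    simp only [inner_add_left, inner_add_right, inner_smul_left, inner_smul_right, ha, hb]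
    rw [real_inner_comm a b]
    simp
    ring
  have e2 : inner ℝ P P = s' ^ 2 + t' ^ 2 + 2 * (s' * t') * inner ℝ x y := by
    rw [he]
    simp only [inner_add_left, inner_add_right, inner_smul_left, inner_smul_right, hx, hy]
    rw [real_inner_comm x y]
    simp
    ring
  have e3' : inner ℝ P P = s * s' * inner ℝ a x + s * t' * inner ℝ a y + t * s' * inner ℝ b x +
      t * t' * inner ℝ b y := by
    nth_rewrite 2 [he]
    rw [hP]
    simp only [inner_add_left, inner_add_right, inner_smul_left, inner_smul_right]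
    simp
    ring
  set X := inner ℝ P P with hX
  have b1 : (s + t) ^ 2 * (1 + inner ℝ a b) / 2 ≤ X := by
    rw [e1]
    nlinarith [sq_nonneg (s - t), real_inner_le_norm a b,
      (by
        have h5 : ‖a‖ = 1 := by
          have := real_inner_self_eq_norm_sq a
          nlinarith [norm_nonneg a]
        have h6 : ‖b‖ = 1 := by
          have := real_inner_self_eq_norm_sq b
          nlinarith [norm_nonneg b]
        have := real_inner_le_norm a b
        rw [h5, h6, one_mul] at this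
        have h7 : 0 ≤ 1 - inner ℝ a b := by linarith
        exact mul_nonneg (sq_nonneg (s - t)) h7 : 0 ≤ (s - t) ^ 2 * (1 - inner ℝ a b))]
  have b2 : (s' + t') ^ 2 * (1 + inner ℝ x y) / 2 ≤ X := by
    rw [e2]
    nlinarith [sq_nonneg (s' - t'), real_inner_le_norm x y,
      (by
        have h5 : ‖x‖ = 1 := by
          have := real_inner_self_eq_norm_sq x
          nlinarith [norm_nonneg x]
        have h6 : ‖y‖ = 1 := by
          have := real_inner_self_eq_norm_sq y
          nlinarith [norm_nonneg y]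
        have := real_inner_le_norm x y
        rw [h5, h6, one_mul] at this
        have h7 : 0 ≤ 1 - inner ℝ x y := by linarith
        exact mul_nonneg (sq_nonneg (s' - t')) h7 : 0 ≤ (s' - t') ^ 2 * (1 - inner ℝ x y))]
  have b3 : X ≤ m * ((s + t) * (s' + t')) := by
    rw [e3']
    have q1 := mul_le_mul_of_nonneg_left h1 (mul_nonneg hs hs')
    have q2 := mul_le_mul_of_nonneg_left h2 (mul_nonneg hs ht')
    have q3 := mul_le_mul_of_nonneg_left h3 (mul_nonneg ht hs')
    have q4 := mul_le_mul_of_nonneg_left h4 (mul_nonneg ht ht')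
    nlinarith
  have hA : 0 ≤ (s + t) ^ 2 * (1 + inner ℝ a b) / 2 := by
    have : 0 ≤ 1 + inner ℝ a b := by linarith
    positivity
  have hB : 0 ≤ (s' + t') ^ 2 * (1 + inner ℝ x y) / 2 := by
    have : 0 ≤ 1 + inner ℝ x y := by linarith
    positivity
  have hX0 : 0 ≤ X := hA.trans b1
  have c1 : (s + t) ^ 2 * (1 + inner ℝ a b) / 2 * ((s' + t') ^ 2 * (1 + inner ℝ x y) / 2) ≤
      X * X := mul_le_mul b1 b2 hB hX0
  have c2 : X * X ≤ (m * ((s + t) * (s' + t'))) * (m * ((s + t) * (s' + t'))) :=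
    mul_le_mul b3 b3 hX0 (hX0.trans b3)
  have c3 : 0 < ((s + t) * (s' + t')) ^ 2 := by positivity
  nlinarith

end Pool.Agent.Helper66.Kiss
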