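import Pool.Agent.Helper66.Kiss.Basic

set_option autoImplicit false

/-! # The ascent lemma and strict potentials on a finite digraph -/

namespace Pool.Agent.Helper66.Kiss

open Real Set Filter Topology

/-- **Ascent lemma.** If near every point outside the open set `T` one can gain a fixed amount of `Φ`
by a path in `Conf`, then every point is joined to a point of `T`. -/
theorem ascent {S : Type*} [TopologicalSpace S] [T2Space S] {A T : Set S} (hA : IsCompact A)
    (hT : IsOpen T) (p : S → Fin 12 → E3) (Φ : S → ℝ) (hp : ∀ x ∈ A, p x ∈ Conf)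
    (hΦ : ContinuousOn Φ A)
    (good : ∀ x ∈ A, x ∉ T → ∃ U ∈ 𝓝 x, ∃ δ > 0, ∀ y ∈ U ∩ A, ∃ z ∈ A,
      JoinedIn Conf (p y) (p z) ∧ Φ y + δ ≤ Φ z) :
    ∀ x ∈ A, ∃ z ∈ A ∩ T, JoinedIn Conf (p x) (p z) := by
  intro x hx
  set R : Set S := {z | z ∈ A ∧ JoinedIn Conf (p x) (p z)} with hR
  have hxR : x ∈ R := ⟨hx, JoinedIn.refl (hp x hx)⟩
  have hcl : closure R ⊆ A := closure_minimal (fun z hz => hz.1) hA.isClosed
  have hK : IsCompact (closure R) := hA.of_isClosed_subset isClosed_closure hcl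
  obtain ⟨Y, hY, hmax⟩ := hK.exists_isMaxOn ⟨x, subset_closure hxR⟩ (hΦ.mono hcl)
  by_cases hYT : Y ∈ T
  · obtain ⟨z, hz1, hz2⟩ := mem_closure_iff.1 hY T hT hYT
    exact ⟨z, ⟨hz2.1, hz1⟩, hz2.2⟩
  · exfalso
    obtain ⟨U, hU, δ, hδ, h⟩ := good Y (hcl hY) hYT
    have h1 : ∀ᶠ y in 𝓝[A] Y, Φ Y - δ < Φ y := by
      have := hΦ Y (hcl hY)
      exact this.eventually (lt_mem_nhds (by linarith))
    have h2 : ∀ᶠ y in 𝓝 Y, y ∈ A → Φ Y - δ < Φ y := by
      rwa [eventually_nhdsWithin_iff] at h1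
    obtain ⟨y, hy, hyR⟩ := mem_closure_iff_nhds.1 hY _ (inter_mem hU h2)
    obtain ⟨z, hzA, hj, hz⟩ := h y ⟨hy.1, hyR.1⟩
    have hzR : z ∈ R := ⟨hzA, hyR.2.trans hj⟩
    have h3 : Φ z ≤ Φ Y := hmax (subset_closure hzR)
    have h4 := hy.2 hyR.1
    linarith

section potential

variable {V : Type*} {E : V → V → Prop} {ρ : V → V → ℝ}

/-- walk in a digraph -/
def GWalk (E : V → V → Prop) (κ : ℕ → V) (r : ℕ) : Prop := ∀ k < r, E (κ k) (κ (k + 1))

/-- total weight of a walk -/
def gtot (ρ : V → V → ℝ) (κ : ℕ → V) (r : ℕ) : ℝ := ∑ k ∈ Finset.range r, ρ (κ k) (κ (k + 1))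

lemma gtot_congr {κ κ' : ℕ → V} {r : ℕ} (h : ∀ i ≤ r, κ i = κ' i) : gtot ρ κ r = gtot ρ κ' r := by
  unfold gtot
  refine Finset.sum_congr rfl fun i hi => ?_
  have := Finset.mem_range.1 hi
  rw [h i (by omega), h (i + 1) (by omega)]

lemma gtot_succ (κ : ℕ → V) (r : ℕ) : gtot ρ κ (r + 1) = gtot ρ κ r + ρ (κ r) (κ (r + 1)) := by
  unfold gtot; rw [Finset.sum_range_succ]

lemma gtot_add (κ : ℕ → V) (r s : ℕ) :
    gtot ρ κ (r + s) = gtot ρ κ r + gtot ρ (fun i => κ (r + i)) s := by
  unfold gtot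
  rw [Finset.sum_range_add]
  simp only [add_assoc]

/-- cutting out a closed part of a walk -/
lemma cut {κ : ℕ → V} {r i d : ℕ} (hκ : GWalk E κ r) (hir : i + d ≤ r)
    (he : κ (i + d) = κ i) : GWalk E (fun k => if k ≤ i then κ k else κ (k + d)) (r - d) ∧
      gtot ρ κ r = gtot ρ (fun k => if k ≤ i then κ k else κ (k + d)) (r - d) +
        gtot ρ (fun k => κ (i + k)) d ∧
      (fun k => if k ≤ i then κ k else κ (k + d)) (r - d) = κ r := by
  set κ' : ℕ → V := fun k => if k ≤ i then κ k else κ (k + d) with hκ'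
  have h1 : ∀ k, k ≤ i → κ' k = κ k := fun k hk => by simp [hκ', hk]
  have h2 : ∀ k, i ≤ k → κ' k = κ (k + d) := by
    intro k hk
    rcases Nat.eq_or_lt_of_le hk with h | h
    · subst h; rw [h1 _ le_rfl, he]
    · simp only [hκ']; rw [if_neg (by omega)]
  refine ⟨?_, ?_, ?_⟩
  · intro k hk
    rcases Nat.lt_or_ge k i with h | h
    · rw [h1 k h.le, h1 (k + 1) h]; exact hκ k (by omega)
    · rw [h2 k h, h2 (k + 1) (by omega), show k + 1 + d = k + d + 1 by ring]
      exact hκ (k + d) (by omega)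
  · obtain ⟨s, rfl⟩ : ∃ s, r = i + d + s := ⟨r - (i + d), by omega⟩
    rw [show i + d + s - d = i + s by omega, gtot_add, gtot_add, gtot_add]
    have e1 : gtot ρ κ' i = gtot ρ κ i := gtot_congr h1
    have e2 : gtot ρ (fun k => κ' (i + k)) s = gtot ρ (fun k => κ (i + d + k)) s := by
      refine gtot_congr fun k _ => ?_
      show κ' (i + k) = κ (i + d + k)
      rw [h2 _ (by omega)]
      congr 1; ring
    rw [e1, e2]; ring
  · show κ' (r - d) = κ r
    rw [h2 _ (by omega)]
    congr 1; omega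

lemma closed_of_simple
    (hs : ∀ (κ : ℕ → V) (r : ℕ), 0 < r → GWalk E κ r → κ r = κ 0 →
      (∀ i < r, ∀ j < r, κ i = κ j → i = j) → gtot ρ κ r ≤ 0) :
    ∀ (r : ℕ) (κ : ℕ → V), GWalk E κ r → κ r = κ 0 → gtot ρ κ r ≤ 0 := by
  intro r
  induction r using Nat.strong_induction_on with
  | _ r ih =>
    intro κ hκ he
    rcases Nat.eq_zero_or_pos r with rfl | hr
    · simp [gtot]
    · by_cases hsim : ∀ i < r, ∀ j < r, κ i = κ j → i = j
      · exact hs κ r hr hκ he hsim
      · push Not at hsim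
        obtain ⟨i, hi, j, hj, hij, hne⟩ := hsim
        have key : ∀ i j, i < j → j < r → κ i = κ j → gtot ρ κ r ≤ 0 := by
          intro i j hij hj heq
          obtain ⟨d, rfl⟩ : ∃ d, j = i + d := ⟨j - i, by omega⟩
          obtain ⟨c1, c2, c3⟩ := cut (ρ := ρ) hκ hj.le heq.symm
          rw [c2]
          have t1 := ih (r - d) (by omega) _ c1 (c3.trans (he.trans (by simp)))
          have t2 := ih d (by omega) (fun k => κ (i + k)) (fun k hk => hκ (i + k) (by omega)) (by
            show κ (i + d) = κ (i + 0)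
            rw [← heq]; rfl)
          linarith
        rcases Nat.lt_or_gt_of_ne hne with h | h
        · exact key i j h hj hij
        · exact key j i h hi hij.symm

lemma walk_bound [Fintype V] {C : ℝ} (hC : ∀ i j, ρ i j ≤ C) (hC0 : 0 ≤ C)
    (hcl : ∀ (r : ℕ) (κ : ℕ → V), GWalk E κ r → κ r = κ 0 → gtot ρ κ r ≤ 0) :
    ∀ (r : ℕ) (κ : ℕ → V), GWalk E κ r → gtot ρ κ r ≤ Fintype.card V * C := by
  intro r
  induction r using Nat.strong_induction_on with
  | _ r ih =>
    intro κ hκ
    rcases Nat.lt_or_ge (Fintype.card V) r with hr | hr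
    · obtain ⟨x, hx, y, hy, hxy, hf⟩ := Finset.exists_ne_map_eq_of_card_lt_of_maps_to
        (s := Finset.range r) (t := (Finset.univ : Finset V)) (f := κ) (by simpa using hr)
        (fun a _ => Finset.mem_univ _)
      rw [Finset.mem_range] at hx hy
      have key : ∀ i j, i < j → j < r → κ i = κ j → gtot ρ κ r ≤ Fintype.card V * C := by
        intro i j hij hj heq
        obtain ⟨d, rfl⟩ : ∃ d, j = i + d := ⟨j - i, by omega⟩
        obtain ⟨c1, c2, c3⟩ := cut (ρ := ρ) hκ hj.le heq.symm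
        rw [c2]
        have t1 := ih (r - d) (by omega) _ c1
        have t2 := hcl d (fun k => κ (i + k)) (fun k hk => hκ (i + k) (by omega)) (by
          show κ (i + d) = κ (i + 0)
          rw [← heq]; rfl)
        linarith
      rcases Nat.lt_or_gt_of_ne hxy with h | h
      · exact key x y h hy hf
      · exact key y x h hx hf.symm
    · unfold gtot
      calc _ ≤ ∑ _k ∈ Finset.range r, C := Finset.sum_le_sum fun k _ => hC _ _
        _ = r * C := by simp
        _ ≤ Fintype.card V * C := mul_le_mul_of_nonneg_right (by exact_mod_cast hr) hC0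

/-- weak potentials -/
lemma weak_potential [Fintype V]
    (hcl : ∀ (r : ℕ) (κ : ℕ → V), GWalk E κ r → κ r = κ 0 → gtot ρ κ r ≤ 0) :
    ∃ ψ : V → ℝ, ∀ i j, E i j → ρ i j ≤ ψ j - ψ i := by
  classical
  obtain ⟨C, hC0, hC⟩ : ∃ C, 0 ≤ C ∧ ∀ i j, ρ i j ≤ C := by
    refine ⟨∑ i, ∑ j, |ρ i j|, Finset.sum_nonneg fun i _ => Finset.sum_nonneg fun j _ => abs_nonneg _,
      fun i j => ?_⟩
    calc ρ i j ≤ |ρ i j| := le_abs_self _
      _ ≤ ∑ j, |ρ i j| := Finset.single_le_sum (f := fun j => |ρ i j|) (fun j _ => abs_nonneg _)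
          (Finset.mem_univ j)
      _ ≤ _ := Finset.single_le_sum (f := fun i => ∑ j, |ρ i j|)
          (fun i _ => Finset.sum_nonneg fun j _ => abs_nonneg _) (Finset.mem_univ i)
  have hb := walk_bound hC hC0 hcl
  set S : V → Set ℝ := fun j => {x | ∃ (r : ℕ) (κ : ℕ → V), GWalk E κ r ∧ κ r = j ∧ gtot ρ κ r = x}
    with hS
  have hbd : ∀ j, BddAbove (S j) := by
    intro j
    refine ⟨Fintype.card V * C, ?_⟩
    rintro x ⟨r, κ, h1, -, rfl⟩
    exact hb r κ h1
  have hne : ∀ j, (S j).Nonempty := fun j => ⟨0, 0, fun _ => j, fun k hk => absurd hk (by omega), rfl,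
    by simp [gtot]⟩
  refine ⟨fun j => sSup (S j), fun i j hij => ?_⟩
  have : sSup (S i) ≤ sSup (S j) - ρ i j := by
    refine csSup_le (hne i) ?_
    rintro x ⟨r, κ, h1, h2, rfl⟩
    have h3 : gtot ρ κ r + ρ i j ∈ S j := by
      refine ⟨r + 1, fun k => if k ≤ r then κ k else j, ?_, by simp, ?_⟩
      · intro k hk
        rcases Nat.lt_or_ge k r with h | h
        · simp only [h.le, if_true, Nat.succ_le_of_lt h]
          exact h1 k h
        · have : k = r := by omega
          subst this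
          simp only [le_refl, if_true, Nat.succ_le_iff, lt_irrefl, if_false, h2]
          exact hij
      · rw [gtot_succ]
        have e1 : gtot ρ (fun k => if k ≤ r then κ k else j) r = gtot ρ κ r :=
          gtot_congr (fun k hk => by simp [hk])
        rw [e1]
        simp [h2]
    have := le_csSup (hbd j) h3
    linarith
  linarith

/-- **Strict potentials.** -/
theorem strict_potential [Fintype V] [Nonempty V]
    (hs : ∀ (κ : ℕ → V) (r : ℕ), 0 < r → GWalk E κ r → κ r = κ 0 →
      (∀ i < r, ∀ j < r, κ i = κ j → i = j) → gtot ρ κ r < 0) :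
    ∃ ψ : V → ℝ, ∀ i j, E i j → ρ i j < ψ j - ψ i := by
  classical
  set n := Fintype.card V with hn
  -- finitely many simple closed walks
  set T : Fin (n + 1) × (Fin (n + 1) → V) → ℝ := fun p =>
    gtot ρ (fun k => p.2 ⟨min k n, by omega⟩) p.1.val with hT
  have hev : ∀ᶠ ε in 𝓝[>] (0 : ℝ), ∀ p, T p < 0 → T p + n * ε < 0 := by
    rw [eventually_all]
    intro p
    by_cases hp : T p < 0
    · have : ∀ᶠ ε in 𝓝 (0 : ℝ), T p + n * ε < 0 := by
        refine ContinuousAt.eventually_lt (f := fun ε : ℝ => T p + n * ε) (g := fun _ => (0 : ℝ))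
          (by fun_prop) continuousAt_const ?_
        simpa using hp
      filter_upwards [mem_nhdsWithin_of_mem_nhds this] with ε hε _ using hε
    · exact Eventually.of_forall fun ε h => absurd h hp
  obtain ⟨ε, hε1, hε0⟩ := (hev.and self_mem_nhdsWithin).exists
  have hε0' : 0 < ε := hε0
  obtain ⟨ψ, hψ⟩ := weak_potential (E := E) (ρ := fun i j => ρ i j + ε) (closed_of_simple (by
    intro κ r hr hκ he hsim
    have hrn : r ≤ n := by
      have : (Finset.range r).card ≤ (Finset.univ : Finset V).card :=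
        Finset.card_le_card_of_injOn κ (fun _ _ => Finset.mem_coe.2 (Finset.mem_univ _)) (by
          intro i hi j hj hij
          exact hsim i (by simpa using hi) j (by simpa using hj) hij)
      simpa [hn] using this
    have h1 := hs κ r hr hκ he hsim
    have h2 : T (⟨r, by omega⟩, fun k => κ k.val) = gtot ρ κ r := by
      simp only [hT]
      refine gtot_congr fun i hi => ?_
      simp only [min_eq_left (hi.trans hrn)]
    have h3 := hε1 (⟨r, by omega⟩, fun k => κ k.val) (by rw [h2]; exact h1)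
    rw [h2] at h3
    have h4 : gtot (fun i j => ρ i j + ε) κ r = gtot ρ κ r + r * ε := by
      unfold gtot; rw [Finset.sum_add_distrib]; simp
    rw [h4]
    have h5 : (r : ℝ) * ε ≤ n * ε := mul_le_mul_of_nonneg_right (by exact_mod_cast hrn) hε0'.le
    linarith))
  exact ⟨ψ, fun i j hij => by have := hψ i j hij; linarith⟩

end potential

end Pool.Agent.Helper66.Kiss
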