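import Pool.Agent.Helper66.Kiss.NoTight
import Pool.Agent.Helper66.Kiss.Potential

set_option autoImplicit false

/-! # Longitude velocities from height velocities -/

namespace Pool.Agent.Helper66.Kiss

open Real Set Filter Topology

/-- numerator of the rate of the least longitude difference -/
noncomputable def nr (z w v v' : ℝ) : ℝ :=
  (w - z / 2) * v / (1 - z ^ 2) + (z - w / 2) * v' / (1 - w ^ 2)

/-- denominator of the rate -/
noncomputable def rt (z w : ℝ) : ℝ := √(3 / 4 - z ^ 2 - w ^ 2 + z * w)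

/-- rate of the least longitude difference when the heights move with velocities `v`, `v'` -/
noncomputable def rate (z w v v' : ℝ) : ℝ := nr z w v v' / rt z w

lemma nr_comm (z w v v' : ℝ) : nr z w v v' = nr w z v' v := by unfold nr; ring

lemma rt_comm (z w : ℝ) : rt z w = rt w z := by unfold rt; congr 1; ring

lemma gg_comm (z w a b : ℝ) : gg z w a b = gg w z b a := by
  unfold gg; rw [← cos_neg (a - b)]; ring_nf

/-- east contacts -/
def East {n : ℕ} (z φ : Fin n → ℝ) (i j : Fin n) : Prop :=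
  gg (z i) (z j) (φ i) (φ j) = 1 / 2 ∧ 0 < sin (φ j - φ i)

lemma east_facts {z w a b : ℝ} (hz : -1 < z ∧ z ≤ 1 / 2) (hw : -1 < w ∧ w ≤ 1 / 2)
    (h : gg z w a b = 1 / 2) (hs : 0 < sin (b - a)) :
    cos (b - a) = (1 / 2 - z * w) / (√(1 - z ^ 2) * √(1 - w ^ 2)) ∧
    √(1 - z ^ 2) * √(1 - w ^ 2) * sin (b - a) = rt z w ∧ 0 < rt z w ∧
    cos (wd z w) = cos (b - a) ∧ sin (wd z w) = sin (b - a) ∧ 0 < wd z w ∧ wd z w < π ∧
    -(√(1 - z ^ 2) * √(1 - w ^ 2)) ≤ 1 / 2 - z * w := by
  have h1 := sqrt_pos_of hz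
  have h2 := sqrt_pos_of hw
  have h3 := mul_pos h1 h2
  have s1 : √(1 - z ^ 2) ^ 2 = 1 - z ^ 2 := Real.sq_sqrt (by nlinarith [hz.1, hz.2])
  have s2 : √(1 - w ^ 2) ^ 2 = 1 - w ^ 2 := Real.sq_sqrt (by nlinarith [hw.1, hw.2])
  have hcos : √(1 - z ^ 2) * √(1 - w ^ 2) * cos (b - a) = 1 / 2 - z * w := by
    unfold gg at h; rw [← cos_neg, neg_sub] at h; linarith
  have e1 : cos (b - a) = (1 / 2 - z * w) / (√(1 - z ^ 2) * √(1 - w ^ 2)) := by
    rw [eq_div_iff h3.ne']; linarith
  have e2 : √(1 - z ^ 2) * √(1 - w ^ 2) * sin (b - a) = rt z w := by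
    unfold rt
    symm
    rw [Real.sqrt_eq_iff_mul_self_eq_of_pos (by positivity)]
    have h5 := sin_sq_add_cos_sq (b - a)
    have h6 : (√(1 - z ^ 2) * √(1 - w ^ 2) * cos (b - a)) ^ 2 = (1 / 2 - z * w) ^ 2 := by rw [hcos]
    have h7 : (√(1 - z ^ 2) * √(1 - w ^ 2)) ^ 2 = (1 - z ^ 2) * (1 - w ^ 2) := by
      rw [mul_pow, s1, s2]
    nlinarith
  have e3 : 0 < rt z w := by rw [← e2]; positivity
  have hle1 := Real.cos_le_one (b - a)
  have hle2 := Real.neg_one_le_cos (b - a)
  have e4 : cos (wd z w) = cos (b - a) := by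
    unfold wd; rw [← e1]; exact Real.cos_arccos hle2 hle1
  have e5 : sin (wd z w) = sin (b - a) := by
    unfold wd; rw [← e1, Real.sin_arccos, ← Real.sin_sq, Real.sqrt_sq hs.le]
  refine ⟨e1, e2, e3, e4, e5, ?_, ?_, ?_⟩
  · rcases (wd_nonneg z w).eq_or_lt with h8 | h8
    · rw [← h8, sin_zero] at e5; linarith
    · exact h8
  · have h9 : wd z w ≤ π := Real.arccos_le_pi _
    rcases h9.eq_or_lt with h8 | h8
    · rw [h8, sin_pi] at e5; linarith
    · exact h8
  · nlinarith

/-- **Direction lemma.** -/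
theorem exists_psi {n : ℕ} [NeZero n] {z φ v : Fin n → ℝ} (hz : ∀ i, -1 < z i ∧ z i ≤ 1 / 2)
    (hin : ∀ i j, i ≠ j → gg (z i) (z j) (φ i) (φ j) ≤ 1 / 2)
    (hvert : ∀ i j, i ≠ j → gg (z i) (z j) (φ i) (φ j) = 1 / 2 → sin (φ j - φ i) = 0 →
      nr (z i) (z j) (v i) (v j) < 0)
    (hcyc : ∀ (κ : ℕ → Fin n) (r : ℕ), 0 < r → (∀ i < r, ∀ j < r, κ i = κ j → i = j) →
      κ r = κ 0 → (∀ k < r, East z φ (κ k) (κ (k + 1))) →
      ∑ k ∈ Finset.range r, wd (z (κ k)) (z (κ (k + 1))) = 2 * π →
      ∑ k ∈ Finset.range r, rate (z (κ k)) (z (κ (k + 1))) (v (κ k)) (v (κ (k + 1))) < 0) :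
    ∃ ψ : Fin n → ℝ, ∀ i j, i ≠ j → gg (z i) (z j) (φ i) (φ j) = 1 / 2 →
      nr (z i) (z j) (v i) (v j) -
        √(1 - z i ^ 2) * √(1 - z j ^ 2) * sin (φ i - φ j) * (ψ i - ψ j) < 0 := by
  have hpi := Real.pi_pos
  obtain ⟨ψ, hψ⟩ := strict_potential (E := East z φ)
    (ρ := fun i j => rate (z i) (z j) (v i) (v j)) (by
    intro κ r hr hκ he hsim
    refine hcyc κ r hr hsim he hκ ?_
    -- the total width is a positive multiple of 2π
    set D : ℕ → ℝ := fun k => wd (z (κ k)) (z (κ (k + 1))) with hD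
    have hfac := fun k (hk : k < r) => east_facts (hz (κ k)) (hz (κ (k + 1))) (hκ k hk).1 (hκ k hk).2
    have hstep : ∀ k, k < r → ∃ m : ℤ, φ (κ (k + 1)) - φ (κ k) = D k + 2 * π * m := by
      intro k hk
      obtain ⟨-, -, -, hc, hs, -⟩ := hfac k hk
      have : (φ (κ (k + 1)) - φ (κ k) : Real.Angle) = (D k : Real.Angle) := by
        rw [← Real.Angle.coe_sub]
        exact Real.Angle.cos_sin_inj hc.symm hs.symm
      rw [← Real.Angle.coe_sub, Real.Angle.angle_eq_iff_two_pi_dvd_sub] at this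
      obtain ⟨m, hm⟩ := this
      exact ⟨m, by linarith⟩
    have hsum : ∀ k, k ≤ r → ∃ m : ℤ, φ (κ k) = φ (κ 0) + ∑ i ∈ Finset.range k, D i + 2 * π * m := by
      intro k
      induction k with
      | zero => intro _; exact ⟨0, by simp⟩
      | succ k ih =>
        intro hk
        obtain ⟨m, hm⟩ := ih (by omega)
        obtain ⟨m', hm'⟩ := hstep k (by omega)
        refine ⟨m + m', ?_⟩
        rw [Finset.sum_range_succ]
        push_cast
        linarith
    obtain ⟨m, hm⟩ := hsum r le_rfl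
    rw [he] at hm
    have hmul : ∑ i ∈ Finset.range r, D i = 2 * π * (-m : ℤ) := by push_cast; linarith
    have hpos : 0 < ∑ i ∈ Finset.range r, D i := by
      refine Finset.sum_pos (fun k hk => ?_) ⟨0, Finset.mem_range.2 hr⟩
      obtain ⟨-, -, -, -, -, hp, -⟩ := hfac k (Finset.mem_range.1 hk)
      exact hp
    have hm1 : 1 ≤ -m := by
      by_contra hcon
      push Not at hcon
      have : ((-m : ℤ) : ℝ) ≤ 0 := by exact_mod_cast (by omega : -m ≤ 0)
      rw [hmul] at hpos
      nlinarith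
    rcases eq_or_lt_of_le hm1 with h1 | h1
    · rw [← h1] at hmul
      simpa using hmul
    exfalso
    -- winding at least two
    obtain ⟨w, hw⟩ : ∃ w : ℕ, (w : ℤ) = -m := ⟨(-m).toNat, by omega⟩
    have hw2 : 2 ≤ w := by omega
    set P : ℕ → ℝ := fun k => φ (κ 0) + ∑ i ∈ Finset.range (k % r), D i + 2 * π * w * (k / r : ℕ)
      with hP
    have hmod : ∀ k, k % r < r := fun k => Nat.mod_lt _ hr
    have htot : ∑ i ∈ Finset.range r, D i = 2 * π * w := by
      rw [hmul, ← hw]; push_cast; ring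
    have hsucc : ∀ k, P (k + 1) = P k + D (k % r) := by
      intro k
      have a1 := Nat.div_add_mod k r
      rcases Nat.lt_or_ge (k % r + 1) r with h | h
      · have b1 : (k + 1) % r = k % r + 1 := by
          conv_lhs => rw [← a1]
          rw [add_assoc, Nat.mul_add_mod, Nat.mod_eq_of_lt h]
        have b2 : (k + 1) / r = k / r := by
          conv_lhs => rw [← a1]
          rw [add_assoc, Nat.mul_add_div hr, Nat.div_eq_of_lt h, add_zero]
        simp only [hP, b1, b2, Finset.sum_range_succ]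
        ring
      · have h2 : k % r + 1 = r := by have := hmod k; omega
        have b1 : (k + 1) % r = 0 := by
          conv_lhs => rw [← a1]
          rw [add_assoc, h2, Nat.mul_add_mod, Nat.mod_self]
        have b2 : (k + 1) / r = k / r + 1 := by
          conv_lhs => rw [← a1]
          rw [add_assoc, h2, Nat.mul_add_div hr, Nat.div_self hr]
        have b3 : ∑ i ∈ Finset.range (k % r), D i + D (k % r) = 2 * π * w := by
          rw [← Finset.sum_range_succ, h2, htot]
        simp only [hP, b1, b2]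
        push_cast
        simp only [Finset.range_zero, Finset.sum_empty]
        linarith
    have hκs : ∀ k, κ ((k + 1) % r) = κ (k % r + 1) := by
      intro k
      have a1 := Nat.div_add_mod k r
      rcases Nat.lt_or_ge (k % r + 1) r with h | h
      · congr 1
        conv_lhs => rw [← a1]
        rw [add_assoc, Nat.mul_add_mod, Nat.mod_eq_of_lt h]
      · have h2 : k % r + 1 = r := by have := hmod k; omega
        have b1 : (k + 1) % r = 0 := by
          conv_lhs => rw [← a1]
          rw [add_assoc, h2, Nat.mul_add_mod, Nat.mod_self]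
        rw [b1, h2, he]
    refine no_tight_seq (n := n) (r := r) (w := w) (z := z) (φ := φ) (κ := fun k => κ (k % r)) (α := P)
      (D := fun i j => ¬ (East z φ i j ∨ East z φ j i)) hr hw2 hz hin ?_ ?_ ?_ ?_ ?_ ?_ ?_
    · intro i j _ hD
      push Not at hD
      rcases hD with h | h
      · exact (east_facts (hz i) (hz j) h.1 h.2).2.2.2.2.2.2.2
      · have := (east_facts (hz j) (hz i) h.1 h.2).2.2.2.2.2.2.2
        rw [mul_comm (√(1 - z i ^ 2)), mul_comm (z i)]; exact this
    · intro i j _ hD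
      push Not at hD
      have key : ∀ i j, gg (z i) (z j) (φ i) (φ j) = 1 / 2 →
          -(1 / 3) < √(1 - z i ^ 2) * √(1 - z j ^ 2) + z i * z j := by
        intro i j h
        unfold gg at h
        have h1 := mul_pos (sqrt_pos_of (hz i)) (sqrt_pos_of (hz j))
        have h2 := Real.cos_le_one (φ i - φ j)
        nlinarith
      rcases hD with h | h
      · exact key i j h.1
      · have := key j i h.1
        rw [mul_comm (√(1 - z i ^ 2)), mul_comm (z i)]; exact this
    · intro k l
      constructor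
      · intro h; exact hsim _ (hmod k) _ (hmod l) h
      · intro h; show κ (k % r) = κ (l % r); rw [h]
    · intro k
      simp only [hP, Nat.add_mod_right, Nat.add_div_right _ hr]
      push_cast; ring
    · intro k
      obtain ⟨m', hm'⟩ := hsum (k % r) (hmod k).le
      refine ⟨w * (k / r : ℕ) - m', ?_⟩
      show P k = φ (κ (k % r)) + _
      rw [hm']
      simp only [hP]
      generalize (k / r) = q
      push_cast
      ring
    · intro k
      show P (k + 1) - P k = wd (z (κ (k % r))) (z (κ ((k + 1) % r)))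
      rw [hsucc, hκs]
      simp [hD]
    · intro k
      simp only [not_not]
      left
      show East z φ (κ (k % r)) (κ ((k + 1) % r))
      rw [hκs]
      exact hκ _ (hmod k))
  refine ⟨ψ, fun i j hij hc => ?_⟩
  have key : ∀ i j, i ≠ j → gg (z i) (z j) (φ i) (φ j) = 1 / 2 → 0 < sin (φ j - φ i) →
      nr (z i) (z j) (v i) (v j) -
        √(1 - z i ^ 2) * √(1 - z j ^ 2) * sin (φ i - φ j) * (ψ i - ψ j) < 0 := by
    intro i j hij hc hs
    obtain ⟨-, e2, e3, -⟩ := east_facts (hz i) (hz j) hc hs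
    have h1 := hψ i j ⟨hc, hs⟩
    unfold rate at h1
    rw [div_lt_iff₀ e3] at h1
    have h2 : sin (φ i - φ j) = - sin (φ j - φ i) := by rw [← sin_neg, neg_sub]
    rw [h2]
    have : √(1 - z i ^ 2) * √(1 - z j ^ 2) * -sin (φ j - φ i) * (ψ i - ψ j) =
      rt (z i) (z j) * (ψ j - ψ i) := by rw [← e2]; ring
    rw [this]
    linarith
  rcases lt_trichotomy 0 (sin (φ j - φ i)) with h | h | h
  · exact key i j hij hc h
  · have h2 : sin (φ i - φ j) = 0 := by rw [← neg_sub, sin_neg, ← h, neg_zero]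
    rw [h2, mul_zero, zero_mul, sub_zero]
    exact hvert i j hij hc h.symm
  · have h3 := key j i hij.symm (by rw [gg_comm]; exact hc) (by
      rw [← neg_sub, sin_neg]; linarith)
    rw [nr_comm]
    have h4 : sin (φ i - φ j) = - sin (φ j - φ i) := by rw [← sin_neg, neg_sub]
    rw [h4]
    linarith

end Pool.Agent.Helper66.Kiss
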