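import Pool.Agent.Helper91.Kiss.PoleFun

set_option autoImplicit false

/-! # The leaves of the certificate: computation -/

namespace Pool.Agent.Helper66.Kiss.Dl

open Pool.Agent.Helper98.DL Pool.Agent.Helper66.Kiss Pool.Agent.Helper91.Kiss

/-! ## the functional check -/

/-- velocity times `q`, with the offset -/
def sgK (v q : ℕ) : ℕ := Nat.sub (Nat.add 1099511627776 (Nat.mul v q)) (Nat.mul 32768 q)

/-- lower bound -/
noncomputable def lbK (v m M : ℕ) : ℕ := cb (Nat.ble 32768 v) (sgK v m) (sgK v M)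

/-- upper bound -/
noncomputable def ubK (v m M : ℕ) : ℕ := cb (Nat.ble 32768 v) (sgK v M) (sgK v m)

/-- the smaller of two numbers -/
noncomputable def mnK (a b : ℕ) : ℕ := fz a fun a => fz b fun b => cb (Nat.ble a b) a b

/-- lower speed of a member -/
noncomputable def aK (X v m M : ℕ) : ℕ :=
  cb (Nat.ble 6144 X) (cb (Nat.ble v 32768) (lbK v m M) 1099511627776) (lbK v m M)

/-- lower speed of minus the penalty -/
noncomputable def bK (x X v w m M : ℕ) : ℕ :=
  cb (Nat.ble 2049 x) (Nat.sub 2199023255552 (ubK v m M))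
    (cb (Nat.ble X 2047) (lbK w m M)
      (mnK (mnK (Nat.sub 2199023255552 (ubK v m M)) (lbK w m M))
        (mnK (lbK v m M) (Nat.sub 2199023255552 (ubK w m M)))))

/-- contribution of a node -/
noncomputable def cK (T0 T1 tt x X a b : ℕ) : ℕ :=
  cb (Nat.ble (Nat.succ T1) x) (Nat.sub (Nat.add a 3298534883328) (Nat.add b tt))
    (cb (Nat.ble (Nat.succ X) T0) 2199023255552
      (mnK 2199023255552 (Nat.sub (Nat.add a 3298534883328) (Nat.add b tt))))

/-- all data of a node, from the ends of the cell and the velocities -/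
noncomputable def nodK (T0 T1 tt x X v w : ℕ) : ℕ :=
  fz (Nat.mul x (Nat.sub 8192 x)) fun qx => fz (Nat.mul X (Nat.sub 8192 X)) fun qX =>
  fz (cb (Nat.ble qx qX) qx qX) fun m =>
  fz (cb (Nat.ble 4096 X) (cb (Nat.ble x 4096) 16777216 qx) qX) fun M =>
  fz (aK X v m M) fun a => fz (bK x X v w m M) fun b =>
  Nat.add (Nat.add b (cK T0 T1 tt x X a b))
    (Nat.add (cb (Nat.ble T0 x) 281474976710656 0) (cb (Nat.ble (Nat.succ T1) X) 4503599627370496 0))

/-- all data of a node, from its number -/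
noncomputable def nodN (T0 T1 tt n : ℕ) : ℕ :=
  fz (Nat.add 1280 (Nat.mul 16 (Nat.mod (ndc n) 512))) fun x =>
  fz (Nat.add 1280 (Nat.mul 16 (Nat.div (ndc n) 512))) fun X =>
  fz (ndp n) fun v => fz (ndq n) fun w => cb (Nat.ble w 65535) (nodK T0 T1 tt x X v w)
    27021597764222976

/-- the sum over the nodes -/
noncomputable def sumK (T0 T1 tt L D r : ℕ) : ℕ :=
  Nat.add (nodN T0 T1 tt (nd L D r 0)) (Nat.add (nodN T0 T1 tt (nd L D r 1))
  (Nat.add (nodN T0 T1 tt (nd L D r 2)) (Nat.add (nodN T0 T1 tt (nd L D r 3))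
  (Nat.add (nodN T0 T1 tt (nd L D r 4)) (Nat.add (nodN T0 T1 tt (nd L D r 5))
  (Nat.add (nodN T0 T1 tt (nd L D r 6)) (Nat.add (nodN T0 T1 tt (nd L D r 7))
  (Nat.add (nodN T0 T1 tt (nd L D r 8)) (nodN T0 T1 tt (nd L D r 9))))))))))

/-- **the functional check**; `E` has the thresholds `T0`, `T1` and the threshold velocity -/
noncomputable def funC (L D r E : ℕ) : Bool :=
  fz (Nat.mod E 65536) fun T0 => fz (Nat.mod (Nat.div E 65536) 65536) fun T1 =>
  fz (Nat.add 549755813888 (Nat.mul 16777216 (Nat.mod (Nat.div E 4294967296) 65536))) fun tt =>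
  fz (sumK T0 T1 tt L D r) fun S =>
  cb (Nat.ble 2049 T0) (cb (Nat.ble 5 (Nat.mod (Nat.div S 281474976710656) 16))
    (cb (Nat.ble (Nat.div S 4503599627370496) 5)
      (Nat.ble (Nat.succ 38482906972160) (Nat.add (Nat.mod S 281474976710656) (Nat.mul 5 tt)))
      false) false) false

/-! ## the other leaves -/

/-- sum over the ten nodes of a function of the two ends of the cell -/
noncomputable def sum10 (F : ℕ → ℕ → ℕ → ℕ) (L : ℕ) : ℕ :=
  Nat.add (fz (fdK L 2) fun g => F 1 (Nat.mod g 65536) (Nat.div g 65536))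
  (Nat.add (fz (fdK L 3) fun g => F 2 (Nat.mod g 65536) (Nat.div g 65536))
  (Nat.add (fz (fdK L 4) fun g => F 3 (Nat.mod g 65536) (Nat.div g 65536))
  (Nat.add (fz (fdK L 5) fun g => F 4 (Nat.mod g 65536) (Nat.div g 65536))
  (Nat.add (fz (fdK L 6) fun g => F 5 (Nat.mod g 65536) (Nat.div g 65536))
  (Nat.add (fz (fdK L 7) fun g => F 6 (Nat.mod g 65536) (Nat.div g 65536))
  (Nat.add (fz (fdK L 8) fun g => F 7 (Nat.mod g 65536) (Nat.div g 65536))
  (Nat.add (fz (fdK L 9) fun g => F 8 (Nat.mod g 65536) (Nat.div g 65536))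
  (Nat.add (fz (fdK L 10) fun g => F 9 (Nat.mod g 65536) (Nat.div g 65536))
    (fz (fdK L 11) fun g => F 10 (Nat.mod g 65536) (Nat.div g 65536))))))))))

/-- weight of a class -/
noncomputable def r1w (_k a b : ℕ) : ℕ :=
  cb (Nat.ble 6096 a) 256 (cb (Nat.ble 3840 a) (cb (Nat.ble b 4352) 1 16777216)
    (cb (Nat.ble 2000 a) (cb (Nat.ble b 2096) 65536 16777216) 16777216))

/-- the box of the two packings -/
noncomputable def r1C (L : ℕ) : Bool :=
  cb (Nat.ble (Nat.div (fdK L 1) 65536) 33503) (Nat.beq (sum10 r1w L) 263170) false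

/-- weight of a class, leaf `J2` -/
noncomputable def j2w (_k a b : ℕ) : ℕ :=
  cb (Nat.ble 6080 a) 1 (cb (Nat.ble b 2112) 256 65536)

/-- five points at the upper ring and five points at the lower ring -/
noncomputable def j2C (L : ℕ) : Bool :=
  cb (Nat.ble (Nat.div (fdK L 1) 65536) 32804) (Nat.beq (sum10 j2w L) 1285) false

/-- the point is a lower point -/
def lowP (b k : ℕ) : Bool := Nat.beq (Nat.mod (Nat.add k b) 2) 0

/-- largest upper end of the lower points -/
noncomputable def j1m (b L : ℕ) : ℕ :=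
  mx (cb (lowP b 1) (Nat.div (fdK L 2) 65536) 0) (mx (cb (lowP b 2) (Nat.div (fdK L 3) 65536) 0)
  (mx (cb (lowP b 3) (Nat.div (fdK L 4) 65536) 0) (mx (cb (lowP b 4) (Nat.div (fdK L 5) 65536) 0)
  (mx (cb (lowP b 5) (Nat.div (fdK L 6) 65536) 0) (mx (cb (lowP b 6) (Nat.div (fdK L 7) 65536) 0)
  (mx (cb (lowP b 7) (Nat.div (fdK L 8) 65536) 0) (mx (cb (lowP b 8) (Nat.div (fdK L 9) 65536) 0)
  (mx (cb (lowP b 9) (Nat.div (fdK L 10) 65536) 0)
    (cb (lowP b 10) (Nat.div (fdK L 11) 65536) 0)))))))))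

/-- weight of a node: zero if it is as it should be -/
noncomputable def j1w (b c k x X : ℕ) : ℕ :=
  cb (lowP b k) (cb (Nat.ble X c) 0 1) (cb (Nat.ble (Nat.add c 3669) x) 0 1)

/-- alternating points, fixed parity -/
noncomputable def j1B (b L : ℕ) : Bool :=
  fz (mx 2147 (j1m b L)) fun c => cb (Nat.ble c 2280) (Nat.beq (sum10 (j1w b c) L) 0) false

/-- alternating points -/
noncomputable def j1C (L : ℕ) : Bool :=
  cb (Nat.ble (Nat.div (fdK L 1) 65536) 32808) (cb (j1B 0 L) true (j1B 1 L)) false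

/-- **all leaves** -/
noncomputable def dlAll (L _f D r : ℕ) : Bool :=
  nb (Nat.mod r 8)
    (cb (Nat.ble 1 (bk1 L)) (cb (Nat.ble 1 (pK D)) (dleaf L D r) false) false)
  fun m => nb m
    (fz (Nat.div D 281474976710656) fun D' => cb (funC L D' r (Nat.mod D 281474976710656))
      (cb (Nat.ble 1 (bk1 L)) (dleaf L D' r) (cb (dleaf L D' r) (poleL L D' r) false)) false)
  fun m => nb m (r1C L) fun m => nb m (j1C L) fun m => nb m (j2C L) fun _ => false

end Pool.Agent.Helper66.Kiss.Dl
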