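import Pool.Agent.Helper66.Kiss.FunR

set_option autoImplicit false

/-! # The functional check of a direction leaf, kernel part

The constants are parameters: `k2 = 2 u`, `k4 = 4 u`, `k6 = 6 u` with `u = 2^39`. -/

namespace Pool.Agent.Helper66.Kiss

open Real

/-- `2^24 (1 - z^2)` for the height `z = x / 4096 - 1` -/
def qC (x : ℕ) : ℕ := x * (8192 - x)

/-- the least value of `qC` over a cell -/
def qm (x X : ℕ) : ℕ := cond (Nat.ble (qC x) (qC X)) (qC x) (qC X)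

/-- the largest value of `qC` over a cell -/
def qM (x X : ℕ) : ℕ :=
  cond (Nat.ble 4096 X) (cond (Nat.ble x 4096) 16777216 (qC x)) (qC X)

/-- velocity times `q`, with the offset `k2`; the velocity has the offset `2^15` -/
def sgN (k2 v q : ℕ) : ℕ := k2 + v * q - 32768 * q

/-- lower bound of velocity times `q`, with the offset `k2` -/
def lbN (k2 v m M : ℕ) : ℕ := cond (Nat.ble 32768 v) (sgN k2 v m) (sgN k2 v M)

/-- upper bound of velocity times `q`, with the offset `k2` -/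
def ubN (k2 v m M : ℕ) : ℕ := cond (Nat.ble 32768 v) (sgN k2 v M) (sgN k2 v m)

/-- lower speed of a member, with the offset `k2` -/
def aN (k2 X v m M : ℕ) : ℕ :=
  cond (Nat.ble 6144 X) (cond (Nat.ble v 32768) (lbN k2 v m M) k2) (lbN k2 v m M)

/-- the smaller of two numbers -/
def mnN (a b : ℕ) : ℕ := cond (Nat.ble a b) a b

/-- lower speed of minus the penalty, with the offset `k2` -/
def bN (k2 k4 x X v w m M : ℕ) : ℕ :=
  cond (Nat.ble 2049 x) (k4 - ubN k2 v m M)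
    (cond (Nat.ble X 2047) (lbN k2 w m M)
      (mnN (mnN (k4 - ubN k2 v m M) (lbN k2 w m M)) (mnN (lbN k2 v m M) (k4 - ubN k2 w m M))))

/-- contribution of a node; `tt = k2 + τ` -/
def cN (k4 k6 T0 T1 tt x X a b : ℕ) : ℕ :=
  cond (Nat.blt T1 x) (a + k6 - (b + tt))
    (cond (Nat.blt X T0) k4 (mnN k4 (a + k6 - (b + tt))))

/-- all data of a node -/
def nodeN (k2 k4 k6 k60 k64 T0 T1 tt x X v w : ℕ) : ℕ :=
  bN k2 k4 x X v w (qm x X) (qM x X) +
    cN k4 k6 T0 T1 tt x X (aN k2 X v (qm x X) (qM x X)) (bN k2 k4 x X v w (qm x X) (qM x X)) +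
    (cond (Nat.ble T0 x) k60 0 + cond (Nat.blt T1 X) k64 0)

lemma cond_cases {α : Type} {P : α → Prop} {c : Bool} {a b : α} (h1 : c = true → P a)
    (h2 : c = false → P b) : P (cond c a b) := by
  cases c
  · exact h2 rfl
  · exact h1 rfl

lemma ble_false {a b : ℕ} (h : Nat.ble a b = false) : b < a := by
  by_contra hc
  push Not at hc
  rw [Nat.ble_eq_true_of_le hc] at h
  exact absurd h (by simp)

lemma ble_true {a b : ℕ} (h : Nat.ble a b = true) : a ≤ b := Nat.le_of_ble_eq_true h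

lemma blt_false {a b : ℕ} (h : Nat.blt a b = false) : b ≤ a := Nat.lt_succ_iff.1 (ble_false h)

lemma blt_true {a b : ℕ} (h : Nat.blt a b = true) : a < b := ble_true h

lemma qC_real {x : ℕ} (h : x ≤ 8192) : (qC x : ℝ) = 2 ^ 24 * (1 - ((x : ℝ) / 4096 - 1) ^ 2) := by
  unfold qC
  rw [Nat.cast_mul, Nat.cast_sub h]
  push_cast
  ring

lemma qC_le (x : ℕ) : (qC x : ℝ) ≤ 2 ^ 24 := by
  rcases Nat.lt_or_ge 8192 x with h | h
  · unfold qC
    rw [Nat.sub_eq_zero_of_le h.le, Nat.mul_zero]; norm_num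
  · rw [qC_real h]
    nlinarith [sq_nonneg ((x : ℝ) / 4096 - 1)]

lemma qm_le (x X : ℕ) : (qm x X : ℝ) ≤ qC x ∧ (qm x X : ℝ) ≤ qC X := by
  unfold qm
  refine cond_cases (P := fun n : ℕ => (n : ℝ) ≤ qC x ∧ (n : ℝ) ≤ qC X) (fun h => ?_) (fun h => ?_)
  · exact ⟨le_rfl, by exact_mod_cast ble_true h⟩
  · exact ⟨by exact_mod_cast (ble_false h).le, le_rfl⟩

lemma qM_le (x X : ℕ) : (qM x X : ℝ) ≤ 2 ^ 24 := by
  unfold qM
  refine cond_cases (P := fun n : ℕ => (n : ℝ) ≤ 2 ^ 24) (fun h => ?_) (fun h => qC_le X)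
  refine cond_cases (P := fun n : ℕ => (n : ℝ) ≤ 2 ^ 24) (fun h => ?_) (fun h => qC_le x)
  norm_num

/-- the bounds are valid in the cell -/
lemma q_bounds {x X : ℕ} (hX : X ≤ 6144) {z : ℝ} (h1 : (x : ℝ) / 4096 - 1 ≤ z)
    (h2 : z ≤ (X : ℝ) / 4096 - 1) :
    (qm x X : ℝ) ≤ 2 ^ 24 * (1 - z ^ 2) ∧ 2 ^ 24 * (1 - z ^ 2) ≤ qM x X := by
  have hxX : (x : ℝ) ≤ X := by linarith
  have hxX' : x ≤ X := by exact_mod_cast hxX
  have ex := qC_real (x := x) (by omega)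
  have eX := qC_real (x := X) (by omega)
  constructor
  · obtain ⟨hm1, hm2⟩ := qm_le x X
    rw [ex] at hm1
    rw [eX] at hm2
    -- concavity
    rcases eq_or_lt_of_le (h1.trans h2) with h | h
    · have : z = (x : ℝ) / 4096 - 1 := le_antisymm (by rw [h]; exact h2) h1
      rw [this]; exact hm1
    · by_contra hcon
      push Not at hcon
      nlinarith [mul_nonneg (sub_nonneg.2 h1) (sub_nonneg.2 h2)]
  · unfold qM
    refine cond_cases (P := fun n : ℕ => 2 ^ 24 * (1 - z ^ 2) ≤ (n : ℝ)) (fun h => ?_) (fun h => ?_)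
    · refine cond_cases (P := fun n : ℕ => 2 ^ 24 * (1 - z ^ 2) ≤ (n : ℝ)) (fun h => ?_)
        (fun h => ?_)
      · push_cast
        nlinarith [sq_nonneg z]
      · have h4 : (4096 : ℝ) < x := by exact_mod_cast ble_false h
        rw [ex]
        nlinarith
    · have h4 : (X : ℝ) < 4096 := by exact_mod_cast ble_false h
      rw [eX]
      nlinarith

section

variable {k2 k4 k6 u : ℕ}

lemma sgN_real {v q : ℕ} (h2 : k2 = 2 * u) (hq : 32768 * q ≤ u) :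
    (sgN k2 v q : ℝ) = k2 + ((v : ℝ) - 32768) * q := by
  unfold sgN
  have h3 : 32768 * q ≤ k2 + v * q := by
    have := Nat.zero_le (v * q)
    omega
  rw [Nat.cast_sub h3]
  push_cast
  ring

lemma sgN_range {v q : ℕ} (h2 : k2 = 2 * u) (hv : v < 65536) (hq : 32768 * q ≤ u) :
    u ≤ sgN k2 v q ∧ sgN k2 v q ≤ 3 * u := by
  unfold sgN
  have h3 : v * q ≤ 65536 * q := Nat.mul_le_mul_right _ hv.le
  generalize v * q = n at *
  omega

lemma lbN_range {v m M : ℕ} (h2 : k2 = 2 * u) (hv : v < 65536) (hm : 32768 * m ≤ u)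
    (hM : 32768 * M ≤ u) : u ≤ lbN k2 v m M ∧ lbN k2 v m M ≤ 3 * u := by
  unfold lbN
  exact cond_cases (P := fun n : ℕ => u ≤ n ∧ n ≤ 3 * u) (fun _ => sgN_range h2 hv hm)
    (fun _ => sgN_range h2 hv hM)

lemma ubN_range {v m M : ℕ} (h2 : k2 = 2 * u) (hv : v < 65536) (hm : 32768 * m ≤ u)
    (hM : 32768 * M ≤ u) : u ≤ ubN k2 v m M ∧ ubN k2 v m M ≤ 3 * u := by
  unfold ubN
  exact cond_cases (P := fun n : ℕ => u ≤ n ∧ n ≤ 3 * u) (fun _ => sgN_range h2 hv hM)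
    (fun _ => sgN_range h2 hv hm)

/-- real value of a number with the offset `k2` -/
noncomputable def rv (k2 n : ℕ) : ℝ := ((n : ℝ) - k2) / 2 ^ 37

lemma rv_sg {v q : ℕ} (h2 : k2 = 2 * u) (hq : 32768 * q ≤ u) : rv k2 (sgN k2 v q) =
    (((v : ℝ) - 32768) / 8192) * ((q : ℝ) / 2 ^ 24) := by
  unfold rv; rw [sgN_real h2 hq]; ring

lemma rv_lb {v m M : ℕ} (h2 : k2 = 2 * u) (hm : 32768 * m ≤ u) (hM : 32768 * M ≤ u) :
    rv k2 (lbN k2 v m M) =
    lbq ((m : ℝ) / 2 ^ 24) ((M : ℝ) / 2 ^ 24) (((v : ℝ) - 32768) / 8192) := by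
  unfold lbN
  refine cond_cases (P := fun n : ℕ => rv k2 n =
    lbq ((m : ℝ) / 2 ^ 24) ((M : ℝ) / 2 ^ 24) (((v : ℝ) - 32768) / 8192)) (fun h => ?_) (fun h => ?_)
  · have h3 : (32768 : ℝ) ≤ v := by exact_mod_cast ble_true h
    rw [rv_sg h2 hm]
    unfold lbq
    rw [if_pos (div_nonneg (by linarith) (by norm_num))]
  · have h3 : (v : ℝ) < 32768 := by exact_mod_cast ble_false h
    rw [rv_sg h2 hM]
    unfold lbq
    rw [if_neg (by rw [not_le]; exact div_neg_of_neg_of_pos (by linarith) (by norm_num))]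

lemma rv_ub' {v m M : ℕ} (h2 : k2 = 2 * u) (hm : 32768 * m ≤ u) (hM : 32768 * M ≤ u) :
    rv k2 (ubN k2 v m M) =
    ubq ((m : ℝ) / 2 ^ 24) ((M : ℝ) / 2 ^ 24) (((v : ℝ) - 32768) / 8192) := by
  unfold ubN
  refine cond_cases (P := fun n : ℕ => rv k2 n =
    ubq ((m : ℝ) / 2 ^ 24) ((M : ℝ) / 2 ^ 24) (((v : ℝ) - 32768) / 8192)) (fun h => ?_) (fun h => ?_)
  · have h3 : (32768 : ℝ) ≤ v := by exact_mod_cast ble_true h
    rw [rv_sg h2 hM]
    unfold ubq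
    rw [if_pos (div_nonneg (by linarith) (by norm_num))]
  · have h3 : (v : ℝ) < 32768 := by exact_mod_cast ble_false h
    rw [rv_sg h2 hm]
    unfold ubq
    rw [if_neg (by rw [not_le]; exact div_neg_of_neg_of_pos (by linarith) (by norm_num))]

lemma rv_ub {v m M : ℕ} (h2 : k2 = 2 * u) (h4 : k4 = 4 * u) (hv : v < 65536)
    (hm : 32768 * m ≤ u) (hM : 32768 * M ≤ u) : rv k2 (k4 - ubN k2 v m M) =
    -ubq ((m : ℝ) / 2 ^ 24) ((M : ℝ) / 2 ^ 24) (((v : ℝ) - 32768) / 8192) := by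
  have h := ubN_range h2 hv hm hM
  rw [← rv_ub' h2 hm hM]
  unfold rv
  rw [Nat.cast_sub (by omega), h4, h2]
  push_cast
  ring

lemma rv_min (a b : ℕ) : rv k2 (mnN a b) = min (rv k2 a) (rv k2 b) := by
  have hp : (0 : ℝ) < 2 ^ 37 := by positivity
  unfold mnN
  refine cond_cases (P := fun n : ℕ => rv k2 n = min (rv k2 a) (rv k2 b)) (fun h => ?_)
    (fun h => ?_)
  · have h3 : (a : ℝ) ≤ b := by exact_mod_cast ble_true h
    rw [min_eq_left]
    exact div_le_div_of_nonneg_right (by linarith) hp.le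
  · have h3 : (b : ℝ) ≤ a := by exact_mod_cast (ble_false h).le
    rw [min_eq_right]
    exact div_le_div_of_nonneg_right (by linarith) hp.le

lemma mnN_range {a b l r : ℕ} (ha : l ≤ a ∧ a ≤ r) (hb : l ≤ b ∧ b ≤ r) :
    l ≤ mnN a b ∧ mnN a b ≤ r := by
  unfold mnN
  exact cond_cases (P := fun n : ℕ => l ≤ n ∧ n ≤ r) (fun _ => ha) (fun _ => hb)

lemma mnN_le (a b : ℕ) : mnN a b ≤ a ∧ mnN a b ≤ b := by
  unfold mnN
  exact cond_cases (P := fun n : ℕ => n ≤ a ∧ n ≤ b) (fun h => ⟨le_rfl, ble_true h⟩)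
    (fun h => ⟨(ble_false h).le, le_rfl⟩)

/-- the unit is large enough -/
lemma unit_ok {n : ℕ} (hu : u = 2 ^ 39) (hn : (n : ℝ) ≤ 2 ^ 24) : 32768 * n ≤ u := by
  have : n ≤ 2 ^ 24 := by exact_mod_cast hn
  rw [hu]
  calc 32768 * n ≤ 32768 * 2 ^ 24 := Nat.mul_le_mul_left _ this
    _ = 2 ^ 39 := by norm_num

lemma qm_ok (hu : u = 2 ^ 39) (x X : ℕ) : 32768 * qm x X ≤ u :=
  unit_ok hu ((qm_le x X).1.trans (qC_le x))

lemma qM_ok (hu : u = 2 ^ 39) (x X : ℕ) : 32768 * qM x X ≤ u := unit_ok hu (qM_le x X)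

variable {x X v w : ℕ} {z : ℝ}

lemma q_real (hX : X ≤ 6144) (h1 : (x : ℝ) / 4096 - 1 ≤ z) (h2 : z ≤ (X : ℝ) / 4096 - 1) :
    (qm x X : ℝ) / 2 ^ 24 ≤ 1 - z ^ 2 ∧ 1 - z ^ 2 ≤ (qM x X : ℝ) / 2 ^ 24 := by
  have h := q_bounds hX h1 h2
  have hp : (0 : ℝ) < 2 ^ 24 := by positivity
  exact ⟨by rw [div_le_iff₀ hp]; linarith [h.1], by rw [le_div_iff₀ hp]; linarith [h.2]⟩

lemma aN_spec (hu : u = 2 ^ 39) (e2 : k2 = 2 * u) (hX : X ≤ 6144) (h1 : (x : ℝ) / 4096 - 1 ≤ z)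
    (h2 : z ≤ (X : ℝ) / 4096 - 1) (hz : -(1 / 2) < z) :
    rv k2 (aN k2 X v (qm x X) (qM x X)) ≤
      hLo (((v : ℝ) - 32768) / 8192) (((w : ℝ) - 32768) / 8192) z := by
  have hq := q_real hX h1 h2
  have hX' : (X : ℝ) ≤ 6144 := by exact_mod_cast hX
  have key : z < 1 / 2 ∨ ((v : ℝ) - 32768) / 8192 ≤ 0 →
      rv k2 (lbN k2 v (qm x X) (qM x X)) ≤
      hLo (((v : ℝ) - 32768) / 8192) (((w : ℝ) - 32768) / 8192) z := by
    intro h
    rw [rv_lb e2 (qm_ok hu x X) (qM_ok hu x X)]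
    exact hLo_ge hq.1 hq.2 hz h
  unfold aN
  refine cond_cases (P := fun n : ℕ => rv k2 n ≤
    hLo (((v : ℝ) - 32768) / 8192) (((w : ℝ) - 32768) / 8192) z) (fun _ => ?_) (fun h => ?_)
  · refine cond_cases (P := fun n : ℕ => rv k2 n ≤
      hLo (((v : ℝ) - 32768) / 8192) (((w : ℝ) - 32768) / 8192) z) (fun h => ?_) (fun h => ?_)
    · apply key
      right
      have h4 : (v : ℝ) ≤ 32768 := by exact_mod_cast ble_true h
      exact div_nonpos_of_nonpos_of_nonneg (by linarith) (by norm_num)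
    · have h4 : (32768 : ℝ) < v := by exact_mod_cast ble_false h
      have : rv k2 k2 = 0 := by unfold rv; rw [sub_self, zero_div]
      rw [this]
      exact hLo_wall hz (by linarith) (div_nonneg (by linarith) (by norm_num))
  · apply key
    left
    have h4 : (X : ℝ) < 6144 := by exact_mod_cast ble_false h
    linarith

lemma bN_spec (hu : u = 2 ^ 39) (e2 : k2 = 2 * u) (e4 : k4 = 4 * u) (hv : v < 65536)
    (hw : w < 65536) (hX : X ≤ 6144) (h1 : (x : ℝ) / 4096 - 1 ≤ z)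
    (h2 : z ≤ (X : ℝ) / 4096 - 1) :
    rv k2 (bN k2 k4 x X v w (qm x X) (qM x X)) ≤
      bB (((v : ℝ) - 32768) / 8192) (((w : ℝ) - 32768) / 8192) z := by
  have hq := q_real hX h1 h2
  have hm := qm_ok hu x X
  have hM := qM_ok hu x X
  unfold bN
  refine cond_cases (P := fun n : ℕ => rv k2 n ≤
    bB (((v : ℝ) - 32768) / 8192) (((w : ℝ) - 32768) / 8192) z) (fun h => ?_) (fun _ => ?_)
  · have h4 : (2049 : ℝ) ≤ x := by exact_mod_cast ble_true h
    rw [rv_ub e2 e4 hv hm hM]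
    exact bB_hi hq.1 hq.2 (by linarith)
  refine cond_cases (P := fun n : ℕ => rv k2 n ≤
    bB (((v : ℝ) - 32768) / 8192) (((w : ℝ) - 32768) / 8192) z) (fun h => ?_) (fun _ => ?_)
  · have h4 : (X : ℝ) ≤ 2047 := by exact_mod_cast ble_true h
    rw [rv_lb e2 hm hM]
    exact bB_lo hq.1 hq.2 (by linarith)
  · rw [rv_min, rv_min, rv_min, rv_ub e2 e4 hv hm hM, rv_ub e2 e4 hw hm hM, rv_lb e2 hm hM,
      rv_lb e2 hm hM]
    exact bB_any hq.1 hq.2

lemma aN_range (hu : u = 2 ^ 39) (e2 : k2 = 2 * u) (hv : v < 65536) (x : ℕ) :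
    u ≤ aN k2 X v (qm x X) (qM x X) ∧ aN k2 X v (qm x X) (qM x X) ≤ 3 * u := by
  have h := lbN_range e2 hv (qm_ok hu x X) (qM_ok hu x X)
  unfold aN
  refine cond_cases (P := fun n : ℕ => u ≤ n ∧ n ≤ 3 * u) (fun _ => ?_) (fun _ => h)
  exact cond_cases (P := fun n : ℕ => u ≤ n ∧ n ≤ 3 * u) (fun _ => h) (fun _ => by omega)

lemma bN_range (hu : u = 2 ^ 39) (e2 : k2 = 2 * u) (e4 : k4 = 4 * u) (hv : v < 65536)
    (hw : w < 65536) : u ≤ bN k2 k4 x X v w (qm x X) (qM x X) ∧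
    bN k2 k4 x X v w (qm x X) (qM x X) ≤ 3 * u := by
  have a1 := lbN_range e2 hv (qm_ok hu x X) (qM_ok hu x X)
  have a2 := lbN_range e2 hw (qm_ok hu x X) (qM_ok hu x X)
  have a3 := ubN_range e2 hv (qm_ok hu x X) (qM_ok hu x X)
  have a4 := ubN_range e2 hw (qm_ok hu x X) (qM_ok hu x X)
  have a5 : u ≤ k4 - ubN k2 v (qm x X) (qM x X) ∧ k4 - ubN k2 v (qm x X) (qM x X) ≤ 3 * u := by
    omega
  have a6 : u ≤ k4 - ubN k2 w (qm x X) (qM x X) ∧ k4 - ubN k2 w (qm x X) (qM x X) ≤ 3 * u := by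
    omega
  unfold bN
  refine cond_cases (P := fun n : ℕ => u ≤ n ∧ n ≤ 3 * u) (fun _ => a5) (fun _ => ?_)
  refine cond_cases (P := fun n : ℕ => u ≤ n ∧ n ≤ 3 * u) (fun _ => a2) (fun _ => ?_)
  exact mnN_range (mnN_range a5 a2) (mnN_range a1 a6)

/-- the contribution of a node to the sum of the constants -/
lemma cN_spec {T0 T1 tt a b : ℕ} (e2 : k2 = 2 * u) (e4 : k4 = 4 * u) (e6 : k6 = 6 * u)
    (htt : tt ≤ 3 * u) (ha : u ≤ a ∧ a ≤ 3 * u) (hb : u ≤ b ∧ b ≤ 3 * u) :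
    cN k4 k6 T0 T1 tt x X a b ≤ 9 * u ∧
    ((T1 < x ∧ ((cN k4 k6 T0 T1 tt x X a b : ℝ) - k4) / 2 ^ 37 ≤ rv k2 a - rv k2 b - rv k2 tt) ∨
      (X < T0 ∧ ((cN k4 k6 T0 T1 tt x X a b : ℝ) - k4) / 2 ^ 37 ≤ 0) ∨
      (((cN k4 k6 T0 T1 tt x X a b : ℝ) - k4) / 2 ^ 37 ≤ 0 ∧
        ((cN k4 k6 T0 T1 tt x X a b : ℝ) - k4) / 2 ^ 37 ≤ rv k2 a - rv k2 b - rv k2 tt)) := by
  have hp : (0 : ℝ) < 2 ^ 37 := by positivity
  have e1 : (((a + k6 - (b + tt) : ℕ) : ℝ) - k4) / 2 ^ 37 = rv k2 a - rv k2 b - rv k2 tt := by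
    rw [Nat.cast_sub (by omega), e6, e4]
    unfold rv
    rw [e2]
    push_cast
    ring
  unfold cN
  refine cond_cases (P := fun n : ℕ => n ≤ 9 * u ∧
    ((T1 < x ∧ ((n : ℝ) - k4) / 2 ^ 37 ≤ rv k2 a - rv k2 b - rv k2 tt) ∨
      (X < T0 ∧ ((n : ℝ) - k4) / 2 ^ 37 ≤ 0) ∨
      (((n : ℝ) - k4) / 2 ^ 37 ≤ 0 ∧ ((n : ℝ) - k4) / 2 ^ 37 ≤ rv k2 a - rv k2 b - rv k2 tt)))
    (fun h => ⟨by omega, Or.inl ⟨blt_true h, e1.le⟩⟩) (fun _ => ?_)
  refine cond_cases (P := fun n : ℕ => n ≤ 9 * u ∧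
    ((T1 < x ∧ ((n : ℝ) - k4) / 2 ^ 37 ≤ rv k2 a - rv k2 b - rv k2 tt) ∨
      (X < T0 ∧ ((n : ℝ) - k4) / 2 ^ 37 ≤ 0) ∨
      (((n : ℝ) - k4) / 2 ^ 37 ≤ 0 ∧ ((n : ℝ) - k4) / 2 ^ 37 ≤ rv k2 a - rv k2 b - rv k2 tt)))
    (fun h => ⟨by omega, Or.inr (Or.inl ⟨blt_true h, by rw [sub_self, zero_div]⟩)⟩) (fun _ => ?_)
  obtain ⟨m1, m2⟩ := mnN_le k4 (a + k6 - (b + tt))
  refine ⟨by omega, Or.inr (Or.inr ⟨?_, ?_⟩)⟩
  · have : ((mnN k4 (a + k6 - (b + tt)) : ℕ) : ℝ) ≤ k4 := by exact_mod_cast m1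
    exact div_nonpos_of_nonpos_of_nonneg (by linarith) hp.le
  · rw [← e1]
    have : ((mnN k4 (a + k6 - (b + tt)) : ℕ) : ℝ) ≤ ((a + k6 - (b + tt) : ℕ) : ℝ) := by
      exact_mod_cast m2
    exact div_le_div_of_nonneg_right (by linarith) hp.le

end

/-- **soundness of the functional check** -/
theorem func_of_nodes {z : Fin 11 → ℝ} {x X v w : Fin 10 → ℕ} {k2 k4 k6 k60 k64 u T0 T1 tt : ℕ}
    (hu : u = 2 ^ 39) (e2 : k2 = 2 * u) (e4 : k4 = 4 * u) (e6 : k6 = 6 * u)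
    (e60 : 512 * u ≤ k60) (e64 : k64 = 16 * k60)
    (htt3 : tt ≤ 3 * u)
    (hv : ∀ l, v l < 65536) (hw : ∀ l, w l < 65536) (hX : ∀ l, X l ≤ 6144)
    (hz : ∀ l : Fin 10, (x l : ℝ) / 4096 - 1 ≤ z l.succ ∧ z l.succ ≤ (X l : ℝ) / 4096 - 1)
    {S : ℕ} (hS : S = ∑ l, nodeN k2 k4 k6 k60 k64 T0 T1 tt (x l) (X l) (v l) (w l))
    (hT : 2048 < T0) (h5 : 5 ≤ S / k60 % 16) (h6 : S / k64 ≤ 5)
    (hpos : 35 * k2 < S % k60 + 5 * tt) :
    (∃ S : Finset (Fin 10), S.card = 5 ∧ ∀ l ∈ S, -(1 / 2) < z l.succ) ∧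
      (∀ U : Finset (Fin 10), U.card = 5 → (∀ i ∈ U, ∀ j, j ∉ U → z j.succ ≤ z i.succ) →
      0 < ∑ l ∈ U, hLo (((v l : ℝ) - 32768) / 8192) (((w l : ℝ) - 32768) / 8192) (z l.succ) +
        ∑ l ∈ Uᶜ, bB (((v l : ℝ) - 32768) / 8192) (((w l : ℝ) - 32768) / 8192) (z l.succ)) := by
  classical
  set a : Fin 10 → ℕ := fun l => aN k2 (X l) (v l) (qm (x l) (X l)) (qM (x l) (X l)) with ha
  set b : Fin 10 → ℕ := fun l => bN k2 k4 (x l) (X l) (v l) (w l) (qm (x l) (X l)) (qM (x l) (X l))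
    with hb
  set c : Fin 10 → ℕ := fun l => cN k4 k6 T0 T1 tt (x l) (X l) (a l) (b l) with hc
  have hcs := fun l => cN_spec (T0 := T0) (T1 := T1) (x := x l) (X := X l) e2 e4 e6 htt3
    (aN_range (X := X l) hu e2 (hv l) (x l))
    (bN_range (x := x l) (X := X l) hu e2 e4 (hv l) (hw l))
  -- the sum in parts
  set p : Fin 10 → ℕ := fun l => if T0 ≤ x l then 1 else 0 with hp
  set r : Fin 10 → ℕ := fun l => if T1 < X l then 1 else 0 with hr
  have hnode : ∀ l, nodeN k2 k4 k6 k60 k64 T0 T1 tt (x l) (X l) (v l) (w l) =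
      b l + c l + (p l * k60 + r l * k64) := by
    intro l
    have e1 : cond (Nat.ble T0 (x l)) k60 0 = p l * k60 := by
      simp only [hp]
      refine cond_cases (P := fun n : ℕ => n = (if T0 ≤ x l then 1 else 0) * k60) (fun h => ?_)
        (fun h => ?_)
      · rw [if_pos (ble_true h), one_mul]
      · rw [if_neg (not_le.2 (ble_false h)), zero_mul]
    have e2 : cond (Nat.blt T1 (X l)) k64 0 = r l * k64 := by
      simp only [hr]
      refine cond_cases (P := fun n : ℕ => n = (if T1 < X l then 1 else 0) * k64) (fun h => ?_)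
        (fun h => ?_)
      · rw [if_pos (blt_true h), one_mul]
      · rw [if_neg (not_lt.2 (blt_false h)), zero_mul]
    unfold nodeN
    rw [e1, e2]
  have hS2 : S = ∑ l, (b l + c l) + ((∑ l, p l) * k60 + (∑ l, r l) * k64) := by
    rw [hS, Finset.sum_mul, Finset.sum_mul, ← Finset.sum_add_distrib, ← Finset.sum_add_distrib]
    exact Finset.sum_congr rfl fun l _ => hnode l
  have hbc : ∑ l, (b l + c l) ≤ 10 * (12 * u) := by
    have : ∑ l : Fin 10, (b l + c l) ≤ ∑ _l : Fin 10, 12 * u := by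
      refine Finset.sum_le_sum fun l _ => ?_
      have h3 : b l ≤ 3 * u := (bN_range (x := x l) (X := X l) hu e2 e4 (hv l) (hw l)).2
      have h4 : c l ≤ 9 * u := (hcs l).1
      omega
    simpa using this
  have hupos : 0 < u := by rw [hu]; positivity
  have hk60 : 0 < k60 := by omega
  have hpc : ∑ l, p l = (Finset.univ.filter fun l => T0 ≤ x l).card := by
    rw [Finset.card_filter]
  have hrc : ∑ l, r l = (Finset.univ.filter fun l => T1 < X l).card := by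
    rw [Finset.card_filter]
  have hp10 : ∑ l, p l ≤ 10 := by
    rw [hpc]; exact (Finset.card_filter_le _ _).trans (by simp)
  generalize hA : ∑ l, (b l + c l) = A at *
  generalize hP : ∑ l, p l = Pn at *
  generalize hR : ∑ l, r l = Rn at *
  have hAlt : A < k60 := by omega
  have hS3 : S = A + k60 * (Pn + 16 * Rn) := by rw [hS2, e64]; ring
  have k1 : S % k60 = A := by
    rw [hS3, Nat.add_mul_mod_self_left]; exact Nat.mod_eq_of_lt hAlt
  have k3 : S / k60 = Pn + 16 * Rn := by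
    rw [hS3, Nat.add_mul_div_left _ _ hk60, Nat.div_eq_of_lt hAlt, zero_add]
  have k2' : S / k60 % 16 = Pn := by rw [k3]; omega
  have k4' : S / k64 = Rn := by
    rw [e64, mul_comm 16 k60, ← Nat.div_div_eq_div_mul, k3]; omega
  rw [k2', hpc] at h5
  rw [k4', hrc] at h6
  rw [k1] at hpos
  have hp37 : (0 : ℝ) < 2 ^ 37 := by positivity
  refine func_check (lo := fun l => (x l : ℝ) / 4096 - 1) (hi := fun l => (X l : ℝ) / 4096 - 1)
    (a := fun l => rv k2 (a l)) (b := fun l => rv k2 (b l))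
    (c := fun l => ((c l : ℝ) - k4) / 2 ^ 37)
    (T0 := (T0 : ℝ) / 4096 - 1) (T1 := (T1 : ℝ) / 4096 - 1) (τ := rv k2 tt)
    hz (fun l hl => aN_spec hu e2 (hX l) (hz l).1 (hz l).2 hl)
    (fun l => bN_spec hu e2 e4 (hv l) (hw l) (hX l) (hz l).1 (hz l).2) ?_ ?_ ?_ ?_ ?_
  · have e : (Finset.univ.filter fun l => T0 ≤ x l) =
        Finset.univ.filter fun l : Fin 10 => (T0 : ℝ) / 4096 - 1 ≤ (x l : ℝ) / 4096 - 1 := by
      ext l
      simp only [Finset.mem_filter, Finset.mem_univ, true_and]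
      constructor
      · intro h
        have : (T0 : ℝ) ≤ x l := by exact_mod_cast h
        linarith
      · intro h
        have : (T0 : ℝ) ≤ x l := by linarith
        exact_mod_cast this
    rw [← e]; exact h5
  · have : (2048 : ℝ) < T0 := by exact_mod_cast hT
    linarith
  · have e : (Finset.univ.filter fun l => T1 < X l) =
        Finset.univ.filter fun l : Fin 10 => (T1 : ℝ) / 4096 - 1 < (X l : ℝ) / 4096 - 1 := by
      ext l
      simp only [Finset.mem_filter, Finset.mem_univ, true_and]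
      constructor
      · intro h
        have : (T1 : ℝ) < X l := by exact_mod_cast h
        linarith
      · intro h
        have : (T1 : ℝ) < X l := by linarith
        exact_mod_cast this
    rw [← e]; exact h6
  · intro l
    rcases (hcs l).2 with ⟨h1, h2⟩ | ⟨h1, h2⟩ | ⟨h1, h2⟩
    · have : (T1 : ℝ) < x l := by exact_mod_cast h1
      exact Or.inl ⟨by linarith, h2⟩
    · have : (X l : ℝ) < T0 := by exact_mod_cast h1
      exact Or.inr (Or.inl ⟨by linarith, h2⟩)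
    · exact Or.inr (Or.inr ⟨h1, h2⟩)
  · have e : ∑ l, rv k2 (b l) + 5 * rv k2 tt + ∑ l, ((c l : ℝ) - k4) / 2 ^ 37 =
        (((∑ l, (b l + c l) + 5 * tt : ℕ) : ℝ) - 35 * k2) / 2 ^ 37 := by
      unfold rv
      rw [← Finset.sum_div, ← Finset.sum_div, Finset.sum_sub_distrib, Finset.sum_sub_distrib]
      push_cast
      rw [Finset.sum_add_distrib, e4, e2]
      simp only [Finset.sum_const, Finset.card_univ, Fintype.card_fin, nsmul_eq_mul]
      push_cast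
      ring
    rw [e, hA]
    have h1 : ((35 * k2 : ℕ) : ℝ) < ((A + 5 * tt : ℕ) : ℝ) := by exact_mod_cast hpos
    push_cast at h1 ⊢
    exact div_pos (by linarith) hp37

end Pool.Agent.Helper66.Kiss
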