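import Pool.Agent.Helper98.DL.DS9
import Pool.Agent.Helper66.Kiss.FunK
import Pool.Agent.Helper66.Kiss.DlC

set_option autoImplicit false

/-! # The leaves of the certificate: soundness of the functional check -/

namespace Pool.Agent.Helper66.Kiss.Dl

open Real Pool.Agent.Helper98.DL Pool.Agent.Helper66.Kiss Pool.Agent.Helper91.Kiss

lemma cb_cond {α : Type} (b : Bool) (x y : α) : cb b x y = cond b x y := by cases b <;> rfl

lemma sgK_eq (v q : ℕ) : sgK v q = sgN 1099511627776 v q := by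
  unfold sgK sgN
  rw [Nat.sub_eq, Nat.add_eq, Nat.mul_eq, Nat.mul_eq]

lemma lbK_eq (v m M : ℕ) : lbK v m M = lbN 1099511627776 v m M := by
  unfold lbK lbN
  rw [cb_cond, sgK_eq, sgK_eq]

lemma ubK_eq (v m M : ℕ) : ubK v m M = ubN 1099511627776 v m M := by
  unfold ubK ubN
  rw [cb_cond, sgK_eq, sgK_eq]

lemma mnK_eq (a b : ℕ) : mnK a b = mnN a b := by
  unfold mnK mnN
  rw [fz_pr, fz_pr, cb_cond]

lemma aK_eq (X v m M : ℕ) : aK X v m M = aN 1099511627776 X v m M := by
  unfold aK aN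
  rw [cb_cond, cb_cond, lbK_eq]

lemma bK_eq (x X v w m M : ℕ) :
    bK x X v w m M = bN 1099511627776 2199023255552 x X v w m M := by
  unfold bK bN
  rw [cb_cond, cb_cond, ubK_eq, lbK_eq, mnK_eq, mnK_eq, mnK_eq, lbK_eq, ubK_eq, Nat.sub_eq,
    Nat.sub_eq]

lemma cK_eq (T0 T1 tt x X a b : ℕ) :
    cK T0 T1 tt x X a b = cN 2199023255552 3298534883328 T0 T1 tt x X a b := by
  unfold cK cN Nat.blt
  rw [cb_cond, cb_cond, mnK_eq, Nat.sub_eq, Nat.add_eq, Nat.add_eq]

lemma nodK_eq (T0 T1 tt x X v w : ℕ) : nodK T0 T1 tt x X v w =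
    nodeN 1099511627776 2199023255552 3298534883328 281474976710656 4503599627370496
      T0 T1 tt x X v w := by
  have e1 : cb (Nat.ble (Nat.mul x (Nat.sub 8192 x)) (Nat.mul X (Nat.sub 8192 X)))
      (Nat.mul x (Nat.sub 8192 x)) (Nat.mul X (Nat.sub 8192 X)) = qm x X := by
    unfold qm qC
    rw [cb_cond, Nat.mul_eq, Nat.mul_eq, Nat.sub_eq, Nat.sub_eq]
  have e2 : cb (Nat.ble 4096 X) (cb (Nat.ble x 4096) 16777216 (Nat.mul x (Nat.sub 8192 x)))
      (Nat.mul X (Nat.sub 8192 X)) = qM x X := by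
    unfold qM qC
    rw [cb_cond, cb_cond, Nat.mul_eq, Nat.mul_eq, Nat.sub_eq, Nat.sub_eq]
  unfold nodK nodeN Nat.blt
  rw [fz_pr, fz_pr, fz_pr, fz_pr, fz_pr, fz_pr, e1, e2, aK_eq, bK_eq, cK_eq, cb_cond, cb_cond,
    Nat.add_eq, Nat.add_eq, Nat.add_eq]

/-- lower end of the cell of a node, as a code -/
noncomputable def xo (n : ℕ) : ℕ := 1280 + 16 * Helper98.DL.lo (ndc n)

/-- upper end of the cell of a node, as a code -/
noncomputable def Xo (n : ℕ) : ℕ := 1280 + 16 * Helper98.DL.hi (ndc n)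

lemma nodN_eq (T0 T1 tt n : ℕ) : nodN T0 T1 tt n = cond (Nat.ble (ndq n) 65535)
    (nodeN 1099511627776 2199023255552 3298534883328 281474976710656 4503599627370496
      T0 T1 tt (xo n) (Xo n) (ndp n) (ndq n)) 27021597764222976 := by
  unfold nodN
  rw [fz_pr, fz_pr, fz_pr, fz_pr, cb_cond, nodK_eq]
  rfl

lemma nodN_spec {T0 T1 tt n : ℕ} (h : nodN T0 T1 tt n < 27021597764222976) : ndq n < 65536 ∧
    nodN T0 T1 tt n = nodeN 1099511627776 2199023255552 3298534883328 281474976710656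
      4503599627370496 T0 T1 tt (xo n) (Xo n) (ndp n) (ndq n) := by
  rw [nodN_eq] at h ⊢
  cases hb : Nat.ble (ndq n) 65535 with
  | true =>
    have := Nat.le_of_ble_eq_true hb
    exact ⟨by omega, rfl⟩
  | false =>
    rw [hb] at h
    exact absurd h (lt_irrefl _)

lemma sum10N (g : ℕ → ℕ) : ∑ l : Fin 10, g l =
    Nat.add (g 0) (Nat.add (g 1) (Nat.add (g 2) (Nat.add (g 3) (Nat.add (g 4)
      (Nat.add (g 5) (Nat.add (g 6) (Nat.add (g 7) (Nat.add (g 8) (g 9))))))))) := by
  rw [Fin.sum_univ_eq_sum_range (fun l => g l) 10]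
  simp only [Finset.sum_range_succ, Finset.sum_range_zero, Nat.add_eq]
  ring

lemma sumK_eq (T0 T1 tt L D r : ℕ) : sumK T0 T1 tt L D r =
    ∑ l : Fin 10, nodN T0 T1 tt (nd L D r l) :=
  (sum10N fun l => nodN T0 T1 tt (nd L D r l)).symm

/-- **soundness of the functional check** -/
theorem funC_sound {L D r E : ℕ} {z : Fin 11 → ℝ} (h : funC L D r E = true)
    (hc : CellOK (Helper98.DL.cL L D r)) (hin : CellIn (Helper98.DL.cL L D r) z) :
    (∃ S : Finset (Fin 10), S.card = 5 ∧ ∀ l ∈ S, -(1 / 2) < z l.succ) ∧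
      (∀ U : Finset (Fin 10), U.card = 5 → (∀ i ∈ U, ∀ j, j ∉ U → z j.succ ≤ z i.succ) →
      0 < ∑ l ∈ U, hLo (lV (1 / 8192) L D r l) (lW (1 / 8192) L D r l) (z l.succ) +
        ∑ l ∈ Uᶜ, bB (lV (1 / 8192) L D r l) (lW (1 / 8192) L D r l) (z l.succ)) := by
  unfold funC at h
  rw [fz_pr, fz_pr, fz_pr, fz_pr, cb_cond, cb_cond, cb_cond] at h
  set T0 := Nat.mod E 65536 with hT0
  set T1 := Nat.mod (Nat.div E 65536) 65536 with hT1
  set tt := Nat.add 549755813888 (Nat.mul 16777216 (Nat.mod (Nat.div E 4294967296) 65536)) with htt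
  set S := sumK T0 T1 tt L D r with hS
  have hcond : ∀ {a b : Bool}, cond a b false = true → a = true ∧ b = true := by
    intro a b h
    cases a
    · exact absurd h (by simp)
    · exact ⟨rfl, h⟩
  obtain ⟨h1, h⟩ := hcond h
  obtain ⟨h2, h⟩ := hcond h
  obtain ⟨h3, h4⟩ := hcond h
  have h1' : 2048 < T0 := Nat.le_of_ble_eq_true h1
  have h2' : 5 ≤ S / 281474976710656 % 16 := Nat.le_of_ble_eq_true h2
  have h3' : S / 4503599627370496 ≤ 5 := Nat.le_of_ble_eq_true h3
  have h4' : 38482906972160 < S % 281474976710656 + 5 * tt := Nat.le_of_ble_eq_true h4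
  clear h1 h2 h3 h4 h
  have htt3 : tt ≤ 1649267441664 := by
    have : Nat.mod (Nat.div E 4294967296) 65536 < 65536 := Nat.mod_lt _ (by norm_num)
    rw [htt, Nat.add_eq, Nat.mul_eq]
    omega
  clear_value T0 T1 tt
  have hsum := sumK_eq T0 T1 tt L D r
  rw [← hS] at hsum
  clear_value S
  have hlt : ∀ l : Fin 10, nodN T0 T1 tt (nd L D r l) < 27021597764222976 := by
    intro l
    have a1 : nodN T0 T1 tt (nd L D r l) ≤ S := by
      rw [hsum]
      exact Finset.single_le_sum (f := fun l : Fin 10 => nodN T0 T1 tt (nd L D r l))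
        (fun _ _ => Nat.zero_le _) (Finset.mem_univ l)
    generalize nodN T0 T1 tt (nd L D r l) = N at a1 ⊢
    omega
  have hq : ∀ l : Fin 10, ndq (nd L D r l) < 65536 := fun l => (nodN_spec (hlt l)).1
  have hS2 : S = ∑ l : Fin 10, nodeN 1099511627776 2199023255552 3298534883328 281474976710656
      4503599627370496 T0 T1 tt (xo (nd L D r l)) (Xo (nd L D r l)) (ndp (nd L D r l))
      (ndq (nd L D r l)) := by
    rw [hsum]
    exact Finset.sum_congr rfl fun l _ => (nodN_spec (hlt l)).2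
  have hcell : ∀ l : Fin 10, Helper98.DL.lo (ndc (nd L D r l)) ≤ Helper98.DL.hi (ndc (nd L D r l)) ∧
      Helper98.DL.hi (ndc (nd L D r l)) ≤ 304 := fun l => hc l (by omega)
  have hX : ∀ l : Fin 10, Xo (nd L D r l) ≤ 6144 := by
    intro l
    have := (hcell l).2
    unfold Xo
    omega
  have key := func_of_nodes (z := z) (x := fun l : Fin 10 => xo (nd L D r l))
    (X := fun l : Fin 10 => Xo (nd L D r l)) (v := fun l : Fin 10 => ndp (nd L D r l))
    (w := fun l : Fin 10 => ndq (nd L D r l)) (k2 := 1099511627776) (k4 := 2199023255552)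
    (k6 := 3298534883328) (k60 := 281474976710656) (k64 := 4503599627370496)
    (u := 549755813888) (T0 := T0) (T1 := T1) (tt := tt) (by norm_num) (by norm_num) (by norm_num)
    (by norm_num) (by norm_num) (by norm_num) (by omega)
    (fun l => Nat.mod_lt _ (by norm_num)) hq hX (fun l => ?_) hS2 h1' h2' h3' (by omega)
  · have eV : ∀ l : Fin 10, ((ndp (nd L D r l) : ℝ) - 32768) / 8192 = lV (1 / 8192) L D r l := by
      intro l
      unfold lV Pool.Agent.Helper65.KR.vel
      ring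
    have eW : ∀ l : Fin 10, ((ndq (nd L D r l) : ℝ) - 32768) / 8192 = lW (1 / 8192) L D r l := by
      intro l
      unfold lW Pool.Agent.Helper65.KR.vel
      ring
    simp only [eV, eW] at key
    exact key
  · have h5 := InC_iff.1 (hin l)
    have e1 : Helper98.DL.cL L D r l = ndc (nd L D r l) := rfl
    rw [e1] at h5
    unfold zz at h5
    unfold xo Xo
    push_cast
    constructor
    · linarith [h5.1]
    · linarith [h5.2]

end Pool.Agent.Helper66.Kiss.Dl
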