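set_option autoImplicit false

/-! # The leaves other than direction leaves: functions for the kernel

No import; the values are passed unevaluated, the branches are written out. -/

namespace Pool.Agent.Helper66.Kiss.DlG

/-- field `k` of a box -/
def fG (L k : Nat) : Nat :=
  Nat.mod (Nat.shiftRight L (Nat.mul (nat_lit 32) k)) (nat_lit 4294967296)

/-- the smaller of two numbers -/
noncomputable def mnG (a b : Nat) : Nat := Bool.rec (motive := fun _ => Nat) b a (Nat.ble a b)

/-- the larger of two numbers -/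
noncomputable def mxG (a b : Nat) : Nat := Bool.rec (motive := fun _ => Nat) a b (Nat.ble a b)

/-- both conditions -/
noncomputable def an (a b : Bool) : Bool := Bool.rec (motive := fun _ => Bool) false b a

/-! ## the functional check -/

/-- velocity times `q`, with the offset -/
def sG (v q : Nat) : Nat :=
  Nat.sub (Nat.add (nat_lit 1099511627776) (Nat.mul v q)) (Nat.mul (nat_lit 32768) q)

/-- lower bound -/
noncomputable def lbG (v m M : Nat) : Nat :=
  sG v (Bool.rec (motive := fun _ => Nat) M m (Nat.ble (nat_lit 32768) v))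

/-- upper bound, negated -/
noncomputable def ubG (v m M : Nat) : Nat :=
  Nat.sub (nat_lit 2199023255552) (sG v (Bool.rec (motive := fun _ => Nat) m M
    (Nat.ble (nat_lit 32768) v)))

/-- sum part -/
noncomputable def nG6 (T0 T1 x X b c : Nat) : Nat :=
  Nat.add (Nat.add b c)
    (Nat.add (Bool.rec (motive := fun _ => Nat) (nat_lit 0) (nat_lit 281474976710656) (Nat.ble T0 x))
      (Bool.rec (motive := fun _ => Nat) (nat_lit 0) (nat_lit 4503599627370496)
        (Nat.ble (Nat.succ T1) X)))

/-- contribution of a node -/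
noncomputable def nG5 (T0 T1 x X b d : Nat) : Nat :=
  nG6 T0 T1 x X b (Bool.rec (motive := fun _ => Nat)
    (Bool.rec (motive := fun _ => Nat) (mnG (nat_lit 2199023255552) d) (nat_lit 2199023255552)
      (Nat.ble (Nat.succ X) T0)) d (Nat.ble (Nat.succ T1) x))

/-- the speeds -/
noncomputable def nG4 (T0 T1 tt x X a b : Nat) : Nat :=
  nG5 T0 T1 x X b (Nat.sub (Nat.add a (nat_lit 3298534883328)) (Nat.add b tt))

/-- penalty at a crossing cell -/
noncomputable def bG2 (v w m M : Nat) : Nat :=
  mnG (mnG (ubG v m M) (lbG w m M)) (mnG (lbG v m M) (ubG w m M))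

/-- penalty -/
noncomputable def bG (x X v w m M : Nat) : Nat :=
  Bool.rec (motive := fun _ => Nat)
    (Bool.rec (motive := fun _ => Nat) (bG2 v w m M) (lbG w m M) (Nat.ble X (nat_lit 2047)))
    (ubG v m M) (Nat.ble (nat_lit 2049) x)

/-- speed -/
noncomputable def aG (X v m M : Nat) : Nat :=
  Bool.rec (motive := fun _ => Nat) (lbG v m M)
    (Bool.rec (motive := fun _ => Nat) (nat_lit 1099511627776) (lbG v m M)
      (Nat.ble v (nat_lit 32768)))
    (Nat.ble (nat_lit 6144) X)

/-- speeds from the bounds of `q` -/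
noncomputable def nG3 (T0 T1 tt x X v w m M : Nat) : Nat :=
  nG4 T0 T1 tt x X (aG X v m M) (bG x X v w m M)

/-- bounds of `q` -/
noncomputable def nG2 (T0 T1 tt x X v w qx qX : Nat) : Nat :=
  nG3 T0 T1 tt x X v w (mnG qx qX)
    (Bool.rec (motive := fun _ => Nat) qX
      (Bool.rec (motive := fun _ => Nat) qx (nat_lit 16777216) (Nat.ble x (nat_lit 4096)))
      (Nat.ble (nat_lit 4096) X))

/-- all data of a node -/
noncomputable def nG1 (T0 T1 tt x X v w : Nat) : Nat :=
  nG2 T0 T1 tt x X v w (Nat.mul x (Nat.sub (nat_lit 8192) x)) (Nat.mul X (Nat.sub (nat_lit 8192) X))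

/-- all data of a node, with the check of the velocity -/
noncomputable def nG0 (T0 T1 tt x X v w : Nat) : Nat :=
  Bool.rec (motive := fun _ => Nat) (nat_lit 27021597764222976) (nG1 T0 T1 tt x X v w)
    (Nat.ble w (nat_lit 65535))

/-- all data of a node, from the cell and the number -/
noncomputable def nodH (T0 T1 tt c n : Nat) : Nat :=
  nG0 T0 T1 tt (Nat.add (nat_lit 1280) (Nat.mul (nat_lit 16) (Nat.mod c (nat_lit 512))))
    (Nat.add (nat_lit 1280) (Nat.mul (nat_lit 16) (Nat.div c (nat_lit 512))))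
    (Nat.mod (Nat.div n (nat_lit 262144)) (nat_lit 65536)) (Nat.div n (nat_lit 17179869184))

/-- all data of a node, from its number -/
noncomputable def nodG (T0 T1 tt n : Nat) : Nat :=
  nodH T0 T1 tt (Nat.mod n (nat_lit 262144)) n

/-- the sum over the nodes -/
noncomputable def sumG (T0 T1 tt n0 n1 n2 n3 n4 n5 n6 n7 n8 n9 : Nat) : Nat :=
  Nat.add (nodG T0 T1 tt n0) (Nat.add (nodG T0 T1 tt n1)
  (Nat.add (nodG T0 T1 tt n2) (Nat.add (nodG T0 T1 tt n3)
  (Nat.add (nodG T0 T1 tt n4) (Nat.add (nodG T0 T1 tt n5)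
  (Nat.add (nodG T0 T1 tt n6) (Nat.add (nodG T0 T1 tt n7)
  (Nat.add (nodG T0 T1 tt n8) (nodG T0 T1 tt n9)))))))))

/-- the conditions -/
noncomputable def funG2 (T0 tt S : Nat) : Bool :=
  Bool.rec (motive := fun _ => Bool) false (Bool.rec (motive := fun _ => Bool) false
    (Bool.rec (motive := fun _ => Bool) false
      (Nat.ble (Nat.succ (nat_lit 38482906972160))
        (Nat.add (Nat.mod S (nat_lit 281474976710656)) (Nat.mul (nat_lit 5) tt)))
      (Nat.ble (Nat.div S (nat_lit 4503599627370496)) (nat_lit 5)))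
    (Nat.ble (nat_lit 5) (Nat.mod (Nat.div S (nat_lit 281474976710656)) (nat_lit 16))))
    (Nat.ble (nat_lit 2049) T0)

/-- the conditions, from the thresholds -/
noncomputable def funG1 (T0 T1 tt n0 n1 n2 n3 n4 n5 n6 n7 n8 n9 : Nat) : Bool :=
  funG2 T0 tt (sumG T0 T1 tt n0 n1 n2 n3 n4 n5 n6 n7 n8 n9)

/-- **the functional check** of ten nodes; `E` has the thresholds `T0`, `T1` and the threshold
velocity -/
noncomputable def funG (E n0 n1 n2 n3 n4 n5 n6 n7 n8 n9 : Nat) : Bool :=
  funG1 (Nat.mod E (nat_lit 65536)) (Nat.mod (Nat.div E (nat_lit 65536)) (nat_lit 65536))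
    (Nat.add (nat_lit 549755813888) (Nat.mul (nat_lit 16777216)
      (Nat.mod (Nat.div E (nat_lit 4294967296)) (nat_lit 65536))))
    n0 n1 n2 n3 n4 n5 n6 n7 n8 n9

/-! ## the other leaves -/

/-- sum over the ten nodes of a function of the field -/
noncomputable def sumW (F : Nat → Nat) (L : Nat) : Nat :=
  Nat.add (F (fG L 2)) (Nat.add (F (fG L 3)) (Nat.add (F (fG L 4)) (Nat.add (F (fG L 5))
  (Nat.add (F (fG L 6)) (Nat.add (F (fG L 7)) (Nat.add (F (fG L 8)) (Nat.add (F (fG L 9))
  (Nat.add (F (fG L 10)) (F (fG L 11))))))))))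

/-- weight of a class, two packings -/
noncomputable def r1G (g : Nat) : Nat :=
  Bool.rec (motive := fun _ => Nat)
    (Bool.rec (motive := fun _ => Nat)
      (Bool.rec (motive := fun _ => Nat) (nat_lit 16777216)
        (Bool.rec (motive := fun _ => Nat) (nat_lit 16777216) (nat_lit 65536)
          (Nat.ble (Nat.div g 65536) 2096))
        (Nat.ble 2000 (Nat.mod g 65536)))
      (Bool.rec (motive := fun _ => Nat) (nat_lit 16777216) (nat_lit 1)
        (Nat.ble (Nat.div g 65536) 4352))
      (Nat.ble 3840 (Nat.mod g 65536)))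
    (nat_lit 256) (Nat.ble 6096 (Nat.mod g 65536))

/-- the box of the two packings -/
noncomputable def r1H (L : Nat) : Bool :=
  an (Nat.ble (Nat.div (fG L 1) 65536) 33503) (Nat.beq (sumW r1G L) 263170)

/-- weight of a class, leaf `J2` -/
noncomputable def j2G (g : Nat) : Nat :=
  Bool.rec (motive := fun _ => Nat)
    (Bool.rec (motive := fun _ => Nat) (nat_lit 65536) (nat_lit 256)
      (Nat.ble (Nat.div g 65536) 2112))
    (nat_lit 1) (Nat.ble 6080 (Nat.mod g 65536))

/-- five points at the upper ring and five points at the lower ring -/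
noncomputable def j2H (L : Nat) : Bool :=
  an (Nat.ble (Nat.div (fG L 1) 65536) 32804) (Nat.beq (sumW j2G L) 1285)

/-- weight of a class, leaf `J3` -/
noncomputable def j3G (g : Nat) : Nat :=
  Bool.rec (motive := fun _ => Nat)
    (Bool.rec (motive := fun _ => Nat)
      (Bool.rec (motive := fun _ => Nat) (nat_lit 16777216) (nat_lit 65536)
        (Nat.ble (Nat.div g 65536) 2096))
      (nat_lit 256) (Nat.ble 6032 (Nat.mod g 65536)))
    (nat_lit 1) (Nat.ble 6112 (Nat.mod g 65536))

/-- four points at the upper ring, one a little lower, and five points at the lower ring -/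
noncomputable def j3H (L : Nat) : Bool :=
  an (Nat.ble (Nat.div (fG L 1) 65536) 32804) (Nat.beq (sumW j3G L) 327940)

/-- the first node is above the last -/
noncomputable def syH (L : Nat) : Bool :=
  Nat.ble (Nat.succ (Nat.div (fG L 11) 65536)) (Nat.mod (fG L 2) 65536)

/-- largest of five upper ends -/
noncomputable def m5 (a b c d e : Nat) : Nat :=
  mxG (Nat.div a 65536) (mxG (Nat.div b 65536) (mxG (Nat.div c 65536)
    (mxG (Nat.div d 65536) (Nat.div e 65536))))

/-- smallest of five lower ends -/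
noncomputable def n5 (a b c d e : Nat) : Nat :=
  mnG (Nat.mod a 65536) (mnG (Nat.mod b 65536) (mnG (Nat.mod c 65536)
    (mnG (Nat.mod d 65536) (Nat.mod e 65536))))

/-- alternating points: largest upper end of the lower points and smallest lower end of the upper
points -/
noncomputable def jT (c d : Nat) : Bool :=
  an (Nat.ble c 2280) (Nat.ble (Nat.add c 3669) d)

/-- alternating points -/
noncomputable def j1G (a0 a1 a2 a3 a4 b0 b1 b2 b3 b4 : Nat) : Bool :=
  jT (mxG 2147 (m5 a0 a1 a2 a3 a4)) (n5 b0 b1 b2 b3 b4)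

/-- alternating points, both parities -/
noncomputable def j1H (L : Nat) : Bool :=
  an (Nat.ble (Nat.div (fG L 1) 65536) 32808)
    (Bool.rec (motive := fun _ => Bool)
      (j1G (fG L 3) (fG L 5) (fG L 7) (fG L 9) (fG L 11) (fG L 2) (fG L 4) (fG L 6) (fG L 8)
        (fG L 10))
      true
      (j1G (fG L 2) (fG L 4) (fG L 6) (fG L 8) (fG L 10) (fG L 3) (fG L 5) (fG L 7) (fG L 9)
        (fG L 11)))

end Pool.Agent.Helper66.Kiss.DlG
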