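import Pool.Agent.Helper66.Kiss.DlG0
import Pool.Agent.Helper66.Kiss.DlC
import Pool.Agent.Helper98.DL.DS1

set_option autoImplicit false

/-! # The leaves other than direction leaves: the functions for the kernel are those of `DlC` -/

namespace Pool.Agent.Helper66.Kiss.DlG

open Pool.Agent.Helper98.DL Pool.Agent.Helper66.Kiss Pool.Agent.Helper91.Kiss
  Pool.Agent.Helper66.Kiss.Dl

lemma fG_eq (L k : ℕ) : fG L k = fdK L k := rfl

lemma an_eq (a b : Bool) : an a b = Helper98.DL.cb a b false := rfl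

lemma mnG_eq (a b : ℕ) : mnG a b = mnK a b := rfl

lemma lbG_eq (v m M : ℕ) : lbG v m M = lbK v m M := by
  unfold lbG lbK Helper98.DL.cb
  cases Nat.ble 32768 v <;> rfl

lemma ubG_eq (v m M : ℕ) : ubG v m M = Nat.sub 2199023255552 (ubK v m M) := by
  unfold ubG ubK Helper98.DL.cb
  cases Nat.ble 32768 v <;> rfl

lemma aG_eq (X v m M : ℕ) : aG X v m M = aK X v m M := by
  unfold aG aK
  rw [lbG_eq]
  rfl

lemma bG_eq (x X v w m M : ℕ) : bG x X v w m M = bK x X v w m M := by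
  unfold bG bK bG2
  rw [lbG_eq, ubG_eq, lbG_eq, ubG_eq, mnG_eq, mnG_eq, mnG_eq]
  rfl

lemma nG4_eq (T0 T1 tt x X a b : ℕ) : nG4 T0 T1 tt x X a b =
    Nat.add (Nat.add b (cK T0 T1 tt x X a b))
      (Nat.add (Helper98.DL.cb (Nat.ble T0 x) 281474976710656 0)
        (Helper98.DL.cb (Nat.ble (Nat.succ T1) X) 4503599627370496 0)) := by
  unfold nG4 nG5 nG6 cK Helper98.DL.cb
  rw [mnG_eq]

lemma nG1_eq (T0 T1 tt x X v w : ℕ) : nG1 T0 T1 tt x X v w = nodK T0 T1 tt x X v w := by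
  unfold nG1 nG2 nG3
  rw [nG4_eq, aG_eq, bG_eq]
  rfl

lemma nodG_eq (T0 T1 tt n : ℕ) : nodG T0 T1 tt n = nodN T0 T1 tt n := by
  unfold nodG nodH nG0
  rw [nG1_eq]
  rfl

/-- the functional check is that of `DlC` -/
theorem funG_eq (L D r E : ℕ) : funG E (nd L D r 0) (nd L D r 1) (nd L D r 2) (nd L D r 3)
    (nd L D r 4) (nd L D r 5) (nd L D r 6) (nd L D r 7) (nd L D r 8) (nd L D r 9) =
    funC L D r E := by
  unfold funG funG1 sumG
  simp only [nodG_eq]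
  rfl

/-! ## the other leaves -/

lemma r1G_eq (k g : ℕ) : r1G g = r1w k (Nat.mod g 65536) (Nat.div g 65536) := rfl

lemma j2G_eq (k g : ℕ) : j2G g = j2w k (Nat.mod g 65536) (Nat.div g 65536) := rfl

theorem r1H_eq (L : ℕ) : r1H L = r1C L := rfl

theorem j2H_eq (L : ℕ) : j2H L = j2C L := rfl

lemma mxG_eq (a b : ℕ) : mxG a b = max a b := by
  unfold mxG
  cases h : Nat.ble a b with
  | true =>
    have := Nat.le_of_ble_eq_true h
    show b = max a b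
    omega
  | false =>
    have : ¬ a ≤ b := fun h' => by
      rw [Nat.ble_eq_true_of_le h'] at h
      exact absurd h (by simp)
    show a = max a b
    omega

lemma mnG_min (a b : ℕ) : mnG a b = min a b := by
  unfold mnG
  cases h : Nat.ble a b with
  | true =>
    have := Nat.le_of_ble_eq_true h
    show a = min a b
    omega
  | false =>
    have : ¬ a ≤ b := fun h' => by
      rw [Nat.ble_eq_true_of_le h'] at h
      exact absurd h (by simp)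
    show b = min a b
    omega

lemma an_true {a b : Bool} (h : an a b = true) : a = true ∧ b = true := by
  cases a
  · exact absurd h (by simp [an])
  · exact ⟨rfl, h⟩

lemma j1w_low {b c k x X : ℕ} (h : lowP b k = true) (hX : X ≤ c) : j1w b c k x X = 0 := by
  unfold j1w
  rw [h, Nat.ble_eq_true_of_le hX]
  rfl

lemma j1w_up {b c k x X : ℕ} (h : lowP b k = false) (hx : c + 3669 ≤ x) : j1w b c k x X = 0 := by
  unfold j1w
  rw [h, Nat.ble_eq_true_of_le (show Nat.add c 3669 ≤ x from hx)]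
  rfl

lemma le5 {a b c d e m : ℕ} (h : m = max 2147 (max a (max b (max c (max d e))))) :
    a ≤ m ∧ b ≤ m ∧ c ≤ m ∧ d ≤ m ∧ e ≤ m := by
  rw [h]
  exact ⟨(le_max_left _ _).trans (le_max_right _ _),
    ((le_max_left _ _).trans (le_max_right _ _)).trans (le_max_right _ _),
    (((le_max_left _ _).trans (le_max_right _ _)).trans (le_max_right _ _)).trans
      (le_max_right _ _),
    ((((le_max_left _ _).trans (le_max_right _ _)).trans (le_max_right _ _)).trans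
      (le_max_right _ _)).trans (le_max_right _ _),
    ((((le_max_right _ _).trans (le_max_right _ _)).trans (le_max_right _ _)).trans
      (le_max_right _ _)).trans (le_max_right _ _)⟩

lemma j1m0 (L : ℕ) : j1m 0 L = max (fdK L 3 / 65536) (max (fdK L 5 / 65536) (max (fdK L 7 / 65536)
    (max (fdK L 9 / 65536) (fdK L 11 / 65536)))) := by
  have e : ∀ x y : ℕ, Helper98.DL.cb (lowP 0 1) x y = y ∧ Helper98.DL.cb (lowP 0 2) x y = x ∧
    Helper98.DL.cb (lowP 0 3) x y = y ∧ Helper98.DL.cb (lowP 0 4) x y = x ∧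
    Helper98.DL.cb (lowP 0 5) x y = y ∧ Helper98.DL.cb (lowP 0 6) x y = x ∧
    Helper98.DL.cb (lowP 0 7) x y = y ∧ Helper98.DL.cb (lowP 0 8) x y = x ∧
    Helper98.DL.cb (lowP 0 9) x y = y ∧ Helper98.DL.cb (lowP 0 10) x y = x := fun x y =>
    ⟨rfl, rfl, rfl, rfl, rfl, rfl, rfl, rfl, rfl, rfl⟩
  unfold j1m
  simp only [(e _ _).1, (e _ _).2.1, (e _ _).2.2.1, (e _ _).2.2.2.1, (e _ _).2.2.2.2.1,
    (e _ _).2.2.2.2.2.1, (e _ _).2.2.2.2.2.2.1, (e _ _).2.2.2.2.2.2.2.1,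
    (e _ _).2.2.2.2.2.2.2.2.1, (e _ _).2.2.2.2.2.2.2.2.2, mx_eq,
    Nat.zero_max, Nat.max_zero]
  rfl

lemma j1m1 (L : ℕ) : j1m 1 L = max (fdK L 2 / 65536) (max (fdK L 4 / 65536) (max (fdK L 6 / 65536)
    (max (fdK L 8 / 65536) (fdK L 10 / 65536)))) := by
  have e : ∀ x y : ℕ, Helper98.DL.cb (lowP 1 1) x y = x ∧ Helper98.DL.cb (lowP 1 2) x y = y ∧
    Helper98.DL.cb (lowP 1 3) x y = x ∧ Helper98.DL.cb (lowP 1 4) x y = y ∧
    Helper98.DL.cb (lowP 1 5) x y = x ∧ Helper98.DL.cb (lowP 1 6) x y = y ∧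
    Helper98.DL.cb (lowP 1 7) x y = x ∧ Helper98.DL.cb (lowP 1 8) x y = y ∧
    Helper98.DL.cb (lowP 1 9) x y = x ∧ Helper98.DL.cb (lowP 1 10) x y = y := fun x y =>
    ⟨rfl, rfl, rfl, rfl, rfl, rfl, rfl, rfl, rfl, rfl⟩
  unfold j1m
  simp only [(e _ _).1, (e _ _).2.1, (e _ _).2.2.1, (e _ _).2.2.2.1, (e _ _).2.2.2.2.1,
    (e _ _).2.2.2.2.2.1, (e _ _).2.2.2.2.2.2.1, (e _ _).2.2.2.2.2.2.2.1,
    (e _ _).2.2.2.2.2.2.2.2.1, (e _ _).2.2.2.2.2.2.2.2.2, mx_eq,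
    Nat.zero_max, Nat.max_zero]
  rfl

/-- the data of `j1G` -/
lemma j1G_spec {a0 a1 a2 a3 a4 b0 b1 b2 b3 b4 : ℕ}
    (h : j1G a0 a1 a2 a3 a4 b0 b1 b2 b3 b4 = true) :
    ∃ c, c = max 2147 (max (a0 / 65536) (max (a1 / 65536) (max (a2 / 65536)
      (max (a3 / 65536) (a4 / 65536))))) ∧ c ≤ 2280 ∧ c + 3669 ≤ b0 % 65536 ∧
      c + 3669 ≤ b1 % 65536 ∧ c + 3669 ≤ b2 % 65536 ∧ c + 3669 ≤ b3 % 65536 ∧
      c + 3669 ≤ b4 % 65536 := by
  unfold j1G jT m5 n5 at h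
  obtain ⟨h1, h2⟩ := an_true h
  have h1 := Nat.le_of_ble_eq_true h1
  have h2 := Nat.le_of_ble_eq_true h2
  simp only [mxG_eq, mnG_min, show ∀ a b : ℕ, Nat.div a b = a / b from fun _ _ => rfl,
    show ∀ a b : ℕ, Nat.mod a b = a % b from fun _ _ => rfl,
    show ∀ a b : ℕ, Nat.add a b = a + b from fun _ _ => rfl] at h1 h2
  have h3 := fun x hx => le_trans h2 (show _ ≤ x from hx)
  exact ⟨_, rfl, h1, h3 _ (min_le_left _ _), h3 _ ((min_le_right _ _).trans (min_le_left _ _)),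
    h3 _ ((min_le_right _ _).trans ((min_le_right _ _).trans (min_le_left _ _))),
    h3 _ ((min_le_right _ _).trans ((min_le_right _ _).trans ((min_le_right _ _).trans
      (min_le_left _ _)))),
    h3 _ ((min_le_right _ _).trans ((min_le_right _ _).trans ((min_le_right _ _).trans
      (min_le_right _ _))))⟩

lemma j1B_0 {L : ℕ} (h : j1G (fG L 3) (fG L 5) (fG L 7) (fG L 9) (fG L 11) (fG L 2) (fG L 4)
    (fG L 6) (fG L 8) (fG L 10) = true) : j1B 0 L = true := by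
  simp only [fG_eq] at h
  obtain ⟨c, hc, h0, u1, u2, u3, u4, u5⟩ := j1G_spec h
  unfold j1B
  rw [fz_pr, mx_eq, j1m0, ← hc, Nat.ble_eq_true_of_le h0]
  have e : sum10 (j1w 0 c) L = 0 := by
    unfold sum10
    simp only [fz_pr]
    have e1 : j1w 0 c 1 (Nat.mod (fdK L 2) 65536) (Nat.div (fdK L 2) 65536) = 0 :=
      j1w_up rfl u1
    have e2 : j1w 0 c 2 (Nat.mod (fdK L 3) 65536) (Nat.div (fdK L 3) 65536) = 0 :=
      j1w_low rfl (le5 hc).1
    have e3 : j1w 0 c 3 (Nat.mod (fdK L 4) 65536) (Nat.div (fdK L 4) 65536) = 0 :=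
      j1w_up rfl u2
    have e4 : j1w 0 c 4 (Nat.mod (fdK L 5) 65536) (Nat.div (fdK L 5) 65536) = 0 :=
      j1w_low rfl (le5 hc).2.1
    have e5 : j1w 0 c 5 (Nat.mod (fdK L 6) 65536) (Nat.div (fdK L 6) 65536) = 0 :=
      j1w_up rfl u3
    have e6 : j1w 0 c 6 (Nat.mod (fdK L 7) 65536) (Nat.div (fdK L 7) 65536) = 0 :=
      j1w_low rfl (le5 hc).2.2.1
    have e7 : j1w 0 c 7 (Nat.mod (fdK L 8) 65536) (Nat.div (fdK L 8) 65536) = 0 :=
      j1w_up rfl u4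
    have e8 : j1w 0 c 8 (Nat.mod (fdK L 9) 65536) (Nat.div (fdK L 9) 65536) = 0 :=
      j1w_low rfl (le5 hc).2.2.2.1
    have e9 : j1w 0 c 9 (Nat.mod (fdK L 10) 65536) (Nat.div (fdK L 10) 65536) = 0 :=
      j1w_up rfl u5
    have e10 : j1w 0 c 10 (Nat.mod (fdK L 11) 65536) (Nat.div (fdK L 11) 65536) = 0 :=
      j1w_low rfl (le5 hc).2.2.2.2
    rw [e1, e2, e3, e4, e5, e6, e7, e8, e9, e10]
  rw [e]
  rfl

lemma j1B_1 {L : ℕ} (h : j1G (fG L 2) (fG L 4) (fG L 6) (fG L 8) (fG L 10) (fG L 3) (fG L 5)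
    (fG L 7) (fG L 9) (fG L 11) = true) : j1B 1 L = true := by
  simp only [fG_eq] at h
  obtain ⟨c, hc, h0, u1, u2, u3, u4, u5⟩ := j1G_spec h
  unfold j1B
  rw [fz_pr, mx_eq, j1m1, ← hc, Nat.ble_eq_true_of_le h0]
  have e : sum10 (j1w 1 c) L = 0 := by
    unfold sum10
    simp only [fz_pr]
    have e1 : j1w 1 c 1 (Nat.mod (fdK L 2) 65536) (Nat.div (fdK L 2) 65536) = 0 :=
      j1w_low rfl (le5 hc).1
    have e2 : j1w 1 c 2 (Nat.mod (fdK L 3) 65536) (Nat.div (fdK L 3) 65536) = 0 :=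
      j1w_up rfl u1
    have e3 : j1w 1 c 3 (Nat.mod (fdK L 4) 65536) (Nat.div (fdK L 4) 65536) = 0 :=
      j1w_low rfl (le5 hc).2.1
    have e4 : j1w 1 c 4 (Nat.mod (fdK L 5) 65536) (Nat.div (fdK L 5) 65536) = 0 :=
      j1w_up rfl u2
    have e5 : j1w 1 c 5 (Nat.mod (fdK L 6) 65536) (Nat.div (fdK L 6) 65536) = 0 :=
      j1w_low rfl (le5 hc).2.2.1
    have e6 : j1w 1 c 6 (Nat.mod (fdK L 7) 65536) (Nat.div (fdK L 7) 65536) = 0 :=
      j1w_up rfl u3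
    have e7 : j1w 1 c 7 (Nat.mod (fdK L 8) 65536) (Nat.div (fdK L 8) 65536) = 0 :=
      j1w_low rfl (le5 hc).2.2.2.1
    have e8 : j1w 1 c 8 (Nat.mod (fdK L 9) 65536) (Nat.div (fdK L 9) 65536) = 0 :=
      j1w_up rfl u4
    have e9 : j1w 1 c 9 (Nat.mod (fdK L 10) 65536) (Nat.div (fdK L 10) 65536) = 0 :=
      j1w_low rfl (le5 hc).2.2.2.2
    have e10 : j1w 1 c 10 (Nat.mod (fdK L 11) 65536) (Nat.div (fdK L 11) 65536) = 0 :=
      j1w_up rfl u5
    rw [e1, e2, e3, e4, e5, e6, e7, e8, e9, e10]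
  rw [e]
  rfl

end Pool.Agent.Helper66.Kiss.DlG
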