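import Pool.Agent.Helper66.Kiss.DlC

set_option autoImplicit false

/-! # The functional check, version for the kernel

Same functions as in `DlC`; the values are passed unevaluated, the branches are written out. -/

namespace Pool.Agent.Helper66.Kiss.Dl

open Pool.Agent.Helper98.DL Pool.Agent.Helper66.Kiss Pool.Agent.Helper91.Kiss

/-- the smaller of two numbers -/
noncomputable def mnF (a b : ℕ) : ℕ := Bool.rec (motive := fun _ => ℕ) b a (Nat.ble a b)

/-- velocity times `q`, with the offset -/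
def sF (v q : ℕ) : ℕ :=
  Nat.sub (Nat.add (nat_lit 1099511627776) (Nat.mul v q)) (Nat.mul (nat_lit 32768) q)

/-- lower bound -/
noncomputable def lbF (v m M : ℕ) : ℕ :=
  sF v (Bool.rec (motive := fun _ => ℕ) M m (Nat.ble (nat_lit 32768) v))

/-- upper bound, negated -/
noncomputable def ubF (v m M : ℕ) : ℕ :=
  Nat.sub (nat_lit 2199023255552) (sF v (Bool.rec (motive := fun _ => ℕ) m M
    (Nat.ble (nat_lit 32768) v)))

/-- sum part -/
noncomputable def nF6 (T0 T1 x X b c : ℕ) : ℕ :=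
  Nat.add (Nat.add b c)
    (Nat.add (Bool.rec (motive := fun _ => ℕ) (nat_lit 0) (nat_lit 281474976710656) (Nat.ble T0 x))
      (Bool.rec (motive := fun _ => ℕ) (nat_lit 0) (nat_lit 4503599627370496)
        (Nat.ble (Nat.succ T1) X)))

/-- contribution of a node -/
noncomputable def nF5 (T0 T1 x X b d : ℕ) : ℕ :=
  nF6 T0 T1 x X b (Bool.rec (motive := fun _ => ℕ)
    (Bool.rec (motive := fun _ => ℕ) (mnF (nat_lit 2199023255552) d) (nat_lit 2199023255552)
      (Nat.ble (Nat.succ X) T0)) d (Nat.ble (Nat.succ T1) x))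

/-- the speeds -/
noncomputable def nF4 (T0 T1 tt x X a b : ℕ) : ℕ :=
  nF5 T0 T1 x X b (Nat.sub (Nat.add a (nat_lit 3298534883328)) (Nat.add b tt))

/-- penalty at a crossing cell -/
noncomputable def bF2 (v w m M : ℕ) : ℕ :=
  mnF (mnF (ubF v m M) (lbF w m M)) (mnF (lbF v m M) (ubF w m M))

/-- penalty -/
noncomputable def bF (x X v w m M : ℕ) : ℕ :=
  Bool.rec (motive := fun _ => ℕ)
    (Bool.rec (motive := fun _ => ℕ) (bF2 v w m M) (lbF w m M) (Nat.ble X (nat_lit 2047)))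
    (ubF v m M) (Nat.ble (nat_lit 2049) x)

/-- speed -/
noncomputable def aF (X v m M : ℕ) : ℕ :=
  Bool.rec (motive := fun _ => ℕ) (lbF v m M)
    (Bool.rec (motive := fun _ => ℕ) (nat_lit 1099511627776) (lbF v m M)
      (Nat.ble v (nat_lit 32768)))
    (Nat.ble (nat_lit 6144) X)

/-- speeds from the bounds of `q` -/
noncomputable def nF3 (T0 T1 tt x X v w m M : ℕ) : ℕ :=
  nF4 T0 T1 tt x X (aF X v m M) (bF x X v w m M)

/-- bounds of `q` -/
noncomputable def nF2 (T0 T1 tt x X v w qx qX : ℕ) : ℕ :=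
  nF3 T0 T1 tt x X v w (mnF qx qX)
    (Bool.rec (motive := fun _ => ℕ) qX
      (Bool.rec (motive := fun _ => ℕ) qx (nat_lit 16777216) (Nat.ble x (nat_lit 4096)))
      (Nat.ble (nat_lit 4096) X))

/-- all data of a node -/
noncomputable def nF1 (T0 T1 tt x X v w : ℕ) : ℕ :=
  nF2 T0 T1 tt x X v w (Nat.mul x (Nat.sub (nat_lit 8192) x)) (Nat.mul X (Nat.sub (nat_lit 8192) X))

/-- all data of a node, with the check of the velocity -/
noncomputable def nF0 (T0 T1 tt x X v w : ℕ) : ℕ :=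
  Bool.rec (motive := fun _ => ℕ) (nat_lit 27021597764222976) (nF1 T0 T1 tt x X v w)
    (Nat.ble w (nat_lit 65535))

/-- all data of a node, from its number -/
noncomputable def nodF (T0 T1 tt n : ℕ) : ℕ :=
  nF0 T0 T1 tt (Nat.add (nat_lit 1280) (Nat.mul (nat_lit 16) (Nat.mod (ndc n) (nat_lit 512))))
    (Nat.add (nat_lit 1280) (Nat.mul (nat_lit 16) (Nat.div (ndc n) (nat_lit 512)))) (ndp n) (ndq n)

/-- the sum over the nodes -/
noncomputable def sumF (T0 T1 tt L D r : ℕ) : ℕ :=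
  Nat.add (nodF T0 T1 tt (nd L D r 0)) (Nat.add (nodF T0 T1 tt (nd L D r 1))
  (Nat.add (nodF T0 T1 tt (nd L D r 2)) (Nat.add (nodF T0 T1 tt (nd L D r 3))
  (Nat.add (nodF T0 T1 tt (nd L D r 4)) (Nat.add (nodF T0 T1 tt (nd L D r 5))
  (Nat.add (nodF T0 T1 tt (nd L D r 6)) (Nat.add (nodF T0 T1 tt (nd L D r 7))
  (Nat.add (nodF T0 T1 tt (nd L D r 8)) (nodF T0 T1 tt (nd L D r 9))))))))))

/-- the conditions -/
noncomputable def funF2 (T0 tt S : ℕ) : Bool :=
  Bool.rec (motive := fun _ => Bool) false (Bool.rec (motive := fun _ => Bool) false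
    (Bool.rec (motive := fun _ => Bool) false
      (Nat.ble (Nat.succ (nat_lit 38482906972160))
        (Nat.add (Nat.mod S (nat_lit 281474976710656)) (Nat.mul (nat_lit 5) tt)))
      (Nat.ble (Nat.div S (nat_lit 4503599627370496)) (nat_lit 5)))
    (Nat.ble (nat_lit 5) (Nat.mod (Nat.div S (nat_lit 281474976710656)) (nat_lit 16))))
    (Nat.ble (nat_lit 2049) T0)

/-- the conditions, from the thresholds -/
noncomputable def funF1 (L D r T0 T1 tt : ℕ) : Bool := funF2 T0 tt (sumF T0 T1 tt L D r)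

/-- **the functional check**; `E` has the thresholds `T0`, `T1` and the threshold velocity -/
noncomputable def funF (L D r E : ℕ) : Bool :=
  funF1 L D r (Nat.mod E (nat_lit 65536)) (Nat.mod (Nat.div E (nat_lit 65536)) (nat_lit 65536))
    (Nat.add (nat_lit 549755813888) (Nat.mul (nat_lit 16777216)
      (Nat.mod (Nat.div E (nat_lit 4294967296)) (nat_lit 65536))))

/-! ## equality with the functions of `DlC` -/

lemma mnF_eq (a b : ℕ) : mnF a b = mnK a b := rfl

lemma sF_eq (v q : ℕ) : sF v q = sgK v q := rfl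

lemma lbF_eq (v m M : ℕ) : lbF v m M = lbK v m M := by
  unfold lbF lbK cb
  cases Nat.ble 32768 v <;> rfl

lemma ubF_eq (v m M : ℕ) : ubF v m M = Nat.sub 2199023255552 (ubK v m M) := by
  unfold ubF ubK cb
  cases Nat.ble 32768 v <;> rfl

lemma aF_eq (X v m M : ℕ) : aF X v m M = aK X v m M := by
  unfold aF aK
  rw [lbF_eq]
  rfl

lemma bF_eq (x X v w m M : ℕ) : bF x X v w m M = bK x X v w m M := by
  unfold bF bK bF2
  rw [lbF_eq, ubF_eq, lbF_eq, ubF_eq, mnF_eq, mnF_eq, mnF_eq]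
  rfl

lemma nF4_eq (T0 T1 tt x X a b : ℕ) : nF4 T0 T1 tt x X a b =
    Nat.add (Nat.add b (cK T0 T1 tt x X a b))
      (Nat.add (cb (Nat.ble T0 x) 281474976710656 0)
        (cb (Nat.ble (Nat.succ T1) X) 4503599627370496 0)) := by
  unfold nF4 nF5 nF6 cK cb
  rw [mnF_eq]

lemma nF1_eq (T0 T1 tt x X v w : ℕ) : nF1 T0 T1 tt x X v w = nodK T0 T1 tt x X v w := by
  unfold nF1 nF2 nF3
  rw [nF4_eq, aF_eq, bF_eq]
  rfl

lemma nodF_eq (T0 T1 tt n : ℕ) : nodF T0 T1 tt n = nodN T0 T1 tt n := by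
  unfold nodF nF0
  rw [nF1_eq]
  rfl

lemma sumF_eq (T0 T1 tt L D r : ℕ) : sumF T0 T1 tt L D r = sumK T0 T1 tt L D r := by
  unfold sumF sumK
  simp only [nodF_eq]

theorem funF_eq (L D r E : ℕ) : funF L D r E = funC L D r E := by
  unfold funF funF1
  rw [sumF_eq]
  rfl

end Pool.Agent.Helper66.Kiss.Dl
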