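import Pool.Agent.Helper66.Kiss.LiftMain
import Pool.Agent.Helper66.Kiss.EndPath

set_option autoImplicit false

/-! # The end region: lifting the path -/

namespace Pool.Agent.Helper66.Kiss

open Real Set Filter Topology

section

variable {z : Fin 11 → ℝ} {s : Fin 11} {U : Finset (Fin 11)}

/-- dropped pairs: the lowest point and an upper point -/
def DD (s : Fin 11) (U : Finset (Fin 11)) (i j : Fin 11) : Prop := (i = s ∧ j ∈ U) ∨ (j = s ∧ i ∈ U)

lemma xc_U (h : ER z s U) (hs : -1 < z s) {k : Fin 11} (hk : k ∈ U) :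
    (0 ≤ xc U z k ∧ xc U z k ≤ 0.0078) ∧ z k = zU (1 - xc U z k) := by
  have hb := h.up k hk
  have e : xc U z k = 1 - aU (z k) := by unfold xc; rw [if_pos hk]
  rw [e, sub_sub_cancel, zU_aU ⟨(h.range hs k).1, by linarith [(h.range hs k).2]⟩]
  exact ⟨aU_bd_U hb.1 hb.2, rfl⟩

lemma xc_L (h : ER z s U) (hs : -1 < z s) {k : Fin 11} (hk : k ∉ U) (hks : k ≠ s) :
    (-0.0106 ≤ xc U z k ∧ xc U z k ≤ 0.0104) ∧ z k = zL (1 - xc U z k) := by
  have hb := h.lo k hk hks
  have e : xc U z k = 1 - aU (-(z k)) := by unfold xc; rw [if_neg hk]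
  rw [e, sub_sub_cancel, zL_aU ⟨(h.range hs k).1, by linarith [(h.range hs k).2]⟩]
  exact ⟨aU_bd_L hb, rfl⟩

/-- types of the points -/
lemma typ (s : Fin 11) (U : Finset (Fin 11)) (k : Fin 11) : k = s ∨ (k ≠ s ∧ k ∈ U) ∨ (k ≠ s ∧ k ∉ U) := by
  tauto

lemma zp_s (t : ℝ) : zp s U z t s = zS ((1 - t) ^ 3 * tS (z s)) := by unfold zp; rw [if_pos rfl]

lemma zp_U {k : Fin 11} (hks : k ≠ s) (hk : k ∈ U) (t : ℝ) :
    zp s U z t k = zU (1 - (1 - t) ^ 4 * xc U z k) := by unfold zp; rw [if_neg hks, if_pos hk]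

lemma zp_L {k : Fin 11} (hks : k ≠ s) (hk : k ∉ U) (t : ℝ) :
    zp s U z t k = zL (1 - eL (1 - t) (xc U z k)) := by unfold zp; rw [if_neg hks, if_neg hk]

lemma zp_zero (h : ER z s U) (hs : -1 < z s) : zp s U z 0 = z := by
  funext k
  rcases typ s U k with rfl | ⟨h1, h2⟩ | ⟨h1, h2⟩
  · rw [zp_s]; norm_num
    exact zS_tS ⟨hs, by linarith [h.sz]⟩
  · rw [zp_U h1 h2]; norm_num
    exact (xc_U h hs h2).2.symm
  · rw [zp_L h1 h2]
    have : eL (1 - 0) (xc U z k) = xc U z k := by unfold eL; split_ifs <;> norm_num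
    rw [this]
    exact (xc_L h hs h2 h1).2.symm

lemma zp_one (k : Fin 11) : zp s U z 1 k = if k = s then -1 else if k ∈ U then 1 / 2 else -(1 / 2) := by
  rcases typ s U k with rfl | ⟨h1, h2⟩ | ⟨h1, h2⟩
  · rw [zp_s, if_pos rfl]; unfold zS; norm_num
  · rw [zp_U h1 h2, if_neg h1, if_pos h2]; unfold zU; norm_num
  · rw [zp_L h1 h2, if_neg h1, if_neg h2]
    have : eL (1 - 1) (xc U z k) = 0 := by unfold eL; split_ifs <;> norm_num
    rw [this]; unfold zL; norm_num

lemma zp_bd_U (h : ER z s U) (hs : -1 < z s) {t : ℝ} (ht : 0 ≤ t ∧ t ≤ 1) {k : Fin 11} (hks : k ≠ s)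
    (hk : k ∈ U) : 0.4 < zp s U z t k ∧ zp s U z t k ≤ 1 / 2 := by
  rw [zp_U hks hk]
  have hx := (xc_U h hs hk).1
  have h4 : (1 - t) ^ 4 ≤ 1 := pow_le_one₀ (by linarith [ht.2]) (by linarith [ht.1])
  have h40 : 0 ≤ (1 - t) ^ 4 := by positivity
  have e1 : 0 ≤ (1 - t) ^ 4 * xc U z k := mul_nonneg h40 hx.1
  have e2 : (1 - t) ^ 4 * xc U z k ≤ xc U z k := by nlinarith [hx.1]
  exact zU_range ⟨by linarith [hx.2], by linarith⟩

lemma zp_bd_L (h : ER z s U) (hs : -1 < z s) {t : ℝ} (ht : 0 ≤ t ∧ t ≤ 1) {k : Fin 11} (hks : k ≠ s)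
    (hk : k ∉ U) : -0.52 < zp s U z t k ∧ zp s U z t k < -0.48 := by
  rw [zp_L hks hk]
  have hx := (xc_L h hs hk hks).1
  have he := eL_bd (σ := 1 - t) ⟨by linarith [ht.2], by linarith [ht.1]⟩ hx
  exact zL_range ⟨by linarith [he.2.1], by linarith [he.1]⟩

lemma zp_bd_s (hs : -1 < z s) (hs2 : z s ≤ -(99 / 100)) (hτ : tS (z s) ≤ 0.0061) {t : ℝ}
    (ht : 0 ≤ t ∧ t < 1) : -1 < zp s U z t s ∧ zp s U z t s < -0.99 := by
  rw [zp_s]
  have h0 : 0 < 1 - t := by linarith [ht.2]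
  have h3 : (1 - t) ^ 3 ≤ 1 := pow_le_one₀ (by linarith [ht.2]) (by linarith [ht.1])
  have ht0 := (tS_bd hs hs2).1
  refine zS_range ⟨by positivity, ?_⟩
  have : (1 - t) ^ 3 * tS (z s) ≤ tS (z s) := by nlinarith
  linarith

lemma Qp_ge_of_fe {φ : Fin 11 → ℝ} (hF : Fe z φ) (h : ER z s U) (hs : -1 < z s) {k : Fin 11}
    (hks : k ≠ s) (hk : k ∉ U) : -1 ≤ Qp (tS (z s)) (1 - xc U z k) := by
  obtain ⟨hx, hz⟩ := xc_L h hs hk hks
  have hτ := tS_bd hs h.sz
  have hzs : z s = zS (tS (z s)) := (zS_tS ⟨hs, by linarith [h.sz]⟩).symm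
  have hr := h.range hs
  have hg := cos_le_of_gg (hr s) (hr k) (hF.2 s k hks.symm)
  have e : Qp (tS (z s)) (1 - xc U z k) = (1 / 2 - z s * z k) / (√(1 - z s ^ 2) * √(1 - z k ^ 2)) := by
    have h2 : 0 < 1 + tS (z s) ^ 2 := by positivity
    have h30 : 0 < √3 := Real.sqrt_pos.2 (by norm_num)
    have ha : 0 < 1 - xc U z k := by linarith [hx.2]
    have ht0 := hτ.1
    conv_rhs => rw [hzs, hz, sqrt_zS hτ.1, sqrt_zL ha]
    unfold Qp zS zL
    field_simp
    ring
  rw [e]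
  exact (Real.neg_one_le_cos _).trans hg

end

/-- the path data -/
theorem end_hpath {z φ : Fin 11 → ℝ} {s : Fin 11} {U : Finset (Fin 11)} (hF : Fe z φ)
    (h : ER z s U) (hs : -1 < z s)
    (hord : ∀ i j, i < j → wd (z i) (z j) ≤ φ j - φ i ∧ φ j - φ i ≤ 2 * π - wd (z i) (z j)) :
    HPath 11 (by norm_num) (DD s U) (zp s U z) := by
  classical
  have hτ := tS_bd hs h.sz
  have hτ2 := tau_small hF h hs
  have hsU : ∀ k, k ∈ U → k ≠ s := fun k hk he => h.sU (he ▸ hk)
  have hrange : ∀ t ∈ Ico (0 : ℝ) 1, ∀ k, -1 < zp s U z t k ∧ zp s U z t k ≤ 1 / 2 := by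
    intro t ht k
    rcases typ s U k with rfl | ⟨h1, h2⟩ | ⟨h1, h2⟩
    · have := zp_bd_s (U := U) hs h.sz hτ2 (t := t) ⟨ht.1, ht.2⟩
      exact ⟨this.1, by norm_num at this ⊢; linarith [this.2]⟩
    · have := zp_bd_U h hs (t := t) ⟨ht.1, ht.2.le⟩ h1 h2
      exact ⟨by linarith [this.1], this.2⟩
    · have := zp_bd_L h hs (t := t) ⟨ht.1, ht.2.le⟩ h1 h2
      exact ⟨by linarith [this.1], by linarith [this.2]⟩
  have hsq : ∀ t ∈ Ico (0 : ℝ) 1, ∀ k, k ≠ s → 0.84 ≤ √(1 - zp s U z t k ^ 2) := by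
    intro t ht k hk
    apply Real.le_sqrt_of_sq_le
    rcases typ s U k with h0 | ⟨h1, h2⟩ | ⟨h1, h2⟩
    · exact absurd h0 hk
    · have := zp_bd_U h hs (t := t) ⟨ht.1, ht.2.le⟩ h1 h2
      norm_num at this ⊢
      nlinarith [this.1, this.2]
    · have := zp_bd_L h hs (t := t) ⟨ht.1, ht.2.le⟩ h1 h2
      norm_num at this ⊢
      nlinarith [this.1, this.2]
  refine ⟨?_, fun k => (zp_cont s U z k).continuousOn, hrange, ?_, ?_, ?_, ?_, ?_⟩
  · -- symm
    rintro i j (h1 | h1)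
    · exact Or.inr h1
    · exact Or.inl h1
  · -- lim
    intro i j hij hD
    have hcont : ∀ k, k ≠ s → Tendsto (fun t => zp s U z t k) (𝓝[<] 1) (𝓝 (zp s U z 1 k)) :=
      fun k _ => ((zp_cont s U z k).tendsto 1).mono_left nhdsWithin_le_nhds
    have hend : ∀ k, k ≠ s → -1 < zp s U z 1 k ∧ zp s U z 1 k ≤ 1 / 2 := by
      intro k hk
      rw [zp_one, if_neg hk]
      split_ifs <;> norm_num
    have hSL : ∀ k, k ≠ s → k ∉ U → ∃ L, Tendsto (fun t => wd (zp s U z t s) (zp s U z t k))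
        (𝓝[<] 1) (𝓝 L) := by
      intro k hk hkU
      simp only [zp_s, zp_L hk hkU]
      exact sl_lim hτ.1 (xc_L h hs hkU hk).1
    by_cases hi : i = s
    · subst hi
      have hj : j ∉ U := fun hj => hD (Or.inl ⟨rfl, hj⟩)
      exact hSL j (Ne.symm hij) hj
    by_cases hj : j = s
    · subst hj
      have hiU : i ∉ U := fun hi' => hD (Or.inr ⟨rfl, hi'⟩)
      obtain ⟨L, hL⟩ := hSL i hi hiU
      refine ⟨L, hL.congr fun t => wd_comm _ _⟩
    exact ⟨_, wd_tendsto (hcont i hi) (hcont j hj) (hend i hi) (hend j hj)⟩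
  · -- free
    have key : ∀ t ∈ Ico (0 : ℝ) 1, ∀ k, k ∈ U →
        √(1 - zp s U z t s ^ 2) * √(1 - zp s U z t k ^ 2) + zp s U z t s * zp s U z t k ≤ 1 / 2 := by
      intro t ht k hk
      have a := zp_bd_s (U := U) hs h.sz hτ2 (t := t) ⟨ht.1, ht.2⟩
      have b := zp_bd_U h hs (t := t) ⟨ht.1, ht.2.le⟩ (hsU k hk) hk
      have c1 : √(1 - zp s U z t s ^ 2) ≤ 0.2 := by
        rw [Real.sqrt_le_left (by norm_num)]
        norm_num at a ⊢
        nlinarith [a.1, a.2]
      have c2 : √(1 - zp s U z t k ^ 2) ≤ 1 := by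
        rw [Real.sqrt_le_left (by norm_num)]
        nlinarith [sq_nonneg (zp s U z t k)]
      have c3 : √(1 - zp s U z t s ^ 2) * √(1 - zp s U z t k ^ 2) ≤ 0.2 * 1 :=
        mul_le_mul c1 c2 (Real.sqrt_nonneg _) (by norm_num)
      have c4 : zp s U z t s * zp s U z t k ≤ 0 :=
        mul_nonpos_of_nonpos_of_nonneg (by norm_num at a; linarith [a.2]) (by norm_num at b; linarith [b.1])
      norm_num at c3 ⊢
      linarith
    rintro t ht i j hij (⟨rfl, hj⟩ | ⟨rfl, hi⟩)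
    · exact key t ht j hj
    · have := key t ht i hi
      rw [mul_comm (√_), mul_comm (zp _ U z t i)]
      exact this
  · -- pole
    have hSL : ∀ t ∈ Ico (0 : ℝ) 1, ∀ k, k ≠ s → k ∉ U →
        -(√(1 - zp s U z t s ^ 2) * √(1 - zp s U z t k ^ 2)) ≤ 1 / 2 - zp s U z t s * zp s U z t k := by
      intro t ht k hk hkU
      obtain ⟨hx, hz⟩ := xc_L h hs hkU hk
      have hσ : 0 < 1 - t ∧ 1 - t ≤ 1 := ⟨by linarith [ht.2], by linarith [ht.1]⟩
      have hq := Qp_path_ge hσ hx ⟨hτ.1, hτ2⟩ (Qp_ge_of_fe hF h hs hk hkU)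
      have c := mul_pos (sqrt_pos_of (hrange t ht s)) (sqrt_pos_of (hrange t ht k))
      have he := eL_bd (σ := 1 - t) ⟨hσ.1.le, hσ.2⟩ hx
      have e : Qp ((1 - t) ^ 3 * tS (z s)) (1 - eL (1 - t) (xc U z k)) =
          (1 / 2 - zp s U z t s * zp s U z t k) / (√(1 - zp s U z t s ^ 2) * √(1 - zp s U z t k ^ 2)) := by
        have ht3 : 0 < (1 - t) ^ 3 * tS (z s) := by
          have := hσ.1
          have := hτ.1
          positivity
        have ha : 0 < 1 - eL (1 - t) (xc U z k) := by linarith [he.2.1]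
        rw [zp_s, zp_L hk hkU, sqrt_zS ht3, sqrt_zL ha]
        have h2 : 0 < 1 + ((1 - t) ^ 3 * tS (z s)) ^ 2 := by positivity
        have h30 : 0 < √3 := Real.sqrt_pos.2 (by norm_num)
        unfold Qp zS zL
        generalize (1 - t) ^ 3 * tS (z s) = τ at *
        generalize 1 - eL (1 - t) (xc U z k) = a at *
        field_simp
        ring
      rw [e, le_div_iff₀ c] at hq
      linarith
    intro t ht i j hij hD
    by_cases hi : i = s
    · subst hi
      have hj : j ∉ U := fun hj => hD (Or.inl ⟨rfl, hj⟩)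
      exact hSL t ht j (Ne.symm hij) hj
    by_cases hj : j = s
    · subst hj
      have hiU : i ∉ U := fun hi' => hD (Or.inr ⟨rfl, hi'⟩)
      have := hSL t ht i hi hiU
      rw [mul_comm (√_), mul_comm (zp _ U z t i)]
      exact this
    have a := hsq t ht i hi
    have b := hsq t ht j hj
    have c : 0.84 * 0.84 ≤ √(1 - zp s U z t i ^ 2) * √(1 - zp s U z t j ^ 2) :=
      mul_le_mul a b (by norm_num) (by linarith)
    have hab : ∀ k, k ≠ s → |zp s U z t k| ≤ 0.52 := by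
      intro k hk
      rw [abs_le]
      rcases typ s U k with h0 | ⟨h1, h2⟩ | ⟨h1, h2⟩
      · exact absurd h0 hk
      · have := zp_bd_U h hs (t := t) ⟨ht.1, ht.2.le⟩ h1 h2
        norm_num at this ⊢
        constructor <;> linarith [this.1, this.2]
      · have := zp_bd_L h hs (t := t) ⟨ht.1, ht.2.le⟩ h1 h2
        norm_num at this ⊢
        constructor <;> linarith [this.1, this.2]
    have d : |zp s U z t i * zp s U z t j| ≤ 0.52 * 0.52 := by
      rw [abs_mul]
      exact mul_le_mul (hab i hi) (hab j hj) (abs_nonneg _) (by norm_num)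
    have := (abs_le.1 d).2
    norm_num at c this ⊢
    linarith
  · -- vert
    intro t ht i j hij hD
    have hss : ∀ k, k ≠ s → k ∉ U → 0 ≤ zp s U z t s * zp s U z t k := by
      intro k hk hkU
      have a := zp_bd_s (U := U) hs h.sz hτ2 (t := t) ⟨ht.1, ht.2⟩
      have b := zp_bd_L h hs (t := t) ⟨ht.1, ht.2.le⟩ hk hkU
      norm_num at a b
      exact mul_nonneg_of_nonpos_of_nonpos (by linarith [a.2]) (by linarith [b.2])
    by_cases hi : i = s
    · subst hi
      have hj : j ∉ U := fun hj => hD (Or.inl ⟨rfl, hj⟩)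
      have := hss j (Ne.symm hij) hj
      have c := mul_nonneg (Real.sqrt_nonneg (1 - zp i U z t i ^ 2)) (Real.sqrt_nonneg (1 - zp i U z t j ^ 2))
      linarith
    by_cases hj : j = s
    · subst hj
      have hiU : i ∉ U := fun hi' => hD (Or.inr ⟨rfl, hi'⟩)
      have := hss i hi hiU
      have c := mul_nonneg (Real.sqrt_nonneg (1 - zp j U z t i ^ 2)) (Real.sqrt_nonneg (1 - zp j U z t j ^ 2))
      nlinarith
    have a := hsq t ht i hi
    have b := hsq t ht j hj
    have c : 0.84 * 0.84 ≤ √(1 - zp s U z t i ^ 2) * √(1 - zp s U z t j ^ 2) :=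
      mul_le_mul a b (by norm_num) (by linarith)
    have hab : ∀ k, k ≠ s → |zp s U z t k| ≤ 0.52 := by
      intro k hk
      rw [abs_le]
      rcases typ s U k with h0 | ⟨h1, h2⟩ | ⟨h1, h2⟩
      · exact absurd h0 hk
      · have := zp_bd_U h hs (t := t) ⟨ht.1, ht.2.le⟩ h1 h2
        norm_num at this ⊢
        constructor <;> linarith [this.1, this.2]
      · have := zp_bd_L h hs (t := t) ⟨ht.1, ht.2.le⟩ h1 h2
        norm_num at this ⊢
        constructor <;> linarith [this.1, this.2]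
    have d : |zp s U z t i * zp s U z t j| ≤ 0.52 * 0.52 := by
      rw [abs_mul]
      exact mul_le_mul (hab i hi) (hab j hj) (abs_nonneg _) (by norm_num)
    have := (abs_le.1 d).1
    norm_num at c this ⊢
    linarith
  · -- walk
    intro t ht v r hr hv he hD
    have hσ : 0 ≤ 1 - t ∧ 1 - t ≤ 1 := ⟨by linarith [ht.2], by linarith [ht.1]⟩
    have hσ' : 0 < 1 - t ∧ 1 - t ≤ 1 := ⟨by linarith [ht.2], by linarith [ht.1]⟩
    have hzs : z s = zS (tS (z s)) := (zS_tS ⟨hs, by linarith [h.sz]⟩).symm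
    have hωe : ∀ k, k ∉ U → k ≠ s → wd (z s) (z k) = arccos (Qp (tS (z s)) (1 - xc U z k)) := by
      intro k hk hks
      obtain ⟨hx, hz⟩ := xc_L h hs hk hks
      conv_lhs => rw [hzs, hz]
      exact wd_SL hτ.1 (by linarith [hx.2])
    refine walk_cap (n := 11) (by norm_num) hv he (D := DD s U) (W0 := fun i j => wd (z i) (z j))
      (W1 := fun i j => wd (zp s U z t i) (zp s U z t j)) (S := fun i => i = s)
      (fun i j hi hj => hi.trans hj.symm)
      (T := fun i j => (i ∈ U ∧ j ∈ U) ∨ (i ∉ U ∧ i ≠ s ∧ j ∉ U ∧ j ≠ s))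
      (B := fun k => Bs (Qp (tS (z s)) (1 - xc U z k))) (ω := fun k => wd (z s) (z k)) hσ hD ?_ ?_ ?_ ?_
    · -- low
      intro i j hij hDD
      have ti := typ s U i
      have tj := typ s U j
      rcases ti with rfl | ⟨i1, i2⟩ | ⟨i1, i2⟩ <;> rcases tj with rfl | ⟨j1, j2⟩ | ⟨j1, j2⟩
      · exact absurd rfl hij
      · exact absurd (Or.inl ⟨rfl, j2⟩) hDD
      · rw [if_neg (by rintro (⟨a, b⟩ | ⟨a, b, c⟩); exact h.sU a; exact b rfl), if_pos rfl, if_neg j1]
        simp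
      · exact absurd (Or.inr ⟨rfl, i2⟩) hDD
      · rw [if_pos (Or.inl ⟨i2, j2⟩), if_neg i1, if_neg j1]
        obtain ⟨a1, a2⟩ := xc_U h hs i2
        obtain ⟨b1, b2⟩ := xc_U h hs j2
        have := low_UU a1 b1
        rw [← a2, ← b2] at this
        linarith
      · rw [if_neg (by rintro (⟨a, b⟩ | ⟨a, b⟩); exact j2 b; exact a i2), if_neg i1, if_neg j1]
        simp only [add_zero]
        exact wd_nonneg _ _
      · rw [if_neg (by rintro (⟨a, b⟩ | ⟨a, b, c, d⟩); exact h.sU b; exact d rfl), if_neg i1, if_pos rfl]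
        simp only [zero_add]
        rw [wd_comm]
      · rw [if_neg (by rintro (⟨a, b⟩ | ⟨a, b, c, d⟩); exact i2 a; exact c j2), if_neg i1, if_neg j1]
        simp only [add_zero]
        exact wd_nonneg _ _
      · rw [if_pos (Or.inr ⟨i2, i1, j2, j1⟩), if_neg i1, if_neg j1]
        obtain ⟨a1, a2⟩ := xc_L h hs i2 i1
        obtain ⟨b1, b2⟩ := xc_L h hs j2 j1
        have := low_LL a1 b1
        rw [← a2, ← b2] at this
        linarith
    · -- chord
      have hSL : ∀ k, k ≠ s → k ∉ U → wd (zp s U z t s) (zp s U z t k) ≤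
          (1 - t) * wd (z s) (z k) + (1 - (1 - t)) * Bs (Qp (tS (z s)) (1 - xc U z k)) := by
        intro k hk hkU
        obtain ⟨hx, hz⟩ := xc_L h hs hkU hk
        have := chord_SL hσ' hx ⟨hτ.1, hτ2⟩ (Qp_ge_of_fe hF h hs hk hkU)
        rw [← hzs, ← hz] at this
        rw [zp_s, zp_L hk hkU]
        exact this
      intro i j hij hDD
      have ti := typ s U i
      have tj := typ s U j
      rcases ti with rfl | ⟨i1, i2⟩ | ⟨i1, i2⟩ <;> rcases tj with rfl | ⟨j1, j2⟩ | ⟨j1, j2⟩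
      · exact absurd rfl hij
      · exact absurd (Or.inl ⟨rfl, j2⟩) hDD
      · rw [if_neg (by rintro (⟨a, b⟩ | ⟨a, b, c⟩); exact h.sU a; exact b rfl), if_pos rfl, if_neg j1]
        have := hSL j j1 j2
        simp only [zero_add, add_zero]
        exact this
      · exact absurd (Or.inr ⟨rfl, i2⟩) hDD
      · rw [if_pos (Or.inl ⟨i2, j2⟩), if_neg i1, if_neg j1]
        obtain ⟨a1, a2⟩ := xc_U h hs i2
        obtain ⟨b1, b2⟩ := xc_U h hs j2
        have := Qs_eq_cases hσ a1 b1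
        rw [← a2, ← b2] at this
        rw [zp_U i1 i2, zp_U j1 j2]
        simp only [add_zero]
        exact this
      · rw [if_neg (by rintro (⟨a, b⟩ | ⟨a, b⟩); exact j2 b; exact a i2), if_neg i1, if_neg j1]
        obtain ⟨a1, a2⟩ := xc_U h hs i2
        obtain ⟨b1, b2⟩ := xc_L h hs j2 j1
        have := chord_UL hσ a1 b1
        rw [← a2, ← b2] at this
        rw [zp_U i1 i2, zp_L j1 j2]
        simp only [add_zero, mul_zero]
        exact this
      · rw [if_neg (by rintro (⟨a, b⟩ | ⟨a, b, c, d⟩); exact h.sU b; exact d rfl), if_neg i1, if_pos rfl]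
        have := hSL i i1 i2
        rw [wd_comm, wd_comm (z i)]
        simp only [zero_add]
        exact this
      · rw [if_neg (by rintro (⟨a, b⟩ | ⟨a, b, c, d⟩); exact i2 a; exact c j2), if_neg i1, if_neg j1]
        obtain ⟨a1, a2⟩ := xc_L h hs i2 i1
        obtain ⟨b1, b2⟩ := xc_U h hs j2
        have := chord_UL hσ b1 a1
        rw [← a2, ← b2] at this
        rw [zp_L i1 i2, zp_U j1 j2, wd_comm, wd_comm (z i)]
        simp only [add_zero, mul_zero]
        exact this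
      · rw [if_pos (Or.inr ⟨i2, i1, j2, j1⟩), if_neg i1, if_neg j1]
        obtain ⟨a1, a2⟩ := xc_L h hs i2 i1
        obtain ⟨b1, b2⟩ := xc_L h hs j2 j1
        have := chord_LL hσ a1 b1
        rw [← a2, ← b2] at this
        rw [zp_L i1 i2, zp_L j1 j2]
        simp only [add_zero]
        exact this
    · -- good
      rintro i j rfl hij hDD
      have hj : j ∉ U := by
        intro hj
        rcases hDD with h1 | h1
        · exact h1 (Or.inl ⟨rfl, hj⟩)
        · exact h1 (Or.inr ⟨rfl, hj⟩)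
      show Good (Bs (Qp (tS (z i)) (1 - xc U z j))) (wd (z i) (z j))
      rw [hωe j hj hij.symm]
      exact good_Bs _
    · have := lft_tel (n := 11) (by norm_num) (ω := fun i j => wd (z i) (z j))
        (fun i j => wd_comm _ _) hord r hv
      have e2 := lft_add_mul (n := 11) (by norm_num) φ (v 0) 1
      rw [mul_one] at e2
      rw [he, e2] at this
      push_cast at this
      linarith

/-- the end region reduces to the end state -/
theorem end_lift {z φ : Fin 11 → ℝ} {s : Fin 11} {U : Finset (Fin 11)} (hF : Fe z φ)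
    (h : ER z s U) (hs : -1 < z s) (h0 : ∀ k, 0 ≤ φ k ∧ φ k < 2 * π) (hm : Monotone φ) :
    ∃ z1 φ1, Fe z1 φ1 ∧ ER z1 s U ∧ z1 s = -1 ∧ JoinedIn Conf (pinN z φ) (pinN z1 φ1) := by
  have hr := h.range hs
  have hord : ∀ i j, i < j → wd (z i) (z j) ≤ φ j - φ i ∧ φ j - φ i ≤ 2 * π - wd (z i) (z j) := by
    intro i j hij
    have := hm hij.le
    exact wd_le_of_gg (hr i) (hr j) (hF.2 i j hij.ne) (by linarith) (by linarith [(h0 i).1, (h0 j).2])
  have hp := end_hpath hF h hs hord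
  have hz0 := zp_zero h hs
  obtain ⟨φ1, hF1, hJ⟩ := lift11 hp (φ0 := φ) (fun i j hij => by
      have := hm hij.le
      exact ⟨by linarith, by linarith [(h0 i).1, (h0 j).2]⟩) (fun i j hij _ => by rw [hz0]; exact hord i j hij)
  rw [hz0] at hJ
  refine ⟨zp s U z 1, φ1, hF1, ⟨h.sU, h.card, ?_, ?_, ?_⟩, ?_, hJ⟩
  · rw [zp_one, if_pos rfl]; norm_num
  · intro k hk
    rw [zp_one, if_neg (fun he : k = s => h.sU (he ▸ hk)), if_pos hk]; norm_num
  · intro k hk hks
    rw [zp_one, if_neg hks, if_neg hk]; norm_num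
  · rw [zp_one, if_pos rfl]

end Pool.Agent.Helper66.Kiss
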