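import Pool.Agent.Helper66.Kiss.NoTight

set_option autoImplicit false

/-! # Lifting a path of heights to configurations

Only closed walks of winding number one have to be controlled. -/

namespace Pool.Agent.Helper66.Kiss

open Real Set Filter Topology

section split

variable {n : ℕ} {W : ℕ → ℕ → ℝ} {c : ℝ}

/-- no repeated class -/
def Simple (n : ℕ) (v : ℕ → ℕ) (r : ℕ) : Prop := ∀ i < r, ∀ j < r, v i % n = v j % n → i = j

lemma per_mul (hper : ∀ a b, W (a + n) (b + n) = W a b) :
    ∀ w a b, W (a + n * w) (b + n * w) = W a b := by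
  intro w
  induction w with
  | zero => intro a b; simp
  | succ w ih => intro a b; rw [show a + n * (w + 1) = (a + n * w) + n by ring,
      show b + n * (w + 1) = (b + n * w) + n by ring, hper, ih]

/-- cutting a closed part out of a closed walk -/
lemma cut_closed (hper : ∀ a b, W (a + n) (b + n) = W a b) {v : ℕ → ℕ} {r i d w0 : ℕ}
    (hv : IsWalk n v r) (hir : i + d ≤ r) (he : v (i + d) = v i + n * w0) :
    ∃ u : ℕ → ℕ, IsWalk n u (r - d) ∧ u 0 = v 0 ∧ u (r - d) + n * w0 = v r ∧
      total W v r = total W (fun k => v (i + k)) d + total W u (r - d) := by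
  have hperw := per_mul (W := W) hper
  obtain ⟨s, hs⟩ : ∃ s, r = i + d + s := ⟨r - (i + d), by omega⟩
  set u : ℕ → ℕ := fun k => if k ≤ i then v k else v (k + d) - n * w0 with hu
  have hge : ∀ k, i ≤ k → k + d ≤ r → n * w0 ≤ v (k + d) := by
    intro k hk hkr
    have : v (i + d) ≤ v (k + d) := by
      rcases Nat.eq_or_lt_of_le hk with h | h
      · rw [h]
      · exact (hv.strictMono (by omega) hkr).le
    rw [he] at this
    omega
  have hud : ∀ k, i ≤ k → k + d ≤ r → u k = v (k + d) - n * w0 := by
    intro k hk _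
    rcases Nat.eq_or_lt_of_le hk with h | h
    · subst h
      simp only [hu, le_refl, if_true]
      rw [he]; omega
    · simp only [hu]
      rw [if_neg (by omega)]
  refine ⟨u, ?_, by simp [hu], ?_, ?_⟩
  · intro k hk
    rcases Nat.lt_or_ge k i with h | h
    · have e1 : u k = v k := by simp [hu, h.le]
      have e2 : u (k + 1) = v (k + 1) := by simp only [hu]; rw [if_pos (by omega)]
      rw [e1, e2]; exact hv k (by omega)
    · rw [hud k h (by omega), hud (k + 1) (by omega) (by omega)]
      have h1 := hv (k + d) (by omega)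
      have h2 := hge k h (by omega)
      rw [show k + 1 + d = k + d + 1 by ring]
      omega
  · rw [hud (r - d) (by omega) (by omega)]
    have := hge (r - d) (by omega) (by omega)
    rw [show r - d + d = r by omega] at this ⊢
    omega
  · have e1 : total W v r = total W v i + total W (fun k => v (i + k)) d +
        total W (fun k => v (i + d + k)) s := by
      rw [hs, total_add, total_add]
    have e2 : total W u (i + s) = total W v i + total W (fun k => v (i + d + k)) s := by
      rw [total_add]
      congr 1
      · exact total_congr (fun k hk => by simp [hu, hk])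
      · unfold total
        refine Finset.sum_congr rfl fun k hk => ?_
        have hk' := Finset.mem_range.1 hk
        show W (u (i + k)) (u (i + (k + 1))) = W (v (i + d + k)) (v (i + d + (k + 1)))
        rw [hud (i + k) (by omega) (by omega)]
        rw [hud (i + (k + 1)) (by omega) (by omega)]
        have h1 := hge (i + k) (by omega) (by omega)
        have h2 := hge (i + (k + 1)) (by omega) (by omega)
        have := hperw w0 (v (i + k + d) - n * w0) (v (i + (k + 1) + d) - n * w0)
        rw [Nat.sub_add_cancel h1, Nat.sub_add_cancel h2] at this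
        rw [← this, show i + d + k = i + k + d by ring,
          show i + d + (k + 1) = i + (k + 1) + d by ring]
    rw [show r - d = i + s by omega, e1, e2]
    ring

/-- all closed walks from the winding-one walks and the simple ones -/
lemma closed_split (hper : ∀ a b, W (a + n) (b + n) = W a b)
    (h1 : ∀ (v : ℕ → ℕ) (r : ℕ), r ≤ n → IsWalk n v r → v r = v 0 + n → total W v r ≤ c)
    (h2 : ∀ (v : ℕ → ℕ) (r w : ℕ), r ≤ n → 2 ≤ w → IsWalk n v r → v r = v 0 + n * w →
      Simple n v r → total W v r ≤ c * w) :
    ∀ (r : ℕ) (v : ℕ → ℕ) (w : ℕ), r ≤ n → IsWalk n v r → v r = v 0 + n * w → 1 ≤ w →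
      total W v r ≤ c * w := by
  intro r
  induction r using Nat.strong_induction_on with
  | _ r ih =>
    intro v w hr hv he hw
    rcases Nat.lt_or_ge 1 w with hw2 | hw2
    · by_cases hs : Simple n v r
      · exact h2 v r w hr hw2 hv he hs
      · unfold Simple at hs
        push Not at hs
        obtain ⟨i, hi, j, hj, hmod, hne⟩ := hs
        have key : ∀ i j, i < j → j < r → v i % n = v j % n → total W v r ≤ c * w := by
          intro i j hij hj hmod
          have hlt : v i < v j := hv.strictMono hij (by omega)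
          obtain ⟨w0, hw0⟩ : ∃ w0, v j = v i + n * w0 := by
            have h1 := Nat.div_add_mod (v i) n
            have h2 := Nat.div_add_mod (v j) n
            refine ⟨v j / n - v i / n, ?_⟩
            have h3 : v i / n ≤ v j / n := Nat.div_le_div_right hlt.le
            rw [Nat.mul_sub]
            have h4 : n * (v i / n) ≤ n * (v j / n) := Nat.mul_le_mul_left _ h3
            omega
          have hw1 : 1 ≤ w0 := by
            rcases Nat.eq_zero_or_pos w0 with h | h
            · subst h; simp at hw0; omega
            · exact h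
          obtain ⟨d, rfl⟩ : ∃ d, j = i + d := ⟨j - i, by omega⟩
          obtain ⟨u, hu1, hu2, hu3, hu4⟩ := cut_closed (W := W) hper hv hj.le hw0
          have hlt2 : u 0 < u (r - d) := hu1.strictMono (by omega) le_rfl
          have hww : w0 < w := by
            by_contra hcon
            push Not at hcon
            have : n * w ≤ n * w0 := Nat.mul_le_mul_left _ hcon
            omega
          have hend : u (r - d) = u 0 + n * (w - w0) := by
            have : n * (w - w0) + n * w0 = n * w := by rw [← mul_add, Nat.sub_add_cancel hww.le]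
            omega
          have t1 := ih d (by omega) (fun k => v (i + k)) w0 (by omega)
            (fun k hk => hv (i + k) (by omega)) (by
              show v (i + d) = v (i + 0) + n * w0
              rw [hw0]; rfl) hw1
          have t2 := ih (r - d) (by omega) u (w - w0) (by omega) hu1 hend (by omega)
          rw [hu4]
          have e8 : ((w - w0 : ℕ) : ℝ) = (w : ℝ) - w0 := by push_cast [hww.le]; ring
          rw [e8] at t2
          linarith
        rcases Nat.lt_or_gt_of_ne hne with h | h
        · exact key i j h hj hmod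
        · exact key j i h hi hmod.symm
    · have hw1 : w = 1 := by omega
      subst hw1
      have := h1 v r hr hv (by rw [he, mul_one])
      push_cast
      linarith

end split

section lift

variable {n : ℕ}

/-- class modulo `n` -/
def clN (n : ℕ) (hn : 0 < n) (a : ℕ) : Fin n := ⟨a % n, Nat.mod_lt _ hn⟩

lemma clN_add (hn : 0 < n) (a : ℕ) : clN n hn (a + n) = clN n hn a := by
  unfold clN; congr 1; exact Nat.add_mod_right a n

lemma clN_add_mul (hn : 0 < n) (a w : ℕ) : clN n hn (a + n * w) = clN n hn a := by
  unfold clN; congr 1; exact Nat.add_mul_mod_self_left a n w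

lemma clN_of_lt (hn : 0 < n) {a : ℕ} (h : a < n) : clN n hn a = ⟨a, h⟩ := by
  unfold clN; congr 1; exact Nat.mod_eq_of_lt h

lemma clN_step_ne (hn : 0 < n) {a b : ℕ} (h : a < b ∧ b < a + n) : clN n hn a ≠ clN n hn b := by
  intro he
  have h1 : a % n = b % n := congrArg Fin.val he
  have h2 : a ≡ b [MOD n] := h1
  have h3 := (Nat.modEq_iff_dvd' h.1.le).1 h2
  have := Nat.le_of_dvd (by omega) h3
  omega

/-- lifted longitudes -/
noncomputable def lft (n : ℕ) (hn : 0 < n) (φ : Fin n → ℝ) (m : ℕ) : ℝ :=
  φ (clN n hn m) + 2 * π * (m / n : ℕ)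

lemma lft_add_mul (hn : 0 < n) (φ : Fin n → ℝ) (m w : ℕ) :
    lft n hn φ (m + n * w) = lft n hn φ m + 2 * π * w := by
  unfold lft
  rw [clN_add_mul, Nat.add_mul_div_left _ _ hn]
  push_cast; ring

/-- steps of lifted longitudes -/
lemma lft_step (hn : 0 < n) {ω : Fin n → Fin n → ℝ} (hsym : ∀ i j, ω i j = ω j i) {φ : Fin n → ℝ}
    (h : ∀ i j, i < j → ω i j ≤ φ j - φ i ∧ φ j - φ i ≤ 2 * π - ω i j) {a b : ℕ} (hab : a < b)
    (hba : b < a + n) : ω (clN n hn a) (clN n hn b) ≤ lft n hn φ b - lft n hn φ a := by
  have h1 := Nat.div_add_mod a n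
  have h2 := Nat.div_add_mod b n
  have h3 := Nat.mod_lt a hn
  have h4 := Nat.mod_lt b hn
  have hq : a / n ≤ b / n := Nat.div_le_div_right hab.le
  have hq2 : b / n ≤ a / n + 1 := by
    by_contra hcon
    push Not at hcon
    have : n * (a / n + 2) ≤ n * (b / n) := Nat.mul_le_mul_left _ (by omega)
    rw [mul_add] at this
    omega
  rcases Nat.lt_or_ge (a / n) (b / n) with hd | hd
  · have hd1 : b / n = a / n + 1 := by omega
    have h5 : n * (b / n) = n * (a / n) + n := by rw [hd1]; ring
    have hlt : clN n hn b < clN n hn a := by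
      show b % n < a % n
      omega
    have := (h _ _ hlt).2
    rw [hsym] at this
    simp only [lft, hd1]
    push_cast
    linarith
  · have hd1 : b / n = a / n := by omega
    have h5 : n * (b / n) = n * (a / n) := by rw [hd1]
    have hlt : clN n hn a < clN n hn b := by
      show a % n < b % n
      omega
    have := (h _ _ hlt).1
    simp only [lft, hd1]
    linarith

lemma lft_tel (hn : 0 < n) {ω : Fin n → Fin n → ℝ} (hsym : ∀ i j, ω i j = ω j i) {φ : Fin n → ℝ}
    (h : ∀ i j, i < j → ω i j ≤ φ j - φ i ∧ φ j - φ i ≤ 2 * π - ω i j) {v : ℕ → ℕ} :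
    ∀ r, IsWalk n v r → total (fun a b => ω (clN n hn a) (clN n hn b)) v r ≤
      lft n hn φ (v r) - lft n hn φ (v 0) := by
  intro r
  induction r with
  | zero => intro _; simp [total]
  | succ r ih =>
    intro hv
    rw [total_succ]
    have h1 := ih (fun i hi => hv i (by omega))
    have h2 := hv r (by omega)
    have h3 := lft_step hn hsym h h2.1 h2.2
    linarith

/-- **Strictness**: at a feasible state a simple closed walk of winding at least two is not tight -/
lemma simple_strict (hn : 2 ≤ n) {z φ : Fin n → ℝ} {D : Fin n → Fin n → Prop}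
    {ω : Fin n → Fin n → ℝ} (hsym : ∀ i j, ω i j = ω j i)
    (hz : ∀ i, -1 < z i ∧ z i ≤ 1 / 2)
    (hωD : ∀ i j, D i j → ω i j = -((n + 1) * π))
    (hωd : ∀ i j, i ≠ j → ¬ D i j → ω i j = wd (z i) (z j)) (hωle : ∀ i j, ω i j ≤ π)
    (hfree : ∀ i j, i ≠ j → D i j → √(1 - z i ^ 2) * √(1 - z j ^ 2) + z i * z j ≤ 1 / 2)
    (hq : ∀ i j, i ≠ j → ¬ D i j → -(√(1 - z i ^ 2) * √(1 - z j ^ 2)) ≤ 1 / 2 - z i * z j)
    (hv : ∀ i j, i ≠ j → ¬ D i j → -(1 / 3) < √(1 - z i ^ 2) * √(1 - z j ^ 2) + z i * z j)
    (h : ∀ i j, i < j → ω i j ≤ φ j - φ i ∧ φ j - φ i ≤ 2 * π - ω i j)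
    (v : ℕ → ℕ) (r w : ℕ) (hr : r ≤ n) (hw : 2 ≤ w) (hwk : IsWalk n v r)
    (he : v r = v 0 + n * w) (hs : Simple n v r) :
    total (fun a b => ω (clN n (by omega) a) (clN n (by omega) b)) v r < 2 * π * w := by
  classical
  have hn0 : 0 < n := by omega
  have hpi := Real.pi_pos
  have hle := lft_tel hn0 hsym h r hwk
  rw [he, lft_add_mul] at hle
  rcases lt_or_eq_of_le (show total (fun a b => ω (clN n hn0 a) (clN n hn0 b)) v r ≤ 2 * π * w by
    linarith) with hlt | heq
  · exact hlt
  exfalso
  have hwR : (2 : ℝ) ≤ w := by exact_mod_cast hw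
  have hr0 : 0 < r := by
    rcases Nat.eq_zero_or_pos r with h0 | h0
    · subst h0
      exfalso
      have h5 : n * w = 0 := by omega
      rcases Nat.mul_eq_zero.1 h5 with h6 | h6 <;> omega
    · exact h0
  -- no dropped edges
  have hnd : ∀ k < r, ¬ D (clN n hn0 (v k)) (clN n hn0 (v (k + 1))) := by
    intro k hk hD
    have h1 : total (fun a b => ω (clN n hn0 a) (clN n hn0 b)) v r ≤
        ∑ i ∈ Finset.range r, (if i = k then -((n + 1) * π) else π) := by
      unfold total
      refine Finset.sum_le_sum fun i hi => ?_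
      by_cases hik : i = k
      · subst hik; rw [if_pos rfl]; exact (hωD _ _ hD).le
      · rw [if_neg hik]; exact hωle _ _
    have h2 : ∑ i ∈ Finset.range r, (if i = k then -((n + 1) * π) else π) ≤
        ∑ i ∈ Finset.range r, (π + (if i = k then -((n + 1) * π) else 0)) := by
      refine Finset.sum_le_sum fun i hi => ?_
      by_cases hik : i = k
      · rw [if_pos hik, if_pos hik]; linarith
      · rw [if_neg hik, if_neg hik]; linarith
    rw [Finset.sum_add_distrib, Finset.sum_ite_eq' (Finset.range r) k] at h2
    simp only [Finset.mem_range, hk, if_true, Finset.sum_const, Finset.card_range,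
      nsmul_eq_mul] at h2
    have h3 : (r : ℝ) ≤ n := by exact_mod_cast hr
    rw [heq] at h1
    nlinarith
  -- every edge is tight
  have htight : ∀ k < r, lft n hn0 φ (v (k + 1)) - lft n hn0 φ (v k) =
      ω (clN n hn0 (v k)) (clN n hn0 (v (k + 1))) := by
    intro k hk
    obtain ⟨s, hs'⟩ : ∃ s, r = k + 1 + s := ⟨r - (k + 1), by omega⟩
    have t1 := lft_tel hn0 hsym h k (fun i hi => hwk i (by omega))
    have t2 := lft_tel hn0 hsym h (v := fun i => v (k + 1 + i)) s (fun i hi => by
      have := hwk (k + 1 + i) (by omega)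
      simpa [add_assoc] using this)
    have t3 := lft_step hn0 hsym h (hwk k hk).1 (hwk k hk).2
    have e1 : total (fun a b => ω (clN n hn0 a) (clN n hn0 b)) v r =
        total (fun a b => ω (clN n hn0 a) (clN n hn0 b)) v k +
        ω (clN n hn0 (v k)) (clN n hn0 (v (k + 1))) +
        total (fun a b => ω (clN n hn0 a) (clN n hn0 b)) (fun i => v (k + 1 + i)) s := by
      rw [hs', total_add, total_succ]
    have e2 : lft n hn0 φ (v r) = lft n hn0 φ (v 0) + 2 * π * w := by rw [he, lft_add_mul]
    simp only [add_zero] at t2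
    rw [← hs', e2] at t2
    linarith
  have hin : ∀ i j, i ≠ j → gg (z i) (z j) (φ i) (φ j) ≤ 1 / 2 := by
    have key : ∀ i j, i < j → gg (z i) (z j) (φ i) (φ j) ≤ 1 / 2 := by
      intro i j hij
      have c1 := mul_pos (sqrt_pos_of (hz i)) (sqrt_pos_of (hz j))
      by_cases hD : D i j
      · have := hfree i j hij.ne hD
        unfold gg
        have := Real.cos_le_one (φ i - φ j)
        nlinarith
      · obtain ⟨a1, a2⟩ := h i j hij
        rw [hωd i j hij.ne hD] at a1 a2
        have q1 := hq i j hij.ne hD
        have q2 : -1 ≤ (1 / 2 - z i * z j) / (√(1 - z i ^ 2) * √(1 - z j ^ 2)) := by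
          rw [le_div_iff₀ c1]; linarith
        have q3 := cos_le_of_arccos q2 a1 a2
        rw [le_div_iff₀ c1] at q3
        unfold gg
        rw [← cos_neg, neg_sub]
        linarith
    intro i j hij
    rcases lt_or_gt_of_ne hij with h1 | h1
    · exact key i j h1
    · rw [gg]; have := key j i h1; unfold gg at this; rw [← cos_neg, neg_sub]; linarith
  have hmod : ∀ k, k % r < r := fun k => Nat.mod_lt _ hr0
  refine no_tight_seq (n := n) (r := r) (w := w) (z := z) (φ := φ) (D := D)
    (κ := fun k => clN n hn0 (v (k % r))) (α := fun k => lft n hn0 φ (v (k % r)) +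
      2 * π * w * (k / r : ℕ)) hr0 hw hz hin hq hv ?_ ?_ ?_ ?_ ?_
  · intro k l
    constructor
    · intro hkl
      have : v (k % r) % n = v (l % r) % n := congrArg Fin.val hkl
      exact hs _ (hmod k) _ (hmod l) this
    · intro hkl
      show clN n hn0 (v (k % r)) = clN n hn0 (v (l % r))
      rw [hkl]
  · intro k
    simp only [Nat.add_mod_right, Nat.add_div_right _ hr0]
    push_cast; ring
  · intro k
    refine ⟨(v (k % r) / n : ℕ) + w * (k / r : ℕ), ?_⟩
    simp only [lft]
    generalize k / r = q
    generalize v (k % r) / n = q'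
    push_cast
    ring
  · intro k
    have a1 := Nat.div_add_mod k r
    have hkey : lft n hn0 φ (v ((k + 1) % r)) + 2 * π * w * ((k + 1) / r : ℕ) =
        lft n hn0 φ (v (k % r + 1)) + 2 * π * w * (k / r : ℕ) ∧
        clN n hn0 (v ((k + 1) % r)) = clN n hn0 (v (k % r + 1)) := by
      rcases Nat.lt_or_ge (k % r + 1) r with h5 | h5
      · have b1 : (k + 1) % r = k % r + 1 := by
          conv_lhs => rw [← a1]
          rw [add_assoc, Nat.mul_add_mod, Nat.mod_eq_of_lt h5]
        have b2 : (k + 1) / r = k / r := by
          conv_lhs => rw [← a1]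
          rw [add_assoc, Nat.mul_add_div hr0, Nat.div_eq_of_lt h5, add_zero]
        rw [b1, b2]; exact ⟨rfl, rfl⟩
      · have h2 : k % r + 1 = r := by have := hmod k; omega
        have b1 : (k + 1) % r = 0 := by
          conv_lhs => rw [← a1]
          rw [add_assoc, h2, Nat.mul_add_mod, Nat.mod_self]
        have b2 : (k + 1) / r = k / r + 1 := by
          conv_lhs => rw [← a1]
          rw [add_assoc, h2, Nat.mul_add_div hr0, Nat.div_self hr0]
        rw [b1, b2, h2, he, lft_add_mul, clN_add_mul]
        refine ⟨?_, rfl⟩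
        push_cast; ring
    show lft n hn0 φ (v ((k + 1) % r)) + 2 * π * w * ((k + 1) / r : ℕ) -
      (lft n hn0 φ (v (k % r)) + 2 * π * w * (k / r : ℕ)) =
      wd (z (clN n hn0 (v (k % r)))) (z (clN n hn0 (v ((k + 1) % r))))
    rw [hkey.1, hkey.2]
    have := htight (k % r) (hmod k)
    rw [hωd _ _ (clN_step_ne hn0 (hwk _ (hmod k))) (hnd _ (hmod k))] at this
    linarith
  · intro k
    have a1 := Nat.div_add_mod k r
    have hkey : clN n hn0 (v ((k + 1) % r)) = clN n hn0 (v (k % r + 1)) := by
      rcases Nat.lt_or_ge (k % r + 1) r with h5 | h5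
      · have b1 : (k + 1) % r = k % r + 1 := by
          conv_lhs => rw [← a1]
          rw [add_assoc, Nat.mul_add_mod, Nat.mod_eq_of_lt h5]
        rw [b1]
      · have h2 : k % r + 1 = r := by have := hmod k; omega
        have b1 : (k + 1) % r = 0 := by
          conv_lhs => rw [← a1]
          rw [add_assoc, h2, Nat.mul_add_mod, Nat.mod_self]
        rw [b1, h2, he, clN_add_mul]
    show ¬ D (clN n hn0 (v (k % r))) (clN n hn0 (v ((k + 1) % r)))
    rw [hkey]
    exact hnd _ (hmod k)

/-- finitely many simple closed walks matter -/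
lemma eventually_simple (hn : 0 < n) {X : Type*} {l : Filter X} {W : X → ℕ → ℕ → ℝ} {c : ℝ}
    (hper : ∀ x a b, W x (a + n) (b + n) = W x a b)
    (h : ∀ (v : ℕ → ℕ) (r w : ℕ), r ≤ n → 2 ≤ w → IsWalk n v r → v r = v 0 + n * w →
      Simple n v r → ∀ᶠ x in l, total (W x) v r ≤ c * w) :
    ∀ᶠ x in l, ∀ (v : ℕ → ℕ) (r w : ℕ), r ≤ n → 2 ≤ w → IsWalk n v r → v r = v 0 + n * w →
      Simple n v r → total (W x) v r ≤ c * w := by
  classical
  set N := n + n * n + 1 with hN
  have hfin : ∀ᶠ x in l, ∀ (r : Fin (n + 1)) (w : Fin (n + 1)) (u : Fin (n + 1) → Fin N),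
      2 ≤ w.val → IsWalk n (fun k => (u ⟨min k n, by omega⟩).val) r →
      (fun k => (u ⟨min k n, by omega⟩).val) r.val =
        (fun k => (u ⟨min k n, by omega⟩).val) 0 + n * w →
      Simple n (fun k => (u ⟨min k n, by omega⟩).val) r →
      total (W x) (fun k => (u ⟨min k n, by omega⟩).val) r ≤ c * w.val := by
    rw [eventually_all]; intro r
    rw [eventually_all]; intro w
    rw [eventually_all]; intro u
    by_cases hw : 2 ≤ w.val
    · by_cases h1 : IsWalk n (fun k => (u ⟨min k n, by omega⟩).val) r
      · by_cases h2 : (fun k => (u ⟨min k n, by omega⟩).val) r.val =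
            (fun k => (u ⟨min k n, by omega⟩).val) 0 + n * w
        · by_cases h3 : Simple n (fun k => (u ⟨min k n, by omega⟩).val) r
          · filter_upwards [h _ r.val w.val (by omega) hw h1 h2 h3] with x hx _ _ _ _ using hx
          · exact Eventually.of_forall fun x _ _ _ h => absurd h h3
        · exact Eventually.of_forall fun x _ _ h => absurd h h2
      · exact Eventually.of_forall fun x _ h => absurd h h1
    · exact Eventually.of_forall fun x h => absurd h hw
  filter_upwards [hfin] with x hx v r w hr hw hv he hs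
  -- shift the base point below `n`
  set q := v 0 / n with hq
  have hv0 : v 0 = n * q + v 0 % n := (Nat.div_add_mod (v 0) n).symm
  have hmono : ∀ k, k ≤ r → v 0 ≤ v k := by
    intro k hk
    rcases Nat.eq_zero_or_pos k with h0 | h0
    · rw [h0]
    · exact (hv.strictMono h0 hk).le
  have hbd : ∀ k, k ≤ r → v k ≤ v 0 + (n - 1) * k := by
    intro k
    induction k with
    | zero => intro _; simp
    | succ k ih =>
      intro hk
      have := hv k (by omega)
      have := ih (by omega)
      rw [mul_add]; omega
  have hkn : ∀ k, k ≤ r → (n - 1) * k ≤ n * n := by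
    intro k hk
    calc (n - 1) * k ≤ (n - 1) * n := Nat.mul_le_mul_left _ (by omega)
      _ ≤ n * n := Nat.mul_le_mul_right _ (by omega)
  have hm := Nat.mod_lt (v 0) hn
  set u : ℕ → ℕ := fun k => v k - n * q with hu
  have huN : ∀ k, k ≤ r → u k < N := by
    intro k hk
    have := hbd k hk
    have := hkn k hk
    simp only [hu]; omega
  have huv : ∀ k, k ≤ r → u k + n * q = v k := by
    intro k hk
    have := hmono k hk
    simp only [hu]; omega
  set f : Fin (n + 1) → Fin N := fun k => if h : k.val ≤ r then ⟨u k.val, huN _ h⟩ else ⟨0, by omega⟩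
    with hf
  have hfu : ∀ k, k ≤ r → (f ⟨min k n, by omega⟩).val = u k := by
    intro k hk
    have : min k n = k := min_eq_left (hk.trans hr)
    simp only [hf, this, hk, dif_pos]
  have hwn : w ≤ n := by
    by_contra hcon
    push Not at hcon
    have h1 : n * (n + 1) ≤ n * w := Nat.mul_le_mul_left _ (by omega)
    have h2 := hbd r le_rfl
    have h3 := hkn r le_rfl
    rw [mul_add] at h1
    omega
  have key := hx ⟨r, by omega⟩ ⟨w, by omega⟩ f hw (by
      intro k hk
      have hk' : k < r := hk
      show (f ⟨min k n, by omega⟩).val < (f ⟨min (k + 1) n, by omega⟩).val ∧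
        (f ⟨min (k + 1) n, by omega⟩).val < (f ⟨min k n, by omega⟩).val + n
      rw [hfu k hk'.le, hfu (k + 1) hk']
      have := hv k hk'
      have := huv k hk'.le
      have := huv (k + 1) hk'
      omega) (by
      show (f ⟨min r n, by omega⟩).val = (f ⟨min 0 n, by omega⟩).val + n * w
      rw [hfu r le_rfl, hfu 0 (by omega)]
      have := huv r le_rfl
      have := huv 0 (by omega)
      omega) (by
      intro i hi j hj hij
      have hi' : i < r := hi
      have hj' : j < r := hj
      have hij' : (f ⟨min i n, by omega⟩).val % n = (f ⟨min j n, by omega⟩).val % n := hij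
      rw [hfu i hi'.le, hfu j hj'.le] at hij'
      refine hs i hi j hj ?_
      rw [← huv i hi'.le, ← huv j hj'.le, Nat.add_mul_mod_self_left, Nat.add_mul_mod_self_left]
      exact hij')
  have e1 : total (W x) (fun k => (f ⟨min k n, by omega⟩).val) r = total (W x) u r :=
    total_congr fun k hk => hfu k hk
  have e2 : total (W x) u r = total (W x) v r := by
    unfold total
    refine Finset.sum_congr rfl fun k hk => ?_
    have hk' := Finset.mem_range.1 hk
    rw [← huv k hk'.le, ← huv (k + 1) hk', per_mul (hper x)]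
  have key' : total (W x) (fun k => (f ⟨min k n, by omega⟩).val) r ≤ c * w := key
  rw [e1, e2] at key'
  exact key'

/-- potentials satisfy the pair constraints -/
lemma pot_pair (hn : 2 ≤ n) {ω : Fin n → Fin n → ℝ} (hsym : ∀ i j, ω i j = ω j i)
    (hcl : ∀ (v : ℕ → ℕ) (r w : ℕ), r ≤ n → IsWalk n v r → v r = v 0 + n * w → 1 ≤ w →
      total (fun a b => ω (clN n (by omega) a) (clN n (by omega) b)) v r ≤ 2 * π * w) :
    ∀ i j : Fin n, i < j →
      ω i j ≤ pot n (2 * π) (fun a b => ω (clN n (by omega) a) (clN n (by omega) b)) (by omega) j.val -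
        pot n (2 * π) (fun a b => ω (clN n (by omega) a) (clN n (by omega) b)) (by omega) i.val ∧
      pot n (2 * π) (fun a b => ω (clN n (by omega) a) (clN n (by omega) b)) (by omega) j.val -
        pot n (2 * π) (fun a b => ω (clN n (by omega) a) (clN n (by omega) b)) (by omega) i.val ≤
        2 * π - ω i j := by
  intro i j hij
  have hn0 : 0 < n := by omega
  have hi := i.isLt
  have hj := j.isLt
  have ei : clN n hn0 i.val = i := by rw [clN_of_lt hn0 hi]
  have ej : clN n hn0 j.val = j := by rw [clN_of_lt hn0 hj]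
  have hper : ∀ a b, (fun a b => ω (clN n hn0 a) (clN n hn0 b)) (a + n) (b + n) =
      (fun a b => ω (clN n hn0 a) (clN n hn0 b)) a b := by
    intro a b; simp only [clN_add]
  have h1 := pot_lower (n := n) (W := fun a b => ω (clN n hn0 a) (clN n hn0 b)) (c := 2 * π)
    hn0 (i := i.val) (j := j.val) hij hj hper
  have h2 := pot_upper (n := n) (W := fun a b => ω (clN n hn0 a) (clN n hn0 b)) (c := 2 * π)
    hn (i := i.val) (j := j.val) hij hj hper hcl
  simp only [clN_add, ei, ej] at h1 h2
  rw [hsym j i] at h2
  exact ⟨h1, h2⟩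

end lift

end Pool.Agent.Helper66.Kiss
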