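import Pool.Agent.Helper66.Kiss.ChordB
import Pool.Agent.Helper66.Kiss.Lift

set_option autoImplicit false

/-! # The end region: pairs, caps of walks, coordinates -/

namespace Pool.Agent.Helper66.Kiss

open Real Set Filter Topology

/-! ## coordinates -/

/-- coordinate of a height -/
noncomputable def aU (z : ℝ) : ℝ := √((1 + z) / (3 * (1 - z)))

/-- tangent of half the polar distance from the south pole -/
noncomputable def tS (z : ℝ) : ℝ := √((1 + z) / (1 - z))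

lemma aU_sq {z : ℝ} (hz : -1 < z ∧ z < 1) : aU z ^ 2 = (1 + z) / (3 * (1 - z)) := by
  unfold aU
  have h1 : 0 < 1 + z := by linarith [hz.1]
  have h2 : 0 < 1 - z := by linarith [hz.2]
  exact Real.sq_sqrt (by positivity)

lemma aU_pos {z : ℝ} (hz : -1 < z ∧ z < 1) : 0 < aU z := by
  have h1 : 0 < 1 + z := by linarith [hz.1]
  have h2 : 0 < 1 - z := by linarith [hz.2]
  exact Real.sqrt_pos.2 (by positivity)

lemma zU_aU {z : ℝ} (hz : -1 < z ∧ z < 1) : zU (aU z) = z := by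
  have h2 : 0 < 1 - z := by linarith [hz.2]
  unfold zU
  rw [aU_sq hz]
  field_simp
  ring

lemma zL_aU {z : ℝ} (hz : -1 < z ∧ z < 1) : zL (aU (-z)) = z := by
  rw [zL_eq, zU_aU ⟨by linarith [hz.2], by linarith [hz.1]⟩, neg_neg]

lemma tS_sq {z : ℝ} (hz : -1 < z ∧ z < 1) : tS z ^ 2 = (1 + z) / (1 - z) := by
  unfold tS
  have h1 : 0 < 1 + z := by linarith [hz.1]
  have h2 : 0 < 1 - z := by linarith [hz.2]
  exact Real.sq_sqrt (by positivity)

lemma tS_pos {z : ℝ} (hz : -1 < z ∧ z < 1) : 0 < tS z := by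
  have h1 : 0 < 1 + z := by linarith [hz.1]
  have h2 : 0 < 1 - z := by linarith [hz.2]
  exact Real.sqrt_pos.2 (by positivity)

lemma zS_tS {z : ℝ} (hz : -1 < z ∧ z < 1) : zS (tS z) = z := by
  have h2 : 0 < 1 - z := by linarith [hz.2]
  unfold zS
  rw [tS_sq hz]
  field_simp
  ring

lemma aU_bd_U {z : ℝ} (h1 : 1 / 2 - 3 / 512 ≤ z) (h2 : z ≤ 1 / 2) :
    0 ≤ 1 - aU z ∧ 1 - aU z ≤ 0.0078 := by
  have hz : -1 < z ∧ z < 1 := ⟨by linarith, by linarith⟩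
  have h0 := aU_pos hz
  have hs := aU_sq hz
  have hd : 0 < 3 * (1 - z) := by linarith
  have e1 : (0.9922 : ℝ) ^ 2 ≤ aU z ^ 2 := by
    rw [hs, le_div_iff₀ hd]; norm_num; linarith
  have e2 : aU z ^ 2 ≤ 1 := by
    rw [hs, div_le_iff₀ hd]; linarith
  constructor
  · nlinarith
  · by_contra hcon
    push Not at hcon
    nlinarith

lemma aU_bd_L {z : ℝ} (h1 : |z + 1 / 2| ≤ 4 / 512) :
    -0.0106 ≤ 1 - aU (-z) ∧ 1 - aU (-z) ≤ 0.0104 := by
  obtain ⟨g1, g2⟩ := abs_le.1 h1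
  have hz : -1 < -z ∧ -z < 1 := ⟨by linarith, by linarith⟩
  have h0 := aU_pos hz
  have hs := aU_sq hz
  have hd : 0 < 3 * (1 - -z) := by linarith
  have e1 : (0.9896 : ℝ) ^ 2 ≤ aU (-z) ^ 2 := by
    rw [hs, le_div_iff₀ hd]; norm_num; linarith
  have e2 : aU (-z) ^ 2 ≤ 1.0106 ^ 2 := by
    rw [hs, div_le_iff₀ hd]; norm_num; linarith
  constructor
  · by_contra hcon
    push Not at hcon
    nlinarith
  · by_contra hcon
    push Not at hcon
    nlinarith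

lemma aU_nonneg_L {z : ℝ} (h0 : -1 < z) (h1 : -(1 / 2) ≤ z) (h2 : z < 1) : 0 ≤ 1 - aU (-z) := by
  have hz : -1 < -z ∧ -z < 1 := ⟨by linarith, by linarith⟩
  have h0 := aU_pos hz
  have hs := aU_sq hz
  have hd : 0 < 3 * (1 - -z) := by linarith
  have e2 : aU (-z) ^ 2 ≤ 1 := by
    rw [hs, div_le_iff₀ hd]; linarith
  nlinarith

lemma tS_bd {z : ℝ} (h0 : -1 < z) (h1 : z ≤ -(99 / 100)) : 0 < tS z ∧ tS z ≤ 0.0709 := by
  have hz : -1 < z ∧ z < 1 := ⟨h0, by linarith⟩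
  refine ⟨tS_pos hz, ?_⟩
  have hs := tS_sq hz
  have hd : 0 < 1 - z := by linarith
  have e2 : tS z ^ 2 ≤ 0.0709 ^ 2 := by
    rw [hs, div_le_iff₀ hd]; norm_num; linarith
  have := tS_pos hz
  nlinarith

/-- path coordinate of a lower point -/
noncomputable def eL (σ x : ℝ) : ℝ := if 0 ≤ x then σ ^ 2 * x else σ ^ 4 * x

lemma one_sub_pow4 {σ : ℝ} (hσ : 0 ≤ σ) : 1 - σ ^ 4 ≤ 4 * (1 - σ) := by
  have e : 4 * (1 - σ) - (1 - σ ^ 4) = (1 - σ) ^ 2 * (3 + 2 * σ + σ ^ 2) := by ring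
  have := mul_nonneg (sq_nonneg (1 - σ)) (by positivity : (0 : ℝ) ≤ 3 + 2 * σ + σ ^ 2)
  linarith

lemma eL_bd {σ x : ℝ} (hσ : 0 ≤ σ ∧ σ ≤ 1) (hx : -0.0106 ≤ x ∧ x ≤ 0.0104) :
    -0.0106 ≤ eL σ x ∧ eL σ x ≤ 0.0104 ∧ x - eL σ x ≤ (1 - σ) * 0.0208 := by
  have h2 : σ ^ 2 ≤ 1 := pow_le_one₀ hσ.1 hσ.2
  have h4 : σ ^ 4 ≤ 1 := pow_le_one₀ hσ.1 hσ.2
  have h20 : 0 ≤ σ ^ 2 := pow_nonneg hσ.1 2
  have h40 : 0 ≤ σ ^ 4 := pow_nonneg hσ.1 4
  unfold eL
  split_ifs with h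
  · have e1 : 0 ≤ σ ^ 2 * x := mul_nonneg h20 h
    have e2 : σ ^ 2 * x ≤ x := by nlinarith
    refine ⟨by linarith [hx.1], by linarith [hx.2], ?_⟩
    have e3 : x * (1 - σ) ≤ 0.0104 * (1 - σ) := mul_le_mul_of_nonneg_right hx.2 (by linarith [hσ.2])
    have e4 : x - σ ^ 2 * x = x * (1 - σ) * (1 + σ) := by ring
    have e5 : x * (1 - σ) * (1 + σ) ≤ 0.0104 * (1 - σ) * 2 :=
      mul_le_mul e3 (by linarith [hσ.2]) (by linarith [hσ.1]) (by nlinarith [hσ.2])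
    linarith
  · push Not at h
    have e1 : σ ^ 4 * x ≤ 0 := mul_nonpos_of_nonneg_of_nonpos h40 h.le
    have e2 : x ≤ σ ^ 4 * x := by nlinarith
    refine ⟨by linarith [hx.1], by linarith, ?_⟩
    have : 0 ≤ (1 - σ) * 0.0208 := by nlinarith [hσ.2]
    linarith

/-! ## the pairs -/

lemma Qs_eq_cases {σ x y : ℝ} (hσ : 0 ≤ σ ∧ σ ≤ 1) (hx : 0 ≤ x ∧ x ≤ 0.0078)
    (hy : 0 ≤ y ∧ y ≤ 0.0078) :
    wd (zU (1 - σ ^ 4 * x)) (zU (1 - σ ^ 4 * y)) ≤
      σ * wd (zU (1 - x)) (zU (1 - y)) + (1 - σ) * CC := by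
  have h4 : σ ^ 4 ≤ 1 := pow_le_one₀ hσ.1 hσ.2
  have h40 : 0 ≤ σ ^ 4 := pow_nonneg hσ.1 4
  have aux : ∀ u : ℝ, 0 ≤ u → u ≤ 0.0078 → 0 ≤ σ ^ 4 * u ∧ σ ^ 4 * u ≤ 0.0078 ∧
      1 - σ ^ 4 * u - (1 - u) ≤ (1 - σ) * 0.0312 := by
    intro u h0 h1
    have e1 : 0 ≤ σ ^ 4 * u := mul_nonneg h40 h0
    have e2 : σ ^ 4 * u ≤ u := by nlinarith
    refine ⟨e1, by linarith, ?_⟩
    have e3 : u * (1 - σ ^ 4) ≤ 0.0078 * (4 * (1 - σ)) :=
      mul_le_mul h1 (one_sub_pow4 hσ.1) (by linarith) (by norm_num)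
    linarith
  obtain ⟨a1, a2, a3⟩ := aux x hx.1 hx.2
  obtain ⟨b1, b2, b3⟩ := aux y hy.1 hy.2
  rw [wd_UU (by linarith) (by linarith), wd_UU (by linarith [hx.2]) (by linarith [hy.2])]
  refine same_chord ⟨by linarith [hx.2], by linarith [hx.1]⟩ ⟨by linarith, by linarith⟩
    ⟨by linarith [hy.2], by linarith [hy.1]⟩ ⟨by linarith, by linarith⟩ hσ (by norm_num) a3 b3 ?_
  have := Qs_ge (a := 1 - x) (b := 1 - y) (e := 0) ⟨by linarith [hx.2], by linarith [hx.1]⟩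
    ⟨by linarith [hy.2], by linarith [hy.1]⟩ le_rfl (by linarith [hx.1]) (by linarith [hy.1])
  norm_num at this ⊢
  linarith

lemma chord_LL {σ x y : ℝ} (hσ : 0 ≤ σ ∧ σ ≤ 1) (hx : -0.0106 ≤ x ∧ x ≤ 0.0104)
    (hy : -0.0106 ≤ y ∧ y ≤ 0.0104) :
    wd (zL (1 - eL σ x)) (zL (1 - eL σ y)) ≤
      σ * wd (zL (1 - x)) (zL (1 - y)) + (1 - σ) * CC := by
  obtain ⟨a1, a2, a3⟩ := eL_bd hσ hx
  obtain ⟨b1, b2, b3⟩ := eL_bd hσ hy
  rw [wd_LL (by linarith) (by linarith), wd_LL (by linarith [hx.2]) (by linarith [hy.2])]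
  refine same_chord (e := 0.0208) ⟨by linarith [hx.2], by linarith [hx.1]⟩ ⟨by linarith, by linarith⟩
    ⟨by linarith [hy.2], by linarith [hy.1]⟩ ⟨by linarith, by linarith⟩ hσ (by norm_num)
    (by linarith) (by linarith) ?_
  have := Qs_ge (a := 1 - x) (b := 1 - y) (e := 0.0106) ⟨by linarith [hx.2], by linarith [hx.1]⟩
    ⟨by linarith [hy.2], by linarith [hy.1]⟩ (by norm_num) (by linarith [hx.1]) (by linarith [hy.1])
  norm_num at this ⊢
  linarith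

lemma low_UU {x y : ℝ} (hx : 0 ≤ x ∧ x ≤ 0.0078) (hy : 0 ≤ y ∧ y ≤ 0.0078) :
    CC - 0.035 ≤ wd (zU (1 - x)) (zU (1 - y)) := by
  rw [wd_UU (by linarith [hx.2]) (by linarith [hy.2])]
  exact wlow (Qs_le ⟨by linarith [hx.2], by linarith [hx.1]⟩ ⟨by linarith [hy.2], by linarith [hy.1]⟩)

lemma low_LL {x y : ℝ} (hx : -0.0106 ≤ x ∧ x ≤ 0.0104) (hy : -0.0106 ≤ y ∧ y ≤ 0.0104) :
    CC - 0.035 ≤ wd (zL (1 - x)) (zL (1 - y)) := by
  rw [wd_LL (by linarith [hx.2]) (by linarith [hy.2])]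
  exact wlow (Qs_le ⟨by linarith [hx.2], by linarith [hx.1]⟩ ⟨by linarith [hy.2], by linarith [hy.1]⟩)

lemma Qm_ge {a b : ℝ} (ha : 0.98 ≤ a ∧ a ≤ 1.02) (hb : 0.98 ≤ b ∧ b ≤ 1.02) : -1 ≤ Qm a b := by
  unfold Qm
  have h1 : 0 < 8 * a * b := by
    have : 0 < a := by linarith [ha.1]
    have : 0 < b := by linarith [hb.1]
    positivity
  rw [le_div_iff₀ h1]
  nlinarith [sq_nonneg (a * b), mul_pos (by linarith [ha.1] : (0 : ℝ) < a) (by linarith [hb.1] : (0 : ℝ) < b),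
    ha.1, ha.2, hb.1, hb.2]

lemma chord_UL {σ x y : ℝ} (hσ : 0 ≤ σ ∧ σ ≤ 1) (hx : 0 ≤ x ∧ x ≤ 0.0078)
    (hy : -0.0106 ≤ y ∧ y ≤ 0.0104) :
    wd (zU (1 - σ ^ 4 * x)) (zL (1 - eL σ y)) ≤ σ * wd (zU (1 - x)) (zL (1 - y)) := by
  obtain ⟨b1, b2, b3⟩ := eL_bd hσ hy
  have h4 : σ ^ 4 ≤ 1 := pow_le_one₀ hσ.1 hσ.2
  have h40 : 0 ≤ σ ^ 4 := pow_nonneg hσ.1 4
  have h2 : σ ^ 2 ≤ 1 := pow_le_one₀ hσ.1 hσ.2
  have h20 : 0 ≤ σ ^ 2 := pow_nonneg hσ.1 2
  have e1 : 0 ≤ σ ^ 4 * x := mul_nonneg h40 hx.1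
  have e2 : σ ^ 4 * x ≤ x := by nlinarith [hx.1]
  rw [wd_UL (by linarith [hx.2]) (by linarith), wd_UL (by linarith [hx.2]) (by linarith [hy.2])]
  have hQ : -1 ≤ Qm (1 - x) (1 - y) := Qm_ge ⟨by linarith [hx.2], by linarith [hx.1]⟩
    ⟨by linarith [hy.2], by linarith [hy.1]⟩
  rcases le_or_gt 0 y with h | h
  · have e3 : eL σ y = σ ^ 2 * y := by unfold eL; rw [if_pos h]
    rw [e3]
    refine ul_arccos (c := σ ^ 2) hσ hQ ⟨h20, le_rfl⟩ ?_
    have := ul_high (x := x) (y := y) (u := σ ^ 2) ⟨hx.1, by linarith [hx.2]⟩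
      ⟨h, by linarith [hy.2]⟩ ⟨h20, h2⟩
    rwa [show (σ ^ 2) ^ 2 = σ ^ 4 by ring] at this
  · have e3 : eL σ y = σ ^ 4 * y := by unfold eL; rw [if_neg (not_le.2 h)]
    rw [e3]
    refine ul_arccos (c := σ ^ 4) hσ hQ ⟨h40, pow_le_pow_of_le_one hσ.1 hσ.2 (by norm_num)⟩ ?_
    have := ul_deep (x := x) (v := -y) (w := σ ^ 4) ⟨hx.1, by linarith [hx.2]⟩
      ⟨by linarith, by linarith [hy.1]⟩ ⟨h40, h4⟩
    rw [neg_neg] at this
    rwa [show -(σ ^ 4 * -y) = σ ^ 4 * y by ring] at this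

lemma wd_comm' (z w : ℝ) : wd z w = wd w z := wd_comm z w

lemma chord_SL {σ τ x : ℝ} (hσ : 0 < σ ∧ σ ≤ 1) (hx : -0.0106 ≤ x ∧ x ≤ 0.0104)
    (hτ : 0 < τ ∧ τ ≤ 0.0061) (hq : -1 ≤ Qp τ (1 - x)) :
    wd (zS (σ ^ 3 * τ)) (zL (1 - eL σ x)) ≤
      σ * wd (zS τ) (zL (1 - x)) + (1 - σ) * Bs (Qp τ (1 - x)) := by
  obtain ⟨b1, b2, b3⟩ := eL_bd ⟨hσ.1.le, hσ.2⟩ hx
  have hσ0 := hσ.1
  have h3 : 0 < σ ^ 3 * τ := by have := hτ.1; positivity
  rw [wd_SL h3 (by linarith), wd_SL hτ.1 (by linarith [hx.2])]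
  refine sl_chord (η := y2 τ x) ⟨hσ.1.le, hσ.2⟩ hq (y2_bd ⟨by linarith [hx.1], hx.2⟩ hτ) ?_
  rcases le_or_gt 0 x with h | h
  · have e3 : eL σ x = σ ^ 2 * x := by unfold eL; rw [if_pos h]
    rw [e3]
    obtain ⟨c1, c2⟩ := sl_high (x := x) ⟨h, hx.2⟩ hτ.1 hσ
    exact Or.inl ⟨c2, c1⟩
  · have e3 : eL σ x = σ ^ 4 * x := by unfold eL; rw [if_neg (not_le.2 h)]
    rw [e3]
    obtain ⟨c1, c2⟩ := sl_deep (v := -x) ⟨by linarith, by linarith [hx.1]⟩ hτ.1 hσ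
    rw [neg_neg] at c1 c2
    rw [show -(σ ^ 4 * -x) = σ ^ 4 * x by ring] at c1
    exact Or.inr ⟨c2, c1⟩

/-- the cosine stays above `-1` -/
lemma Qp_path_ge {σ τ x : ℝ} (hσ : 0 < σ ∧ σ ≤ 1) (hx : -0.0106 ≤ x ∧ x ≤ 0.0104)
    (hτ : 0 < τ ∧ τ ≤ 0.0061) (hq : -1 ≤ Qp τ (1 - x)) :
    -1 ≤ Qp (σ ^ 3 * τ) (1 - eL σ x) := by
  have hη := y2_bd (x := x) (τ := τ) ⟨by linarith [hx.1], hx.2⟩ hτ
  have hd : 0 ≤ 1 - σ := by linarith [hσ.2]
  rcases le_or_gt 0 x with h | h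
  · have e3 : eL σ x = σ ^ 2 * x := by unfold eL; rw [if_pos h]
    rw [e3]
    obtain ⟨c1, c2⟩ := sl_high (x := x) ⟨h, hx.2⟩ hτ.1 hσ
    have := mul_nonneg hd (by linarith [hη.2] : (0 : ℝ) ≤ 0.97 * Qp τ (1 - x) - 3.97 * y2 τ x + 0.0111)
    linarith [hσ.1, hη.1]
  · have e3 : eL σ x = σ ^ 4 * x := by unfold eL; rw [if_neg (not_le.2 h)]
    rw [e3]
    obtain ⟨c1, c2⟩ := sl_deep (v := -x) ⟨by linarith, by linarith [hx.1]⟩ hτ.1 hσ
    rw [neg_neg] at c1 c2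
    rw [show -(σ ^ 4 * -x) = σ ^ 4 * x by ring] at c1
    have e7 : 0 ≤ (1 - σ) * (1 + 0.022 * (Qp τ (1 - x) - y2 τ x) - 2.06 * y2 τ x) :=
      mul_nonneg hd (by linarith [hη.2])
    have e8 := mul_le_mul_of_nonneg_left hq hσ.1.le
    linarith

/-! ## walks -/

section walk

variable {n : ℕ}

lemma out_unique (hn : 0 < n) {v : ℕ → ℕ} {r : ℕ} (hv : IsWalk n v r) (he : v r = v 0 + n)
    {i j : ℕ} (hi : i < r) (hj : j < r) (h : clN n hn (v i) = clN n hn (v j)) : i = j := by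
  have key : ∀ i j : ℕ, i < j → j < r → clN n hn (v i) ≠ clN n hn (v j) := by
    intro i j hij hj
    have h1 := hv.strictMono hij hj.le
    have h2 := hv.strictMono hj le_rfl
    have h3 : v 0 ≤ v i := by
      rcases Nat.eq_zero_or_pos i with h | h
      · rw [h]
      · exact (hv.strictMono h (by omega)).le
    exact clN_step_ne hn ⟨h1, by omega⟩
  rcases lt_trichotomy i j with h5 | h5 | h5
  · exact absurd h (key i j h5 hj)
  · exact h5
  · exact absurd h.symm (key j i h5 hi)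

lemma in_unique (hn : 0 < n) {v : ℕ → ℕ} {r : ℕ} (hv : IsWalk n v r) (he : v r = v 0 + n)
    {i j : ℕ} (hi : i < r) (hj : j < r) (h : clN n hn (v (i + 1)) = clN n hn (v (j + 1))) : i = j := by
  have key : ∀ i j : ℕ, i < j → j < r → clN n hn (v (i + 1)) ≠ clN n hn (v (j + 1)) := by
    intro i j hij hj
    have h1 := hv.strictMono (i := i + 1) (j := j + 1) (by omega) (by omega)
    have h2 : v (j + 1) ≤ v r := by
      rcases Nat.lt_or_ge (j + 1) r with h | h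
      · exact (hv.strictMono h le_rfl).le
      · have : j + 1 = r := by omega
        rw [this]
    have h3 : v 0 < v (i + 1) := hv.strictMono (by omega) (by omega)
    exact clN_step_ne hn ⟨h1, by omega⟩
  rcases lt_trichotomy i j with h5 | h5 | h5
  · exact absurd h (key i j h5 hj)
  · exact h5
  · exact absurd h.symm (key j i h5 hi)

lemma sum_one {r : ℕ} {p : ℕ → Prop} [DecidablePred p] {f g : ℕ → ℝ}
    (h : ∀ i < r, ∀ j < r, p i → p j → i = j) (hg : ∀ i < r, p i → Good (f i) (g i)) :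
    Good (∑ i ∈ Finset.range r, if p i then f i else 0)
      (∑ i ∈ Finset.range r, if p i then g i else 0) := by
  by_cases hex : ∃ i < r, p i
  · obtain ⟨i, hi, hp⟩ := hex
    have e : ∀ f : ℕ → ℝ, (∑ k ∈ Finset.range r, if p k then f k else 0) = f i := by
      intro f
      rw [Finset.sum_eq_single i]
      · rw [if_pos hp]
      · intro k hk hki
        rw [if_neg]
        intro hpk
        exact hki (h k (Finset.mem_range.1 hk) i hi hpk hp)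
      · intro hk
        exact absurd (Finset.mem_range.2 hi) hk
    rw [e, e]
    exact hg i hi hp
  · push Not at hex
    have e : ∀ f : ℕ → ℝ, (∑ k ∈ Finset.range r, if p k then f k else 0) = 0 := by
      intro f
      refine Finset.sum_eq_zero fun k hk => ?_
      rw [if_neg (hex k (Finset.mem_range.1 hk))]
    rw [e, e]
    exact good_zero

/-- **the walk inequality along the path** -/
theorem walk_cap (hn : 0 < n) {v : ℕ → ℕ} {r : ℕ} (hv : IsWalk n v r) (he : v r = v 0 + n)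
    {D : Fin n → Fin n → Prop} {W0 W1 : Fin n → Fin n → ℝ} {S : Fin n → Prop} [DecidablePred S]
    (hS : ∀ i j, S i → S j → i = j) {T : Fin n → Fin n → Prop} [DecidableRel T]
    {B ω : Fin n → ℝ} {σ : ℝ} (hσ : 0 ≤ σ ∧ σ ≤ 1)
    (hD : ∀ k < r, ¬ D (clN n hn (v k)) (clN n hn (v (k + 1))))
    (low : ∀ i j, i ≠ j → ¬ D i j → (if T i j then CC - 0.035 else 0) + (if S i then ω j else 0) +
      (if S j then ω i else 0) ≤ W0 i j)
    (chord : ∀ i j, i ≠ j → ¬ D i j → W1 i j ≤ σ * W0 i j + (1 - σ) *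
      ((if T i j then CC else 0) + (if S i then B j else 0) + (if S j then B i else 0)))
    (good : ∀ i j, S i → i ≠ j → (¬ D i j ∨ ¬ D j i) → Good (B j) (ω j))
    (h0 : total (fun a b => W0 (clN n hn a) (clN n hn b)) v r ≤ 2 * π) :
    total (fun a b => W1 (clN n hn a) (clN n hn b)) v r ≤ 2 * π := by
  classical
  have hne : ∀ k < r, clN n hn (v k) ≠ clN n hn (v (k + 1)) := fun k hk => clN_step_ne hn (hv k hk)
  set m := ((Finset.range r).filter fun k => T (clN n hn (v k)) (clN n hn (v (k + 1)))).card with hm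
  have hT : ∀ c : ℝ, (∑ k ∈ Finset.range r, if T (clN n hn (v k)) (clN n hn (v (k + 1))) then c else 0) =
      m * c := by
    intro c
    rw [← Finset.sum_filter, Finset.sum_const, nsmul_eq_mul]
  have hg1 := sum_one (r := r) (p := fun k => S (clN n hn (v k)))
    (f := fun k => B (clN n hn (v (k + 1)))) (g := fun k => ω (clN n hn (v (k + 1))))
    (fun i hi j hj h1 h2 => out_unique hn hv he hi hj (hS _ _ h1 h2))
    (fun i hi h => good _ _ h (hne i hi) (Or.inl (hD i hi)))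
  have hg2 := sum_one (r := r) (p := fun k => S (clN n hn (v (k + 1))))
    (f := fun k => B (clN n hn (v k))) (g := fun k => ω (clN n hn (v k)))
    (fun i hi j hj h1 h2 => in_unique hn hv he hi hj (hS _ _ h1 h2))
    (fun i hi h => good _ _ h (hne i hi).symm (Or.inr (hD i hi)))
  have hlow : m * (CC - 0.035) + (∑ k ∈ Finset.range r, if S (clN n hn (v k)) then
      ω (clN n hn (v (k + 1))) else 0) + (∑ k ∈ Finset.range r, if S (clN n hn (v (k + 1))) then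
      ω (clN n hn (v k)) else 0) ≤ total (fun a b => W0 (clN n hn a) (clN n hn b)) v r := by
    rw [← hT, ← Finset.sum_add_distrib, ← Finset.sum_add_distrib]
    unfold total
    refine Finset.sum_le_sum fun k hk => ?_
    exact low _ _ (hne k (Finset.mem_range.1 hk)) (hD k (Finset.mem_range.1 hk))
  have hcap := cap_arith hg1 hg2 (hlow.trans h0)
  have hch : total (fun a b => W1 (clN n hn a) (clN n hn b)) v r ≤
      σ * total (fun a b => W0 (clN n hn a) (clN n hn b)) v r + (1 - σ) * (m * CC +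
      (∑ k ∈ Finset.range r, if S (clN n hn (v k)) then B (clN n hn (v (k + 1))) else 0) +
      (∑ k ∈ Finset.range r, if S (clN n hn (v (k + 1))) then B (clN n hn (v k)) else 0)) := by
    rw [← hT, ← Finset.sum_add_distrib, ← Finset.sum_add_distrib]
    unfold total
    rw [Finset.mul_sum, Finset.mul_sum, ← Finset.sum_add_distrib]
    refine Finset.sum_le_sum fun k hk => ?_
    exact chord _ _ (hne k (Finset.mem_range.1 hk)) (hD k (Finset.mem_range.1 hk))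
  have e1 := mul_le_mul_of_nonneg_left h0 hσ.1
  have e2 := mul_le_mul_of_nonneg_left hcap (by linarith [hσ.2] : (0 : ℝ) ≤ 1 - σ)
  linarith

end walk

end Pool.Agent.Helper66.Kiss
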