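import Pool.Agent.Helper66.Kiss.EndMain

set_option autoImplicit false

/-! # The end region: every configuration there is joined to the base point -/

namespace Pool.Agent.Helper66.Kiss

open Real Set Filter Topology

/-! ## both poles occupied -/

/-- path of the band -/
noncomputable def zb (U : Finset (Fin 10)) (z : Fin 10 → ℝ) (t : ℝ) (k : Fin 10) : ℝ :=
  if k ∈ U then zU (1 - (1 - t) ^ 4 * (1 - aU (z k))) else zL (1 - eL (1 - t) (1 - aU (-(z k))))

lemma zb_cont (U : Finset (Fin 10)) (z : Fin 10 → ℝ) (k : Fin 10) :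
    Continuous fun t => zb U z t k := by
  unfold zb
  by_cases hU : k ∈ U
  · simp only [hU, if_true]
    exact continuous_zU.comp (by fun_prop)
  · simp only [hU, if_false]
    refine continuous_zL.comp (continuous_const.sub ?_)
    unfold eL
    split_ifs
    · fun_prop
    · fun_prop

theorem band_end {z : Fin 10 → ℝ} {U : Finset (Fin 10)} (hU : U.card = 5)
    (up : ∀ k ∈ U, 1 / 2 - 3 / 512 ≤ z k ∧ z k ≤ 1 / 2)
    (lo : ∀ k, k ∉ U → -(1 / 2) ≤ z k ∧ z k ≤ -(1 / 2) + 4 / 512) (hz : z ∈ HS) :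
    ∃ z', JoinedIn HS z z' ∧ Tgt z' := by
  classical
  have hlo : ∀ k, k ∉ U → |z k + 1 / 2| ≤ 4 / 512 := by
    intro k hk
    have := lo k hk
    rw [abs_le]; constructor <;> linarith
  have fU : ∀ k, k ∈ U → (0 ≤ 1 - aU (z k) ∧ 1 - aU (z k) ≤ 0.0078) ∧
      z k = zU (1 - (1 - aU (z k))) := by
    intro k hk
    have := up k hk
    rw [sub_sub_cancel, zU_aU ⟨by linarith, by linarith⟩]
    exact ⟨aU_bd_U this.1 this.2, rfl⟩
  have fL : ∀ k, k ∉ U → (-0.0106 ≤ 1 - aU (-(z k)) ∧ 1 - aU (-(z k)) ≤ 0.0104) ∧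
      z k = zL (1 - (1 - aU (-(z k)))) ∧ 0 ≤ 1 - aU (-(z k)) := by
    intro k hk
    have := lo k hk
    rw [sub_sub_cancel, zL_aU ⟨by linarith, by linarith⟩]
    exact ⟨aU_bd_L (hlo k hk), rfl, aU_nonneg_L (by linarith) (by linarith) (by linarith)⟩
  have h0 : zb U z 0 = z := by
    funext k
    unfold zb
    split_ifs with h
    · norm_num
      exact zU_aU ⟨by linarith [(up k h).1], by linarith [(up k h).2]⟩
    · have : eL (1 - 0) (1 - aU (-(z k))) = 1 - aU (-(z k)) := by unfold eL; split_ifs <;> norm_num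
      rw [this]
      exact (fL k h).2.1.symm
  have h1 : ∀ k, zb U z 1 k = if k ∈ U then 1 / 2 else -(1 / 2) := by
    intro k
    unfold zb
    split_ifs with h
    · unfold zU; norm_num
    · have : eL (1 - 1) (1 - aU (-(z k))) = 0 := by unfold eL; split_ifs <;> norm_num
      rw [this]; unfold zL; norm_num
  refine ⟨zb U z 1, JoinedIn.ofLine (f := fun t => zb U z t)
    (continuous_pi fun k => zb_cont U z k).continuousOn h0 rfl ?_, ?_, ?_⟩
  · rintro _ ⟨t, ht, rfl⟩
    have hσ : 0 ≤ 1 - t ∧ 1 - t ≤ 1 := ⟨by linarith [ht.2], by linarith [ht.1]⟩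
    refine ⟨?_, ?_⟩
    · intro k
      rw [abs_le]
      show -(1 / 2) ≤ zb U z t k ∧ zb U z t k ≤ 1 / 2
      unfold zb
      split_ifs with h
      · have hx := (fU k h).1
        have h4 : (1 - t) ^ 4 ≤ 1 := pow_le_one₀ hσ.1 hσ.2
        have h40 : 0 ≤ (1 - t) ^ 4 := pow_nonneg hσ.1 4
        have e1 : 0 ≤ (1 - t) ^ 4 * (1 - aU (z k)) := mul_nonneg h40 hx.1
        have e2 : (1 - t) ^ 4 * (1 - aU (z k)) ≤ 1 - aU (z k) := by nlinarith [hx.1]
        have := zU_range (a := 1 - (1 - t) ^ 4 * (1 - aU (z k))) ⟨by linarith [hx.2], by linarith⟩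
        exact ⟨by linarith [this.1], this.2⟩
      · obtain ⟨hx, -, hx0⟩ := fL k h
        have he := eL_bd hσ hx
        have e0 : 0 ≤ eL (1 - t) (1 - aU (-(z k))) := by
          unfold eL
          rw [if_pos hx0]
          exact mul_nonneg (by positivity) hx0
        set a := 1 - eL (1 - t) (1 - aU (-(z k))) with ha
        have ha1 : a ≤ 1 := by linarith
        have ha0 : 0.98 ≤ a := by linarith [he.2.1]
        have := zL_range (a := a) ⟨ha0, by linarith⟩
        constructor
        · unfold zL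
          have h1 : 0 < 3 * a ^ 2 + 1 := by positivity
          rw [le_div_iff₀ h1]; nlinarith
        · linarith [this.2]
    · intro v r hr6 hr hv he
      have hcap := walk_cap (n := 10) (by norm_num) hv he (D := fun _ _ => False)
        (W0 := fun i j => wd (z i) (z j))
        (W1 := fun i j => wd (zb U z t i) (zb U z t j)) (S := fun _ => False)
        (fun i j hi hj => hi.elim) (T := fun i j => (i ∈ U ∧ j ∈ U) ∨ (i ∉ U ∧ j ∉ U))
        (B := fun _ => 0) (ω := fun _ => 0) hσ (fun _ _ => id) ?_ ?_ (fun i j hi => hi.elim)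
        (hz.2 v r hr6 hr hv he)
      · exact hcap
      · intro i j hij _
        simp only [if_false, add_zero]
        by_cases hi : i ∈ U <;> by_cases hj : j ∈ U
        · rw [if_pos (Or.inl ⟨hi, hj⟩)]
          have := low_UU (fU i hi).1 (fU j hj).1
          rwa [← (fU i hi).2, ← (fU j hj).2] at this
        · rw [if_neg (by rintro (⟨a, b⟩ | ⟨a, b⟩); exact hj b; exact a hi)]
          exact wd_nonneg _ _
        · rw [if_neg (by rintro (⟨a, b⟩ | ⟨a, b⟩); exact hi a; exact b hj)]
          exact wd_nonneg _ _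
        · rw [if_pos (Or.inr ⟨hi, hj⟩)]
          have := low_LL (fL i hi).1 (fL j hj).1
          rwa [← (fL i hi).2.1, ← (fL j hj).2.1] at this
      · intro i j hij _
        simp only [if_false, add_zero]
        by_cases hi : i ∈ U <;> by_cases hj : j ∈ U
        · rw [if_pos (Or.inl ⟨hi, hj⟩)]
          have := Qs_eq_cases hσ (fU i hi).1 (fU j hj).1
          rw [← (fU i hi).2, ← (fU j hj).2] at this
          unfold zb
          rw [if_pos hi, if_pos hj]
          exact this
        · rw [if_neg (by rintro (⟨a, b⟩ | ⟨a, b⟩); exact hj b; exact a hi), mul_zero, add_zero]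
          have := chord_UL hσ (fU i hi).1 (fL j hj).1
          rw [← (fU i hi).2, ← (fL j hj).2.1] at this
          unfold zb
          rw [if_pos hi, if_neg hj]
          exact this
        · rw [if_neg (by rintro (⟨a, b⟩ | ⟨a, b⟩); exact hi a; exact b hj), mul_zero, add_zero]
          have := chord_UL hσ (fU j hj).1 (fL i hi).1
          rw [← (fU j hj).2, ← (fL i hi).2.1] at this
          rw [wd_comm, wd_comm (z i)]
          unfold zb
          rw [if_neg hi, if_pos hj]
          exact this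
        · rw [if_pos (Or.inr ⟨hi, hj⟩)]
          have := chord_LL hσ (fL i hi).1 (fL j hj).1
          rw [← (fL i hi).2.1, ← (fL j hj).2.1] at this
          unfold zb
          rw [if_neg hi, if_neg hj]
          exact this
  · intro i
    rw [h1]
    split_ifs
    · exact Or.inl rfl
    · exact Or.inr rfl
  · have : (Finset.univ.filter fun i => zb U z 1 i = 1 / 2) = U := by
      ext i
      simp only [Finset.mem_filter, Finset.mem_univ, true_and, h1]
      constructor
      · intro h
        by_contra hcon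
        rw [if_neg hcon] at h
        norm_num at h
      · intro h
        rw [if_pos h]
    rw [this, hU]

/-- a band configuration which can be moved in the height space to the target -/
lemma band_base_of {z φ : Fin 10 → ℝ} (hz : ∀ i, |z i| ≤ 1 / 2) (h : Ord z φ)
    (H : ∃ z', JoinedIn HS z z' ∧ Tgt z') : JoinedIn Conf (band z φ) base := by
  have hm := mem_HS_of_ord hz h
  obtain ⟨z', hj, ht⟩ := H
  have h1 := band_joined hz h (lon_ord hm)
  have h2 := lift_path hj
  have h3 := twoRing_joined h2.target_mem (isTwoRing_of_tgt ht)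
  exact (h1.trans h2).trans h3

/-- relabelling: the point `s` becomes the south pole -/
def lab (s : Fin 11) (i : Fin 12) : Fin 12 :=
  if i = 0 then 0 else if i = 1 then s.succ else (s.succAbove ⟨i.val - 2, by omega⟩).succ

lemma lab_zero (s : Fin 11) : lab s 0 = 0 := rfl
lemma lab_one (s : Fin 11) : lab s 1 = s.succ := rfl
lemma lab_ix (s : Fin 11) (k : Fin 10) : lab s (ix k) = (s.succAbove k).succ := by
  fin_cases k <;> rfl

lemma lab_inj (s : Fin 11) : Function.Injective (lab s) := by
  intro i j hij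
  rcases casesIx i with rfl | rfl | ⟨k, rfl⟩ <;> rcases casesIx j with rfl | rfl | ⟨m, rfl⟩ <;>
    simp only [lab_zero, lab_one, lab_ix] at hij
  · rfl
  · exact absurd hij.symm (Fin.succ_ne_zero _)
  · exact absurd hij.symm (Fin.succ_ne_zero _)
  · exact absurd hij (Fin.succ_ne_zero _)
  · rfl
  · exact absurd (Fin.succ_injective _ hij) (Fin.succAbove_ne _ _).symm
  · exact absurd hij (Fin.succ_ne_zero _)
  · exact absurd (Fin.succ_injective _ hij) (Fin.succAbove_ne _ _)
  · rw [Fin.succAbove_right_injective (Fin.succ_injective _ hij)]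

/-- relabelling by an injection -/
lemma joined_of_lab {p : Fin 12 → E3} {f : Fin 12 → Fin 12} (hf : Function.Injective f)
    (h : JoinedIn Conf (p ∘ f) base) : JoinedIn Conf p base := by
  let σ : Equiv.Perm (Fin 12) := Equiv.ofBijective f (Finite.injective_iff_bijective.1 hf)
  have h2 : JoinedIn Conf (p ∘ σ) base := h
  have h3 := comp_joined h2 σ⁻¹
  have e : (p ∘ ⇑σ) ∘ ⇑σ⁻¹ = p := by funext i; simp
  rw [e] at h3
  exact h3.trans (base_comp_joined _)

lemma pt_neg_one (φ : ℝ) : pt (-1) φ = -e3 := by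
  ext i
  fin_cases i <;> simp [pt, e3]

theorem end_pole {z φ : Fin 11 → ℝ} {s : Fin 11} {U : Finset (Fin 11)} (hF : Fe z φ)
    (h : ER z s U) (hs : z s = -1) : JoinedIn Conf (pinN z φ) base := by
  classical
  have hne : ∀ k, s.succAbove k ≠ s := fun k => Fin.succAbove_ne s k
  have hlo : ∀ k, k ∉ U → k ≠ s → -(1 / 2) ≤ z k ∧ z k ≤ -(1 / 2) + 4 / 512 := by
    intro k hk hks
    have h1 := hF.2 s k hks.symm
    unfold gg at h1
    rw [hs] at h1
    norm_num at h1
    have := abs_le.1 (h.lo k hk hks)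
    constructor
    · linarith
    · linarith [this.2]
  set Z : Fin 10 → ℝ := fun k => z (s.succAbove k) with hZ
  set Φ : Fin 10 → ℝ := fun k => red (φ (s.succAbove k)) with hΦ
  have hZb : ∀ k, |Z k| ≤ 1 / 2 := by
    intro k
    rw [abs_le]
    by_cases hk : s.succAbove k ∈ U
    · have := h.up _ hk
      exact ⟨by show -(1 / 2) ≤ z (s.succAbove k); linarith, this.2⟩
    · have := hlo _ hk (hne k)
      exact ⟨this.1, by show z (s.succAbove k) ≤ 1 / 2; linarith⟩
  obtain ⟨τ, hτ⟩ := exists_sort10 (z := Z) (φ := Φ) hZb (fun k => (red_mem _).1)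
    (fun k => (red_mem _).2) (by
      intro k m hkm
      rw [← gg_eq, gg_red]
      exact hF.2 _ _ (fun he => hkm (Fin.succAbove_right_injective he)))
  have hJ : JoinedIn Conf (band (Z ∘ τ) (Φ ∘ τ)) base := by
    refine band_base_of (fun i => hZb (τ i)) hτ ?_
    set V : Finset (Fin 10) := Finset.univ.filter fun k => s.succAbove (τ k) ∈ U with hV
    have hVc : V.card = 5 := by
      rw [← h.card]
      refine Finset.card_bij (fun k _ => s.succAbove (τ k)) ?_ ?_ ?_
      · intro k hk
        simpa [hV] using hk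
      · intro a _ b _ hab
        exact τ.injective (Fin.succAbove_right_injective hab)
      · intro b hb
        have hbs : b ≠ s := fun he => h.sU (he ▸ hb)
        obtain ⟨k, hk⟩ := Fin.exists_succAbove_eq hbs
        refine ⟨τ.symm k, ?_, ?_⟩
        · simp [hV, hk, hb]
        · simp [hk]
    refine band_end (U := V) hVc ?_ ?_ (mem_HS_of_ord (fun i => hZb (τ i)) hτ)
    · intro k hk
      have hk' : s.succAbove (τ k) ∈ U := by simpa [hV] using hk
      exact h.up _ hk'
    · intro k hk
      have hk' : s.succAbove (τ k) ∉ U := by simpa [hV] using hk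
      exact hlo _ hk' (hne _)
  have hJ2 : JoinedIn Conf (band Z Φ) base := by
    refine joined_of_lab (f := extB τ) (extB τ).injective ?_
    rw [band_comp_ext]
    exact hJ
  refine joined_of_lab (f := lab s) (lab_inj s) ?_
  have e : pinN z φ ∘ lab s = band Z Φ := by
    funext i
    rcases casesIx i with rfl | rfl | ⟨k, rfl⟩
    · rfl
    · show pinN z φ (lab s 1) = -e3
      rw [lab_one, pinN_succ, hs, pt_neg_one]
    · show pinN z φ (lab s (ix k)) = band Z Φ (ix k)
      rw [lab_ix, pinN_succ, band_ix]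
      exact (pt_red _ _).symm
  rw [e]
  exact hJ2

/-! ## sorting eleven points -/

/-- extension of a permutation of the eleven points -/
def ext11 (τ : Equiv.Perm (Fin 11)) : Fin 12 → Fin 12 := Fin.cons 0 (fun k => (τ k).succ)

lemma ext11_inj (τ : Equiv.Perm (Fin 11)) : Function.Injective (ext11 τ) := by
  intro i j hij
  rcases Fin.eq_zero_or_eq_succ i with rfl | ⟨k, rfl⟩ <;>
    rcases Fin.eq_zero_or_eq_succ j with rfl | ⟨l, rfl⟩ <;> simp only [ext11, Fin.cons_zero, Fin.cons_succ] at hij
  · rfl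
  · exact absurd hij.symm (Fin.succ_ne_zero _)
  · exact absurd hij (Fin.succ_ne_zero _)
  · rw [τ.injective (Fin.succ_injective _ hij)]

lemma pinN_comp_ext (z φ : Fin 11 → ℝ) (τ : Equiv.Perm (Fin 11)) :
    pinN z φ ∘ ext11 τ = pinN (z ∘ τ) (φ ∘ τ) := by
  funext i
  rcases Fin.eq_zero_or_eq_succ i with rfl | ⟨k, rfl⟩
  · rfl
  · rfl

/-- every feasible state can be relabelled so that the longitudes are sorted in `[0, 2π)` -/
theorem sort11 {P : (Fin 11 → ℝ) → Prop} (hP : ∀ z (τ : Equiv.Perm (Fin 11)), P z → P (z ∘ τ))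
    (H : ∀ z φ, Fe z φ → P z → (∀ k, 0 ≤ φ k ∧ φ k < 2 * π) → Monotone φ →
      JoinedIn Conf (pinN z φ) base) {z φ : Fin 11 → ℝ} (hF : Fe z φ) (hz : P z) :
    JoinedIn Conf (pinN z φ) base := by
  set φ' : Fin 11 → ℝ := fun k => red (φ k) with hφ'
  set τ := Tuple.sort φ' with hτ
  have e : pinN z φ ∘ ext11 τ = pinN (z ∘ τ) (φ' ∘ τ) := by
    rw [← pinN_red z φ, pinN_comp_ext]
  refine joined_of_lab (ext11_inj τ) ?_
  rw [e]
  refine H _ _ ⟨fun k => hF.1 (τ k), ?_⟩ (hP z τ hz) (fun k => red_mem _) (Tuple.monotone_sort φ')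
  intro i j hij
  show gg (z (τ i)) (z (τ j)) (red (φ (τ i))) (red (φ (τ j))) ≤ 1 / 2
  rw [gg_red]
  exact hF.2 _ _ (fun h => hij (τ.injective h))

lemma ER.perm {z : Fin 11 → ℝ} {s : Fin 11} {U : Finset (Fin 11)} (h : ER z s U)
    (τ : Equiv.Perm (Fin 11)) : ER (z ∘ τ) (τ.symm s) (U.map τ.symm.toEmbedding) := by
  refine ⟨?_, ?_, ?_, ?_, ?_⟩
  · simp [h.sU]
  · rw [Finset.card_map, h.card]
  · simpa using h.sz
  · intro k hk
    simp only [Finset.mem_map, Equiv.coe_toEmbedding] at hk
    obtain ⟨a, ha, rfl⟩ := hk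
    simpa using h.up a ha
  · intro k hk hks
    have h1 : τ k ∉ U := by
      intro hin
      apply hk
      simp only [Finset.mem_map, Equiv.coe_toEmbedding]
      exact ⟨τ k, hin, by simp⟩
    have h2 : τ k ≠ s := by
      rintro rfl
      exact hks (by simp)
    exact h.lo _ h1 h2

/-- **The end region.** -/
theorem end_region {z φ : Fin 11 → ℝ} (hF : Fe z φ) (h : ∃ s U, ER z s U) :
    JoinedIn Conf (pinN z φ) base := by
  refine sort11 (P := fun z => ∃ s U, ER z s U) ?_ ?_ hF h
  · rintro z τ ⟨s, U, h⟩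
    exact ⟨_, _, h.perm τ⟩
  · rintro z φ hF ⟨s, U, h⟩ h0 hm
    rcases eq_or_lt_of_le (hF.1 s).1 with hs | hs
    · exact end_pole hF h hs.symm
    · obtain ⟨z1, φ1, hF1, h1, hs1, hJ⟩ := end_lift hF h hs h0 hm
      exact hJ.trans (end_pole hF1 h1 hs1)

end Pool.Agent.Helper66.Kiss
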