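import Pool.Agent.Helper66.Kiss.Assemble
import Pool.Agent.Helper62.SDP12.Psi

set_option autoImplicit false

/-! # The theorem from the two certificates -/

namespace Pool.Agent.Helper66.Kiss

open Real

/-- **The space of twelve kissing spheres is path connected**, from the two certificates. -/
theorem final {c1 : ℝ} (h1 : c1 < 1)
    (certA : ∀ z φ, SA (11 / 12) c1 z φ 0 → GainL PhiB z φ)
    (certB : ∀ z φ, SL (11 / 12) z φ 0 → z 0 ≤ -c1 →
      (∀ ρ : Equiv.Perm (Fin 11), ¬ Helper54.R1.Box (z ∘ ρ)) → GainL PhiB z φ) :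
    IsPathConnected
      {p : Fin 12 → EuclideanSpace ℝ (Fin 3) |
        (∀ i, ‖p i‖ = 1) ∧
        ∀ i j, i ≠ j → Real.pi / 3 ≤ InnerProductGeometry.angle (p i) (p j)} :=
  assemble (c0 := 11 / 12) (by norm_num) h1 Helper62.SDP12.hSDP certA certB

end Pool.Agent.Helper66.Kiss
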