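import Pool.Agent.Helper66.Kiss.DlS
import Pool.Agent.Helper66.Kiss.Final

set_option autoImplicit false

/-! # The theorem from one certificate -/

namespace Pool.Agent.Helper66.Kiss.Dl

open Real Pool.Agent.Helper66.Kiss

/-- the sequence of eleven numbers -/
noncomputable def sq (Z : Fin 11 → ℝ) : ℕ → ℝ := fun n => Z (Fin.ofNat 11 n)

lemma Zf_sq (Z : Fin 11 → ℝ) : Zf (sq Z) = Z := by
  funext k
  unfold Zf sq
  congr 1
  apply Fin.ext
  simp [Fin.ofNat, Nat.mod_eq_of_lt k.2]

/-- **The space of twelve kissing spheres is path connected**, from the certificate. -/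
theorem final_of_cert (cert : ∀ z φ : ℕ → ℝ, HyL z φ → PyL z φ) :
    IsPathConnected
      {p : Fin 12 → EuclideanSpace ℝ (Fin 3) |
        (∀ i, ‖p i‖ = 1) ∧
        ∀ i j, i ≠ j → Real.pi / 3 ≤ InnerProductGeometry.angle (p i) (p j)} := by
  have hc : ∀ z φ : Fin 11 → ℝ, SL (11 / 12) z φ 0 → GainL PhiB z φ := by
    intro z φ h
    have := cert (sq z) (sq φ) (by unfold HyL; rw [Zf_sq, Zf_sq]; exact h)
    unfold PyL at this
    rwa [Zf_sq, Zf_sq] at this
  have hA : ∀ X ∈ Conf, JB X := by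
    refine stageL2 PhiB_cont PhiB_perm (c0 := 11 / 12) (by norm_num) Helper62.SDP12.hSDP ?_
    intro z φ s hS
    exact GainL.shift PhiB_perm s (hc _ _ hS.shift)
  exact ⟨base, base_mem, fun {x} hx => (hA x hx).symm⟩

end Pool.Agent.Helper66.Kiss.Dl
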