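import Pool.Agent.Helper66.Kiss.PhiB

set_option autoImplicit false

/-! # The functional check of a direction leaf, real part -/

namespace Pool.Agent.Helper66.Kiss

open Real Set Filter Topology

/-- lower bound of `v q` for `q1 ≤ q ≤ q2` -/
noncomputable def lbq (q1 q2 v : ℝ) : ℝ := if 0 ≤ v then v * q1 else v * q2

/-- upper bound of `v q` for `q1 ≤ q ≤ q2` -/
noncomputable def ubq (q1 q2 v : ℝ) : ℝ := if 0 ≤ v then v * q2 else v * q1

lemma lbq_le {q1 q2 q v : ℝ} (h1 : q1 ≤ q) (h2 : q ≤ q2) : lbq q1 q2 v ≤ v * q := by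
  unfold lbq
  split_ifs with h
  · exact mul_le_mul_of_nonneg_left h1 h
  · exact mul_le_mul_of_nonpos_left h2 (le_of_lt (not_le.1 h))

lemma le_ubq {q1 q2 q v : ℝ} (h1 : q1 ≤ q) (h2 : q ≤ q2) : v * q ≤ ubq q1 q2 v := by
  unfold ubq
  split_ifs with h
  · exact mul_le_mul_of_nonneg_left h2 h
  · exact mul_le_mul_of_nonpos_left h1 (le_of_lt (not_le.1 h))

/-- lower speed of a member -/
lemma hLo_ge {q1 q2 v w x : ℝ} (h1 : q1 ≤ 1 - x ^ 2) (h2 : 1 - x ^ 2 ≤ q2) (hx : -(1 / 2) < x)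
    (hw : x < 1 / 2 ∨ v ≤ 0) : lbq q1 q2 v ≤ hLo v w x := by
  unfold hLo
  rw [if_neg (by
    rintro ⟨a, b⟩
    rcases hw with h | h
    · rw [a] at h; exact lt_irrefl _ h
    · linarith), if_neg (by linarith)]
  exact lbq_le h1 h2

lemma hLo_wall {v w x : ℝ} (hx : -(1 / 2) < x) (hx2 : x ≤ 1 / 2) (hv : 0 ≤ v) : 0 ≤ hLo v w x := by
  unfold hLo
  split_ifs with h1 h2
  · exact le_rfl
  · linarith
  · have : 0 ≤ 1 - x ^ 2 := by nlinarith
    positivity

/-- lower speed of minus the penalty above the ring -/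
lemma bB_hi {q1 q2 v w x : ℝ} (h1 : q1 ≤ 1 - x ^ 2) (h2 : 1 - x ^ 2 ≤ q2) (hx : -(1 / 2) < x) :
    -ubq q1 q2 v ≤ bB v w x := by
  unfold bB hHi
  rw [if_neg (by linarith), if_neg (ne_of_gt hx), if_neg (by linarith)]
  exact neg_le_neg (le_ubq h1 h2)

/-- lower speed of minus the penalty below the ring -/
lemma bB_lo {q1 q2 v w x : ℝ} (h1 : q1 ≤ 1 - x ^ 2) (h2 : 1 - x ^ 2 ≤ q2) (hx : x < -(1 / 2)) :
    lbq q1 q2 w ≤ bB v w x := by
  unfold bB hLo
  rw [if_pos hx, if_neg (by rintro ⟨a, -⟩; linarith), if_pos hx]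
  exact lbq_le h1 h2

/-- lower speed of minus the penalty near the ring -/
lemma bB_any {q1 q2 v w x : ℝ} (h1 : q1 ≤ 1 - x ^ 2) (h2 : 1 - x ^ 2 ≤ q2) :
    min (min (-ubq q1 q2 v) (lbq q1 q2 w)) (min (lbq q1 q2 v) (-ubq q1 q2 w)) ≤ bB v w x := by
  rcases lt_trichotomy x (-(1 / 2)) with h | h | h
  · exact ((min_le_left _ _).trans (min_le_right _ _)).trans (bB_lo h1 h2 h)
  · refine (min_le_right _ _).trans ?_
    unfold bB hLo hHi
    rw [if_neg (by rw [h]; exact lt_irrefl _), if_pos h, if_neg (by rintro ⟨a, -⟩; linarith),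
      if_neg (by rw [h]; exact lt_irrefl _), if_pos h.le]
    exact min_le_min (lbq_le h1 h2) (neg_le_neg (le_ubq h1 h2))
  · exact ((min_le_left _ _).trans (min_le_left _ _)).trans (bB_hi h1 h2 h)

/-- **the functional check** -/
theorem func_check {z : Fin 11 → ℝ} {V W : Fin 10 → ℝ} {lo hi a b c : Fin 10 → ℝ} {T0 T1 τ : ℝ}
    (hz : ∀ l : Fin 10, lo l ≤ z l.succ ∧ z l.succ ≤ hi l)
    (ha : ∀ l : Fin 10, -(1 / 2) < z l.succ → a l ≤ hLo (V l) (W l) (z l.succ))
    (hb : ∀ l : Fin 10, b l ≤ bB (V l) (W l) (z l.succ))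
    (h5 : 5 ≤ (Finset.univ.filter fun l => T0 ≤ lo l).card) (hT : -(1 / 2) < T0)
    (h6 : (Finset.univ.filter fun l => T1 < hi l).card ≤ 5)
    (hc : ∀ l, (T1 < lo l ∧ c l ≤ a l - b l - τ) ∨ (hi l < T0 ∧ c l ≤ 0) ∨
      (c l ≤ 0 ∧ c l ≤ a l - b l - τ))
    (hpos : 0 < ∑ l, b l + 5 * τ + ∑ l, c l) :
    (∃ S : Finset (Fin 10), S.card = 5 ∧ ∀ l ∈ S, -(1 / 2) < z l.succ) ∧
      (∀ U : Finset (Fin 10), U.card = 5 → (∀ i ∈ U, ∀ j, j ∉ U → z j.succ ≤ z i.succ) →
      0 < ∑ l ∈ U, hLo (V l) (W l) (z l.succ) + ∑ l ∈ Uᶜ, bB (V l) (W l) (z l.succ)) := by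
  classical
  obtain ⟨S, hS, hSc⟩ := Finset.exists_subset_card_eq h5
  have hSh : ∀ l ∈ S, T0 ≤ z l.succ := fun l hl =>
    (Finset.mem_filter.1 (hS hl)).2.trans (hz l).1
  refine ⟨⟨S, hSc, fun l hl => hT.trans_le (hSh l hl)⟩, ?_⟩
  intro U hU hord
  -- a high non-member exists as soon as a member is not high
  have hex : ∀ i ∈ U, z i.succ < T0 → False := by
    intro i hi hlt
    obtain ⟨j, hj, hjU⟩ : ∃ j ∈ S, j ∉ U := by
      by_contra hcon
      push Not at hcon
      have : S = U := Finset.eq_of_subset_of_card_le hcon (by rw [hU, hSc])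
      rw [← this] at hi
      exact absurd (hSh i hi) (not_le.2 hlt)
    have h1 := hord i hi j hjU
    have h2 := hSh j hj
    linarith
  have hUh : ∀ i ∈ U, -(1 / 2) < z i.succ := fun i hi => by
    by_contra hcon
    push Not at hcon
    exact hex i hi (by linarith)
  have hin : ∀ l, T1 < lo l → l ∈ U := by
    intro l hl
    by_contra hcon
    have h1 : ∀ j ∈ insert l U, T1 < hi j := by
      intro j hj
      rcases Finset.mem_insert.1 hj with rfl | hj
      · have := hz j; linarith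
      · have h1 := hord j hj l hcon
        have h2 := (hz l).1
        have h3 := (hz j).2
        linarith
    have h2 := Finset.card_le_card (s := insert l U)
      (t := Finset.univ.filter fun l => T1 < hi l) (by
        intro j hj
        exact Finset.mem_filter.2 ⟨Finset.mem_univ _, h1 j hj⟩)
    rw [Finset.card_insert_of_notMem hcon, hU] at h2
    omega
  have hout : ∀ l, hi l < T0 → l ∉ U := by
    intro l hl hlU
    exact hex l hlU (by have := (hz l).2; linarith)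
  -- termwise comparison
  have hterm : ∀ l, b l + (if l ∈ U then τ else 0) + c l ≤
      if l ∈ U then hLo (V l) (W l) (z l.succ) else bB (V l) (W l) (z l.succ) := by
    intro l
    have hbl := hb l
    by_cases hl : l ∈ U
    · have hal := ha l (hUh l hl)
      rw [if_pos hl, if_pos hl]
      rcases hc l with ⟨-, h⟩ | ⟨h, -⟩ | ⟨-, h⟩
      · linarith
      · exact absurd hl (hout l h)
      · linarith
    · rw [if_neg hl, if_neg hl]
      rcases hc l with ⟨h, -⟩ | ⟨-, h⟩ | ⟨h, -⟩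
      · exact absurd (hin l h) hl
      · linarith
      · linarith
  have hsum := Finset.sum_le_sum fun l (_ : l ∈ Finset.univ) => hterm l
  rw [Finset.sum_add_distrib, Finset.sum_add_distrib] at hsum
  have e1 : ∑ l : Fin 10, (if l ∈ U then τ else 0) = 5 * τ := by
    rw [Finset.sum_ite_mem, Finset.univ_inter, Finset.sum_const, hU, nsmul_eq_mul]
    norm_num
  have e2 : ∑ l : Fin 10, (if l ∈ U then hLo (V l) (W l) (z l.succ) else
      bB (V l) (W l) (z l.succ)) = ∑ l ∈ U, hLo (V l) (W l) (z l.succ) +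
      ∑ l ∈ Uᶜ, bB (V l) (W l) (z l.succ) := by
    rw [← Finset.sum_add_sum_compl U]
    congr 1
    · exact Finset.sum_congr rfl fun l hl => if_pos hl
    · exact Finset.sum_congr rfl fun l hl => if_neg (Finset.mem_compl.1 hl)
  rw [e1, e2] at hsum
  linarith

end Pool.Agent.Helper66.Kiss
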