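import Pool.Agent.Helper66.Kiss.PGb
import Pool.Agent.Helper66.Kiss.EndRegion

set_option autoImplicit false

/-! # Local gain at a point: eleven heights, also at the south pole -/

namespace Pool.Agent.Helper66.Kiss

open Real Set Filter Topology

/-- eleven heights with one at the pole -/
noncomputable def insS (s : Fin 11) (c : ℝ) (w : Fin 10 → ℝ) : Fin 11 → ℝ :=
  Fin.insertNth (α := fun _ => ℝ) s c w

lemma insS_same (s : Fin 11) (c : ℝ) (w : Fin 10 → ℝ) : insS s c w s = c := by
  unfold insS; simp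

lemma insS_succ (s : Fin 11) (c : ℝ) (w : Fin 10 → ℝ) (l : Fin 10) :
    insS s c w (s.succAbove l) = w l := by
  unfold insS; simp

lemma insS_cont (s : Fin 11) (c : ℝ) : Continuous fun w : Fin 10 → ℝ => insS s c w := by
  rw [continuous_pi_iff]
  intro k
  by_cases hk : k = s
  · subst hk; simp only [insS_same]; exact continuous_const
  · obtain ⟨l, rfl⟩ := Fin.exists_succAbove_eq hk
    simp only [insS_succ]; exact continuous_apply l

lemma insS_eq {s : Fin 11} {c : ℝ} {y : Fin 11 → ℝ} (h : y s = c) :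
    insS s c (fun l => y (s.succAbove l)) = y := by
  funext k
  by_cases hk : k = s
  · subst hk; rw [insS_same, h]
  · obtain ⟨l, rfl⟩ := Fin.exists_succAbove_eq hk
    rw [insS_succ]

lemma gg_pole {w a b : ℝ} (hw : -(1 / 2) ≤ w) : gg (-1) w a b ≤ 1 / 2 := by
  unfold gg
  norm_num
  linarith

/-- feasible states with both poles occupied -/
lemma fe_insS {s : Fin 11} {w φ : Fin 10 → ℝ} {c : ℝ} (hw : ∀ k, -(1 / 2) ≤ w k ∧ w k ≤ 1 / 2)
    (h : ∀ i j, i ≠ j → gg (w i) (w j) (φ i) (φ j) ≤ 1 / 2) : Fe (insS s (-1) w) (insS s c φ) := by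
  refine ⟨?_, ?_⟩
  · intro k
    by_cases hk : k = s
    · subst hk; rw [insS_same]; norm_num
    · obtain ⟨l, rfl⟩ := Fin.exists_succAbove_eq hk
      rw [insS_succ]
      exact ⟨by linarith [(hw l).1], (hw l).2⟩
  · intro i j hij
    by_cases hi : i = s
    · subst hi
      obtain ⟨l, rfl⟩ := Fin.exists_succAbove_eq (Ne.symm hij)
      rw [insS_same, insS_succ, insS_succ]
      exact gg_pole (hw l).1
    · obtain ⟨l, rfl⟩ := Fin.exists_succAbove_eq hi
      by_cases hj : j = s
      · subst hj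
        rw [insS_same, insS_succ, insS_succ, gg_comm]
        exact gg_pole (hw l).1
      · obtain ⟨m, rfl⟩ := Fin.exists_succAbove_eq hj
        rw [insS_succ, insS_succ, insS_succ, insS_succ]
        exact h l m (fun he => hij (by rw [he]))

/-- the index of a walk with ten nodes among eleven nodes -/
def mp (s : Fin 11) (a : ℕ) : ℕ := 11 * (a / 10) + (s.succAbove (clN 10 (by norm_num) a)).val

lemma mp_add (s : Fin 11) (a : ℕ) : mp s (a + 10) = mp s a + 11 := by
  unfold mp
  have h1 : (a + 10) / 10 = a / 10 + 1 := by omega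
  have h2 : clN 10 (by norm_num) (a + 10) = clN 10 (by norm_num) a := clN_add _ _
  rw [h1, h2]; ring

lemma mp_lt (s : Fin 11) {a b : ℕ} (h : a < b) : mp s a < mp s b := by
  unfold mp
  have ha := (s.succAbove (clN 10 (by norm_num) a)).isLt
  have hb := (s.succAbove (clN 10 (by norm_num) b)).isLt
  rcases Nat.lt_or_ge (a / 10) (b / 10) with h1 | h1
  · omega
  · have h2 : a / 10 = b / 10 := le_antisymm (by omega) h1
    have h3 : a % 10 < b % 10 := by omega
    have h4 : clN 10 (by norm_num) a < clN 10 (by norm_num) b := h3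
    have h5 := (Fin.strictMono_succAbove s) h4
    have h6 : (s.succAbove (clN 10 (by norm_num) a)).val <
      (s.succAbove (clN 10 (by norm_num) b)).val := h5
    rw [h2]; omega

lemma clN_mp (s : Fin 11) (a : ℕ) :
    clN 11 (by norm_num) (mp s a) = s.succAbove (clN 10 (by norm_num) a) := by
  unfold mp
  ext
  unfold clN
  simp only
  rw [Nat.mul_add_mod]
  exact Nat.mod_eq_of_lt (Fin.isLt _)

lemma Vel2.ten {z : Fin 11 → ℝ} {F : (Fin 11 → ℝ) → ℝ → Fin 11 → ℝ} {s : Fin 11} (hs : z s = -1)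
    {k : Fin 10} {l u : ℝ} (h : Vel2 z F (s.succAbove k) l u) :
    Vel2 (fun l => z (s.succAbove l)) (fun w t l => F (insS s (-1) w) t (s.succAbove l)) k l u := by
  intro γ hγ
  have hT : Tendsto (fun p : (Fin 10 → ℝ) × ℝ => (insS s (-1) p.1, p.2))
      (𝓝 ((fun l => z (s.succAbove l)), 0)) (𝓝 (z, 0)) := by
    have : Continuous fun p : (Fin 10 → ℝ) × ℝ => (insS s (-1) p.1, p.2) :=
      ((insS_cont s (-1)).comp continuous_fst).prodMk continuous_snd
    refine this.tendsto' _ _ ?_
    simp only [insS_eq hs]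
  filter_upwards [hT.eventually (h γ hγ)] with p hp ha
  refine hp ?_
  intro k
  by_cases hk : k = s
  · subst hk; simp only [insS_same]; norm_num
  · obtain ⟨l, rfl⟩ := Fin.exists_succAbove_eq hk
    simp only [insS_succ]; exact ha l

/-- the hypotheses for ten heights -/
lemma PHs.ten {z : Fin 11 → ℝ} {F : (Fin 11 → ℝ) → ℝ → Fin 11 → ℝ} {lo hi : Fin 11 → ℝ}
    {S : Fin 11 → Prop} {hn : 0 < 11} {Slk : (ℕ → Fin 11) → ℕ → Prop}
    (H : PHs hn z F lo hi S Slk) {s : Fin 11} (hs : S s) :
    PH (n := 10) (by norm_num) (fun l => z (s.succAbove l))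
      (fun w t l => F (insS s (-1) w) t (s.succAbove l)) (fun l => lo (s.succAbove l))
      (fun l => hi (s.succAbove l)) (fun _ => False) := by
  have hz := H.Sz s hs
  have hT : Tendsto (fun p : (Fin 10 → ℝ) × ℝ => (insS s (-1) p.1, p.2))
      (𝓝 ((fun l => z (s.succAbove l)), 0)) (𝓝 (z, 0)) := by
    have : Continuous fun p : (Fin 10 → ℝ) × ℝ => (insS s (-1) p.1, p.2) :=
      ((insS_cont s (-1)).comp continuous_fst).prodMk continuous_snd
    refine this.tendsto' _ _ ?_
    simp only [insS_eq hz]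
  have hadm : ∀ w : Fin 10 → ℝ, AdmN w → AdmN (insS s (-1) w) := by
    intro w ha k
    by_cases hk : k = s
    · subst hk; simp only [insS_same]; norm_num
    · obtain ⟨l, rfl⟩ := Fin.exists_succAbove_eq hk
      simp only [insS_succ]; exact ha l
  have hS : ∀ l, ¬ S (s.succAbove l) := fun l h => (Fin.succAbove_ne s l) (H.S1 _ _ h hs)
  refine ⟨⟨?_, ?_, ?_, ?_, ?_⟩, ?_, ?_, ?_, ?_, ?_, ?_, ?_⟩
  · intro y; funext l; simp only [H.law.start, insS_succ]
  · intro y k; exact H.law.cont _ _
  · have h1 := H.law.near.comp hT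
    rw [tendsto_pi_nhds]
    intro k
    exact ((continuous_apply (s.succAbove k)).tendsto _).comp h1
  · filter_upwards [hT.eventually H.law.wall] with p hp ha h0 k
    exact hp (hadm _ ha) h0 _
  · intro k; exact (H.law.vel _).ten hz
  · intro i j h; exact absurd h (by simp)
  · intro s' h; exact absurd h (by simp)
  · intro s' h; exact absurd h (by simp)
  · intro k _; exact H.reg _ (hS k)
  · intro s' k h; exact absurd h (by simp)
  · intro i j hij _ _
    exact H.fe _ _ (fun h => hij (Fin.succAbove_right_injective h)) (hS i) (hS j)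
  · intro v r hr hv he hE h1 _
    have hv' : IsWalk 11 (fun k => mp s (v k)) r := by
      intro i hi'
      obtain ⟨a1, a2⟩ := hv i hi'
      refine ⟨mp_lt s a1, ?_⟩
      have := mp_lt s a2
      rwa [mp_add] at this
    have he' : mp s (v r) = mp s (v 0) + 11 := by rw [he, mp_add]
    have hcl : ∀ k, clN 11 hn (mp s (v k)) = s.succAbove (clN 10 (by norm_num) (v k)) :=
      fun k => clN_mp s (v k)
    have htw : ∀ x : Fin 11 → ℝ, twn (n := 10) (fun l => x (s.succAbove l))
        (fun k => clN 10 (by norm_num) (v k)) r =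
        twn x (fun k => clN 11 hn (mp s (v k))) r := by
      intro x
      unfold twn
      refine Finset.sum_congr rfl fun k _ => ?_
      simp only [hcl]
    have key := H.walk (fun k => mp s (v k)) r (by omega) hv' he' (by
      intro k hk
      simp only [hcl]
      rcases hE k hk with ⟨h, -⟩ | ⟨h, -⟩ | ⟨-, -, h⟩
      · exact absurd h (by simp)
      · exact absurd h (by simp)
      · exact Or.inr (Or.inr ⟨hS _, hS _, h⟩)) (by
      intro _
      rw [← htw]
      exact h1 (fun _ _ h => h)) (by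
      rintro ⟨k, hk, h⟩
      simp only [hcl] at h
      exact absurd h (hS _))
    have hst10 : ∀ k, Stat z F (s.succAbove k) → Stat (fun l => z (s.succAbove l))
        (fun w t l => F (insS s (-1) w) t (s.succAbove l)) k := by
      intro k h2
      unfold Stat at h2 ⊢
      filter_upwards [hT.eventually h2] with p hp ha h0
      have := hp (hadm _ ha) h0
      simp only [insS_succ] at this
      exact this
    rcases key with hst | ⟨c, hc, hsum⟩
    · left
      intro k hk
      have h2 := hst k hk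
      simp only [hcl] at h2
      exact hst10 _ h2
    · right
      refine ⟨c, ?_, ?_⟩
      · intro k hk _ _
        have := hc k hk (by simp only [hcl]; exact hS _) (by simp only [hcl]; exact hS _)
        simp only [hcl] at this
        rcases this with h3 | ⟨h3, h5⟩
        · exact Or.inl h3
        · refine Or.inr ⟨?_, h5⟩
          unfold MonoQ at h3 ⊢
          filter_upwards [hT.eventually h3] with p hp ha s h0 hs
          exact hp (hadm _ ha) s h0 hs
      · right
        rcases hsum with ⟨k, hk, ⟨h, -⟩ | ⟨h, -⟩⟩ | h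
        · simp only [hcl] at h
          exact absurd h (hS _)
        · simp only [hcl] at h
          exact absurd h (hS _)
        · have e : sumS (fun _ : Fin 10 => False) c (fun k => clN 10 (by norm_num) (v k)) r =
              sumS S c (fun k => clN 11 hn (mp s (v k))) r := by
            unfold sumS
            refine Finset.sum_congr rfl fun k _ => ?_
            rw [if_neg (by simp), if_neg (by
              simp only [hcl]
              rintro (h | h)
              · exact hS _ h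
              · exact hS _ h)]
          rw [e]; exact h

/-- **Local lifting for eleven heights**, also when one of them is at the south pole -/
theorem point_lift11_s {z : Fin 11 → ℝ} {F : (Fin 11 → ℝ) → ℝ → Fin 11 → ℝ} {lo hi : Fin 11 → ℝ}
    {S : Fin 11 → Prop} {hn : 0 < 11} {Slk : (ℕ → Fin 11) → ℕ → Prop}
    (H : PHs hn z F lo hi S Slk)
    (hcg : ∀ κ κ' r, (∀ k ≤ r, κ k = κ' k) → Slk κ r → Slk κ' r) {δ : ℝ} (hδ : 0 < δ) :
    ∃ U ∈ 𝓝 z, ∃ ε > 0, ∀ y ∈ U, ∀ η, Fe y η → Srtd η →
      ((∀ k, -1 < y k) → ∀ v r, r ≤ 11 → IsWalk 11 v r → v r = v 0 + 11 →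
        (∃ k < r, S (clN 11 hn (v k))) →
        Slk (fun k => clN 11 hn (v k)) r → twn y (fun k => clN 11 hn (v k)) r ≤ 2 * π - δ) →
      ∀ t, 0 ≤ t → t ≤ ε →
      ∃ η', Fe (F y t) η' ∧ JoinedIn Conf (pinN y η) (pinN (F y t) η') := by
  obtain ⟨U1, hU1, ε1, hε1, h1⟩ := point_lift_s (by norm_num) prm_pinN H hcg hδ (by
    have hk : ∀ᶠ p : (Fin 11 → ℝ) × ℝ in 𝓝 (z, 0), ∀ k, AdmN p.1 → 0 ≤ p.2 → -1 ≤ F p.1 p.2 k := by
      rw [eventually_all]; intro k
      by_cases hS : S k
      · filter_upwards [H.Sst k hS] with p hp ha h0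
        rw [hp ha h0]; exact (ha k).1
      · filter_upwards [(H.comp k).eventually (lt_mem_nhds (H.reg k hS).1)] with p hp _ _
        exact hp.le
    filter_upwards [H.law.wall, hk] with p hp hk ha _ h0 k
    exact ⟨hk k ha h0, hp ha h0 k⟩)
  have hgt : ∀ᶠ y in 𝓝 z, ∀ k, ¬ S k → -1 < y k := by
    rw [eventually_all]; intro k
    by_cases hS : S k
    · exact Eventually.of_forall fun _ h => absurd hS h
    · have := ((continuous_apply k).tendsto z).eventually (lt_mem_nhds (H.reg k hS).1)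
      filter_upwards [this] with y hy _ using hy
  have hreg : ∀ y ∈ U1, ∀ η, Fe y η → Srtd η → (∀ k, -1 < y k) →
      ((∀ k, -1 < y k) → ∀ v r, r ≤ 11 → IsWalk 11 v r → v r = v 0 + 11 →
        (∃ k < r, S (clN 11 hn (v k))) →
        Slk (fun k => clN 11 hn (v k)) r → twn y (fun k => clN 11 hn (v k)) r ≤ 2 * π - δ) →
      ∀ t, 0 ≤ t → t ≤ ε1 →
      ∃ η', Fe (F y t) η' ∧ JoinedIn Conf (pinN y η) (pinN (F y t) η') := by
    intro y hy η hF hs hy1 hsl t h0 ht
    obtain ⟨hr, -, η', hg, hJ⟩ := h1 y hy hF.1 hF.1 hy1 η hF.2 hs.1 hs.2 (hsl hy1) t h0 ht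
    exact ⟨η', ⟨fun k => ⟨(hr k).1.le, (hr k).2⟩, hg⟩, hJ⟩
  by_cases hS : ∃ s, S s
  swap
  · push Not at hS
    refine ⟨U1 ∩ {y | ∀ k, ¬ S k → -1 < y k}, inter_mem hU1 hgt, ε1, hε1, ?_⟩
    intro y hy η hF hs hsl t h0 ht
    exact hreg y hy.1 η hF hs (fun k => hy.2 k (hS k)) hsl t h0 ht
  obtain ⟨s, hs⟩ := hS
  have hz := H.Sz s hs
  have hSn : ∀ l, ¬ S (s.succAbove l) := fun l h => (Fin.succAbove_ne s l) (H.S1 _ _ h hs)
  have H10 := H.ten hs
  have hT : Tendsto (fun p : (Fin 10 → ℝ) × ℝ => (insS s (-1) p.1, p.2))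
      (𝓝 ((fun l => z (s.succAbove l)), 0)) (𝓝 (z, 0)) := by
    have : Continuous fun p : (Fin 10 → ℝ) × ℝ => (insS s (-1) p.1, p.2) :=
      ((insS_cont s (-1)).comp continuous_fst).prodMk continuous_snd
    refine this.tendsto' _ _ ?_
    simp only [insS_eq hz]
  obtain ⟨U2, hU2, ε2, hε2, h2⟩ := point_lift (by norm_num) (prm_pinS s) H10 (by
    have hk : ∀ᶠ p : (Fin 10 → ℝ) × ℝ in 𝓝 ((fun l => z (s.succAbove l)), 0), ∀ k, AdmN p.1 →
        (∀ k, -(1 / 2) ≤ p.1 k ∧ p.1 k ≤ 1 / 2) → 0 ≤ p.2 →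
        -(1 / 2) ≤ F (insS s (-1) p.1) p.2 (s.succAbove k) := by
      rw [eventually_all]; intro k
      obtain ⟨a1, a2⟩ := H.Sl s (s.succAbove k) hs (hSn k)
      rcases eq_or_lt_of_le a1 with h | h
      · rcases a2 h.symm with h3 | h3
        · have hv := H10.law.vel k (lo (s.succAbove k)) h3
          filter_upwards [hv] with p hp ha hA h0
          have := (hp ha 0 le_rfl h0).1
          simp only [H.law.start, sub_self, zero_mul, insS_succ] at this
          linarith [(hA k).1]
        · unfold Stat at h3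
          filter_upwards [hT.eventually h3] with p hp ha hA h0
          have h4 : AdmN (insS s (-1) p.1) := by
            intro m
            by_cases hm : m = s
            · subst hm; simp only [insS_same]; norm_num
            · obtain ⟨l, rfl⟩ := Fin.exists_succAbove_eq hm
              simp only [insS_succ]; exact ha l
          have := hp h4 h0
          simp only [insS_succ] at this
          rw [this]
          exact (hA k).1
      · filter_upwards [(H10.comp k).eventually (lt_mem_nhds h)] with p hp _ _ _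
        exact hp.le
    filter_upwards [H10.law.wall, hk] with p hp hk ha hA h0 k
    exact ⟨hk k ha hA h0, hp ha h0 k⟩)
  have hst : ∀ᶠ p : (Fin 11 → ℝ) × ℝ in 𝓝 (z, 0), AdmN p.1 → 0 ≤ p.2 → F p.1 p.2 s = p.1 s :=
    H.Sst s hs
  rw [nhds_prod_eq, Filter.eventually_prod_iff] at hst
  obtain ⟨P, hP, Q, hQ, hPQ⟩ := hst
  obtain ⟨ε3, hε3, hQε⟩ := Metric.eventually_nhds_iff.1 hQ
  have hQ' : ∀ t, 0 ≤ t → t ≤ ε3 / 2 → Q t := by
    intro t h0 h1
    apply hQε
    rw [Real.dist_eq, sub_zero, abs_of_nonneg h0]; linarith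
  have hpre : (fun y : Fin 11 → ℝ => fun l : Fin 10 => y (s.succAbove l)) ⁻¹' U2 ∈ 𝓝 z := by
    have : Continuous fun y : Fin 11 → ℝ => fun l : Fin 10 => y (s.succAbove l) := by fun_prop
    exact this.tendsto z hU2
  refine ⟨U1 ∩ {y | ∀ k, ¬ S k → -1 < y k} ∩
    ((fun y : Fin 11 → ℝ => fun l : Fin 10 => y (s.succAbove l)) ⁻¹' U2) ∩ {y | P y},
    inter_mem (inter_mem (inter_mem hU1 hgt) hpre) hP, min ε1 (min ε2 (ε3 / 2)),
    lt_min hε1 (lt_min hε2 (by linarith)), ?_⟩
  rintro y ⟨⟨⟨hy1, hy2⟩, hy3⟩, hy4⟩ η hF hsr hsl t h0 ht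
  rcases eq_or_lt_of_le (hF.1 s).1 with hys | hys
  swap
  · refine hreg y hy1 η hF hsr ?_ hsl t h0 (ht.trans (min_le_left _ _))
    intro k
    by_cases hk : k = s
    · subst hk; exact hys
    · obtain ⟨l, rfl⟩ := Fin.exists_succAbove_eq hk
      exact hy2 _ (hSn l)
  -- both poles occupied
  set w : Fin 10 → ℝ := fun l => y (s.succAbove l) with hw
  set ζ : Fin 10 → ℝ := fun l => η (s.succAbove l) with hζ
  have ey : insS s (-1) w = y := insS_eq hys.symm
  have hwl : ∀ k, -(1 / 2) ≤ w k ∧ w k ≤ 1 / 2 := by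
    intro k
    refine ⟨?_, (hF.1 _).2⟩
    have := hF.2 s (s.succAbove k) (Fin.succAbove_ne s k).symm
    rw [← hys] at this
    unfold gg at this
    norm_num at this
    simp only [hw]; linarith
  obtain ⟨hr, hA, ζ', hg, hJ⟩ := h2 w hy3 hwl (fun k => hF.1 _) (fun k => by linarith [(hwl k).1]) ζ
    (fun i j hij => hF.2 _ _ (fun h => hij (Fin.succAbove_right_injective h)))
    (hsr.1.comp (Fin.strictMono_succAbove s).monotone) (fun k => hsr.2 _) t h0
    (ht.trans ((min_le_right _ _).trans (min_le_left _ _)))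
  simp only [ey] at hr hg hJ hA
  have hFs : F y t s = -1 := by
    rw [hys]
    exact hPQ hy4 (hQ' t h0 (ht.trans ((min_le_right _ _).trans (min_le_right _ _)))) hF.1 h0
  have eF : insS s (-1) (fun l => F y t (s.succAbove l)) = F y t := insS_eq hFs
  have hpin : ∀ (x : Fin 11 → ℝ) (φ : Fin 11 → ℝ) (u : Fin 10 → ℝ) (θ : Fin 10 → ℝ),
      insS s (-1) u = x → (∀ l, φ (s.succAbove l) = θ l) → pinS s u θ = pinN x φ := by
    intro x φ u θ hx hφ
    funext k
    refine Fin.cases ?_ (fun k => ?_) k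
    · rfl
    · unfold pinS
      rw [pinN_succ, pinN_succ]
      by_cases hk : k = s
      · subst hk
        have e1 : (Fin.insertNth (α := fun _ => ℝ) k (-1) u) k = -1 := by simp
        have e2 : x k = -1 := by rw [← hx]; exact insS_same k (-1) u
        rw [e1, e2, pt_neg_one, pt_neg_one]
      · obtain ⟨l, rfl⟩ := Fin.exists_succAbove_eq hk
        have e1 : (Fin.insertNth (α := fun _ => ℝ) s (-1) u) (s.succAbove l) = u l := by simp
        have e2 : (Fin.insertNth (α := fun _ => ℝ) s 0 θ) (s.succAbove l) = θ l := by simp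
        have e3 : x (s.succAbove l) = u l := by rw [← hx]; exact insS_succ s (-1) u l
        rw [e1, e2, e3, hφ]
  have e1 := hpin y η w ζ ey (fun l => rfl)
  have e2 := hpin (F y t) (insS s 0 ζ') (fun l => F y t (s.succAbove l)) ζ' eF
    (fun l => insS_succ s 0 ζ' l)
  refine ⟨insS s 0 ζ', ?_, ?_⟩
  · have := fe_insS (s := s) (c := 0) hA hg
    rwa [eF] at this
  · rw [e1, e2] at hJ
    exact hJ

theorem point_lift11 {z : Fin 11 → ℝ} {F : (Fin 11 → ℝ) → ℝ → Fin 11 → ℝ} {lo hi : Fin 11 → ℝ}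
    {S : Fin 11 → Prop} {hn : 0 < 11} (H : PH hn z F lo hi S) :
    ∃ U ∈ 𝓝 z, ∃ ε > 0, ∀ y ∈ U, ∀ η, Fe y η → Srtd η → ∀ t, 0 ≤ t → t ≤ ε →
      ∃ η', Fe (F y t) η' ∧ JoinedIn Conf (pinN y η) (pinN (F y t) η') := by
  obtain ⟨U, hU, ε, hε, h⟩ := point_lift11_s H (fun _ _ _ _ h => h) one_pos
  exact ⟨U, hU, ε, hε, fun y hy η hF hs t h0 ht =>
    h y hy η hF hs (fun _ _ _ _ _ _ _ h => absurd h id) t h0 ht⟩

end Pool.Agent.Helper66.Kiss
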