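import Pool.Agent.Helper66.Kiss.PGd
import Pool.Agent.Helper66.Kiss.PGc
import Pool.Agent.Helper66.Kiss.Glob

set_option autoImplicit false

/-! # Symmetries of sorted states -/

namespace Pool.Agent.Helper66.Kiss

open Real Set Filter Topology

/-- cyclic relabelling: the new first index is `m` -/
def shz (m : Fin 11) (y : Fin 11 → ℝ) : Fin 11 → ℝ := fun k => y (k + m)

/-- longitudes of the cyclic relabelling -/
noncomputable def shφ (m : Fin 11) (η : Fin 11 → ℝ) : Fin 11 → ℝ := fun k =>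
  η (k + m) - η m + (if k.val + m.val < 11 then 0 else 2 * π)

/-- heights of the reflection -/
def rfz (y : Fin 11 → ℝ) : Fin 11 → ℝ := fun k => y k.rev

/-- longitudes of the reflection -/
noncomputable def rfφ (η : Fin 11 → ℝ) : Fin 11 → ℝ := fun k => 2 * π - η k.rev

lemma val_add_lt {k m : Fin 11} (h : k.val + m.val < 11) : (k + m).val = k.val + m.val := by
  rw [Fin.val_add]; exact Nat.mod_eq_of_lt h

lemma val_add_ge {k m : Fin 11} (h : ¬ k.val + m.val < 11) : (k + m).val = k.val + m.val - 11 := by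
  rw [Fin.val_add, Nat.mod_eq_sub_mod (by omega)]
  exact Nat.mod_eq_of_lt (by omega)

lemma Srtd.shift {η : Fin 11 → ℝ} (h : Srtd η) (m : Fin 11) : Srtd (shφ m η) := by
  obtain ⟨hm, hr⟩ := h
  constructor
  · intro i j hij
    have hij' : i.val ≤ j.val := hij
    unfold shφ
    by_cases h1 : i.val + m.val < 11 <;> by_cases h2 : j.val + m.val < 11
    · rw [if_pos h1, if_pos h2]
      have : i + m ≤ j + m := by
        rw [Fin.le_iff_val_le_val, val_add_lt h1, val_add_lt h2]; omega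
      have := hm this
      linarith
    · rw [if_pos h1, if_neg h2]
      linarith [(hr (i + m)).2, (hr (j + m)).1]
    · omega
    · rw [if_neg h1, if_neg h2]
      have : i + m ≤ j + m := by
        rw [Fin.le_iff_val_le_val, val_add_ge h1, val_add_ge h2]; omega
      have := hm this
      linarith
  · intro k
    unfold shφ
    by_cases h1 : k.val + m.val < 11
    · rw [if_pos h1]
      have : m ≤ k + m := by rw [Fin.le_iff_val_le_val, val_add_lt h1]; omega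
      have := hm this
      exact ⟨by linarith, by linarith [(hr (k + m)).2, (hr m).1]⟩
    · rw [if_neg h1]
      have : k + m ≤ m := by rw [Fin.le_iff_val_le_val, val_add_ge h1]; omega
      have := hm this
      exact ⟨by linarith [(hr (k + m)).1, (hr m).2], by linarith⟩

lemma Srtd.refl' {η : Fin 11 → ℝ} (h : Srtd η) : Srtd (rfφ η) := by
  obtain ⟨hm, hr⟩ := h
  constructor
  · intro i j hij
    unfold rfφ
    have := hm (Fin.rev_le_rev.2 hij)
    linarith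
  · intro k
    unfold rfφ
    exact ⟨by linarith [(hr k.rev).2], by linarith [(hr k.rev).1]⟩

lemma shφ_turn (m : Fin 11) (η : Fin 11 → ℝ) (k : Fin 11) :
    ∃ q : ℤ, shφ m η k = (η ∘ Equiv.addRight m) k + -η m + q * (2 * π) := by
  unfold shφ
  by_cases h : k.val + m.val < 11
  · refine ⟨0, ?_⟩
    rw [if_pos h]; simp [sub_eq_add_neg]
  · refine ⟨1, ?_⟩
    rw [if_neg h]; simp [sub_eq_add_neg]

lemma Fe_shift {y η : Fin 11 → ℝ} (hF : Fe y η) (m : Fin 11) : Fe (shz m y) (shφ m η) :=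
  Fe_turn (Fe_perm hF (Equiv.addRight m)) (-η m) (shφ_turn m η)

lemma JB_shift {y η : Fin 11 → ℝ} (hF : Fe y η) (m : Fin 11)
    (h : JB (pinN (shz m y) (shφ m η))) : JB (pinN y η) :=
  JB_perm (Equiv.addRight m) (JB_turn (Fe_perm hF (Equiv.addRight m)) (-η m) (shφ_turn m η) h)

lemma rfφ_turn (η : Fin 11 → ℝ) (k : Fin 11) :
    ∃ q : ℤ, rfφ η k = (fun k => -(η ∘ Fin.revPerm) k) k + 0 + q * (2 * π) := by
  unfold rfφ
  refine ⟨1, ?_⟩
  simp; ring

lemma Fe_refl {y η : Fin 11 → ℝ} (hF : Fe y η) : Fe (rfz y) (rfφ η) :=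
  Fe_turn (Fe_neg (Fe_perm hF Fin.revPerm)) 0 (rfφ_turn η)

lemma JB_refl {y η : Fin 11 → ℝ} (hF : Fe y η) (h : JB (pinN (rfz y) (rfφ η))) :
    JB (pinN y η) :=
  JB_perm Fin.revPerm (JB_neg (JB_turn (Fe_neg (Fe_perm hF Fin.revPerm)) 0 (rfφ_turn η) h))

section

variable {R : Set (Fin 11 → ℝ)} {Φ : (Fin 11 → ℝ) → ℝ}

theorem GainP.shift (hRp : ∀ z (τ : Equiv.Perm (Fin 11)), z ∈ R → z ∘ τ ∈ R)
    (hΦp : ∀ z (τ : Equiv.Perm (Fin 11)), Φ (z ∘ τ) = Φ z) {z φ : Fin 11 → ℝ} (m : Fin 11)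
    (h : GainP R Φ (shz m z) (shφ m φ)) : GainP R Φ z φ := by
  obtain ⟨U, hU, δ, hδ, h⟩ := h
  have hc : Continuous fun x : HL => (shz m x.1, shφ m x.2) := by
    unfold shz shφ
    refine Continuous.prodMk (by fun_prop) ?_
    rw [continuous_pi_iff]
    intro k
    by_cases h : k.val + m.val < 11
    · simp only [if_pos h]; fun_prop
    · simp only [if_neg h]; fun_prop
  refine ⟨(fun x : HL => (shz m x.1, shφ m x.2)) ⁻¹' U, hc.continuousAt hU, δ, hδ, ?_⟩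
  intro y η hy hF hs hR
  rcases h _ _ hy (Fe_shift hF m) (hs.shift m) (hRp y (Equiv.addRight m) hR) with
    h | ⟨y', η', h1, h2, h3, h4⟩
  · exact Or.inl (JB_shift hF m h)
  · refine Or.inr ⟨y', η', h1, h2, ?_, fun h => JB_shift hF m (h4 h)⟩
    have : Φ (shz m y) = Φ y := hΦp y (Equiv.addRight m)
    rwa [this] at h3

theorem GainP.refl (hRp : ∀ z (τ : Equiv.Perm (Fin 11)), z ∈ R → z ∘ τ ∈ R)
    (hΦp : ∀ z (τ : Equiv.Perm (Fin 11)), Φ (z ∘ τ) = Φ z) {z φ : Fin 11 → ℝ}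
    (h : GainP R Φ (rfz z) (rfφ φ)) : GainP R Φ z φ := by
  obtain ⟨U, hU, δ, hδ, h⟩ := h
  have hc : Continuous fun x : HL => (rfz x.1, rfφ x.2) := by
    unfold rfz rfφ
    fun_prop
  refine ⟨(fun x : HL => (rfz x.1, rfφ x.2)) ⁻¹' U, hc.continuousAt hU, δ, hδ, ?_⟩
  intro y η hy hF hs hR
  rcases h _ _ hy (Fe_refl hF) hs.refl' (hRp y Fin.revPerm hR) with
    h | ⟨y', η', h1, h2, h3, h4⟩
  · exact Or.inl (JB_refl hF h)
  · refine Or.inr ⟨y', η', h1, h2, ?_, fun h => JB_refl hF (h4 h)⟩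
    have : Φ (rfz y) = Φ y := hΦp y Fin.revPerm
    rwa [this] at h3

end

/-! ## the region of stage B -/

/-- some point has tilt at most `arccos c1` -/
def RB (c1 : ℝ) : Set (Fin 11 → ℝ) := {y | ∃ s, y s ≤ -c1}

lemma RB_closed (c1 : ℝ) : IsClosed (RB c1) := by
  have : RB c1 = ⋃ s, {y | y s ≤ -c1} := by ext y; simp [RB]
  rw [this]
  exact isClosed_iUnion_of_finite fun s => isClosed_le (by fun_prop) continuous_const

lemma RB_perm (c1 : ℝ) (z : Fin 11 → ℝ) (τ : Equiv.Perm (Fin 11)) (h : z ∈ RB c1) :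
    z ∘ τ ∈ RB c1 := by
  obtain ⟨s, hs⟩ := h
  exact ⟨τ.symm s, by simpa using hs⟩

lemma Phi5_perm (z : Fin 11 → ℝ) (τ : Equiv.Perm (Fin 11)) : Phi5 (z ∘ τ) = Phi5 z := by
  apply le_antisymm
  · obtain ⟨U, hU, h⟩ := exists_Phi5 (z ∘ τ)
    rw [h]
    have := le_Phi5 z (U := U.map τ.toEmbedding) (by rw [Finset.card_map]; exact hU)
    rwa [Finset.sum_map] at this
  · obtain ⟨U, hU, h⟩ := exists_Phi5 z
    rw [h]
    have := le_Phi5 (z ∘ τ) (U := U.map τ.symm.toEmbedding) (by rw [Finset.card_map]; exact hU)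
    rw [Finset.sum_map] at this
    simpa using this

/-- **gain from the point conditions** -/
theorem gainP_of_ph {c1 : ℝ} {z φ : Fin 11 → ℝ} {F : (Fin 11 → ℝ) → ℝ → Fin 11 → ℝ}
    {lo hi : Fin 11 → ℝ} {S : Fin 11 → Prop} {hn : 0 < 11} (H : PH hn z F lo hi S)
    (hfix : ∀ s, z s ≤ -c1 → Stat z F s)
    (hg : ∀ U : Finset (Fin 11), U.card = 5 → ∑ k ∈ U, z k = Phi5 z → 0 < ∑ k ∈ U, lo k) :
    GainP (RB c1) Phi5 z φ := by
  obtain ⟨U1, hU1, ε1, hε1, h1⟩ := point_lift11 H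
  obtain ⟨U2, hU2, ε2, hε2, κ, hκ, h2⟩ := Phi5_gain H.law hg
  -- points with tilt at most `arccos c1` near `z` do not move
  have h3 : ∀ᶠ p : (Fin 11 → ℝ) × ℝ in 𝓝 (z, 0), ∀ s, AdmN p.1 → 0 ≤ p.2 → p.1 s ≤ -c1 →
      F p.1 p.2 s = p.1 s := by
    rw [eventually_all]; intro s
    rcases le_or_gt (z s) (-c1) with h | h
    · filter_upwards [hfix s h] with p hp ha h0 _ using hp ha h0
    · have : Tendsto (fun p : (Fin 11 → ℝ) × ℝ => p.1 s) (𝓝 (z, 0)) (𝓝 (z s)) :=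
        ((continuous_apply s).comp continuous_fst).tendsto' _ _ rfl
      filter_upwards [this.eventually (lt_mem_nhds h)] with p hp _ _ h5
      linarith
  rw [nhds_prod_eq, Filter.eventually_prod_iff] at h3
  obtain ⟨P, hP, Q, hQ, hPQ⟩ := h3
  obtain ⟨ε3, hε3, hQε⟩ := Metric.eventually_nhds_iff.1 hQ
  set ε := min ε1 (min ε2 (ε3 / 2)) with hε
  have hε0 : 0 < ε := lt_min hε1 (lt_min hε2 (by linarith))
  have e1 : ε ≤ ε1 := min_le_left _ _
  have e2 : ε ≤ ε2 := (min_le_right _ _).trans (min_le_left _ _)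
  have e3 : ε ≤ ε3 / 2 := (min_le_right _ _).trans (min_le_right _ _)
  have hq : Q ε := by
    apply hQε
    rw [Real.dist_eq, sub_zero, abs_of_pos hε0]; linarith
  refine ⟨(fun x : HL => x.1) ⁻¹' (U1 ∩ U2 ∩ {y | P y}), ?_, κ * ε, mul_pos hκ hε0, ?_⟩
  · exact continuous_fst.continuousAt (inter_mem (inter_mem hU1 hU2) hP)
  · rintro y η ⟨⟨hy1, hy2⟩, hy3⟩ hF hs ⟨s, hsR⟩
    obtain ⟨η', hF', hJ⟩ := h1 y hy1 η hF hs ε hε0.le e1
    refine Or.inr ⟨F y ε, η', hF', ⟨s, ?_⟩, h2 y hy2 hF.1 ε hε0.le e2, fun h => hJ.trans h⟩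
    rw [hPQ hy3 hq s hF.1 hε0.le hsR]
    exact hsR

end Pool.Agent.Helper66.Kiss
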