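import Pool.Agent.Helper66.Kiss.PGd
import Pool.Agent.Helper66.Kiss.Glob

set_option autoImplicit false

/-! # Gain of general functionals -/

namespace Pool.Agent.Helper66.Kiss

open Real Set Filter Topology

/-- the law lifts near `z` -/
def Lifts (z : Fin 11 → ℝ) (F : (Fin 11 → ℝ) → ℝ → Fin 11 → ℝ) : Prop :=
  ∃ U ∈ 𝓝 z, ∃ ε > 0, ∀ y ∈ U, ∀ η, Fe y η → Srtd η → ∀ t, 0 ≤ t → t ≤ ε →
    ∃ η', Fe (F y t) η' ∧ JoinedIn Conf (pinN y η) (pinN (F y t) η')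

/-- the functional grows -/
def Grows (z : Fin 11 → ℝ) (F : (Fin 11 → ℝ) → ℝ → Fin 11 → ℝ) (Φ : (Fin 11 → ℝ) → ℝ) : Prop :=
  ∃ V ∈ 𝓝 z, ∃ ε > 0, ∃ κ > 0, ∀ y ∈ V, AdmN y → ∀ t, 0 ≤ t → t ≤ ε → Φ y + κ * t ≤ Φ (F y t)

/-- the law preserves `R` -/
def Keeps (z : Fin 11 → ℝ) (F : (Fin 11 → ℝ) → ℝ → Fin 11 → ℝ) (R : Set (Fin 11 → ℝ)) : Prop :=
  ∃ V ∈ 𝓝 z, ∃ ε > 0, ∀ y ∈ V, AdmN y → y ∈ R → ∀ t, 0 ≤ t → t ≤ ε → F y t ∈ R

/-- **gain from a lift** -/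
theorem gainP_of_lifts {R : Set (Fin 11 → ℝ)} {Φ : (Fin 11 → ℝ) → ℝ} {z φ : Fin 11 → ℝ}
    {F : (Fin 11 → ℝ) → ℝ → Fin 11 → ℝ} (h1 : Lifts z F) (h2 : Grows z F Φ) (h3 : Keeps z F R) :
    GainP R Φ z φ := by
  obtain ⟨U1, hU1, ε1, hε1, h1⟩ := h1
  obtain ⟨U2, hU2, ε2, hε2, κ, hκ, h2⟩ := h2
  obtain ⟨U3, hU3, ε3, hε3, h3⟩ := h3
  set ε := min ε1 (min ε2 ε3) with hε
  have hε0 : 0 < ε := lt_min hε1 (lt_min hε2 hε3)
  have e1 : ε ≤ ε1 := min_le_left _ _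
  have e2 : ε ≤ ε2 := (min_le_right _ _).trans (min_le_left _ _)
  have e3 : ε ≤ ε3 := (min_le_right _ _).trans (min_le_right _ _)
  refine ⟨(fun x : HL => x.1) ⁻¹' (U1 ∩ U2 ∩ U3), ?_, κ * ε, mul_pos hκ hε0, ?_⟩
  · exact continuous_fst.continuousAt (inter_mem (inter_mem hU1 hU2) hU3)
  · rintro y η ⟨⟨hy1, hy2⟩, hy3⟩ hF hs hR
    obtain ⟨η', hF', hJ⟩ := h1 y hy1 η hF hs ε hε0.le e1
    exact Or.inr ⟨F y ε, η', hF', h3 y hy3 hF.1 hR ε hε0.le e3, h2 y hy2 hF.1 ε hε0.le e2,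
      fun h => hJ.trans h⟩

/-! ## functionals -/

/-- the best sum of `A` over five heights plus the sum of `B` over the others -/
noncomputable def PhiAB (A B : ℝ → ℝ) (z : Fin 11 → ℝ) : ℝ :=
  (Finset.univ.powersetCard 5 : Finset (Finset (Fin 11))).sup' five_ne fun U =>
    ∑ k ∈ U, A (z k) + ∑ k ∈ Uᶜ, B (z k)

lemma le_PhiAB {A B : ℝ → ℝ} (z : Fin 11 → ℝ) {U : Finset (Fin 11)} (hU : U.card = 5) :
    ∑ k ∈ U, A (z k) + ∑ k ∈ Uᶜ, B (z k) ≤ PhiAB A B z := by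
  unfold PhiAB
  exact Finset.le_sup' (fun U => ∑ k ∈ U, A (z k) + ∑ k ∈ Uᶜ, B (z k)) (by simp [hU])

lemma exists_PhiAB (A B : ℝ → ℝ) (z : Fin 11 → ℝ) : ∃ U : Finset (Fin 11), U.card = 5 ∧
    PhiAB A B z = ∑ k ∈ U, A (z k) + ∑ k ∈ Uᶜ, B (z k) := by
  obtain ⟨U, hU, h⟩ := Finset.exists_mem_eq_sup' five_ne fun U : Finset (Fin 11) =>
    ∑ k ∈ U, A (z k) + ∑ k ∈ Uᶜ, B (z k)
  exact ⟨U, (Finset.mem_powersetCard.1 hU).2, h⟩

lemma PhiAB_cont {A B : ℝ → ℝ} (hA : Continuous A) (hB : Continuous B) :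
    Continuous (PhiAB A B) := by
  unfold PhiAB
  refine Continuous.finset_sup'_apply _ fun U _ => ?_
  exact (continuous_finsetSum _ fun k _ => hA.comp (continuous_apply k)).add
    (continuous_finsetSum _ fun k _ => hB.comp (continuous_apply k))

lemma PhiAB_perm (A B : ℝ → ℝ) (z : Fin 11 → ℝ) (τ : Equiv.Perm (Fin 11)) :
    PhiAB A B (z ∘ τ) = PhiAB A B z := by
  classical
  have key : ∀ (z : Fin 11 → ℝ) (τ : Equiv.Perm (Fin 11)), PhiAB A B (z ∘ τ) ≤ PhiAB A B z := by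
    intro z τ
    obtain ⟨U, hU, h⟩ := exists_PhiAB A B (z ∘ τ)
    rw [h]
    have h1 := le_PhiAB (A := A) (B := B) z (U := U.map τ.toEmbedding)
      (by rw [Finset.card_map]; exact hU)
    have h2 : (U.map τ.toEmbedding)ᶜ = Uᶜ.map τ.toEmbedding := by
      ext x
      simp only [Finset.mem_compl, Finset.mem_map_equiv]
    rw [h2, Finset.sum_map, Finset.sum_map] at h1
    exact h1
  apply le_antisymm (key z τ)
  have := key (z ∘ τ) τ.symm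
  have e : (z ∘ τ) ∘ τ.symm = z := by
    funext k; simp
  rwa [e] at this

/-- `ψ` of the height grows at least with speed `a` -/
def GrLo (z : Fin 11 → ℝ) (F : (Fin 11 → ℝ) → ℝ → Fin 11 → ℝ) (ψ : ℝ → ℝ) (k : Fin 11) (a : ℝ) :
    Prop :=
  ∀ γ > 0, ∀ᶠ p : (Fin 11 → ℝ) × ℝ in 𝓝 (z, 0), AdmN p.1 → 0 ≤ p.2 →
    ψ (p.1 k) + (a - γ) * p.2 ≤ ψ (F p.1 p.2 k)

theorem PhiAB_gain {A B : ℝ → ℝ} (hA : Continuous A) (hB : Continuous B) {z : Fin 11 → ℝ}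
    {F : (Fin 11 → ℝ) → ℝ → Fin 11 → ℝ} {a b : Fin 11 → ℝ} (ha : ∀ k, GrLo z F A k (a k))
    (hb : ∀ k, GrLo z F B k (b k))
    (hg : ∀ U : Finset (Fin 11), U.card = 5 →
      ∑ k ∈ U, A (z k) + ∑ k ∈ Uᶜ, B (z k) = PhiAB A B z → 0 < ∑ k ∈ U, a k + ∑ k ∈ Uᶜ, b k) :
    Grows z F (PhiAB A B) := by
  classical
  obtain ⟨κ, hκ, hκ2⟩ : ∃ κ > 0, ∀ U : Finset (Fin 11), U.card = 5 →
      ∑ k ∈ U, A (z k) + ∑ k ∈ Uᶜ, B (z k) = PhiAB A B z →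
      2 * κ ≤ ∑ k ∈ U, a k + ∑ k ∈ Uᶜ, b k := by
    have hne : (Finset.univ.filter fun U : Finset (Fin 11) => U.card = 5 ∧
        ∑ k ∈ U, A (z k) + ∑ k ∈ Uᶜ, B (z k) = PhiAB A B z).Nonempty := by
      obtain ⟨U, h1, h2⟩ := exists_PhiAB A B z
      exact ⟨U, by simp [h1, h2]⟩
    obtain ⟨U, hU, hm⟩ := Finset.exists_min_image _
      (fun U : Finset (Fin 11) => ∑ k ∈ U, a k + ∑ k ∈ Uᶜ, b k) hne
    simp only [Finset.mem_filter, Finset.mem_univ, true_and] at hU hm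
    refine ⟨(∑ k ∈ U, a k + ∑ k ∈ Uᶜ, b k) / 2, by linarith [hg U hU.1 hU.2], fun W h1 h2 => ?_⟩
    have := hm W ⟨h1, h2⟩
    linarith
  have hcU : ∀ U : Finset (Fin 11), Continuous fun y : Fin 11 → ℝ =>
      ∑ k ∈ U, A (y k) + ∑ k ∈ Uᶜ, B (y k) := fun U =>
    (continuous_finsetSum _ fun k _ => hA.comp (continuous_apply k)).add
      (continuous_finsetSum _ fun k _ => hB.comp (continuous_apply k))
  have h1 : ∀ᶠ y in 𝓝 z, ∀ U : Finset (Fin 11), U.card = 5 →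
      ∑ k ∈ U, A (z k) + ∑ k ∈ Uᶜ, B (z k) < PhiAB A B z →
      ∑ k ∈ U, A (y k) + ∑ k ∈ Uᶜ, B (y k) < PhiAB A B y := by
    rw [eventually_all]; intro U
    by_cases hU : U.card = 5 ∧ ∑ k ∈ U, A (z k) + ∑ k ∈ Uᶜ, B (z k) < PhiAB A B z
    · have hc : Continuous fun y : Fin 11 → ℝ => PhiAB A B y -
          (∑ k ∈ U, A (y k) + ∑ k ∈ Uᶜ, B (y k)) := (PhiAB_cont hA hB).sub (hcU U)
      filter_upwards [(hc.tendsto z).eventually (lt_mem_nhds (by linarith : (0 : ℝ) < _))] with y hy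
        _ _
      linarith
    · exact Eventually.of_forall fun y h1 h2 => absurd ⟨h1, h2⟩ hU
  have h2 : ∀ᶠ p : (Fin 11 → ℝ) × ℝ in 𝓝 (z, 0), ∀ k, AdmN p.1 → 0 ≤ p.2 →
      A (p.1 k) + (a k - κ / 11) * p.2 ≤ A (F p.1 p.2 k) ∧
      B (p.1 k) + (b k - κ / 11) * p.2 ≤ B (F p.1 p.2 k) := by
    rw [eventually_all]; intro k
    filter_upwards [ha k (κ / 11) (by positivity), hb k (κ / 11) (by positivity)] with p p1 p2 had h0
    exact ⟨p1 had h0, p2 had h0⟩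
  rw [nhds_prod_eq, Filter.eventually_prod_iff] at h2
  obtain ⟨P, hP, Q, hQ, hPQ⟩ := h2
  obtain ⟨ε, hε, hQε⟩ := Metric.eventually_nhds_iff.1 hQ
  refine ⟨{y | P y} ∩ {y | ∀ U : Finset (Fin 11), U.card = 5 →
      ∑ k ∈ U, A (z k) + ∑ k ∈ Uᶜ, B (z k) < PhiAB A B z →
      ∑ k ∈ U, A (y k) + ∑ k ∈ Uᶜ, B (y k) < PhiAB A B y}, inter_mem hP h1, ε / 2,
      by linarith, κ, hκ, ?_⟩
  rintro y ⟨hy1, hy2⟩ had t h0 ht
  have hq : Q t := by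
    apply hQε
    rw [Real.dist_eq, sub_zero, abs_of_nonneg h0]; linarith
  obtain ⟨U, hU, he⟩ := exists_PhiAB A B y
  have hz : ∑ k ∈ U, A (z k) + ∑ k ∈ Uᶜ, B (z k) = PhiAB A B z := by
    rcases lt_or_eq_of_le (le_PhiAB (A := A) (B := B) z hU) with h | h
    · have := hy2 U hU h; linarith
    · exact h
  have h3 := hκ2 U hU hz
  have h4 : ∑ k ∈ U, (A (y k) + (a k - κ / 11) * t) ≤ ∑ k ∈ U, A (F y t k) :=
    Finset.sum_le_sum fun k _ => (hPQ hy1 hq k had h0).1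
  have h5 : ∑ k ∈ Uᶜ, (B (y k) + (b k - κ / 11) * t) ≤ ∑ k ∈ Uᶜ, B (F y t k) :=
    Finset.sum_le_sum fun k _ => (hPQ hy1 hq k had h0).2
  have hUc : Uᶜ.card = 6 := by rw [Finset.card_compl, hU]; rfl
  rw [Finset.sum_add_distrib, ← Finset.sum_mul, Finset.sum_sub_distrib, Finset.sum_const, hU,
    nsmul_eq_mul] at h4
  rw [Finset.sum_add_distrib, ← Finset.sum_mul, Finset.sum_sub_distrib, Finset.sum_const, hUc,
    nsmul_eq_mul] at h5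
  have h6 := le_PhiAB (A := A) (B := B) (F y t) hU
  rw [he]
  push_cast at h4 h5
  nlinarith

/-! ## growth along the law -/

section

variable {v w z : Fin 11 → ℝ}

/-- the height itself -/
lemma grLo_id {F : (Fin 11 → ℝ) → ℝ → Fin 11 → ℝ} {k : Fin 11} {l u : ℝ}
    (hs : ∀ y, F y 0 = y) (h : Vel2 z F k l u) : GrLo z F (fun x => x) k l := by
  intro γ hγ
  filter_upwards [h γ hγ] with p hp ha h0
  have := (hp ha 0 le_rfl h0).1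
  rw [hs, sub_zero] at this
  linarith

lemma grLo_zero {F : (Fin 11 → ℝ) → ℝ → Fin 11 → ℝ} {k : Fin 11} :
    GrLo z F (fun _ => 0) k 0 := by
  intro γ hγ
  filter_upwards with p ha h0
  nlinarith

/-- affine functions of the height with nonnegative slope near the point -/
lemma grLo_pos {F : (Fin 11 → ℝ) → ℝ → Fin 11 → ℝ} {k : Fin 11} {l u c d : ℝ} {ψ : ℝ → ℝ}
    (hs : ∀ y, F y 0 = y) (hn : Tendsto (fun p : (Fin 11 → ℝ) × ℝ => F p.1 p.2) (𝓝 (z, 0)) (𝓝 z))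
    (h : Vel2 z F k l u) (hc : 0 ≤ c) (hψ : ∀ᶠ x in 𝓝 (z k), ψ x = c * x + d) :
    GrLo z F ψ k (c * l) := by
  intro γ hγ
  have hfst : Tendsto (fun p : (Fin 11 → ℝ) × ℝ => p.1 k) (𝓝 (z, 0)) (𝓝 (z k)) :=
    ((continuous_apply k).comp continuous_fst).tendsto' _ _ rfl
  have hF : Tendsto (fun p : (Fin 11 → ℝ) × ℝ => F p.1 p.2 k) (𝓝 (z, 0)) (𝓝 (z k)) :=
    ((continuous_apply k).tendsto _).comp hn
  filter_upwards [h (γ / (c + 1)) (by positivity), hfst.eventually hψ, hF.eventually hψ] with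
    p hp p1 p2 ha h0
  have h1 := (hp ha 0 le_rfl h0).1
  rw [hs, sub_zero] at h1
  rw [p1, p2]
  have h2 := mul_le_mul_of_nonneg_left h1 hc
  have h3 : c * (γ / (c + 1)) ≤ γ := by
    rw [← mul_div_assoc, div_le_iff₀ (by positivity)]; nlinarith
  nlinarith

/-- affine functions of the height with nonpositive slope near the point -/
lemma grLo_neg {F : (Fin 11 → ℝ) → ℝ → Fin 11 → ℝ} {k : Fin 11} {l u c d : ℝ} {ψ : ℝ → ℝ}
    (hs : ∀ y, F y 0 = y) (hn : Tendsto (fun p : (Fin 11 → ℝ) × ℝ => F p.1 p.2) (𝓝 (z, 0)) (𝓝 z))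
    (h : Vel2 z F k l u) (hc : 0 ≤ c) (hψ : ∀ᶠ x in 𝓝 (z k), ψ x = -c * x + d) :
    GrLo z F ψ k (-c * u) := by
  intro γ hγ
  have hfst : Tendsto (fun p : (Fin 11 → ℝ) × ℝ => p.1 k) (𝓝 (z, 0)) (𝓝 (z k)) :=
    ((continuous_apply k).comp continuous_fst).tendsto' _ _ rfl
  have hF : Tendsto (fun p : (Fin 11 → ℝ) × ℝ => F p.1 p.2 k) (𝓝 (z, 0)) (𝓝 (z k)) :=
    ((continuous_apply k).tendsto _).comp hn
  filter_upwards [h (γ / (c + 1)) (by positivity), hfst.eventually hψ, hF.eventually hψ] with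
    p hp p1 p2 ha h0
  have h1 := (hp ha 0 le_rfl h0).2
  rw [hs, sub_zero] at h1
  rw [p1, p2]
  have h2 := mul_le_mul_of_nonneg_left h1 hc
  have h3 : c * (γ / (c + 1)) ≤ γ := by
    rw [← mul_div_assoc, div_le_iff₀ (by positivity)]; nlinarith
  nlinarith

/-- the smaller of two functions -/
lemma GrLo.min {F : (Fin 11 → ℝ) → ℝ → Fin 11 → ℝ} {k : Fin 11} {ψ χ : ℝ → ℝ} {a b : ℝ}
    (h1 : GrLo z F ψ k a) (h2 : GrLo z F χ k b) :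
    GrLo z F (fun x => Min.min (ψ x) (χ x)) k (Min.min a b) := by
  intro γ hγ
  filter_upwards [h1 γ hγ, h2 γ hγ] with p p1 p2 ha h0
  have q1 := p1 ha h0
  have q2 := p2 ha h0
  refine le_min ?_ ?_
  · have m1 : Min.min a b ≤ a := min_le_left _ _
    have m2 : Min.min (ψ (p.1 k)) (χ (p.1 k)) ≤ ψ (p.1 k) := min_le_left _ _
    nlinarith
  · have m1 : Min.min a b ≤ b := min_le_right _ _
    have m2 : Min.min (ψ (p.1 k)) (χ (p.1 k)) ≤ χ (p.1 k) := min_le_right _ _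
    nlinarith

lemma GrLo.mono {F : (Fin 11 → ℝ) → ℝ → Fin 11 → ℝ} {k : Fin 11} {ψ : ℝ → ℝ} {a b : ℝ}
    (h1 : GrLo z F ψ k a) (hb : b ≤ a) : GrLo z F ψ k b := by
  intro γ hγ
  filter_upwards [h1 γ hγ] with p p1 ha h0
  have := p1 ha h0
  nlinarith

end

end Pool.Agent.Helper66.Kiss
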