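import Pool.Agent.Helper66.Kiss.PGb

set_option autoImplicit false

/-! # The standard law of motion -/

namespace Pool.Agent.Helper66.Kiss

open Real Set Filter Topology

variable {n : ℕ}

/-- every height `k` moves with the constant velocity `G k (y k)` until it reaches the wall `1/2` -/
noncomputable def gF (G : Fin n → ℝ → ℝ) (y : Fin n → ℝ) (t : ℝ) (k : Fin n) : ℝ :=
  min (y k + t * G k (y k)) (max (y k) (1 / 2))

/-- lower velocities -/
noncomputable def gLo (G : Fin n → ℝ → ℝ) (z : Fin n → ℝ) (k : Fin n) : ℝ :=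
  if z k = 1 / 2 ∧ 0 < G k (z k) then 0 else G k (z k)

/-- upper velocities -/
noncomputable def gHi (G : Fin n → ℝ → ℝ) (z : Fin n → ℝ) (k : Fin n) : ℝ := G k (z k)

lemma gF_start (G : Fin n → ℝ → ℝ) (y : Fin n → ℝ) : gF G y 0 = y := by
  funext k
  unfold gF
  rw [zero_mul, add_zero]
  exact min_eq_left (le_max_left _ _)

lemma gF_wall {G : Fin n → ℝ → ℝ} {y : Fin n → ℝ} (ha : AdmN y) (t : ℝ) (k : Fin n) :
    gF G y t k ≤ 1 / 2 := by
  unfold gF
  exact (min_le_right _ _).trans (max_le (ha k).2 le_rfl)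

lemma gF_adm {G : Fin n → ℝ → ℝ} {y : Fin n → ℝ} (ha : AdmN y) (t : ℝ) (k : Fin n) :
    gF G y t k = min (y k + t * G k (y k)) (1 / 2) := by
  unfold gF
  rw [max_eq_right (ha k).2]

lemma gF_stat {G : Fin n → ℝ → ℝ} {y : Fin n → ℝ} {k : Fin n} (h : G k (y k) = 0) (t : ℝ) :
    gF G y t k = y k := by
  unfold gF
  rw [h, mul_zero, add_zero]
  exact min_eq_left (le_max_left _ _)

theorem gF_law {G : Fin n → ℝ → ℝ} (hG : ∀ k, Continuous (G k)) {z : Fin n → ℝ}
    (hz : ∀ k, z k ≤ 1 / 2) : Law2 z (gF G) (gLo G z) (gHi G z) := by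
  refine ⟨gF_start G, ?_, ?_, ?_, ?_⟩
  · intro y k
    unfold gF
    fun_prop
  · rw [tendsto_pi_nhds]
    intro k
    have hc : Continuous fun p : (Fin n → ℝ) × ℝ => gF G p.1 p.2 k := by
      unfold gF
      have h1 : Continuous fun p : (Fin n → ℝ) × ℝ => p.1 k := by fun_prop
      have h2 : Continuous fun p : (Fin n → ℝ) × ℝ => G k (p.1 k) := (hG k).comp h1
      exact (h1.add (continuous_snd.mul h2)).min (h1.max continuous_const)
    refine hc.tendsto' _ _ ?_
    simp only [gF_start]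
  · exact Eventually.of_forall fun p ha _ k => gF_wall ha p.2 k
  · intro k γ hγ
    have hfst : Tendsto (fun p : (Fin n → ℝ) × ℝ => p.1 k) (𝓝 (z, 0)) (𝓝 (z k)) :=
      ((continuous_apply k).comp continuous_fst).tendsto' _ _ rfl
    have hg : Tendsto (fun p : (Fin n → ℝ) × ℝ => G k (p.1 k)) (𝓝 (z, 0)) (𝓝 (G k (z k))) :=
      ((hG k).tendsto _).comp hfst
    have hb : ∀ᶠ p : (Fin n → ℝ) × ℝ in 𝓝 (z, 0), |G k (p.1 k) - G k (z k)| < γ := by
      have := hg.eventually (Metric.ball_mem_nhds _ hγ)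
      filter_upwards [this] with p hp
      rwa [Real.dist_eq] at hp
    -- exact velocities
    have hex : ∀ (y : Fin n → ℝ) (t s g : ℝ), s ≤ t → |g - G k (z k)| < γ →
        gF G y t k = y k + t * g → gF G y s k = y k + s * g → gLo G z k = G k (z k) →
        (gLo G z k - γ) * (t - s) ≤ gF G y t k - gF G y s k ∧
        gF G y t k - gF G y s k ≤ (gHi G z k + γ) * (t - s) := by
      intro y t s g hst hgγ e1 e2 hlo
      rw [e1, e2, hlo]
      unfold gHi
      rw [abs_lt] at hgγ
      constructor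
      · nlinarith
      · nlinarith
    by_cases h1 : z k = 1 / 2 ∧ 0 < G k (z k)
    · -- at the wall, moving up
      have hlo : gLo G z k = 0 := by unfold gLo; rw [if_pos h1]
      have hpos : ∀ᶠ p : (Fin n → ℝ) × ℝ in 𝓝 (z, 0), 0 < G k (p.1 k) :=
        hg.eventually (lt_mem_nhds h1.2)
      filter_upwards [hb, hpos] with p hp hp0 ha s hs0 hst
      rw [gF_adm ha, gF_adm ha, hlo]
      unfold gHi
      rw [abs_lt] at hp
      have hm : s * G k (p.1 k) ≤ p.2 * G k (p.1 k) := mul_le_mul_of_nonneg_right hst hp0.le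
      have m1 : min (p.1 k + s * G k (p.1 k)) (1 / 2) ≤ min (p.1 k + p.2 * G k (p.1 k)) (1 / 2) :=
        min_le_min (by linarith) le_rfl
      have m2 : min (p.1 k + p.2 * G k (p.1 k)) (1 / 2) ≤
          min (p.1 k + s * G k (p.1 k)) (1 / 2) + (p.2 * G k (p.1 k) - s * G k (p.1 k)) := by
        rcases le_total (p.1 k + s * G k (p.1 k)) (1 / 2) with h | h
        · rw [min_eq_left h]
          exact (min_le_left _ _).trans (by linarith)
        · rw [min_eq_right h]
          exact (min_le_right _ _).trans (by linarith)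
      constructor
      · nlinarith
      · nlinarith
    · have hlo : gLo G z k = G k (z k) := by unfold gLo; rw [if_neg h1]
      rcases lt_or_eq_of_le (hz k) with h2 | h2
      · -- below the wall
        have hb2 : ∀ᶠ p : (Fin n → ℝ) × ℝ in 𝓝 (z, 0), p.1 k + p.2 * G k (p.1 k) < 1 / 2 := by
          have h3 : Tendsto (fun p : (Fin n → ℝ) × ℝ => p.1 k + p.2 * G k (p.1 k)) (𝓝 (z, 0))
              (𝓝 (z k + 0 * G k (z k))) := hfst.add ((continuous_snd.tendsto _).mul hg)
          rw [zero_mul, add_zero] at h3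
          exact h3.eventually (gt_mem_nhds h2)
        filter_upwards [hb, ev_all_le hb2] with p hp hp2 ha s hs0 hst
        refine hex p.1 p.2 s (G k (p.1 k)) hst hp ?_ ?_ hlo
        · rw [gF_adm ha]
          exact min_eq_left (hp2 p.2 (hs0.trans hst) le_rfl).le
        · rw [gF_adm ha]
          exact min_eq_left (hp2 s hs0 hst).le
      · have h3 : G k (z k) ≤ 0 := by
          by_contra hcon
          push Not at hcon
          exact h1 ⟨h2, hcon⟩
        filter_upwards [hb] with p hp ha s hs0 hst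
        rcases le_or_gt (G k (p.1 k)) 0 with h4 | h4
        · refine hex p.1 p.2 s (G k (p.1 k)) hst hp ?_ ?_ hlo
          · rw [gF_adm ha]
            refine min_eq_left ?_
            have := mul_nonpos_of_nonneg_of_nonpos (hs0.trans hst) h4
            linarith [(ha k).2]
          · rw [gF_adm ha]
            refine min_eq_left ?_
            have := mul_nonpos_of_nonneg_of_nonpos hs0 h4
            linarith [(ha k).2]
        · -- small upward velocities
          rw [abs_lt] at hp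
          have h5 : G k (z k) = 0 ∨ G k (z k) < 0 := by
            rcases eq_or_lt_of_le h3 with h | h
            · exact Or.inl h
            · exact Or.inr h
          rw [gF_adm ha, gF_adm ha, hlo]
          unfold gHi
          have m1 : min (p.1 k + s * G k (p.1 k)) (1 / 2) ≤ min (p.1 k + p.2 * G k (p.1 k)) (1 / 2) :=
            min_le_min (by nlinarith) le_rfl
          have m2 : min (p.1 k + p.2 * G k (p.1 k)) (1 / 2) ≤
              min (p.1 k + s * G k (p.1 k)) (1 / 2) + (p.2 * G k (p.1 k) - s * G k (p.1 k)) := by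
            have hm : s * G k (p.1 k) ≤ p.2 * G k (p.1 k) := mul_le_mul_of_nonneg_right hst h4.le
            rcases le_total (p.1 k + s * G k (p.1 k)) (1 / 2) with h | h
            · rw [min_eq_left h]
              exact (min_le_left _ _).trans (by linarith)
            · rw [min_eq_right h]
              exact (min_le_right _ _).trans (by linarith)
          constructor
          · nlinarith
          · nlinarith

lemma gF_Stat {G : Fin n → ℝ → ℝ} {z : Fin n → ℝ} {k : Fin n} (h : ∀ᶠ x in 𝓝 (z k), G k x = 0) :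
    Stat z (gF G) k := by
  have hfst : Tendsto (fun p : (Fin n → ℝ) × ℝ => p.1 k) (𝓝 (z, 0)) (𝓝 (z k)) :=
    ((continuous_apply k).comp continuous_fst).tendsto' _ _ rfl
  unfold Stat
  filter_upwards [hfst.eventually h] with p hp _ _
  exact gF_stat hp _

/-! ## the functional -/

/-- the sets of five indices -/
lemma five_ne : (Finset.univ.powersetCard 5 : Finset (Finset (Fin 11))).Nonempty :=
  Finset.powersetCard_nonempty.2 (by simp)

/-- the sum of the five largest heights -/
noncomputable def Phi5 (z : Fin 11 → ℝ) : ℝ :=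
  (Finset.univ.powersetCard 5 : Finset (Finset (Fin 11))).sup' five_ne fun U => ∑ k ∈ U, z k

lemma le_Phi5 (z : Fin 11 → ℝ) {U : Finset (Fin 11)} (hU : U.card = 5) : ∑ k ∈ U, z k ≤ Phi5 z := by
  unfold Phi5
  exact Finset.le_sup' (fun U => ∑ k ∈ U, z k) (by simp [hU])

lemma exists_Phi5 (z : Fin 11 → ℝ) : ∃ U : Finset (Fin 11), U.card = 5 ∧ Phi5 z = ∑ k ∈ U, z k := by
  obtain ⟨U, hU, h⟩ := Finset.exists_mem_eq_sup' five_ne fun U : Finset (Fin 11) => ∑ k ∈ U, z k
  exact ⟨U, (Finset.mem_powersetCard.1 hU).2, h⟩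

lemma Phi5_cont : Continuous Phi5 := by
  unfold Phi5
  exact Continuous.finset_sup'_apply _ fun U _ => by fun_prop

/-- **gain of the sum of the five largest heights** -/
theorem Phi5_gain {z : Fin 11 → ℝ} {F : (Fin 11 → ℝ) → ℝ → Fin 11 → ℝ} {lo hi : Fin 11 → ℝ}
    (hL : Law2 z F lo hi)
    (hg : ∀ U : Finset (Fin 11), U.card = 5 → ∑ k ∈ U, z k = Phi5 z → 0 < ∑ k ∈ U, lo k) :
    ∃ V ∈ 𝓝 z, ∃ ε > 0, ∃ κ > 0, ∀ y ∈ V, AdmN y → ∀ t, 0 ≤ t → t ≤ ε →
      Phi5 y + κ * t ≤ Phi5 (F y t) := by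
  classical
  -- a common constant
  obtain ⟨κ, hκ, hκ2⟩ : ∃ κ > 0, ∀ U : Finset (Fin 11), U.card = 5 → ∑ k ∈ U, z k = Phi5 z →
      2 * κ ≤ ∑ k ∈ U, lo k := by
    have hne : (Finset.univ.filter fun U : Finset (Fin 11) => U.card = 5 ∧
        ∑ k ∈ U, z k = Phi5 z).Nonempty := by
      obtain ⟨U, h1, h2⟩ := exists_Phi5 z
      exact ⟨U, by simp [h1, h2]⟩
    obtain ⟨U, hU, hm⟩ := Finset.exists_min_image _ (fun U : Finset (Fin 11) => ∑ k ∈ U, lo k) hne
    simp only [Finset.mem_filter, Finset.mem_univ, true_and] at hU hm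
    refine ⟨(∑ k ∈ U, lo k) / 2, by linarith [hg U hU.1 hU.2], fun W h1 h2 => ?_⟩
    have := hm W ⟨h1, h2⟩
    linarith
  -- the maximal sets do not change
  have h1 : ∀ᶠ y in 𝓝 z, ∀ U : Finset (Fin 11), U.card = 5 → ∑ k ∈ U, z k < Phi5 z →
      ∑ k ∈ U, y k < Phi5 y := by
    rw [eventually_all]; intro U
    by_cases hU : U.card = 5 ∧ ∑ k ∈ U, z k < Phi5 z
    · have hc : Continuous fun y : Fin 11 → ℝ => Phi5 y - ∑ k ∈ U, y k :=
        Phi5_cont.sub (by fun_prop)
      filter_upwards [(hc.tendsto z).eventually (lt_mem_nhds (by linarith : (0 : ℝ) < _))] with y hy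
        _ _
      linarith
    · exact Eventually.of_forall fun y h1 h2 => absurd ⟨h1, h2⟩ hU
  have h2 : ∀ᶠ p : (Fin 11 → ℝ) × ℝ in 𝓝 (z, 0), ∀ k, AdmN p.1 → 0 ≤ p.2 →
      (lo k - κ / 5) * p.2 ≤ F p.1 p.2 k - p.1 k := by
    rw [eventually_all]; intro k
    filter_upwards [hL.vel k (κ / 5) (by linarith)] with p hp ha h0
    have := (hp ha 0 le_rfl h0).1
    rwa [sub_zero, hL.start] at this
  rw [nhds_prod_eq, Filter.eventually_prod_iff] at h2
  obtain ⟨P, hP, Q, hQ, hPQ⟩ := h2
  obtain ⟨ε, hε, hQε⟩ := Metric.eventually_nhds_iff.1 hQ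
  refine ⟨{y | P y} ∩ {y | ∀ U : Finset (Fin 11), U.card = 5 → ∑ k ∈ U, z k < Phi5 z →
      ∑ k ∈ U, y k < Phi5 y}, inter_mem hP h1, ε / 2, by linarith, κ, hκ, ?_⟩
  rintro y ⟨hy1, hy2⟩ ha t h0 ht
  have hq : Q t := by
    apply hQε
    rw [Real.dist_eq, sub_zero, abs_of_nonneg h0]; linarith
  obtain ⟨U, hU, he⟩ := exists_Phi5 y
  have hz : ∑ k ∈ U, z k = Phi5 z := by
    rcases lt_or_eq_of_le (le_Phi5 z hU) with h | h
    · have := hy2 U hU h; linarith
    · exact h
  have h3 := hκ2 U hU hz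
  have h4 : ∑ k ∈ U, ((lo k - κ / 5) * t) ≤ ∑ k ∈ U, (F y t k - y k) :=
    Finset.sum_le_sum fun k _ => hPQ hy1 hq k ha h0
  rw [← Finset.sum_mul, Finset.sum_sub_distrib, Finset.sum_sub_distrib, Finset.sum_const, hU,
    nsmul_eq_mul] at h4
  have h5 := le_Phi5 (F y t) hU
  rw [he]
  push_cast at h4
  nlinarith

end Pool.Agent.Helper66.Kiss
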