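import Pool.Agent.Helper66.Kiss.PoleB
import Pool.Agent.Helper66.Kiss.PGd

set_option autoImplicit false

/-! # The explicit law of motion: Mercator velocities, two values at the touching height -/

namespace Pool.Agent.Helper66.Kiss

open Real Set Filter Topology

/-- one-dimensional flow: velocity `w * (1 - x ^ 2)` below `-1/2`, `v * (1 - x ^ 2)` above, clamped
at `1/2` -/
noncomputable def hf (v w x t : ℝ) : ℝ :=
  min (min (x + t * (w * (1 - x ^ 2)))
    (x + t * (v * (1 - x ^ 2)) + max (-(1 / 2) - x) 0 * ((w - v) / w))) (max x (1 / 2))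

/-- admissible parameters: either plain or `0 ≤ v < w` -/
def VW (v w : ℝ) : Prop := w = v ∨ (0 ≤ v ∧ v < w)

/-- lower velocity -/
noncomputable def hLo (v w x : ℝ) : ℝ :=
  if x = 1 / 2 ∧ 0 < v then 0 else if x < -(1 / 2) then w * (1 - x ^ 2) else v * (1 - x ^ 2)

/-- upper velocity -/
noncomputable def hHi (v w x : ℝ) : ℝ := if x ≤ -(1 / 2) then w * (1 - x ^ 2) else v * (1 - x ^ 2)

lemma hf_plain (v x t : ℝ) : hf v v x t = min (x + t * (v * (1 - x ^ 2))) (max x (1 / 2)) := by
  unfold hf
  rw [sub_self, zero_div, mul_zero, add_zero, min_self]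

lemma hf_start {v w : ℝ} (h : VW v w) (x : ℝ) : hf v w x 0 = x := by
  unfold hf
  rw [zero_mul, zero_mul, add_zero]
  have h1 : 0 ≤ max (-(1 / 2) - x) 0 * ((w - v) / w) := by
    rcases h with h | ⟨h1, h2⟩
    · rw [h, sub_self, zero_div, mul_zero]
    · exact mul_nonneg (le_max_right _ _) (div_nonneg (by linarith) (by linarith))
  rw [min_eq_left (by linarith : x ≤ x + max (-(1 / 2) - x) 0 * ((w - v) / w))]
  exact min_eq_left (le_max_left _ _)

lemma hf_cont {v w : ℝ} : Continuous fun q : ℝ × ℝ => hf v w q.1 q.2 := by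
  unfold hf; fun_prop

lemma hf_le {v w x : ℝ} (hx : x ≤ 1 / 2) (t : ℝ) : hf v w x t ≤ 1 / 2 := by
  unfold hf
  exact (min_le_right _ _).trans (max_le hx le_rfl)

/-- above the touching height only the first value matters -/
lemma hf_above {v w x t : ℝ} (h : VW v w) (hx : -(1 / 2) ≤ x) (hx1 : x ≤ 1) (ht : 0 ≤ t) :
    hf v w x t = min (x + t * (v * (1 - x ^ 2))) (max x (1 / 2)) := by
  rcases h with h | ⟨h1, h2⟩
  · rw [h, hf_plain]
  · unfold hf
    rw [max_eq_right (by linarith : -(1 / 2) - x ≤ 0), zero_mul, add_zero]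
    congr 1
    apply min_eq_right
    have h3 : 0 ≤ 1 - x ^ 2 := by nlinarith
    have : t * (v * (1 - x ^ 2)) ≤ t * (w * (1 - x ^ 2)) :=
      mul_le_mul_of_nonneg_left (mul_le_mul_of_nonneg_right h2.le h3) ht
    linarith

/-- below the touching height only the second value matters -/
lemma hf_below {v w x t : ℝ} (h : VW v w)
    (hb : x + t * (w * (1 - x ^ 2)) ≤ -(1 / 2)) (hx2 : x ≤ -(1 / 2)) :
    hf v w x t = min (x + t * (w * (1 - x ^ 2))) (max x (1 / 2)) := by
  rcases h with h | ⟨_, _⟩
  · rw [h, hf_plain]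
  · unfold hf
    rw [max_eq_left (by linarith : 0 ≤ -(1 / 2) - x)]
    congr 1
    apply min_eq_left
    have hw : 0 < w := by linarith
    have h4 : t * ((w - v) * (1 - x ^ 2)) ≤ (-(1 / 2) - x) * ((w - v) / w) := by
      have h5 : t * (w * (1 - x ^ 2)) ≤ -(1 / 2) - x := by linarith
      have h6 := mul_le_mul_of_nonneg_right h5 (div_nonneg (by linarith : 0 ≤ w - v) hw.le)
      have e : t * (w * (1 - x ^ 2)) * ((w - v) / w) = t * ((w - v) * (1 - x ^ 2)) := by
        field_simp
      rw [e] at h6
      exact h6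
    nlinarith

/-- the two pieces at the touching height -/
lemma hf_mid {v w x t : ℝ} (h1 : 0 ≤ v) (h2 : v ≤ w) (hw : 0 < w) (hx : |x + 1 / 2| ≤ 1 / 4)
    (ht : 0 ≤ t) (htw : t * w ≤ 1 / 4) :
    hf v w x t = min (x + t * (w * (1 - x ^ 2)))
      (x + t * (v * (1 - x ^ 2)) + max (-(1 / 2) - x) 0 * ((w - v) / w)) := by
  unfold hf
  apply min_eq_left
  obtain ⟨a1, a2⟩ := abs_le.1 hx
  rw [max_eq_right (by linarith : x ≤ 1 / 2)]
  refine (min_le_left _ _).trans ?_
  have h3 : 1 - x ^ 2 ≤ 1 := by nlinarith [sq_nonneg x]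
  have h4 : 0 ≤ t * w := mul_nonneg ht hw.le
  nlinarith

/-- increments of a minimum -/
lemma min_incr {a b a' b' m M : ℝ} (h1 : m ≤ a' - a) (h2 : a' - a ≤ M) (h3 : m ≤ b' - b)
    (h4 : b' - b ≤ M) : m ≤ min a' b' - min a b ∧ min a' b' - min a b ≤ M := by
  constructor
  · rcases le_total a' b' with h | h
    · rw [min_eq_left h]
      have := min_le_left a b
      linarith
    · rw [min_eq_right h]
      have := min_le_right a b
      linarith
  · rcases le_total a b with h | h
    · rw [min_eq_left h]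
      have := min_le_left a' b'
      linarith
    · rw [min_eq_right h]
      have := min_le_right a' b'
      linarith

section

variable {n : ℕ}

/-- the law of motion -/
noncomputable def hF (v w : Fin n → ℝ) (y : Fin n → ℝ) (t : ℝ) (k : Fin n) : ℝ :=
  hf (v k) (w k) (y k) t

lemma Vel2.congr {z : Fin n → ℝ} {F F' : (Fin n → ℝ) → ℝ → Fin n → ℝ} {k : Fin n} {l u : ℝ}
    (h : Vel2 z F' k l u)
    (he : ∀ᶠ p : (Fin n → ℝ) × ℝ in 𝓝 (z, 0), AdmN p.1 → 0 ≤ p.2 → F p.1 p.2 k = F' p.1 p.2 k) :
    Vel2 z F k l u := by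
  intro γ hγ
  filter_upwards [h γ hγ, ev_all_le he] with p p1 p2 ha s h0 hs
  rw [p2 s h0 hs ha h0, p2 p.2 (h0.trans hs) le_rfl ha (h0.trans hs)]
  exact p1 ha s h0 hs

theorem hF_law {v w z : Fin n → ℝ} (hvw : ∀ k, VW (v k) (w k)) (hz : ∀ k, z k ≤ 1 / 2) :
    Law2 z (hF v w) (fun k => hLo (v k) (w k) (z k)) (fun k => hHi (v k) (w k) (z k)) := by
  have hnear : Tendsto (fun p : (Fin n → ℝ) × ℝ => hF v w p.1 p.2) (𝓝 (z, 0)) (𝓝 z) := by
    rw [tendsto_pi_nhds]
    intro k
    have hc : Continuous fun p : (Fin n → ℝ) × ℝ => hF v w p.1 p.2 k := by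
      have h1 : Continuous fun p : (Fin n → ℝ) × ℝ => (p.1 k, p.2) := by fun_prop
      exact hf_cont.comp h1
    refine hc.tendsto' _ _ ?_
    exact hf_start (hvw k) _
  refine ⟨?_, ?_, hnear, ?_, ?_⟩
  · intro y; funext k; exact hf_start (hvw k) _
  · intro y k
    exact hf_cont.comp (continuous_const.prodMk continuous_id)
  · exact Eventually.of_forall fun p ha _ k => hf_le (ha k).2 _
  · intro k
    have hfst : Tendsto (fun p : (Fin n → ℝ) × ℝ => p.1 k) (𝓝 (z, 0)) (𝓝 (z k)) :=
      ((continuous_apply k).comp continuous_fst).tendsto' _ _ rfl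
    have hsnd : Tendsto (fun p : (Fin n → ℝ) × ℝ => p.2) (𝓝 (z, 0)) (𝓝 0) :=
      continuous_snd.tendsto' _ _ rfl
    have hsq : Tendsto (fun p : (Fin n → ℝ) × ℝ => 1 - p.1 k ^ 2) (𝓝 (z, 0)) (𝓝 (1 - z k ^ 2)) :=
      tendsto_const_nhds.sub (hfst.pow 2)
    rcases lt_trichotomy (z k) (-(1 / 2)) with h | h | h
    · -- below
      have h1 := (gF_law (G := fun k x => w k * (1 - x ^ 2)) (fun k => by fun_prop) hz).vel k
      have e1 : gLo (fun k x => w k * (1 - x ^ 2)) z k = hLo (v k) (w k) (z k) := by
        unfold gLo hLo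
        rw [if_neg (by rintro ⟨h2, -⟩; linarith), if_neg (by rintro ⟨h2, -⟩; linarith), if_pos h]
      have e2 : gHi (fun k x => w k * (1 - x ^ 2)) z k = hHi (v k) (w k) (z k) := by
        unfold gHi hHi
        rw [if_pos h.le]
      rw [e1, e2] at h1
      refine h1.congr ?_
      have h2 : Tendsto (fun p : (Fin n → ℝ) × ℝ => p.1 k + p.2 * (w k * (1 - p.1 k ^ 2)))
          (𝓝 (z, 0)) (𝓝 (z k + 0 * (w k * (1 - z k ^ 2)))) :=
        hfst.add (hsnd.mul (tendsto_const_nhds.mul hsq))
      rw [zero_mul, add_zero] at h2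
      filter_upwards [h2.eventually (gt_mem_nhds h), hfst.eventually (gt_mem_nhds h)] with p p1 p2 ha h0
      exact hf_below (hvw k) p1.le p2.le
    · -- at the touching height
      rcases hvw k with hv | ⟨hv0, hv1⟩
      · -- plain
        have h1 := (gF_law (G := fun k x => v k * (1 - x ^ 2)) (fun k => by fun_prop) hz).vel k
        have e1 : gLo (fun k x => v k * (1 - x ^ 2)) z k = hLo (v k) (w k) (z k) := by
          unfold gLo hLo
          rw [if_neg (by rintro ⟨h2, -⟩; linarith), if_neg (by rintro ⟨h2, -⟩; linarith),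
            if_neg (by linarith)]
        have e2 : gHi (fun k x => v k * (1 - x ^ 2)) z k = hHi (v k) (w k) (z k) := by
          unfold gHi hHi
          rw [if_pos h.le, hv]
        rw [e1, e2] at h1
        refine h1.congr (Eventually.of_forall fun p _ _ => ?_)
        show hf (v k) (w k) (p.1 k) p.2 = _
        rw [hv, hf_plain]
        rfl
      · have e1 : hLo (v k) (w k) (z k) = v k * (1 - z k ^ 2) := by
          unfold hLo
          rw [if_neg (by rintro ⟨h2, -⟩; linarith), if_neg (by linarith)]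
        have e2 : hHi (v k) (w k) (z k) = w k * (1 - z k ^ 2) := by
          unfold hHi
          rw [if_pos h.le]
        rw [e1, e2]
        intro γ hγ
        have hg1 : Tendsto (fun p : (Fin n → ℝ) × ℝ => v k * (1 - p.1 k ^ 2)) (𝓝 (z, 0))
            (𝓝 (v k * (1 - z k ^ 2))) := tendsto_const_nhds.mul hsq
        have hg2 : Tendsto (fun p : (Fin n → ℝ) × ℝ => w k * (1 - p.1 k ^ 2)) (𝓝 (z, 0))
            (𝓝 (w k * (1 - z k ^ 2))) := tendsto_const_nhds.mul hsq
        have hw : 0 < w k := by linarith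
        have hx : ∀ᶠ p : (Fin n → ℝ) × ℝ in 𝓝 (z, 0), |p.1 k + 1 / 2| < 1 / 4 := by
          have c1 : Tendsto (fun p : (Fin n → ℝ) × ℝ => |p.1 k + 1 / 2|) (𝓝 (z, 0))
              (𝓝 (|z k + 1 / 2|)) := (hfst.add tendsto_const_nhds).abs
          exact c1.eventually (gt_mem_nhds (by rw [h]; norm_num))
        have htw : ∀ᶠ p : (Fin n → ℝ) × ℝ in 𝓝 (z, 0), p.2 * w k < 1 / 4 := by
          have c1 := hsnd.mul_const (w k)
          rw [zero_mul] at c1
          exact c1.eventually (gt_mem_nhds (by norm_num))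
        filter_upwards [hx, htw, hg1.eventually (lt_mem_nhds (by linarith :
            v k * (1 - z k ^ 2) - γ < v k * (1 - z k ^ 2))),
          hg2.eventually (gt_mem_nhds (by linarith :
            w k * (1 - z k ^ 2) < w k * (1 - z k ^ 2) + γ))] with p p1 p2 p3 p4 ha s h0 hs
        show _ ≤ hf (v k) (w k) (p.1 k) p.2 - hf (v k) (w k) (p.1 k) s ∧
          hf (v k) (w k) (p.1 k) p.2 - hf (v k) (w k) (p.1 k) s ≤ _
        have htw' : s * w k ≤ 1 / 4 := by nlinarith
        have hc0 : 0 ≤ 1 - p.1 k ^ 2 := by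
          have := abs_lt.1 p1
          nlinarith [this.1, this.2]
        rw [hf_mid hv0 hv1.le hw p1.le (h0.trans hs) p2.le, hf_mid hv0 hv1.le hw p1.le h0 htw']
        have hd : 0 ≤ p.2 - s := by linarith
        have q1 : v k * (1 - p.1 k ^ 2) ≤ w k * (1 - p.1 k ^ 2) :=
          mul_le_mul_of_nonneg_right hv1.le hc0
        have m1 := mul_le_mul_of_nonneg_left p3.le hd
        have m2 := mul_le_mul_of_nonneg_left p4.le hd
        have m3 := mul_le_mul_of_nonneg_left q1 hd
        refine min_incr ?_ ?_ ?_ ?_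
        · nlinarith
        · nlinarith
        · nlinarith
        · nlinarith
    · -- above
      have h1 := (gF_law (G := fun k x => v k * (1 - x ^ 2)) (fun k => by fun_prop) hz).vel k
      have e1 : gLo (fun k x => v k * (1 - x ^ 2)) z k = hLo (v k) (w k) (z k) := by
        unfold gLo hLo
        by_cases h2 : z k = 1 / 2 ∧ 0 < v k
        · rw [if_pos h2, if_pos]
          refine ⟨h2.1, ?_⟩
          rw [h2.1]
          have := h2.2
          norm_num; exact this
        · rw [if_neg h2, if_neg, if_neg (by linarith)]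
          rintro ⟨h3, h4⟩
          refine h2 ⟨h3, ?_⟩
          rw [h3] at h4
          norm_num at h4; exact h4
      have e2 : gHi (fun k x => v k * (1 - x ^ 2)) z k = hHi (v k) (w k) (z k) := by
        unfold gHi hHi
        rw [if_neg (by linarith)]
      rw [e1, e2] at h1
      refine h1.congr ?_
      filter_upwards [hfst.eventually (lt_mem_nhds h)] with p p1 ha h0
      exact hf_above (hvw k) p1.le (by linarith [(ha k).2]) h0

end

/-- the flow at the touching height -/
theorem hf_tch {v w : ℝ} (h1 : 0 ≤ v) (h2 : v ≤ w) (hw : 0 < w) : Tch (hf v w) (0 < v) := by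
  have hvw : VW v w := by
    rcases eq_or_lt_of_le h2 with h | h
    · exact Or.inl h.symm
    · exact Or.inr ⟨h1, h⟩
  refine ⟨hf_start hvw, fun x => hf_cont.comp (continuous_const.prodMk continuous_id), ?_, ?_⟩
  · exact hf_cont.tendsto' _ _ (hf_start hvw _)
  · set v0 := if 0 < v then v / 4 else w / 4 with hv0
    have v01 : v0 ≤ w / 4 := by
      rw [hv0]; split_ifs <;> linarith
    have v02 : 0 < v → v0 = v / 4 := fun h => by rw [hv0, if_pos h]
    have v0p : 0 < v0 := by
      rw [hv0]; split_ifs <;> linarith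
    refine ⟨v0, v0p, min (1 / 4) (1 / (4 * w)), lt_min (by norm_num) (by positivity), ?_⟩
    intro x hx
    have hx4 : |x + 1 / 2| ≤ 1 / 4 := hx.le.trans (min_le_left _ _)
    obtain ⟨a1, a2⟩ := abs_le.1 hx4
    have hc : 1 / 4 ≤ 1 - x ^ 2 := by nlinarith
    have htw : ∀ t, t < min (1 / 4) (1 / (4 * w)) → t * w ≤ 1 / 4 := by
      intro t ht
      have h3 : t ≤ 1 / (4 * w) := ht.le.trans (min_le_right _ _)
      rw [le_div_iff₀ (by positivity)] at h3
      linarith
    set c := 1 - x ^ 2 with hcd
    set K := max (-(1 / 2) - x) 0 * ((w - v) / w) with hK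
    have hform : ∀ t, 0 ≤ t → t * w ≤ 1 / 4 → hf v w x t =
        min (x + t * (w * c)) (x + t * (v * c) + K) :=
      fun t h3 h4 => hf_mid h1 h2 hw hx4 h3 h4
    have hvc : v * c ≤ w * c := mul_le_mul_of_nonneg_right h2 (by linarith)
    have hvc0 : 0 ≤ v * c := mul_nonneg h1 (by linarith)
    constructor
    · intro τ u h3 h4 h5
      have h6 := htw u h5
      rw [hform τ h3 (by nlinarith), hform u (h3.trans h4) h6]
      have m1 : τ * (w * c) ≤ u * (w * c) := mul_le_mul_of_nonneg_right h4 (by linarith)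
      have m2 : τ * (v * c) ≤ u * (v * c) := mul_le_mul_of_nonneg_right h4 hvc0
      exact min_le_min (by linarith) (by linarith)
    · intro τ h3 h4
      -- times beyond the clamp do not matter
      obtain ⟨δ0, hδ0, hδ1⟩ : ∃ δ0 > 0, ∀ u, u ≤ τ + δ0 → u * w ≤ 1 / 4 := by
        refine ⟨min (1 / 4) (1 / (4 * w)) - τ, by linarith, fun u hu => ?_⟩
        have h5 : u ≤ 1 / (4 * w) := by
          have := min_le_right (1 / 4) (1 / (4 * w)); linarith
        rw [le_div_iff₀ (by positivity)] at h5
        linarith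
      have hτw : τ * w ≤ 1 / 4 := hδ1 τ (by linarith)
      rcases lt_or_ge (x + τ * (w * c)) (x + τ * (v * c) + K) with hAB | hAB
      · refine ⟨w * c, by linarith, fun _ => by nlinarith,
          min δ0 ((x + τ * (v * c) + K - (x + τ * (w * c))) / (w * c)),
          lt_min hδ0 (div_pos (by linarith) (by nlinarith)), ?_⟩
        intro u h5 h6
        have h7 : u ≤ τ + δ0 := by
          have := min_le_left δ0 ((x + τ * (v * c) + K - (x + τ * (w * c))) / (w * c))
          linarith
        have h8 : u - τ ≤ (x + τ * (v * c) + K - (x + τ * (w * c))) / (w * c) := by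
          have := min_le_right δ0 ((x + τ * (v * c) + K - (x + τ * (w * c))) / (w * c))
          linarith
        rw [le_div_iff₀ (by nlinarith)] at h8
        rw [hform τ h3 hτw, hform u (h3.trans h5) (hδ1 u h7), min_eq_left hAB.le, min_eq_left]
        · ring
        · have : τ * (v * c) ≤ u * (v * c) := mul_le_mul_of_nonneg_right h5 hvc0
          nlinarith
      · -- the slow piece
        have hK0 : 0 ≤ K := mul_nonneg (le_max_right _ _) (div_nonneg (by linarith) hw.le)
        refine ⟨v * c, hvc0, ?_, δ0, hδ0, ?_⟩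
        · rintro (h5 | h5)
          · rw [hform τ h3 hτw, min_eq_right hAB] at h5
            have hB0 : 0 ≤ τ * (v * c) := mul_nonneg h3 hvc0
            rcases eq_or_lt_of_le h2 with h6 | h6
            · rw [v02 (by rw [h6]; exact hw), h6]
              nlinarith
            · exfalso
              have hx2 : x < -(1 / 2) := by linarith
              rw [max_eq_left (by linarith : 0 ≤ -(1 / 2) - x)] at hK
              have h7 : (-(1 / 2) - x) * ((w - v) / w) ≤ τ * c * (w - v) := by
                rw [← hK]; linarith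
              have h8 : (-(1 / 2) - x) ≤ τ * c * w := by
                rw [← mul_div_assoc, div_le_iff₀ hw] at h7
                have h9 : 0 < w - v := by linarith
                have h10 : (-(1 / 2) - x) * (w - v) ≤ τ * c * w * (w - v) := by linarith
                exact le_of_mul_le_mul_right h10 h9
              have h11 : (-(1 / 2) - x) * (v / w) ≤ τ * (v * c) := by
                have := mul_le_mul_of_nonneg_right h8 (div_nonneg h1 hw.le)
                have e : τ * c * w * (v / w) = τ * (v * c) := by field_simp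
                rw [e] at this; exact this
              have h12 : K + (-(1 / 2) - x) * (v / w) = -(1 / 2) - x := by
                rw [hK]; field_simp; ring
              linarith
          · rw [v02 h5]
            nlinarith
        · intro u h5 h6
          rw [hform τ h3 hτw, hform u (h3.trans h5) (hδ1 u h6), min_eq_right hAB, min_eq_right]
          · ring
          · have : (u - τ) * (v * c) ≤ (u - τ) * (w * c) :=
              mul_le_mul_of_nonneg_left hvc (by linarith)
            nlinarith

end Pool.Agent.Helper66.Kiss
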