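import Pool.Agent.Helper66.Kiss.LL

set_option autoImplicit false

/-! # Edges of a law: bounds from the rates at one point -/

namespace Pool.Agent.Helper66.Kiss

open Real Set Filter Topology

/-- the cosine of the width -/
noncomputable def RR (z w : ℝ) : ℝ := (1 / 2 - z * w) / (√(1 - z ^ 2) * √(1 - w ^ 2))

lemma wd_eq_RR (z w : ℝ) : wd z w = arccos (RR z w) := rfl

lemma sqrt_pos_lt {z : ℝ} (hz : -1 < z ∧ z < 1) : 0 < √(1 - z ^ 2) := by
  apply Real.sqrt_pos.2; nlinarith [hz.1, hz.2]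

lemma RR_hasDerivAt {a b p q s : ℝ} (ha : -1 < a + s * p ∧ a + s * p < 1)
    (hb : -1 < b + s * q ∧ b + s * q < 1) :
    HasDerivAt (fun s => RR (a + s * p) (b + s * q))
      (-(nr (a + s * p) (b + s * q) p q / (√(1 - (a + s * p) ^ 2) * √(1 - (b + s * q) ^ 2)))) s := by
  have hA := sqrt_pos_lt ha
  have hB := sqrt_pos_lt hb
  have h1 : 0 < 1 - (a + s * p) ^ 2 := by nlinarith [ha.1, ha.2]
  have h2 : 0 < 1 - (b + s * q) ^ 2 := by nlinarith [hb.1, hb.2]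
  have da : HasDerivAt (fun s => a + s * p) p s := by
    simpa using ((hasDerivAt_id s).mul_const p).const_add a
  have db : HasDerivAt (fun s => b + s * q) q s := by
    simpa using ((hasDerivAt_id s).mul_const q).const_add b
  have dA : HasDerivAt (fun s => √(1 - (a + s * p) ^ 2))
      (-(2 * (a + s * p) * p) / (2 * √(1 - (a + s * p) ^ 2))) s := by
    have h := ((da.pow 2).const_sub 1).sqrt h1.ne'
    refine HasDerivAt.congr_deriv (f := fun s => √(1 - (a + s * p) ^ 2)) h ?_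
    simp only [Pi.pow_apply]
    norm_num
  have dB : HasDerivAt (fun s => √(1 - (b + s * q) ^ 2))
      (-(2 * (b + s * q) * q) / (2 * √(1 - (b + s * q) ^ 2))) s := by
    have h := ((db.pow 2).const_sub 1).sqrt h2.ne'
    refine HasDerivAt.congr_deriv (f := fun s => √(1 - (b + s * q) ^ 2)) h ?_
    simp only [Pi.pow_apply]
    norm_num
  have dN : HasDerivAt (fun s => 1 / 2 - (a + s * p) * (b + s * q))
      (-(p * (b + s * q) + (a + s * p) * q)) s := (da.mul db).const_sub (1 / 2)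
  have key := dN.div (dA.mul dB) (mul_pos hA hB).ne'
  refine HasDerivAt.congr_deriv (f := fun s => RR (a + s * p) (b + s * q)) key ?_
  simp only [Pi.mul_apply]
  have sA : √(1 - (a + s * p) ^ 2) ^ 2 = 1 - (a + s * p) ^ 2 := Real.sq_sqrt h1.le
  have sB : √(1 - (b + s * q) ^ 2) ^ 2 = 1 - (b + s * q) ^ 2 := Real.sq_sqrt h2.le
  unfold nr
  generalize hx : a + s * p = x at *
  generalize hy : b + s * q = y at *
  generalize hAe : √(1 - x ^ 2) = A at *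
  generalize hBe : √(1 - y ^ 2) = B at *
  rw [← sA, ← sB]
  field_simp
  have e1 : x ^ 2 = 1 - A ^ 2 := by linarith
  have e2 : y ^ 2 = 1 - B ^ 2 := by linarith
  linear_combination (-2 * p * y * B ^ 2) * e1 + (-2 * q * x * A ^ 2) * e2

lemma RR_abs_lt {z w : ℝ} (hz : -1 < z ∧ z < 1) (hw : -1 < w ∧ w < 1)
    (h : 0 < 3 / 4 - z ^ 2 - w ^ 2 + z * w) :
    RR z w ^ 2 < 1 ∧ √(1 - z ^ 2) * √(1 - w ^ 2) * √(1 - RR z w ^ 2) = rt z w := by
  have hA := sqrt_pos_lt hz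
  have hB := sqrt_pos_lt hw
  have sA : √(1 - z ^ 2) ^ 2 = 1 - z ^ 2 := Real.sq_sqrt (by nlinarith [hz.1, hz.2])
  have sB : √(1 - w ^ 2) ^ 2 = 1 - w ^ 2 := Real.sq_sqrt (by nlinarith [hw.1, hw.2])
  have e : 1 - RR z w ^ 2 = (3 / 4 - z ^ 2 - w ^ 2 + z * w) / (√(1 - z ^ 2) * √(1 - w ^ 2)) ^ 2 := by
    unfold RR
    rw [eq_div_iff (by positivity), div_pow, sub_mul, div_mul_cancel₀ _ (by positivity), mul_pow, sA, sB]
    ring
  constructor
  · have : 0 < 1 - RR z w ^ 2 := by rw [e]; positivity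
    linarith
  · rw [e, Real.sqrt_div h.le, Real.sqrt_sq (by positivity)]
    unfold rt
    field_simp

lemma wd_hasDerivAt {a b p q s : ℝ} (ha : -1 < a + s * p ∧ a + s * p < 1)
    (hb : -1 < b + s * q ∧ b + s * q < 1)
    (h : 0 < 3 / 4 - (a + s * p) ^ 2 - (b + s * q) ^ 2 + (a + s * p) * (b + s * q)) :
    HasDerivAt (fun s => wd (a + s * p) (b + s * q)) (rate (a + s * p) (b + s * q) p q) s := by
  obtain ⟨h1, h2⟩ := RR_abs_lt ha hb h
  have hne1 : RR (a + s * p) (b + s * q) ≠ -1 := by intro h3; rw [h3] at h1; norm_num at h1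
  have hne2 : RR (a + s * p) (b + s * q) ≠ 1 := by intro h3; rw [h3] at h1; norm_num at h1
  have key := (Real.hasDerivAt_arccos hne1 hne2).comp s (RR_hasDerivAt ha hb)
  refine HasDerivAt.congr_deriv (f := fun s => wd (a + s * p) (b + s * q)) key ?_
  unfold rate
  rw [← h2]
  have hA := sqrt_pos_lt ha
  have hB := sqrt_pos_lt hb
  have hC : 0 < √(1 - RR (a + s * p) (b + s * q) ^ 2) := Real.sqrt_pos.2 (by linarith)
  field_simp

/-! ## velocities -/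

/-- the velocity of the `k`-th height near `z` lies between `lo` and `hi` -/
def Vel (z : Fin 11 → ℝ) (F : (Fin 11 → ℝ) → ℝ → Fin 11 → ℝ) (k : Fin 11) (lo hi : ℝ) : Prop :=
  ∀ γ > 0, ∀ᶠ p : (Fin 11 → ℝ) × ℝ in 𝓝 (z, 0), Adm p.1 → 0 ≤ p.2 →
    (lo - γ) * p.2 ≤ F p.1 p.2 k - p.1 k ∧ F p.1 p.2 k - p.1 k ≤ (hi + γ) * p.2

/-- affine functions of two velocities are bounded by the corners -/
lemma corners {α β p q l1 u1 l2 u2 c : ℝ} (hp : l1 ≤ p ∧ p ≤ u1) (hq : l2 ≤ q ∧ q ≤ u2)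
    (h1 : α * l1 + β * l2 < c) (h2 : α * l1 + β * u2 < c) (h3 : α * u1 + β * l2 < c)
    (h4 : α * u1 + β * u2 < c) : α * p + β * q < c := by
  have a1 : α * p ≤ α * l1 ∨ α * p ≤ α * u1 := by
    rcases le_total 0 α with h | h
    · exact Or.inr (mul_le_mul_of_nonneg_left hp.2 h)
    · exact Or.inl (mul_le_mul_of_nonpos_left hp.1 h)
  have a2 : β * q ≤ β * l2 ∨ β * q ≤ β * u2 := by
    rcases le_total 0 β with h | h
    · exact Or.inr (mul_le_mul_of_nonneg_left hq.2 h)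
    · exact Or.inl (mul_le_mul_of_nonpos_left hq.1 h)
  rcases a1 with a1 | a1 <;> rcases a2 with a2 | a2 <;> linarith

/-- uniform bound near `z` for an affine function of the velocities with continuous coefficients -/
lemma unif_affine {a0 b0 l1 u1 l2 u2 c : ℝ} {α β : ℝ × ℝ → ℝ} (hα : ContinuousAt α (a0, b0))
    (hβ : ContinuousAt β (a0, b0))
    (h1 : α (a0, b0) * l1 + β (a0, b0) * l2 < c) (h2 : α (a0, b0) * l1 + β (a0, b0) * u2 < c)
    (h3 : α (a0, b0) * u1 + β (a0, b0) * l2 < c) (h4 : α (a0, b0) * u1 + β (a0, b0) * u2 < c) :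
    ∃ γ > 0, ∀ᶠ x in 𝓝 (a0, b0), ∀ p q, l1 - γ ≤ p ∧ p ≤ u1 + γ → l2 - γ ≤ q ∧ q ≤ u2 + γ →
      α x * p + β x * q < c := by
  have hpr : ∀ (e1 e2 : ℝ) (s1 s2 : ℝ), α (a0, b0) * e1 + β (a0, b0) * e2 < c →
      ∀ᶠ y : (ℝ × ℝ) × ℝ in 𝓝 ((a0, b0), 0), α y.1 * (e1 + s1 * y.2) + β y.1 * (e2 + s2 * y.2) < c := by
    intro e1 e2 s1 s2 h
    have hc : ContinuousAt (fun y : (ℝ × ℝ) × ℝ => α y.1 * (e1 + s1 * y.2) + β y.1 * (e2 + s2 * y.2))
        ((a0, b0), 0) := by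
      have c1 : ContinuousAt (fun y : (ℝ × ℝ) × ℝ => α y.1) ((a0, b0), 0) :=
        ContinuousAt.comp (f := fun y : (ℝ × ℝ) × ℝ => y.1) hα continuous_fst.continuousAt
      have c2 : ContinuousAt (fun y : (ℝ × ℝ) × ℝ => β y.1) ((a0, b0), 0) :=
        ContinuousAt.comp (f := fun y : (ℝ × ℝ) × ℝ => y.1) hβ continuous_fst.continuousAt
      exact (c1.mul (by fun_prop)).add (c2.mul (by fun_prop))
    have := hc.eventually (gt_mem_nhds (by simpa using h) : ∀ᶠ x in 𝓝 _, x < c)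
    exact this
  have e1 := hpr l1 l2 (-1) (-1) h1
  have e2 := hpr l1 u2 (-1) 1 h2
  have e3 := hpr u1 l2 1 (-1) h3
  have e4 := hpr u1 u2 1 1 h4
  have hev := (e1.and e2).and (e3.and e4)
  rw [nhds_prod_eq, Filter.eventually_prod_iff] at hev
  obtain ⟨P, hP, Q, hQ, hPQ⟩ := hev
  obtain ⟨ε, hε, hεQ⟩ := Metric.eventually_nhds_iff.1 hQ
  have hQ2 : Q (ε / 2) := by
    apply hεQ
    rw [Real.dist_eq, sub_zero, abs_of_pos (by linarith)]; linarith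
  refine ⟨ε / 2, by linarith, ?_⟩
  filter_upwards [hP] with x hx p q hp hq
  obtain ⟨⟨k1, k2⟩, k3, k4⟩ := hPQ hx hQ2
  exact corners hp hq (by simp only at k1; nlinarith) (by simp only at k2; nlinarith)
    (by simp only at k3; nlinarith) (by simp only at k4; nlinarith)

section

variable {z : Fin 11 → ℝ} {F : (Fin 11 → ℝ) → ℝ → Fin 11 → ℝ} {D : Fin 11 → Fin 11 → Prop}
  {i j : Fin 11} {l1 u1 l2 u2 c : ℝ}

/-- all the data of the straight segment from `y` to `F y t` -/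
lemma segment_data (hnear : Tendsto (fun p : (Fin 11 → ℝ) × ℝ => F p.1 p.2) (𝓝 (z, 0)) (𝓝 z))
    (hi : Vel z F i l1 u1) (hj : Vel z F j l2 u2) {γ : ℝ} (hγ : 0 < γ) {S : Set (ℝ × ℝ)}
    (hS : S ∈ 𝓝 (z i, z j)) :
    ∀ᶠ p : (Fin 11 → ℝ) × ℝ in 𝓝 (z, 0), Adm p.1 → 0 < p.2 → ∃ a b : ℝ,
      F p.1 p.2 i = p.1 i + p.2 * a ∧ F p.1 p.2 j = p.1 j + p.2 * b ∧
      (l1 - γ ≤ a ∧ a ≤ u1 + γ) ∧ (l2 - γ ≤ b ∧ b ≤ u2 + γ) ∧
      ∀ s ∈ Icc 0 p.2, (p.1 i + s * a, p.1 j + s * b) ∈ S := by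
  obtain ⟨ε, hε, hεS⟩ := Metric.mem_nhds_iff.1 hS
  have hcomp : ∀ k, Tendsto (fun p : (Fin 11 → ℝ) × ℝ => F p.1 p.2 k) (𝓝 (z, 0)) (𝓝 (z k)) :=
    fun k => ((continuous_apply k).tendsto _).comp hnear
  have hfst : ∀ k, Tendsto (fun p : (Fin 11 → ℝ) × ℝ => p.1 k) (𝓝 (z, 0)) (𝓝 (z k)) := fun k =>
    ((continuous_apply k).comp continuous_fst).tendsto' _ _ rfl
  have hb : ∀ k, Ioo (z k - ε) (z k + ε) ∈ 𝓝 (z k) := fun k =>
    Ioo_mem_nhds (by linarith) (by linarith)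
  filter_upwards [hi γ hγ, hj γ hγ, (hcomp i).eventually (hb i), (hcomp j).eventually (hb j),
    (hfst i).eventually (hb i), (hfst j).eventually (hb j)] with p h1 h2 h3 h4 h5 h6 ha h0
  obtain ⟨a1, a2⟩ := h1 ha h0.le
  obtain ⟨b1, b2⟩ := h2 ha h0.le
  refine ⟨(F p.1 p.2 i - p.1 i) / p.2, (F p.1 p.2 j - p.1 j) / p.2, ?_, ?_, ⟨?_, ?_⟩, ⟨?_, ?_⟩, ?_⟩
  · field_simp; ring
  · field_simp; ring
  · rw [le_div_iff₀ h0]; exact a1
  · rw [div_le_iff₀ h0]; exact a2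
  · rw [le_div_iff₀ h0]; exact b1
  · rw [div_le_iff₀ h0]; exact b2
  · intro s hs
    apply hεS
    -- both coordinates are convex combinations
    have key : ∀ x x' w : ℝ, x ∈ Ioo (w - ε) (w + ε) → x' ∈ Ioo (w - ε) (w + ε) →
        dist (x' + s * ((x - x') / p.2)) w < ε := by
      intro x x' w hx hx'
      have e : x' + s * ((x - x') / p.2) = (1 - s / p.2) * x' + s / p.2 * x := by
        field_simp; ring
      have s0 : 0 ≤ s / p.2 := div_nonneg hs.1 h0.le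
      have s1 : s / p.2 ≤ 1 := (div_le_one h0).2 hs.2
      rw [e, Real.dist_eq, abs_lt]
      obtain ⟨c1, c2⟩ := hx
      obtain ⟨d1, d2⟩ := hx'
      rcases eq_or_lt_of_le s0 with h7 | h7
      · rw [← h7]; constructor <;> linarith
      · have m1 := mul_le_mul_of_nonneg_left d1.le (by linarith : 0 ≤ 1 - s / p.2)
        have m2 := mul_lt_mul_of_pos_left c1 h7
        have m3 := mul_le_mul_of_nonneg_left d2.le (by linarith : 0 ≤ 1 - s / p.2)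
        have m4 := mul_lt_mul_of_pos_left c2 h7
        constructor <;> nlinarith
    rw [Metric.mem_ball, Prod.dist_eq, max_lt_iff]
    exact ⟨key _ _ _ h3 h5, key _ _ _ h4 h6⟩

/-- **regular edge**: `0 < D < π` at `z`, the rates at the four corners are below `c` -/
theorem edge_regular (hz : ∀ k, -1 < z k ∧ z k ≤ 1 / 2)
    (hstart : ∀ y, F y 0 = y)
    (hnear : Tendsto (fun p : (Fin 11 → ℝ) × ℝ => F p.1 p.2) (𝓝 (z, 0)) (𝓝 z))
    (hi : Vel z F i l1 u1) (hj : Vel z F j l2 u2)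
    (hreg : 0 < 3 / 4 - z i ^ 2 - z j ^ 2 + z i * z j)
    (c1 : rate (z i) (z j) l1 l2 < c) (c2 : rate (z i) (z j) l1 u2 < c)
    (c3 : rate (z i) (z j) u1 l2 < c) (c4 : rate (z i) (z j) u1 u2 < c) : Edge z F i j c := by
  set α : ℝ × ℝ → ℝ := fun x => (x.2 - x.1 / 2) / (1 - x.1 ^ 2) / rt x.1 x.2 with hα
  set β : ℝ × ℝ → ℝ := fun x => (x.1 - x.2 / 2) / (1 - x.2 ^ 2) / rt x.1 x.2 with hβ
  have hrate : ∀ x : ℝ × ℝ, ∀ p q, rate x.1 x.2 p q = α x * p + β x * q := by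
    intro x p q
    simp only [hα, hβ, rate, nr]
    ring
  have hrt : 0 < rt (z i) (z j) := Real.sqrt_pos.2 hreg
  have hzi : (1 : ℝ) - z i ^ 2 ≠ 0 := by have := hz i; nlinarith
  have hzj : (1 : ℝ) - z j ^ 2 ≠ 0 := by have := hz j; nlinarith
  have crt : ContinuousAt (fun x : ℝ × ℝ => rt x.1 x.2) (z i, z j) := by
    unfold rt; fun_prop
  have cα : ContinuousAt α (z i, z j) :=
    ((by fun_prop : ContinuousAt (fun x : ℝ × ℝ => x.2 - x.1 / 2) (z i, z j)).div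
      (by fun_prop) hzi).div crt hrt.ne'
  have cβ : ContinuousAt β (z i, z j) :=
    ((by fun_prop : ContinuousAt (fun x : ℝ × ℝ => x.1 - x.2 / 2) (z i, z j)).div
      (by fun_prop) hzj).div crt hrt.ne'
  obtain ⟨γ, hγ, hev⟩ := unif_affine (a0 := z i) (b0 := z j) (l1 := l1) (u1 := u1) (l2 := l2)
    (u2 := u2) (c := c) cα cβ (by rw [← hrate]; exact c1) (by rw [← hrate]; exact c2)
    (by rw [← hrate]; exact c3) (by rw [← hrate]; exact c4)
  have hreg' : ∀ᶠ x in 𝓝 (z i, z j), 0 < 3 / 4 - x.1 ^ 2 - x.2 ^ 2 + x.1 * x.2 := by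
    have : ContinuousAt (fun x : ℝ × ℝ => 3 / 4 - x.1 ^ 2 - x.2 ^ 2 + x.1 * x.2) (z i, z j) := by
      fun_prop
    exact this.eventually (lt_mem_nhds hreg)
  have hr1 : ∀ᶠ x in 𝓝 (z i, z j), (-1 < x.1 ∧ x.1 < 1) ∧ (-1 < x.2 ∧ x.2 < 1) := by
    have c1 : ContinuousAt (fun x : ℝ × ℝ => x.1) (z i, z j) := by fun_prop
    have c2 : ContinuousAt (fun x : ℝ × ℝ => x.2) (z i, z j) := by fun_prop
    exact ((c1.eventually (lt_mem_nhds (hz i).1)).and (c1.eventually (gt_mem_nhds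
      (by linarith [(hz i).2] : z i < 1)))).and ((c2.eventually (lt_mem_nhds (hz j).1)).and
      (c2.eventually (gt_mem_nhds (by linarith [(hz j).2] : z j < 1))))
  unfold Edge
  filter_upwards [segment_data hnear hi hj hγ ((hev.and hreg').and hr1)] with p hp ha h0
  rcases eq_or_lt_of_le h0 with h | h
  · rw [← h, hstart]; simp
  obtain ⟨a, b, e1, e2, hab, hbb, hseg⟩ := hp ha h
  have hd : ∀ s ∈ Icc 0 p.2, HasDerivAt (fun s => wd (p.1 i + s * a) (p.1 j + s * b))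
      (rate (p.1 i + s * a) (p.1 j + s * b) a b) s := by
    intro s hs
    obtain ⟨⟨-, k2⟩, k3⟩ := hseg s hs
    exact wd_hasDerivAt k3.1 k3.2 k2
  obtain ⟨s, hs, hs2⟩ := exists_hasDerivAt_eq_slope (fun s => wd (p.1 i + s * a) (p.1 j + s * b))
    (fun s => rate (p.1 i + s * a) (p.1 j + s * b) a b) h
    (fun s hs => (hd s hs).continuousAt.continuousWithinAt)
    (fun s hs => hd s ⟨hs.1.le, hs.2.le⟩)
  have hlt : rate (p.1 i + s * a) (p.1 j + s * b) a b < c := by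
    obtain ⟨⟨k1, -⟩, -⟩ := hseg s ⟨hs.1.le, hs.2.le⟩
    have := k1 a b hab hbb
    rw [← hrate] at this
    exact this
  rw [hs2, sub_zero, div_lt_iff₀ h] at hlt
  rw [e1, e2]
  simp only [zero_mul, add_zero] at hlt
  linarith

/-- **strictly far pairs** keep the width zero -/
theorem edge_far (hz : ∀ k, -1 < z k ∧ z k ≤ 1 / 2)
    (hnear : Tendsto (fun p : (Fin 11 → ℝ) × ℝ => F p.1 p.2) (𝓝 (z, 0)) (𝓝 z))
    (hwall : ∀ᶠ p : (Fin 11 → ℝ) × ℝ in 𝓝 (z, 0), Adm p.1 → 0 ≤ p.2 → ∀ k, F p.1 p.2 k ≤ 1 / 2)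
    (hfar : √(1 - z i ^ 2) * √(1 - z j ^ 2) + z i * z j < 1 / 2) : Edge z F i j 0 := by
  have h1 := ((cont_vert i j).tendsto z).comp hnear
  have hcomp : ∀ k, Tendsto (fun p : (Fin 11 → ℝ) × ℝ => F p.1 p.2 k) (𝓝 (z, 0)) (𝓝 (z k)) :=
    fun k => ((continuous_apply k).tendsto _).comp hnear
  unfold Edge
  filter_upwards [h1.eventually (gt_mem_nhds hfar), hwall,
    (hcomp i).eventually (lt_mem_nhds (hz i).1), (hcomp j).eventually (lt_mem_nhds (hz j).1)]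
    with p hp hw hi hj ha h0
  have := wd_eq_zero ⟨hi, hw ha h0 i⟩ ⟨hj, hw ha h0 j⟩ hp.le
  rw [this, zero_mul, add_zero]
  exact wd_nonneg _ _

/-- the cosine does not decrease near `z` if the numerators of the rates are negative at the corners -/
lemma RR_mono (hz : ∀ k, -1 < z k ∧ z k ≤ 1 / 2) (hstart : ∀ y, F y 0 = y)
    (hnear : Tendsto (fun p : (Fin 11 → ℝ) × ℝ => F p.1 p.2) (𝓝 (z, 0)) (𝓝 z))
    (hi : Vel z F i l1 u1) (hj : Vel z F j l2 u2)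
    (c1 : nr (z i) (z j) l1 l2 < 0) (c2 : nr (z i) (z j) l1 u2 < 0)
    (c3 : nr (z i) (z j) u1 l2 < 0) (c4 : nr (z i) (z j) u1 u2 < 0) :
    ∀ᶠ p : (Fin 11 → ℝ) × ℝ in 𝓝 (z, 0), Adm p.1 → 0 ≤ p.2 →
      RR (p.1 i) (p.1 j) ≤ RR (F p.1 p.2 i) (F p.1 p.2 j) := by
  set α : ℝ × ℝ → ℝ := fun x => (x.2 - x.1 / 2) / (1 - x.1 ^ 2) with hα
  set β : ℝ × ℝ → ℝ := fun x => (x.1 - x.2 / 2) / (1 - x.2 ^ 2) with hβ
  have hnr : ∀ x : ℝ × ℝ, ∀ p q, nr x.1 x.2 p q = α x * p + β x * q := by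
    intro x p q
    simp only [hα, hβ, nr]
    ring
  have hzi : (1 : ℝ) - z i ^ 2 ≠ 0 := by have := hz i; nlinarith
  have hzj : (1 : ℝ) - z j ^ 2 ≠ 0 := by have := hz j; nlinarith
  have cα : ContinuousAt α (z i, z j) :=
    (by fun_prop : ContinuousAt (fun x : ℝ × ℝ => x.2 - x.1 / 2) (z i, z j)).div
      (by fun_prop) hzi
  have cβ : ContinuousAt β (z i, z j) :=
    (by fun_prop : ContinuousAt (fun x : ℝ × ℝ => x.1 - x.2 / 2) (z i, z j)).div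
      (by fun_prop) hzj
  obtain ⟨γ, hγ, hev⟩ := unif_affine (a0 := z i) (b0 := z j) (l1 := l1) (u1 := u1) (l2 := l2)
    (u2 := u2) (c := 0) cα cβ (by rw [← hnr]; exact c1) (by rw [← hnr]; exact c2)
    (by rw [← hnr]; exact c3) (by rw [← hnr]; exact c4)
  have hr1 : ∀ᶠ x in 𝓝 (z i, z j), (-1 < x.1 ∧ x.1 < 1) ∧ (-1 < x.2 ∧ x.2 < 1) := by
    have c1 : ContinuousAt (fun x : ℝ × ℝ => x.1) (z i, z j) := by fun_prop
    have c2 : ContinuousAt (fun x : ℝ × ℝ => x.2) (z i, z j) := by fun_prop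
    exact ((c1.eventually (lt_mem_nhds (hz i).1)).and (c1.eventually (gt_mem_nhds
      (by linarith [(hz i).2] : z i < 1)))).and ((c2.eventually (lt_mem_nhds (hz j).1)).and
      (c2.eventually (gt_mem_nhds (by linarith [(hz j).2] : z j < 1))))
  filter_upwards [segment_data hnear hi hj hγ (hev.and hr1)] with p hp ha h0
  rcases eq_or_lt_of_le h0 with h | h
  · rw [← h, hstart]
  obtain ⟨a, b, e1, e2, hab, hbb, hseg⟩ := hp ha h
  have hd : ∀ s ∈ Icc 0 p.2, HasDerivAt (fun s => RR (p.1 i + s * a) (p.1 j + s * b))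
      (-(nr (p.1 i + s * a) (p.1 j + s * b) a b /
        (√(1 - (p.1 i + s * a) ^ 2) * √(1 - (p.1 j + s * b) ^ 2)))) s := by
    intro s hs
    obtain ⟨-, k3⟩ := hseg s hs
    exact RR_hasDerivAt k3.1 k3.2
  obtain ⟨s, hs, hs2⟩ := exists_hasDerivAt_eq_slope (fun s => RR (p.1 i + s * a) (p.1 j + s * b))
    (fun s => -(nr (p.1 i + s * a) (p.1 j + s * b) a b /
        (√(1 - (p.1 i + s * a) ^ 2) * √(1 - (p.1 j + s * b) ^ 2)))) h
    (fun s hs => (hd s hs).continuousAt.continuousWithinAt)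
    (fun s hs => hd s ⟨hs.1.le, hs.2.le⟩)
  obtain ⟨k1, k3⟩ := hseg s ⟨hs.1.le, hs.2.le⟩
  have hneg : nr (p.1 i + s * a) (p.1 j + s * b) a b < 0 := by
    have := k1 a b hab hbb
    rw [← hnr] at this
    exact this
  have hpos := mul_pos (sqrt_pos_lt k3.1) (sqrt_pos_lt k3.2)
  have hsl : 0 ≤ -(nr (p.1 i + s * a) (p.1 j + s * b) a b /
        (√(1 - (p.1 i + s * a) ^ 2) * √(1 - (p.1 j + s * b) ^ 2))) := by
    have := div_neg_of_neg_of_pos hneg hpos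
    linarith
  rw [hs2, sub_zero] at hsl
  have := mul_nonneg hsl h.le
  rw [div_mul_cancel₀ _ h.ne'] at this
  rw [e1, e2]
  simp only [zero_mul, add_zero] at this
  linarith

/-- **closing pairs**: nonincreasing width -/
theorem edge_closing (hz : ∀ k, -1 < z k ∧ z k ≤ 1 / 2) (hstart : ∀ y, F y 0 = y)
    (hnear : Tendsto (fun p : (Fin 11 → ℝ) × ℝ => F p.1 p.2) (𝓝 (z, 0)) (𝓝 z))
    (hi : Vel z F i l1 u1) (hj : Vel z F j l2 u2)
    (c1 : nr (z i) (z j) l1 l2 < 0) (c2 : nr (z i) (z j) l1 u2 < 0)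
    (c3 : nr (z i) (z j) u1 l2 < 0) (c4 : nr (z i) (z j) u1 u2 < 0) : Edge z F i j 0 := by
  unfold Edge
  filter_upwards [RR_mono hz hstart hnear hi hj c1 c2 c3 c4] with p hp ha h0
  rw [zero_mul, add_zero, wd_eq_RR, wd_eq_RR]
  exact Real.arccos_le_arccos (hp ha h0)

/-- pairs which do not move -/
theorem edge_static (h1 : ∀ᶠ p : (Fin 11 → ℝ) × ℝ in 𝓝 (z, 0), Adm p.1 → 0 ≤ p.2 →
      F p.1 p.2 i = p.1 i ∧ F p.1 p.2 j = p.1 j) : Edge z F i j 0 := by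
  unfold Edge
  filter_upwards [h1] with p hp ha h0
  rw [(hp ha h0).1, (hp ha h0).2, zero_mul, add_zero]

lemma RR_ge_iff {a b : ℝ} (ha : -1 < a ∧ a < 1) (hb : -1 < b ∧ b < 1) :
    -1 ≤ RR a b ↔ -(√(1 - a ^ 2) * √(1 - b ^ 2)) ≤ 1 / 2 - a * b := by
  have := mul_pos (sqrt_pos_lt ha) (sqrt_pos_lt hb)
  unfold RR
  rw [le_div_iff₀ this, neg_one_mul]

/-- the `pole` field for pairs with `D < π` -/
theorem pole_regular
    (hnear : Tendsto (fun p : (Fin 11 → ℝ) × ℝ => F p.1 p.2) (𝓝 (z, 0)) (𝓝 z))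
    (h : -(√(1 - z i ^ 2) * √(1 - z j ^ 2)) < 1 / 2 - z i * z j) :
    ∀ᶠ p : (Fin 11 → ℝ) × ℝ in 𝓝 (z, 0), Adm p.1 → 0 ≤ p.2 →
    -(√(1 - p.1 i ^ 2) * √(1 - p.1 j ^ 2)) ≤ 1 / 2 - p.1 i * p.1 j →
    -(√(1 - F p.1 p.2 i ^ 2) * √(1 - F p.1 p.2 j ^ 2)) ≤ 1 / 2 - F p.1 p.2 i * F p.1 p.2 j := by
  have hc : Continuous fun z : Fin 11 → ℝ => 1 / 2 - z i * z j + √(1 - z i ^ 2) * √(1 - z j ^ 2) := by
    fun_prop
  have h1 := (hc.tendsto z).comp hnear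
  filter_upwards [h1.eventually (lt_mem_nhds (by linarith : (0 : ℝ) < _))] with p hp _ _ _
  simp only [Function.comp] at hp
  linarith

/-- the `pole` field for closing pairs -/
theorem pole_closing (hz : ∀ k, -1 < z k ∧ z k ≤ 1 / 2) (hstart : ∀ y, F y 0 = y)
    (hnear : Tendsto (fun p : (Fin 11 → ℝ) × ℝ => F p.1 p.2) (𝓝 (z, 0)) (𝓝 z))
    (hi : Vel z F i l1 u1) (hj : Vel z F j l2 u2)
    (c1 : nr (z i) (z j) l1 l2 < 0) (c2 : nr (z i) (z j) l1 u2 < 0)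
    (c3 : nr (z i) (z j) u1 l2 < 0) (c4 : nr (z i) (z j) u1 u2 < 0) :
    ∀ᶠ p : (Fin 11 → ℝ) × ℝ in 𝓝 (z, 0), Adm p.1 → 0 ≤ p.2 →
    -(√(1 - p.1 i ^ 2) * √(1 - p.1 j ^ 2)) ≤ 1 / 2 - p.1 i * p.1 j →
    -(√(1 - F p.1 p.2 i ^ 2) * √(1 - F p.1 p.2 j ^ 2)) ≤ 1 / 2 - F p.1 p.2 i * F p.1 p.2 j := by
  have hcomp : ∀ k, Tendsto (fun p : (Fin 11 → ℝ) × ℝ => F p.1 p.2 k) (𝓝 (z, 0)) (𝓝 (z k)) :=
    fun k => ((continuous_apply k).tendsto _).comp hnear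
  have hfst : ∀ k, Tendsto (fun p : (Fin 11 → ℝ) × ℝ => p.1 k) (𝓝 (z, 0)) (𝓝 (z k)) := fun k =>
    ((continuous_apply k).comp continuous_fst).tendsto' _ _ rfl
  have hb : ∀ k, Ioo (-1 : ℝ) 1 ∈ 𝓝 (z k) := fun k =>
    Ioo_mem_nhds (hz k).1 (by linarith [(hz k).2])
  filter_upwards [RR_mono hz hstart hnear hi hj c1 c2 c3 c4, (hcomp i).eventually (hb i),
    (hcomp j).eventually (hb j), (hfst i).eventually (hb i), (hfst j).eventually (hb j)]
    with p hp h3 h4 h5 h6 ha h0 h7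
  rw [← RR_ge_iff h3 h4]
  rw [← RR_ge_iff h5 h6] at h7
  exact h7.trans (hp ha h0)

end

end Pool.Agent.Helper66.Kiss
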