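import Pool.Agent.Helper66.Kiss.Rings

set_option autoImplicit false

/-! # Twelve kissing spheres: the cuboctahedron passage and all labellings -/

namespace Pool.Agent.Helper66.Kiss

open Real Set

/-- the symmetric passage through the cuboctahedron `fc 1 1` -/
noncomputable def fc (k m : ℝ) : Fin 12 → E3 :=
  asm e3 (-e3)
    ![!₂[√(3 - k ^ 2) / 2, k / 2, 1 / 2],
      !₂[0, 2 * k / (1 + k ^ 2), (1 - k ^ 2) / (1 + k ^ 2)],
      !₂[-(√(3 - k ^ 2) / 2), k / 2, 1 / 2],
      !₂[-(√(3 - m ^ 2) / 2), -(m / 2), 1 / 2],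
      !₂[√(3 - m ^ 2) / 2, -(m / 2), 1 / 2]]
    ![!₂[√(3 - m ^ 2) / 2, m / 2, -(1 / 2)],
      !₂[-(√(3 - m ^ 2) / 2), m / 2, -(1 / 2)],
      !₂[-(√(3 - k ^ 2) / 2), -(k / 2), -(1 / 2)],
      !₂[0, -(2 * k / (1 + k ^ 2)), -((1 - k ^ 2) / (1 + k ^ 2))],
      !₂[√(3 - k ^ 2) / 2, -(k / 2), -(1 / 2)]]

lemma fc_mem {k m : ℝ} (hk0 : 0 < k) (hk1 : k ≤ 1) (hk3 : 1 ≤ 3 * k ^ 2) (hm0 : 0 ≤ m)
    (hm2 : m ^ 2 ≤ 2) (hkm : k * m ≤ 1) (h8 : 8 ≤ 3 * (k ^ 2 + m ^ 2) + 2 * (k * m)) :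
    fc k m ∈ Conf := by
  have hkm0 : 0 ≤ k * m := by positivity
  have hD : 0 < 1 + k ^ 2 := by positivity
  unfold fc
  have hP0 : 0 ≤ √(3 - k ^ 2) := Real.sqrt_nonneg _
  have hQ0 : 0 ≤ √(3 - m ^ 2) := Real.sqrt_nonneg _
  have hPP : √(3 - k ^ 2) * √(3 - k ^ 2) = 3 - k * k := by
    rw [Real.mul_self_sqrt (by nlinarith)]; ring
  have hQQ : √(3 - m ^ 2) * √(3 - m ^ 2) = 3 - m * m := by
    rw [Real.mul_self_sqrt (by nlinarith)]; ring
  generalize √(3 - k ^ 2) = P at *
  generalize √(3 - m ^ 2) = Q at *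
  have hPQ0 : 0 ≤ P * Q := by positivity
  have hPQ : P * Q ≤ 1 + k * m := by
    have h1 : (P * Q) ^ 2 ≤ (1 + k * m) ^ 2 := by
      have : (P * Q) ^ 2 = (3 - k * k) * (3 - m * m) := by
        rw [← hPP, ← hQQ]; ring
      rw [this]; nlinarith
    exact (abs_le_of_sq_le_sq' h1 (by linarith)).2
  have hK0 : 0 ≤ 2 * k / (1 + k ^ 2) := by positivity
  have hKZ : 2 * k / (1 + k ^ 2) * (2 * k / (1 + k ^ 2)) +
      (1 - k ^ 2) / (1 + k ^ 2) * ((1 - k ^ 2) / (1 + k ^ 2)) = 1 := by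
    field_simp; ring
  have hkK : k * (2 * k / (1 + k ^ 2)) + (1 - k ^ 2) / (1 + k ^ 2) = 1 := by
    field_simp; ring
  have hZ1 : (1 - k ^ 2) / (1 + k ^ 2) ≤ 1 / 2 := by
    rw [div_le_div_iff₀ hD (by norm_num)]; linarith
  have hZ0 : 0 ≤ (1 - k ^ 2) / (1 + k ^ 2) := div_nonneg (by nlinarith) hD.le
  have hmK : m * (2 * k / (1 + k ^ 2)) ≤ 1 + (1 - k ^ 2) / (1 + k ^ 2) := by
    have e1 : m * (2 * k / (1 + k ^ 2)) = 2 * (k * m) / (1 + k ^ 2) := by ring
    have e2 : 1 + (1 - k ^ 2) / (1 + k ^ 2) = 2 / (1 + k ^ 2) := by field_simp; ring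
    rw [e1, e2]
    exact div_le_div_of_nonneg_right (by linarith) hD.le
  generalize 2 * k / (1 + k ^ 2) = K at *
  generalize (1 - k ^ 2) / (1 + k ^ 2) = Z at *
  have hmK0 : 0 ≤ m * K := by positivity
  have hkK0 : 0 ≤ k * K := by positivity
  have hk2 : k * k ≤ 1 := by nlinarith
  have hk2' : 1 ≤ 3 * (k * k) := by nlinarith
  have hm2' : m * m ≤ 2 := by nlinarith
  have hmm : 0 ≤ m * m := by positivity
  have hkk : 0 ≤ k * k := by positivity
  refine asm_mem inner_e3_e3 (by rw [inner_neg_neg]; exact inner_e3_e3) ?_ ?_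
    (by rw [inner_neg_right, inner_e3_e3]; norm_num) ?_ ?_ ?_ ?_ ?_ ?_ ?_
  · intro i; fin_cases i <;> rw [inner_eq] <;> simp <;> linarith
  · intro i; fin_cases i <;> rw [inner_eq] <;> simp <;> linarith
  · intro i; fin_cases i <;> rw [inner_eq] <;> simp [e3] <;> linarith
  · intro i; fin_cases i <;> rw [inner_eq] <;> simp [e3] <;> linarith
  · intro i; fin_cases i <;> rw [inner_eq] <;> simp [e3] <;> linarith
  · intro i; fin_cases i <;> rw [inner_eq] <;> simp [e3] <;> linarith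
  · intro i j hij
    fin_cases i <;> fin_cases j <;> first | (exact absurd hij (by decide)) | (rw [inner_eq]; simp; linarith)
  · intro i j hij
    fin_cases i <;> fin_cases j <;> first | (exact absurd hij (by decide)) | (rw [inner_eq]; simp; linarith)
  · intro i j
    fin_cases i <;> fin_cases j <;> (rw [inner_eq]; simp; linarith)

/-- the second parameter of the passage -/
noncomputable def mm (k : ℝ) : ℝ := 1 + (1 - k) - (1 - k) ^ 2 / 4

/-- the end of the passage -/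
noncomputable def k1 : ℝ := 1 / √3

lemma k1_sq : k1 ^ 2 = 1 / 3 := by
  unfold k1; rw [div_pow, Real.sq_sqrt (by norm_num)]; norm_num

lemma k1_pos : 0 < k1 := by unfold k1; positivity

lemma k1_lt : k1 < 1 := by nlinarith [k1_sq, k1_pos]

lemma fc_path_mem {k : ℝ} (h0 : k1 ≤ k) (h1 : k ≤ 1) : fc k (mm k) ∈ Conf := by
  have hk0 : 0 < k := lt_of_lt_of_le k1_pos h0
  have hk3 : 1 ≤ 3 * k ^ 2 := by nlinarith [k1_sq, k1_pos]
  have hk2 : (57 : ℝ) / 100 ≤ k := by nlinarith
  obtain ⟨u, hu⟩ : ∃ u, u = 1 - k := ⟨_, rfl⟩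
  have hk : k = 1 - u := by rw [hu]; ring
  have hu0 : 0 ≤ u := by linarith
  have hu1 : u ≤ 43 / 100 := by linarith
  have hm : mm k = 1 + u - u ^ 2 / 4 := by rw [hu]; rfl
  refine fc_mem hk0 h1 hk3 ?_ ?_ ?_ ?_
  · rw [hm]; nlinarith
  · rw [hm]
    have e1 : 1 + u - u ^ 2 / 4 ≤ 1.384 := by nlinarith
    have e0 : 0 ≤ 1 + u - u ^ 2 / 4 := by nlinarith
    nlinarith
  · rw [hm, hk]
    have : (1 - u) * (1 + u - u ^ 2 / 4) = 1 - u ^ 2 * (5 / 4 - u / 4) := by ring
    rw [this]; nlinarith [sq_nonneg u]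
  · rw [hm, hk]
    have : 3 * ((1 - u) ^ 2 + (1 + u - u ^ 2 / 4) ^ 2) + 2 * ((1 - u) * (1 + u - u ^ 2 / 4)) =
        8 + u ^ 2 * (2 - u + 3 * u ^ 2 / 16) := by ring
    rw [this]
    have : 0 ≤ u ^ 2 * (2 - u + 3 * u ^ 2 / 16) := by
      apply mul_nonneg (sq_nonneg _); nlinarith
    linarith

lemma continuousOn_fc : ContinuousOn (fun k => fc k (mm k)) (uIcc k1 1) := by
  apply Continuous.continuousOn
  have hd : ∀ k : ℝ, 1 + k ^ 2 ≠ 0 := fun k => by positivity
  have hmm : Continuous mm := by unfold mm; fun_prop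
  have c1 : Continuous fun k : ℝ => 2 * k / (1 + k ^ 2) :=
    Continuous.div (by fun_prop) (by fun_prop) hd
  have c2 : Continuous fun k : ℝ => (1 - k ^ 2) / (1 + k ^ 2) :=
    Continuous.div (by fun_prop) (by fun_prop) hd
  unfold fc
  refine continuous_asm continuous_const continuous_const ?_ ?_
  · intro i; fin_cases i <;> simp <;> fun_prop
  · intro i; fin_cases i <;> simp <;> fun_prop

/-- the half-opening of the last two balls -/
noncomputable def ga : ℝ := arccos (mm k1 / √3)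

noncomputable def phi1 : Fin 5 → ℝ := ![π / 2 - al, π / 2, π / 2 + al, 3 * π / 2 - ga, 3 * π / 2 + ga]
noncomputable def psi1 : Fin 5 → ℝ := ![π / 2 - ga, π / 2 + ga, 3 * π / 2 - al, 3 * π / 2, 3 * π / 2 + al]

lemma mm_bounds : 1.37 ≤ mm k1 ∧ mm k1 ≤ 1.4 := by
  have h1 := k1_sq
  have h2 := k1_pos
  have h3 : (577 : ℝ) / 1000 ≤ k1 := by nlinarith
  have h4 : k1 ≤ (578 : ℝ) / 1000 := by nlinarith
  unfold mm
  constructor <;> nlinarith

lemma sqrt3_bounds : 1.732 ≤ √3 ∧ √3 ≤ 1.7321 := by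
  constructor
  · apply Real.le_sqrt_of_sq_le; norm_num
  · rw [Real.sqrt_le_left (by norm_num)]; norm_num

lemma cos_ga : cos ga = mm k1 / √3 := by
  have h1 := mm_bounds
  have h2 := sqrt3_bounds
  have h3 : 0 < √3 := by positivity
  unfold ga
  apply Real.cos_arccos
  · have : 0 ≤ mm k1 / √3 := div_nonneg (by linarith) h3.le
    linarith
  · rw [div_le_one h3]; linarith

lemma ga_nonneg : 0 ≤ ga := Real.arccos_nonneg _
lemma ga_le_pi : ga ≤ π := Real.arccos_le_pi _

lemma al_le_two_ga : al ≤ 2 * ga := by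
  have h : cos (2 * ga) ≤ 1 / 3 := by
    rw [cos_two_mul, cos_ga, div_pow, Real.sq_sqrt (by norm_num)]
    have := mm_bounds
    nlinarith
  exact (mem_of_cos_le (by linarith [ga_nonneg]) (by linarith [ga_le_pi]) h).1

lemma ga_le : ga ≤ π - 2 * al := by
  have h1 : cos (π - 2 * al) = 7 / 9 := by
    rw [Real.cos_pi_sub, cos_two_mul, cos_al]; norm_num
  have h2 : 7 / 9 ≤ mm k1 / √3 := by
    have := mm_bounds
    have := sqrt3_bounds
    rw [le_div_iff₀ (by positivity)]; linarith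
  have h3 : ga ≤ arccos (7 / 9) := Real.arccos_le_arccos h2
  rw [← h1, Real.arccos_cos] at h3
  · exact h3
  · linarith [al_le, Real.pi_pos]
  · linarith [al_nonneg]

lemma Srt_phi1 : Srt phi1 := by
  intro i j hij
  have h1 := al_le
  have h2 := al_nonneg
  have h3 := ga_le
  have h4 := al_le_two_ga
  have h5 := ga_nonneg
  have h6 := Real.pi_pos
  fin_cases i <;> fin_cases j <;>
    first | (exact absurd hij (by decide)) | (simp [phi1]; first | linarith | (constructor <;> linarith))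

lemma Srt_psi1 : Srt psi1 := by
  intro i j hij
  have h1 := al_le
  have h2 := al_nonneg
  have h3 := ga_le
  have h4 := al_le_two_ga
  have h5 := ga_nonneg
  have h6 := Real.pi_pos
  fin_cases i <;> fin_cases j <;>
    first | (exact absurd hij (by decide)) | (simp [psi1]; first | linarith | (constructor <;> linarith))

lemma sqrt34 : √(1 - (1 / 2 : ℝ) ^ 2) = √3 / 2 := by
  rw [show (1 : ℝ) - (1 / 2) ^ 2 = 3 / 2 ^ 2 by norm_num, Real.sqrt_div (by norm_num),
    Real.sqrt_sq (by norm_num)]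

lemma sqrt34' : √(1 - (-(1 / 2) : ℝ) ^ 2) = √3 / 2 := by
  rw [neg_sq]; exact sqrt34

lemma sin_al : √3 / 2 * sin al = √(3 - k1 ^ 2) / 2 := by
  have h0 : 0 ≤ sin al := Real.sin_nonneg_of_nonneg_of_le_pi al_nonneg (Real.arccos_le_pi _)
  have h1 : sin al ^ 2 = 8 / 9 := by
    have := sin_sq_add_cos_sq al
    rw [cos_al] at this; linarith
  have h2 : √3 * sin al = √(3 - k1 ^ 2) := by
    rw [k1_sq]
    symm
    rw [Real.sqrt_eq_iff_mul_self_eq (by norm_num) (by positivity)]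
    have h3 : √3 * √3 = 3 := Real.mul_self_sqrt (by norm_num)
    linear_combination (-1 : ℝ) * (sin al ^ 2) * h3 - 3 * h1
  linarith

lemma cos_al' : √3 / 2 * cos al = k1 / 2 := by
  rw [cos_al]; unfold k1
  have h3 : √3 * √3 = 3 := Real.mul_self_sqrt (by norm_num)
  field_simp
  linarith

lemma cos_ga' : √3 / 2 * cos ga = mm k1 / 2 := by
  rw [cos_ga]; field_simp

lemma sin_ga : √3 / 2 * sin ga = √(3 - mm k1 ^ 2) / 2 := by
  have h0 : 0 ≤ sin ga := Real.sin_nonneg_of_nonneg_of_le_pi ga_nonneg ga_le_pi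
  have h3 : √3 * √3 = 3 := Real.mul_self_sqrt (by norm_num)
  have h4 : √3 * cos ga = mm k1 := by rw [cos_ga]; field_simp
  have hb := mm_bounds
  have h2 : √3 * sin ga = √(3 - mm k1 ^ 2) := by
    symm
    rw [Real.sqrt_eq_iff_mul_self_eq (by nlinarith) (by positivity), ← h4]
    linear_combination -(sin ga ^ 2 + cos ga ^ 2) * h3 - 3 * (sin_sq_add_cos_sq ga)
  linarith

lemma cos_three (x : ℝ) : cos (3 * π / 2 - x) = -sin x := by
  rw [show 3 * π / 2 - x = (π / 2 - x) + π by ring, cos_add_pi, cos_pi_div_two_sub]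

lemma sin_three (x : ℝ) : sin (3 * π / 2 - x) = -cos x := by
  rw [show 3 * π / 2 - x = (π / 2 - x) + π by ring, sin_add_pi, sin_pi_div_two_sub]

lemma cos_three' (x : ℝ) : cos (3 * π / 2 + x) = sin x := by
  rw [show 3 * π / 2 + x = 3 * π / 2 - (-x) by ring, cos_three, sin_neg, neg_neg]

lemma sin_three' (x : ℝ) : sin (3 * π / 2 + x) = -cos x := by
  rw [show 3 * π / 2 + x = 3 * π / 2 - (-x) by ring, sin_three, cos_neg]

lemma cos_half' (x : ℝ) : cos (π / 2 + x) = -sin x := by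
  rw [show π / 2 + x = x + π / 2 by ring, cos_add_pi_div_two]

lemma sin_half' (x : ℝ) : sin (π / 2 + x) = cos x := by
  rw [show π / 2 + x = x + π / 2 by ring, sin_add_pi_div_two]

lemma k1_two : 2 * k1 / (1 + k1 ^ 2) = √3 / 2 := by
  rw [k1_sq]; unfold k1
  have h3 : √3 * √3 = 3 := Real.mul_self_sqrt (by norm_num)
  field_simp
  linarith

lemma k1_z : (1 - k1 ^ 2) / (1 + k1 ^ 2) = 1 / 2 := by
  rw [k1_sq]; norm_num

lemma fc_end : fc k1 (mm k1) = two phi1 psi1 := by
  unfold fc two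
  have e0 : cos (3 * π / 2) = 0 := by simpa using cos_three 0
  have e1 : sin (3 * π / 2) = -1 := by simpa using sin_three 0
  congr 1
  · funext i
    ext j
    fin_cases i <;> fin_cases j <;>
      simp [phi1, pt, sqrt34, cos_pi_div_two_sub, sin_pi_div_two_sub, cos_half', sin_half',
        cos_three, sin_three, cos_three', sin_three', k1_two, k1_z, -one_div, -inv_pow] <;>
      linarith [sin_al, cos_al', cos_ga', sin_ga]
  · funext i
    ext j
    fin_cases i <;> fin_cases j <;>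
      simp [psi1, pt, sqrt34, cos_pi_div_two_sub, sin_pi_div_two_sub, cos_half', sin_half',
        cos_three, sin_three, cos_three', sin_three', k1_two, k1_z, -one_div, -inv_pow, e0, e1] <;>
      linarith [sin_al, cos_al', cos_ga', sin_ga]

/-- the cuboctahedron -/
noncomputable def fcc : Fin 12 → E3 := fc 1 1

lemma mm_one : mm 1 = 1 := by simp [mm]

lemma fcc_mem : fcc ∈ Conf := by
  have h := fc_path_mem k1_lt.le le_rfl
  rwa [mm_one] at h

lemma fcc_joined_base : JoinedIn Conf fcc base := by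
  have h := joined_of_seg (f := fun k => fc k (mm k)) k1 1 continuousOn_fc (by
    intro k hk
    rw [uIcc_of_le k1_lt.le] at hk
    exact fc_path_mem hk.1 hk.2)
  simp only [mm_one, fc_end] at h
  exact h.symm.trans (two_joined Srt_phi1 Srt_th0 Srt_psi1 Srt_th0)

/-- the permutation of the vertices of the cuboctahedron under the quarter turn about the first axis -/
def cR : Equiv.Perm (Fin 12) where
  toFun := ![10, 3, 6, 0, 5, 9, 11, 2, 4, 8, 1, 7]
  invFun := ![3, 10, 7, 1, 8, 4, 2, 11, 9, 5, 0, 6]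
  left_inv := by decide
  right_inv := by decide

lemma fcc_comp_cR : fcc ∘ cR = fun i => rotX (π / 2) (fcc i) := by
  funext i
  ext j
  fin_cases i <;> fin_cases j <;> simp [fcc, fc, cR, asm, rotX, e3] <;> norm_num

lemma joined_cR : JoinedIn Conf (base ∘ cR) base := by
  have h1 : JoinedIn Conf (base ∘ cR) (fcc ∘ cR) := comp_joined fcc_joined_base.symm cR
  have h2 : JoinedIn Conf (fcc ∘ cR) fcc := by
    rw [fcc_comp_cR]; exact (joined_rotX fcc_mem (π / 2)).symm
  exact (h1.trans h2).trans fcc_joined_base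

/-- Every relabelling of the base point is realised by a motion. -/
lemma G_eq_top : G = ⊤ := by
  have hU : cU ∈ G := joined_cU
  have hL : cL ∈ G := joined_cL
  have hR : cR ∈ G := joined_cR
  have hs : cU ^ 2 * cR ∈ G := G.mul_mem (G.pow_mem hU 2) hR
  have ht : (cU ^ 2 * cL ^ 2 * cR) ^ 5 ∈ G :=
    G.pow_mem (G.mul_mem (G.mul_mem (G.pow_mem hU 2) (G.pow_mem hL 2)) hR) 5
  have e1 : (cU ^ 2 * cL ^ 2 * cR) ^ 5 = Equiv.swap 8 ((cU ^ 2 * cR) 8) := by decide +kernel
  have hcyc : (cU ^ 2 * cR).IsCycle := by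
    refine ⟨0, by decide +kernel, fun y _ => ?_⟩
    have : ∀ y : Fin 12, ∃ n : Fin 12, ((cU ^ 2 * cR) ^ (n : ℕ)) 0 = y := by decide +kernel
    obtain ⟨n, hn⟩ := this y
    exact ⟨(n : ℕ), by simpa using hn⟩
  have hsup : (cU ^ 2 * cR).support = Finset.univ := by
    ext y
    simp only [Equiv.Perm.mem_support, Finset.mem_univ, iff_true]
    revert y
    decide +kernel
  have hcl := Equiv.Perm.closure_cycle_adjacent_swap hcyc hsup 8
  rw [eq_top_iff, ← hcl, Subgroup.closure_le]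
  rintro _ (rfl | rfl)
  · exact hs
  · rw [← e1]; exact ht

lemma base_comp_joined (σ : Equiv.Perm (Fin 12)) : JoinedIn Conf (base ∘ σ) base := by
  have : σ ∈ G := by rw [G_eq_top]; trivial
  exact this

/-! ## arbitrary two-ring configurations -/

/-- a two-ring configuration with arbitrary axis and labels -/
def IsTwoRing (y : Fin 12 → E3) : Prop :=
  ∃ (σ : Equiv.Perm (Fin 12)) (e : E3), y (σ 0) = e ∧ y (σ 1) = -e ∧
    (∀ k, inner ℝ e (y (σ (up k))) = 1 / 2) ∧ (∀ k, inner ℝ e (y (σ (lo k))) = -(1 / 2))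

lemma rot_neg (a b : ℝ) (e : E3) : rotX b (rotZ a (-e)) = -rotX b (rotZ a e) := by
  ext i; fin_cases i <;> simp [rotX, rotZ] <;> ring

lemma exists_sort {φ : Fin 5 → ℝ} (h0 : ∀ k, 0 ≤ φ k) (h2 : ∀ k, φ k < 2 * π)
    (hc : ∀ k m, k ≠ m → cos (φ k - φ m) ≤ 1 / 3) : ∃ τ : Equiv.Perm (Fin 5), Srt (φ ∘ τ) := by
  refine ⟨Tuple.sort φ, fun k m hkm => ?_⟩
  have hm := Tuple.monotone_sort φ
  have h1 : (φ ∘ Tuple.sort φ) k ≤ (φ ∘ Tuple.sort φ) m := hm hkm.le
  simp only [Function.comp] at h1 ⊢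
  refine mem_of_cos_le (by linarith) (by linarith [h0 (Tuple.sort φ k), h2 (Tuple.sort φ m)]) ?_
  exact hc _ _ (fun h => hkm.ne' ((Tuple.sort φ).injective h))

/-- extension of two permutations of the rings to all labels -/
noncomputable def extPerm (τ τ' : Equiv.Perm (Fin 5)) : Equiv.Perm (Fin 12) :=
  Equiv.ofBijective (asm 0 1 (fun k => up (τ k)) (fun k => lo (τ' k))) (by
    rw [← Finite.injective_iff_bijective]
    have hu0 : ∀ k, up k ≠ 0 := by decide
    have hu1 : ∀ k, up k ≠ 1 := by decide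
    have hl0 : ∀ k, lo k ≠ 0 := by decide
    have hl1 : ∀ k, lo k ≠ 1 := by decide
    have hul : ∀ k m, up k ≠ lo m := by decide
    intro i j hij
    rcases cases12 i with rfl | rfl | ⟨k, rfl⟩ | ⟨k, rfl⟩ <;>
    rcases cases12 j with rfl | rfl | ⟨m, rfl⟩ | ⟨m, rfl⟩ <;>
    simp only [asm_zero, asm_one, asm_up, asm_lo] at hij
    · rfl
    · exact absurd hij (by decide)
    · exact absurd hij.symm (hu0 _)
    · exact absurd hij.symm (hl0 _)
    · exact absurd hij (by decide)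
    · rfl
    · exact absurd hij.symm (hu1 _)
    · exact absurd hij.symm (hl1 _)
    · exact absurd hij (hu0 _)
    · exact absurd hij (hu1 _)
    · rw [τ.injective (up_inj.1 hij)]
    · exact absurd hij (hul _ _)
    · exact absurd hij (hl0 _)
    · exact absurd hij (hl1 _)
    · exact absurd hij.symm (hul _ _)
    · rw [τ'.injective (lo_inj.1 hij)])

lemma two_comp_ext (φ ψ : Fin 5 → ℝ) (τ τ' : Equiv.Perm (Fin 5)) :
    two φ ψ ∘ extPerm τ τ' = two (φ ∘ τ) (ψ ∘ τ') := by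
  have e : ⇑(extPerm τ τ') = asm 0 1 (fun k => up (τ k)) (fun k => lo (τ' k)) := rfl
  funext i
  rcases cases12 i with rfl | rfl | ⟨k, rfl⟩ | ⟨k, rfl⟩
  · rfl
  · rfl
  · simp only [Function.comp, e, asm_up, two]
  · simp only [Function.comp, e, asm_lo, two]

/-- **Labels.** Every two-ring configuration, with any axis and any labels, is joined to the base
point. -/
theorem twoRing_joined {y : Fin 12 → E3} (hy : y ∈ Conf) (h : IsTwoRing y) :
    JoinedIn Conf y base := by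
  obtain ⟨σ, e, h0, h1, hu, hl⟩ := h
  have hyσ := comp_mem hy σ
  have he : inner ℝ e e = 1 := by rw [← h0]; exact ((mem_Conf_iff y).1 hy).1 _
  obtain ⟨a, b, hab⟩ := exists_rot e he
  have j1 := joined_rotZ hyσ a
  have j2 := joined_rotX j1.target_mem b
  have j := j1.trans j2
  set z : Fin 12 → E3 := fun i => rotX b (rotZ a ((y ∘ σ) i)) with hz
  have hzm : z ∈ Conf := j.target_mem
  obtain ⟨hz1, hz2⟩ := (mem_Conf_iff z).1 hzm
  have z0 : z 0 = e3 := by simp only [hz, Function.comp, h0, hab]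
  have z1 : z 1 = -e3 := by simp only [hz, Function.comp, h1, rot_neg, hab]
  have zu : ∀ k, inner ℝ e3 (z (up k)) = 1 / 2 := by
    intro k
    simp only [hz, Function.comp]
    rw [← hab, inner_rotX, inner_rotZ]; exact hu k
  have zl : ∀ k, inner ℝ e3 (z (lo k)) = -(1 / 2) := by
    intro k
    simp only [hz, Function.comp]
    rw [← hab, inner_rotX, inner_rotZ]; exact hl k
  choose φ hφ0 hφ2 hφ using fun k => exists_pt (z (up k)) (hz1 _) (1 / 2) (zu k) (by norm_num)
  choose ψ hψ0 hψ2 hψ using fun k => exists_pt (z (lo k)) (hz1 _) (-(1 / 2)) (zl k) (by norm_num)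
  have ez : z = two φ ψ := by
    rw [eq_asm z]
    unfold two
    rw [z0, z1]
    congr 1
    · funext k; exact hφ k
    · funext k; exact hψ k
  obtain ⟨τ, hτ⟩ := exists_sort hφ0 hφ2 (by
    intro k m hkm
    have := hz2 (up k) (up m) (fun h => hkm (up_inj.1 h))
    rw [hφ k, hφ m, inner_pt, sqrt_half] at this
    linarith)
  obtain ⟨τ', hτ'⟩ := exists_sort hψ0 hψ2 (by
    intro k m hkm
    have := hz2 (lo k) (lo m) (fun h => hkm (lo_inj.1 h))
    rw [hψ k, hψ m, inner_pt, sqrt_half'] at this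
    linarith)
  have j3 : JoinedIn Conf (z ∘ extPerm τ τ') base := by
    rw [ez, two_comp_ext]
    exact two_joined hτ Srt_th0 hτ' Srt_th0
  have j4 : JoinedIn Conf z base := by
    have h := comp_joined j3 (extPerm τ τ')⁻¹
    have e : (z ∘ ⇑(extPerm τ τ')) ∘ ⇑(extPerm τ τ')⁻¹ = z := by funext i; simp
    rw [e] at h
    exact h.trans (base_comp_joined _)
  have j5 : JoinedIn Conf (y ∘ σ) base := j.trans j4
  have h := comp_joined j5 σ⁻¹
  have e' : (y ∘ ⇑σ) ∘ ⇑σ⁻¹ = y := by funext i; simp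
  rw [e'] at h
  exact h.trans (base_comp_joined _)

/-- **Reduction of S10649**: it is enough to move every configuration to a two-ring one. -/
theorem isPathConnected_of (h : ∀ x ∈ Conf, ∃ y, IsTwoRing y ∧ JoinedIn Conf x y) :
    IsPathConnected Conf := by
  refine ⟨base, base_mem, fun {x} hx => ?_⟩
  obtain ⟨y, hy, hxy⟩ := h x hx
  exact (hxy.trans (twoRing_joined hxy.target_mem hy)).symm

end Pool.Agent.Helper66.Kiss
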