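import Pool.Agent.Helper66.Kiss.PackWalk
import Pool.Agent.Helper66.Kiss.HLaw

set_option autoImplicit false

/-! # Direction leaves: from the packed tests to lifts -/

namespace Pool.Agent.Helper66.Kiss

open Real Set Filter Topology Pk

/-! ## conditions on pairs of heights -/

/-- edge bound for two heights with parameters of the explicit law -/
def EBp (x y v w v' w' c : ℝ) : Prop :=
  ((RR x y ^ 2 < 1 → rate x y (hLo v w x) (hLo v' w' y) ≤ c ∧
      rate x y (hLo v w x) (hHi v' w' y) ≤ c ∧
      rate x y (hHi v w x) (hLo v' w' y) ≤ c ∧ rate x y (hHi v w x) (hHi v' w' y) ≤ c) ∧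
    (1 ≤ RR x y ^ 2 → nr x y (hLo v w x) (hLo v' w' y) < 0 ∧
      nr x y (hLo v w x) (hHi v' w' y) < 0 ∧
      nr x y (hHi v w x) (hLo v' w' y) < 0 ∧ nr x y (hHi v w x) (hHi v' w' y) < 0)) ∨
  (v = 0 ∧ w = 0 ∧ v' = 0 ∧ w' = 0 ∧ 0 ≤ c)

section

variable {n : ℕ}

lemma stat_hF {z v w : Fin n → ℝ} {k : Fin n} (h1 : v k = 0) (h2 : w k = 0) :
    Stat z (hF v w) k := by
  refine Eventually.of_forall fun p _ _ => ?_
  show hf (v k) (w k) (p.1 k) p.2 = _
  rw [h1, h2, hf_plain, zero_mul, mul_zero, add_zero]
  exact min_eq_left (le_max_left _ _)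

lemma EBp.toEBs {z v w : Fin n → ℝ} {i j : Fin n} {c : ℝ}
    (h : EBp (z i) (z j) (v i) (w i) (v j) (w j) c) :
    EBs z (hF v w) (fun k => hLo (v k) (w k) (z k)) (fun k => hHi (v k) (w k) (z k)) i j c := by
  rcases h with h | ⟨h1, h2, h3, h4, h5⟩
  · exact Or.inl h
  · exact Or.inr ⟨monoQ_stat (stat_hF h1 h2) (stat_hF h3 h4), h5⟩

end

lemma EBp.symm {x y v w v' w' c : ℝ} (h : EBp x y v w v' w' c) : EBp y x v' w' v w c := by
  rcases h with h | ⟨h1, h2, h3, h4, h5⟩
  · left
    refine ⟨fun h1 => ?_, fun h1 => ?_⟩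
    · rw [RR_comm] at h1
      obtain ⟨a1, a2, a3, a4⟩ := h.1 h1
      exact ⟨by rw [rate_comm]; exact a1, by rw [rate_comm]; exact a3, by rw [rate_comm]; exact a2,
        by rw [rate_comm]; exact a4⟩
    · rw [RR_comm] at h1
      obtain ⟨a1, a2, a3, a4⟩ := h.2 h1
      exact ⟨by rw [nr_comm]; exact a1, by rw [nr_comm]; exact a3, by rw [nr_comm]; exact a2,
        by rw [nr_comm]; exact a4⟩
  · exact Or.inr ⟨h3, h4, h1, h2, h5⟩

/-- meaning of the numbers of a pair of heights -/
def POKp (x y v w v' w' ρ : ℝ) (D R : ℕ) : Prop :=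
  1 < RR x y ∨ (wd x y ≤ D * (π / 32768) ∧
    (2 ^ 23 + 2 ^ 22 + 2 ^ 21 ≤ R ∨ (2 ^ 23 - 2 ^ 18 ≤ R ∧
      EBp x y v w v' w' (((R : ℝ) - 2 ^ 23) * ρ))))

lemma POKp.toPOK {n : ℕ} {z v w : Fin n → ℝ} {i j : Fin n} {ρ : ℝ} {D R : ℕ}
    (h : POKp (z i) (z j) (v i) (w i) (v j) (w j) ρ D R) :
    POK z (hF v w) (fun k => hLo (v k) (w k) (z k)) (fun k => hHi (v k) (w k) (z k)) ρ i j D R := by
  rcases h with h | ⟨h1, h2 | ⟨h2, h3⟩⟩
  · exact Or.inl h
  · exact Or.inr ⟨h1, Or.inl h2⟩
  · exact Or.inr ⟨h1, Or.inr ⟨h2, h3.toEBs⟩⟩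

/-! ## walks with eleven nodes from walks with ten nodes -/

section

variable {z : Fin 11 → ℝ} {Q : Fin 11 → Fin 11 → ℝ → Prop}

/-- walks with eleven nodes: constants -/
lemma consts_of_ten {s : Fin 11} (hQ : ∀ i j c, Q i j c → Q j i c)
    (hA : ∀ (v : ℕ → ℕ) (r : ℕ), r ≤ 10 → IsWalk 10 v r → v r = v 0 + 10 →
      (∀ k < r, RR (z (s.succAbove (clN 10 (by norm_num) (v k))))
        (z (s.succAbove (clN 10 (by norm_num) (v (k + 1))))) ≤ 1) →
      2 * π ≤ twn (fun l => z (s.succAbove l)) (fun k => clN 10 (by norm_num) (v k)) r →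
      ∃ c : Fin 10 → Fin 10 → ℝ, (∀ k < r, Q (s.succAbove (clN 10 (by norm_num) (v k)))
        (s.succAbove (clN 10 (by norm_num) (v (k + 1))))
        (c (clN 10 (by norm_num) (v k)) (clN 10 (by norm_num) (v (k + 1))))) ∧
        ∑ k ∈ Finset.range r, c (clN 10 (by norm_num) (v k)) (clN 10 (by norm_num) (v (k + 1))) < 0)
    (hB : ∀ (v : ℕ → ℕ) (m : ℕ), 1 ≤ m → m + 1 ≤ 10 → IsWalk 10 v (m + 1) →
      v (m + 1) = v 0 + 10 → Psd s (v m) (v 0) →
      (∀ k < m, RR (z (s.succAbove (clN 10 (by norm_num) (v k))))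
        (z (s.succAbove (clN 10 (by norm_num) (v (k + 1))))) ≤ 1) →
      RR (z s) (z (s.succAbove (clN 10 (by norm_num) (v 0)))) ≤ 1 →
      RR (z s) (z (s.succAbove (clN 10 (by norm_num) (v m)))) ≤ 1 →
      2 * π ≤ wd (z s) (z (s.succAbove (clN 10 (by norm_num) (v 0)))) +
        wd (z s) (z (s.succAbove (clN 10 (by norm_num) (v m)))) +
        twn (fun l => z (s.succAbove l)) (fun k => clN 10 (by norm_num) (v k)) m →
      ∃ (c : Fin 10 → Fin 10 → ℝ) (c1 c2 : ℝ),
        (∀ k < m, Q (s.succAbove (clN 10 (by norm_num) (v k)))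
          (s.succAbove (clN 10 (by norm_num) (v (k + 1))))
          (c (clN 10 (by norm_num) (v k)) (clN 10 (by norm_num) (v (k + 1))))) ∧
        Q s (s.succAbove (clN 10 (by norm_num) (v 0))) c1 ∧
        Q s (s.succAbove (clN 10 (by norm_num) (v m))) c2 ∧
        ∑ k ∈ Finset.range m, c (clN 10 (by norm_num) (v k)) (clN 10 (by norm_num) (v (k + 1))) +
          c1 + c2 < 0)
    (hC : ∀ l : Fin 10, RR (z s) (z (s.succAbove l)) ≤ -1 → ∃ c < 0, Q s (s.succAbove l) c)
    {v : ℕ → ℕ} {r : ℕ} (hv : IsWalk 11 v r) (he : v r = v 0 + 11)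
    (hE : ∀ k < r, RR (z (clN 11 (by norm_num) (v k))) (z (clN 11 (by norm_num) (v (k + 1)))) ≤ 1)
    (ht : 2 * π ≤ twn z (fun k => clN 11 (by norm_num) (v k)) r) :
    ∃ c : Fin 11 → Fin 11 → ℝ, (∀ k < r, Q (clN 11 (by norm_num) (v k))
        (clN 11 (by norm_num) (v (k + 1)))
        (c (clN 11 (by norm_num) (v k)) (clN 11 (by norm_num) (v (k + 1))))) ∧
      ∑ k ∈ Finset.range r, c (clN 11 (by norm_num) (v k)) (clN 11 (by norm_num) (v (k + 1))) < 0 := by
  classical
  have hpi := Real.pi_pos
  have hrpos : 0 < r := by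
    rcases Nat.eq_zero_or_pos r with h | h
    · rw [h] at he; omega
    · exact h
  by_cases hs : ∀ k < r, v k % 11 ≠ s.val
  · -- the walk avoids the pole
    have hs' : ∀ k ≤ r, v k % 11 ≠ s.val := by
      intro k hk
      rcases Nat.lt_or_ge k r with h | h
      · exact hs k h
      · have : k = r := by omega
        rw [this, he, Nat.add_mod_right]
        exact hs 0 hrpos
    have hw : IsWalk 10 (fun k => dm s (v k)) r := by
      intro k hk
      obtain ⟨a1, a2⟩ := hv k hk
      refine ⟨dm_lt s a1 (hs' k hk.le) (hs' _ hk), ?_⟩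
      have := dm_lt s a2 (hs' _ hk) (by rw [Nat.add_mod_right]; exact hs' k hk.le)
      rwa [dm_add] at this
    have he' : dm s (v r) = dm s (v 0) + 10 := by rw [he, dm_add]
    have hr10 : r ≤ 10 := by
      have := isWalk_ge hw r le_rfl
      omega
    have hcl : ∀ k ≤ r, s.succAbove (clN 10 (by norm_num) (dm s (v k))) =
        clN 11 (by norm_num) (v k) := fun k hk => clN_dm s (hs' k hk)
    have htw : twn (fun l => z (s.succAbove l))
        (fun k => clN 10 (by norm_num) (dm s (v k))) r =
        twn z (fun k => clN 11 (by norm_num) (v k)) r := by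
      unfold twn
      refine Finset.sum_congr rfl fun k hk => ?_
      have := Finset.mem_range.1 hk
      simp only [hcl k (by omega), hcl (k + 1) (by omega)]
    obtain ⟨c, hc1, hc2⟩ := hA (fun k => dm s (v k)) r hr10 hw he' (by
      intro k hk
      rw [hcl k hk.le, hcl (k + 1) hk]
      exact hE k hk) (by rw [htw]; exact ht)
    -- constants for pairs of eleven nodes
    set c' : Fin 11 → Fin 11 → ℝ := fun i j =>
      if h : ∃ l m : Fin 10, i = s.succAbove l ∧ j = s.succAbove m then
        c h.choose h.choose_spec.choose else 0 with hc'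
    have hcc : ∀ l m : Fin 10, c' (s.succAbove l) (s.succAbove m) = c l m := by
      intro l m
      have h : ∃ l' m' : Fin 10, s.succAbove l = s.succAbove l' ∧ s.succAbove m = s.succAbove m' :=
        ⟨l, m, rfl, rfl⟩
      simp only [hc', dif_pos h]
      have h1 := h.choose_spec.choose_spec
      exact congrArg₂ c (Fin.succAbove_right_injective h1.1).symm
        (Fin.succAbove_right_injective h1.2).symm
    refine ⟨c', ?_, ?_⟩
    · intro k hk
      rw [← hcl k hk.le, ← hcl (k + 1) hk, hcc]
      exact hc1 k hk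
    · have : ∑ k ∈ Finset.range r, c' (clN 11 (by norm_num) (v k))
          (clN 11 (by norm_num) (v (k + 1))) = ∑ k ∈ Finset.range r,
          c (clN 10 (by norm_num) (dm s (v k))) (clN 10 (by norm_num) (dm s (v (k + 1)))) := by
        refine Finset.sum_congr rfl fun k hk => ?_
        have := Finset.mem_range.1 hk
        rw [← hcl k this.le, ← hcl (k + 1) this, hcc]
      rw [this]; exact hc2
  · push Not at hs
    obtain ⟨k0, hk0, hs0⟩ := hs
    obtain ⟨u, b1, b2, b3, b4, b5⟩ := walk_rot (n := 11) (by norm_num) k0 hk0 hv he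
    have hu : twn z (fun k => clN 11 (by norm_num) (v k)) r =
        twn z (fun k => clN 11 (by norm_num) (u k)) r := by
      unfold twn
      exact (b4 fun i j => wd (z i) (z j)).symm
    rw [hu] at ht
    have hEu := b5 (fun i j => RR (z i) (z j) ≤ 1) hE
    have hu0 : u 0 % 11 = s.val := by rw [b3]; exact hs0
    have c0 : clN 11 (by norm_num) (u 0) = s := by unfold clN; ext; exact hu0
    have cr : clN 11 (by norm_num) (u r) = s := by rw [b2, clN_add]; exact c0
    -- it suffices to treat the rotated walk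
    suffices hsuff : ∃ c : Fin 11 → Fin 11 → ℝ, (∀ k < r, Q (clN 11 (by norm_num) (u k))
        (clN 11 (by norm_num) (u (k + 1)))
        (c (clN 11 (by norm_num) (u k)) (clN 11 (by norm_num) (u (k + 1))))) ∧
        ∑ k ∈ Finset.range r, c (clN 11 (by norm_num) (u k))
          (clN 11 (by norm_num) (u (k + 1))) < 0 by
      obtain ⟨c, hc1, hc2⟩ := hsuff
      refine ⟨c, ?_, ?_⟩
      · exact all_of_sums (κ' := fun k => clN 11 (by norm_num) (u k))
          (κ := fun k => clN 11 (by norm_num) (v k)) b4 (Q := fun i j => Q i j (c i j)) hc1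
      · rw [← b4 c]; exact hc2
    have hmono : ∀ k j, k ≤ j → j ≤ r → u k ≤ u j := by
      intro k j hkj
      induction j with
      | zero => intro _; rw [Nat.le_zero.1 hkj]
      | succ j ih =>
        intro hj
        rcases Nat.lt_or_ge k (j + 1) with h | h
        · have := ih (by omega) (by omega)
          have := (b1 j (by omega)).1
          omega
        · have : k = j + 1 := by omega
          rw [this]
    have hin : ∀ k, 0 < k → k < r → u k % 11 ≠ s.val := by
      intro k h1 h2 h3
      have g1 := isWalk_ge b1 k h2.le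
      have g2 := (b1 k h2).1
      have g3 := hmono (k + 1) r (by omega) le_rfl
      rw [b2] at g3
      omega
    have hr2 : r ≠ 1 := by
      intro h
      have := (b1 0 (by omega)).2
      rw [h] at b2
      simp only [zero_add] at this
      omega
    obtain ⟨q, rfl⟩ : ∃ q, r = q + 2 := ⟨r - 2, by omega⟩
    have hsplit : twn z (fun k => clN 11 (by norm_num) (u k)) (q + 2) =
        wd (z s) (z (clN 11 (by norm_num) (u 1))) + wd (z s) (z (clN 11 (by norm_num) (u (q + 1)))) +
        twn z (fun k => clN 11 (by norm_num) (u (k + 1))) q := by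
      unfold twn
      rw [Finset.sum_range_succ, Finset.sum_range_succ']
      simp only [show q + 1 + 1 = q + 2 from rfl, cr, c0, zero_add]
      rw [wd_comm (z (clN 11 (by norm_num) (u (q + 1)))) (z s)]
      ring
    have hin1 : ∀ k, k ≤ q → u (k + 1) % 11 ≠ s.val := fun k hk => hin (k + 1) (by omega) (by omega)
    rcases Nat.eq_zero_or_pos q with hq | hq
    · -- two edges
      subst hq
      have e1 : clN 11 (by norm_num) (u 1) = s.succAbove (clN 10 (by norm_num) (dm s (u 1))) :=
        (clN_dm s (hin1 0 le_rfl)).symm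
      have hπ : π ≤ wd (z s) (z (clN 11 (by norm_num) (u 1))) := by
        rw [hsplit] at ht
        unfold twn at ht
        rw [Finset.sum_range_zero, zero_add] at ht
        linarith
      have hR : RR (z s) (z (s.succAbove (clN 10 (by norm_num) (dm s (u 1))))) ≤ -1 := by
        rw [← e1]
        by_contra hcon
        push Not at hcon
        rw [wd_eq_RR] at hπ
        have h2 := Real.arccos_le_pi (RR (z s) (z (clN 11 (by norm_num) (u 1))))
        have h3 : arccos (RR (z s) (z (clN 11 (by norm_num) (u 1)))) = π := le_antisymm h2 hπ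
        rw [Real.arccos_eq_pi] at h3
        linarith
      obtain ⟨c0', hc0, h1⟩ := hC _ hR
      rw [← e1] at h1
      refine ⟨fun _ _ => c0', ?_, ?_⟩
      · intro k hk
        interval_cases k
        · rw [c0]; exact h1
        · rw [show (1 : ℕ) + 1 = 0 + 2 by norm_num, cr]; exact hQ _ _ _ h1
      · rw [Finset.sum_const, Finset.card_range, nsmul_eq_mul]
        push_cast
        linarith
    -- the ten-point walk
    set g : ℕ → ℕ := fun k => if k ≤ q then dm s (u (k + 1)) else dm s (u 1) + 10 with hg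
    have g_le : ∀ k, k ≤ q → g k = dm s (u (k + 1)) := fun k hk => if_pos hk
    have g_last : g (q + 1) = dm s (u 1) + 10 := if_neg (by omega)
    have hgw : IsWalk 10 g (q + 1) := by
      intro k hk
      rcases Nat.lt_or_ge k q with h | h
      · rw [g_le k h.le, g_le (k + 1) h]
        obtain ⟨a1, a2⟩ := b1 (k + 1) (by omega)
        refine ⟨dm_lt s a1 (hin1 k h.le) (hin1 _ h), ?_⟩
        have := dm_lt s a2 (hin1 _ h) (by rw [Nat.add_mod_right]; exact hin1 k h.le)
        rwa [dm_add] at this
      · have hkq : k = q := by omega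
        rw [hkq, g_le q le_rfl, g_last]
        constructor
        · have h1 : u (q + 1) < u 1 + 11 := by
            have g1 := (b1 (q + 1) (by omega)).1
            have g2 := (b1 0 (by omega)).1
            rw [show q + 1 + 1 = q + 2 by ring, b2] at g1
            rw [zero_add] at g2
            omega
          have := dm_lt s h1 (hin1 q le_rfl) (by
            rw [Nat.add_mod_right]; exact hin1 0 (by omega))
          rwa [dm_add] at this
        · have h1 : u 1 < u (q + 1) := by
            have g1 := hmono 2 (q + 1) (by omega) (by omega)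
            have g2 : u 1 < u 2 := (b1 1 (by omega)).1
            omega
          have := dm_lt s h1 (hin1 0 (by omega)) (hin1 q le_rfl)
          omega
    have hge : g (q + 1) = g 0 + 10 := by rw [g_last, g_le 0 (by omega)]
    have hq10 : q + 1 ≤ 10 := by
      have := isWalk_ge hgw (q + 1) le_rfl
      omega
    have hcl : ∀ k ≤ q, s.succAbove (clN 10 (by norm_num) (g k)) =
        clN 11 (by norm_num) (u (k + 1)) := by
      intro k hk
      rw [g_le k hk]
      exact clN_dm s (hin1 k hk)
    have htw : twn (fun l => z (s.succAbove l))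
        (fun k => clN 10 (by norm_num) (g k)) q =
        twn z (fun k => clN 11 (by norm_num) (u (k + 1))) q := by
      unfold twn
      refine Finset.sum_congr rfl fun k hk => ?_
      have := Finset.mem_range.1 hk
      simp only [hcl k (by omega), hcl (k + 1) (by omega)]
    have e1 : clN 11 (by norm_num) (u 1) = s.succAbove (clN 10 (by norm_num) (g 0)) :=
      (hcl 0 (by omega)).symm
    have e2 : clN 11 (by norm_num) (u (q + 1)) = s.succAbove (clN 10 (by norm_num) (g q)) :=
      (hcl q le_rfl).symm
    rw [hsplit, ← htw, e1, e2] at ht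
    have hpsd : Psd s (g q) (g 0) := by
      rw [g_le q le_rfl, g_le 0 (by omega)]
      refine psd_of s hu0 ?_ ?_ (b1 0 (by omega)).1
      · have := hmono 1 (q + 1) (by omega) (by omega)
        have := (b1 0 (by omega)).1
        simp only [zero_add] at this
        omega
      · have := (b1 (q + 1) (by omega)).1
        rw [show q + 1 + 1 = q + 2 by ring, b2] at this
        exact this
    obtain ⟨c, c1, c2, hc, hq1, hq2, hsum⟩ := hB g q hq hq10 hgw hge hpsd (by
      intro k hk
      rw [hcl k hk.le, hcl (k + 1) hk]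
      exact hEu (k + 1) (by omega)) (by
      have := hEu 0 (by omega)
      rw [c0, zero_add, e1] at this
      exact this) (by
      have := hEu (q + 1) (by omega)
      rw [show q + 1 + 1 = q + 2 by ring, cr, e2, RR_comm] at this
      exact this) ht
    set c' : Fin 11 → Fin 11 → ℝ := fun i j =>
      if i = s then c1 else if j = s then c2 else
      if h : ∃ l m : Fin 10, i = s.succAbove l ∧ j = s.succAbove m then
        c h.choose h.choose_spec.choose else 0 with hc'
    have hcc : ∀ l m : Fin 10, c' (s.succAbove l) (s.succAbove m) = c l m := by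
      intro l m
      have h : ∃ l' m' : Fin 10, s.succAbove l = s.succAbove l' ∧ s.succAbove m = s.succAbove m' :=
        ⟨l, m, rfl, rfl⟩
      simp only [hc', if_neg (Fin.succAbove_ne s l), if_neg (Fin.succAbove_ne s m), dif_pos h]
      have h1 := h.choose_spec.choose_spec
      exact congrArg₂ c (Fin.succAbove_right_injective h1.1).symm
        (Fin.succAbove_right_injective h1.2).symm
    have hc1 : ∀ j, c' s j = c1 := fun j => by simp only [hc', if_true]
    have hc2 : ∀ l : Fin 10, c' (s.succAbove l) s = c2 := fun l => by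
      simp only [hc', if_neg (Fin.succAbove_ne s l), if_true]
    refine ⟨c', ?_, ?_⟩
    · intro k hk
      rcases Nat.eq_zero_or_pos k with h0 | h0
      · subst h0
        rw [c0, hc1, zero_add, e1]; exact hq1
      · rcases Nat.lt_or_ge k (q + 1) with h1 | h1
        · obtain ⟨p, rfl⟩ : ∃ p, k = p + 1 := ⟨k - 1, by omega⟩
          rw [← hcl p (by omega), ← hcl (p + 1) (by omega), hcc]
          exact hc p (by omega)
        · have : k = q + 1 := by omega
          rw [this, show q + 1 + 1 = q + 2 by ring, cr, e2, hc2]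
          exact hQ _ _ _ hq2
    · rw [Finset.sum_range_succ, Finset.sum_range_succ', cr, c0, zero_add, hc1, e2, hc2]
      have : ∑ k ∈ Finset.range q, c' (clN 11 (by norm_num) (u (k + 1)))
          (clN 11 (by norm_num) (u (k + 1 + 1))) = ∑ k ∈ Finset.range q,
          c (clN 10 (by norm_num) (g k)) (clN 10 (by norm_num) (g (k + 1))) := by
        refine Finset.sum_congr rfl fun k hk => ?_
        have := Finset.mem_range.1 hk
        rw [← hcl k this.le, ← hcl (k + 1) this, hcc]
      rw [this]; linarith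

end

end Pool.Agent.Helper66.Kiss
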