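import Mathlib

set_option autoImplicit false

/-! # Packed vectors: all subsets at once in one natural number

A lane has 48 bits: bits `0..19` hold a width, bits `20..47` a rate with an offset. -/

namespace Pool.Agent.Helper66.Kiss.Pk

/-- packed vector with `m` lanes of 48 bits -/
def vec (f : ℕ → ℕ) : ℕ → ℕ
  | 0 => 0
  | m + 1 => vec f m + f m * 2 ^ (48 * m)

lemma vec_congr {f g : ℕ → ℕ} {m : ℕ} (h : ∀ S < m, f S = g S) : vec f m = vec g m := by
  induction m with
  | zero => rfl
  | succ m ih =>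
    unfold vec
    rw [ih fun S hS => h S (by omega), h m (by omega)]

lemma vec_add (f g : ℕ → ℕ) (m : ℕ) : vec f m + vec g m = vec (fun S => f S + g S) m := by
  induction m with
  | zero => rfl
  | succ m ih => unfold vec; rw [← ih]; ring

lemma vec_mul (c : ℕ) (f : ℕ → ℕ) (m : ℕ) : c * vec f m = vec (fun S => c * f S) m := by
  induction m with
  | zero => rfl
  | succ m ih => unfold vec; rw [← ih]; ring

lemma vec_append (f g : ℕ → ℕ) (m p : ℕ) : vec f m + vec g p * 2 ^ (48 * m) =
    vec (fun S => if S < m then f S else g (S - m)) (m + p) := by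
  induction p with
  | zero =>
    rw [Nat.add_zero]
    have : vec g 0 = 0 := rfl
    rw [this, zero_mul, add_zero]
    exact vec_congr fun S hS => by rw [if_pos hS]
  | succ p ih =>
    have e1 : vec g (p + 1) = vec g p + g p * 2 ^ (48 * p) := rfl
    have e2 : vec (fun S => if S < m then f S else g (S - m)) (m + (p + 1)) =
      vec (fun S => if S < m then f S else g (S - m)) (m + p) +
        (if m + p < m then f (m + p) else g (m + p - m)) * 2 ^ (48 * (m + p)) := rfl
    rw [e1, e2, ← ih, if_neg (by omega), Nat.add_sub_cancel_left,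
      show 48 * (m + p) = 48 * p + 48 * m by ring, pow_add]
    ring

lemma vec_lt {f : ℕ → ℕ} {m : ℕ} (h : ∀ S < m, f S < 2 ^ 48) : vec f m < 2 ^ (48 * m) := by
  induction m with
  | zero => simp [vec]
  | succ m ih =>
    have h1 := ih fun S hS => h S (by omega)
    have h2 := h m (by omega)
    have e1 : vec f (m + 1) = vec f m + f m * 2 ^ (48 * m) := rfl
    rw [e1, show 48 * (m + 1) = 48 + 48 * m by ring, pow_add]
    have h3 : f m * 2 ^ (48 * m) ≤ (2 ^ 48 - 1) * 2 ^ (48 * m) := Nat.mul_le_mul_right _ (by omega)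
    have h4 : (2 ^ 48 - 1) * 2 ^ (48 * m) + 2 ^ (48 * m) = 2 ^ 48 * 2 ^ (48 * m) := by
      rw [Nat.sub_mul, one_mul]
      have : 2 ^ (48 * m) ≤ 2 ^ 48 * 2 ^ (48 * m) := Nat.le_mul_of_pos_left _ (by positivity)
      omega
    omega

lemma vec_testBit {f : ℕ → ℕ} {m : ℕ} (h : ∀ S < m, f S < 2 ^ 48) {S j : ℕ} (hS : S < m)
    (hj : j < 48) : (vec f m).testBit (48 * S + j) = (f S).testBit j := by
  induction m with
  | zero => omega
  | succ m ih =>
    have e1 : vec f (m + 1) = 2 ^ (48 * m) * f m + vec f m := by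
      show vec f m + f m * 2 ^ (48 * m) = _
      ring
    have hlt := vec_lt fun S hS => h S (Nat.lt_succ_of_lt hS)
    rw [e1, Nat.testBit_two_pow_mul_add _ hlt]
    rcases Nat.lt_or_ge S m with h1 | h1
    · rw [if_pos (by omega)]
      exact ih (fun S hS => h S (by omega)) h1
    · have h2 : S = m := by omega
      subst h2
      rw [if_neg (by omega)]
      congr 1
      omega

/-- **the lane test** -/
lemma test_lanes {f g : ℕ → ℕ} {m : ℕ} (hf : ∀ S < m, f S < 2 ^ 48) (hg : ∀ S < m, g S < 2 ^ 48)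
    (h : (vec f m &&& (vec f m >>> 28)) &&& vec g m = 0) {S : ℕ} (hS : S < m)
    (hgS : (g S).testBit 19 = true) : ¬ ((f S).testBit 19 = true ∧ (f S).testBit 47 = true) := by
  rintro ⟨h1, h2⟩
  have h3 : ((vec f m &&& (vec f m >>> 28)) &&& vec g m).testBit (48 * S + 19) = true := by
    rw [Nat.testBit_and, Nat.testBit_and, Nat.testBit_shiftRight,
      show 28 + (48 * S + 19) = 48 * S + 47 by ring, vec_testBit hf hS (by norm_num),
      vec_testBit hf hS (by norm_num), vec_testBit hg hS (by norm_num), h1, h2, hgS]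
    rfl
  rw [h] at h3
  simp at h3

/-- bit 19 of a sum of widths -/
lemma bit_lo {a b : ℕ} (ha : a < 2 ^ 20) (h : 2 ^ 19 ≤ a) : (a + b * 2 ^ 20).testBit 19 = true := by
  rw [show a + b * 2 ^ 20 = 2 ^ 20 * b + a by ring, Nat.testBit_two_pow_mul_add _ ha,
    if_pos (by norm_num)]
  have e : a = 2 ^ 19 * 1 + (a - 2 ^ 19) := by omega
  rw [e, Nat.testBit_two_pow_mul_add _ (by omega), if_neg (by norm_num)]
  simp

/-- bit 47 of a lane -/
lemma bit_hi {a b : ℕ} (ha : a < 2 ^ 20) (hb : b < 2 ^ 28) (h : 2 ^ 27 ≤ b) :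
    (a + b * 2 ^ 20).testBit 47 = true := by
  rw [show a + b * 2 ^ 20 = 2 ^ 20 * b + a by ring, Nat.testBit_two_pow_mul_add _ ha,
    if_neg (by norm_num), show 47 - 20 = 27 by norm_num]
  have e : b = 2 ^ 27 * 1 + (b - 2 ^ 27) := by omega
  rw [e, Nat.testBit_two_pow_mul_add _ (by omega), if_neg (by norm_num)]
  simp

/-! ## the recursion -/

/-- value by the largest element -/
def tf (w : ℕ → ℕ) : ℕ → ℕ → ℕ
  | 0, _ => 0
  | t + 1, S => if S < 2 ^ t then tf w t S else w t

/-- value by the smallest element -/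
def lf (w : ℕ → ℕ) : ℕ → ℕ → ℕ
  | 0, _ => 0
  | t + 1, S => if S < 2 ^ t then lf w t S else if S = 2 ^ t then w t else lf w t (S - 2 ^ t)

/-- sum along the increasing path through the set -/
def pf (w : ℕ → ℕ → ℕ) : ℕ → ℕ → ℕ
  | 0, _ => 0
  | k + 1, S => if S < 2 ^ k then pf w k S else
      pf w k (S - 2 ^ k) + tf (fun i => w i k) k (S - 2 ^ k)

/-- sum along the closed walk through the set -/
def cf (w : ℕ → ℕ → ℕ) : ℕ → ℕ → ℕ
  | 0, _ => 0
  | k + 1, S => if S < 2 ^ k then cf w k S else
      pf w k (S - 2 ^ k) + tf (fun i => w i k) k (S - 2 ^ k) + lf (fun i => w i k) k (S - 2 ^ k)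

/-- the constants: ones in the lanes `2^t, ..., 2^(t+1) - 1` -/
def V (t : ℕ) : ℕ := vec (fun _ => 1) (2 ^ t) * 2 ^ (48 * 2 ^ t)

/-- one row -/
def rowIJ : List ℕ → List ℕ → ℕ → ℕ → ℕ → ℕ × ℕ
  | w :: ws, c :: cs, s, I, J =>
      rowIJ ws cs (2 * s) (Nat.add I (Nat.mul w c)) (Nat.add J (Nat.shiftLeft (Nat.add J w) s))
  | _, _, _, I, J => (I, J)

/-- all rows -/
def allXY (cs : List ℕ) : List (List ℕ) → ℕ → ℕ → ℕ → ℕ
  | row :: rows, s, X, Y =>
      match rowIJ row cs 48 0 0 with
      | (I, J) => allXY cs rows (2 * s) (Nat.add X (Nat.shiftLeft (Nat.add X I) s))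
          (Nat.add Y (Nat.shiftLeft (Nat.add (Nat.add X I) J) s))
  | [], _, _, Y => Y

lemma tf_zero (w : ℕ → ℕ) (t : ℕ) : tf w t 0 = 0 := by
  induction t with
  | zero => rfl
  | succ t ih => unfold tf; rw [if_pos (by positivity), ih]

lemma lf_zero (w : ℕ → ℕ) (t : ℕ) : lf w t 0 = 0 := by
  induction t with
  | zero => rfl
  | succ t ih => unfold lf; rw [if_pos (by positivity), ih]

lemma step_I (w : ℕ → ℕ) (t : ℕ) : vec (tf w t) (2 ^ t) + w t * V t = vec (tf w (t + 1)) (2 ^ (t + 1)) := by
  unfold V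
  rw [← mul_assoc, vec_mul, vec_append, ← two_mul, ← pow_succ']
  refine vec_congr fun S hS => ?_
  show _ = if S < 2 ^ t then tf w t S else w t
  rw [mul_one]

lemma vec_single (f : ℕ → ℕ) {m : ℕ} (hm : 0 < m) (c : ℕ) :
    vec f m + c = vec (fun S => f S + if S = 0 then c else 0) m := by
  have : vec (fun S => if S = 0 then c else 0) m = c := by
    induction m with
    | zero => omega
    | succ m ih =>
      rcases Nat.eq_zero_or_pos m with h | h
      · subst h; simp [vec]
      · show vec (fun S => if S = 0 then c else 0) m + (if m = 0 then c else 0) * 2 ^ (48 * m) = c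
        rw [ih h, if_neg (by omega), zero_mul, add_zero]
  conv_lhs => rw [← this]
  rw [vec_add]

lemma step_J (w : ℕ → ℕ) (t : ℕ) : vec (lf w t) (2 ^ t) + (vec (lf w t) (2 ^ t) + w t) <<< (48 * 2 ^ t) =
    vec (lf w (t + 1)) (2 ^ (t + 1)) := by
  have h1 := vec_single (lf w t) (m := 2 ^ t) (by positivity) (w t)
  rw [h1, Nat.shiftLeft_eq, vec_append, ← two_mul, ← pow_succ']
  refine vec_congr fun S hS => ?_
  show _ = if S < 2 ^ t then lf w t S else if S = 2 ^ t then w t else lf w t (S - 2 ^ t)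
  rcases Nat.lt_or_ge S (2 ^ t) with h | h
  · rw [if_pos h, if_pos h]
  · have h3 : ¬ S < 2 ^ t := by omega
    rw [if_neg h3, if_neg h3]
    by_cases h2 : S = 2 ^ t
    · rw [if_pos h2, h2, Nat.sub_self, lf_zero, zero_add, if_pos rfl]
    · have h4 : S - 2 ^ t ≠ 0 := by omega
      rw [if_neg h2, if_neg h4, add_zero]

lemma rowIJ_eq (w : ℕ → ℕ) : ∀ (row cs : List ℕ) (t : ℕ), cs.length ≥ row.length →
    (∀ i < row.length, row.getD i 0 = w (t + i)) → (∀ i < row.length, cs.getD i 0 = V (t + i)) →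
    rowIJ row cs (48 * 2 ^ t) (vec (tf w t) (2 ^ t)) (vec (lf w t) (2 ^ t)) =
      (vec (tf w (t + row.length)) (2 ^ (t + row.length)),
        vec (lf w (t + row.length)) (2 ^ (t + row.length))) := by
  intro row
  induction row with
  | nil => intro cs t _ _ _; cases cs <;> rfl
  | cons a row ih =>
    intro cs t hl h1 h2
    cases cs with
    | nil => simp at hl
    | cons c cs =>
      have ha : a = w t := by have := h1 0 (by simp); simpa using this
      have hc : c = V t := by have := h2 0 (by simp); simpa using this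
      have e : rowIJ (a :: row) (c :: cs) (48 * 2 ^ t) (vec (tf w t) (2 ^ t)) (vec (lf w t) (2 ^ t)) =
        rowIJ row cs (2 * (48 * 2 ^ t)) (vec (tf w t) (2 ^ t) + a * c)
          (vec (lf w t) (2 ^ t) + (vec (lf w t) (2 ^ t) + a) <<< (48 * 2 ^ t)) := rfl
      rw [e, ha, hc, step_I, step_J, show 2 * (48 * 2 ^ t) = 48 * 2 ^ (t + 1) by ring]
      have := ih cs (t + 1) (by simpa using hl) (fun i hi => by
        have := h1 (i + 1) (by simpa using hi)
        rw [show t + 1 + i = t + (i + 1) by ring]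
        simpa using this) (fun i hi => by
        have := h2 (i + 1) (by simpa using hi)
        rw [show t + 1 + i = t + (i + 1) by ring]
        simpa using this)
      rw [this]
      simp only [List.length_cons, show t + 1 + row.length = t + (row.length + 1) by ring]

lemma step_X (w : ℕ → ℕ → ℕ) (k : ℕ) : vec (pf w k) (2 ^ k) +
    (vec (pf w k) (2 ^ k) + vec (tf (fun i => w i k) k) (2 ^ k)) <<< (48 * 2 ^ k) =
    vec (pf w (k + 1)) (2 ^ (k + 1)) := by
  rw [vec_add, Nat.shiftLeft_eq, vec_append, ← two_mul, ← pow_succ']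
  exact vec_congr fun S _ => rfl

lemma step_Y (w : ℕ → ℕ → ℕ) (k : ℕ) : vec (cf w k) (2 ^ k) +
    (vec (pf w k) (2 ^ k) + vec (tf (fun i => w i k) k) (2 ^ k) +
      vec (lf (fun i => w i k) k) (2 ^ k)) <<< (48 * 2 ^ k) = vec (cf w (k + 1)) (2 ^ (k + 1)) := by
  rw [vec_add, vec_add, Nat.shiftLeft_eq, vec_append, ← two_mul, ← pow_succ']
  exact vec_congr fun S _ => rfl

lemma allXY_eq (w : ℕ → ℕ → ℕ) {cs : List ℕ} : ∀ (rows : List (List ℕ)) (k : ℕ),
    cs.length + 1 ≥ k + rows.length →
    (∀ i < cs.length, cs.getD i 0 = V i) →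
    (∀ j < rows.length, (rows.getD j []).length = k + j) →
    (∀ j < rows.length, ∀ i < k + j, (rows.getD j []).getD i 0 = w i (k + j)) →
    allXY cs rows (48 * 2 ^ k) (vec (pf w k) (2 ^ k)) (vec (cf w k) (2 ^ k)) =
      vec (cf w (k + rows.length)) (2 ^ (k + rows.length)) := by
  intro rows
  induction rows with
  | nil => intro k _ _ _ _; rfl
  | cons row rows ih =>
    intro k hl hcs h1 h2
    have hlen : row.length = k := by have := h1 0 (by simp); simpa using this
    have hrow : ∀ i < k, row.getD i 0 = w i k := by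
      intro i hi
      have := h2 0 (by simp) i (by simpa using hi)
      simpa using this
    have hr := rowIJ_eq (fun i => w i k) row cs 0 (by
      rw [hlen]; simp only [List.length_cons] at hl; omega) (fun i hi => by
      rw [zero_add]; exact hrow i (by omega)) (fun i hi => by
      rw [zero_add]
      refine hcs i ?_
      simp only [List.length_cons] at hl
      omega)
    have e0 : vec (tf (fun i => w i k) 0) (2 ^ 0) = 0 := by simp [vec, tf]
    have e0' : vec (lf (fun i => w i k) 0) (2 ^ 0) = 0 := by simp [vec, lf]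
    rw [e0, e0', zero_add, hlen] at hr
    have e : allXY cs (row :: rows) (48 * 2 ^ k) (vec (pf w k) (2 ^ k)) (vec (cf w k) (2 ^ k)) =
      allXY cs rows (2 * (48 * 2 ^ k))
        (vec (pf w k) (2 ^ k) + (vec (pf w k) (2 ^ k) + (rowIJ row cs 48 0 0).1) <<< (48 * 2 ^ k))
        (vec (cf w k) (2 ^ k) + (vec (pf w k) (2 ^ k) + (rowIJ row cs 48 0 0).1 +
          (rowIJ row cs 48 0 0).2) <<< (48 * 2 ^ k)) := rfl
    have hr' : rowIJ row cs 48 0 0 = (vec (tf (fun i => w i k) k) (2 ^ k),
        vec (lf (fun i => w i k) k) (2 ^ k)) := by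
      have e48 : 48 * 2 ^ 0 = 48 := by norm_num
      rw [e48] at hr
      exact hr
    rw [e, hr']
    simp only
    rw [step_X, step_Y, show 2 * (48 * 2 ^ k) = 48 * 2 ^ (k + 1) by ring]
    have := ih (k + 1) (by simp only [List.length_cons] at hl; omega) hcs (fun j hj => by
      have := h1 (j + 1) (by simpa using hj)
      rw [show k + 1 + j = k + (j + 1) by ring]
      simpa using this) (fun j hj i hi => by
      have := h2 (j + 1) (by simpa using hj) i (by omega)
      rw [show k + 1 + j = k + (j + 1) by ring]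
      simpa using this)
    rw [this]
    simp only [List.length_cons, show k + 1 + rows.length = k + (rows.length + 1) by ring]

end Pool.Agent.Helper66.Kiss.Pk
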