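import Pool.Agent.Helper66.Kiss.Lift

set_option autoImplicit false

/-! # Normal form of closed walks; walks through a potential -/

namespace Pool.Agent.Helper66.Kiss

open Real Set Filter Topology

variable {n : ℕ}

/-- one step of rotation -/
def rot1 (n : ℕ) (v : ℕ → ℕ) (r : ℕ) (k : ℕ) : ℕ := if k < r then v (k + 1) else v 1 + n

lemma rot1_lt {v : ℕ → ℕ} {r k : ℕ} (h : k < r) : rot1 n v r k = v (k + 1) := if_pos h

lemma rot1_last {v : ℕ → ℕ} {r : ℕ} : rot1 n v r r = v 1 + n := if_neg (lt_irrefl _)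

lemma rot1_walk {v : ℕ → ℕ} {r : ℕ} (hr : 0 < r) (hv : IsWalk n v r) (he : v r = v 0 + n) :
    IsWalk n (rot1 n v r) r ∧ rot1 n v r r = rot1 n v r 0 + n := by
  refine ⟨fun k hk => ?_, by rw [rot1_last, rot1_lt hr]⟩
  rw [rot1_lt hk]
  rcases Nat.lt_or_ge (k + 1) r with h | h
  · rw [rot1_lt h]; exact hv _ h
  · have : k + 1 = r := by omega
    rw [this, rot1_last, he]
    have := hv 0 hr
    rw [zero_add] at this
    omega

lemma rot1_sum (hn : 0 < n) {v : ℕ → ℕ} {r : ℕ} (hr : 0 < r) (he : v r = v 0 + n)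
    (f : Fin n → Fin n → ℝ) :
    ∑ k ∈ Finset.range r, f (clN n hn (rot1 n v r k)) (clN n hn (rot1 n v r (k + 1))) =
      ∑ k ∈ Finset.range r, f (clN n hn (v k)) (clN n hn (v (k + 1))) := by
  obtain ⟨q, rfl⟩ : ∃ q, r = q + 1 := ⟨r - 1, by omega⟩
  rw [Finset.sum_range_succ, Finset.sum_range_succ']
  congr 1
  · refine Finset.sum_congr rfl fun k hk => ?_
    have := Finset.mem_range.1 hk
    rw [rot1_lt (by omega), rot1_lt (by omega)]
  · rw [rot1_lt (by omega), rot1_last, he, clN_add, clN_add]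

lemma rot1_all (hn : 0 < n) {v : ℕ → ℕ} {r : ℕ} (he : v r = v 0 + n)
    {Q : Fin n → Fin n → Prop} (h : ∀ k < r, Q (clN n hn (v k)) (clN n hn (v (k + 1)))) :
    ∀ k < r, Q (clN n hn (rot1 n v r k)) (clN n hn (rot1 n v r (k + 1))) := by
  intro k hk
  rw [rot1_lt hk]
  rcases Nat.lt_or_ge (k + 1) r with h1 | h1
  · rw [rot1_lt h1]; exact h _ h1
  · have h2 : k + 1 = r := by omega
    rw [h2, rot1_last, he, clN_add, clN_add]
    exact h 0 (by omega)

/-- **normal form of a closed walk**: start at the smallest node -/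
theorem walk_normal (hn : 0 < n) {v : ℕ → ℕ} {r : ℕ} (hr : 0 < r) (hv : IsWalk n v r)
    (he : v r = v 0 + n) : ∃ u : ℕ → ℕ, IsWalk n u r ∧ u r = u 0 + n ∧ (∀ k < r, u k < n) ∧
      (∀ f : Fin n → Fin n → ℝ,
        ∑ k ∈ Finset.range r, f (clN n hn (u k)) (clN n hn (u (k + 1))) =
          ∑ k ∈ Finset.range r, f (clN n hn (v k)) (clN n hn (v (k + 1)))) ∧
      (∀ Q : Fin n → Fin n → Prop, (∀ k < r, Q (clN n hn (v k)) (clN n hn (v (k + 1)))) →
        ∀ k < r, Q (clN n hn (u k)) (clN n hn (u (k + 1)))) := by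
  -- rotation until the start is at least `N`
  have key : ∀ (m : ℕ) (N : ℕ) (v : ℕ → ℕ), IsWalk n v r → v r = v 0 + n → N ≤ v 0 + n →
      (∀ k < r, v k < N + n) → N - v 0 ≤ m → ∃ u : ℕ → ℕ, IsWalk n u r ∧ u r = u 0 + n ∧
      N ≤ u 0 ∧ (∀ k < r, u k < N + n) ∧
      (∀ f : Fin n → Fin n → ℝ,
        ∑ k ∈ Finset.range r, f (clN n hn (u k)) (clN n hn (u (k + 1))) =
          ∑ k ∈ Finset.range r, f (clN n hn (v k)) (clN n hn (v (k + 1)))) ∧
      (∀ Q : Fin n → Fin n → Prop, (∀ k < r, Q (clN n hn (v k)) (clN n hn (v (k + 1)))) →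
        ∀ k < r, Q (clN n hn (u k)) (clN n hn (u (k + 1)))) := by
    intro m
    induction m with
    | zero =>
      intro N v hv he _ h2 h3
      exact ⟨v, hv, he, by omega, h2, fun _ => rfl, fun _ h => h⟩
    | succ m ih =>
      intro N v hv he h1 h2 h3
      rcases Nat.lt_or_ge (v 0) N with h4 | h4
      swap
      · exact ⟨v, hv, he, h4, h2, fun _ => rfl, fun _ h => h⟩
      obtain ⟨a1, a2⟩ := rot1_walk hr hv he
      have hstep := hv 0 hr
      rw [zero_add] at hstep
      obtain ⟨u, b1, b2, b3, b4, b5, b6⟩ := ih N (rot1 n v r) a1 a2 (by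
        rw [rot1_lt hr, zero_add]; omega) (by
        intro k hk
        rw [rot1_lt hk]
        rcases Nat.lt_or_ge (k + 1) r with h | h
        · exact h2 _ h
        · have : k + 1 = r := by omega
          rw [this, he]; omega) (by
        rw [rot1_lt hr, zero_add]; omega)
      refine ⟨u, b1, b2, b3, b4, fun f => ?_, fun Q hQ => b6 Q (rot1_all hn he hQ)⟩
      rw [b5, rot1_sum hn hr he]
  set N := n * (v 0 / n + 1) with hN
  have hN1 : v 0 < N := by
    rw [hN, Nat.mul_add, mul_one]
    have := Nat.div_add_mod (v 0) n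
    have := Nat.mod_lt (v 0) hn
    omega
  have hN2 : N ≤ v 0 + n := by
    rw [hN, Nat.mul_add, mul_one]
    have := Nat.div_add_mod (v 0) n
    omega
  have hlt : ∀ k ≤ r, v k ≤ v 0 + n := by
    have hmono : ∀ k ≤ r, ∀ j ≤ k, v j ≤ v k := by
      intro k
      induction k with
      | zero => intro _ j hj; have : j = 0 := by omega
                rw [this]
      | succ k ih =>
        intro hk j hj
        rcases Nat.lt_or_ge j (k + 1) with h | h
        · have := ih (by omega) j (by omega)
          have := (hv k (by omega)).1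
          omega
        · have : j = k + 1 := by omega
          rw [this]
    intro k hk
    rw [← he]
    exact hmono r le_rfl k hk
  obtain ⟨u, b1, b2, b3, b4, b5, b6⟩ := key (N - v 0) N v hv he hN2 (by
    intro k hk
    have := hlt k hk.le
    omega) le_rfl
  have hge : ∀ k ≤ r, N ≤ u k := by
    intro k
    induction k with
    | zero => intro _; exact b3
    | succ k ih => intro hk; have := ih (by omega); have := (b1 k (by omega)).1; omega
  have hcl : ∀ k ≤ r, clN n hn (u k - N) = clN n hn (u k) := by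
    intro k hk
    have h1 := clN_add_mul hn (u k - N) (v 0 / n + 1)
    rw [← hN, Nat.sub_add_cancel (hge k hk)] at h1
    exact h1.symm
  refine ⟨fun k => u k - N, ?_, ?_, ?_, ?_, ?_⟩
  · intro k hk
    have h1 := hge k (by omega)
    have h2 := hge (k + 1) (by omega)
    have := b1 k hk
    simp only
    omega
  · simp only
    have := hge 0 (by omega)
    omega
  · intro k hk
    have := b4 k hk
    have := hge k hk.le
    simp only
    omega
  · intro f
    rw [← b5 f]
    refine Finset.sum_congr rfl fun k hk => ?_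
    have := Finset.mem_range.1 hk
    simp only [hcl k (by omega), hcl (k + 1) (by omega)]
  · intro Q hQ k hk
    simp only [hcl k (by omega), hcl (k + 1) (by omega)]
    exact b6 Q hQ k hk

/-- lift of a potential with period `T` -/
noncomputable def lftT (n : ℕ) (hn : 0 < n) (ψ : Fin n → ℝ) (T : ℝ) (a : ℕ) : ℝ :=
  ψ (clN n hn a) + T * (a / n : ℕ)

/-- **potentials bound closed walks** -/
theorem pot_walk (hn : 0 < n) {w : Fin n → Fin n → ℝ} {ψ : Fin n → ℝ} {T : ℝ}
    {L : Fin n → Fin n → Prop} (h1 : ∀ i j, i < j → L i j → w i j ≤ ψ j - ψ i)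
    (h2 : ∀ i j, i < j → L j i → w j i ≤ ψ i - ψ j + T) {v : ℕ → ℕ} {r : ℕ} (hv : IsWalk n v r)
    (he : v r = v 0 + n) (hL : ∀ k < r, L (clN n hn (v k)) (clN n hn (v (k + 1)))) :
    ∑ k ∈ Finset.range r, w (clN n hn (v k)) (clN n hn (v (k + 1))) ≤ T := by
  have hstep : ∀ k < r, w (clN n hn (v k)) (clN n hn (v (k + 1))) ≤
      lftT n hn ψ T (v (k + 1)) - lftT n hn ψ T (v k) := by
    intro k hk
    obtain ⟨a1, a2⟩ := hv k hk
    have q1 := Nat.div_add_mod (v k) n
    have q2 := Nat.div_add_mod (v (k + 1)) n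
    have q3 := Nat.mod_lt (v k) hn
    have q4 := Nat.mod_lt (v (k + 1)) hn
    have hd1 : v k / n ≤ v (k + 1) / n := Nat.div_le_div_right a1.le
    have hd2 : v (k + 1) / n ≤ v k / n + 1 := by
      have := Nat.div_le_div_right (c := n) a2.le
      rwa [Nat.add_div_right _ hn] at this
    unfold lftT
    rcases Nat.lt_or_ge (v k / n) (v (k + 1) / n) with h | h
    · have h3 : v (k + 1) / n = v k / n + 1 := by omega
      have hlt : clN n hn (v (k + 1)) < clN n hn (v k) := by
        show v (k + 1) % n < v k % n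
        rw [h3] at q2
        have : n * (v k / n + 1) = n * (v k / n) + n := by ring
        omega
      have := h2 _ _ hlt (hL k hk)
      rw [h3]
      push_cast
      linarith
    · have h3 : v (k + 1) / n = v k / n := by omega
      have hlt : clN n hn (v k) < clN n hn (v (k + 1)) := by
        show v k % n < v (k + 1) % n
        rw [h3] at q2
        omega
      have := h1 _ _ hlt (hL k hk)
      rw [h3]
      linarith
  have hsum := Finset.sum_le_sum fun k hk => hstep k (Finset.mem_range.1 hk)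
  rw [Finset.sum_range_sub (fun k => lftT n hn ψ T (v k))] at hsum
  refine hsum.trans ?_
  unfold lftT
  rw [he, clN_add, Nat.add_div_right _ hn]
  push_cast
  linarith

end Pool.Agent.Helper66.Kiss
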