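import Pool.Agent.Helper66.Kiss.PoleD
import Pool.Agent.Helper66.Kiss.PGc
import Pool.Agent.Helper66.Kiss.WalkNF

set_option autoImplicit false

/-! # The south pole with a moving point: lifting -/

namespace Pool.Agent.Helper66.Kiss

open Real Set Filter Topology

/-! ## walks with eleven nodes and walks with ten nodes -/

/-- the index of a node among the ten other nodes -/
def dm (s : Fin 11) (a : ℕ) : ℕ := 10 * (a / 11) + (if a % 11 < s.val then a % 11 else a % 11 - 1)

lemma dm_add (s : Fin 11) (a : ℕ) : dm s (a + 11) = dm s a + 10 := by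
  unfold dm
  have h1 : (a + 11) / 11 = a / 11 + 1 := by omega
  have h2 : (a + 11) % 11 = a % 11 := by omega
  rw [h1, h2]; ring

lemma dm_lt (s : Fin 11) {a b : ℕ} (h : a < b) (ha : a % 11 ≠ s.val) (hb : b % 11 ≠ s.val) :
    dm s a < dm s b := by
  unfold dm
  have h1 := Nat.mod_lt a (show 0 < 11 by norm_num)
  have h2 := Nat.mod_lt b (show 0 < 11 by norm_num)
  have h3 := Nat.div_add_mod a 11
  have h4 := Nat.div_add_mod b 11
  have hs := s.isLt
  split_ifs <;> omega

lemma clN_dm (s : Fin 11) {a : ℕ} (ha : a % 11 ≠ s.val) :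
    s.succAbove (clN 10 (by norm_num) (dm s a)) = clN 11 (by norm_num) a := by
  have h1 := Nat.mod_lt a (show 0 < 11 by norm_num)
  have hs := s.isLt
  ext
  unfold clN dm
  simp only
  by_cases h : a % 11 < s.val
  · rw [if_pos h]
    have e : (10 * (a / 11) + a % 11) % 10 = a % 11 := by omega
    rw [Fin.succAbove_of_castSucc_lt]
    · simp only [Fin.val_castSucc]; omega
    · rw [Fin.lt_def]; simp only [Fin.val_castSucc]; omega
  · rw [if_neg h]
    have e : (10 * (a / 11) + (a % 11 - 1)) % 10 = a % 11 - 1 := by omega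
    rw [Fin.succAbove_of_le_castSucc]
    · simp only [Fin.val_succ]; omega
    · rw [Fin.le_iff_val_le_val]; simp only [Fin.val_castSucc]; omega

/-- the hop from `a` to `b + 10` passes the node `s` -/
def Psd (s : Fin 11) (a b : ℕ) : Prop := ∃ q, a < 10 * q + s.val ∧ 10 * q + s.val ≤ b + 10

lemma psd_of (s : Fin 11) {u0 a b : ℕ} (h0 : u0 % 11 = s.val) (ha1 : u0 < a) (ha : a < u0 + 11)
    (hb : u0 < b) : Psd s (dm s a) (dm s b) := by
  have hs := s.isLt
  refine ⟨u0 / 11 + 1, ?_, ?_⟩
  · unfold dm
    split_ifs <;> omega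
  · unfold dm
    split_ifs <;> omega

/-- hops passing the first node -/
lemma psd_zero {v : ℕ → ℕ} {m : ℕ} (hv : v 0 < v m) (h : Psd 0 (v m) (v 0)) :
    (clN 10 (by norm_num) (v 0)).val < (clN 10 (by norm_num) (v m)).val := by
  obtain ⟨q, h1, h2⟩ := h
  unfold clN
  simp only [Fin.val_zero, add_zero] at h1 h2 ⊢
  omega

lemma clN_ne_iff (s : Fin 11) (a : ℕ) : clN 11 (by norm_num) a ≠ s ↔ a % 11 ≠ s.val := by
  unfold clN
  rw [Ne, Fin.ext_iff]

lemma isWalk_ge {n : ℕ} {v : ℕ → ℕ} {r : ℕ} (hv : IsWalk n v r) : ∀ k ≤ r, v 0 + k ≤ v k := by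
  intro k
  induction k with
  | zero => intro _; simp
  | succ k ih => intro hk; have := ih (by omega); have := (hv k (by omega)).1; omega

/-- rotation of a closed walk -/
lemma walk_rot {n : ℕ} (hn : 0 < n) : ∀ (k0 : ℕ) {v : ℕ → ℕ} {r : ℕ}, k0 < r → IsWalk n v r →
    v r = v 0 + n → ∃ u : ℕ → ℕ, IsWalk n u r ∧ u r = u 0 + n ∧ u 0 = v k0 ∧
      (∀ f : Fin n → Fin n → ℝ,
        ∑ k ∈ Finset.range r, f (clN n hn (u k)) (clN n hn (u (k + 1))) =
          ∑ k ∈ Finset.range r, f (clN n hn (v k)) (clN n hn (v (k + 1)))) ∧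
      (∀ Q : Fin n → Fin n → Prop, (∀ k < r, Q (clN n hn (v k)) (clN n hn (v (k + 1)))) →
        ∀ k < r, Q (clN n hn (u k)) (clN n hn (u (k + 1)))) := by
  intro k0
  induction k0 with
  | zero => intro v r _ hv he; exact ⟨v, hv, he, rfl, fun _ => rfl, fun _ h => h⟩
  | succ k0 ih =>
    intro v r hk hv he
    have hr : 0 < r := by omega
    obtain ⟨a1, a2⟩ := rot1_walk hr hv he
    obtain ⟨u, b1, b2, b3, b4, b5⟩ := ih (v := rot1 n v r) (r := r) (by omega) a1 a2
    refine ⟨u, b1, b2, ?_, fun f => ?_, fun Q hQ => b5 Q (rot1_all hn he hQ)⟩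
    · rw [b3, rot1_lt (by omega)]
    · rw [b4, rot1_sum hn hr he]

section

variable {w : Fin 10 → ℝ} {f : Fin 10 → ℝ → ℝ → ℝ} {lo hi : Fin 10 → ℝ} {κ : ℝ}
  {mov : Fin 10 → Prop}

/-- the law for eleven heights -/
noncomputable def FF (κ : ℝ) (f : Fin 10 → ℝ → ℝ → ℝ) (s : Fin 11) (y : Fin 11 → ℝ) (t : ℝ) :
    Fin 11 → ℝ := insS s (sF κ (y s) t) (lawF f (fun l => y (s.succAbove l)) t)

lemma FF_same (s : Fin 11) (y : Fin 11 → ℝ) (t : ℝ) : FF κ f s y t s = sF κ (y s) t :=
  insS_same _ _ _

lemma FF_succ (s : Fin 11) (y : Fin 11 → ℝ) (t : ℝ) (l : Fin 10) :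
    FF κ f s y t (s.succAbove l) = f l (y (s.succAbove l)) t := insS_succ _ _ _ _

/-- kept pairs -/
def KS (w lo hi : Fin 10 → ℝ) (s i j : Fin 11) : Prop :=
  ∃ l l' : Fin 10, i = s.succAbove l ∧ j = s.succAbove l' ∧ KP w lo hi (fun _ => False) l l'

lemma KS_iff {s : Fin 11} {l l' : Fin 10} : KS w lo hi s (s.succAbove l) (s.succAbove l') ↔
    KP w lo hi (fun _ => False) l l' := by
  constructor
  · rintro ⟨a, b, h1, h2, h3⟩
    rwa [Fin.succAbove_right_injective h1, Fin.succAbove_right_injective h2]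
  · intro h; exact ⟨l, l', rfl, rfl, h⟩

lemma KS_left {s j : Fin 11} : ¬ KS w lo hi s s j := by
  rintro ⟨l, l', h1, -, -⟩
  exact Fin.succAbove_ne s l h1.symm

lemma KS_right {s i : Fin 11} : ¬ KS w lo hi s i s := by
  rintro ⟨l, l', -, h1, -⟩
  exact Fin.succAbove_ne s l' h1.symm

/-- the walk condition for eleven heights from the conditions for ten heights -/
lemma walks_of_ten {s : Fin 11} {x x' : Fin 11 → ℝ} 
    (hA : ∀ (v : ℕ → ℕ) (r : ℕ), r ≤ 10 → IsWalk 10 v r → v r = v 0 + 10 →
      NFW (by norm_num) (KP w lo hi (fun _ => False)) (fun l => x' (s.succAbove l)) v r →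
      twn (fun l => x (s.succAbove l)) (fun k => clN 10 (by norm_num) (v k)) r ≤ 2 * π →
      twn (fun l => x' (s.succAbove l)) (fun k => clN 10 (by norm_num) (v k)) r ≤ 2 * π)
    (hB : ∀ (v : ℕ → ℕ) (m : ℕ), 1 ≤ m → m + 1 ≤ 10 → IsWalk 10 v (m + 1) →
      v (m + 1) = v 0 + 10 → Psd s (v m) (v 0) →
      (∀ k < m, ¬ (¬ KP w lo hi (fun _ => False) (clN 10 (by norm_num) (v k))
        (clN 10 (by norm_num) (v (k + 1))) ∧
        1 ≤ RR (x' (s.succAbove (clN 10 (by norm_num) (v k))))
          (x' (s.succAbove (clN 10 (by norm_num) (v (k + 1))))))) →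
      RR (x' s) (x' (s.succAbove (clN 10 (by norm_num) (v 0)))) < 1 →
      RR (x' s) (x' (s.succAbove (clN 10 (by norm_num) (v m)))) < 1 →
      wd (x s) (x (s.succAbove (clN 10 (by norm_num) (v 0)))) +
        wd (x s) (x (s.succAbove (clN 10 (by norm_num) (v m)))) +
        twn (fun l => x (s.succAbove l)) (fun k => clN 10 (by norm_num) (v k)) m ≤ 2 * π →
      wd (x' s) (x' (s.succAbove (clN 10 (by norm_num) (v 0)))) +
        wd (x' s) (x' (s.succAbove (clN 10 (by norm_num) (v m)))) +
        twn (fun l => x' (s.succAbove l)) (fun k => clN 10 (by norm_num) (v k)) m ≤ 2 * π)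
    {v : ℕ → ℕ} {r : ℕ} (hv : IsWalk 11 v r) (he : v r = v 0 + 11)
    (hnf : NFW (by norm_num) (KS w lo hi s) x' v r)
    (ht : twn x (fun k => clN 11 (by norm_num) (v k)) r ≤ 2 * π) :
    twn x' (fun k => clN 11 (by norm_num) (v k)) r ≤ 2 * π := by
  have hpi := Real.pi_pos
  have hrpos : 0 < r := by
    rcases Nat.eq_zero_or_pos r with h | h
    · rw [h] at he; omega
    · exact h
  by_cases hs : ∀ k < r, v k % 11 ≠ s.val
  · -- the walk avoids the moving point
    have hs' : ∀ k ≤ r, v k % 11 ≠ s.val := by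
      intro k hk
      rcases Nat.lt_or_ge k r with h | h
      · exact hs k h
      · have : k = r := by omega
        rw [this, he, Nat.add_mod_right]
        exact hs 0 hrpos
    have hw : IsWalk 10 (fun k => dm s (v k)) r := by
      intro k hk
      obtain ⟨a1, a2⟩ := hv k hk
      refine ⟨dm_lt s a1 (hs' k hk.le) (hs' _ hk), ?_⟩
      have := dm_lt s a2 (hs' _ hk) (by rw [Nat.add_mod_right]; exact hs' k hk.le)
      rwa [dm_add] at this
    have he' : dm s (v r) = dm s (v 0) + 10 := by rw [he, dm_add]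
    have hr10 : r ≤ 10 := by
      have := isWalk_ge hw r le_rfl
      omega
    have hcl : ∀ k ≤ r, s.succAbove (clN 10 (by norm_num) (dm s (v k))) =
        clN 11 (by norm_num) (v k) := fun k hk => clN_dm s (hs' k hk)
    have htw : ∀ u : Fin 11 → ℝ, twn (fun l => u (s.succAbove l))
        (fun k => clN 10 (by norm_num) (dm s (v k))) r =
        twn u (fun k => clN 11 (by norm_num) (v k)) r := by
      intro u
      unfold twn
      refine Finset.sum_congr rfl fun k hk => ?_
      have := Finset.mem_range.1 hk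
      simp only [hcl k (by omega), hcl (k + 1) (by omega)]
    rw [← htw]
    refine hA (fun k => dm s (v k)) r hr10 hw he' ?_ (by rw [htw]; exact ht)
    intro k hk ⟨h1, h2⟩
    refine hnf k hk ⟨?_, ?_⟩
    · rw [← hcl k hk.le, ← hcl (k + 1) hk, KS_iff]; exact h1
    · rw [← hcl k hk.le, ← hcl (k + 1) hk]; exact h2
  · push Not at hs
    obtain ⟨k0, hk0, hs0⟩ := hs
    obtain ⟨u, b1, b2, b3, b4, b5⟩ := walk_rot (n := 11) (by norm_num) k0 hk0 hv he
    have hu : ∀ z : Fin 11 → ℝ, twn z (fun k => clN 11 (by norm_num) (v k)) r =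
        twn z (fun k => clN 11 (by norm_num) (u k)) r := by
      intro z
      unfold twn
      exact (b4 fun i j => wd (z i) (z j)).symm
    rw [hu] at ht ⊢
    have hnf' : NFW (by norm_num) (KS w lo hi s) x' u r := b5 (fun i j =>
      ¬ (¬ KS w lo hi s i j ∧ 1 ≤ RR (x' i) (x' j))) hnf
    have hu0 : u 0 % 11 = s.val := by rw [b3]; exact hs0
    have c0 : clN 11 (by norm_num) (u 0) = s := by unfold clN; ext; exact hu0
    have cr : clN 11 (by norm_num) (u r) = s := by rw [b2, clN_add]; exact c0
    -- the inner nodes avoid the moving point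
    have hmono : ∀ k j, k ≤ j → j ≤ r → u k ≤ u j := by
      intro k j hkj
      induction j with
      | zero => intro _; rw [Nat.le_zero.1 hkj]
      | succ j ih =>
        intro hj
        rcases Nat.lt_or_ge k (j + 1) with h | h
        · have := ih (by omega) (by omega)
          have := (b1 j (by omega)).1
          omega
        · have : k = j + 1 := by omega
          rw [this]
    have hin : ∀ k, 0 < k → k < r → u k % 11 ≠ s.val := by
      intro k h1 h2 h3
      have g1 := isWalk_ge b1 k h2.le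
      have g2 := (b1 k h2).1
      have g3 := hmono (k + 1) r (by omega) le_rfl
      rw [b2] at g3
      omega
    have hr2 : r ≠ 1 := by
      intro h
      have := (b1 0 (by omega)).2
      rw [h] at b2
      simp only [zero_add] at this
      omega
    obtain ⟨q, rfl⟩ : ∃ q, r = q + 2 := ⟨r - 2, by omega⟩
    -- splitting off the two edges at the moving point
    have hsplit : ∀ z : Fin 11 → ℝ, twn z (fun k => clN 11 (by norm_num) (u k)) (q + 2) =
        wd (z s) (z (clN 11 (by norm_num) (u 1))) + wd (z s) (z (clN 11 (by norm_num) (u (q + 1)))) +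
        twn z (fun k => clN 11 (by norm_num) (u (k + 1))) q := by
      intro z
      unfold twn
      rw [Finset.sum_range_succ, Finset.sum_range_succ']
      simp only [show q + 1 + 1 = q + 2 from rfl, cr, c0, zero_add]
      rw [wd_comm (z (clN 11 (by norm_num) (u (q + 1)))) (z s)]
      ring
    rcases Nat.eq_zero_or_pos q with hq | hq
    · subst hq
      rw [hsplit]
      unfold twn
      rw [Finset.sum_range_zero, zero_add]
      have h1 : ∀ a b, wd a b ≤ π := fun a b => Real.arccos_le_pi _
      linarith [h1 (x' s) (x' (clN 11 (by norm_num) (u 1)))]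
    -- the ten-point walk
    set g : ℕ → ℕ := fun k => if k ≤ q then dm s (u (k + 1)) else dm s (u 1) + 10 with hg
    have g_le : ∀ k, k ≤ q → g k = dm s (u (k + 1)) := fun k hk => if_pos hk
    have g_last : g (q + 1) = dm s (u 1) + 10 := if_neg (by omega)
    have hin1 : ∀ k, k ≤ q → u (k + 1) % 11 ≠ s.val := fun k hk => hin (k + 1) (by omega) (by omega)
    have hgw : IsWalk 10 g (q + 1) := by
      intro k hk
      rcases Nat.lt_or_ge k q with h | h
      · rw [g_le k h.le, g_le (k + 1) h]
        obtain ⟨a1, a2⟩ := b1 (k + 1) (by omega)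
        refine ⟨dm_lt s a1 (hin1 k h.le) (hin1 _ h), ?_⟩
        have := dm_lt s a2 (hin1 _ h) (by rw [Nat.add_mod_right]; exact hin1 k h.le)
        rwa [dm_add] at this
      · have hkq : k = q := by omega
        rw [hkq, g_le q le_rfl, g_last]
        constructor
        · have h1 : u (q + 1) < u 1 + 11 := by
            have g1 := (b1 (q + 1) (by omega)).1
            have g2 := (b1 0 (by omega)).1
            rw [show q + 1 + 1 = q + 2 by ring, b2] at g1
            rw [zero_add] at g2
            omega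
          have := dm_lt s h1 (hin1 q le_rfl) (by
            rw [Nat.add_mod_right]; exact hin1 0 (by omega))
          rwa [dm_add] at this
        · have h1 : u 1 < u (q + 1) := by
            have g1 := hmono 2 (q + 1) (by omega) (by omega)
            have g2 : u 1 < u 2 := (b1 1 (by omega)).1
            omega
          have := dm_lt s h1 (hin1 0 (by omega)) (hin1 q le_rfl)
          omega
    have hge : g (q + 1) = g 0 + 10 := by rw [g_last, g_le 0 (by omega)]
    have hq10 : q + 1 ≤ 10 := by
      have := isWalk_ge hgw (q + 1) le_rfl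
      omega
    have hcl : ∀ k ≤ q, s.succAbove (clN 10 (by norm_num) (g k)) =
        clN 11 (by norm_num) (u (k + 1)) := by
      intro k hk
      rw [g_le k hk]
      exact clN_dm s (hin1 k hk)
    have htw : ∀ z : Fin 11 → ℝ, twn (fun l => z (s.succAbove l))
        (fun k => clN 10 (by norm_num) (g k)) q =
        twn z (fun k => clN 11 (by norm_num) (u (k + 1))) q := by
      intro z
      unfold twn
      refine Finset.sum_congr rfl fun k hk => ?_
      have := Finset.mem_range.1 hk
      simp only [hcl k (by omega), hcl (k + 1) (by omega)]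
    rw [hsplit, ← htw] at ht ⊢
    have e1 : clN 11 (by norm_num) (u 1) = s.succAbove (clN 10 (by norm_num) (g 0)) :=
      (hcl 0 (by omega)).symm
    have e2 : clN 11 (by norm_num) (u (q + 1)) = s.succAbove (clN 10 (by norm_num) (g q)) :=
      (hcl q le_rfl).symm
    rw [e1, e2] at ht ⊢
    have hpsd : Psd s (g q) (g 0) := by
      rw [g_le q le_rfl, g_le 0 (by omega)]
      refine psd_of s hu0 ?_ ?_ (b1 0 (by omega)).1
      · have := hmono 1 (q + 1) (by omega) (by omega)
        have := (b1 0 (by omega)).1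
        simp only [zero_add] at this
        omega
      · have := (b1 (q + 1) (by omega)).1
        rw [show q + 1 + 1 = q + 2 by ring, b2] at this
        exact this
    refine hB g q hq hq10 hgw hge hpsd ?_ ?_ ?_ ht
    · intro k hk ⟨h1, h2⟩
      refine hnf' (k + 1) (by omega) ⟨?_, ?_⟩
      · rw [← hcl k hk.le, ← hcl (k + 1) hk, KS_iff]; exact h1
      · rw [← hcl k hk.le, ← hcl (k + 1) hk]; exact h2
    · have := hnf' 0 (by omega)
      rw [c0, zero_add, e1] at this
      by_contra hcon
      push Not at hcon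
      exact this ⟨KS_left, hcon⟩
    · have := hnf' (q + 1) (by omega)
      rw [show q + 1 + 1 = q + 2 by ring, cr, e2] at this
      by_contra hcon
      push Not at hcon
      exact this ⟨KS_right, by rw [RR_comm]; exact hcon⟩

end

end Pool.Agent.Helper66.Kiss
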