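import Pool.Agent.Helper66.Kiss.HLaw
import Pool.Agent.Helper66.Kiss.PoleF
import Pool.Agent.Helper66.Kiss.Packed

set_option autoImplicit false

/-! # Direction leaves: the theorem -/

namespace Pool.Agent.Helper66.Kiss

open Real Set Filter Topology Pk

section

variable {z : Fin 11 → ℝ} {s : Fin 11} {V W : Fin 10 → ℝ} {κ ρ : ℝ} {D R : ℕ → ℕ → ℕ}

lemma VW_ins (h : ∀ l, VW (V l) (W l)) (κ : ℝ) (k : Fin 11) :
    VW (insS s (-κ) V k) (insS s (-κ) W k) := by
  by_cases hk : k = s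
  · subst hk; rw [insS_same, insS_same]; exact Or.inl rfl
  · obtain ⟨l, rfl⟩ := Fin.exists_succAbove_eq hk
    rw [insS_succ, insS_succ]; exact h l

/-- the law with the moving point, for admissible heights -/
lemma FF_eq_hF (hκ : 0 ≤ κ) {y : Fin 11 → ℝ} (hy : ∀ k, -1 ≤ y k ∧ y k ≤ 1 / 2) {t : ℝ}
    (ht : 0 ≤ t) : FF κ (fun l => hf (V l) (W l)) s y t = hF (insS s (-κ) V) (insS s (-κ) W) y t := by
  funext k
  by_cases hk : k = s
  · subst hk
    rw [FF_same]
    show _ = hf (insS k (-κ) V k) (insS k (-κ) W k) (y k) t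
    rw [insS_same, insS_same, hf_plain, min_eq_left]
    · unfold sF; ring
    · have h1 : 0 ≤ 1 - y k ^ 2 := by nlinarith [(hy k).1, (hy k).2]
      have h2 := mul_nonneg ht (mul_nonneg hκ h1)
      have h3 : y k ≤ max (y k) (1 / 2) := le_max_left _ _
      nlinarith
  · obtain ⟨l, rfl⟩ := Fin.exists_succAbove_eq hk
    rw [FF_succ]
    show _ = hf (insS s (-κ) V (s.succAbove l)) (insS s (-κ) W (s.succAbove l)) _ t
    rw [insS_succ, insS_succ]

end

end Pool.Agent.Helper66.Kiss
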