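import Pool.Agent.Helper66.Kiss.PackTest

set_option autoImplicit false

/-! # Packed tests with a separate closing entry -/

namespace Pool.Agent.Helper66.Kiss.Pk

open Finset

/-- sum along the increasing path through the set, closed with other weights -/
def cg (w c : ℕ → ℕ → ℕ) : ℕ → ℕ → ℕ
  | 0, _ => 0
  | k + 1, S => if S < 2 ^ k then cg w c k S else
      pf w k (S - 2 ^ k) + tf (fun i => w i k) k (S - 2 ^ k) + lf (fun i => c i k) k (S - 2 ^ k)

theorem cg_code {w c : ℕ → ℕ → ℕ} {u : ℕ → ℕ} {r : ℕ}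
    (hinc : ∀ k, k + 1 < r + 2 → u k < u (k + 1)) : ∀ m, (∀ k < r + 2, u k < m) →
    cg w c m (code u (r + 2)) = ∑ k ∈ range (r + 1), w (u k) (u (k + 1)) + c (u 0) (u (r + 1)) := by
  intro m
  induction m with
  | zero => intro h; have := h 0 (by omega); omega
  | succ m ih =>
    intro h
    unfold cg
    by_cases hm : ∀ k < r + 2, u k < m
    · rw [if_pos (code_lt hinc hm)]; exact ih hm
    · push Not at hm
      obtain ⟨k, hk, hm⟩ := hm
      have h1 : u (r + 1) = m := by
        have a1 := h (r + 1) (by omega)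
        have a2 := h k hk
        rcases Nat.lt_or_ge k (r + 1) with h3 | h3
        · have := inc_lt hinc (r + 1) (by omega) k h3; omega
        · have : k = r + 1 := by omega
          rw [this] at hm; omega
      have h2 : ¬ code u (r + 2) < 2 ^ m := by
        rw [code_succ, h1]; omega
      have e2 : code u (r + 2) - 2 ^ m = code u (r + 1) := by rw [← h1]; exact code_split u (r + 1)
      have hlt : ∀ k < r + 1, u k < m := by
        intro k hk
        have := inc_lt hinc (r + 1) (by omega) k hk; omega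
      rw [if_neg h2, e2, pf_code m r (fun k hk => hinc k (by omega)) hlt,
        tf_code (fun k hk => hinc k (by omega)) m hlt, lf_code m r (fun k hk => hinc k (by omega)) hlt,
        sum_range_succ _ r]
      simp only [h1]

lemma cg_congr {f g c d : ℕ → ℕ → ℕ} : ∀ {k : ℕ}, (∀ i j, i < j → j < k → f i j = g i j) →
    (∀ i j, i < j → j < k → c i j = d i j) → ∀ S, cg f c k S = cg g d k S := by
  intro k
  induction k with
  | zero => intro _ _ _; rfl
  | succ k ih =>
    intro h h' S; unfold cg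
    rw [ih (fun i j h1 h2 => h i j h1 (by omega)) (fun i j h1 h2 => h' i j h1 (by omega)),
      pf_congr (fun i j h1 h2 => h i j h1 (by omega)),
      tf_congr (fun i hi => h i k hi (by omega)), lf_congr (fun i hi => h' i k hi (by omega))]

lemma cg_lin (f g c d : ℕ → ℕ → ℕ) (t : ℕ) : ∀ k S,
    cg (fun i j => f i j + g i j * t) (fun i j => c i j + d i j * t) k S =
    cg f c k S + cg g d k S * t := by
  intro k
  induction k with
  | zero => intro _; simp [cg]
  | succ k ih =>
    intro S; unfold cg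
    split_ifs
    · exact ih S
    · rw [pf_lin, tf_lin (fun i => f i k) (fun i => g i k),
        lf_lin (fun i => c i k) (fun i => d i k)]; ring

lemma cg_le {f c : ℕ → ℕ → ℕ} {B C : ℕ} : ∀ {k : ℕ}, (∀ i j, i < j → j < k → f i j ≤ B) →
    (∀ i j, i < j → j < k → c i j ≤ C) → ∀ S, cg f c k S ≤ popc k S * B + C := by
  intro k
  induction k with
  | zero => intro _ _ _; exact Nat.zero_le _
  | succ k ih =>
    intro h h' S; unfold cg popc
    split_ifs
    · exact ih (fun i j h1 h2 => h i j h1 (by omega)) (fun i j h1 h2 => h' i j h1 (by omega)) S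
    · have h1 := pf_le (k := k) (fun i j h1 h2 => h i j h1 (by omega)) (S - 2 ^ k)
      have h2 := tf_le (f := fun i => f i k) (B := B) (t := k) (fun i hi => h i k hi (by omega))
        (S - 2 ^ k)
      have h3 := lf_le (f := fun i => c i k) (B := C) (t := k) (fun i hi => h' i k hi (by omega))
        (S - 2 ^ k)
      rw [Nat.add_mul, one_mul]
      omega

/-- no increasing path, closed by the entry of its ends, fails the numerical test -/
def IncOK (n : ℕ) (D R A B : ℕ → ℕ → ℕ) : Prop :=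
  ∀ (u : ℕ → ℕ) (q : ℕ), 1 ≤ q → (∀ k < q, u k < u (k + 1)) → u q < n →
    ¬ (65536 ≤ ∑ k ∈ range q, D (u k) (u (k + 1)) + A (u 0) (u q) ∧
      2 ^ 23 * (q + 1) ≤ ∑ k ∈ range q, R (u k) (u (k + 1)) + B (u 0) (u q))

/-- entries and their parts -/
structure WC (n : ℕ) (w c D R A B : ℕ → ℕ → ℕ) : Prop where
  we : ∀ i j, i < j → j < n → w i j = D i j + R i j * 2 ^ 20
  ce : ∀ i j, i < j → j < n → c i j = A i j + B i j * 2 ^ 20
  dl : ∀ i j, i < j → j < n → D i j ≤ 2 ^ 15
  rl : ∀ i j, i < j → j < n → R i j ≤ 2 ^ 24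
  al : ∀ i j, i < j → j < n → A i j ≤ 2 ^ 17
  bl : ∀ i j, i < j → j < n → B i j ≤ 2 ^ 24

/-- the mask of the test -/
def maskF (n : ℕ) (S : ℕ) : ℕ := if 2 ≤ popc n S then 2 ^ 19 else 0

section

variable {n : ℕ} {w c D R A B : ℕ → ℕ → ℕ}

/-- decoding a lane -/
lemma lane_cg (H : WC n w c D R A B) (hn : n ≤ 10) (S : ℕ) :
    cg w c n S + baseF n S < 2 ^ 48 ∧
    (65536 ≤ cg D A n S → 2 ^ 23 * popc n S ≤ cg R B n S →
      (cg w c n S + baseF n S).testBit 19 = true ∧
      (cg w c n S + baseF n S).testBit 47 = true) := by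
  have h1 := cg_le (f := D) (c := A) (B := 2 ^ 15) (C := 2 ^ 17) (k := n)
    (fun i j h1 h2 => H.dl i j h1 h2) (fun i j h1 h2 => H.al i j h1 h2) S
  have h2 := cg_le (f := R) (c := B) (B := 2 ^ 24) (C := 2 ^ 24) (k := n)
    (fun i j h1 h2 => H.rl i j h1 h2) (fun i j h1 h2 => H.bl i j h1 h2) S
  have hp := popc_le n S
  have hp10 : popc n S ≤ 10 := hp.trans hn
  have hs : cg w c n S = cg D A n S + cg R B n S * 2 ^ 20 := by
    rw [cg_congr (g := fun i j => D i j + R i j * 2 ^ 20) (d := fun i j => A i j + B i j * 2 ^ 20)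
      (fun i j h1 h2 => H.we i j h1 h2) (fun i j h1 h2 => H.ce i j h1 h2), cg_lin]
  set a := cg D A n S + (2 ^ 19 - 65536) with ha
  set b := cg R B n S + (2 ^ 27 - 2 ^ 23 * popc n S) with hb
  have h4 : 2 ^ 23 * popc n S ≤ 2 ^ 23 * 10 := Nat.mul_le_mul_left _ hp10
  have hal : a < 2 ^ 20 := by
    have : popc n S * 2 ^ 15 ≤ 10 * 2 ^ 15 := Nat.mul_le_mul_right _ hp10
    rw [ha]; omega
  have hbl : b < 2 ^ 28 := by
    rw [hb]
    have e : popc n S * 2 ^ 24 = 2 * (2 ^ 23 * popc n S) := by ring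
    rw [e] at h2
    omega
  have e : cg w c n S + baseF n S = a + b * 2 ^ 20 := by
    rw [hs, ha, hb]; unfold baseF; ring
  rw [e]
  refine ⟨?_, fun h3 h5 => ⟨bit_lo hal (by rw [ha]; omega), bit_hi hal hbl (by rw [hb]; omega)⟩⟩
  have : b * 2 ^ 20 ≤ (2 ^ 28 - 1) * 2 ^ 20 := Nat.mul_le_mul_right _ (by omega)
  omega

/-- **soundness of the test** -/
theorem incOK_of_test (H : WC n w c D R A B) (hn : n ≤ 10)
    (h : ((vec (cg w c n) (2 ^ n) + vec (baseF n) (2 ^ n)) &&&
      ((vec (cg w c n) (2 ^ n) + vec (baseF n) (2 ^ n)) >>> 28)) &&&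
      vec (maskF n) (2 ^ n) = 0) : IncOK n D R A B := by
  intro u q hq hu hlt
  rintro ⟨h1, h2⟩
  obtain ⟨r, rfl⟩ : ∃ r, q = r + 1 := ⟨q - 1, by omega⟩
  have hinc : ∀ k, k + 1 < r + 2 → u k < u (k + 1) := fun k hk => hu k (by omega)
  have hlt' : ∀ k < r + 2, u k < n := by
    intro k hk
    rcases Nat.lt_or_ge k (r + 1) with h3 | h3
    · have := inc_lt hinc (r + 1) (by omega) k h3; omega
    · have : k = r + 1 := by omega
      rw [this]; exact hlt
  have hS : code u (r + 2) < 2 ^ n := code_lt hinc hlt'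
  have hpc : popc n (code u (r + 2)) = r + 2 := popc_code n (r + 2) hinc hlt'
  have eD := cg_code (w := D) (c := A) hinc n hlt'
  have eR := cg_code (w := R) (c := B) hinc n hlt'
  rw [vec_add] at h
  have hm : (maskF n (code u (r + 2))).testBit 19 = true := by
    unfold maskF
    rw [hpc, if_pos (by omega)]
    decide
  have hmb : ∀ S < 2 ^ n, maskF n S < 2 ^ 48 := by
    intro S _
    unfold maskF
    split_ifs
    · norm_num
    · norm_num
  refine test_lanes (fun S _ => (lane_cg H hn S).1) hmb h hS hm ((lane_cg H hn _).2 ?_ ?_)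
  · rw [eD]; exact h1
  · rw [eR, hpc]; exact h2

end

end Pool.Agent.Helper66.Kiss.Pk
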