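import Pool.Agent.Helper66.Kiss.PackWalk
import Pool.Agent.Helper66.Kiss.PkA

set_option autoImplicit false

/-! # From the packed tests to constants of walks -/

namespace Pool.Agent.Helper66.Kiss.Pk

open Real Set Filter Topology

/-- **ordinary walks** -/
theorem walk_of_inc {n : ℕ} (hn : 0 < n) {D R : ℕ → ℕ → ℕ} (h : IncOK n D R D R)
    {v : ℕ → ℕ} {r : ℕ} (hv : IsWalk n v r) (he : v r = v 0 + n) :
    ¬ (65536 ≤ ∑ k ∈ Finset.range r, ee D (clN n hn (v k)).val (clN n hn (v (k + 1))).val ∧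
      2 ^ 23 * r ≤ ∑ k ∈ Finset.range r, ee R (clN n hn (v k)).val (clN n hn (v (k + 1))).val) := by
  have hr2 := walk_two_le hn hv he
  obtain ⟨u, u1, u2, u3, u4, -⟩ := walk_normal hn (by omega) hv he
  obtain ⟨q, rfl⟩ : ∃ q, r = q + 2 := ⟨r - 2, by omega⟩
  have hinc : ∀ k, k + 1 < q + 2 → u k < u (k + 1) := fun k hk => (u1 k (by omega)).1
  have key : ∀ f : ℕ → ℕ → ℕ, ∑ k ∈ Finset.range (q + 2),
      ee f (clN n hn (v k)).val (clN n hn (v (k + 1))).val =
      ∑ k ∈ Finset.range (q + 1), f (u k) (u (k + 1)) + f (u 0) (u (q + 1)) := by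
    intro f
    rw [← nat_sum_eq u4, Finset.sum_range_succ]
    congr 1
    · refine Finset.sum_congr rfl fun k hk => ?_
      have hk' := Finset.mem_range.1 hk
      rw [clN_of_lt hn (u3 k (by omega)), clN_of_lt hn (u3 (k + 1) (by omega))]
      unfold ee
      rw [if_pos (hinc k (by omega))]
    · rw [show q + 1 + 1 = q + 2 by ring, u2, clN_add, clN_of_lt hn (u3 0 (by omega)),
        clN_of_lt hn (u3 (q + 1) (by omega))]
      have := inc_lt hinc (q + 1) (by omega) 0 (by omega)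
      unfold ee
      rw [if_neg (by simp only; omega)]
  rw [key, key]
  exact h u (q + 1) (by omega) (fun k hk => hinc k (by omega)) (u3 (q + 1) (by omega))

/-- no increasing path from `m` to `l`, closed by the entry `(A, B)`, fails the numerical test -/
def HopI (D R : ℕ → ℕ → ℕ) (m l A B : ℕ) : Prop :=
  ∀ (u : ℕ → ℕ) (q : ℕ), 1 ≤ q → (∀ k < q, u k < u (k + 1)) → u 0 = m → u q = l →
    ¬ (65536 ≤ ∑ k ∈ Finset.range q, D (u k) (u (k + 1)) + A ∧
      2 ^ 23 * (q + 1) ≤ ∑ k ∈ Finset.range q, R (u k) (u (k + 1)) + B)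

lemma IncOK.hopI {D R A B : ℕ → ℕ → ℕ} (h : IncOK 10 D R A B) {m l : ℕ} (hl : l < 10) :
    HopI D R m l (A m l) (B m l) := by
  intro u q hq hu h0 h1
  have := h u q hq hu (by rw [h1]; exact hl)
  rwa [h0, h1] at this

lemma HopI.mono {D R : ℕ → ℕ → ℕ} {m l A B A' B' : ℕ} (h : HopI D R m l A B) (hA : A' ≤ A)
    (hB : B' ≤ B) : HopI D R m l A' B' := by
  intro u q hq hu h0 h1 h2
  exact h u q hq hu h0 h1 ⟨by omega, by omega⟩

/-- **walks through the first node** -/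
theorem hop_walk {D R : ℕ → ℕ → ℕ} {v : ℕ → ℕ} {q : ℕ} (hq : 1 ≤ q)
    (hv : IsWalk 10 v (q + 1)) (hp : Psd 0 (v q) (v 0)) :
    (clN 10 (by norm_num) (v 0)).val < (clN 10 (by norm_num) (v q)).val ∧
    ∀ A B, HopI D R (clN 10 (by norm_num) (v 0)).val (clN 10 (by norm_num) (v q)).val A B →
    ¬ (65536 ≤ ∑ k ∈ Finset.range q, ee D (clN 10 (by norm_num) (v k)).val
          (clN 10 (by norm_num) (v (k + 1))).val + A ∧
      2 ^ 23 * (q + 1) ≤ ∑ k ∈ Finset.range q, ee R (clN 10 (by norm_num) (v k)).val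
          (clN 10 (by norm_num) (v (k + 1))).val + B) := by
  have hmono : ∀ k j, k < j → j ≤ q → v k < v j := by
    intro k j hkj
    induction j with
    | zero => omega
    | succ j ih =>
      intro hj
      have h1 := (hv j (by omega)).1
      rcases Nat.lt_or_ge k j with h2 | h2
      · have := ih h2 (by omega); omega
      · have : k = j := by omega
        rw [this]; exact h1
  obtain ⟨b, h1, h2⟩ := hp
  simp only [Fin.val_zero, add_zero] at h1 h2
  have hlo : ∀ k ≤ q, v 0 ≤ v k := by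
    intro k hk
    rcases Nat.eq_zero_or_pos k with h3 | h3
    · rw [h3]
    · exact (hmono 0 k h3 hk).le
  have hhi : ∀ k ≤ q, v k ≤ v q := by
    intro k hk
    rcases Nat.lt_or_ge k q with h3 | h3
    · exact (hmono k q h3 le_rfl).le
    · have : k = q := by omega
      rw [this]
  have hinc : ∀ k < q, v k % 10 < v (k + 1) % 10 := by
    intro k hk
    have a1 := hlo k hk.le
    have a2 := hhi (k + 1) hk
    have a3 := hmono k (k + 1) (by omega) hk
    omega
  have hfirst : v 0 % 10 < v q % 10 := by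
    have a3 := hmono 0 q (by omega) le_rfl
    omega
  refine ⟨hfirst, fun A B h => ?_⟩
  have key : ∀ f : ℕ → ℕ → ℕ, ∑ k ∈ Finset.range q,
      ee f (clN 10 (by norm_num) (v k)).val (clN 10 (by norm_num) (v (k + 1))).val =
      ∑ k ∈ Finset.range q, f (v k % 10) (v (k + 1) % 10) := by
    intro f
    refine Finset.sum_congr rfl fun k hk => ?_
    unfold ee clN
    simp only
    rw [if_pos (hinc k (Finset.mem_range.1 hk))]
  rw [key, key]
  exact h (fun k => v k % 10) q hq hinc rfl rfl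

section

variable {n : ℕ} {z : Fin n → ℝ} {Q : Fin n → Fin n → ℝ → Prop} {ρ : ℝ} {D R : ℕ → ℕ → ℕ}

/-- what the numbers of a pair mean -/
def POKQ (z : Fin n → ℝ) (Q : Fin n → Fin n → ℝ → Prop) (ρ : ℝ) (i j : Fin n) (D R : ℕ) : Prop :=
  1 < RR (z i) (z j) ∨ (wd (z i) (z j) ≤ D * (π / 32768) ∧
    (2 ^ 23 + 2 ^ 22 + 2 ^ 21 ≤ R ∨ (2 ^ 23 - 2 ^ 18 ≤ R ∧ Q i j (((R : ℝ) - 2 ^ 23) * ρ))))

/-- the same for unordered pairs -/
lemma pokQ_ee (hQ : ∀ i j c, Q i j c → Q j i c)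
    (hp : ∀ i j : Fin n, i < j → POKQ z Q ρ i j (D i j) (R i j)) {i j : Fin n}
    (hij : i ≠ j) : POKQ z Q ρ i j (ee D i.val j.val) (ee R i.val j.val) := by
  unfold ee
  rcases lt_or_gt_of_ne hij with h | h
  · have h' : i.val < j.val := h
    rw [if_pos h', if_pos h']; exact hp i j h
  · have h' : ¬ i.val < j.val := by
      have : j.val < i.val := h
      omega
    rw [if_neg h', if_neg h']
    have h1 := hp j i h
    unfold POKQ at h1 ⊢
    rw [RR_comm, wd_comm]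
    rcases h1 with h1 | ⟨h1, h2 | ⟨h2, h3⟩⟩
    · exact Or.inl h1
    · exact Or.inr ⟨h1, Or.inl h2⟩
    · exact Or.inr ⟨h1, Or.inr ⟨h2, hQ _ _ _ h3⟩⟩

/-- sums of numbers of a path without free edges -/
lemma path_dataQ (hQ : ∀ i j c, Q i j c → Q j i c) {v : ℕ → ℕ} {r q : ℕ} (hn : 0 < n)
    (hv : IsWalk n v r) (hq : q ≤ r)
    (hp : ∀ i j : Fin n, i < j → POKQ z Q ρ i j (D i j) (R i j))
    (hE : ∀ k < q, RR (z (clN n hn (v k))) (z (clN n hn (v (k + 1)))) ≤ 1) :
    twn z (fun k => clN n hn (v k)) q ≤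
      (∑ k ∈ Finset.range q, ee D (clN n hn (v k)).val (clN n hn (v (k + 1))).val : ℕ) *
        (π / 32768) ∧
    (2 ^ 23 - 2 ^ 18) * q ≤ ∑ k ∈ Finset.range q, ee R (clN n hn (v k)).val
      (clN n hn (v (k + 1))).val ∧
    (∑ k ∈ Finset.range q, ee R (clN n hn (v k)).val (clN n hn (v (k + 1))).val + 2 ^ 18 * q <
        2 ^ 23 * q + 2 ^ 22 + 2 ^ 21 + 2 ^ 18 →
      ∀ k < q, Q (clN n hn (v k)) (clN n hn (v (k + 1)))
        (((ee R (clN n hn (v k)).val (clN n hn (v (k + 1))).val : ℕ) - 2 ^ 23) * ρ)) := by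
  have hne : ∀ k < q, clN n hn (v k) ≠ clN n hn (v (k + 1)) := fun k hk =>
    clN_step_ne hn (hv k (by omega))
  have hpk : ∀ k < q, wd (z (clN n hn (v k))) (z (clN n hn (v (k + 1)))) ≤
      (ee D (clN n hn (v k)).val (clN n hn (v (k + 1))).val : ℕ) * (π / 32768) ∧
      (2 ^ 23 + 2 ^ 22 + 2 ^ 21 ≤ ee R (clN n hn (v k)).val (clN n hn (v (k + 1))).val ∨
        (2 ^ 23 - 2 ^ 18 ≤ ee R (clN n hn (v k)).val (clN n hn (v (k + 1))).val ∧
          Q (clN n hn (v k)) (clN n hn (v (k + 1)))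
            (((ee R (clN n hn (v k)).val (clN n hn (v (k + 1))).val : ℕ) - 2 ^ 23) * ρ))) := by
    intro k hk
    rcases pokQ_ee hQ hp (hne k hk) with h | h
    · have := hE k hk; linarith
    · exact h
  refine ⟨?_, ?_, ?_⟩
  · unfold twn
    rw [Nat.cast_sum, Finset.sum_mul]
    exact Finset.sum_le_sum fun k hk => (hpk k (Finset.mem_range.1 hk)).1
  · have h1 : ∑ k ∈ Finset.range q, (2 ^ 23 - 2 ^ 18) ≤
        ∑ k ∈ Finset.range q, ee R (clN n hn (v k)).val (clN n hn (v (k + 1))).val := by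
      refine Finset.sum_le_sum fun k hk => ?_
      rcases (hpk k (Finset.mem_range.1 hk)).2 with h | ⟨h, -⟩ <;> omega
    rw [Finset.sum_const, Finset.card_range, smul_eq_mul] at h1
    rw [mul_comm]; exact h1
  · intro hB k0 hk0
    rcases (hpk k0 hk0).2 with hb | ⟨-, h⟩
    swap
    · exact h
    exfalso
    have h1 : ∑ k ∈ Finset.range q, ((2 ^ 23 - 2 ^ 18) + if k = k0 then 2 ^ 22 + 2 ^ 21 + 2 ^ 18 else 0) ≤
        ∑ k ∈ Finset.range q, ee R (clN n hn (v k)).val (clN n hn (v (k + 1))).val := by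
      refine Finset.sum_le_sum fun k hk => ?_
      by_cases hkk : k = k0
      · subst hkk; rw [if_pos rfl]; omega
      · rw [if_neg hkk]
        rcases (hpk k (Finset.mem_range.1 hk)).2 with h | ⟨h, -⟩ <;> omega
    rw [Finset.sum_add_distrib, Finset.sum_const, Finset.card_range, smul_eq_mul,
      Finset.sum_ite_eq', if_pos (Finset.mem_range.2 hk0)] at h1
    omega

/-- a lower bound for widths in units gives a lower bound for natural numbers -/
lemma units_le {a : ℕ} {T : ℝ} (hT : 2 * π ≤ T) (h : T ≤ (a : ℝ) * (π / 32768)) : 65536 ≤ a := by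
  have hpi := Real.pi_pos
  by_contra hcon
  push Not at hcon
  have h3 : (a : ℝ) < 65536 := by exact_mod_cast hcon
  have := mul_lt_mul_of_pos_right h3 (by positivity : 0 < π / 32768)
  linarith

/-- **constants for closed walks** -/
theorem consts_of_inc (hQ : ∀ i j c, Q i j c → Q j i c) (hn : 0 < n) (hn11 : n ≤ 11) (hρ : 0 < ρ)
    (hp : ∀ i j : Fin n, i < j → POKQ z Q ρ i j (D i j) (R i j)) (hW : IncOK n D R D R)
    {v : ℕ → ℕ} {r : ℕ} (hv : IsWalk n v r) (he : v r = v 0 + n)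
    (hE : ∀ k < r, RR (z (clN n hn (v k))) (z (clN n hn (v (k + 1)))) ≤ 1)
    (ht : 2 * π ≤ twn z (fun k => clN n hn (v k)) r) :
    ∃ c : Fin n → Fin n → ℝ, (∀ k < r, Q (clN n hn (v k)) (clN n hn (v (k + 1)))
        (c (clN n hn (v k)) (clN n hn (v (k + 1))))) ∧
      ∑ k ∈ Finset.range r, c (clN n hn (v k)) (clN n hn (v (k + 1))) < 0 := by
  obtain ⟨h1, -, h2⟩ := path_dataQ (q := r) hQ hn hv le_rfl hp hE
  have hr : r ≤ 11 := by
    have := isWalk_ge hv r le_rfl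
    omega
  have hsD := units_le ht h1
  have hsR : ∑ k ∈ Finset.range r, ee R (clN n hn (v k)).val (clN n hn (v (k + 1))).val <
      2 ^ 23 * r := by
    by_contra hcon
    push Not at hcon
    exact walk_of_inc hn hW hv he ⟨hsD, hcon⟩
  refine ⟨fun i j => ((ee R i.val j.val : ℕ) - 2 ^ 23) * ρ, h2 (by omega), ?_⟩
  rw [← Finset.sum_mul, Finset.sum_sub_distrib, Finset.sum_const, Finset.card_range,
    nsmul_eq_mul, ← Nat.cast_sum]
  have h3 : ((∑ k ∈ Finset.range r,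
      ee R (clN n hn (v k)).val (clN n hn (v (k + 1))).val : ℕ) : ℝ) < 2 ^ 23 * r := by
    exact_mod_cast hsR
  exact mul_neg_of_neg_of_pos (by linarith) hρ

end

/-- **constants for paths closed by a hop** -/
theorem consts_of_hop {z : Fin 10 → ℝ} {Q : Fin 10 → Fin 10 → ℝ → Prop} {ρ : ℝ}
    {D R : ℕ → ℕ → ℕ} (hQ : ∀ i j c, Q i j c → Q j i c) (hρ : 0 < ρ)
    (hp : ∀ i j : Fin 10, i < j → POKQ z Q ρ i j (D i j) (R i j))
    {v : ℕ → ℕ} {q : ℕ} (hq : 1 ≤ q) (hq10 : q + 1 ≤ 10)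
    (hv : IsWalk 10 v (q + 1)) (hps : Psd 0 (v q) (v 0))
    (hE : ∀ k < q, RR (z (clN 10 (by norm_num) (v k))) (z (clN 10 (by norm_num) (v (k + 1)))) ≤ 1)
    {A B : ℕ}
    (hW : HopI D R (clN 10 (by norm_num) (v 0)).val (clN 10 (by norm_num) (v q)).val A B)
    (hA : 2 * π ≤ A * (π / 32768) + twn z (fun k => clN 10 (by norm_num) (v k)) q)
    (hB : 2 ^ 22 ≤ B) :
    B < 2 ^ 23 + 2 ^ 22 + 2 ^ 21 ∧
    ∃ c : Fin 10 → Fin 10 → ℝ, (∀ k < q, Q (clN 10 (by norm_num) (v k))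
        (clN 10 (by norm_num) (v (k + 1)))
        (c (clN 10 (by norm_num) (v k)) (clN 10 (by norm_num) (v (k + 1))))) ∧
      ∀ A' B' : ℕ, HopI D R (clN 10 (by norm_num) (v 0)).val (clN 10 (by norm_num) (v q)).val A' B' →
        2 * π ≤ A' * (π / 32768) + twn z (fun k => clN 10 (by norm_num) (v k)) q →
      ∑ k ∈ Finset.range q, c (clN 10 (by norm_num) (v k)) (clN 10 (by norm_num) (v (k + 1))) +
        ((B' : ℝ) - 2 ^ 23) * ρ < 0 := by
  obtain ⟨h1, h0, h2⟩ := path_dataQ (q := q) hQ (by norm_num) hv (by omega) hp hE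
  set sD := ∑ k ∈ Finset.range q, ee D (clN 10 (by norm_num) (v k)).val
    (clN 10 (by norm_num) (v (k + 1))).val with hsD
  set sR := ∑ k ∈ Finset.range q, ee R (clN 10 (by norm_num) (v k)).val
    (clN 10 (by norm_num) (v (k + 1))).val with hsR
  have hDa : 65536 ≤ sD + A := units_le hA (by push_cast; linarith)
  have hRb : sR + B < 2 ^ 23 * (q + 1) := by
    by_contra hcon
    push Not at hcon
    exact (hop_walk hq hv hps).2 A B hW ⟨hDa, hcon⟩
  refine ⟨by omega, fun i j => ((ee R i.val j.val : ℕ) - 2 ^ 23) * ρ, h2 (by omega), ?_⟩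
  intro A' B' hW' hA'
  have hDa' : 65536 ≤ sD + A' := units_le hA' (by push_cast; linarith)
  have hRb' : sR + B' < 2 ^ 23 * (q + 1) := by
    by_contra hcon
    push Not at hcon
    exact (hop_walk hq hv hps).2 A' B' hW' ⟨hDa', hcon⟩
  rw [← Finset.sum_mul, Finset.sum_sub_distrib, Finset.sum_const, Finset.card_range,
    nsmul_eq_mul, ← Nat.cast_sum, ← hsR]
  have h3 : ((sR : ℝ) + B') < 2 ^ 23 * (q + 1) := by exact_mod_cast hRb'
  have h4 : ((sR : ℝ) - q * 2 ^ 23 + (B' - 2 ^ 23)) * ρ < 0 :=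
    mul_neg_of_neg_of_pos (by linarith) hρ
  linarith

end Pool.Agent.Helper66.Kiss.Pk
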