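import Pool.Agent.Helper66.Kiss.LeafC
import Pool.Agent.Helper66.Kiss.PkC
import Pool.Agent.Helper66.Kiss.HGain

set_option autoImplicit false

/-! # Direction leaves, final form: the theorem -/

namespace Pool.Agent.Helper66.Kiss

open Real Set Filter Topology Pk

/-- velocities of the eleven points; the first one moves with `-κ` -/
noncomputable def kV (κ : ℝ) (V : Fin 10 → ℝ) : Fin 11 → ℝ := insS 0 (-κ) V

lemma kV_zero (κ : ℝ) (V : Fin 10 → ℝ) : kV κ V 0 = -κ := insS_same _ _ _

lemma kV_succ (κ : ℝ) (V : Fin 10 → ℝ) (l : Fin 10) : kV κ V l.succ = V l := by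
  have := insS_succ 0 (-κ) V l
  rwa [Fin.succAbove_zero] at this

/-- data of a direction leaf at a point; the first point is the one near the south pole -/
structure LeafK (z φ : Fin 11 → ℝ) (V W : Fin 10 → ℝ) (κ ρ : ℝ) (D R : ℕ → ℕ → ℕ) : Prop where
  κ0 : 0 ≤ κ
  ρ0 : 0 < ρ
  vw : ∀ l, VW (V l) (W l)
  reg : ∀ l : Fin 10, -1 < z l.succ
  pair : ∀ l m : Fin 10, l < m → 1 < RR (z l.succ) (z m.succ) ∨
    (wd (z l.succ) (z m.succ) ≤ D l m * (π / 32768) ∧
      (2 ^ 23 + 2 ^ 22 + 2 ^ 21 ≤ R l m ∨ (2 ^ 23 - 2 ^ 18 ≤ R l m ∧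
        EBq (z l.succ) (z m.succ) (V l) (W l) (V m) (W m) ρ (((R l m : ℝ) - 2 ^ 23) * ρ))))
  walks : IncOK 10 D R D R
  hopS : -1 < z 0 → ∀ m l : Fin 10, m < l → RR (z 0) (z m.succ) ≤ 1 → RR (z 0) (z l.succ) ≤ 1 →
    ∃ A B : ℕ, HopI D R m l A B ∧ 2 ^ 22 ≤ B ∧
      wd (z 0) (z m.succ) + wd (z 0) (z l.succ) ≤ A * (π / 32768) ∧
      (2 ^ 23 + 2 ^ 22 + 2 ^ 21 ≤ B ∨ ∃ c1 c2 : ℝ,
        EBq (z 0) (z m.succ) (-κ) (-κ) (V m) (W m) ρ c1 ∧
        EBq (z 0) (z l.succ) (-κ) (-κ) (V l) (W l) ρ c2 ∧ c1 + c2 ≤ ((B : ℝ) - 2 ^ 23) * ρ)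
  selfS : -1 < z 0 → ∀ l : Fin 10, RR (z 0) (z l.succ) ≤ -1 →
    ∃ c < 0, EBq (z 0) (z l.succ) (-κ) (-κ) (V l) (W l) ρ c
  touch : z 0 = -1 →
    (0 < κ ∧ ∀ l : Fin 10, z l.succ = -(1 / 2) → 0 ≤ V l ∧ V l ≤ W l ∧ 0 < W l) ∨
    (κ = 0 ∧ ∀ l : Fin 10, z l.succ = -(1 / 2) → 0 < V l ∨ (V l = 0 ∧ W l = 0))
  hopP : z 0 = -1 → ∀ m l : Fin 10, m < l → z m.succ = -(1 / 2) → z l.succ = -(1 / 2) →
    (∃ A B : ℕ, HopI D R m l A B ∧ 2 * π - (φ l.succ - φ m.succ) ≤ A * (π / 32768) ∧
      2 ^ 22 ≤ B) ∧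
    (0 < V m ∨ 0 < V l ∨
      (∃ A B : ℕ, HopI D R m l A B ∧ 2 * π - (φ l.succ - φ m.succ) ≤ A * (π / 32768) ∧
        2 ^ 23 ≤ B) ∨
      (0 < κ ∧ ∀ θ, 0 < θ → θ ≤ π / 2 → 2 * θ ≤ 2 * π - (φ l.succ - φ m.succ) → ∃ A B : ℕ,
        HopI D R m l A B ∧ 2 * θ ≤ A * (π / 32768) ∧
        -(2 * κ * cos θ) ≤ ((B : ℝ) - 2 ^ 23) * ρ * sin θ))

lemma finish_consts {X : Type*} {st : X → Prop} {E : X → X → ℝ → Prop}
    (h0 : ∀ i j, st i → st j → E i j 0) {ρ : ℝ} (hρ : 0 < ρ) {χ : ℕ → X} {r : ℕ} (h1 : 1 ≤ r)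
    (h2 : r ≤ 11) {c : X → X → ℝ}
    (hQ : ∀ k < r, (st (χ k) ∧ st (χ (k + 1)) ∧ -ρ ≤ c (χ k) (χ (k + 1))) ∨
      E (χ k) (χ (k + 1)) (c (χ k) (χ (k + 1)) - 10 * ρ))
    (hs : ∑ k ∈ Finset.range r, c (χ k) (χ (k + 1)) < 0) :
    (∀ k ≤ r, st (χ k)) ∨ ∃ c' : ℕ → ℝ, (∀ k < r, E (χ k) (χ (k + 1)) (c' k)) ∧
      ∑ k ∈ Finset.range r, c' k < 0 := by
  by_cases hst : ∀ k ≤ r, st (χ k)
  · exact Or.inl hst
  · push Not at hst
    refine Or.inr ⟨fun k => fixc st ρ c (χ k) (χ (k + 1)), fun k hk => fixc_ok h0 (hQ k hk), ?_⟩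
    exact lt_of_le_of_lt (fixc_sum hρ h1 h2 hst) hs

/-- constants of pairs among ten as constants of pairs among eleven -/
noncomputable def cl11 (c : Fin 10 → Fin 10 → ℝ) (i j : Fin 11) : ℝ :=
  if h : i ≠ 0 ∧ j ≠ 0 then c (i.pred h.1) (j.pred h.2) else 0

lemma cl11_succ (c : Fin 10 → Fin 10 → ℝ) (l m : Fin 10) : cl11 c l.succ m.succ = c l m := by
  unfold cl11
  rw [dif_pos ⟨Fin.succ_ne_zero l, Fin.succ_ne_zero m⟩, Fin.pred_succ, Fin.pred_succ]

/-- constants of a path with the two constants of the hop -/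
noncomputable def hop11 (c : Fin 10 → Fin 10 → ℝ) (c1 c2 : ℝ) (i j : Fin 11) : ℝ :=
  if i = 0 then c1 else if j = 0 then c2 else cl11 c i j

lemma hop11_l (c : Fin 10 → Fin 10 → ℝ) (c1 c2 : ℝ) (j : Fin 11) : hop11 c c1 c2 0 j = c1 :=
  if_pos rfl

lemma hop11_r (c : Fin 10 → Fin 10 → ℝ) (c1 c2 : ℝ) (l : Fin 10) : hop11 c c1 c2 l.succ 0 = c2 := by
  unfold hop11
  rw [if_neg (Fin.succ_ne_zero _), if_pos rfl]

lemma hop11_s (c : Fin 10 → Fin 10 → ℝ) (c1 c2 : ℝ) (l m : Fin 10) :
    hop11 c c1 c2 l.succ m.succ = c l m := by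
  unfold hop11
  rw [if_neg (Fin.succ_ne_zero _), if_neg (Fin.succ_ne_zero _), cl11_succ]

section

variable {z φ : Fin 11 → ℝ} {V W : Fin 10 → ℝ} {κ ρ : ℝ} {D R : ℕ → ℕ → ℕ}

/-- the point is static -/
def stK (κ : ℝ) (V W : Fin 10 → ℝ) (k : Fin 11) : Prop := kV κ V k = 0 ∧ kV κ W k = 0

/-- what the constants mean -/
def QK (z : Fin 11 → ℝ) (κ ρ : ℝ) (V W : Fin 10 → ℝ) (i j : Fin 11) (c : ℝ) : Prop :=
  (stK κ V W i ∧ stK κ V W j ∧ -ρ ≤ c) ∨ EBs z (hF (kV κ V) (kV κ W))
    (fun k => hLo (kV κ V k) (kV κ W k) (z k)) (fun k => hHi (kV κ V k) (kV κ W k) (z k)) i j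
    (c - 10 * ρ)

lemma QK.symm {i j : Fin 11} {c : ℝ} (h : QK z κ ρ V W i j c) : QK z κ ρ V W j i c := by
  rcases h with ⟨h1, h2, h3⟩ | h
  · exact Or.inl ⟨h2, h1, h3⟩
  · exact Or.inr (EBs_symm h)

lemma kV_VW (h : ∀ l, VW (V l) (W l)) (k : Fin 11) : VW (kV κ V k) (kV κ W k) := by
  rcases Fin.eq_zero_or_eq_succ k with rfl | ⟨l, rfl⟩
  · rw [kV_zero, kV_zero]; exact Or.inl rfl
  · rw [kV_succ, kV_succ]; exact h l

lemma EBq.toQK (hvw : ∀ l, VW (V l) (W l)) (hz : ∀ k, z k ≤ 1 / 2) {i j : Fin 11} (hi : -1 < z i)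
    (hj : -1 < z j) {c : ℝ} (h : EBq (z i) (z j) (kV κ V i) (kV κ W i) (kV κ V j) (kV κ W j) ρ c) :
    QK z κ ρ V W i j c := by
  rcases h with ⟨h1, h2, h3, h4, h5⟩ | h
  · exact Or.inl ⟨⟨h1, h2⟩, ⟨h3, h4⟩, h5⟩
  · exact Or.inr (EBr.toEBs (kV_VW hvw) hz hi hj h)

lemma twn_succ {g : ℕ → ℕ} {χ : ℕ → Fin 11} {r : ℕ}
    (h : ∀ k ≤ r, (clN 10 (by norm_num) (g k)).succ = χ k) :
    twn (fun l : Fin 10 => z l.succ) (fun k => clN 10 (by norm_num) (g k)) r = twn z χ r := by
  unfold twn
  refine Finset.sum_congr rfl fun k hk => ?_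
  have := Finset.mem_range.1 hk
  simp only [h k (by omega), h (k + 1) (by omega)]

/-- **the case away from the pole** -/
theorem LeafK.lifts1 (H : LeafK z φ V W κ ρ D R) (hFe : Fe z φ) (hz : -1 < z 0) :
    Lifts z (hF (kV κ V) (kV κ W)) := by
  have hpi := Real.pi_pos
  have hρ := H.ρ0
  have hr : ∀ k, -1 < z k ∧ z k ≤ 1 / 2 := by
    intro k
    refine ⟨?_, (hFe.1 k).2⟩
    rcases Fin.eq_zero_or_eq_succ k with rfl | ⟨l, rfl⟩
    · exact hz
    · exact H.reg l
  set v11 := kV κ V with hv11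
  set w11 := kV κ W with hw11
  have hQs : ∀ l m : Fin 10, ∀ c, EBq (z l.succ) (z m.succ) (V l) (W l) (V m) (W m) ρ c →
      QK z κ ρ V W l.succ m.succ c := by
    intro l m c h
    refine EBq.toQK H.vw (fun k => (hr k).2) (hr _).1 (hr _).1 ?_
    simp only [kV_succ]; exact h
  have hQ0 : ∀ m : Fin 10, ∀ c, EBq (z 0) (z m.succ) (-κ) (-κ) (V m) (W m) ρ c →
      QK z κ ρ V W 0 m.succ c := by
    intro m c h
    refine EBq.toQK H.vw (fun k => (hr k).2) (hr _).1 (hr _).1 ?_
    simp only [kV_succ, kV_zero]; exact h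
  have hpQ : ∀ i j : Fin 10, i < j → POKQ (fun l => z l.succ)
      (fun l m c => QK z κ ρ V W l.succ m.succ c) ρ i j (D i j) (R i j) := by
    intro i j hij
    rcases H.pair i j hij with h | ⟨h1, h2 | ⟨h2, h3⟩⟩
    · exact Or.inl h
    · exact Or.inr ⟨h1, Or.inl h2⟩
    · exact Or.inr ⟨h1, Or.inr ⟨h2, hQs _ _ _ h3⟩⟩
  have hst : ∀ k, stK κ V W k → Stat z (hF v11 w11) k := fun k h => stat_hF h.1 h.2
  have hE0 : ∀ i j, stK κ V W i → stK κ V W j → EBs z (hF v11 w11)
      (fun k => hLo (v11 k) (w11 k) (z k)) (fun k => hHi (v11 k) (w11 k) (z k)) i j 0 :=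
    fun i j hi hj => Or.inr ⟨monoQ_stat (hst i hi) (hst j hj), le_rfl⟩
  have hPH : PH (n := 11) (by norm_num) z (hF v11 w11) (fun k => hLo (v11 k) (w11 k) (z k))
      (fun k => hHi (v11 k) (w11 k) (z k)) (fun _ => False) := by
    refine ⟨hF_law (kV_VW H.vw) (fun k => (hr k).2), ?_, ?_, ?_, ?_, ?_, ?_, ?_⟩
    · intro i j h; exact absurd h (by simp)
    · intro s' h; exact absurd h (by simp)
    · intro s' h; exact absurd h (by simp)
    · intro k _; exact hr k
    · intro s' k h; exact absurd h (by simp)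
    · intro i j hij _ _
      exact (Real.neg_one_le_cos _).trans (cos_le_of_gg (hr i) (hr j) (hFe.2 i j hij))
    · intro v r hr' hv he hE h1 _
      have hE' : ∀ k < r, RR (z (clN 11 (by norm_num) (v k)))
          (z (clN 11 (by norm_num) (v (k + 1)))) ≤ 1 := fun k hk => by
        rcases hE k hk with ⟨h, -⟩ | ⟨h, -⟩ | ⟨-, -, h⟩
        · exact absurd h (by simp)
        · exact absurd h (by simp)
        · exact h
      have ht := h1 fun _ _ h => h
      have hrpos : 1 ≤ r := by
        rcases Nat.eq_zero_or_pos r with h | h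
        · rw [h] at he; omega
        · exact h
      -- it suffices to find constants of pairs
      suffices hsuff : ∃ c : Fin 11 → Fin 11 → ℝ, (∀ k < r, QK z κ ρ V W (clN 11 (by norm_num) (v k))
          (clN 11 (by norm_num) (v (k + 1)))
          (c (clN 11 (by norm_num) (v k)) (clN 11 (by norm_num) (v (k + 1))))) ∧
          ∑ k ∈ Finset.range r, c (clN 11 (by norm_num) (v k))
            (clN 11 (by norm_num) (v (k + 1))) < 0 by
        obtain ⟨c, hc1, hc2⟩ := hsuff
        rcases finish_consts (χ := fun k => clN 11 (by norm_num) (v k)) hE0 hρ hrpos hr' hc1 hc2 with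
          h | ⟨c', h3, h4⟩
        · exact Or.inl fun k hk => hst _ (h k hk)
        · refine Or.inr ⟨c', fun k hk _ _ => h3 k hk, Or.inr ?_⟩
          have e : sumS (fun _ : Fin 11 => False) c' (fun k => clN 11 (by norm_num) (v k)) r =
              ∑ k ∈ Finset.range r, c' k := by
            unfold sumS
            refine Finset.sum_congr rfl fun k _ => ?_
            rw [if_neg (by simp)]
          rw [e]; exact h4
      rcases walk_split hv he with ⟨hr10, g, gw, ge, gcl⟩ |
        ⟨u, g, q, rfl, uw, ue, u0, ur, usum, uQ, gcl, hq⟩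
      · -- the walk avoids the first node
        obtain ⟨c, hc1, hc2⟩ := consts_of_inc (Q := fun l m c => QK z κ ρ V W l.succ m.succ c)
          (fun i j c h => h.symm) (by norm_num) (by norm_num) hρ hpQ H.walks gw ge (by
            intro k hk
            rw [gcl k hk.le, gcl (k + 1) hk]
            exact hE' k hk) (by rw [twn_succ gcl]; exact ht)
        refine ⟨cl11 c, ?_, ?_⟩
        · intro k hk
          rw [← gcl k hk.le, ← gcl (k + 1) hk, cl11_succ]
          exact hc1 k hk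
        · have : ∑ k ∈ Finset.range r, cl11 c (clN 11 (by norm_num) (v k))
              (clN 11 (by norm_num) (v (k + 1))) = ∑ k ∈ Finset.range r,
              c (clN 10 (by norm_num) (g k)) (clN 10 (by norm_num) (g (k + 1))) := by
            refine Finset.sum_congr rfl fun k hk => ?_
            have := Finset.mem_range.1 hk
            rw [← gcl k this.le, ← gcl (k + 1) this, cl11_succ]
          rw [this]; exact hc2
      · -- the walk passes the first node
        have hEu := uQ (fun i j => RR (z i) (z j) ≤ 1) hE'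
        suffices hsuff : ∃ c : Fin 11 → Fin 11 → ℝ, (∀ k < q + 2, QK z κ ρ V W
            (clN 11 (by norm_num) (u k)) (clN 11 (by norm_num) (u (k + 1)))
            (c (clN 11 (by norm_num) (u k)) (clN 11 (by norm_num) (u (k + 1))))) ∧
            ∑ k ∈ Finset.range (q + 2), c (clN 11 (by norm_num) (u k))
              (clN 11 (by norm_num) (u (k + 1))) < 0 by
          obtain ⟨c, hc1, hc2⟩ := hsuff
          refine ⟨c, ?_, ?_⟩
          · exact all_of_sums (κ' := fun k => clN 11 (by norm_num) (u k))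
              (κ := fun k => clN 11 (by norm_num) (v k)) usum
              (Q := fun i j => QK z κ ρ V W i j (c i j)) hc1
          · rw [← usum c]; exact hc2
        have htu : 2 * π ≤ twn z (fun k => clN 11 (by norm_num) (u k)) (q + 2) := by
          have : twn z (fun k => clN 11 (by norm_num) (v k)) (q + 2) =
              twn z (fun k => clN 11 (by norm_num) (u k)) (q + 2) := by
            unfold twn
            exact (usum fun i j => wd (z i) (z j)).symm
          rw [← this]; exact ht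
        have hsplit : twn z (fun k => clN 11 (by norm_num) (u k)) (q + 2) =
            wd (z 0) (z (clN 11 (by norm_num) (u 1))) +
            wd (z 0) (z (clN 11 (by norm_num) (u (q + 1)))) +
            twn z (fun k => clN 11 (by norm_num) (u (k + 1))) q := by
          unfold twn
          rw [Finset.sum_range_succ, Finset.sum_range_succ']
          simp only [show q + 1 + 1 = q + 2 from rfl, ur, u0, zero_add]
          rw [wd_comm (z (clN 11 (by norm_num) (u (q + 1)))) (z 0)]
          ring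
        have e1 : clN 11 (by norm_num) (u 1) = (clN 10 (by norm_num) (g 0)).succ :=
          (gcl 0 (by omega)).symm
        have e2 : clN 11 (by norm_num) (u (q + 1)) = (clN 10 (by norm_num) (g q)).succ :=
          (gcl q le_rfl).symm
        rcases Nat.eq_zero_or_pos q with hq0 | hq0
        · -- two edges
          subst hq0
          have hπ : π ≤ wd (z 0) (z (clN 11 (by norm_num) (u 1))) := by
            rw [hsplit] at htu
            unfold twn at htu
            rw [Finset.sum_range_zero, zero_add] at htu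
            linarith
          have hR : RR (z 0) (z (clN 10 (by norm_num) (g 0)).succ) ≤ -1 := by
            rw [← e1]
            by_contra hcon
            push Not at hcon
            rw [wd_eq_RR] at hπ
            have h2 := Real.arccos_le_pi (RR (z 0) (z (clN 11 (by norm_num) (u 1))))
            have h3 : arccos (RR (z 0) (z (clN 11 (by norm_num) (u 1)))) = π := le_antisymm h2 hπ
            rw [Real.arccos_eq_pi] at h3
            linarith
          obtain ⟨c0, hc0, hcq⟩ := H.selfS hz _ hR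
          have h1 := hQ0 _ _ hcq
          rw [← e1] at h1
          refine ⟨fun _ _ => c0, ?_, ?_⟩
          · intro k hk
            interval_cases k
            · rw [u0]; exact h1
            · rw [show (1 : ℕ) + 1 = 0 + 2 by norm_num, ur]; exact h1.symm
          · rw [Finset.sum_const, Finset.card_range, nsmul_eq_mul]
            push_cast
            linarith
        obtain ⟨hq10, gw, ge, gps⟩ := hq hq0
        have hlt := (hop_walk (D := D) (R := R) hq0 gw gps).1
        rw [hsplit, e1, e2] at htu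
        have htw := twn_succ (z := z) (χ := fun k => clN 11 (by norm_num) (u (k + 1))) gcl
        rw [← htw] at htu
        obtain ⟨A, B, hok, hB, hA, hcc⟩ := H.hopS hz (clN 10 (by norm_num) (g 0))
          (clN 10 (by norm_num) (g q)) hlt (by
            have := hEu 0 (by omega)
            rwa [u0, zero_add, e1] at this) (by
            have := hEu (q + 1) (by omega)
            rwa [show q + 1 + 1 = q + 2 by ring, ur, e2, RR_comm] at this)
        obtain ⟨hb, c, hc1, hc2⟩ := consts_of_hop (z := fun l => z l.succ)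
          (Q := fun l m c => QK z κ ρ V W l.succ m.succ c) (fun i j c h => h.symm) hρ hpQ hq0 hq10
          gw gps (by
            intro k hk
            rw [gcl k hk.le, gcl (k + 1) hk]
            exact hEu (k + 1) (by omega)) hok (by linarith) hB
        have hc2' := hc2 A B hok (by linarith)
        rcases hcc with hcc | ⟨c1, c2, hq1, hq2, hcc⟩
        · omega
        have hq1' := hQ0 _ _ hq1
        have hq2' := (hQ0 _ _ hq2).symm
        refine ⟨hop11 c c1 c2, ?_, ?_⟩
        · intro k hk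
          rcases Nat.eq_zero_or_pos k with h0 | h0
          · subst h0
            rw [u0, zero_add, e1, hop11_l]; exact hq1'
          · rcases Nat.lt_or_ge k (q + 1) with h1 | h1
            · obtain ⟨p, rfl⟩ : ∃ p, k = p + 1 := ⟨k - 1, by omega⟩
              rw [← gcl p (by omega), ← gcl (p + 1) (by omega), hop11_s]
              exact hc1 p (by omega)
            · have : k = q + 1 := by omega
              rw [this, show q + 1 + 1 = q + 2 by ring, ur, e2, hop11_r]
              exact hq2'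
        · rw [Finset.sum_range_succ, Finset.sum_range_succ', ur, u0, e2, hop11_l, hop11_r]
          have : ∑ k ∈ Finset.range q, hop11 c c1 c2 (clN 11 (by norm_num) (u (k + 1)))
              (clN 11 (by norm_num) (u (k + 1 + 1))) =
              ∑ k ∈ Finset.range q,
              c (clN 10 (by norm_num) (g k)) (clN 10 (by norm_num) (g (k + 1))) := by
            refine Finset.sum_congr rfl fun k hk => ?_
            have := Finset.mem_range.1 hk
            rw [← gcl k (by omega), ← gcl (k + 1) (by omega), hop11_s]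
          rw [this]; linarith
  obtain ⟨U, hU, ε, hε, h⟩ := point_lift11 hPH
  exact ⟨U, hU, ε, hε, h⟩

end

end Pool.Agent.Helper66.Kiss
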