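import Pool.Agent.Helper66.Kiss.PoleG

set_option autoImplicit false

/-! # The south pole with a moving point: the theorem -/

namespace Pool.Agent.Helper66.Kiss

open Real Set Filter Topology

section

variable {w : Fin 10 → ℝ} {f : Fin 10 → ℝ → ℝ → ℝ} {lo hi : Fin 10 → ℝ} {κ : ℝ}
  {mov : Fin 10 → Prop} {Hp : Fin 10 → Fin 10 → Prop} {Slk : (ℕ → Fin 10) → ℕ → Prop} {δ : ℝ}

/-- the law keeps ten heights in the band -/
lemma PP.band (H : PP w f lo hi κ mov Hp Slk) : ∀ᶠ p : (Fin 10 → ℝ) × ℝ in 𝓝 (w, 0), AdmN p.1 →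
    p.1 ∈ {z : Fin 10 → ℝ | ∀ k, -(1 / 2) ≤ z k ∧ z k ≤ 1 / 2} → 0 ≤ p.2 →
    lawF f p.1 p.2 ∈ {z : Fin 10 → ℝ | ∀ k, -(1 / 2) ≤ z k ∧ z k ≤ 1 / 2} := by
  have hk : ∀ᶠ p : (Fin 10 → ℝ) × ℝ in 𝓝 (w, 0), ∀ k, AdmN p.1 →
      (∀ k, -(1 / 2) ≤ p.1 k ∧ p.1 k ≤ 1 / 2) → 0 ≤ p.2 → -(1 / 2) ≤ lawF f p.1 p.2 k := by
    rw [eventually_all]; intro k
    by_cases hl : w k = -(1 / 2)
    · obtain ⟨v0, hv0, ε, hε, hp⟩ := (H.tch k hl).pieces
      have c1 : Tendsto (fun p : (Fin 10 → ℝ) × ℝ => |p.1 k + 1 / 2|) (𝓝 (w, 0)) (𝓝 0) := by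
        have : Continuous fun p : (Fin 10 → ℝ) × ℝ => |p.1 k + 1 / 2| := by fun_prop
        refine this.tendsto' _ _ ?_
        simp only [hl]; norm_num
      have c2 : Tendsto (fun p : (Fin 10 → ℝ) × ℝ => p.2) (𝓝 (w, 0)) (𝓝 0) :=
        continuous_snd.tendsto' _ _ rfl
      filter_upwards [c1.eventually (gt_mem_nhds hε), c2.eventually (gt_mem_nhds hε)] with p p1 p2
        _ hA h0
      have h1 := (hp (p.1 k) p1).1 0 p.2 le_rfl h0 p2
      rw [(H.tch k hl).start] at h1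
      exact (hA k).1.trans h1
    · have hlt : -(1 / 2) < w k := lt_of_le_of_ne (H.rng k) (Ne.symm hl)
      filter_upwards [(H.ph.comp k).eventually (lt_mem_nhds hlt)] with p hp _ _ _
      exact hp.le
  filter_upwards [H.ph.law.wall, hk] with p hp hk ha hA h0 k
  exact ⟨hk k ha hA h0, hp ha h0 k⟩

/-- **Local lifting at the pole with a moving point.** -/
theorem PP.lift (H : PP w f lo hi κ mov Hp Slk) (s : Fin 11)
    (hHp : ∀ (v : ℕ → ℕ) (m : ℕ), v 0 < v m → Psd s (v m) (v 0) →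
      Hp (clN 10 (by norm_num) (v m)) (clN 10 (by norm_num) (v 0)))
    (hcg : ∀ κ κ' r, (∀ k ≤ r, κ k = κ' k) → Slk κ r → Slk κ' r) (hδ : 0 < δ) :
    ∃ U ∈ 𝓝 (insS s (-1) w), ∃ ε > 0, ∀ y ∈ U, ∀ η, Fe y η → Srtd η →
      ((∀ k, -1 < y k) → ∀ (v : ℕ → ℕ) (m : ℕ), 1 ≤ m → m + 1 ≤ 10 → IsWalk 10 v (m + 1) →
      v (m + 1) = v 0 + 10 → Psd s (v m) (v 0) → Slk (fun k => clN 10 (by norm_num) (v k)) m →
      wd (y s) (y (s.succAbove (clN 10 (by norm_num) (v 0)))) +
        wd (y s) (y (s.succAbove (clN 10 (by norm_num) (v m)))) +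
        twn (fun l => y (s.succAbove l)) (fun k => clN 10 (by norm_num) (v k)) m ≤ 2 * π - δ) →
      ∀ t, 0 ≤ t → t ≤ ε →
      ∃ η', Fe (FF κ f s y t) η' ∧ JoinedIn Conf (pinN y η) (pinN (FF κ f s y t) η') := by
  obtain ⟨U1, hU1, ε1, hε1, hQ⟩ := H.near hcg hδ
  obtain ⟨U2, hU2, ε2, hε2, h2⟩ := point_lift (by norm_num) (prm_pinS s) H.ph H.band
  have hz : ∀ l, insS s (-1) w (s.succAbove l) = w l := fun l => insS_succ _ _ _ _
  have hw : (fun l => insS s (-1) w (s.succAbove l)) = w := funext hz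
  have hres : Continuous fun y : Fin 11 → ℝ => fun l : Fin 10 => y (s.succAbove l) := by fun_prop
  have hpre : ∀ U ∈ 𝓝 w, (fun y : Fin 11 → ℝ => fun l : Fin 10 => y (s.succAbove l)) ⁻¹' U ∈
      𝓝 (insS s (-1) w) := by
    intro U hU
    refine hres.tendsto _ ?_
    rw [hw]; exact hU
  have hgt : ∀ᶠ y in 𝓝 (insS s (-1) w), ∀ l, -1 < y (s.succAbove l) := by
    rw [eventually_all]; intro l
    have := ((continuous_apply (s.succAbove l)).tendsto (insS s (-1) w))
    rw [hz l] at this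
    exact this.eventually (lt_mem_nhds (by linarith [H.rng l] : -1 < w l))
  have hys : ∀ᶠ y in 𝓝 (insS s (-1) w), |y s + 1| < ε1 := by
    have c1 : Tendsto (fun y : Fin 11 → ℝ => |y s + 1|) (𝓝 (insS s (-1) w)) (𝓝 0) := by
      have : Continuous fun y : Fin 11 → ℝ => |y s + 1| := by fun_prop
      refine this.tendsto' _ _ ?_
      simp only [insS_same]; norm_num
    exact c1.eventually (gt_mem_nhds hε1)
  refine ⟨((fun y : Fin 11 → ℝ => fun l : Fin 10 => y (s.succAbove l)) ⁻¹' (U1 ∩ U2)) ∩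
    ({y | ∀ l, -1 < y (s.succAbove l)} ∩ {y | |y s + 1| < ε1}),
    inter_mem (hpre _ (inter_mem hU1 hU2)) (inter_mem hgt hys), min (ε1 / 2) ε2,
    lt_min (by linarith) hε2, ?_⟩
  rintro y ⟨⟨hy1, hy2⟩, hy3, hy4⟩ η hF hsr hsl t h0 ht
  rcases eq_or_lt_of_le (hF.1 s).1 with hys | hys
  swap
  · have hyk : ∀ k, -1 < y k := by
      intro k
      by_cases hk : k = s
      · subst hk; exact hys
      · obtain ⟨l, rfl⟩ := Fin.exists_succAbove_eq hk
        exact hy3 l
    refine lift_regular (w := w) (lo := lo) (hi := hi) (mov := mov) H.κ0 h0 ?_ ?_ ?_ hHp hF hsr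
      hyk (hsl hyk)
    · intro τ t0 t1
      refine hQ _ hy1 τ ?_ _ hy4
      rw [abs_of_nonneg t0]
      have := ht.trans (min_le_left _ _)
      linarith
    · intro k x
      have := congrFun (H.ph.law.start (fun _ => x)) k
      exact this
    · intro k x
      exact H.ph.law.cont (fun _ => x) k
  -- both poles occupied
  set u : Fin 10 → ℝ := fun l => y (s.succAbove l) with hu
  set ζ : Fin 10 → ℝ := fun l => η (s.succAbove l) with hζ
  have ey : insS s (-1) u = y := insS_eq hys.symm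
  have hul : ∀ k, -(1 / 2) ≤ u k ∧ u k ≤ 1 / 2 := by
    intro k
    refine ⟨?_, (hF.1 _).2⟩
    have := hF.2 s (s.succAbove k) (Fin.succAbove_ne s k).symm
    rw [← hys] at this
    unfold gg at this
    norm_num at this
    simp only [hu]; linarith
  obtain ⟨hr, hA, ζ', hg, hJ⟩ := h2 u hy2 hul (fun k => hF.1 _) (fun k => by linarith [(hul k).1]) ζ
    (fun i j hij => hF.2 _ _ (fun h => hij (Fin.succAbove_right_injective h)))
    (hsr.1.comp (Fin.strictMono_succAbove s).monotone) (fun k => hsr.2 _) t h0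
    (ht.trans (min_le_right _ _))
  have hFs : FF κ f s y t s = -1 := by
    rw [FF_same, ← hys]
    unfold sF; ring
  have eF : insS s (-1) (lawF f u t) = FF κ f s y t := by
    have e1 : (fun l => FF κ f s y t (s.succAbove l)) = lawF f u t := by
      funext l; rw [FF_succ]; rfl
    rw [← e1]
    exact insS_eq hFs
  have hpin : ∀ (x : Fin 11 → ℝ) (φ : Fin 11 → ℝ) (q : Fin 10 → ℝ) (θ : Fin 10 → ℝ),
      insS s (-1) q = x → (∀ l, φ (s.succAbove l) = θ l) → pinS s q θ = pinN x φ := by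
    intro x φ q θ hx hφ
    funext k
    refine Fin.cases ?_ (fun k => ?_) k
    · rfl
    · unfold pinS
      rw [pinN_succ, pinN_succ]
      by_cases hk : k = s
      · rw [hk]
        have e1 : (Fin.insertNth (α := fun _ => ℝ) s (-1) q) s = -1 := by simp
        have e2 : x s = -1 := by rw [← hx]; exact insS_same s (-1) q
        rw [e1, e2, pt_neg_one, pt_neg_one]
      · obtain ⟨l, rfl⟩ := Fin.exists_succAbove_eq hk
        have e1 : (Fin.insertNth (α := fun _ => ℝ) s (-1) q) (s.succAbove l) = q l := by simp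
        have e2 : (Fin.insertNth (α := fun _ => ℝ) s 0 θ) (s.succAbove l) = θ l := by simp
        have e3 : x (s.succAbove l) = q l := by rw [← hx]; exact insS_succ s (-1) q l
        rw [e1, e2, e3, hφ]
  have e1 := hpin y η u ζ ey (fun l => rfl)
  have e2 := hpin (FF κ f s y t) (insS s 0 ζ') (lawF f u t) ζ' eF (fun l => insS_succ s 0 ζ' l)
  refine ⟨insS s 0 ζ', ?_, ?_⟩
  · have := fe_insS (s := s) (c := 0) hA hg
    rwa [eF] at this
  · rw [e1, e2] at hJ
    exact hJ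

end

end Pool.Agent.Helper66.Kiss
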