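import Pool.Agent.Helper66.Kiss.Slack
import Pool.Agent.Helper66.Kiss.LeafK
import Pool.Agent.Helper66.Kiss.PoleH
import Pool.Agent.Helper66.Kiss.LeafB

set_option autoImplicit false

/-! # Direction leaves, final form: the pole -/

namespace Pool.Agent.Helper66.Kiss

open Real Set Filter Topology Pk

/-- the hop from `v m` to the next copy of `v 0` passes the first node -/
lemma psd_of_val {v : ℕ → ℕ} {m : ℕ} (h1 : v 0 < v m) (h2 : v m < v 0 + 10)
    (h : (clN 10 (by norm_num) (v 0)).val < (clN 10 (by norm_num) (v m)).val) :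
    Psd 0 (v m) (v 0) := by
  unfold clN at h
  simp only at h
  refine ⟨v 0 / 10 + 1, ?_, ?_⟩
  · simp only [Fin.val_zero, add_zero]; omega
  · simp only [Fin.val_zero, add_zero]; omega

/-- the point among the ten is static -/
def st10 (V W : Fin 10 → ℝ) (l : Fin 10) : Prop := V l = 0 ∧ W l = 0

section

variable {z φ : Fin 11 → ℝ} {V W : Fin 10 → ℝ} {κ ρ : ℝ} {D R : ℕ → ℕ → ℕ}

/-- what the constants mean among the ten heights -/
def Q10 (z : Fin 11 → ℝ) (ρ : ℝ) (V W : Fin 10 → ℝ) (l m : Fin 10) (c : ℝ) : Prop :=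
  (st10 V W l ∧ st10 V W m ∧ -ρ ≤ c) ∨ EBs (fun l : Fin 10 => z l.succ) (hF V W)
    (fun k => hLo (V k) (W k) (z k.succ)) (fun k => hHi (V k) (W k) (z k.succ)) l m (c - 10 * ρ)

lemma Q10.symm {l m : Fin 10} {c : ℝ} (h : Q10 z ρ V W l m c) : Q10 z ρ V W m l c := by
  rcases h with ⟨h1, h2, h3⟩ | h
  · exact Or.inl ⟨h2, h1, h3⟩
  · exact Or.inr (EBs_symm h)

lemma EBq.toQ10 (hvw : ∀ l, VW (V l) (W l)) (hz : ∀ k : Fin 10, -1 < z k.succ ∧ z k.succ ≤ 1 / 2)
    {l m : Fin 10} {c : ℝ} (h : EBq (z l.succ) (z m.succ) (V l) (W l) (V m) (W m) ρ c) :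
    Q10 z ρ V W l m c := by
  rcases h with ⟨h1, h2, h3, h4, h5⟩ | h
  · exact Or.inl ⟨⟨h1, h2⟩, ⟨h3, h4⟩, h5⟩
  · exact Or.inr (EBr.toEBs (z := fun l : Fin 10 => z l.succ) hvw (fun k => (hz k).2)
      (hz l).1 (hz m).1 h)

/-- the number of edges of a closed walk is positive -/
lemma walk_pos {n : ℕ} (hn : 0 < n) {v : ℕ → ℕ} {r : ℕ} (he : v r = v 0 + n) : 1 ≤ r := by
  rcases Nat.eq_zero_or_pos r with h | h
  · rw [h] at he; omega
  · exact h

/-- **the point conditions for the ten heights** -/
theorem LeafK.ph10 (H : LeafK z φ V W κ ρ D R) (hFe : Fe z φ) :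
    PH (n := 10) (by norm_num) (fun l : Fin 10 => z l.succ) (hF V W)
      (fun k => hLo (V k) (W k) (z k.succ)) (fun k => hHi (V k) (W k) (z k.succ))
      (fun _ => False) := by
  have hr : ∀ k : Fin 10, -1 < z k.succ ∧ z k.succ ≤ 1 / 2 := fun k => ⟨H.reg k, (hFe.1 _).2⟩
  have hpQ : ∀ i j : Fin 10, i < j → POKQ (fun l : Fin 10 => z l.succ) (Q10 z ρ V W) ρ i j
      (D i j) (R i j) := by
    intro i j hij
    rcases H.pair i j hij with h | ⟨h1, h2 | ⟨h2, h3⟩⟩
    · exact Or.inl h
    · exact Or.inr ⟨h1, Or.inl h2⟩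
    · exact Or.inr ⟨h1, Or.inr ⟨h2, EBq.toQ10 H.vw hr h3⟩⟩
  have hst : ∀ k, st10 V W k → Stat (fun l : Fin 10 => z l.succ) (hF V W) k := fun k h =>
    stat_hF h.1 h.2
  refine ⟨hF_law H.vw (fun k => (hr k).2), ?_, ?_, ?_, ?_, ?_, ?_, ?_⟩
  · intro i j h; exact absurd h (by simp)
  · intro s' h; exact absurd h (by simp)
  · intro s' h; exact absurd h (by simp)
  · intro k _; exact hr k
  · intro s' k h; exact absurd h (by simp)
  · intro i j hij _ _
    exact (Real.neg_one_le_cos _).trans (cos_le_of_gg (hr i) (hr j) (hFe.2 i.succ j.succ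
      (fun h => hij (Fin.succ_injective _ h))))
  · intro v r hr' hv he hE h1 _
    have hE' : ∀ k < r, RR (z (clN 10 (by norm_num) (v k)).succ)
        (z (clN 10 (by norm_num) (v (k + 1))).succ) ≤ 1 := fun k hk => by
      rcases hE k hk with ⟨h, -⟩ | ⟨h, -⟩ | ⟨-, -, h⟩
      · exact absurd h (by simp)
      · exact absurd h (by simp)
      · exact h
    obtain ⟨c, hc1, hc2⟩ := consts_of_inc (Q := Q10 z ρ V W) (fun i j c h => h.symm)
      (by norm_num) (by norm_num) H.ρ0 hpQ H.walks hv he hE' (h1 fun _ _ h => h)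
    rcases finish_consts (χ := fun k => clN 10 (by norm_num) (v k))
      (E := EBs (fun l : Fin 10 => z l.succ) (hF V W)
        (fun k => hLo (V k) (W k) (z k.succ)) (fun k => hHi (V k) (W k) (z k.succ)))
      (fun i j hi hj => Or.inr ⟨monoQ_stat (hst i hi) (hst j hj), le_rfl⟩) H.ρ0
      (walk_pos (by norm_num) he) (by omega) hc1 hc2 with h | ⟨c', h3, h4⟩
    · exact Or.inl fun k hk => hst _ (h k hk)
    · refine Or.inr ⟨c', fun k hk _ _ => h3 k hk, Or.inr ?_⟩
      have e : sumS (fun _ : Fin 10 => False) c' (fun k => clN 10 (by norm_num) (v k)) r =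
          ∑ k ∈ Finset.range r, c' k := by
        unfold sumS
        refine Finset.sum_congr rfl fun k _ => ?_
        rw [if_neg (by simp)]
      rw [e]; exact h4

/-- **the pole with a moving point** -/
theorem LeafK.lifts2 (H : LeafK z φ V W κ ρ D R) (hFe : Fe z φ) (hz : z 0 = -1)
    (hκ : 0 < κ)
    (ht : ∀ l : Fin 10, z l.succ = -(1 / 2) → 0 ≤ V l ∧ V l ≤ W l ∧ 0 < W l) :
    LiftsN z φ (hF (kV κ V) (kV κ W)) := by
  have hpi := Real.pi_pos
  have hρ := H.ρ0
  have hr : ∀ k : Fin 10, -1 < z k.succ ∧ z k.succ ≤ 1 / 2 := fun k => ⟨H.reg k, (hFe.1 _).2⟩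
  have hlow : ∀ l : Fin 10, -(1 / 2) ≤ z l.succ := by
    intro k
    have := hFe.2 0 k.succ (Fin.succ_ne_zero k).symm
    rw [hz] at this
    unfold gg at this
    norm_num at this
    linarith
  have hpQ : ∀ i j : Fin 10, i < j → POKQ (fun l : Fin 10 => z l.succ) (Q10 z ρ V W) ρ i j
      (D i j) (R i j) := by
    intro i j hij
    rcases H.pair i j hij with h | ⟨h1, h2 | ⟨h2, h3⟩⟩
    · exact Or.inl h
    · exact Or.inr ⟨h1, Or.inl h2⟩
    · exact Or.inr ⟨h1, Or.inr ⟨h2, EBq.toQ10 H.vw hr h3⟩⟩
  have hst : ∀ k, st10 V W k → Stat (fun l : Fin 10 => z l.succ) (hF V W) k := fun k h =>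
    stat_hF h.1 h.2
  have hPP : PP (fun l : Fin 10 => z l.succ) (fun l => hf (V l) (W l))
      (fun k => hLo (V k) (W k) (z k.succ)) (fun k => hHi (V k) (W k) (z k.succ)) κ
      (fun l => 0 < V l) (fun l m => m < l) (SlkT z φ) := by
    refine ⟨H.ph10 hFe, hκ.le, fun _ _ _ => hκ, hlow, ?_, ?_⟩
    · intro l hl
      obtain ⟨h1, h2, h3⟩ := ht l hl
      exact hf_tch h1 h2 h3
    · intro v m hm hm10 hv he hp hz0 hzm hE htw hsl
      have hpv : (clN 10 (by norm_num) (v 0)).val < (clN 10 (by norm_num) (v m)).val := hp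
      have hge := isWalk_ge hv m (by omega)
      have hlt := (hv m (by omega)).1
      have hps : Psd 0 (v m) (v 0) := psd_of_val (by omega) (by omega) hpv
      obtain ⟨⟨A, B, hok, hA, hB⟩, hcc⟩ := H.hopP hz _ _ hp hz0 hzm
      unfold SlkT at hsl
      push Not at hsl
      obtain ⟨-, c, hc1, hc2⟩ := consts_of_hop (z := fun l : Fin 10 => z l.succ)
        (Q := Q10 z ρ V W) (fun i j c h => h.symm) hρ hpQ hm hm10 hv hps hE hok
        (by linarith) hB
      set χ : ℕ → Fin 10 := fun k => clN 10 (by norm_num) (v k) with hχ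
      have hns : ¬ st10 V W (χ 0) := fun h => by
        have := (ht _ hz0).2.2
        rw [h.2] at this
        exact lt_irrefl _ this
      have hfix := fixc_sum (st := st10 V W) (χ := χ) (c := c) hρ hm (by omega) ⟨0, by omega, hns⟩
      refine ⟨fun k => fixc (st10 V W) ρ c (χ k) (χ (k + 1)), fun k hk => ?_, ?_⟩
      · exact fixc_ok (E := EBs (fun l : Fin 10 => z l.succ) (hF V W)
          (fun k => hLo (V k) (W k) (z k.succ)) (fun k => hHi (V k) (W k) (z k.succ)))
          (fun i j hi hj => Or.inr ⟨monoQ_stat (hst i hi) (hst j hj), le_rfl⟩) (hc1 k hk)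
      · by_cases hπ : twn (fun l : Fin 10 => z l.succ) χ m < π
        · exact Or.inl hπ
        push Not at hπ
        set T := twn (fun l : Fin 10 => z l.succ) χ m with hT
        set θ := (2 * π - T) / 2 with hθ
        have hθ0 : 0 ≤ θ := by simp only [hθ]; linarith
        have hθ1 : θ ≤ π / 2 := by simp only [hθ]; linarith
        have hsin : 0 ≤ sin θ := Real.sin_nonneg_of_nonneg_of_le_pi hθ0 (by linarith)
        have hcos : 0 ≤ cos θ := Real.cos_nonneg_of_neg_pi_div_two_le_of_le (by linarith) hθ1
        have key : (∑ k ∈ Finset.range m, c (χ k) (χ (k + 1))) * sin θ < 2 * κ * cos θ →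
            (∑ k ∈ Finset.range m, fixc (st10 V W) ρ c (χ k) (χ (k + 1))) * sin θ <
              2 * κ * cos θ := fun h => by
          have := mul_le_mul_of_nonneg_right hfix hsin
          linarith
        rcases eq_or_lt_of_le hθ0 with h0 | h0
        · refine Or.inr (Or.inr (Or.inr (key ?_)))
          rw [← h0, sin_zero, cos_zero]
          linarith
        rcases hcc with h | h | h | ⟨-, h⟩
        · exact Or.inr (Or.inl h)
        · exact Or.inr (Or.inr (Or.inl h))
        · refine Or.inr (Or.inr (Or.inr (key ?_)))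
          obtain ⟨A, B, hok, hA, h⟩ := h
          have h1 := hc2 A B hok (by linarith)
          have h2 : (2 ^ 23 : ℝ) ≤ B := by exact_mod_cast h
          have h3 : 0 ≤ ((B : ℝ) - 2 ^ 23) * ρ := mul_nonneg (by linarith) hρ.le
          have h4 : 0 < sin θ := Real.sin_pos_of_pos_of_lt_pi h0 (by linarith)
          have h5 : (∑ k ∈ Finset.range m, c (χ k) (χ (k + 1))) * sin θ < 0 :=
            mul_neg_of_neg_of_pos (by linarith) h4
          have h6 : 0 ≤ 2 * κ * cos θ := by positivity
          linarith
        · refine Or.inr (Or.inr (Or.inr (key ?_)))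
          obtain ⟨A', B', k1, k2, k3⟩ := h θ h0 hθ1 (by simp only [hθ]; linarith)
          have h1 := hc2 A' B' k1 (by
            have : 2 * θ = 2 * π - T := by simp only [hθ]; ring
            linarith)
          have h4 : 0 < sin θ := Real.sin_pos_of_pos_of_lt_pi h0 (by linarith)
          have h5 := mul_neg_of_neg_of_pos h1 h4
          rw [add_mul] at h5
          linarith
  obtain ⟨δ, hδ, hnear⟩ := slk_near (φ := φ) hr
  obtain ⟨U, hU, ε, hε, h⟩ := hPP.lift 0 (fun v m h1 h2 => psd_zero h1 h2)
    (fun _ _ _ h hs => hs.congr h) hδ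
  have e : insS 0 (-1) (fun l : Fin 10 => z l.succ) = z := by
    have := insS_eq (s := 0) (c := -1) (y := z) hz
    simpa only [Fin.succAbove_zero] using this
  rw [e] at hU
  refine ⟨_, inter_mem (continuous_fst.continuousAt hU) hnear, ε, hε, ?_⟩
  rintro y η ⟨hy, hy2⟩ hF hs t h0 h1
  obtain ⟨η', k1, k2⟩ := h y hy η hF hs (fun hy1 v m hm hm10 hv he hp hsl => by
    simp only [Fin.succAbove_zero]
    exact hy2 hF hs hy1 v m hm hm10 hv he hp hsl) t h0 h1
  have e2 := FF_eq_hF (s := 0) (V := V) (W := W) hκ.le (fun k => hF.1 k) h0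
  rw [e2] at k1 k2
  exact ⟨η', k1, k2⟩

/-- **the pole with a fixed point** -/
theorem LeafK.lifts3 (H : LeafK z φ V W κ ρ D R) (hFe : Fe z φ) (hz : z 0 = -1)
    (hκ : κ = 0) (ht : ∀ l : Fin 10, z l.succ = -(1 / 2) → 0 < V l ∨ (V l = 0 ∧ W l = 0)) :
    LiftsN z φ (hF (kV κ V) (kV κ W)) := by
  classical
  have hpi := Real.pi_pos
  have hρ := H.ρ0
  have hr : ∀ k : Fin 10, -1 < z k.succ ∧ z k.succ ≤ 1 / 2 := fun k => ⟨H.reg k, (hFe.1 _).2⟩
  have hlow : ∀ l : Fin 10, -(1 / 2) ≤ z l.succ := by
    intro k
    have := hFe.2 0 k.succ (Fin.succ_ne_zero k).symm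
    rw [hz] at this
    unfold gg at this
    norm_num at this
    linarith
  set v11 := kV κ V with hv11
  set w11 := kV κ W with hw11
  set lo11 : Fin 11 → ℝ := fun k => hLo (v11 k) (w11 k) (z k) with hlo11
  set hi11 : Fin 11 → ℝ := fun k => hHi (v11 k) (w11 k) (z k) with hhi11
  have hz12 : ∀ k, z k ≤ 1 / 2 := fun k => (hFe.1 k).2
  have hQs : ∀ l m : Fin 10, ∀ c, EBq (z l.succ) (z m.succ) (V l) (W l) (V m) (W m) ρ c →
      QK z κ ρ V W l.succ m.succ c := by
    intro l m c h
    refine EBq.toQK H.vw hz12 (hr _).1 (hr _).1 ?_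
    simp only [kV_succ]; exact h
  have hpQ : ∀ i j : Fin 10, i < j → POKQ (fun l => z l.succ)
      (fun l m c => QK z κ ρ V W l.succ m.succ c) ρ i j (D i j) (R i j) := by
    intro i j hij
    rcases H.pair i j hij with h | ⟨h1, h2 | ⟨h2, h3⟩⟩
    · exact Or.inl h
    · exact Or.inr ⟨h1, Or.inl h2⟩
    · exact Or.inr ⟨h1, Or.inr ⟨h2, hQs _ _ _ h3⟩⟩
  have hst : ∀ k, stK κ V W k → Stat z (hF v11 w11) k := fun k h => stat_hF h.1 h.2
  have hst0 : stK κ V W 0 := by
    unfold stK; rw [kV_zero, kV_zero, hκ, neg_zero]; exact ⟨rfl, rfl⟩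
  have hE0 : ∀ i j, stK κ V W i → stK κ V W j → EBs z (hF v11 w11) lo11 hi11 i j 0 :=
    fun i j hi hj => Or.inr ⟨monoQ_stat (hst i hi) (hst j hj), le_rfl⟩
  have hVlo : ∀ l : Fin 10, z l.succ = -(1 / 2) → 0 < V l → 0 < lo11 l.succ := by
    intro l hl hV
    show 0 < hLo (kV κ V l.succ) (kV κ W l.succ) (z l.succ)
    rw [kV_succ, kV_succ, hl]
    unfold hLo
    rw [if_neg (by norm_num), if_neg (lt_irrefl _)]
    have : (0 : ℝ) < 1 - (-(1 / 2)) ^ 2 := by norm_num
    positivity
  have hPH : PHs (n := 11) (by norm_num) z (hF v11 w11) lo11 hi11 (fun k => k = 0)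
      (SlkE z φ) := by
    refine ⟨hF_law (kV_VW H.vw) hz12, ?_, ?_, ?_, ?_, ?_, ?_, ?_⟩
    · rintro i j rfl rfl; rfl
    · rintro s' rfl; exact hz
    · rintro s' rfl; exact hst 0 hst0
    · intro k hk
      obtain ⟨l, rfl⟩ := Fin.exists_succ_eq.2 hk
      exact hr l
    · rintro s' k rfl hk
      obtain ⟨l, rfl⟩ := Fin.exists_succ_eq.2 hk
      refine ⟨hlow l, fun h => ?_⟩
      rcases ht l h with h1 | ⟨h1, h2⟩
      · exact Or.inl (hVlo l h h1)
      · refine Or.inr (hst _ ?_)
        unfold stK; rw [kV_succ, kV_succ]; exact ⟨h1, h2⟩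
    · intro i j hij hi hj
      obtain ⟨l, rfl⟩ := Fin.exists_succ_eq.2 hi
      obtain ⟨m, rfl⟩ := Fin.exists_succ_eq.2 hj
      exact (Real.neg_one_le_cos _).trans (cos_le_of_gg (hr l) (hr m) (hFe.2 _ _ hij))
    · intro v r hr' hv he hE h1 h2
      have hrpos := walk_pos (by norm_num : 0 < 11) he
      rcases walk_split hv he with ⟨hr10, g, gw, ge, gcl⟩ |
        ⟨u, g, q, rfl, uw, ue, u0, ur, usum, uQ, gcl, hq⟩
      · -- the walk avoids the first node
        have hnS : ∀ k ≤ r, clN 11 (by norm_num) (v k) ≠ 0 := by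
          intro k hk
          rw [← gcl k hk]; exact Fin.succ_ne_zero _
        have hE' : ∀ k < r, RR (z (clN 11 (by norm_num) (v k)))
            (z (clN 11 (by norm_num) (v (k + 1)))) ≤ 1 := fun k hk => by
          rcases hE k hk with ⟨h, -⟩ | ⟨h, -⟩ | ⟨-, -, h⟩
          · exact absurd h (hnS k hk.le)
          · exact absurd h (hnS (k + 1) hk)
          · exact h
        have htt := h1 fun k hk => hnS k hk.le
        obtain ⟨c, hc1, hc2⟩ := consts_of_inc (Q := fun l m c => QK z κ ρ V W l.succ m.succ c)
          (fun i j c h => h.symm) (by norm_num) (by norm_num) hρ hpQ H.walks gw ge (by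
            intro k hk
            rw [gcl k hk.le, gcl (k + 1) hk]
            exact hE' k hk) (by rw [twn_succ gcl]; exact htt)
        have hc1' : ∀ k < r, QK z κ ρ V W (clN 11 (by norm_num) (v k))
            (clN 11 (by norm_num) (v (k + 1)))
            (cl11 c (clN 11 (by norm_num) (v k)) (clN 11 (by norm_num) (v (k + 1)))) := by
          intro k hk
          rw [← gcl k hk.le, ← gcl (k + 1) hk, cl11_succ]
          exact hc1 k hk
        have hc2' : ∑ k ∈ Finset.range r, cl11 c (clN 11 (by norm_num) (v k))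
              (clN 11 (by norm_num) (v (k + 1))) < 0 := by
          have : ∑ k ∈ Finset.range r, cl11 c (clN 11 (by norm_num) (v k))
              (clN 11 (by norm_num) (v (k + 1))) = ∑ k ∈ Finset.range r,
              c (clN 10 (by norm_num) (g k)) (clN 10 (by norm_num) (g (k + 1))) := by
            refine Finset.sum_congr rfl fun k hk => ?_
            have := Finset.mem_range.1 hk
            rw [← gcl k this.le, ← gcl (k + 1) this, cl11_succ]
          rw [this]; exact hc2
        rcases finish_consts (χ := fun k => clN 11 (by norm_num) (v k)) hE0 hρ hrpos hr' hc1' hc2'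
          with h | ⟨c', h3, h4⟩
        · exact Or.inl fun k hk => hst _ (h k hk)
        · refine Or.inr ⟨c', fun k hk _ _ => h3 k hk, Or.inr ?_⟩
          have e : sumS (fun k : Fin 11 => k = 0) c' (fun k => clN 11 (by norm_num) (v k)) r =
              ∑ k ∈ Finset.range r, c' k := by
            unfold sumS
            refine Finset.sum_congr rfl fun k hk => ?_
            have := Finset.mem_range.1 hk
            rw [if_neg]
            rintro (h | h)
            · exact hnS k this.le h
            · exact hnS (k + 1) this h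
          rw [e]; exact h4
      · -- the walk passes the first node
        have hEu := uQ (fun i j => Eok z (fun k => k = 0) i j) hE
        have e1 : clN 11 (by norm_num) (u 1) = (clN 10 (by norm_num) (g 0)).succ :=
          (gcl 0 (by omega)).symm
        have e2 : clN 11 (by norm_num) (u (q + 1)) = (clN 10 (by norm_num) (g q)).succ :=
          (gcl q le_rfl).symm
        have hz0 : z (clN 10 (by norm_num) (g 0)).succ = -(1 / 2) := by
          have := hEu 0 (by omega)
          rw [u0, zero_add, e1] at this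
          rcases this with ⟨-, h⟩ | ⟨h, -⟩ | ⟨h, -, -⟩
          · exact h
          · exact absurd h (Fin.succ_ne_zero _)
          · exact absurd rfl h
        have hzq : z (clN 10 (by norm_num) (g q)).succ = -(1 / 2) := by
          have := hEu (q + 1) (by omega)
          rw [show q + 1 + 1 = q + 2 by ring, ur, e2] at this
          rcases this with ⟨h, -⟩ | ⟨-, h⟩ | ⟨-, h, -⟩
          · exact absurd h (Fin.succ_ne_zero _)
          · exact h
          · exact absurd rfl h
        -- all points are static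
        by_cases hall : ∀ k ≤ q, stK κ V W (clN 10 (by norm_num) (g k)).succ
        · left
          have hu : ∀ k < q + 2, stK κ V W (clN 11 (by norm_num) (u k)) ∧
              stK κ V W (clN 11 (by norm_num) (u (k + 1))) := by
            have hk : ∀ k ≤ q + 2, stK κ V W (clN 11 (by norm_num) (u k)) := by
              intro k hk
              rcases Nat.eq_zero_or_pos k with h | h
              · rw [h, u0]; exact hst0
              · rcases Nat.lt_or_ge k (q + 2) with h' | h'
                · obtain ⟨p, rfl⟩ : ∃ p, k = p + 1 := ⟨k - 1, by omega⟩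
                  rw [← gcl p (by omega)]; exact hall p (by omega)
                · have : k = q + 2 := by omega
                  rw [this, ur]; exact hst0
            exact fun k hk' => ⟨hk k (by omega), hk (k + 1) (by omega)⟩
          have hv' := all_of_sums (κ' := fun k => clN 11 (by norm_num) (u k))
              (κ := fun k => clN 11 (by norm_num) (v k)) usum
              (Q := fun i j => stK κ V W i ∧ stK κ V W j) hu
          intro k hk
          rcases Nat.lt_or_ge k (q + 2) with h | h
          · exact hst _ (hv' k h).1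
          · have : k = q + 1 + 1 := by omega
            rw [this]
            exact hst _ (hv' (q + 1) (by omega)).2
        push Not at hall
        obtain ⟨k1, hk1, hns⟩ := hall
        right
        -- a touching point moves
        have hmov : ∀ l : Fin 10, (∃ k < q + 2, (clN 11 (by norm_num) (u k) = 0 ∧
            clN 11 (by norm_num) (u (k + 1)) = l.succ) ∨ (clN 11 (by norm_num) (u (k + 1)) = 0 ∧
            clN 11 (by norm_num) (u k) = l.succ)) → z l.succ = -(1 / 2) → 0 < V l →
            Mov lo11 (fun k => k = 0) (fun k => clN 11 (by norm_num) (v k)) (q + 2) := by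
          intro l hl hzl hV
          by_contra hcon
          have h3 : ∀ k < q + 2, ¬ ((clN 11 (by norm_num) (v k) = 0 ∧
              0 < lo11 (clN 11 (by norm_num) (v (k + 1)))) ∨
              (clN 11 (by norm_num) (v (k + 1)) = 0 ∧
              0 < lo11 (clN 11 (by norm_num) (v k)))) := by
            intro k hk h
            exact hcon ⟨k, hk, h⟩
          have h4 := uQ (fun i j => ¬ ((i = 0 ∧ 0 < lo11 j) ∨ (j = 0 ∧ 0 < lo11 i))) h3
          obtain ⟨k, hk, h | h⟩ := hl
          · refine h4 k hk (Or.inl ⟨h.1, ?_⟩)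
            rw [h.2]; exact hVlo l hzl hV
          · refine h4 k hk (Or.inr ⟨h.1, ?_⟩)
            rw [h.2]; exact hVlo l hzl hV
        have hm0 : 0 < V (clN 10 (by norm_num) (g 0)) →
            Mov lo11 (fun k => k = 0) (fun k => clN 11 (by norm_num) (v k)) (q + 2) := by
          refine hmov _ ⟨0, by omega, Or.inl ⟨u0, e1⟩⟩ hz0
        have hmq : 0 < V (clN 10 (by norm_num) (g q)) →
            Mov lo11 (fun k => k = 0) (fun k => clN 11 (by norm_num) (v k)) (q + 2) := by
          refine hmov _ ⟨q + 1, by omega, Or.inr ⟨ur, e2⟩⟩ hzq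
        rcases Nat.eq_zero_or_pos q with hq0 | hq0
        · subst hq0
          have hk10 : k1 = 0 := by omega
          subst hk10
          refine ⟨fun _ => 0, fun k hk hk1 hk2 => ?_, Or.inl (hm0 ?_)⟩
          · exfalso
            -- every edge of the walk contains the first node
            have h5 := all_of_sums (κ' := fun k => clN 11 (by norm_num) (u k))
              (κ := fun k => clN 11 (by norm_num) (v k)) usum
              (Q := fun i j => i = 0 ∨ j = 0) (by
                intro k hk
                interval_cases k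
                · exact Or.inl u0
                · exact Or.inr ur) k hk
            rcases h5 with h5 | h5
            · exact hk1 h5
            · exact hk2 h5
          · rcases ht _ hz0 with h | ⟨h, h'⟩
            · exact h
            · exfalso; apply hns
              unfold stK; rw [kV_succ, kV_succ]; exact ⟨h, h'⟩
        obtain ⟨hq10, gw, ge, gps⟩ := hq hq0
        have hlt := (hop_walk (D := D) (R := R) hq0 gw gps).1
        obtain ⟨⟨A, B, hok, hA, hB⟩, hcc⟩ := H.hopP hz (clN 10 (by norm_num) (g 0))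
          (clN 10 (by norm_num) (g q)) hlt hz0 hzq
        -- the walk is not slack
        have hvis : ∃ k < q + 2, clN 11 (by norm_num) (v k) = 0 := by
          by_contra hcon
          push Not at hcon
          exact uQ (fun i _ => i ≠ 0) hcon 0 (by omega) u0
        have hsl := (h2 hvis).2
        rw [SlkE_iff u0 ur usum gcl] at hsl
        unfold SlkT at hsl
        push Not at hsl
        obtain ⟨-, c, hc1, hc2⟩ := consts_of_hop (z := fun l => z l.succ)
          (Q := fun l m c => QK z κ ρ V W l.succ m.succ c) (fun i j c h => h.symm) hρ hpQ hq0 hq10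
          gw gps (by
            intro k hk
            rw [gcl k hk.le, gcl (k + 1) hk]
            rcases hEu (k + 1) (by omega) with ⟨h, -⟩ | ⟨h, -⟩ | ⟨-, -, h⟩
            · rw [← gcl k hk.le] at h; exact absurd h (Fin.succ_ne_zero _)
            · rw [← gcl (k + 1) hk] at h; exact absurd h (Fin.succ_ne_zero _)
            · exact h) hok (by linarith) hB
        -- constants of pairs
        set st : Fin 10 → Prop := fun l => stK κ V W l.succ with hstd
        set C : Fin 11 → Fin 11 → ℝ := hop11 (fixc st ρ c) 0 0 with hC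
        have hCu : ∀ k < q + 2, clN 11 (by norm_num) (u k) ≠ 0 →
            clN 11 (by norm_num) (u (k + 1)) ≠ 0 →
            EBs z (hF v11 w11) lo11 hi11 (clN 11 (by norm_num) (u k))
              (clN 11 (by norm_num) (u (k + 1)))
              (C (clN 11 (by norm_num) (u k)) (clN 11 (by norm_num) (u (k + 1)))) := by
          intro k hk k0 k0'
          rcases Nat.eq_zero_or_pos k with h0 | h0
          · exact absurd (by rw [h0]; exact u0) k0
          rcases Nat.lt_or_ge k (q + 1) with h1' | h1'
          · obtain ⟨p, rfl⟩ : ∃ p, k = p + 1 := ⟨k - 1, by omega⟩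
            rw [← gcl p (by omega), ← gcl (p + 1) (by omega), hC, hop11_s]
            exact fixc_ok (X := Fin 10) (st := st) (E := fun l m c => EBs z (hF v11 w11) lo11 hi11
              l.succ m.succ c) (fun i j hi hj => hE0 _ _ hi hj) (hc1 p (by omega))
          · have : k + 1 = q + 2 := by omega
            exact absurd (by rw [this]; exact ur) k0'
        have hCv := all_of_sums (κ' := fun k => clN 11 (by norm_num) (u k))
              (κ := fun k => clN 11 (by norm_num) (v k)) usum
              (Q := fun i j => i ≠ 0 → j ≠ 0 → EBs z (hF v11 w11) lo11 hi11 i j (C i j)) hCu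
        refine ⟨fun k => C (clN 11 (by norm_num) (v k)) (clN 11 (by norm_num) (v (k + 1))),
          fun k hk a b => hCv k hk a b, ?_⟩
        rcases hcc with h | h | h | ⟨h, -⟩
        · exact Or.inl (hm0 h)
        · exact Or.inl (hmq h)
        · right
          obtain ⟨A, B, hok, hA, h⟩ := h
          have hs := hc2 A B hok (by linarith)
          have h2' : (2 ^ 23 : ℝ) ≤ B := by exact_mod_cast h
          have h3 : 0 ≤ ((B : ℝ) - 2 ^ 23) * ρ := mul_nonneg (by linarith) hρ.le
          have hfix := fixc_sum (st := st) (χ := fun k => clN 10 (by norm_num) (g k)) (c := c) hρ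
            hq0 (by omega) ⟨k1, hk1, hns⟩
          have hsum : sumS (fun k : Fin 11 => k = 0)
              (fun k => C (clN 11 (by norm_num) (v k)) (clN 11 (by norm_num) (v (k + 1))))
              (fun k => clN 11 (by norm_num) (v k)) (q + 2) =
              ∑ k ∈ Finset.range q, fixc st ρ c (clN 10 (by norm_num) (g k))
                (clN 10 (by norm_num) (g (k + 1))) := by
            have a1 : sumS (fun k : Fin 11 => k = 0)
              (fun k => C (clN 11 (by norm_num) (v k)) (clN 11 (by norm_num) (v (k + 1))))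
              (fun k => clN 11 (by norm_num) (v k)) (q + 2) =
              ∑ k ∈ Finset.range (q + 2), (fun i j : Fin 11 => if i = 0 ∨ j = 0 then 0 else C i j)
                (clN 11 (by norm_num) (v k)) (clN 11 (by norm_num) (v (k + 1))) := by
              unfold sumS
              refine Finset.sum_congr rfl fun k _ => ?_
              by_cases h : clN 11 (by norm_num) (v k) = 0 ∨ clN 11 (by norm_num) (v (k + 1)) = 0
              · simp only [if_pos h]
              · simp only [if_neg h]
            rw [a1, ← usum (fun i j : Fin 11 => if i = 0 ∨ j = 0 then 0 else C i j),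
              Finset.sum_range_succ, Finset.sum_range_succ', ur, u0]
            simp only [true_or, or_true, if_true, add_zero]
            refine Finset.sum_congr rfl fun k hk => ?_
            have hk' := Finset.mem_range.1 hk
            rw [← gcl k (by omega), ← gcl (k + 1) (by omega), hC, hop11_s, if_neg]
            rintro (h | h)
            · exact Fin.succ_ne_zero _ h
            · exact Fin.succ_ne_zero _ h
          rw [hsum]
          linarith
        · rw [hκ] at h; exact absurd h (lt_irrefl _)
  obtain ⟨δ, hδ, hnear⟩ := slk_near11 (φ := φ) hr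
  obtain ⟨U, hU, ε, hε, h⟩ := point_lift11_s hPH (fun _ _ _ h hs => hs.congr h) hδ
  refine ⟨_, inter_mem (continuous_fst.continuousAt hU) hnear, ε, hε, ?_⟩
  rintro y η ⟨hy, hy2⟩ hF hs t h0 h1
  exact h y hy η hF hs (fun hy1 v r hr hv he hS hsl => hy2 hF hs hy1 v r hr hv he hS hsl) t h0 h1

/-- **the law of a direction leaf lifts** -/
theorem LeafK.lifts (H : LeafK z φ V W κ ρ D R) (hFe : Fe z φ) :
    LiftsN z φ (hF (kV κ V) (kV κ W)) := by
  rcases eq_or_lt_of_le (hFe.1 0).1 with hz | hz
  · rcases H.touch hz.symm with ⟨h1, h2⟩ | ⟨h1, h2⟩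
    · exact H.lifts2 hFe hz.symm h1 h2
    · exact H.lifts3 hFe hz.symm h1 h2
  · exact (H.lifts1 hFe hz).toN

end

end Pool.Agent.Helper66.Kiss
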