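import Pool.Agent.Helper66.Kiss.PkC

set_option autoImplicit false

/-! # Direction leaves for ten cyclic heights: all places of the first point -/

namespace Pool.Agent.Helper66.Kiss.Pk

open Finset

/-- the table of a rotation -/
def rotT (g : ℕ) (T : ℕ → ℕ → ℕ) (i j : ℕ) : ℕ := ee T ((i + g) % 10) ((j + g) % 10)

/-- no path from `M` forward to `L`, closed by the entry `(A, B)`, fails the numerical test -/
def HopC (D R : ℕ → ℕ → ℕ) (M L A B : ℕ) : Prop :=
  HopI (rotT M D) (rotT M R) 0 ((L + 10 - M) % 10) A B

/-- the test is invariant under rotations -/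
theorem IncOK.rot {D R : ℕ → ℕ → ℕ} (h : IncOK 10 D R D R) (g : ℕ) :
    IncOK 10 (rotT g D) (rotT g R) (rotT g D) (rotT g R) := by
  intro u q hq hu hlt
  have hmono : ∀ k j, k < j → j ≤ q → u k < u j := by
    intro k j hkj
    induction j with
    | zero => omega
    | succ j ih =>
      intro hj
      have h1 := hu j (by omega)
      rcases Nat.lt_or_ge k j with h2 | h2
      · have := ih h2 (by omega); omega
      · have : k = j := by omega
        rw [this]; exact h1
  have h0q := hmono 0 q (by omega) le_rfl
  set v : ℕ → ℕ := fun k => if k ≤ q then u k + g else u 0 + g + 10 with hv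
  have v_le : ∀ k, k ≤ q → v k = u k + g := fun k hk => if_pos hk
  have v_last : v (q + 1) = u 0 + g + 10 := if_neg (by omega)
  have hw : IsWalk 10 v (q + 1) := by
    intro k hk
    rcases Nat.lt_or_ge k q with h1 | h1
    · rw [v_le k h1.le, v_le (k + 1) h1]
      have h2 := hu k h1
      have h3 : u (k + 1) ≤ u q := by
        rcases Nat.lt_or_ge (k + 1) q with h4 | h4
        · exact (hmono _ _ h4 le_rfl).le
        · have : k + 1 = q := by omega
          rw [this]
      constructor <;> omega
    · have : k = q := by omega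
      rw [this, v_le q le_rfl, v_last]
      constructor <;> omega
  have he : v (q + 1) = v 0 + 10 := by rw [v_last, v_le 0 (by omega)]
  have key : ∀ T : ℕ → ℕ → ℕ, ∑ k ∈ range (q + 1), ee T (clN 10 (by norm_num) (v k)).val
      (clN 10 (by norm_num) (v (k + 1))).val =
      ∑ k ∈ range q, rotT g T (u k) (u (k + 1)) + rotT g T (u 0) (u q) := by
    intro T
    rw [sum_range_succ]
    congr 1
    · refine sum_congr rfl fun k hk => ?_
      have := mem_range.1 hk
      unfold clN rotT
      simp only [v_le k this.le, v_le (k + 1) this]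
    · unfold clN rotT
      simp only [v_le q le_rfl, v_last, Nat.add_mod_right]
      exact ee_comm _ _ _
  have := walk_of_inc (n := 10) (by norm_num) h hw he
  rw [key, key] at this
  exact this

lemma rot_add {m a g : ℕ} (h : m ≤ a) : (a - m + (m + g) % 10) % 10 = (a + g) % 10 := by
  omega

theorem HopC.hopI {D R : ℕ → ℕ → ℕ} {g m l A B : ℕ} (hml : m < l) (hl : l < 10)
    (h : HopC D R ((m + g) % 10) ((l + g) % 10) A B) : HopI (rotT g D) (rotT g R) m l A B := by
  intro u q hq hu h0 h1
  have hge : ∀ k, k ≤ q → m ≤ u k := by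
    intro k
    induction k with
    | zero => intro _; omega
    | succ k ih => intro hk; have := ih (by omega); have := hu k (by omega); omega
  have := h (fun k => u k - m) q hq (fun k hk => by
    have h2 := hu k hk
    have h3 := hge k hk.le
    show u k - m < u (k + 1) - m
    omega) (by show u 0 - m = 0; omega) (by
    show u q - m = ((l + g) % 10 + 10 - (m + g) % 10) % 10; omega)
  have key : ∀ T : ℕ → ℕ → ℕ, ∑ k ∈ range q, rotT ((m + g) % 10) T (u k - m) (u (k + 1) - m) =
      ∑ k ∈ range q, rotT g T (u k) (u (k + 1)) := by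
    intro T
    refine sum_congr rfl fun k hk => ?_
    have hk' := mem_range.1 hk
    unfold rotT
    rw [rot_add (hge k hk'.le), rot_add (hge (k + 1) hk')]
  rw [key, key] at this
  exact this

theorem HopI.hopC {D R : ℕ → ℕ → ℕ} {g m l A B : ℕ} (hml : m < l) (hl : l < 10)
    (h : HopI (rotT g D) (rotT g R) m l A B) : HopC D R ((m + g) % 10) ((l + g) % 10) A B := by
  intro u q hq hu h0 h1
  have e : ((l + g) % 10 + 10 - (m + g) % 10) % 10 = l - m := by omega
  rw [e] at h1
  have := h (fun k => u k + m) q hq (fun k hk => by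
    have := hu k hk
    show u k + m < u (k + 1) + m
    omega) (by show u 0 + m = m; omega) (by show u q + m = l; omega)
  have key : ∀ T : ℕ → ℕ → ℕ, ∑ k ∈ range q, rotT ((m + g) % 10) T (u k) (u (k + 1)) =
      ∑ k ∈ range q, rotT g T (u k + m) (u (k + 1) + m) := by
    intro T
    refine sum_congr rfl fun k _ => ?_
    unfold rotT
    have a1 : ∀ a, (a + (m + g) % 10) % 10 = (a + m + g) % 10 := by intro a; omega
    rw [a1, a1]
  rw [key, key]
  exact this

lemma HopC.mono {D R : ℕ → ℕ → ℕ} {M L A B A' B' : ℕ} (h : HopC D R M L A B) (hA : A' ≤ A)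
    (hB : B' ≤ B) : HopC D R M L A' B' := HopI.mono h hA hB

end Pool.Agent.Helper66.Kiss.Pk

namespace Pool.Agent.Helper66.Kiss

open Real Set Filter Topology Pk

end Pool.Agent.Helper66.Kiss
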