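import Pool.Agent.Helper66.Kiss.Pin
import Pool.Agent.Helper66.Kiss.Lift

set_option autoImplicit false

/-! # The lifting theorem -/

namespace Pool.Agent.Helper66.Kiss

open Real Set Filter Topology

variable {n : ℕ}

/-- data of a path of heights: `D` is a symmetric set of dropped pairs -/
structure HPath (n : ℕ) (hn : 2 ≤ n) (D : Fin n → Fin n → Prop) (z : ℝ → Fin n → ℝ) : Prop where
  symm : ∀ i j, D i j → D j i
  cont : ∀ k, ContinuousOn (fun t => z t k) (Icc 0 1)
  range : ∀ t ∈ Ico (0 : ℝ) 1, ∀ k, -1 < z t k ∧ z t k ≤ 1 / 2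
  lim : ∀ i j, i ≠ j → ¬ D i j → ∃ L, Tendsto (fun t => wd (z t i) (z t j)) (𝓝[<] 1) (𝓝 L)
  free : ∀ t ∈ Ico (0 : ℝ) 1, ∀ i j, i ≠ j → D i j →
    √(1 - z t i ^ 2) * √(1 - z t j ^ 2) + z t i * z t j ≤ 1 / 2
  pole : ∀ t ∈ Ico (0 : ℝ) 1, ∀ i j, i ≠ j → ¬ D i j →
    -(√(1 - z t i ^ 2) * √(1 - z t j ^ 2)) ≤ 1 / 2 - z t i * z t j
  vert : ∀ t ∈ Ico (0 : ℝ) 1, ∀ i j, i ≠ j → ¬ D i j →
    -(1 / 3) < √(1 - z t i ^ 2) * √(1 - z t j ^ 2) + z t i * z t j
  walk : ∀ t ∈ Ico (0 : ℝ) 1, ∀ (v : ℕ → ℕ) (r : ℕ), r ≤ n → IsWalk n v r → v r = v 0 + n →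
    (∀ k < r, ¬ D (clN n (by omega) (v k)) (clN n (by omega) (v (k + 1)))) →
    total (fun a b => wd (z t (clN n (by omega) a)) (z t (clN n (by omega) b))) v r ≤ 2 * π

lemma wd_continuousOn {z : ℝ → Fin n → ℝ} {i j : Fin n} {S : Set ℝ}
    (hi : ContinuousOn (fun t => z t i) S) (hj : ContinuousOn (fun t => z t j) S)
    (hz : ∀ t ∈ S, ∀ k, -1 < z t k ∧ z t k ≤ 1 / 2) :
    ContinuousOn (fun t => wd (z t i) (z t j)) S := by
  unfold wd
  refine Real.continuous_arccos.comp_continuousOn (ContinuousOn.div ?_ ?_ ?_)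
  · exact continuousOn_const.sub (hi.mul hj)
  · exact (continuousOn_const.sub (hi.pow 2)).sqrt.mul (continuousOn_const.sub (hj.pow 2)).sqrt
  · intro t ht
    exact (mul_pos (sqrt_pos_of (hz t ht i)) (sqrt_pos_of (hz t ht j))).ne'

/-- **The lifting theorem.** -/
theorem lift (hn : 2 ≤ n) {D : Fin n → Fin n → Prop} {z : ℝ → Fin n → ℝ} (H : HPath n hn D z)
    {φ0 : Fin n → ℝ} (h0 : ∀ i j, i < j → 0 ≤ φ0 j - φ0 i ∧ φ0 j - φ0 i ≤ 2 * π)
    (h1 : ∀ i j, i < j → ¬ D i j → wd (z 0 i) (z 0 j) ≤ φ0 j - φ0 i ∧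
      φ0 j - φ0 i ≤ 2 * π - wd (z 0 i) (z 0 j)) :
    ∃ φ : ℝ → Fin n → ℝ, (∀ k, ContinuousOn (fun t => φ t k) (Icc 0 1)) ∧
      (∀ t ∈ Icc (0 : ℝ) 1, ∀ i j, i ≠ j → gg (z t i) (z t j) (φ t i) (φ t j) ≤ 1 / 2) ∧
      (∀ s ∈ Icc (0 : ℝ) 1, ∀ i j, i ≠ j → gg (z 0 i) (z 0 j) ((1 - s) * φ0 i + s * φ 0 i)
        ((1 - s) * φ0 j + s * φ 0 j) ≤ 1 / 2) := by
  classical
  have hpi := Real.pi_pos
  have hn0 : 0 < n := by omega
  have hlim := H.lim
  choose L hL using hlim
  set B : ℝ := (n + 1) * π with hB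
  have hB0 : 0 < B := by positivity
  -- the weights
  set ω : ℝ → Fin n → Fin n → ℝ := fun t i j => if h : i = j then 0 else if h' : D i j then -B else
    if t < 1 then wd (z t i) (z t j) else L i j h h' with hω
  have hω1 : ∀ t, t < 1 → ∀ i j, i ≠ j → ¬ D i j → ω t i j = wd (z t i) (z t j) := by
    intro t ht i j hij hD
    simp only [hω, hij, hD, dif_neg, not_false_eq_true, if_pos ht]
  have hωD : ∀ t i j, i ≠ j → D i j → ω t i j = -B := by
    intro t i j hij hD
    simp only [hω, hij, hD, dif_neg, dif_pos, not_false_eq_true]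
  have hω0 : ∀ t i, ω t i i = 0 := by intro t i; simp [hω]
  have hcont : ∀ i j, ContinuousOn (fun t => ω t i j) (Icc 0 1) := by
    intro i j
    by_cases hij : i = j
    · subst hij; simp only [hω0]; exact continuousOn_const
    by_cases hD : D i j
    · simp only [hωD _ i j hij hD]; exact continuousOn_const
    intro t ht
    rcases lt_or_eq_of_le ht.2 with h | h
    · have hc := wd_continuousOn (S := Ico 0 1) ((H.cont i).mono Ico_subset_Icc_self)
        ((H.cont j).mono Ico_subset_Icc_self) H.range t ⟨ht.1, h⟩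
      have hc2 : ContinuousWithinAt (fun t => ω t i j) (Ico 0 1) t :=
        hc.congr (fun s hs => hω1 s hs.2 i j hij hD) (hω1 t h i j hij hD)
      refine hc2.mono_of_mem_nhdsWithin ?_
      have hI : Iio (1 : ℝ) ∈ 𝓝[Icc 0 1] t := mem_nhdsWithin_of_mem_nhds (Iio_mem_nhds h)
      filter_upwards [hI, self_mem_nhdsWithin] with s hs1 hs2
      exact ⟨hs2.1, hs1⟩
    · subst h
      have hv1 : ω 1 i j = L i j hij hD := by
        simp only [hω, hij, hD, dif_neg, not_false_eq_true, lt_irrefl, if_false]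
      have h2 : Tendsto (fun t => ω t i j) (𝓝[<] 1) (𝓝 (ω 1 i j)) := by
        rw [hv1]
        refine (hL i j hij hD).congr' ?_
        filter_upwards [self_mem_nhdsWithin] with s hs
        exact (hω1 s hs i j hij hD).symm
      have h3 : ContinuousWithinAt (fun t => ω t i j) (Iio 1 ∪ {1}) 1 := by
        rw [continuousWithinAt_union]
        exact ⟨h2, continuousWithinAt_singleton⟩
      exact h3.mono (fun s hs => by
        rcases lt_or_eq_of_le hs.2 with h5 | h5
        · exact Or.inl h5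
        · exact Or.inr h5)
  have hωle : ∀ t ∈ Icc (0 : ℝ) 1, ∀ i j, ω t i j ≤ π := by
    intro t ht i j
    by_cases hij : i = j
    · subst hij; rw [hω0]; exact hpi.le
    by_cases hD : D i j
    · rw [hωD t i j hij hD]; linarith
    rcases lt_or_eq_of_le ht.2 with h | h
    · rw [hω1 t h i j hij hD]; exact Real.arccos_le_pi _
    · subst h
      have hcw := hcont i j 1 ⟨zero_le_one, le_rfl⟩
      have h2 : Tendsto (fun t => ω t i j) (𝓝[Ico 0 1] 1) (𝓝 (ω 1 i j)) :=
        hcw.mono_left (nhdsWithin_mono _ Ico_subset_Icc_self)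
      have : (𝓝[Ico (0 : ℝ) 1] 1).NeBot := by
        rw [nhdsWithin_Ico_eq_nhdsLT zero_lt_one]; infer_instance
      refine le_of_tendsto h2 ?_
      filter_upwards [self_mem_nhdsWithin] with s hs
      rw [hω1 s hs.2 i j hij hD]; exact Real.arccos_le_pi _
  have hsym : ∀ t i j, ω t i j = ω t j i := by
    intro t i j
    by_cases hij : i = j
    · subst hij; rfl
    by_cases hD : D i j
    · rw [hωD t i j hij hD, hωD t j i (Ne.symm hij) (H.symm _ _ hD)]
    have hD' : ¬ D j i := fun h => hD (H.symm _ _ h)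
    rcases lt_or_ge t 1 with h | h
    · rw [hω1 t h i j hij hD, hω1 t h j i (Ne.symm hij) hD', wd_comm]
    · have h1' : ω t i j = L i j hij hD := by
        simp only [hω, hij, hD, dif_neg, not_false_eq_true, not_lt.2 h, if_false]
      have h2' : ω t j i = L j i (Ne.symm hij) hD' := by
        simp only [hω, Ne.symm hij, hD', dif_neg, not_false_eq_true, not_lt.2 h, if_false]
      rw [h1', h2']
      refine tendsto_nhds_unique (hL i j hij hD) ?_
      refine (hL j i (Ne.symm hij) hD').congr fun s => ?_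
      rw [wd_comm]
  set W : ℝ → ℕ → ℕ → ℝ := fun t a b => ω t (clN n hn0 a) (clN n hn0 b) with hW
  have hper : ∀ t a b, W t (a + n) (b + n) = W t a b := by
    intro t a b; simp only [hW, clN_add]
  have hWcont : ∀ a b, ContinuousOn (fun t => W t a b) (Icc 0 1) := fun a b => hcont _ _
  have htotc : ∀ v r, ContinuousOn (fun t => total (W t) v r) (Icc 0 1) := by
    intro v r
    unfold total
    exact continuousOn_finsetSum _ fun i _ => hWcont _ _
  -- a walk with a dropped edge is short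
  have hdrop : ∀ t ∈ Icc (0 : ℝ) 1, ∀ v r, r ≤ n → IsWalk n v r →
      (∃ k < r, D (clN n hn0 (v k)) (clN n hn0 (v (k + 1)))) → total (W t) v r < 0 := by
    intro t ht v r hr hv ⟨k, hk, hD⟩
    have h2 : total (W t) v r ≤ ∑ i ∈ Finset.range r, (π + (if i = k then -B - π else 0)) := by
      unfold total
      refine Finset.sum_le_sum fun i hi => ?_
      by_cases hik : i = k
      · subst hik
        rw [if_pos rfl]
        have := hωD t _ _ (clN_step_ne hn0 (hv i hk)) hD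
        simp only [hW, this]; linarith
      · rw [if_neg hik]
        have := hωle t ht (clN n hn0 (v i)) (clN n hn0 (v (i + 1)))
        simp only [hW]; linarith
    rw [Finset.sum_add_distrib, Finset.sum_ite_eq' (Finset.range r) k] at h2
    simp only [Finset.mem_range, hk, if_true, Finset.sum_const, Finset.card_range,
      nsmul_eq_mul] at h2
    have h3 : (r : ℝ) ≤ n := by exact_mod_cast hr
    have h4 : (r : ℝ) * π ≤ n * π := mul_le_mul_of_nonneg_right h3 hpi.le
    have h5 : B = n * π + π := by rw [hB]; ring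
    linarith
  -- winding one
  have hone : ∀ t ∈ Icc (0 : ℝ) 1, ∀ (v : ℕ → ℕ) (r : ℕ), r ≤ n → IsWalk n v r → v r = v 0 + n →
      total (W t) v r ≤ 2 * π := by
    have hlt : ∀ t ∈ Ico (0 : ℝ) 1, ∀ (v : ℕ → ℕ) (r : ℕ), r ≤ n → IsWalk n v r → v r = v 0 + n →
        total (W t) v r ≤ 2 * π := by
      intro t ht v r hr hv he
      by_cases hd : ∃ k < r, D (clN n hn0 (v k)) (clN n hn0 (v (k + 1)))
      · have := hdrop t ⟨ht.1, ht.2.le⟩ v r hr hv hd
        linarith
      · push Not at hd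
        have := H.walk t ht v r hr hv he hd
        have e : total (W t) v r = total (fun a b => wd (z t (clN n (by omega) a))
            (z t (clN n (by omega) b))) v r := by
          unfold total
          refine Finset.sum_congr rfl fun k hk => ?_
          have hk' := Finset.mem_range.1 hk
          exact hω1 t ht.2 _ _ (clN_step_ne hn0 (hv k hk')) (hd k hk')
        rw [e]; exact this
    intro t ht v r hr hv he
    rcases lt_or_eq_of_le ht.2 with h | h
    · exact hlt t ⟨ht.1, h⟩ v r hr hv he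
    · subst h
      have hcw := htotc v r 1 ⟨zero_le_one, le_rfl⟩
      have h2 : Tendsto (fun t => total (W t) v r) (𝓝[Ico 0 1] 1) (𝓝 (total (W 1) v r)) :=
        hcw.mono_left (nhdsWithin_mono _ Ico_subset_Icc_self)
      have : (𝓝[Ico (0 : ℝ) 1] 1).NeBot := by
        rw [nhdsWithin_Ico_eq_nhdsLT zero_lt_one]; infer_instance
      refine le_of_tendsto h2 ?_
      filter_upwards [self_mem_nhdsWithin] with s hs
      exact hlt s hs v r hr hv he
  -- the set of good times
  set S : Set ℝ := {t | ∀ (v : ℕ → ℕ) (r w : ℕ), r ≤ n → IsWalk n v r → v r = v 0 + n * w → 1 ≤ w →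
    total (W t) v r ≤ 2 * π * w} with hS
  have hScl : IsClosed (S ∩ Icc 0 1) := by
    have e : S ∩ Icc 0 1 = Icc 0 1 ∩ ⋂ (v : ℕ → ℕ), ⋂ (r : ℕ), ⋂ (w : ℕ),
        {t | t ∈ Icc (0 : ℝ) 1 → r ≤ n → IsWalk n v r → v r = v 0 + n * w → 1 ≤ w →
          total (W t) v r ≤ 2 * π * w} := by
      ext t
      simp only [hS, mem_inter_iff, mem_ofPred_eq, mem_iInter]
      constructor
      · rintro ⟨a, b⟩; exact ⟨b, fun v r w _ => a v r w⟩
      · rintro ⟨a, b⟩; exact ⟨fun v r w => b v r w a, a⟩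
    rw [e]
    have e2 : Icc (0 : ℝ) 1 ∩ ⋂ (v : ℕ → ℕ), ⋂ (r : ℕ), ⋂ (w : ℕ),
        {t | t ∈ Icc (0 : ℝ) 1 → r ≤ n → IsWalk n v r → v r = v 0 + n * w → 1 ≤ w →
          total (W t) v r ≤ 2 * π * w} = ⋂ (v : ℕ → ℕ), ⋂ (r : ℕ), ⋂ (w : ℕ), (Icc (0 : ℝ) 1 ∩
        {t | r ≤ n → IsWalk n v r → v r = v 0 + n * w → 1 ≤ w →
          total (W t) v r ≤ 2 * π * w}) := by
      ext t
      simp only [mem_inter_iff, mem_ofPred_eq, mem_iInter]
      constructor
      · rintro ⟨a, b⟩ v r w; exact ⟨a, b v r w a⟩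
      · intro h
        exact ⟨(h (fun _ => 0) 0 0).1, fun v r w _ => (h v r w).2⟩
    rw [e2]
    refine isClosed_iInter fun v => isClosed_iInter fun r => isClosed_iInter fun w => ?_
    by_cases hc : r ≤ n ∧ IsWalk n v r ∧ v r = v 0 + n * w ∧ 1 ≤ w
    · have e3 : (Icc (0 : ℝ) 1 ∩ {t | r ≤ n → IsWalk n v r → v r = v 0 + n * w → 1 ≤ w →
          total (W t) v r ≤ 2 * π * w}) =
          Icc (0 : ℝ) 1 ∩ (fun t => total (W t) v r) ⁻¹' Iic (2 * π * w) := by
        ext t
        simp only [mem_inter_iff, mem_ofPred_eq, mem_preimage, mem_Iic]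
        constructor
        · rintro ⟨a, b⟩; exact ⟨a, b hc.1 hc.2.1 hc.2.2.1 hc.2.2.2⟩
        · rintro ⟨a, b⟩; exact ⟨a, fun _ _ _ _ => b⟩
      rw [e3]
      exact (htotc v r).preimage_isClosed_of_isClosed isClosed_Icc isClosed_Iic
    · have e3 : (Icc (0 : ℝ) 1 ∩ {t | r ≤ n → IsWalk n v r → v r = v 0 + n * w → 1 ≤ w →
          total (W t) v r ≤ 2 * π * w}) = Icc (0 : ℝ) 1 := by
        ext t
        simp only [mem_inter_iff, mem_ofPred_eq]
        constructor
        · rintro ⟨a, b⟩; exact a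
        · intro a; exact ⟨a, fun b1 b2 b3 b4 => absurd ⟨b1, b2, b3, b4⟩ hc⟩
      rw [e3]; exact isClosed_Icc
  have h0S : (0 : ℝ) ∈ S := by
    intro v r w hr hv he hw
    have hwR : (1 : ℝ) ≤ w := by exact_mod_cast hw
    have hpair : ∀ i j, i < j → ω 0 i j ≤ φ0 j - φ0 i ∧ φ0 j - φ0 i ≤ 2 * π - ω 0 i j := by
      intro i j hij
      by_cases hD : D i j
      · rw [hωD 0 i j hij.ne hD]
        have := h0 i j hij
        constructor <;> linarith [this.1, this.2]
      · rw [hω1 0 zero_lt_one i j hij.ne hD]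
        exact h1 i j hij hD
    have := lft_tel hn0 (hsym 0) hpair r hv
    rw [he, lft_add_mul] at this
    show total (W 0) v r ≤ 2 * π * w
    have e : total (W 0) v r = total (fun a b => ω 0 (clN n hn0 a) (clN n hn0 b)) v r := rfl
    rw [e]
    linarith
  have hstep : ∀ t ∈ S ∩ Ico 0 1, S ∈ 𝓝[>] t := by
    intro t ⟨htS, ht⟩
    have htI : t ∈ Icc (0 : ℝ) 1 := ⟨ht.1, ht.2.le⟩
    have hpair := pot_pair hn (hsym t) htS
    -- strictness at time `t`
    have hstr : ∀ (v : ℕ → ℕ) (r w : ℕ), r ≤ n → 2 ≤ w → IsWalk n v r → v r = v 0 + n * w →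
        Simple n v r → total (W t) v r < 2 * π * w := by
      intro v r w hr hw hv he hs
      exact simple_strict (z := z t) (D := fun i j => i ≠ j ∧ D i j)
        (φ := fun k => pot n (2 * π) (fun a b => ω t (clN n (by omega) a) (clN n (by omega) b))
          (by omega) k.val) hn (hsym t) (H.range t ht)
        (fun i j h => hωD t i j h.1 h.2)
        (fun i j hij h => hω1 t ht.2 i j hij (fun h' => h ⟨hij, h'⟩)) (hωle t htI)
        (fun i j hij h => H.free t ht i j hij h.2)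
        (fun i j hij h => H.pole t ht i j hij (fun h' => h ⟨hij, h'⟩))
        (fun i j hij h => H.vert t ht i j hij (fun h' => h ⟨hij, h'⟩))
        hpair v r w hr hw hv he hs
    have hev : ∀ᶠ s in 𝓝[>] t, ∀ (v : ℕ → ℕ) (r w : ℕ), r ≤ n → 2 ≤ w → IsWalk n v r →
        v r = v 0 + n * w → Simple n v r → total (W s) v r ≤ 2 * π * w := by
      refine eventually_simple hn0 hper ?_
      intro v r w hr hw hv he hs
      have h5 := hstr v r w hr hw hv he hs
      have hcw := htotc v r t htI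
      have h6 : Tendsto (fun s => total (W s) v r) (𝓝[>] t) (𝓝 (total (W t) v r)) := by
        refine hcw.mono_left ?_
        refine nhdsWithin_le_of_mem ?_
        have : Ioo t 1 ∈ 𝓝[>] t := Ioo_mem_nhdsGT ht.2
        filter_upwards [this] with s hs
        exact ⟨ht.1.trans hs.1.le, hs.2.le⟩
      filter_upwards [h6.eventually (gt_mem_nhds h5)] with s hs using hs.le
    have hI : Ioo t 1 ∈ 𝓝[>] t := Ioo_mem_nhdsGT ht.2
    filter_upwards [hev, hI] with s hs1 hs2
    intro v r w hr hv he hw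
    exact closed_split (hper s) (hone s ⟨ht.1.trans hs2.1.le, hs2.2.le⟩) hs1 r v w hr hv he hw
  have hall : Icc (0 : ℝ) 1 ⊆ S :=
    hScl.Icc_subset_of_forall_mem_nhdsWithin h0S hstep
  -- the potentials
  set φ : ℝ → Fin n → ℝ := fun t k => pot n (2 * π)
    (fun a b => ω t (clN n (by omega) a) (clN n (by omega) b)) (by omega) k.val with hφ
  have hpairs : ∀ t ∈ Icc (0 : ℝ) 1, ∀ i j, i < j → ω t i j ≤ φ t j - φ t i ∧
      φ t j - φ t i ≤ 2 * π - ω t i j := fun t ht => pot_pair hn (hsym t) (hall ht)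
  have hφc : ∀ k, ContinuousOn (fun t => φ t k) (Icc 0 1) := by
    intro k
    rw [continuousOn_iff_continuous_domRestrict]
    exact continuous_pot (X := Icc (0 : ℝ) 1) (V := fun t a b => W t a b) hn0
      (fun a b => continuousOn_iff_continuous_domRestrict.1 (hWcont a b)) k.val
  -- admissible longitudes are configurations
  have hgg : ∀ t ∈ Ico (0 : ℝ) 1, ∀ η : Fin n → ℝ, (∀ i j, i < j → ω t i j ≤ η j - η i ∧
      η j - η i ≤ 2 * π - ω t i j) → ∀ i j, i ≠ j → gg (z t i) (z t j) (η i) (η j) ≤ 1 / 2 := by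
    intro t ht η hη
    have key : ∀ i j, i < j → gg (z t i) (z t j) (η i) (η j) ≤ 1 / 2 := by
      intro i j hij
      have c1 := mul_pos (sqrt_pos_of (H.range t ht i)) (sqrt_pos_of (H.range t ht j))
      by_cases hD : D i j
      · have := H.free t ht i j hij.ne hD
        unfold gg
        have := Real.cos_le_one (η i - η j)
        nlinarith
      · obtain ⟨a1, a2⟩ := hη i j hij
        rw [hω1 t ht.2 i j hij.ne hD] at a1 a2
        have q1 := H.pole t ht i j hij.ne hD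
        have q2 : -1 ≤ (1 / 2 - z t i * z t j) / (√(1 - z t i ^ 2) * √(1 - z t j ^ 2)) := by
          rw [le_div_iff₀ c1]; linarith
        have q3 := cos_le_of_arccos q2 a1 a2
        rw [le_div_iff₀ c1] at q3
        unfold gg
        rw [← cos_neg, neg_sub]
        linarith
    intro i j hij
    rcases lt_or_gt_of_ne hij with h5 | h5
    · exact key i j h5
    · rw [gg_comm]; exact key j i h5
  refine ⟨φ, hφc, ?_, ?_⟩
  · intro t ht i j hij
    rcases lt_or_eq_of_le ht.2 with h | h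
    · exact hgg t ⟨ht.1, h⟩ (φ t) (hpairs t ht) i j hij
    · subst h
      have hg : Continuous (fun q : (ℝ × ℝ) × (ℝ × ℝ) => gg q.1.1 q.1.2 q.2.1 q.2.2) := by
        unfold gg; fun_prop
      have h2 : ContinuousOn (fun t => gg (z t i) (z t j) (φ t i) (φ t j)) (Icc 0 1) :=
        hg.comp_continuousOn (((H.cont i).prodMk (H.cont j)).prodMk ((hφc i).prodMk (hφc j)))
      have hcw := h2 1 ⟨zero_le_one, le_rfl⟩
      have h3 : Tendsto (fun t => gg (z t i) (z t j) (φ t i) (φ t j)) (𝓝[Ico 0 1] 1)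
          (𝓝 (gg (z 1 i) (z 1 j) (φ 1 i) (φ 1 j))) :=
        hcw.mono_left (nhdsWithin_mono _ Ico_subset_Icc_self)
      have : (𝓝[Ico (0 : ℝ) 1] 1).NeBot := by
        rw [nhdsWithin_Ico_eq_nhdsLT zero_lt_one]; infer_instance
      refine le_of_tendsto h3 ?_
      filter_upwards [self_mem_nhdsWithin] with s hs
      exact hgg s hs (φ s) (hpairs s ⟨hs.1, hs.2.le⟩) i j hij
  · intro s hs i j hij
    refine hgg 0 ⟨le_rfl, zero_lt_one⟩ (fun k => (1 - s) * φ0 k + s * φ 0 k) ?_ i j hij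
    intro i j hij
    have hp0 : ω 0 i j ≤ φ0 j - φ0 i ∧ φ0 j - φ0 i ≤ 2 * π - ω 0 i j := by
      by_cases hD : D i j
      · rw [hωD 0 i j hij.ne hD]
        have := h0 i j hij
        constructor <;> linarith [this.1, this.2]
      · rw [hω1 0 zero_lt_one i j hij.ne hD]
        exact h1 i j hij hD
    have hp1 := hpairs 0 ⟨le_rfl, zero_le_one⟩ i j hij
    have a1 := mul_le_mul_of_nonneg_left hp0.1 (by linarith [hs.2] : (0 : ℝ) ≤ 1 - s)
    have a2 := mul_le_mul_of_nonneg_left hp0.2 (by linarith [hs.2] : (0 : ℝ) ≤ 1 - s)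
    have a3 := mul_le_mul_of_nonneg_left hp1.1 hs.1
    have a4 := mul_le_mul_of_nonneg_left hp1.2 hs.1
    constructor
    · show ω 0 i j ≤ (1 - s) * φ0 j + s * φ 0 j - ((1 - s) * φ0 i + s * φ 0 i)
      linarith
    · show (1 - s) * φ0 j + s * φ 0 j - ((1 - s) * φ0 i + s * φ 0 i) ≤ 2 * π - ω 0 i j
      linarith

/-- the lifting theorem for eleven points -/
theorem lift11 {D : Fin 11 → Fin 11 → Prop} {z : ℝ → Fin 11 → ℝ} (H : HPath 11 (by norm_num) D z)
    {φ0 : Fin 11 → ℝ} (h0 : ∀ i j, i < j → 0 ≤ φ0 j - φ0 i ∧ φ0 j - φ0 i ≤ 2 * π)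
    (h1 : ∀ i j, i < j → ¬ D i j → wd (z 0 i) (z 0 j) ≤ φ0 j - φ0 i ∧
      φ0 j - φ0 i ≤ 2 * π - wd (z 0 i) (z 0 j)) :
    ∃ φ1, Fe (z 1) φ1 ∧ JoinedIn Conf (pinN (z 0) φ0) (pinN (z 1) φ1) := by
  obtain ⟨φ, hc, hg, hs⟩ := lift (by norm_num) H h0 h1
  have hr : ∀ t ∈ Icc (0 : ℝ) 1, ∀ k, -1 ≤ z t k ∧ z t k ≤ 1 / 2 := by
    intro t ht k
    rcases lt_or_eq_of_le ht.2 with h | h
    · exact ⟨(H.range t ⟨ht.1, h⟩ k).1.le, (H.range t ⟨ht.1, h⟩ k).2⟩
    · subst h
      have hcw := H.cont k 1 ⟨zero_le_one, le_rfl⟩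
      have h3 : Tendsto (fun t => z t k) (𝓝[Ico 0 1] 1) (𝓝 (z 1 k)) :=
        hcw.mono_left (nhdsWithin_mono _ Ico_subset_Icc_self)
      have : (𝓝[Ico (0 : ℝ) 1] 1).NeBot := by
        rw [nhdsWithin_Ico_eq_nhdsLT zero_lt_one]; infer_instance
      refine ⟨ge_of_tendsto h3 ?_, le_of_tendsto h3 ?_⟩
      · filter_upwards [self_mem_nhdsWithin] with s hs using (H.range s hs k).1.le
      · filter_upwards [self_mem_nhdsWithin] with s hs using (H.range s hs k).2
  have hpinc : ∀ {w η : ℝ → Fin 11 → ℝ} {U : Set ℝ}, (∀ k, ContinuousOn (fun t => w t k) U) →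
      (∀ k, ContinuousOn (fun t => η t k) U) → ContinuousOn (fun t => pinN (w t) (η t)) U := by
    intro w η U hw hη
    refine continuousOn_pi.2 fun i => ?_
    rcases Fin.eq_zero_or_eq_succ i with rfl | ⟨k, rfl⟩
    · simp only [pinN_zero]; exact continuousOn_const
    · simp only [pinN_succ]
      have hg : Continuous (fun q : ℝ × ℝ => pt q.1 q.2) := continuous_pt continuous_fst continuous_snd
      exact hg.comp_continuousOn ((hw k).prodMk (hη k))
  refine ⟨φ 1, ⟨hr 1 ⟨zero_le_one, le_rfl⟩, hg 1 ⟨zero_le_one, le_rfl⟩⟩, ?_⟩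
  have j1 := joined_of_seg (f := fun s => pinN (z 0) (fun k => (1 - s) * φ0 k + s * φ 0 k)) 0 1
    (hpinc (fun k => continuousOn_const) (fun k => by fun_prop)) (by
      intro s hs'
      rw [uIcc_of_le zero_le_one] at hs'
      exact pinN_mem ⟨hr 0 ⟨le_rfl, zero_le_one⟩, hs s hs'⟩)
  have j2 := joined_of_seg (f := fun t => pinN (z t) (φ t)) 0 1
    (by rw [uIcc_of_le zero_le_one]; exact hpinc H.cont hc) (by
      intro t ht
      rw [uIcc_of_le zero_le_one] at ht
      exact pinN_mem ⟨hr t ht, hg t ht⟩)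
  have e0 : pinN (z 0) (fun k => (1 - 0) * φ0 k + 0 * φ 0 k) = pinN (z 0) φ0 := by
    congr 1; funext k; ring
  have e1 : pinN (z 0) (fun k => (1 - 1) * φ0 k + 1 * φ 0 k) = pinN (z 0) (φ 0) := by
    congr 1; funext k; ring
  rw [e0, e1] at j1
  exact j1.trans j2

end Pool.Agent.Helper66.Kiss
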