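import Pool.Agent.Helper66.Kiss.Dir

set_option autoImplicit false

/-! # From a direction at one point to paths near that point -/

namespace Pool.Agent.Helper66.Kiss

open Real Set Filter Topology

lemma unif {E : Type*} [NormedAddCommGroup E] [NormedSpace ℝ E] {h : E × ℝ → ℝ} {x : E} {H c : ℝ}
    (hs : ContDiffAt ℝ 1 h (x, 0)) (hd : HasDerivAt (fun t => h (x, t)) H 0) (hH : H < c) :
    ∀ᶠ p : E × ℝ in 𝓝 (x, 0), 0 ≤ p.2 → h p ≤ h (p.1, 0) + c * p.2 := by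
  have hst := hs.hasStrictFDerivAt (by norm_num)
  set L := fderiv ℝ h (x, 0) with hL
  have hL1 : L (0, 1) = H := by
    have h1 : HasDerivAt (fun t : ℝ => ((x, t) : E × ℝ)) (0, 1) 0 :=
      (hasDerivAt_const (0 : ℝ) x).prodMk (hasDerivAt_id (0 : ℝ))
    have h2 : HasDerivAt (fun t => h (x, t)) (L (0, 1)) 0 :=
      HasFDerivAt.comp_hasDerivAt (f := fun t : ℝ => ((x, t) : E × ℝ)) (0 : ℝ) hst.hasFDerivAt h1
    exact h2.unique hd
  have ho := hst.isLittleO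
  have h3 := ho.bound (c := c - H) (by linarith)
  have hc : Tendsto (fun p : E × ℝ => ((p, (p.1, 0)) : (E × ℝ) × (E × ℝ))) (𝓝 (x, 0))
      (𝓝 ((x, 0), (x, 0))) := by
    have : Continuous (fun p : E × ℝ => ((p, (p.1, 0)) : (E × ℝ) × (E × ℝ))) := by fun_prop
    exact this.tendsto' _ _ rfl
  filter_upwards [hc.eventually h3] with p hp h0
  have e1 : p - (p.1, (0 : ℝ)) = p.2 • ((0 : E), (1 : ℝ)) := by
    ext <;> simp
  have e2 : ‖p - (p.1, (0 : ℝ))‖ = p.2 := by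
    rw [e1, norm_smul]
    simp [Prod.norm_def, abs_of_nonneg h0]
  rw [e2, e1, map_smul, hL1, Real.norm_eq_abs] at hp
  have := (abs_le.1 hp).2
  simp only [smul_eq_mul] at this
  nlinarith

section

variable {n : ℕ}

/-- heights after time `t` -/
def mv (V : (Fin n → ℝ) → Fin n → ℝ) (z : Fin n → ℝ) (t : ℝ) : Fin n → ℝ := fun k => z k + t * V z k

/-- the derivative of the inner product along the path -/
lemma gg_hasDerivAt {z w v v' a b p q : ℝ} (hz : -1 < z ∧ z < 1) (hw : -1 < w ∧ w < 1)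
    (hc : gg z w a b = 1 / 2) :
    HasDerivAt (fun t => gg (z + t * v) (w + t * v') (a + t * p) (b + t * q))
      (nr z w v v' - √(1 - z ^ 2) * √(1 - w ^ 2) * sin (a - b) * (p - q)) 0 := by
  have hz2 : 0 < 1 - z ^ 2 := by nlinarith [hz.1, hz.2]
  have hw2 : 0 < 1 - w ^ 2 := by nlinarith [hw.1, hw.2]
  have hsz : 0 < √(1 - z ^ 2) := Real.sqrt_pos.2 hz2
  have hsw : 0 < √(1 - w ^ 2) := Real.sqrt_pos.2 hw2
  have e1 : √(1 - z ^ 2) ^ 2 = 1 - z ^ 2 := Real.sq_sqrt hz2.le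
  have e2 : √(1 - w ^ 2) ^ 2 = 1 - w ^ 2 := Real.sq_sqrt hw2.le
  have hcos : √(1 - z ^ 2) * √(1 - w ^ 2) * cos (a - b) = 1 / 2 - z * w := by
    unfold gg at hc; linarith
  have lin : ∀ x y : ℝ, HasDerivAt (fun t : ℝ => x + t * y) y 0 := by
    intro x y
    simpa using ((hasDerivAt_id (0 : ℝ)).mul_const y).const_add x
  have d1 : HasDerivAt (fun t : ℝ => √(1 - (z + t * v) ^ 2)) (-(z * v) / √(1 - z ^ 2)) 0 := by
    have h1 : HasDerivAt (fun t : ℝ => 1 - (z + t * v) ^ 2) (-(2 * z * v)) 0 := by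
      have := ((lin z v).pow 2).const_sub 1
      simpa using this
    have h2 := h1.sqrt (by simpa using hz2.ne')
    have h3 : -(2 * z * v) / (2 * √(1 - (z + 0 * v) ^ 2)) = -(z * v) / √(1 - z ^ 2) := by
      rw [zero_mul, add_zero]; field_simp
    rwa [h3] at h2
  have d2 : HasDerivAt (fun t : ℝ => √(1 - (w + t * v') ^ 2)) (-(w * v') / √(1 - w ^ 2)) 0 := by
    have h1 : HasDerivAt (fun t : ℝ => 1 - (w + t * v') ^ 2) (-(2 * w * v')) 0 := by
      have := ((lin w v').pow 2).const_sub 1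
      simpa using this
    have h2 := h1.sqrt (by simpa using hw2.ne')
    have h3 : -(2 * w * v') / (2 * √(1 - (w + 0 * v') ^ 2)) = -(w * v') / √(1 - w ^ 2) := by
      rw [zero_mul, add_zero]; field_simp
    rwa [h3] at h2
  have d3 : HasDerivAt (fun t : ℝ => cos (a + t * p - (b + t * q))) (-sin (a - b) * (p - q)) 0 := by
    have h1 : HasDerivAt (fun t : ℝ => a + t * p - (b + t * q)) (p - q) 0 := (lin a p).sub (lin b q)
    have h2 := h1.cos
    simpa using h2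
  have d4 := ((d1.mul d2).mul d3).add ((lin z v).mul (lin w v'))
  have e : (-(z * v) / √(1 - z ^ 2) * √(1 - (w + 0 * v') ^ 2) +
      √(1 - (z + 0 * v) ^ 2) * (-(w * v') / √(1 - w ^ 2))) * cos (a + 0 * p - (b + 0 * q)) +
      √(1 - (z + 0 * v) ^ 2) * √(1 - (w + 0 * v') ^ 2) * (-sin (a - b) * (p - q)) +
      (v * (w + 0 * v') + (z + 0 * v) * v') =
      nr z w v v' - √(1 - z ^ 2) * √(1 - w ^ 2) * sin (a - b) * (p - q) := by
    simp only [zero_mul, add_zero]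
    unfold nr
    have f1 : -(z * v) / √(1 - z ^ 2) * √(1 - w ^ 2) * cos (a - b) =
        -(z * v) * (1 / 2 - z * w) / (1 - z ^ 2) := by
      have : -(z * v) / √(1 - z ^ 2) * √(1 - w ^ 2) * cos (a - b) =
        -(z * v) * (√(1 - z ^ 2) * √(1 - w ^ 2) * cos (a - b)) / √(1 - z ^ 2) ^ 2 := by field_simp
      rw [this, hcos, e1]
    have f2 : √(1 - z ^ 2) * (-(w * v') / √(1 - w ^ 2)) * cos (a - b) =
        -(w * v') * (1 / 2 - z * w) / (1 - w ^ 2) := by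
      have : √(1 - z ^ 2) * (-(w * v') / √(1 - w ^ 2)) * cos (a - b) =
        -(w * v') * (√(1 - z ^ 2) * √(1 - w ^ 2) * cos (a - b)) / √(1 - w ^ 2) ^ 2 := by field_simp
      rw [this, hcos, e2]
    have f3 : -(z * v) * (1 / 2 - z * w) / (1 - z ^ 2) + v * w = (w - z / 2) * v / (1 - z ^ 2) := by
      field_simp; ring
    have f4 : -(w * v') * (1 / 2 - z * w) / (1 - w ^ 2) + z * v' =
        (z - w / 2) * v' / (1 - w ^ 2) := by
      field_simp; ring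
    rw [← f3, ← f4, ← f1, ← f2]
    ring
  have hfun : (fun t => gg (z + t * v) (w + t * v') (a + t * p) (b + t * q)) =
      ((((fun t : ℝ => √(1 - (z + t * v) ^ 2)) * (fun t : ℝ => √(1 - (w + t * v') ^ 2))) *
        (fun t : ℝ => cos (a + t * p - (b + t * q)))) +
        ((fun t : ℝ => z + t * v) * (fun t : ℝ => w + t * v'))) := by
    funext t; rfl
  rw [hfun, ← e]
  exact d4

lemma unif_lip {E : Type*} [NormedAddCommGroup E] [NormedSpace ℝ E] {h : E × ℝ → ℝ} {x : E}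
    (hs : ContDiffAt ℝ 1 h (x, 0)) :
    ∃ c : ℝ, 0 ≤ c ∧ ∀ᶠ p : E × ℝ in 𝓝 (x, 0), 0 ≤ p.2 → h p ≤ h (p.1, 0) + c * p.2 := by
  have h1 : HasDerivAt (fun t : ℝ => ((x, t) : E × ℝ)) (0, 1) 0 :=
    (hasDerivAt_const (0 : ℝ) x).prodMk (hasDerivAt_id (0 : ℝ))
  have hst := hs.hasStrictFDerivAt (by norm_num)
  have h2 : HasDerivAt (fun t => h (x, t)) (fderiv ℝ h (x, 0) (0, 1)) 0 :=
    HasFDerivAt.comp_hasDerivAt (f := fun t : ℝ => ((x, t) : E × ℝ)) (0 : ℝ) hst.hasFDerivAt h1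
  refine ⟨|fderiv ℝ h (x, 0) (0, 1)| + 1, by positivity, unif hs h2 ?_⟩
  have := le_abs_self (fderiv ℝ h (x, 0) (0, 1))
  linarith

lemma mv_contDiffAt {V : (Fin n → ℝ) → Fin n → ℝ} {z φ : Fin n → ℝ}
    (hV : ∀ k, ContDiffAt ℝ 1 (fun z => V z k) z) (k : Fin n) :
    ContDiffAt ℝ 1 (fun p : ((Fin n → ℝ) × (Fin n → ℝ)) × ℝ => mv V p.1.1 p.2 k)
      ((z, φ), 0) := by
  have h1 : ContDiffAt ℝ 1 (fun p : ((Fin n → ℝ) × (Fin n → ℝ)) × ℝ => p.1.1 k) ((z, φ), 0) := by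
    fun_prop
  have h2 : ContDiffAt ℝ 1 (fun p : ((Fin n → ℝ) × (Fin n → ℝ)) × ℝ => V p.1.1 k) ((z, φ), 0) := by
    have h3 : ContDiffAt ℝ 1 (fun p : ((Fin n → ℝ) × (Fin n → ℝ)) × ℝ => p.1.1) ((z, φ), 0) := by
      fun_prop
    exact ContDiffAt.comp (g := fun z => V z k) ((z, φ), (0 : ℝ)) (hV k) h3
  unfold mv
  exact h1.add (contDiffAt_snd.mul h2)

lemma gg_continuousAt {V : (Fin n → ℝ) → Fin n → ℝ} {z φ ψ : Fin n → ℝ}
    (hV : ∀ k, ContDiffAt ℝ 1 (fun z => V z k) z) (i j : Fin n) :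
    ContinuousAt (fun p : ((Fin n → ℝ) × (Fin n → ℝ)) × ℝ => gg (mv V p.1.1 p.2 i) (mv V p.1.1 p.2 j)
      (p.1.2 i + p.2 * ψ i) (p.1.2 j + p.2 * ψ j)) ((z, φ), 0) := by
  have hm := fun k => (mv_contDiffAt (φ := φ) hV k).continuousAt
  have hc : ContinuousAt (fun p : ((Fin n → ℝ) × (Fin n → ℝ)) × ℝ =>
      cos (p.1.2 i + p.2 * ψ i - (p.1.2 j + p.2 * ψ j))) ((z, φ), 0) := by
    apply Continuous.continuousAt; fun_prop
  have hs : ∀ k, ContinuousAt (fun p : ((Fin n → ℝ) × (Fin n → ℝ)) × ℝ =>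
      √(1 - (mv V p.1.1 p.2 k) ^ 2)) ((z, φ), 0) := fun k =>
    (continuousAt_const.sub ((hm k).pow 2)).sqrt
  unfold gg
  exact (((hs i).mul (hs j)).mul hc).add ((hm i).mul (hm j))

/-- a contact with a point resting at the south pole -/
lemma pole_pair {V : (Fin n → ℝ) → Fin n → ℝ} {z φ ψ : Fin n → ℝ}
    (hV : ∀ k, ContDiffAt ℝ 1 (fun z => V z k) z) {i j : Fin n} (hzi : z i = -1)
    (hVi : ∀ᶠ z' in 𝓝 z, V z' i = 0) (hzj : -1 < z j ∧ z j < 1) (hVj : 0 < V z j) :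
    ∀ᶠ p : ((Fin n → ℝ) × (Fin n → ℝ)) × ℝ in 𝓝 ((z, φ), 0), 0 ≤ p.2 →
      gg (mv V p.1.1 p.2 i) (mv V p.1.1 p.2 j) (p.1.2 i + p.2 * ψ i) (p.1.2 j + p.2 * ψ j) ≤
      gg (p.1.1 i) (p.1.1 j) (p.1.2 i) (p.1.2 j) := by
  set b : ((Fin n → ℝ) × (Fin n → ℝ)) × ℝ → ℝ := fun p => √(1 - (mv V p.1.1 p.2 j) ^ 2) *
    cos (p.1.2 i + p.2 * ψ i - (p.1.2 j + p.2 * ψ j)) with hb
  have hbc : ContDiffAt ℝ 1 b ((z, φ), 0) := by
    refine ContDiffAt.mul ?_ ?_
    · refine (contDiffAt_const.sub ((mv_contDiffAt hV j).pow 2)).sqrt ?_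
      have : mv V ((z, φ), (0 : ℝ)).1.1 ((z, φ), (0 : ℝ)).2 j = z j := by simp [mv]
      rw [this]
      nlinarith [hzj.1, hzj.2]
    · apply ContDiffAt.cos
      fun_prop
  obtain ⟨c, hc0, hc⟩ := unif_lip hbc
  have hproj : Tendsto (fun p : ((Fin n → ℝ) × (Fin n → ℝ)) × ℝ => p.1.1) (𝓝 ((z, φ), 0)) (𝓝 z) := by
    have : Continuous (fun p : ((Fin n → ℝ) × (Fin n → ℝ)) × ℝ => p.1.1) := by fun_prop
    exact this.tendsto' _ _ rfl
  have hV0 := hproj.eventually hVi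
  have hsmall : ∀ᶠ z' : Fin n → ℝ in 𝓝 z, √(1 - (z' i) ^ 2) * c + z' i * V z' j < 0 := by
    have c1 : ContinuousAt (fun z' : Fin n → ℝ => √(1 - (z' i) ^ 2) * c + z' i * V z' j) z := by
      have h1 : ContinuousAt (fun z' : Fin n → ℝ => √(1 - (z' i) ^ 2)) z := by
        apply Continuous.continuousAt; fun_prop
      have h2 : ContinuousAt (fun z' : Fin n → ℝ => z' i) z := (continuous_apply i).continuousAt
      exact (h1.mul continuousAt_const).add (h2.mul (hV j).continuousAt)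
    refine c1.eventually (gt_mem_nhds ?_)
    show √(1 - z i ^ 2) * c + z i * V z j < 0
    rw [hzi]; norm_num; exact hVj
  have hs := hproj.eventually hsmall
  filter_upwards [hc, hV0, hs] with p hp1 hp2 hp3 h0
  have e1 : mv V p.1.1 p.2 i = p.1.1 i := by unfold mv; rw [hp2]; ring
  have h1 := hp1 h0
  have e2 : b (p.1, 0) = √(1 - (p.1.1 j) ^ 2) * cos (p.1.2 i - p.1.2 j) := by
    simp [hb, mv]
  rw [e2] at h1
  have h2 := mul_le_mul_of_nonneg_left h1 (Real.sqrt_nonneg (1 - (p.1.1 i) ^ 2))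
  have h3 := mul_nonpos_of_nonneg_of_nonpos h0 hp3.le
  unfold gg
  rw [e1]
  have e3 : √(1 - p.1.1 i ^ 2) * √(1 - mv V p.1.1 p.2 j ^ 2) *
      cos (p.1.2 i + p.2 * ψ i - (p.1.2 j + p.2 * ψ j)) = √(1 - p.1.1 i ^ 2) * b p := by
    simp only [hb]; ring
  rw [e3]
  have e4 : mv V p.1.1 p.2 j = p.1.1 j + p.2 * V p.1.1 j := rfl
  rw [e4]
  nlinarith

/-- **Pairs stay apart** along the path from every nearby state. One point may rest at the south
pole. -/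
theorem pairs_local {V : (Fin n → ℝ) → Fin n → ℝ} {z φ ψ : Fin n → ℝ}
    (hz : ∀ i, -1 ≤ z i ∧ z i < 1) (hV : ∀ k, ContDiffAt ℝ 1 (fun z => V z k) z)
    (hpole : ∀ i, -1 < z i ∨ (z i = -1 ∧ ∀ᶠ z' in 𝓝 z, V z' i = 0))
    (hin : ∀ i j, i ≠ j → gg (z i) (z j) (φ i) (φ j) ≤ 1 / 2)
    (hψ : ∀ i j, i ≠ j → gg (z i) (z j) (φ i) (φ j) = 1 / 2 →
      nr (z i) (z j) (V z i) (V z j) -
        √(1 - z i ^ 2) * √(1 - z j ^ 2) * sin (φ i - φ j) * (ψ i - ψ j) < 0) :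
    ∀ᶠ p : ((Fin n → ℝ) × (Fin n → ℝ)) × ℝ in 𝓝 ((z, φ), 0),
      (∀ i j, i ≠ j → gg (p.1.1 i) (p.1.1 j) (p.1.2 i) (p.1.2 j) ≤ 1 / 2) → 0 ≤ p.2 →
      ∀ i j, i ≠ j → gg (mv V p.1.1 p.2 i) (mv V p.1.1 p.2 j)
        (p.1.2 i + p.2 * ψ i) (p.1.2 j + p.2 * ψ j) ≤ 1 / 2 := by
  -- one pole point and one regular point
  have hone : ∀ i j, z i = -1 → (∀ᶠ z' in 𝓝 z, V z' i = 0) → -1 < z j →
      gg (z i) (z j) (φ i) (φ j) = 1 / 2 →
      nr (z i) (z j) (V z i) (V z j) -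
        √(1 - z i ^ 2) * √(1 - z j ^ 2) * sin (φ i - φ j) * (ψ i - ψ j) < 0 →
      ∀ᶠ p : ((Fin n → ℝ) × (Fin n → ℝ)) × ℝ in 𝓝 ((z, φ), 0), 0 ≤ p.2 →
      gg (mv V p.1.1 p.2 i) (mv V p.1.1 p.2 j) (p.1.2 i + p.2 * ψ i) (p.1.2 j + p.2 * ψ j) ≤
      gg (p.1.1 i) (p.1.1 j) (p.1.2 i) (p.1.2 j) := by
    intro i j hi hVi hj h hd
    refine pole_pair hV hi hVi ⟨hj, (hz j).2⟩ ?_
    have hzj : z j = -(1 / 2) := by
      unfold gg at h
      rw [hi] at h
      norm_num at h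
      linarith
    unfold nr at hd
    rw [hi, hzj] at hd
    norm_num at hd
    linarith
  have key : ∀ i j, ∀ᶠ p : ((Fin n → ℝ) × (Fin n → ℝ)) × ℝ in 𝓝 ((z, φ), 0), i ≠ j →
      gg (p.1.1 i) (p.1.1 j) (p.1.2 i) (p.1.2 j) ≤ 1 / 2 → 0 ≤ p.2 →
      gg (mv V p.1.1 p.2 i) (mv V p.1.1 p.2 j)
        (p.1.2 i + p.2 * ψ i) (p.1.2 j + p.2 * ψ j) ≤ 1 / 2 := by
    intro i j
    by_cases hij : i = j
    · exact Eventually.of_forall fun p h => absurd hij h
    rcases lt_or_eq_of_le (hin i j hij) with h | h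
    · have hcont := gg_continuousAt (ψ := ψ) (φ := φ) hV i j
      have : ∀ᶠ p : ((Fin n → ℝ) × (Fin n → ℝ)) × ℝ in 𝓝 ((z, φ), 0),
          gg (mv V p.1.1 p.2 i) (mv V p.1.1 p.2 j)
            (p.1.2 i + p.2 * ψ i) (p.1.2 j + p.2 * ψ j) < 1 / 2 := by
        refine hcont.eventually (gt_mem_nhds ?_)
        show gg (mv V z 0 i) (mv V z 0 j) (φ i + 0 * ψ i) (φ j + 0 * ψ j) < 1 / 2
        simpa [mv] using h
      filter_upwards [this] with p hp _ _ _ using hp.le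
    · rcases hpole i with hi | ⟨hi, hVi⟩
      · rcases hpole j with hj | ⟨hj, hVj⟩
        · -- both regular
          have hzi : -1 < z i ∧ z i < 1 := ⟨hi, (hz i).2⟩
          have hzj : -1 < z j ∧ z j < 1 := ⟨hj, (hz j).2⟩
          have hcd : ContDiffAt ℝ 1 (fun p : ((Fin n → ℝ) × (Fin n → ℝ)) × ℝ =>
              gg (mv V p.1.1 p.2 i) (mv V p.1.1 p.2 j)
              (p.1.2 i + p.2 * ψ i) (p.1.2 j + p.2 * ψ j)) ((z, φ), 0) := by
            have hm := fun k => mv_contDiffAt (φ := φ) hV k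
            have hs : ∀ k, -1 < z k ∧ z k < 1 → ContDiffAt ℝ 1
                (fun p : ((Fin n → ℝ) × (Fin n → ℝ)) × ℝ =>
                √(1 - (mv V p.1.1 p.2 k) ^ 2)) ((z, φ), 0) := by
              intro k hk
              refine (contDiffAt_const.sub ((hm k).pow 2)).sqrt ?_
              have : mv V ((z, φ), (0 : ℝ)).1.1 ((z, φ), (0 : ℝ)).2 k = z k := by simp [mv]
              rw [this]
              nlinarith [hk.1, hk.2]
            have hc : ContDiffAt ℝ 1 (fun p : ((Fin n → ℝ) × (Fin n → ℝ)) × ℝ =>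
                cos (p.1.2 i + p.2 * ψ i - (p.1.2 j + p.2 * ψ j))) ((z, φ), 0) := by
              apply ContDiffAt.cos
              fun_prop
            unfold gg
            exact (((hs i hzi).mul (hs j hzj)).mul hc).add ((hm i).mul (hm j))
          have hd := gg_hasDerivAt (v := V z i) (v' := V z j) (p := ψ i) (q := ψ j) hzi hzj h
          have hu := unif (h := fun p : ((Fin n → ℝ) × (Fin n → ℝ)) × ℝ => gg (mv V p.1.1 p.2 i)
            (mv V p.1.1 p.2 j) (p.1.2 i + p.2 * ψ i) (p.1.2 j + p.2 * ψ j)) hcd hd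
            (hψ i j hij h)
          filter_upwards [hu] with p hp _ h1 h0
          have := hp h0
          simp only [mv, zero_mul, add_zero] at this
          exact this.trans h1
        · have hd := hψ j i (fun h => hij h.symm) (by rw [gg_comm]; exact h)
          filter_upwards [hone j i hj hVj hi (by rw [gg_comm]; exact h) hd] with p hp _ h1 h0
          have := hp h0
          rw [gg_comm, gg_comm (p.1.1 j)] at this
          exact this.trans h1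
      · rcases hpole j with hj | ⟨hj, hVj⟩
        · filter_upwards [hone i j hi hVi hj h (hψ i j hij h)] with p hp _ h1 h0
          exact (hp h0).trans h1
        · exfalso
          unfold gg at h
          rw [hi, hj] at h
          norm_num at h
  have h2 : ∀ᶠ p : ((Fin n → ℝ) × (Fin n → ℝ)) × ℝ in 𝓝 ((z, φ), 0), ∀ i j, i ≠ j →
      gg (p.1.1 i) (p.1.1 j) (p.1.2 i) (p.1.2 j) ≤ 1 / 2 → 0 ≤ p.2 →
      gg (mv V p.1.1 p.2 i) (mv V p.1.1 p.2 j)
        (p.1.2 i + p.2 * ψ i) (p.1.2 j + p.2 * ψ j) ≤ 1 / 2 := by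
    rw [eventually_all]; intro i; rw [eventually_all]; intro j; exact key i j
  filter_upwards [h2] with p hp h1 h0 i j hij
  exact hp i j hij (h1 i j hij) h0

end

end Pool.Agent.Helper66.Kiss
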