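import Pool.Agent.Helper66.Kiss.Band

set_option autoImplicit false

/-! # Rational coordinates for the end region -/

namespace Pool.Agent.Helper66.Kiss

open Real Set Filter Topology

/-- height of an upper point (`a = 1` is the wall) -/
noncomputable def zU (a : ℝ) : ℝ := (3 * a ^ 2 - 1) / (3 * a ^ 2 + 1)

/-- height of a lower point -/
noncomputable def zL (a : ℝ) : ℝ := (1 - 3 * a ^ 2) / (3 * a ^ 2 + 1)

/-- height of the lowest point, `τ` is the tangent of half its polar distance -/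
noncomputable def zS (τ : ℝ) : ℝ := (τ ^ 2 - 1) / (1 + τ ^ 2)

lemma zL_eq (a : ℝ) : zL a = - zU a := by unfold zL zU; ring

lemma sqrt_zU {a : ℝ} (ha : 0 < a) : √(1 - zU a ^ 2) = 2 * √3 * a / (3 * a ^ 2 + 1) := by
  have h1 : 0 < 3 * a ^ 2 + 1 := by positivity
  have h3 : √3 ^ 2 = (3 : ℝ) := Real.sq_sqrt (by norm_num)
  rw [show 1 - zU a ^ 2 = (2 * √3 * a / (3 * a ^ 2 + 1)) ^ 2 by
    unfold zU
    rw [div_pow, div_pow, mul_pow, mul_pow, h3]
    field_simp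
    ring]
  exact Real.sqrt_sq (by positivity)

lemma sqrt_zL {a : ℝ} (ha : 0 < a) : √(1 - zL a ^ 2) = 2 * √3 * a / (3 * a ^ 2 + 1) := by
  rw [zL_eq, neg_sq]; exact sqrt_zU ha

lemma sqrt_zS {τ : ℝ} (hτ : 0 < τ) : √(1 - zS τ ^ 2) = 2 * τ / (1 + τ ^ 2) := by
  have h1 : 0 < 1 + τ ^ 2 := by positivity
  rw [show 1 - zS τ ^ 2 = (2 * τ / (1 + τ ^ 2)) ^ 2 by
    unfold zS
    rw [div_pow, div_pow]
    field_simp
    ring]
  exact Real.sqrt_sq (by positivity)

/-- cosine of the width of a pair on the same side -/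
noncomputable def Qs (a b : ℝ) : ℝ := (9 * (a ^ 2 + b ^ 2) - 1 - 9 * a ^ 2 * b ^ 2) / (24 * a * b)

/-- cosine of the width of a mixed pair -/
noncomputable def Qm (a b : ℝ) : ℝ := (1 - a ^ 2 - b ^ 2 + 9 * a ^ 2 * b ^ 2) / (8 * a * b)

/-- cosine of the width of a pair with the lowest point -/
noncomputable def Qp (τ a : ℝ) : ℝ :=
  (3 * (1 - a ^ 2) + τ ^ 2 * (9 * a ^ 2 - 1)) / (8 * √3 * a * τ)

lemma wd_UU {a b : ℝ} (ha : 0 < a) (hb : 0 < b) : wd (zU a) (zU b) = arccos (Qs a b) := by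
  have h1 : 0 < 3 * a ^ 2 + 1 := by positivity
  have h2 : 0 < 3 * b ^ 2 + 1 := by positivity
  have h3 : √3 * √3 = (3 : ℝ) := Real.mul_self_sqrt (by norm_num)
  have h30 : 0 < √3 := Real.sqrt_pos.2 (by norm_num)
  unfold wd
  rw [sqrt_zU ha, sqrt_zU hb]
  congr 1
  unfold Qs zU
  have e : 2 * √3 * a / (3 * a ^ 2 + 1) * (2 * √3 * b / (3 * b ^ 2 + 1)) =
      12 * a * b / ((3 * a ^ 2 + 1) * (3 * b ^ 2 + 1)) := by
    field_simp
    nlinarith
  rw [e]
  field_simp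
  ring

lemma wd_LL {a b : ℝ} (ha : 0 < a) (hb : 0 < b) : wd (zL a) (zL b) = arccos (Qs a b) := by
  rw [← wd_UU ha hb]
  unfold wd
  rw [zL_eq, zL_eq, neg_sq, neg_sq, neg_mul_neg]

lemma wd_UL {a b : ℝ} (ha : 0 < a) (hb : 0 < b) : wd (zU a) (zL b) = arccos (Qm a b) := by
  have h1 : 0 < 3 * a ^ 2 + 1 := by positivity
  have h2 : 0 < 3 * b ^ 2 + 1 := by positivity
  have h3 : √3 * √3 = (3 : ℝ) := Real.mul_self_sqrt (by norm_num)
  have h30 : 0 < √3 := Real.sqrt_pos.2 (by norm_num)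
  unfold wd
  rw [sqrt_zU ha, sqrt_zL hb]
  congr 1
  unfold Qm zU zL
  have e : 2 * √3 * a / (3 * a ^ 2 + 1) * (2 * √3 * b / (3 * b ^ 2 + 1)) =
      12 * a * b / ((3 * a ^ 2 + 1) * (3 * b ^ 2 + 1)) := by
    field_simp
    nlinarith
  rw [e]
  field_simp
  ring

lemma wd_SL {τ a : ℝ} (hτ : 0 < τ) (ha : 0 < a) : wd (zS τ) (zL a) = arccos (Qp τ a) := by
  have h1 : 0 < 3 * a ^ 2 + 1 := by positivity
  have h2 : 0 < 1 + τ ^ 2 := by positivity
  have h30 : 0 < √3 := Real.sqrt_pos.2 (by norm_num)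
  unfold wd
  rw [sqrt_zS hτ, sqrt_zL ha]
  congr 1
  unfold Qp zS zL
  field_simp
  ring

/-- tangent line bound for the cosine -/
lemma cos_tangent {θ ω : ℝ} (h0 : 0 ≤ θ) (h1 : θ ≤ π / 2) (h2 : 0 ≤ ω) (h3 : ω ≤ π / 2) :
    cos θ ≤ cos ω - (θ - ω) * sin ω := by
  have hpi := Real.pi_pos
  have hd : ∀ x : ℝ, HasDerivAt cos (-sin x) x := Real.hasDerivAt_cos
  rcases lt_trichotomy θ ω with h | h | h
  · obtain ⟨c, hc, hc'⟩ := exists_hasDerivAt_eq_slope cos (fun x => -sin x) h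
      Real.continuous_cos.continuousOn (fun x _ => hd x)
    have h5 : sin c ≤ sin ω := Real.sin_le_sin_of_le_of_le_pi_div_two (by linarith [hc.1]) h3 hc.2.le
    have h6 : cos ω - cos θ = -sin c * (ω - θ) := by
      rw [hc']; field_simp [(by linarith : ω - θ ≠ 0)]
    have h7 : sin c * (ω - θ) ≤ sin ω * (ω - θ) := mul_le_mul_of_nonneg_right h5 (by linarith)
    linarith
  · subst h; linarith
  · obtain ⟨c, hc, hc'⟩ := exists_hasDerivAt_eq_slope cos (fun x => -sin x) h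
      Real.continuous_cos.continuousOn (fun x _ => hd x)
    have h5 : sin ω ≤ sin c := Real.sin_le_sin_of_le_of_le_pi_div_two (by linarith)
      (by linarith [hc.2]) hc.1.le
    have h6 : cos θ - cos ω = -sin c * (θ - ω) := by
      rw [hc']; field_simp [(by linarith : θ - ω ≠ 0)]
    have h7 : sin ω * (θ - ω) ≤ sin c * (θ - ω) := mul_le_mul_of_nonneg_right h5 (by linarith)
    linarith

end Pool.Agent.Helper66.Kiss
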