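import Pool.Agent.Helper66.Kiss.Band
import Pool.Agent.Helper66.Kiss.Cross

set_option autoImplicit false

/-! # No tight closed walk of winding number at least two

In a configuration of points at pairwise angle `≥ π/3`, whose heights are at most `1/2`, a closed
walk of tight pairs without repetitions has winding number one. -/

namespace Pool.Agent.Helper66.Kiss

open Real Set Filter Topology

/-- four points on a meridian below latitude 30 degrees -/
lemma four_meridian {z : Fin 4 → ℝ} (h1 : ∀ i, -1 < z i ∧ z i ≤ 1 / 2)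
    (h2 : ∀ i j, i ≠ j → √(1 - z i ^ 2) * √(1 - z j ^ 2) + z i * z j ≤ 1 / 2) : False := by
  have hpi := Real.pi_pos
  set L : Fin 4 → ℝ := fun i => arcsin (z i) with hL
  have hL1 : ∀ i, -(π / 2) ≤ L i := fun i => Real.neg_pi_div_two_le_arcsin _
  have hL2 : ∀ i, L i ≤ π / 6 := by
    intro i
    have h3 : arcsin (1 / 2) = π / 6 := by
      rw [← Real.sin_pi_div_six, Real.arcsin_sin (by linarith) (by linarith)]
    rw [← h3]
    exact Real.monotone_arcsin (h1 i).2
  have hcos : ∀ i j, i ≠ j → cos (L i - L j) ≤ 1 / 2 := by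
    intro i j hij
    rw [cos_sub]
    simp only [hL]
    rw [Real.cos_arcsin, Real.cos_arcsin, Real.sin_arcsin (h1 i).1.le (by linarith [(h1 i).2]),
      Real.sin_arcsin (h1 j).1.le (by linarith [(h1 j).2])]
    exact h2 i j hij
  have hd : ∀ i j, i ≠ j → L i ≤ L j → π / 3 ≤ L j - L i := by
    intro i j hij hle
    have h5 := hcos i j hij
    rw [← Real.cos_pi_div_three, ← cos_neg, neg_sub] at h5
    by_contra hcon
    push Not at hcon
    have := Real.cos_lt_cos_of_nonneg_of_le_pi (by linarith) (by linarith) hcon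
    linarith
  have a0 := hL1 0; have a1 := hL1 1; have a2 := hL1 2; have a3 := hL1 3
  have b0 := hL2 0; have b1 := hL2 1; have b2 := hL2 2; have b3 := hL2 3
  have d01 : π / 3 ≤ L 1 - L 0 ∨ π / 3 ≤ L 0 - L 1 := by
    rcases le_total (L 0) (L 1) with h | h
    · exact Or.inl (hd 0 1 (by decide) h)
    · exact Or.inr (hd 1 0 (by decide) h)
  have d02 : π / 3 ≤ L 2 - L 0 ∨ π / 3 ≤ L 0 - L 2 := by
    rcases le_total (L 0) (L 2) with h | h
    · exact Or.inl (hd 0 2 (by decide) h)
    · exact Or.inr (hd 2 0 (by decide) h)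
  have d03 : π / 3 ≤ L 3 - L 0 ∨ π / 3 ≤ L 0 - L 3 := by
    rcases le_total (L 0) (L 3) with h | h
    · exact Or.inl (hd 0 3 (by decide) h)
    · exact Or.inr (hd 3 0 (by decide) h)
  have d12 : π / 3 ≤ L 2 - L 1 ∨ π / 3 ≤ L 1 - L 2 := by
    rcases le_total (L 1) (L 2) with h | h
    · exact Or.inl (hd 1 2 (by decide) h)
    · exact Or.inr (hd 2 1 (by decide) h)
  have d13 : π / 3 ≤ L 3 - L 1 ∨ π / 3 ≤ L 1 - L 3 := by
    rcases le_total (L 1) (L 3) with h | h
    · exact Or.inl (hd 1 3 (by decide) h)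
    · exact Or.inr (hd 3 1 (by decide) h)
  have d23 : π / 3 ≤ L 3 - L 2 ∨ π / 3 ≤ L 2 - L 3 := by
    rcases le_total (L 2) (L 3) with h | h
    · exact Or.inl (hd 2 3 (by decide) h)
    · exact Or.inr (hd 3 2 (by decide) h)
  rcases d01 with d01 | d01 <;> rcases d02 with d02 | d02 <;> rcases d03 with d03 | d03 <;>
    rcases d12 with d12 | d12 <;> rcases d13 with d13 | d13 <;> rcases d23 with d23 | d23 <;>
    linarith

/-- two points at the same longitude, both on the far side of a third point at angle `π/3` over the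
pole, coincide -/
lemma double_pi {a b c : ℝ} (ha : -1 < a ∧ a ≤ 1 / 2) (hb : -1 < b ∧ b ≤ 1 / 2)
    (hc : -1 < c ∧ c ≤ 1 / 2) (h1 : 1 / 2 - a * b = -(√(1 - a ^ 2) * √(1 - b ^ 2)))
    (h2 : 1 / 2 - c * b = -(√(1 - c ^ 2) * √(1 - b ^ 2))) :
    √(1 - a ^ 2) * √(1 - c ^ 2) + a * c = 1 := by
  have hpi := Real.pi_pos
  have key : ∀ x : ℝ, -1 < x ∧ x ≤ 1 / 2 → 1 / 2 - x * b = -(√(1 - x ^ 2) * √(1 - b ^ 2)) →
      cos (-(arcsin x + arcsin b)) = -(1 / 2) ∧ 0 ≤ -(arcsin x + arcsin b) ∧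
        -(arcsin x + arcsin b) ≤ π := by
    intro x hx h
    have e1 : cos (arcsin x + arcsin b) = -(1 / 2) := by
      rw [cos_add, Real.cos_arcsin, Real.cos_arcsin, Real.sin_arcsin hx.1.le (by linarith [hx.2]),
        Real.sin_arcsin hb.1.le (by linarith [hb.2])]
      linarith
    have h3 : arcsin (1 / 2) = π / 6 := by
      rw [← Real.sin_pi_div_six, Real.arcsin_sin (by linarith) (by linarith)]
    have l1 : arcsin x ≤ π / 6 := by rw [← h3]; exact Real.monotone_arcsin hx.2
    have l2 : arcsin b ≤ π / 6 := by rw [← h3]; exact Real.monotone_arcsin hb.2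
    have m1 := Real.neg_pi_div_two_le_arcsin x
    have m2 := Real.neg_pi_div_two_le_arcsin b
    refine ⟨by rw [cos_neg]; exact e1, ?_, by linarith⟩
    by_contra hcon
    push Not at hcon
    have : 0 ≤ cos (arcsin x + arcsin b) := Real.cos_nonneg_of_neg_pi_div_two_le_of_le
      (by linarith) (by linarith)
    linarith
  obtain ⟨a1, a2, a3⟩ := key a ha h1
  obtain ⟨c1, c2, c3⟩ := key c hc h2
  have he := Real.injOn_cos ⟨a2, a3⟩ ⟨c2, c3⟩ (a1.trans c1.symm)
  have he2 : arcsin a = arcsin c := by linarith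
  have he3 : a = c := by
    have := congrArg sin he2
    rwa [Real.sin_arcsin ha.1.le (by linarith [ha.2]), Real.sin_arcsin hc.1.le
      (by linarith [hc.2])] at this
  rw [← he3, Real.mul_self_sqrt (by nlinarith [ha.1, ha.2])]
  ring

lemma arc_eq {a b z z' θ : ℝ} (hc : 0 < √(1 - z ^ 2)) (hc' : 0 < √(1 - z' ^ 2))
    (hsin : sin (b - a) ≠ 0) :
    (sin (b - θ) / (√(1 - z ^ 2) * sin (b - a))) • pt z a +
      (sin (θ - a) / (√(1 - z' ^ 2) * sin (b - a))) • pt z' b =
      (!₂[cos θ, sin θ, arcH a b (z / √(1 - z ^ 2)) (z' / √(1 - z' ^ 2)) θ] : E3) := by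
  have h1 := hc.ne'
  have h2 := hc'.ne'
  ext i
  fin_cases i
  · simp [pt]
    field_simp
    simp only [sin_sub]
    ring
  · simp [pt]
    field_simp
    simp only [sin_sub]
    ring
  · simp [pt, arcH]
    field_simp

section

variable {n : ℕ}

/-- inner product of points with heights and longitudes -/
noncomputable def gg (z w a b : ℝ) : ℝ := √(1 - z ^ 2) * √(1 - w ^ 2) * cos (a - b) + z * w

lemma gg_eq (z w a b : ℝ) : gg z w a b = inner ℝ (pt z a) (pt w b) := by rw [inner_pt, gg]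

lemma sqrt_pos_of {z : ℝ} (hz : -1 < z ∧ z ≤ 1 / 2) : 0 < √(1 - z ^ 2) := by
  apply Real.sqrt_pos.2
  nlinarith [hz.1, hz.2]

/-- tight pairs -/
lemma gg_of_tight {z w a b : ℝ} (hz : -1 < z ∧ z ≤ 1 / 2) (hw : -1 < w ∧ w ≤ 1 / 2)
    (hq : -(√(1 - z ^ 2) * √(1 - w ^ 2)) ≤ 1 / 2 - z * w) (h : b - a = wd z w)
    (hpos : 0 < wd z w) : gg z w a b = 1 / 2 := by
  have h1 := sqrt_pos_of hz
  have h2 := sqrt_pos_of hw
  have h3 := mul_pos h1 h2
  have hq1 : -1 ≤ (1 / 2 - z * w) / (√(1 - z ^ 2) * √(1 - w ^ 2)) := by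
    rw [le_div_iff₀ h3]; linarith
  have hq2 : (1 / 2 - z * w) / (√(1 - z ^ 2) * √(1 - w ^ 2)) ≤ 1 := by
    unfold wd at hpos
    exact (Real.arccos_pos.1 hpos).le
  unfold gg
  rw [← cos_neg, neg_sub, h, wd, Real.cos_arccos hq1 hq2]
  field_simp
  ring

lemma gg_of_vert {z w a b : ℝ} (h : b - a = 0) : gg z w a b = √(1 - z ^ 2) * √(1 - w ^ 2) + z * w := by
  unfold gg
  rw [show a - b = 0 by linarith, cos_zero, mul_one]

lemma eq_of_wd_pi {z w : ℝ} (hz : -1 < z ∧ z ≤ 1 / 2) (hw : -1 < w ∧ w ≤ 1 / 2)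
    (hq : -(√(1 - z ^ 2) * √(1 - w ^ 2)) ≤ 1 / 2 - z * w) (h : wd z w = π) :
    1 / 2 - z * w = -(√(1 - z ^ 2) * √(1 - w ^ 2)) := by
  have h3 := mul_pos (sqrt_pos_of hz) (sqrt_pos_of hw)
  unfold wd at h
  rw [Real.arccos_eq_pi, div_le_iff₀ h3] at h
  linarith

/-- **Main lemma**, for the periodic sequence of nodes of the walk -/
lemma no_tight_seq {r w : ℕ} (hr : 0 < r) (hw : 2 ≤ w) {z φ : Fin n → ℝ}
    (hz : ∀ i, -1 < z i ∧ z i ≤ 1 / 2)
    (hin : ∀ i j, i ≠ j → gg (z i) (z j) (φ i) (φ j) ≤ 1 / 2)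
    {D : Fin n → Fin n → Prop}
    (hq : ∀ i j, i ≠ j → ¬ D i j → -(√(1 - z i ^ 2) * √(1 - z j ^ 2)) ≤ 1 / 2 - z i * z j)
    (hv : ∀ i j, i ≠ j → ¬ D i j → -(1 / 3) < √(1 - z i ^ 2) * √(1 - z j ^ 2) + z i * z j)
    {κ : ℕ → Fin n} {α : ℕ → ℝ}
    (hκ : ∀ k l, κ k = κ l ↔ k % r = l % r) (hα : ∀ k, α (k + r) = α k + 2 * π * w)
    (hφ : ∀ k, ∃ m : ℤ, α k = φ (κ k) + 2 * π * m)
    (htight : ∀ k, α (k + 1) - α k = wd (z (κ k)) (z (κ (k + 1))))
    (hnd : ∀ k, ¬ D (κ k) (κ (k + 1))) : False := by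
  have hpi := Real.pi_pos
  have hwR : (2 : ℝ) ≤ w := by exact_mod_cast hw
  -- widths
  have w0 : ∀ k, α k ≤ α (k + 1) := fun k => by
    have := htight k; have := wd_nonneg (z (κ k)) (z (κ (k + 1))); linarith
  have w1 : ∀ k, α (k + 1) ≤ α k + π := fun k => by
    have := htight k; have : wd (z (κ k)) (z (κ (k + 1))) ≤ π := Real.arccos_le_pi _; linarith
  have wm : ∀ m k, α (k + m) ≤ α k + m * π := by
    intro m k
    induction m with
    | zero => simp
    | succ m ih => have := w1 (k + m); push_cast; rw [← add_assoc]; linarith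
  -- r > 2
  have hr2 : 2 < r := by
    have h1 := wm r 0
    rw [hα 0] at h1
    have h2 : 2 * (w : ℝ) ≤ r := by
      by_contra hcon
      push Not at hcon
      nlinarith
    have : 2 * w ≤ r := by exact_mod_cast h2
    omega
  -- inner products
  have hG : ∀ k l, gg (z (κ k)) (z (κ l)) (α k) (α l) = gg (z (κ k)) (z (κ l)) (φ (κ k)) (φ (κ l)) := by
    intro k l
    obtain ⟨a, ha⟩ := hφ k
    obtain ⟨b, hb⟩ := hφ l
    unfold gg
    rw [ha, hb, show φ (κ k) + 2 * π * a - (φ (κ l) + 2 * π * b) =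
      φ (κ k) - φ (κ l) + ((a - b : ℤ) : ℝ) * (2 * π) by push_cast; ring,
      Real.cos_add_int_mul_two_pi]
  have hle : ∀ k l, k % r ≠ l % r → gg (z (κ k)) (z (κ l)) (α k) (α l) ≤ 1 / 2 := by
    intro k l hkl
    rw [hG]
    exact hin _ _ (fun h => hkl ((hκ k l).1 h))
  have hne1 : ∀ k, κ k ≠ κ (k + 1) := by
    intro k h
    have h1 := (hκ _ _).1 h
    have h2 : k ≡ k + 1 [MOD r] := h1
    have h3 := (Nat.modEq_iff_dvd' (by omega : k ≤ k + 1)).1 h2
    rw [Nat.add_sub_cancel_left] at h3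
    have := Nat.le_of_dvd (by norm_num) h3
    omega
  have hne2 : ∀ k, k % r ≠ (k + 2) % r := by
    intro k h1
    have h2 : k ≡ k + 2 [MOD r] := h1
    have h3 := (Nat.modEq_iff_dvd' (by omega : k ≤ k + 2)).1 h2
    rw [Nat.add_sub_cancel_left] at h3
    have := Nat.le_of_dvd (by norm_num) h3
    omega
  have hdp : ∀ k, α (k + 2) < α k + 2 * π := by
    intro k
    by_contra hcon
    push Not at hcon
    have e1 : wd (z (κ k)) (z (κ (k + 1))) = π := by
      have := htight k; have := w1 k; have := w1 (k + 1); linarith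
    have e2 : wd (z (κ (k + 1))) (z (κ (k + 2))) = π := by
      have := htight (k + 1); have := w1 k; have := w1 (k + 1)
      have h5 : wd (z (κ (k + 1))) (z (κ (k + 1 + 1))) ≤ π := Real.arccos_le_pi _
      rw [show k + 2 = k + 1 + 1 by ring] at hcon ⊢
      linarith
    have f1 := eq_of_wd_pi (hz _) (hz _) (hq _ _ (hne1 k) (hnd k)) e1
    have f2 := eq_of_wd_pi (hz _) (hz _) (hq _ _ (hne1 (k + 1)) (hnd (k + 1))) e2
    have f3 := double_pi (hz (κ k)) (hz (κ (k + 1))) (hz (κ (k + 2))) f1 (by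
      rw [mul_comm (z (κ (k + 2))), mul_comm (√(1 - z (κ (k + 2)) ^ 2))]
      exact f2)
    have f4 := hle k (k + 2) (hne2 k)
    have f5 : α (k + 2) = α k + 2 * π := by
      have := w1 k; have := w1 (k + 1)
      rw [show k + 2 = k + 1 + 1 by ring] at hcon ⊢
      linarith
    unfold gg at f4
    rw [f5, show α k - (α k + 2 * π) = -(2 * π) by ring, cos_neg, cos_two_pi, mul_one, f3] at f4
    linarith
  have hrw : 2 * w < r := by
    have h1 := wm (r - 2) 2
    rw [show 2 + (r - 2) = r by omega] at h1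
    have h2 := hα 0
    rw [zero_add] at h2
    have h3 := hdp 0
    rw [zero_add] at h3
    have h4 : ((r - 2 : ℕ) : ℝ) = r - 2 := by push_cast [hr2.le]; ring
    rw [h4, h2] at h1
    have h5 : 2 * (w : ℝ) < r := by
      by_contra hcon
      push Not at hcon
      nlinarith
    exact_mod_cast h5
  have hrwR : 2 * (w : ℝ) < r := by exact_mod_cast hrw
  have hrR : (0 : ℝ) < r := by exact_mod_cast hr
  -- perturbed longitudes
  set β : ℝ → ℕ → ℝ := fun η k => (1 - η) * α k + η * (2 * π * w / r) * k with hβ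
  have hβ0 : ∀ k, β 0 k = α k := fun k => by simp [hβ]
  have hβc : ∀ k, Continuous fun η => β η k := fun k => by simp only [hβ]; fun_prop
  have hβ1 : ∀ η, 0 < η → η < 1 → ∀ k, β η k < β η (k + 1) := by
    intro η h0 h1 k
    have e : β η (k + 1) - β η k = (1 - η) * (α (k + 1) - α k) + η * (2 * π * w / r) := by
      simp only [hβ]; push_cast; ring
    have : 0 < η * (2 * π * w / r) := by positivity
    have : 0 ≤ (1 - η) * (α (k + 1) - α k) := mul_nonneg (by linarith) (by linarith [w0 k])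
    linarith
  have hβ2 : ∀ η, 0 < η → η < 1 → ∀ k, β η (k + 1) < β η k + π := by
    intro η h0 h1 k
    have e : β η (k + 1) - β η k = (1 - η) * (α (k + 1) - α k) + η * (2 * π * w / r) := by
      simp only [hβ]; push_cast; ring
    have h2 : 2 * π * w / r < π := by
      rw [div_lt_iff₀ hrR]; nlinarith
    have h3 : (1 - η) * (α (k + 1) - α k) ≤ (1 - η) * π :=
      mul_le_mul_of_nonneg_left (by linarith [w1 k]) (by linarith)
    have h4 : η * (2 * π * w / r) < η * π := mul_lt_mul_of_pos_left h2 h0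
    linarith
  have hβ3 : ∀ η k, β η (k + r) = β η k + 2 * π * w := by
    intro η k
    simp only [hβ]
    rw [hα]
    push_cast
    field_simp
    ring
  set τ : ℕ → ℝ := fun k => z (κ k) / √(1 - z (κ k) ^ 2) with hτ
  have hτr : ∀ k, τ (k + r) = τ k := by
    intro k
    have : κ (k + r) = κ k := (hκ _ _).2 (Nat.add_mod_right k r)
    simp only [hτ, this]
  -- crossing arcs at every small parameter
  have hcross := fun (η : ℝ) (h0 : 0 < η) (h1 : η < 1) =>
    cross hr (by omega : 1 ≤ w) (hβ1 η h0 h1) (hβ2 η h0 h1) (hβ3 η) hτr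
  -- multiples
  have hmul : ∀ k, α k = α (k % r) + 2 * π * w * (k / r : ℕ) := by
    have h1 : ∀ m k, α (k + r * m) = α k + 2 * π * w * m := by
      intro m k
      induction m with
      | zero => simp
      | succ m ih => rw [mul_add, mul_one, ← add_assoc, hα, ih]; push_cast; ring
    intro k
    have := h1 (k / r) (k % r)
    rwa [Nat.mod_add_div] at this
  have hcong : ∀ k l, k % r = l % r → ∃ m : ℤ, α l = α k + 2 * π * (w * m) := by
    intro k l h
    refine ⟨((l / r : ℕ) : ℤ) - ((k / r : ℕ) : ℤ), ?_⟩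
    rw [hmul k, hmul l, h]
    generalize l / r = p
    generalize k / r = q
    push_cast
    ring
  -- no crossing near zero
  have key : ∀ i j, ∀ᶠ η in 𝓝[>] (0 : ℝ), ¬ ∃ θ, β η i ≤ θ ∧ θ ≤ β η (i + 1) ∧ β η j ≤ θ + 2 * π ∧
      θ + 2 * π ≤ β η (j + 1) ∧
      arcH (β η i) (β η (i + 1)) (τ i) (τ (i + 1)) θ =
      arcH (β η j) (β η (j + 1)) (τ j) (τ (j + 1)) (θ + 2 * π) := by
    intro i j
    rcases lt_or_ge (α (i + 1)) (α j - 2 * π) with ha | ha
    · have : ∀ᶠ η in 𝓝 (0 : ℝ), β η (i + 1) < β η j - 2 * π := by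
        refine ContinuousAt.eventually_lt (hβc _).continuousAt
          ((hβc _).sub continuous_const).continuousAt ?_
        rw [hβ0, hβ0]; exact ha
      filter_upwards [mem_nhdsWithin_of_mem_nhds this] with η hη
      rintro ⟨θ, h1, h2, h3, h4, -⟩
      linarith
    rcases lt_or_ge (α (j + 1) - 2 * π) (α i) with hb | hb
    · have : ∀ᶠ η in 𝓝 (0 : ℝ), β η (j + 1) - 2 * π < β η i := by
        refine ContinuousAt.eventually_lt ((hβc _).sub continuous_const).continuousAt
          (hβc _).continuousAt ?_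
        rw [hβ0, hβ0]; exact hb
      filter_upwards [mem_nhdsWithin_of_mem_nhds this] with η hη
      rintro ⟨θ, h1, h2, h3, h4, -⟩
      linarith
    -- overlapping arcs: four distinct nodes
    have i1 := w1 i
    have j1 := w1 j
    have i0 := w0 i
    have j0 := w0 j
    have nij : i % r ≠ j % r := by
      intro h
      obtain ⟨m, hm⟩ := hcong _ _ h
      have q1 : (1 : ℝ) ≤ 2 * ((w : ℝ) * m) := by
        by_contra hcon; push Not at hcon; nlinarith
      have q2 : 2 * ((w : ℝ) * m) ≤ 3 := by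
        by_contra hcon; push Not at hcon; nlinarith
      have q3 : (1 : ℤ) ≤ 2 * ((w : ℤ) * m) := by exact_mod_cast q1
      have q4 : 2 * ((w : ℤ) * m) ≤ 3 := by exact_mod_cast q2
      have q5 : (w : ℤ) * m = 1 := by omega
      have q6 : (w : ℤ) ∣ 1 := ⟨m, q5.symm⟩
      have q7 := Int.le_of_dvd (by norm_num) q6
      omega
    have nij' : (i + 1) % r ≠ (j + 1) % r := by
      intro h
      obtain ⟨m, hm⟩ := hcong _ _ h
      have q1 : (1 : ℝ) ≤ 2 * ((w : ℝ) * m) := by
        by_contra hcon; push Not at hcon; nlinarith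
      have q2 : 2 * ((w : ℝ) * m) ≤ 3 := by
        by_contra hcon; push Not at hcon; nlinarith
      have q3 : (1 : ℤ) ≤ 2 * ((w : ℤ) * m) := by exact_mod_cast q1
      have q4 : 2 * ((w : ℤ) * m) ≤ 3 := by exact_mod_cast q2
      have q5 : (w : ℤ) * m = 1 := by omega
      have q6 : (w : ℤ) ∣ 1 := ⟨m, q5.symm⟩
      have q7 := Int.le_of_dvd (by norm_num) q6
      omega
    have nij1 : i % r ≠ (j + 1) % r := by
      intro h
      obtain ⟨m, hm⟩ := hcong _ _ h
      have q1 : (2 : ℝ) ≤ 2 * ((w : ℝ) * m) := by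
        by_contra hcon; push Not at hcon; nlinarith
      have q2 : 2 * ((w : ℝ) * m) ≤ 4 := by
        by_contra hcon; push Not at hcon; nlinarith
      have q3 : (2 : ℤ) ≤ 2 * ((w : ℤ) * m) := by exact_mod_cast q1
      have q4 : 2 * ((w : ℤ) * m) ≤ 4 := by exact_mod_cast q2
      have q5 : (w : ℤ) * m = 1 ∨ (w : ℤ) * m = 2 := by omega
      rcases q5 with q5 | q5
      · have q6 : (w : ℤ) ∣ 1 := ⟨m, q5.symm⟩
        have q7 := Int.le_of_dvd (by norm_num) q6
        omega
      · have q6 : (w : ℝ) * m = 2 := by exact_mod_cast q5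
        rw [q6] at hm
        have e1 : α (i + 1) = α i + π := by linarith
        have e2 : α (j + 1) = α j + π := by linarith
        have hm2 : (i + 1) % r = (j + 1 + 1) % r := by
          have : i ≡ j + 1 [MOD r] := h
          exact this.add_right 1
        have e3 := htight (j + 1)
        have e4 := htight i
        rw [← (hκ _ _).2 h, ← (hκ _ _).2 hm2] at e3
        have e5 := hdp j
        rw [show j + 2 = j + 1 + 1 by ring] at e5
        linarith
    have nij2 : (i + 1) % r ≠ j % r := by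
      intro h
      obtain ⟨m, hm⟩ := hcong _ _ h
      have q1 : (0 : ℝ) ≤ 2 * ((w : ℝ) * m) := by
        by_contra hcon; push Not at hcon; nlinarith
      have q2 : 2 * ((w : ℝ) * m) ≤ 2 := by
        by_contra hcon; push Not at hcon; nlinarith
      have q3 : (0 : ℤ) ≤ 2 * ((w : ℤ) * m) := by exact_mod_cast q1
      have q4 : 2 * ((w : ℤ) * m) ≤ 2 := by exact_mod_cast q2
      have q5 : (w : ℤ) * m = 0 ∨ (w : ℤ) * m = 1 := by omega
      rcases q5 with q5 | q5
      · have q6 : (w : ℝ) * m = 0 := by exact_mod_cast q5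
        rw [q6] at hm
        have e1 : α (i + 1) = α i + π := by linarith
        have e2 : α (j + 1) = α j + π := by linarith
        have hm2 : (i + 1 + 1) % r = (j + 1) % r := by
          have : i + 1 ≡ j [MOD r] := h
          exact this.add_right 1
        have e3 := htight (i + 1)
        have e4 := htight j
        rw [(hκ _ _).2 h, (hκ _ _).2 hm2] at e3
        have e5 := hdp i
        rw [show i + 2 = i + 1 + 1 by ring] at e5
        linarith
      · have q6 : (w : ℤ) ∣ 1 := ⟨m, q5.symm⟩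
        have q7 := Int.le_of_dvd (by norm_num) q6
        omega
    have nii : i % r ≠ (i + 1) % r := fun h => hne1 i ((hκ _ _).2 h)
    have njj : j % r ≠ (j + 1) % r := fun h => hne1 j ((hκ _ _).2 h)
    -- both vertical
    by_cases hvv : α (i + 1) = α i ∧ α (j + 1) = α j
    · exfalso
      obtain ⟨e1, e2⟩ := hvv
      have e3 : α j = α i + 2 * π := by linarith
      refine four_meridian (z := ![z (κ i), z (κ (i + 1)), z (κ j), z (κ (j + 1))]) ?_ ?_
      · intro k; fin_cases k <;> exact hz _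
      · have g1 := hle i (i + 1) nii
        have g2 := hle i j nij
        have g3 := hle i (j + 1) nij1
        have g4 := hle (i + 1) j nij2
        have g5 := hle (i + 1) (j + 1) nij'
        have g6 := hle j (j + 1) njj
        unfold gg at g1 g2 g3 g4 g5 g6
        rw [e1, sub_self, cos_zero, mul_one] at g1
        rw [e3, show α i - (α i + 2 * π) = -(2 * π) by ring, cos_neg, cos_two_pi, mul_one] at g2
        rw [e2, e3, show α i - (α i + 2 * π) = -(2 * π) by ring, cos_neg, cos_two_pi, mul_one] at g3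
        rw [e1, e3, show α i - (α i + 2 * π) = -(2 * π) by ring, cos_neg, cos_two_pi, mul_one] at g4
        rw [e1, e2, e3, show α i - (α i + 2 * π) = -(2 * π) by ring, cos_neg, cos_two_pi,
          mul_one] at g5
        rw [e2, sub_self, cos_zero, mul_one] at g6
        intro a b hab
        fin_cases a <;> fin_cases b
        · exact absurd rfl hab
        · exact g1
        · exact g2
        · exact g3
        · show √(1 - z (κ (i + 1)) ^ 2) * √(1 - z (κ i) ^ 2) + z (κ (i + 1)) * z (κ i) ≤ 1 / 2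
          linarith
        · exact absurd rfl hab
        · exact g4
        · exact g5
        · show √(1 - z (κ j) ^ 2) * √(1 - z (κ i) ^ 2) + z (κ j) * z (κ i) ≤ 1 / 2
          linarith
        · show √(1 - z (κ j) ^ 2) * √(1 - z (κ (i + 1)) ^ 2) + z (κ j) * z (κ (i + 1)) ≤ 1 / 2
          linarith
        · exact absurd rfl hab
        · exact g6
        · show √(1 - z (κ (j + 1)) ^ 2) * √(1 - z (κ i) ^ 2) + z (κ (j + 1)) * z (κ i) ≤ 1 / 2
          linarith
        · show √(1 - z (κ (j + 1)) ^ 2) * √(1 - z (κ (i + 1)) ^ 2) +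
            z (κ (j + 1)) * z (κ (i + 1)) ≤ 1 / 2
          linarith
        · show √(1 - z (κ (j + 1)) ^ 2) * √(1 - z (κ j) ^ 2) + z (κ (j + 1)) * z (κ j) ≤ 1 / 2
          linarith
        · exact absurd rfl hab
    -- at least one arc of sixty degrees
    have tv : ∀ k, (α (k + 1) = α k ∧ -(1 / 3) < gg (z (κ k)) (z (κ (k + 1))) (α k) (α (k + 1))) ∨
        (gg (z (κ k)) (z (κ (k + 1))) (α k) (α (k + 1)) = 1 / 2) := by
      intro k
      rcases (wd_nonneg (z (κ k)) (z (κ (k + 1)))).eq_or_lt with h0 | h0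
      · left
        have e := htight k
        rw [← h0] at e
        refine ⟨by linarith, ?_⟩
        rw [gg_of_vert e]
        exact hv _ _ (hne1 k) (hnd k)
      · right
        exact gg_of_tight (hz _) (hz _) (hq _ _ (hne1 k) (hnd k)) (htight k) h0
    have hprod : 4 * (1 / 2 : ℝ) ^ 2 < (1 + gg (z (κ i)) (z (κ (i + 1))) (α i) (α (i + 1))) *
        (1 + gg (z (κ j)) (z (κ (j + 1))) (α j) (α (j + 1))) := by
      rcases tv i with ⟨p1, p2⟩ | p1
      · rcases tv j with ⟨p3, -⟩ | p3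
        · exact absurd ⟨p1, p3⟩ hvv
        · rw [p3]; linarith
      · rcases tv j with ⟨-, p4⟩ | p3
        · rw [p1]; linarith
        · rw [p1, p3]; norm_num
    set G : ℝ → ℕ → ℕ → ℝ := fun η k l => gg (z (κ k)) (z (κ l)) (β η k) (β η l) with hGdef
    have hGc : ∀ k l, Continuous fun η => G η k l := by
      intro k l
      simp only [hGdef, gg]
      have := hβc k
      have := hβc l
      fun_prop
    have hG0 : ∀ k l, G 0 k l = gg (z (κ k)) (z (κ l)) (α k) (α l) := fun k l => by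
      simp only [hGdef, hβ0]
    set M : ℝ → ℝ := fun η => max (1 / 2) (max (max (G η i j) (G η i (j + 1)))
      (max (G η (i + 1) j) (G η (i + 1) (j + 1)))) with hM
    have hMc : Continuous M := by
      simp only [hM]
      exact continuous_const.max (((hGc _ _).max (hGc _ _)).max ((hGc _ _).max (hGc _ _)))
    have hM0 : M 0 = 1 / 2 := by
      simp only [hM, hG0]
      apply max_eq_left
      exact max_le (max_le (hle _ _ nij) (hle _ _ nij1)) (max_le (hle _ _ nij2) (hle _ _ nij'))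
    have hev : ∀ᶠ η in 𝓝 (0 : ℝ), 4 * M η ^ 2 < (1 + G η i (i + 1)) * (1 + G η j (j + 1)) := by
      refine ContinuousAt.eventually_lt (continuous_const.mul (hMc.pow 2)).continuousAt
        ((continuous_const.add (hGc _ _)).mul (continuous_const.add (hGc _ _))).continuousAt ?_
      show 4 * M 0 ^ 2 < (1 + G 0 i (i + 1)) * (1 + G 0 j (j + 1))
      rw [hM0, hG0, hG0]
      exact hprod
    have hI : ∀ᶠ η in 𝓝[>] (0 : ℝ), η ∈ Ioo (0 : ℝ) 1 := Ioo_mem_nhdsGT (by norm_num)
    filter_upwards [mem_nhdsWithin_of_mem_nhds hev, hI] with η hη hη1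
    rintro ⟨θ, h1, h2, h3, h4, h5⟩
    have lt_i := hβ1 η hη1.1 hη1.2 i
    have lt_j := hβ1 η hη1.1 hη1.2 j
    have pi_i := hβ2 η hη1.1 hη1.2 i
    have pi_j := hβ2 η hη1.1 hη1.2 j
    have s_i : 0 < sin (β η (i + 1) - β η i) := Real.sin_pos_of_pos_of_lt_pi (by linarith) (by linarith)
    have s_j : 0 < sin (β η (j + 1) - β η j) := Real.sin_pos_of_pos_of_lt_pi (by linarith) (by linarith)
    have c_ := fun k => sqrt_pos_of (hz (κ k))
    have hsq : ∀ k, z (κ k) ^ 2 ≤ 1 := fun k => by nlinarith [(hz (κ k)).1, (hz (κ k)).2]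
    have hunit : ∀ k x, inner ℝ (pt (z (κ k)) x) (pt (z (κ k)) x) = (1 : ℝ) := fun k x =>
      inner_pt_self _ _ (hsq k)
    have hposs : ∀ a b z1 z2 t : ℝ, 0 < √(1 - z1 ^ 2) → 0 < √(1 - z2 ^ 2) → a < b → b < a + π →
        a ≤ t → t ≤ b →
        0 ≤ sin (b - t) / (√(1 - z1 ^ 2) * sin (b - a)) ∧
        0 ≤ sin (t - a) / (√(1 - z2 ^ 2) * sin (b - a)) ∧
        0 < sin (b - t) / (√(1 - z1 ^ 2) * sin (b - a)) + sin (t - a) / (√(1 - z2 ^ 2) * sin (b - a)) := by
      intro a b z1 z2 t c1 c2 hab hba h1 h2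
      have s0 : 0 < sin (b - a) := Real.sin_pos_of_pos_of_lt_pi (by linarith) (by linarith)
      have s1 : 0 ≤ sin (b - t) := Real.sin_nonneg_of_nonneg_of_le_pi (by linarith) (by linarith)
      have s2 : 0 ≤ sin (t - a) := Real.sin_nonneg_of_nonneg_of_le_pi (by linarith) (by linarith)
      refine ⟨by positivity, by positivity, ?_⟩
      rcases lt_or_eq_of_le h2 with h | h
      · have s3 : 0 < sin (b - t) := Real.sin_pos_of_pos_of_lt_pi (by linarith) (by linarith)
        positivity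
      · have s3 : 0 < sin (t - a) := by rw [h]; exact s0
        positivity
    obtain ⟨a1, a2, a3⟩ := hposs _ _ (z (κ i)) (z (κ (i + 1))) θ (c_ i) (c_ (i + 1)) lt_i pi_i h1 h2
    obtain ⟨b1, b2, b3⟩ := hposs _ _ (z (κ j)) (z (κ (j + 1))) (θ + 2 * π) (c_ j) (c_ (j + 1)) lt_j
      pi_j h3 h4
    have v1 := arc_eq (θ := θ) (c_ i) (c_ (i + 1)) s_i.ne'
    have v2 := arc_eq (θ := θ + 2 * π) (c_ j) (c_ (j + 1)) s_j.ne'
    rw [cos_add_two_pi, sin_add_two_pi] at v2
    have v4 : arcH (β η i) (β η (i + 1)) (z (κ i) / √(1 - z (κ i) ^ 2))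
        (z (κ (i + 1)) / √(1 - z (κ (i + 1)) ^ 2)) θ =
        arcH (β η j) (β η (j + 1)) (z (κ j) / √(1 - z (κ j) ^ 2))
        (z (κ (j + 1)) / √(1 - z (κ (j + 1)) ^ 2)) (θ + 2 * π) := h5
    rw [v4] at v1
    have v3 := v1.trans v2.symm
    have hcs : ∀ k l, -1 ≤ G η k l := by
      intro k l
      simp only [hGdef, gg_eq]
      have n1 : ∀ k x, ‖pt (z (κ k)) x‖ = 1 := by
        intro k x
        have h6 := real_inner_self_eq_norm_sq (pt (z (κ k)) x)
        rw [hunit] at h6
        nlinarith [norm_nonneg (pt (z (κ k)) x)]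
      have := abs_le.1 (abs_real_inner_le_norm (pt (z (κ k)) (β η k)) (pt (z (κ l)) (β η l)))
      rw [n1, n1, one_mul] at this
      exact this.1
    refine no_cross (m := M η) (hunit i _) (hunit (i + 1) _) (hunit j _) (hunit (j + 1) _) a1 a2 b1 b2
      a3 b3 v3 ?_ ?_ ?_ ?_ ?_ ?_ ?_
    · rw [← gg_eq]
      exact (le_max_left _ _).trans ((le_max_left _ _).trans (le_max_right _ _))
    · rw [← gg_eq]
      exact (le_max_right _ _).trans ((le_max_left _ _).trans (le_max_right _ _))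
    · rw [← gg_eq]
      exact (le_max_left _ _).trans ((le_max_right _ _).trans (le_max_right _ _))
    · rw [← gg_eq]
      exact (le_max_right _ _).trans ((le_max_right _ _).trans (le_max_right _ _))
    · rw [← gg_eq]; exact hcs i (i + 1)
    · rw [← gg_eq]; exact hcs j (j + 1)
    · rw [← gg_eq, ← gg_eq]; exact hη
  have hall : ∀ᶠ η in 𝓝[>] (0 : ℝ), ∀ (i : Fin r) (j : Fin (2 * r)), ¬ ∃ θ, β η i ≤ θ ∧
      θ ≤ β η (i + 1) ∧ β η j ≤ θ + 2 * π ∧ θ + 2 * π ≤ β η (j + 1) ∧
      arcH (β η i) (β η (i + 1)) (τ i) (τ (i + 1)) θ =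
      arcH (β η j) (β η (j + 1)) (τ j) (τ (j + 1)) (θ + 2 * π) := by
    rw [eventually_all]
    intro i
    rw [eventually_all]
    intro j
    exact key i j
  have hI : ∀ᶠ η in 𝓝[>] (0 : ℝ), η ∈ Ioo (0 : ℝ) 1 := Ioo_mem_nhdsGT (by norm_num)
  obtain ⟨η, hη1, hη2⟩ := (hall.and hI).exists
  obtain ⟨i, j, θ, hi, hj, h⟩ := hcross η hη2.1 hη2.2
  exact hη1 ⟨i, hi⟩ ⟨j, hj⟩ ⟨θ, h⟩

end

end Pool.Agent.Helper66.Kiss
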