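import Pool.Agent.Helper66.Kiss.LLEdge

set_option autoImplicit false

/-! # Local gain at a point: pairs -/

namespace Pool.Agent.Helper66.Kiss

open Real Set Filter Topology

lemma nr_ev {a b : ℝ} (ha : -1 < a ∧ a ≤ 1 / 2) (hb : -1 < b ∧ b ≤ 1 / 2) {l1 u1 l2 u2 : ℝ}
    (c1 : nr a b l1 l2 < 0) (c2 : nr a b l1 u2 < 0) (c3 : nr a b u1 l2 < 0)
    (c4 : nr a b u1 u2 < 0) :
    ∃ δ > 0, ∃ γ > 0, ∀ᶠ x in 𝓝 (a, b), ∀ p q, l1 - γ ≤ p ∧ p ≤ u1 + γ → l2 - γ ≤ q ∧ q ≤ u2 + γ →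
      nr x.1 x.2 p q < -δ := by
  set α : ℝ × ℝ → ℝ := fun x => (x.2 - x.1 / 2) / (1 - x.1 ^ 2) with hα
  set β : ℝ × ℝ → ℝ := fun x => (x.1 - x.2 / 2) / (1 - x.2 ^ 2) with hβ
  have hnr : ∀ x : ℝ × ℝ, ∀ p q, nr x.1 x.2 p q = α x * p + β x * q := by
    intro x p q
    simp only [hα, hβ, nr]
    ring
  have hzi : (1 : ℝ) - a ^ 2 ≠ 0 := by nlinarith
  have hzj : (1 : ℝ) - b ^ 2 ≠ 0 := by nlinarith
  have cα : ContinuousAt α (a, b) :=
    (by fun_prop : ContinuousAt (fun x : ℝ × ℝ => x.2 - x.1 / 2) (a, b)).div (by fun_prop) hzi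
  have cβ : ContinuousAt β (a, b) :=
    (by fun_prop : ContinuousAt (fun x : ℝ × ℝ => x.1 - x.2 / 2) (a, b)).div (by fun_prop) hzj
  have n1 := hnr (a, b)
  simp only at n1
  set m := max (max (nr a b l1 l2) (nr a b l1 u2)) (max (nr a b u1 l2) (nr a b u1 u2)) with hm
  have hm0 : m < 0 := by simp only [hm, max_lt_iff]; exact ⟨⟨c1, c2⟩, c3, c4⟩
  have k1 : nr a b l1 l2 ≤ m := (le_max_left _ _).trans (le_max_left _ _)
  have k2 : nr a b l1 u2 ≤ m := (le_max_right _ _).trans (le_max_left _ _)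
  have k3 : nr a b u1 l2 ≤ m := (le_max_left _ _).trans (le_max_right _ _)
  have k4 : nr a b u1 u2 ≤ m := (le_max_right _ _).trans (le_max_right _ _)
  obtain ⟨γ, hγ, hev⟩ := unif_affine (a0 := a) (b0 := b) (l1 := l1) (u1 := u1) (l2 := l2)
    (u2 := u2) (c := m / 2) cα cβ (by rw [← n1]; linarith) (by rw [← n1]; linarith)
    (by rw [← n1]; linarith) (by rw [← n1]; linarith)
  refine ⟨-(m / 2), by linarith, γ, hγ, ?_⟩
  filter_upwards [hev] with x hx p q hp hq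
  rw [hnr, neg_neg]
  exact hx p q hp hq

/-- along a segment with negative numerators the cosine increases -/
lemma seg_strictMono {x y a b t : ℝ}
    (hr : ∀ s ∈ Icc 0 t, (-1 < x + s * a ∧ x + s * a < 1) ∧ (-1 < y + s * b ∧ y + s * b < 1))
    (hn : ∀ s ∈ Icc 0 t, nr (x + s * a) (y + s * b) a b < 0) :
    StrictMonoOn (fun s => RR (x + s * a) (y + s * b)) (Icc 0 t) := by
  intro s1 h1 s2 h2 h12
  have hd : ∀ s ∈ Icc s1 s2, HasDerivAt (fun s => RR (x + s * a) (y + s * b))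
      (-(nr (x + s * a) (y + s * b) a b / (√(1 - (x + s * a) ^ 2) * √(1 - (y + s * b) ^ 2)))) s := by
    intro s hs
    have hs' : s ∈ Icc 0 t := ⟨h1.1.trans hs.1, hs.2.trans h2.2⟩
    exact RR_hasDerivAt (hr s hs').1 (hr s hs').2
  obtain ⟨s, hs, hs2⟩ := exists_hasDerivAt_eq_slope (fun s => RR (x + s * a) (y + s * b)) _ h12
    (fun s hs => (hd s hs).continuousAt.continuousWithinAt)
    (fun s hs => hd s ⟨hs.1.le, hs.2.le⟩)
  have hs' : s ∈ Icc 0 t := ⟨h1.1.trans hs.1.le, hs.2.le.trans h2.2⟩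
  have hpos := mul_pos (sqrt_pos_lt (hr s hs').1) (sqrt_pos_lt (hr s hs').2)
  have hsl : 0 < -(nr (x + s * a) (y + s * b) a b /
      (√(1 - (x + s * a) ^ 2) * √(1 - (y + s * b) ^ 2))) := by
    have := div_neg_of_neg_of_pos (hn s hs') hpos
    linarith
  rw [hs2] at hsl
  have h3 : 0 < s2 - s1 := by linarith
  have := mul_pos hsl h3
  rw [div_mul_cancel₀ _ h3.ne'] at this
  simp only at this ⊢
  linarith

lemma sq_lt_of_RR {z w : ℝ} (hz : -1 < z ∧ z < 1) (hw : -1 < w ∧ w < 1) (h1 : -1 < RR z w)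
    (h2 : RR z w < 1) : 0 < 3 / 4 - z ^ 2 - w ^ 2 + z * w := by
  have hA := sqrt_pos_lt hz
  have hB := sqrt_pos_lt hw
  have sA : √(1 - z ^ 2) ^ 2 = 1 - z ^ 2 := Real.sq_sqrt (by nlinarith [hz.1, hz.2])
  have sB : √(1 - w ^ 2) ^ 2 = 1 - w ^ 2 := Real.sq_sqrt (by nlinarith [hw.1, hw.2])
  have e : 1 - RR z w ^ 2 = (3 / 4 - z ^ 2 - w ^ 2 + z * w) / (√(1 - z ^ 2) * √(1 - w ^ 2)) ^ 2 := by
    unfold RR
    rw [eq_div_iff (by positivity), div_pow, sub_mul, div_mul_cancel₀ _ (by positivity), mul_pow, sA, sB]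
    ring
  have h3 : 0 < 1 - RR z w ^ 2 := by nlinarith
  rw [e] at h3
  have h4 : 0 < (√(1 - z ^ 2) * √(1 - w ^ 2)) ^ 2 := by positivity
  have := mul_pos h3 h4
  rwa [div_mul_cancel₀ _ h4.ne'] at this

/-- increment of the width along a segment with negative numerators -/
lemma seg_closing {x y a b t c : ℝ} (ht : 0 < t)
    (hr : ∀ s ∈ Icc 0 t, (-1 < x + s * a ∧ x + s * a < 1) ∧ (-1 < y + s * b ∧ y + s * b < 1))
    (hn : ∀ s ∈ Icc 0 t, nr (x + s * a) (y + s * b) a b < 0)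
    (h0 : -1 ≤ RR x y) (h1 : RR (x + t * a) (y + t * b) < 1)
    (hc : ∀ s ∈ Icc 0 t, 0 < rt (x + s * a) (y + s * b) → rate (x + s * a) (y + s * b) a b ≤ c) :
    wd (x + t * a) (y + t * b) ≤ wd x y + c * t := by
  have hmono := seg_strictMono hr hn
  have hx0 : RR (x + 0 * a) (y + 0 * b) = RR x y := by simp
  have hin : ∀ s ∈ Ioo 0 t, 0 < 3 / 4 - (x + s * a) ^ 2 - (y + s * b) ^ 2 + (x + s * a) * (y + s * b) := by
    intro s hs
    have hs' : s ∈ Icc 0 t := ⟨hs.1.le, hs.2.le⟩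
    have k1 := hmono ⟨le_rfl, ht.le⟩ hs' hs.1
    have k2 := hmono hs' ⟨ht.le, le_rfl⟩ hs.2
    simp only [hx0] at k1 k2
    exact sq_lt_of_RR (hr s hs').1 (hr s hs').2 (by linarith) (by linarith)
  have hcont : ContinuousOn (fun s => wd (x + s * a) (y + s * b)) (Icc 0 t) := by
    simp only [wd_eq_RR]
    refine Real.continuous_arccos.comp_continuousOn ?_
    intro s hs
    exact (RR_hasDerivAt (hr s hs).1 (hr s hs).2).continuousAt.continuousWithinAt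
  obtain ⟨s, hs, hs2⟩ := exists_hasDerivAt_eq_slope (fun s => wd (x + s * a) (y + s * b))
    (fun s => rate (x + s * a) (y + s * b) a b) ht hcont
    (fun s hs => wd_hasDerivAt (hr s ⟨hs.1.le, hs.2.le⟩).1 (hr s ⟨hs.1.le, hs.2.le⟩).2 (hin s hs))
  have h3 := hc s ⟨hs.1.le, hs.2.le⟩ (Real.sqrt_pos.2 (hin s hs))
  rw [hs2, sub_zero, div_le_iff₀ ht] at h3
  simp only [zero_mul, add_zero] at h3
  linarith

/-- large negative rates near degenerate pairs -/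
lemma rate_le_of {z w a b δ c : ℝ} (hδ : 0 < δ) (h1 : nr z w a b ≤ -δ) (h2 : 0 < rt z w)
    (h3 : rt z w ≤ δ / (|c| + 1)) : rate z w a b ≤ c := by
  unfold rate
  rw [div_le_iff₀ h2]
  have hc : 0 < |c| + 1 := by positivity
  rw [le_div_iff₀ hc] at h3
  have := neg_abs_le c
  nlinarith

/-! ## two-time bounds -/

variable {n : ℕ}

/-- admissible heights -/
def AdmN (y : Fin n → ℝ) : Prop := ∀ k, -1 ≤ y k ∧ y k ≤ 1 / 2

/-- the velocity of the `k`-th height near `z` lies between `lo` and `hi` at all times -/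
def Vel2 (z : Fin n → ℝ) (F : (Fin n → ℝ) → ℝ → Fin n → ℝ) (k : Fin n) (lo hi : ℝ) : Prop :=
  ∀ γ > 0, ∀ᶠ p : (Fin n → ℝ) × ℝ in 𝓝 (z, 0), AdmN p.1 → ∀ s, 0 ≤ s → s ≤ p.2 →
    (lo - γ) * (p.2 - s) ≤ F p.1 p.2 k - F p.1 s k ∧
      F p.1 p.2 k - F p.1 s k ≤ (hi + γ) * (p.2 - s)

lemma ev_all_le {z : Fin n → ℝ} {Q : (Fin n → ℝ) × ℝ → Prop} (h : ∀ᶠ p in 𝓝 (z, (0 : ℝ)), Q p) :
    ∀ᶠ p : (Fin n → ℝ) × ℝ in 𝓝 (z, (0 : ℝ)), ∀ s, 0 ≤ s → s ≤ p.2 → Q (p.1, s) := by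
  rw [nhds_prod_eq, Filter.eventually_prod_iff] at h
  obtain ⟨P, hP, R, hR, hPR⟩ := h
  obtain ⟨ε, hε, hεR⟩ := Metric.eventually_nhds_iff.1 hR
  have h1 : ∀ᶠ p : (Fin n → ℝ) × ℝ in 𝓝 (z, (0 : ℝ)), P p.1 := by
    rw [nhds_prod_eq]; exact hP.prod_inl _
  have h2 : ∀ᶠ p : (Fin n → ℝ) × ℝ in 𝓝 (z, (0 : ℝ)), p.2 < ε := by
    have hc : Continuous fun p : (Fin n → ℝ) × ℝ => p.2 := continuous_snd
    exact (hc.tendsto (z, (0 : ℝ))).eventually (gt_mem_nhds hε)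
  filter_upwards [h1, h2] with p hp1 hp2 s h0 hs
  refine hPR hp1 (hεR ?_)
  rw [Real.dist_eq, sub_zero, abs_of_nonneg h0]
  linarith

section

variable {z : Fin n → ℝ} {F : (Fin n → ℝ) → ℝ → Fin n → ℝ} {i j : Fin n} {l1 u1 l2 u2 c : ℝ}

/-- the data of the straight segment from `F y s` to `F y t` -/
lemma segment_data2 (hnear : Tendsto (fun p : (Fin n → ℝ) × ℝ => F p.1 p.2) (𝓝 (z, 0)) (𝓝 z))
    (hi : Vel2 z F i l1 u1) (hj : Vel2 z F j l2 u2) {γ : ℝ} (hγ : 0 < γ) {S : Set (ℝ × ℝ)}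
    (hS : S ∈ 𝓝 (z i, z j)) :
    ∀ᶠ p : (Fin n → ℝ) × ℝ in 𝓝 (z, 0), AdmN p.1 → ∀ s, 0 ≤ s → s < p.2 → ∃ a b : ℝ,
      F p.1 p.2 i = F p.1 s i + (p.2 - s) * a ∧ F p.1 p.2 j = F p.1 s j + (p.2 - s) * b ∧
      (l1 - γ ≤ a ∧ a ≤ u1 + γ) ∧ (l2 - γ ≤ b ∧ b ≤ u2 + γ) ∧
      ∀ τ ∈ Icc 0 (p.2 - s), (F p.1 s i + τ * a, F p.1 s j + τ * b) ∈ S := by
  obtain ⟨ε, hε, hεS⟩ := Metric.mem_nhds_iff.1 hS
  have hcomp : ∀ k, Tendsto (fun p : (Fin n → ℝ) × ℝ => F p.1 p.2 k) (𝓝 (z, 0)) (𝓝 (z k)) :=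
    fun k => ((continuous_apply k).tendsto _).comp hnear
  have hb : ∀ k, Ioo (z k - ε) (z k + ε) ∈ 𝓝 (z k) := fun k =>
    Ioo_mem_nhds (by linarith) (by linarith)
  filter_upwards [hi γ hγ, hj γ hγ, ev_all_le ((hcomp i).eventually (hb i)),
    ev_all_le ((hcomp j).eventually (hb j))] with p h1 h2 h3 h4 ha s hs0 hst
  have h0 : 0 < p.2 - s := by linarith
  obtain ⟨a1, a2⟩ := h1 ha s hs0 hst.le
  obtain ⟨b1, b2⟩ := h2 ha s hs0 hst.le
  have h3' := h3 p.2 (by linarith) le_rfl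
  have h4' := h4 p.2 (by linarith) le_rfl
  have h3s := h3 s hs0 hst.le
  have h4s := h4 s hs0 hst.le
  refine ⟨(F p.1 p.2 i - F p.1 s i) / (p.2 - s), (F p.1 p.2 j - F p.1 s j) / (p.2 - s), ?_, ?_,
    ⟨?_, ?_⟩, ⟨?_, ?_⟩, ?_⟩
  · field_simp; ring
  · field_simp; ring
  · rw [le_div_iff₀ h0]; exact a1
  · rw [div_le_iff₀ h0]; exact a2
  · rw [le_div_iff₀ h0]; exact b1
  · rw [div_le_iff₀ h0]; exact b2
  · intro τ hτ
    apply hεS
    have key : ∀ x x' w : ℝ, x ∈ Ioo (w - ε) (w + ε) → x' ∈ Ioo (w - ε) (w + ε) →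
        dist (x' + τ * ((x - x') / (p.2 - s))) w < ε := by
      intro x x' w hx hx'
      have e : x' + τ * ((x - x') / (p.2 - s)) =
          (1 - τ / (p.2 - s)) * x' + τ / (p.2 - s) * x := by
        field_simp; ring
      have s0 : 0 ≤ τ / (p.2 - s) := div_nonneg hτ.1 h0.le
      have s1 : τ / (p.2 - s) ≤ 1 := (div_le_one h0).2 hτ.2
      rw [e, Real.dist_eq, abs_lt]
      obtain ⟨c1, c2⟩ := hx
      obtain ⟨d1, d2⟩ := hx'
      rcases eq_or_lt_of_le s0 with h7 | h7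
      · rw [← h7]; constructor <;> linarith
      · have m1 := mul_le_mul_of_nonneg_left d1.le (by linarith : 0 ≤ 1 - τ / (p.2 - s))
        have m2 := mul_lt_mul_of_pos_left c1 h7
        have m3 := mul_le_mul_of_nonneg_left d2.le (by linarith : 0 ≤ 1 - τ / (p.2 - s))
        have m4 := mul_lt_mul_of_pos_left c2 h7
        constructor <;> nlinarith
    rw [Metric.mem_ball, Prod.dist_eq, max_lt_iff]
    exact ⟨key _ _ _ h3' h3s, key _ _ _ h4' h4s⟩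

/-- widths of pairs grow at most with speed `c`, as long as the pair is not degenerate -/
def Edge2 (z : Fin n → ℝ) (F : (Fin n → ℝ) → ℝ → Fin n → ℝ) (i j : Fin n) (c : ℝ) : Prop :=
  ∀ᶠ p : (Fin n → ℝ) × ℝ in 𝓝 (z, 0), AdmN p.1 → 0 ≤ p.2 → (∀ k, -1 < p.1 k) →
    -1 ≤ RR (p.1 i) (p.1 j) → RR (F p.1 p.2 i) (F p.1 p.2 j) < 1 →
    wd (F p.1 p.2 i) (F p.1 p.2 j) ≤ wd (p.1 i) (p.1 j) + c * p.2

/-- the cosine does not decrease in time -/
def Mono2 (z : Fin n → ℝ) (F : (Fin n → ℝ) → ℝ → Fin n → ℝ) (i j : Fin n) : Prop :=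
  ∀ᶠ p : (Fin n → ℝ) × ℝ in 𝓝 (z, 0), AdmN p.1 → (∀ k, -1 < p.1 k) → ∀ s, 0 ≤ s → s ≤ p.2 →
    RR (F p.1 s i) (F p.1 s j) ≤ RR (F p.1 p.2 i) (F p.1 p.2 j)

/-- regular pairs -/
theorem edge2_regular (hz : (-1 < z i ∧ z i ≤ 1 / 2) ∧ (-1 < z j ∧ z j ≤ 1 / 2))
    (hstart : ∀ y, F y 0 = y)
    (hnear : Tendsto (fun p : (Fin n → ℝ) × ℝ => F p.1 p.2) (𝓝 (z, 0)) (𝓝 z))
    (hi : Vel2 z F i l1 u1) (hj : Vel2 z F j l2 u2)
    (hreg : 0 < 3 / 4 - z i ^ 2 - z j ^ 2 + z i * z j)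
    (c1 : rate (z i) (z j) l1 l2 < c) (c2 : rate (z i) (z j) l1 u2 < c)
    (c3 : rate (z i) (z j) u1 l2 < c) (c4 : rate (z i) (z j) u1 u2 < c) : Edge2 z F i j c := by
  set α : ℝ × ℝ → ℝ := fun x => (x.2 - x.1 / 2) / (1 - x.1 ^ 2) / rt x.1 x.2 with hα
  set β : ℝ × ℝ → ℝ := fun x => (x.1 - x.2 / 2) / (1 - x.2 ^ 2) / rt x.1 x.2 with hβ
  have hrate : ∀ x : ℝ × ℝ, ∀ p q, rate x.1 x.2 p q = α x * p + β x * q := by
    intro x p q
    simp only [hα, hβ, rate, nr]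
    ring
  have hrt : 0 < rt (z i) (z j) := Real.sqrt_pos.2 hreg
  have hzi : (1 : ℝ) - z i ^ 2 ≠ 0 := by have := hz.1; nlinarith
  have hzj : (1 : ℝ) - z j ^ 2 ≠ 0 := by have := hz.2; nlinarith
  have crt : ContinuousAt (fun x : ℝ × ℝ => rt x.1 x.2) (z i, z j) := by
    unfold rt; fun_prop
  have cα : ContinuousAt α (z i, z j) :=
    ((by fun_prop : ContinuousAt (fun x : ℝ × ℝ => x.2 - x.1 / 2) (z i, z j)).div
      (by fun_prop) hzi).div crt hrt.ne'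
  have cβ : ContinuousAt β (z i, z j) :=
    ((by fun_prop : ContinuousAt (fun x : ℝ × ℝ => x.1 - x.2 / 2) (z i, z j)).div
      (by fun_prop) hzj).div crt hrt.ne'
  obtain ⟨γ, hγ, hev⟩ := unif_affine (a0 := z i) (b0 := z j) (l1 := l1) (u1 := u1) (l2 := l2)
    (u2 := u2) (c := c) cα cβ (by rw [← hrate]; exact c1) (by rw [← hrate]; exact c2)
    (by rw [← hrate]; exact c3) (by rw [← hrate]; exact c4)
  have hreg' : ∀ᶠ x in 𝓝 (z i, z j), 0 < 3 / 4 - x.1 ^ 2 - x.2 ^ 2 + x.1 * x.2 := by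
    have : ContinuousAt (fun x : ℝ × ℝ => 3 / 4 - x.1 ^ 2 - x.2 ^ 2 + x.1 * x.2) (z i, z j) := by
      fun_prop
    exact this.eventually (lt_mem_nhds hreg)
  have hr1 : ∀ᶠ x in 𝓝 (z i, z j), (-1 < x.1 ∧ x.1 < 1) ∧ (-1 < x.2 ∧ x.2 < 1) := by
    have c1 : ContinuousAt (fun x : ℝ × ℝ => x.1) (z i, z j) := by fun_prop
    have c2 : ContinuousAt (fun x : ℝ × ℝ => x.2) (z i, z j) := by fun_prop
    exact ((c1.eventually (lt_mem_nhds hz.1.1)).and (c1.eventually (gt_mem_nhds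
      (by linarith [hz.1.2] : z i < 1)))).and ((c2.eventually (lt_mem_nhds hz.2.1)).and
      (c2.eventually (gt_mem_nhds (by linarith [hz.2.2] : z j < 1))))
  unfold Edge2
  filter_upwards [segment_data2 hnear hi hj hγ ((hev.and hreg').and hr1)] with p hp ha h0 _ _ _
  rcases eq_or_lt_of_le h0 with h | h
  · rw [← h, hstart]; simp
  obtain ⟨a, b, e1, e2, hab, hbb, hseg⟩ := hp ha 0 le_rfl h
  rw [sub_zero] at e1 e2 hseg
  simp only [hstart] at e1 e2 hseg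
  have hd : ∀ s ∈ Icc 0 p.2, HasDerivAt (fun s => wd (p.1 i + s * a) (p.1 j + s * b))
      (rate (p.1 i + s * a) (p.1 j + s * b) a b) s := by
    intro s hs
    obtain ⟨⟨-, k2⟩, k3⟩ := hseg s hs
    exact wd_hasDerivAt k3.1 k3.2 k2
  obtain ⟨s, hs, hs2⟩ := exists_hasDerivAt_eq_slope (fun s => wd (p.1 i + s * a) (p.1 j + s * b))
    (fun s => rate (p.1 i + s * a) (p.1 j + s * b) a b) h
    (fun s hs => (hd s hs).continuousAt.continuousWithinAt)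
    (fun s hs => hd s ⟨hs.1.le, hs.2.le⟩)
  have hlt : rate (p.1 i + s * a) (p.1 j + s * b) a b < c := by
    obtain ⟨⟨k1, -⟩, -⟩ := hseg s ⟨hs.1.le, hs.2.le⟩
    have := k1 a b hab hbb
    rw [← hrate] at this
    exact this
  rw [hs2, sub_zero, div_lt_iff₀ h] at hlt
  rw [e1, e2]
  simp only [zero_mul, add_zero] at hlt
  linarith

/-- data for a pair with negative numerators; the pair may touch the south pole -/
def NegP (z : Fin n → ℝ) (F : (Fin n → ℝ) → ℝ → Fin n → ℝ) (i j : Fin n) : Prop :=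
  ∃ δ > 0, ∀ S ∈ 𝓝 (z i, z j),
    ∀ᶠ p : (Fin n → ℝ) × ℝ in 𝓝 (z, 0), AdmN p.1 → (∀ k, -1 < p.1 k) → ∀ s, 0 ≤ s → s < p.2 →
      ∃ a b : ℝ, F p.1 p.2 i = F p.1 s i + (p.2 - s) * a ∧ F p.1 p.2 j = F p.1 s j + (p.2 - s) * b ∧
      ∀ τ ∈ Icc 0 (p.2 - s), (F p.1 s i + τ * a, F p.1 s j + τ * b) ∈ S ∧
        ((-1 < F p.1 s i + τ * a ∧ F p.1 s i + τ * a < 1) ∧
          (-1 < F p.1 s j + τ * b ∧ F p.1 s j + τ * b < 1)) ∧
        nr (F p.1 s i + τ * a) (F p.1 s j + τ * b) a b ≤ -δ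

lemma NegP.mono2 (h : NegP z F i j) : Mono2 z F i j := by
  obtain ⟨δ, hδ, h⟩ := h
  unfold Mono2
  filter_upwards [h univ univ_mem] with p hp ha hy s hs0 hst
  rcases eq_or_lt_of_le hst with h | h
  · rw [h]
  obtain ⟨a, b, e1, e2, hseg⟩ := hp ha hy s hs0 h
  have h1 := seg_strictMono (x := F p.1 s i) (y := F p.1 s j) (a := a) (b := b) (t := p.2 - s)
    (fun τ hτ => (hseg τ hτ).2.1) (fun τ hτ => by linarith [(hseg τ hτ).2.2])
  have h2 := h1 (left_mem_Icc.2 (by linarith)) (right_mem_Icc.2 (by linarith : 0 ≤ p.2 - s))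
    (by linarith)
  simp only [zero_mul, add_zero] at h2
  rw [e1, e2]
  exact h2.le

lemma NegP.edge2 (h : NegP z F i j) (hstart : ∀ y, F y 0 = y)
    (hsing : 3 / 4 - z i ^ 2 - z j ^ 2 + z i * z j ≤ 0) (c : ℝ) : Edge2 z F i j c := by
  obtain ⟨δ, hδ, h⟩ := h
  have hrt : {x : ℝ × ℝ | rt x.1 x.2 < δ / (|c| + 1)} ∈ 𝓝 (z i, z j) := by
    have crt : ContinuousAt (fun x : ℝ × ℝ => rt x.1 x.2) (z i, z j) := by
      unfold rt; fun_prop
    have h0 : rt (z i) (z j) = 0 := Real.sqrt_eq_zero_of_nonpos hsing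
    exact crt.eventually (gt_mem_nhds (by simp only [h0]; positivity))
  unfold Edge2
  filter_upwards [h _ hrt] with p hp ha h0 hy hm hl
  rcases eq_or_lt_of_le h0 with h | h
  · rw [← h, hstart]; simp
  obtain ⟨a, b, e1, e2, hseg⟩ := hp ha hy 0 le_rfl h
  rw [sub_zero] at e1 e2 hseg
  simp only [hstart] at e1 e2 hseg
  rw [e1, e2] at hl ⊢
  refine seg_closing h (fun s hs => (hseg s hs).2.1) (fun s hs => by linarith [(hseg s hs).2.2])
    hm hl ?_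
  intro s hs hpos
  exact rate_le_of hδ (hseg s hs).2.2 hpos (le_of_lt (hseg s hs).1)

/-- pairs away from the poles with negative numerators at the corners -/
lemma negP_of_corners (hz : (-1 < z i ∧ z i ≤ 1 / 2) ∧ (-1 < z j ∧ z j ≤ 1 / 2))
    (hnear : Tendsto (fun p : (Fin n → ℝ) × ℝ => F p.1 p.2) (𝓝 (z, 0)) (𝓝 z))
    (hi : Vel2 z F i l1 u1) (hj : Vel2 z F j l2 u2)
    (c1 : nr (z i) (z j) l1 l2 < 0) (c2 : nr (z i) (z j) l1 u2 < 0)
    (c3 : nr (z i) (z j) u1 l2 < 0) (c4 : nr (z i) (z j) u1 u2 < 0) : NegP z F i j := by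
  obtain ⟨δ, hδ, γ, hγ, hev⟩ := nr_ev hz.1 hz.2 c1 c2 c3 c4
  have hr1 : ∀ᶠ x in 𝓝 (z i, z j), (-1 < x.1 ∧ x.1 < 1) ∧ (-1 < x.2 ∧ x.2 < 1) := by
    have c1 : ContinuousAt (fun x : ℝ × ℝ => x.1) (z i, z j) := by fun_prop
    have c2 : ContinuousAt (fun x : ℝ × ℝ => x.2) (z i, z j) := by fun_prop
    exact ((c1.eventually (lt_mem_nhds hz.1.1)).and (c1.eventually (gt_mem_nhds
      (by linarith [hz.1.2] : z i < 1)))).and ((c2.eventually (lt_mem_nhds hz.2.1)).and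
      (c2.eventually (gt_mem_nhds (by linarith [hz.2.2] : z j < 1))))
  refine ⟨δ, hδ, fun S hS => ?_⟩
  filter_upwards [segment_data2 hnear hi hj hγ ((hev.and hr1).and hS)] with p hp ha _ s hs0 hst
  obtain ⟨a, b, e1, e2, hab, hbb, hseg⟩ := hp ha s hs0 hst
  refine ⟨a, b, e1, e2, fun τ hτ => ?_⟩
  obtain ⟨⟨k1, k2⟩, k3⟩ := hseg τ hτ
  exact ⟨k3, k2, (k1 a b hab hbb).le⟩

/-- pairs with the first point static near the south pole -/
lemma negP_pole (hzi : z i = -1) (hzj : z j = -(1 / 2)) 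
    (hnear : Tendsto (fun p : (Fin n → ℝ) × ℝ => F p.1 p.2) (𝓝 (z, 0)) (𝓝 z))
    (hi : ∀ᶠ p : (Fin n → ℝ) × ℝ in 𝓝 (z, 0), AdmN p.1 → 0 ≤ p.2 → F p.1 p.2 i = p.1 i)
    (hj : Vel2 z F j l2 u2) (hl : 0 < l2) : NegP z F i j := by
  set g : ℝ × ℝ → ℝ := fun x => (x.1 - x.2 / 2) / (1 - x.2 ^ 2) with hg
  have cg : ContinuousAt g (z i, z j) := by
    refine (by fun_prop : ContinuousAt (fun x : ℝ × ℝ => x.1 - x.2 / 2) (z i, z j)).div
      (by fun_prop) ?_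
    simp only [hzj]; norm_num
  have hg0 : g (z i, z j) = -1 := by simp only [hg, hzi, hzj]; norm_num
  have hev : ∀ᶠ x in 𝓝 (z i, z j), g x < -(1 / 2) :=
    cg.eventually (gt_mem_nhds (by rw [hg0]; norm_num))
  have hr1 : ∀ᶠ x in 𝓝 (z i, z j), (x.1 < 1) ∧ (-1 < x.2 ∧ x.2 < 1) := by
    have c1 : ContinuousAt (fun x : ℝ × ℝ => x.1) (z i, z j) := by fun_prop
    have c2 : ContinuousAt (fun x : ℝ × ℝ => x.2) (z i, z j) := by fun_prop
    exact (c1.eventually (gt_mem_nhds (by rw [hzi]; norm_num : z i < 1))).and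
      ((c2.eventually (lt_mem_nhds (by rw [hzj]; norm_num : -1 < z j))).and
      (c2.eventually (gt_mem_nhds (by rw [hzj]; norm_num : z j < 1))))
  have hi' : Vel2 z F i 0 0 := by
    intro γ hγ
    filter_upwards [ev_all_le hi] with p hp ha s hs0 hst
    rw [hp p.2 (hs0.trans hst) le_rfl ha (hs0.trans hst), hp s hs0 hst ha hs0, sub_self]
    constructor
    · nlinarith
    · nlinarith
  refine ⟨l2 / 4, by linarith, fun S hS => ?_⟩
  filter_upwards [segment_data2 hnear hi' hj (γ := l2 / 2) (by linarith) ((hev.and hr1).and hS),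
    ev_all_le hi] with p hp hi ha hy s hs0 hst
  obtain ⟨a, b, e1, e2, hab, hbb, hseg⟩ := hp ha s hs0 hst
  have k1 := hi s hs0 hst.le ha hs0
  have k2 := hi p.2 (hs0.trans hst.le) le_rfl ha (hs0.trans hst.le)
  have ha0 : a = 0 := by
    rw [k1, k2] at e1
    have : (p.2 - s) * a = 0 := by linarith
    rcases mul_eq_zero.1 this with h | h
    · linarith
    · exact h
  refine ⟨a, b, e1, e2, fun τ hτ => ?_⟩
  obtain ⟨⟨m1, m2⟩, m3⟩ := hseg τ hτ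
  refine ⟨m3, ⟨⟨?_, m2.1⟩, m2.2⟩, ?_⟩
  · rw [ha0, mul_zero, add_zero, k1]; exact hy i
  · have : nr (F p.1 s i + τ * a) (F p.1 s j + τ * b) a b =
        g (F p.1 s i + τ * a, F p.1 s j + τ * b) * b := by
      rw [ha0]; unfold nr; simp only [hg]; ring
    rw [this]
    have hb : l2 / 2 ≤ b := by linarith [hbb.1]
    nlinarith

lemma NegP.symm (h : NegP z F i j) : NegP z F j i := by
  obtain ⟨δ, hδ, h⟩ := h
  refine ⟨δ, hδ, fun S hS => ?_⟩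
  have hS' : {x : ℝ × ℝ | (x.2, x.1) ∈ S} ∈ 𝓝 (z i, z j) := by
    have : ContinuousAt (fun x : ℝ × ℝ => (x.2, x.1)) (z i, z j) := by fun_prop
    exact this hS
  filter_upwards [h _ hS'] with p hp ha hy s hs0 hst
  obtain ⟨a, b, e1, e2, hseg⟩ := hp ha hy s hs0 hst
  refine ⟨b, a, e2, e1, fun τ hτ => ?_⟩
  obtain ⟨m1, m2, m3⟩ := hseg τ hτ
  exact ⟨m1, ⟨m2.2, m2.1⟩, by rw [nr_comm]; exact m3⟩

end

end Pool.Agent.Helper66.Kiss
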