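import Pool.Agent.Helper66.Kiss.Stage
import Pool.Agent.Helper66.Kiss.PGa

set_option autoImplicit false

/-! # Local gain at a point -/

namespace Pool.Agent.Helper66.Kiss

open Real Set Filter Topology

variable {n : ℕ}

/-- data of a law near `z` -/
structure Law2 (z : Fin n → ℝ) (F : (Fin n → ℝ) → ℝ → Fin n → ℝ) (lo hi : Fin n → ℝ) : Prop where
  start : ∀ y, F y 0 = y
  cont : ∀ y k, Continuous fun t => F y t k
  near : Tendsto (fun p : (Fin n → ℝ) × ℝ => F p.1 p.2) (𝓝 (z, 0)) (𝓝 z)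
  wall : ∀ᶠ p : (Fin n → ℝ) × ℝ in 𝓝 (z, 0), AdmN p.1 → 0 ≤ p.2 → ∀ k, F p.1 p.2 k ≤ 1 / 2
  vel : ∀ k, Vel2 z F k (lo k) (hi k)

/-- the height does not move -/
def Stat (z : Fin n → ℝ) (F : (Fin n → ℝ) → ℝ → Fin n → ℝ) (k : Fin n) : Prop :=
  ∀ᶠ p : (Fin n → ℝ) × ℝ in 𝓝 (z, 0), AdmN p.1 → 0 ≤ p.2 → F p.1 p.2 k = p.1 k

/-- the numerators of the rates at the four corners are negative -/
def Clo (z lo hi : Fin n → ℝ) (i j : Fin n) : Prop :=
  nr (z i) (z j) (lo i) (lo j) < 0 ∧ nr (z i) (z j) (lo i) (hi j) < 0 ∧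
    nr (z i) (z j) (hi i) (lo j) < 0 ∧ nr (z i) (z j) (hi i) (hi j) < 0

/-- the rates at the four corners are at most `c` -/
def RtB (z lo hi : Fin n → ℝ) (i j : Fin n) (c : ℝ) : Prop :=
  rate (z i) (z j) (lo i) (lo j) ≤ c ∧ rate (z i) (z j) (lo i) (hi j) ≤ c ∧
    rate (z i) (z j) (hi i) (lo j) ≤ c ∧ rate (z i) (z j) (hi i) (hi j) ≤ c

/-- bound for the speed of the width of a pair -/
def EB (z lo hi : Fin n → ℝ) (i j : Fin n) (c : ℝ) : Prop :=
  (RR (z i) (z j) ^ 2 < 1 → RtB z lo hi i j c) ∧ (1 ≤ RR (z i) (z j) ^ 2 → Clo z lo hi i j)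

/-- the width of the pair does not increase in time -/
def MonoQ (z : Fin n → ℝ) (F : (Fin n → ℝ) → ℝ → Fin n → ℝ) (i j : Fin n) : Prop :=
  ∀ᶠ p : (Fin n → ℝ) × ℝ in 𝓝 (z, 0), AdmN p.1 → ∀ s, 0 ≤ s → s ≤ p.2 →
    (RR (F p.1 s i) (F p.1 s j) ≤ RR (F p.1 p.2 i) (F p.1 p.2 j) ∨
      1 ≤ RR (F p.1 p.2 i) (F p.1 p.2 j))

lemma MonoQ.symm {z : Fin n → ℝ} {F : (Fin n → ℝ) → ℝ → Fin n → ℝ} {i j : Fin n}
    (h : MonoQ z F i j) : MonoQ z F j i := by
  unfold MonoQ at h ⊢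
  filter_upwards [h] with p hp ha s h0 hs
  rw [RR_comm, RR_comm (F p.1 p.2 j)]
  exact hp ha s h0 hs

lemma monoQ_stat {z : Fin n → ℝ} {F : (Fin n → ℝ) → ℝ → Fin n → ℝ} {i j : Fin n}
    (h1 : Stat z F i) (h2 : Stat z F j) : MonoQ z F i j := by
  unfold MonoQ
  filter_upwards [ev_all_le h1, ev_all_le h2] with p p1 p2 ha t h0 ht
  rw [p1 t h0 ht ha h0, p2 t h0 ht ha h0, p1 p.2 (h0.trans ht) le_rfl ha (h0.trans ht),
    p2 p.2 (h0.trans ht) le_rfl ha (h0.trans ht)]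
  exact Or.inl le_rfl

/-- bound for the speed of the width of a pair; pairs which only close are allowed -/
def EBs (z : Fin n → ℝ) (F : (Fin n → ℝ) → ℝ → Fin n → ℝ) (lo hi : Fin n → ℝ) (i j : Fin n)
    (c : ℝ) : Prop := EB z lo hi i j c ∨ (MonoQ z F i j ∧ 0 ≤ c)

lemma Clo.symm {z lo hi : Fin n → ℝ} {i j : Fin n} (h : Clo z lo hi i j) : Clo z lo hi j i := by
  obtain ⟨h1, h2, h3, h4⟩ := h
  exact ⟨by rwa [nr_comm], by rwa [nr_comm], by rwa [nr_comm], by rwa [nr_comm]⟩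

lemma RR_tendsto {X : Type*} {l : Filter X} {f g : X → ℝ} {a b : ℝ} (hf : Tendsto f l (𝓝 a))
    (hg : Tendsto g l (𝓝 b)) (ha : -1 < a ∧ a ≤ 1 / 2) (hb : -1 < b ∧ b ≤ 1 / 2) :
    Tendsto (fun t => RR (f t) (g t)) l (𝓝 (RR a b)) := by
  unfold RR
  refine Tendsto.div ?_ ?_ ?_
  · exact tendsto_const_nhds.sub (hf.mul hg)
  · exact ((Real.continuous_sqrt.tendsto _).comp (tendsto_const_nhds.sub (hf.pow 2))).mul
      ((Real.continuous_sqrt.tendsto _).comp (tendsto_const_nhds.sub (hg.pow 2)))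
  · exact (mul_pos (sqrt_pos_of ha) (sqrt_pos_of hb)).ne'

/-- edges which can matter near `z`; `S` is the set of the points at the south pole -/
def Eok (z : Fin n → ℝ) (S : Fin n → Prop) (i j : Fin n) : Prop :=
  (S i ∧ z j = -(1 / 2)) ∨ (S j ∧ z i = -(1 / 2)) ∨ (¬ S i ∧ ¬ S j ∧ RR (z i) (z j) ≤ 1)

open Classical in
/-- the width of a walk without the edges at the south pole -/
noncomputable def twS (S : Fin n → Prop) (z : Fin n → ℝ) (κ : ℕ → Fin n) (r : ℕ) : ℝ :=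
  ∑ k ∈ Finset.range r, if S (κ k) ∨ S (κ (k + 1)) then 0 else wd (z (κ k)) (z (κ (k + 1)))

/-- a point touching the pole is moving up -/
def Mov (lo : Fin n → ℝ) (S : Fin n → Prop) (κ : ℕ → Fin n) (r : ℕ) : Prop :=
  ∃ k < r, (S (κ k) ∧ 0 < lo (κ (k + 1))) ∨ (S (κ (k + 1)) ∧ 0 < lo (κ k))

open Classical in
/-- the sum of the constants of the edges away from the pole -/
noncomputable def sumS (S : Fin n → Prop) (c : ℕ → ℝ) (κ : ℕ → Fin n) (r : ℕ) : ℝ :=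
  ∑ k ∈ Finset.range r, if S (κ k) ∨ S (κ (k + 1)) then 0 else c k

/-- walk totals of a feasible sorted state -/
lemma walk_of_srt (hn : 0 < n) {y η : Fin n → ℝ} (hr : ∀ k, -1 < y k ∧ y k ≤ 1 / 2)
    (hF : ∀ i j, i ≠ j → gg (y i) (y j) (η i) (η j) ≤ 1 / 2) (hm : Monotone η)
    (hs : ∀ k, 0 ≤ η k ∧ η k ≤ 2 * π) {v : ℕ → ℕ} {r : ℕ} (hv : IsWalk n v r)
    (he : v r = v 0 + n) : twn y (fun k => clN n hn (v k)) r ≤ 2 * π := by
  have hord : ∀ i j, i < j → wd (y i) (y j) ≤ η j - η i ∧ η j - η i ≤ 2 * π - wd (y i) (y j) := by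
    intro i j hij
    have := hm hij.le
    exact wd_le_of_gg (hr i) (hr j) (hF i j hij.ne) (by linarith)
      (by linarith [(hs i).1, (hs j).2])
  have := lft_tel (n := n) hn (ω := fun i j => wd (y i) (y j))
    (fun i j => wd_comm _ _) hord r hv
  have e2 := lft_add_mul (n := n) hn η (v 0) 1
  rw [mul_one] at e2
  rw [he, e2] at this
  push_cast at this
  unfold twn
  unfold total at this
  linarith

section

variable {P : (Fin n → ℝ) → (Fin n → ℝ) → Fin 12 → E3} {A : Set (Fin n → ℝ)}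
  {z : Fin n → ℝ} {F : (Fin n → ℝ) → ℝ → Fin n → ℝ} {lo hi : Fin n → ℝ} {S : Fin n → Prop}

/-- hypotheses at a point; walks through the pole which are slack need no condition -/
structure PHs (hn : 0 < n) (z : Fin n → ℝ) (F : (Fin n → ℝ) → ℝ → Fin n → ℝ) (lo hi : Fin n → ℝ)
    (S : Fin n → Prop) (Slk : (ℕ → Fin n) → ℕ → Prop) : Prop where
  law : Law2 z F lo hi
  S1 : ∀ i j, S i → S j → i = j
  Sz : ∀ s, S s → z s = -1
  Sst : ∀ s, S s → Stat z F s
  reg : ∀ k, ¬ S k → -1 < z k ∧ z k ≤ 1 / 2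
  Sl : ∀ s k, S s → ¬ S k → -(1 / 2) ≤ z k ∧ (z k = -(1 / 2) → 0 < lo k ∨ Stat z F k)
  fe : ∀ i j, i ≠ j → ¬ S i → ¬ S j → -1 ≤ RR (z i) (z j)
  walk : ∀ (v : ℕ → ℕ) (r : ℕ), r ≤ n → IsWalk n v r → v r = v 0 + n →
    (∀ k < r, Eok z S (clN n hn (v k)) (clN n hn (v (k + 1)))) →
    ((∀ k < r, ¬ S (clN n hn (v k))) → 2 * π ≤ twn z (fun k => clN n hn (v k)) r) →
    ((∃ k < r, S (clN n hn (v k))) → twS S z (fun k => clN n hn (v k)) r ≤ 2 * π ∧
      ¬ Slk (fun k => clN n hn (v k)) r) →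
    (∀ k ≤ r, Stat z F (clN n hn (v k))) ∨ ∃ c : ℕ → ℝ,
      (∀ k < r, ¬ S (clN n hn (v k)) → ¬ S (clN n hn (v (k + 1))) →
        EBs z F lo hi (clN n hn (v k)) (clN n hn (v (k + 1))) (c k)) ∧
      (Mov lo S (fun k => clN n hn (v k)) r ∨ sumS S c (fun k => clN n hn (v k)) r < 0)

/-- hypotheses at a point -/
abbrev PH (hn : 0 < n) (z : Fin n → ℝ) (F : (Fin n → ℝ) → ℝ → Fin n → ℝ) (lo hi : Fin n → ℝ)
    (S : Fin n → Prop) : Prop := PHs hn z F lo hi S fun _ _ => False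

variable {hn : 0 < n} {Slk : (ℕ → Fin n) → ℕ → Prop}

lemma PHs.comp (H : PHs hn z F lo hi S Slk) (k : Fin n) :
    Tendsto (fun p : (Fin n → ℝ) × ℝ => F p.1 p.2 k) (𝓝 (z, 0)) (𝓝 (z k)) :=
  ((continuous_apply k).tendsto _).comp H.law.near

lemma fst_comp (k : Fin n) :
    Tendsto (fun p : (Fin n → ℝ) × ℝ => p.1 k) (𝓝 (z, 0)) (𝓝 (z k)) :=
  ((continuous_apply k).comp continuous_fst).tendsto' _ _ rfl

/-- all heights stay in the range -/
lemma PHs.range (H : PHs hn z F lo hi S Slk) : ∀ᶠ p : (Fin n → ℝ) × ℝ in 𝓝 (z, 0), AdmN p.1 →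
    (∀ k, -1 < p.1 k) → 0 ≤ p.2 → ∀ k, -1 < F p.1 p.2 k ∧ F p.1 p.2 k ≤ 1 / 2 := by
  have h1 : ∀ᶠ p : (Fin n → ℝ) × ℝ in 𝓝 (z, 0), ∀ k, AdmN p.1 → (∀ k, -1 < p.1 k) → 0 ≤ p.2 →
      -1 < F p.1 p.2 k := by
    rw [eventually_all]; intro k
    by_cases hk : S k
    · filter_upwards [H.Sst k hk] with p hp ha hy h0
      rw [hp ha h0]; exact hy k
    · filter_upwards [(H.comp k).eventually (lt_mem_nhds (H.reg k hk).1)] with p hp _ _ _ using hp
  filter_upwards [h1, H.law.wall] with p hp hw ha hy h0 k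
  exact ⟨hp k ha hy h0, hw ha h0 k⟩

/-- free pairs at the south pole -/
lemma PHs.free_pole (H : PHs hn z F lo hi S Slk) {s k : Fin n} (hs : S s) (hk : ¬ S k)
    (hzk : z k ≠ -(1 / 2)) : ∀ᶠ p : (Fin n → ℝ) × ℝ in 𝓝 (z, 0), AdmN p.1 →
    (∀ k, -1 < p.1 k) → 0 ≤ p.2 → 1 ≤ RR (F p.1 p.2 s) (F p.1 p.2 k) := by
  have h1 := ((continuous_apply s).tendsto z).comp H.law.near
  have hc : Continuous fun x : Fin n → ℝ => √(1 - x s ^ 2) * √(1 - x k ^ 2) + x s * x k := by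
    fun_prop
  have h2 := (hc.tendsto z).comp H.law.near
  have hlt : √(1 - z s ^ 2) * √(1 - z k ^ 2) + z s * z k < 1 / 2 := by
    rw [H.Sz s hs]
    have := (H.Sl s k hs hk).1
    have : -(1 / 2) < z k := lt_of_le_of_ne this (Ne.symm hzk)
    norm_num
    linarith
  filter_upwards [H.range, h2.eventually (gt_mem_nhds hlt)] with p hp hl ha hy h0
  have hr := hp ha hy h0
  rw [RR_one_le (hr s) (hr k)]
  exact hl.le

lemma PHs.negP_touch (H : PHs hn z F lo hi S Slk) {s k : Fin n} (hs : S s) (hk : z k = -(1 / 2))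
    (hlo : 0 < lo k) : NegP z F s k :=
  negP_pole (H.Sz s hs) hk H.law.near (H.Sst s hs) (H.law.vel k) hlo

/-- pairs at the pole never lose cosine -/
lemma PHs.mono_touch (H : PHs hn z F lo hi S Slk) {s k : Fin n} (hs : S s) (hk : z k = -(1 / 2)) :
    Mono2 z F s k := by
  have hk' : ¬ S k := by intro h; have := H.Sz k h; rw [hk] at this; norm_num at this
  rcases (H.Sl s k hs hk').2 hk with h | h
  · exact (H.negP_touch hs hk h).mono2
  · unfold Mono2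
    filter_upwards [ev_all_le h, ev_all_le (H.Sst s hs)] with p p1 p2 ha _ t h0 ht
    rw [p1 t h0 ht ha h0, p2 t h0 ht ha h0, p1 p.2 (h0.trans ht) le_rfl ha (h0.trans ht),
      p2 p.2 (h0.trans ht) le_rfl ha (h0.trans ht)]

lemma Mono2.symm' {i j : Fin n} (h : Mono2 z F i j) : Mono2 z F j i := by
  unfold Mono2 at h ⊢
  filter_upwards [h] with p hp ha hy s h0 hs
  rw [RR_comm, RR_comm (F p.1 p.2 j)]
  exact hp ha hy s h0 hs

lemma PHs.negP_clo (H : PHs hn z F lo hi S Slk) {i j : Fin n} (hi' : ¬ S i) (hj : ¬ S j)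
    (h : Clo z lo hi i j) : NegP z F i j :=
  negP_of_corners ⟨H.reg i hi', H.reg j hj⟩ H.law.near (H.law.vel i) (H.law.vel j)
    h.1 h.2.1 h.2.2.1 h.2.2.2

/-- the kept pairs -/
def KP (z lo hi : Fin n → ℝ) (S : Fin n → Prop) (i j : Fin n) : Prop :=
  ¬ S i ∧ ¬ S j ∧ RR (z i) (z j) = 1 ∧ ¬ Clo z lo hi i j

lemma PHs.RR_lim (H : PHs hn z F lo hi S Slk) {i j : Fin n} (hi' : ¬ S i) (hj : ¬ S j) :
    Tendsto (fun p : (Fin n → ℝ) × ℝ => RR (F p.1 p.2 i) (F p.1 p.2 j)) (𝓝 (z, 0))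
      (𝓝 (RR (z i) (z j))) :=
  RR_tendsto (H.comp i) (H.comp j) (H.reg i hi') (H.reg j hj)

/-- free pairs stay free -/
lemma PHs.persist (H : PHs hn z F lo hi S Slk) {i j : Fin n} (hij : i ≠ j) (hK : ¬ KP z lo hi S i j) :
    ∀ᶠ p : (Fin n → ℝ) × ℝ in 𝓝 (z, 0), AdmN p.1 → (∀ k, -1 < p.1 k) → ∀ s, 0 ≤ s → s ≤ p.2 →
      1 ≤ RR (F p.1 s i) (F p.1 s j) → 1 ≤ RR (F p.1 p.2 i) (F p.1 p.2 j) := by
  by_cases hi' : S i
  · have hj : ¬ S j := fun h => hij (H.S1 i j hi' h)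
    by_cases ht : z j = -(1 / 2)
    · filter_upwards [H.mono_touch hi' ht] with p hp ha hy s h0 hs h1
      exact h1.trans (hp ha hy s h0 hs)
    · filter_upwards [H.free_pole hi' hj ht] with p hp ha hy s h0 hs _
      exact hp ha hy (h0.trans hs)
  by_cases hj : S j
  · by_cases ht : z i = -(1 / 2)
    · filter_upwards [(H.mono_touch hj ht).symm'] with p hp ha hy s h0 hs h1
      exact h1.trans (hp ha hy s h0 hs)
    · filter_upwards [H.free_pole hj hi' ht] with p hp ha hy s h0 hs _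
      rw [RR_comm]
      exact hp ha hy (h0.trans hs)
  rcases lt_trichotomy (RR (z i) (z j)) 1 with h | h | h
  · filter_upwards [ev_all_le ((H.RR_lim hi' hj).eventually (gt_mem_nhds h))] with p hp _ _ s h0 hs h1
    exact absurd h1 (not_le.2 (hp s h0 hs))
  · have hC : Clo z lo hi i j := by
      by_contra hcon
      exact hK ⟨hi', hj, h, hcon⟩
    filter_upwards [(H.negP_clo hi' hj hC).mono2] with p hp ha hy s h0 hs h1
    exact h1.trans (hp ha hy s h0 hs)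
  · filter_upwards [(H.RR_lim hi' hj).eventually (lt_mem_nhds h)] with p hp _ _ s h0 hs _
    exact hp.le

/-- two-step walks -/
lemma two_walk {i j : Fin n} (hij : i < j) :
    ∃ v : ℕ → ℕ, IsWalk n v 2 ∧ v 2 = v 0 + n ∧ clN n hn (v 0) = i ∧ clN n hn (v 1) = j ∧
      clN n hn (v 2) = i := by
  refine ⟨fun k => if k = 0 then i.val else if k = 1 then j.val else i.val + n, ?_, ?_, ?_, ?_, ?_⟩
  · intro k hk
    have h1 : i.val < j.val := hij
    have h2 := j.isLt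
    interval_cases k
    · simp; omega
    · simp; omega
  · simp
  · simp only [if_true]; unfold clN; ext; simp [Nat.mod_eq_of_lt i.isLt]
  · simp only [one_ne_zero, if_false, if_true]; unfold clN; ext; simp [Nat.mod_eq_of_lt j.isLt]
  · simp only [OfNat.ofNat_ne_zero, OfNat.ofNat_ne_one, if_false, clN_add]
    unfold clN; ext; simp [Nat.mod_eq_of_lt i.isLt]

/-- no pair of heights becomes infeasible -/
lemma PHs.pole (H : PHs hn z F lo hi S Slk) (hn2 : 2 ≤ n) {i j : Fin n} (hij : i ≠ j) :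
    ∀ᶠ p : (Fin n → ℝ) × ℝ in 𝓝 (z, 0), AdmN p.1 → (∀ k, -1 < p.1 k) →
      (∀ i j, i ≠ j → -1 ≤ RR (p.1 i) (p.1 j)) → 0 ≤ p.2 →
      -1 ≤ RR (F p.1 p.2 i) (F p.1 p.2 j) := by
  have hneg : ∀ i j, i ≠ j → Mono2 z F i j → ∀ᶠ p : (Fin n → ℝ) × ℝ in 𝓝 (z, 0), AdmN p.1 →
      (∀ k, -1 < p.1 k) → (∀ i j, i ≠ j → -1 ≤ RR (p.1 i) (p.1 j)) → 0 ≤ p.2 →
      -1 ≤ RR (F p.1 p.2 i) (F p.1 p.2 j) := by
    intro i j hij hm
    filter_upwards [hm] with p hp ha hy hq h0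
    have h1 := hp ha hy 0 le_rfl h0
    rw [H.law.start] at h1
    exact (hq i j hij).trans h1
  have hnegQ : ∀ i j, i ≠ j → MonoQ z F i j → ∀ᶠ p : (Fin n → ℝ) × ℝ in 𝓝 (z, 0), AdmN p.1 →
      (∀ k, -1 < p.1 k) → (∀ i j, i ≠ j → -1 ≤ RR (p.1 i) (p.1 j)) → 0 ≤ p.2 →
      -1 ≤ RR (F p.1 p.2 i) (F p.1 p.2 j) := by
    intro i j hij hm
    unfold MonoQ at hm
    filter_upwards [hm] with p hp ha hy hq h0
    rcases hp ha 0 le_rfl h0 with h1 | h1
    · rw [H.law.start] at h1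
      exact (hq i j hij).trans h1
    · linarith
  by_cases hi' : S i
  · have hj : ¬ S j := fun h => hij (H.S1 i j hi' h)
    by_cases ht : z j = -(1 / 2)
    · exact hneg i j hij (H.mono_touch hi' ht)
    · filter_upwards [H.free_pole hi' hj ht] with p hp ha hy _ h0
      linarith [hp ha hy h0]
  by_cases hj : S j
  · by_cases ht : z i = -(1 / 2)
    · exact hneg i j hij (H.mono_touch hj ht).symm'
    · filter_upwards [H.free_pole hj hi' ht] with p hp ha hy _ h0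
      rw [RR_comm]
      linarith [hp ha hy h0]
  rcases eq_or_lt_of_le (H.fe i j hij hi' hj) with h | h
  swap
  · filter_upwards [(H.RR_lim hi' hj).eventually (lt_mem_nhds h)] with p hp _ _ _ _
    exact hp.le
  -- the walk `i j i`
  have key : ∀ i j, i < j → ¬ S i → ¬ S j → -1 = RR (z i) (z j) →
      MonoQ z F i j ∨ Clo z lo hi i j := by
    intro i j hlt hi' hj h
    obtain ⟨v, hv, he, k0, k1, k2⟩ := two_walk (hn := hn) hlt
    have hw : wd (z i) (z j) = π := by rw [wd_eq_RR, ← h, Real.arccos_neg_one]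
    have h2 := H.walk v 2 hn2 hv he (by
      intro k hk
      interval_cases k
      · rw [k0, k1]; exact Or.inr (Or.inr ⟨hi', hj, by rw [← h]; norm_num⟩)
      · rw [k1, k2]; exact Or.inr (Or.inr ⟨hj, hi', by rw [RR_comm, ← h]; norm_num⟩)) (by
      intro _
      unfold twn
      rw [Finset.sum_range_succ, Finset.sum_range_one]
      simp only [zero_add, one_add_one_eq_two, k0, k1, k2]
      rw [wd_comm (z j), hw]
      linarith) (by
      rintro ⟨k, hk, hS⟩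
      interval_cases k
      · rw [k0] at hS; exact absurd hS hi'
      · rw [k1] at hS; exact absurd hS hj)
    rcases h2 with h2 | ⟨c, hc, -⟩
    · left
      exact monoQ_stat (by have := h2 0 (by norm_num); rwa [k0] at this)
        (by have := h2 1 (by norm_num); rwa [k1] at this)
    · have := hc 0 (by norm_num) (by rw [k0]; exact hi') (by rw [k1]; exact hj)
      rw [k0, k1] at this
      rcases this with this | this
      · exact Or.inr (this.2 (by rw [← h]; norm_num))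
      · exact Or.inl this.1
  have key2 : MonoQ z F i j ∨ Clo z lo hi i j := by
    rcases lt_or_gt_of_ne hij with h5 | h5
    · exact key i j h5 hi' hj h
    · rcases key j i h5 hj hi' (by rw [RR_comm]; exact h) with h6 | h6
      · exact Or.inl h6.symm
      · exact Or.inr h6.symm
  rcases key2 with hM | hC
  · exact hnegQ i j hij hM
  · exact hneg i j hij (H.negP_clo hi' hj hC).mono2

/-- the width of the pair grows at most with speed `c` as long as the pair is not free -/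
def Edge3 (z : Fin n → ℝ) (F : (Fin n → ℝ) → ℝ → Fin n → ℝ) (lo hi : Fin n → ℝ)
    (S : Fin n → Prop) (i j : Fin n) (c : ℝ) : Prop :=
  ∀ᶠ p : (Fin n → ℝ) × ℝ in 𝓝 (z, 0), AdmN p.1 → 0 ≤ p.2 → (∀ k, -1 < p.1 k) →
    -1 ≤ RR (p.1 i) (p.1 j) → (¬ KP z lo hi S i j → RR (F p.1 p.2 i) (F p.1 p.2 j) < 1) →
    wd (F p.1 p.2 i) (F p.1 p.2 j) ≤ wd (p.1 i) (p.1 j) + c * p.2

lemma edge3_mono {i j : Fin n} (hst : ∀ y, F y 0 = y) (h : MonoQ z F i j) {c : ℝ} (hc : 0 ≤ c) :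
    Edge3 z F lo hi S i j c := by
  unfold Edge3
  filter_upwards [h] with p hp ha h0 _ _ _
  have h3 := mul_nonneg hc h0
  rcases hp ha 0 le_rfl h0 with h1 | h1
  · rw [hst] at h1
    rw [wd_eq_RR, wd_eq_RR]
    have h2 := Real.antitone_arccos h1
    linarith
  · have h2 : wd (F p.1 p.2 i) (F p.1 p.2 j) = 0 := by
      rw [wd_eq_RR, Real.arccos_eq_zero]; exact h1
    have := wd_nonneg (p.1 i) (p.1 j)
    linarith

lemma edge3_static {i j : Fin n} (h1 : Stat z F i) (h2 : Stat z F j) {c : ℝ} (hc : 0 ≤ c) :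
    Edge3 z F lo hi S i j c := by
  unfold Edge3
  filter_upwards [h1, h2] with p p1 p2 ha h0 _ _ _
  rw [p1 ha h0, p2 ha h0]
  have := mul_nonneg hc h0
  linarith

/-- edges of a relevant walk -/
lemma PHs.edge (H : PHs hn z F lo hi S Slk) {i j : Fin n} (hi' : ¬ S i) (hj : ¬ S j)
    {c : ℝ} (h : EBs z F lo hi i j c) {γ : ℝ} (hγ : 0 < γ) : Edge3 z F lo hi S i j (c + γ) := by
  rcases h with h | ⟨s1, hc⟩
  swap
  · exact edge3_mono H.law.start s1 (by linarith)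
  rcases lt_or_ge (RR (z i) (z j) ^ 2) 1 with h1 | h1
  · have hr := h.1 h1
    have ri := H.reg i hi'
    have rj := H.reg j hj
    have a1 : -1 < RR (z i) (z j) ∧ RR (z i) (z j) < 1 := by
      constructor <;> nlinarith
    have hreg := sq_lt_of_RR ⟨ri.1, by linarith [ri.2]⟩ ⟨rj.1, by linarith [rj.2]⟩ a1.1 a1.2
    have hE := edge2_regular (c := c + γ) ⟨ri, rj⟩ H.law.start H.law.near (H.law.vel i)
      (H.law.vel j) hreg
      (by linarith [hr.1]) (by linarith [hr.2.1]) (by linarith [hr.2.2.1]) (by linarith [hr.2.2.2])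
    unfold Edge3
    filter_upwards [hE, (H.RR_lim hi' hj).eventually (gt_mem_nhds a1.2)] with p p1 p2 ha h0 hy hm _
    exact p1 ha h0 hy hm p2
  · have hC := h.2 h1
    have hE := (H.negP_clo hi' hj hC).edge2 H.law.start (by
      by_contra hcon
      push Not at hcon
      have ri := H.reg i hi'
      have rj := H.reg j hj
      have := (RR_abs_lt ⟨ri.1, by linarith [ri.2]⟩ ⟨rj.1, by linarith [rj.2]⟩ hcon).1
      linarith) (c + γ)
    have hK : ¬ KP z lo hi S i j := fun h => h.2.2.2 hC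
    unfold Edge3
    filter_upwards [hE] with p p1 ha h0 hy hm hl
    exact p1 ha h0 hy hm (hl hK)

/-- edges at the pole with a moving point -/
lemma PHs.edge_pole (H : PHs hn z F lo hi S Slk) {i j : Fin n}
    (h : (S i ∧ z j = -(1 / 2) ∧ 0 < lo j) ∨ (S j ∧ z i = -(1 / 2) ∧ 0 < lo i))
    (c : ℝ) : Edge3 z F lo hi S i j c := by
  have hE : Edge2 z F i j c := by
    rcases h with ⟨h1, h2, h3⟩ | ⟨h1, h2, h3⟩
    · refine (H.negP_touch h1 h2 h3).edge2 H.law.start ?_ _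
      rw [H.Sz i h1, h2]; norm_num
    · refine (H.negP_touch h1 h2 h3).symm.edge2 H.law.start ?_ _
      rw [H.Sz j h1, h2]; norm_num
  have hK : ¬ KP z lo hi S i j := by
    rintro ⟨k1, k2, -⟩
    rcases h with ⟨h1, -⟩ | ⟨h1, -⟩
    · exact k1 h1
    · exact k2 h1
  unfold Edge3
  filter_upwards [hE] with p p1 ha h0 hy hm hl
  exact p1 ha h0 hy hm (hl hK)

/-- edges at the pole never grow -/
lemma PHs.edge_pole0 (H : PHs hn z F lo hi S Slk) {i j : Fin n} (hE : Eok z S i j) (h : S i ∨ S j) :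
    Edge3 z F lo hi S i j 0 := by
  have hnS : ∀ k, z k = -(1 / 2) → ¬ S k := by
    intro k hk h
    have := H.Sz k h; rw [hk] at this; norm_num at this
  rcases hE with ⟨h1, h2⟩ | ⟨h1, h2⟩ | ⟨h1, h2, -⟩
  · rcases (H.Sl i j h1 (hnS j h2)).2 h2 with h3 | h3
    · exact H.edge_pole (Or.inl ⟨h1, h2, h3⟩) 0
    · exact edge3_static (H.Sst i h1) h3 le_rfl
  · rcases (H.Sl j i h1 (hnS i h2)).2 h2 with h3 | h3
    · exact H.edge_pole (Or.inr ⟨h1, h2, h3⟩) 0
    · exact edge3_static h3 (H.Sst j h1) le_rfl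
  · rcases h with h | h
    · exact absurd h h1
    · exact absurd h h2

/-- one walk does not become too long -/
lemma PHs.walk_one (H : PHs hn z F lo hi S Slk) {v : ℕ → ℕ} {r : ℕ} (hr : r ≤ n)
    (hv : IsWalk n v r) (he : v r = v 0 + n)
    (hns : (∃ k < r, S (clN n hn (v k))) → ¬ Slk (fun k => clN n hn (v k)) r) :
    ∀ᶠ p : (Fin n → ℝ) × ℝ in 𝓝 (z, 0), AdmN p.1 →
    (∀ k, -1 < p.1 k) → (∀ i j, i ≠ j → -1 ≤ RR (p.1 i) (p.1 j)) → 0 ≤ p.2 →
    (∀ k < r, ¬ (¬ KP z lo hi S (clN n hn (v k)) (clN n hn (v (k + 1))) ∧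
        1 ≤ RR (F p.1 p.2 (clN n hn (v k))) (F p.1 p.2 (clN n hn (v (k + 1)))))) →
    twn p.1 (fun k => clN n hn (v k)) r ≤ 2 * π →
    twn (F p.1 p.2) (fun k => clN n hn (v k)) r ≤ 2 * π := by
  classical
  set κ : ℕ → Fin n := fun k => clN n hn (v k) with hκ
  have hne : ∀ k < r, κ k ≠ κ (k + 1) := fun k hk => clN_step_ne hn (hv k hk)
  by_cases hE : ∀ k < r, Eok z S (κ k) (κ (k + 1))
  swap
  · -- an edge is free
    push Not at hE
    obtain ⟨k, hk, hE⟩ := hE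
    have h1 : ∀ᶠ p : (Fin n → ℝ) × ℝ in 𝓝 (z, 0), AdmN p.1 → (∀ k, -1 < p.1 k) → 0 ≤ p.2 →
        1 ≤ RR (F p.1 p.2 (κ k)) (F p.1 p.2 (κ (k + 1))) := by
      unfold Eok at hE
      push Not at hE
      obtain ⟨a1, a2, a3⟩ := hE
      by_cases s1 : S (κ k)
      · exact H.free_pole s1 (fun h => hne k hk (H.S1 _ _ s1 h)) (a1 s1)
      by_cases s2 : S (κ (k + 1))
      · filter_upwards [H.free_pole s2 s1 (a2 s2)] with p hp ha hy h0
        rw [RR_comm]; exact hp ha hy h0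
      filter_upwards [(H.RR_lim s1 s2).eventually (lt_mem_nhds (a3 s1 s2))] with p hp _ _ _
      exact hp.le
    have h2 : ¬ KP z lo hi S (κ k) (κ (k + 1)) := by
      rintro ⟨b1, b2, b3, -⟩
      exact hE (Or.inr (Or.inr ⟨b1, b2, b3.le⟩))
    filter_upwards [h1] with p hp ha hy hq h0 hf _
    exact absurd ⟨h2, hp ha hy h0⟩ (hf k hk)
  -- static walks
  have key_static : (∀ k ≤ r, Stat z F (κ k)) → ∀ᶠ p : (Fin n → ℝ) × ℝ in 𝓝 (z, 0), AdmN p.1 →
      (∀ k, -1 < p.1 k) → (∀ i j, i ≠ j → -1 ≤ RR (p.1 i) (p.1 j)) → 0 ≤ p.2 →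
      (∀ k < r, ¬ (¬ KP z lo hi S (κ k) (κ (k + 1)) ∧
        1 ≤ RR (F p.1 p.2 (κ k)) (F p.1 p.2 (κ (k + 1))))) →
      twn p.1 κ r ≤ 2 * π → twn (F p.1 p.2) κ r ≤ 2 * π := by
    intro hst
    have hall : ∀ᶠ p : (Fin n → ℝ) × ℝ in 𝓝 (z, 0), ∀ k : Fin (r + 1), AdmN p.1 → 0 ≤ p.2 →
        F p.1 p.2 (κ k) = p.1 (κ k) := by
      rw [eventually_all]; intro k
      exact hst k.val (by omega)
    filter_upwards [hall] with p hp ha _ _ h0 _ h1
    have : twn (F p.1 p.2) κ r = twn p.1 κ r := by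
      unfold twn
      refine Finset.sum_congr rfl fun k hk => ?_
      have := Finset.mem_range.1 hk
      have q1 := hp ⟨k, by omega⟩ ha h0
      have q2 := hp ⟨k + 1, by omega⟩ ha h0
      simp only at q1 q2
      rw [q1, q2]
    rw [this]; exact h1
  -- walks with bounds for the edges
  have key_edges : ∀ c' : ℕ → ℝ, (∀ k < r, Edge3 z F lo hi S (κ k) (κ (k + 1)) (c' k)) →
      ∑ k ∈ Finset.range r, c' k ≤ 0 → ∀ᶠ p : (Fin n → ℝ) × ℝ in 𝓝 (z, 0), AdmN p.1 →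
      (∀ k, -1 < p.1 k) → (∀ i j, i ≠ j → -1 ≤ RR (p.1 i) (p.1 j)) → 0 ≤ p.2 →
      (∀ k < r, ¬ (¬ KP z lo hi S (κ k) (κ (k + 1)) ∧
        1 ≤ RR (F p.1 p.2 (κ k)) (F p.1 p.2 (κ (k + 1))))) →
      twn p.1 κ r ≤ 2 * π → twn (F p.1 p.2) κ r ≤ 2 * π := by
    intro c' hc' hsum
    have hall : ∀ᶠ p : (Fin n → ℝ) × ℝ in 𝓝 (z, 0), ∀ k : Fin r, AdmN p.1 → 0 ≤ p.2 →
        (∀ k, -1 < p.1 k) → -1 ≤ RR (p.1 (κ k)) (p.1 (κ (k + 1))) →
        (¬ KP z lo hi S (κ k) (κ (k + 1)) →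
          RR (F p.1 p.2 (κ k)) (F p.1 p.2 (κ (k + 1))) < 1) →
        wd (F p.1 p.2 (κ k)) (F p.1 p.2 (κ (k + 1))) ≤
          wd (p.1 (κ k)) (p.1 (κ (k + 1))) + c' k * p.2 := by
      rw [eventually_all]; intro k
      exact hc' k.val k.isLt
    filter_upwards [hall] with p hp ha hy hq h0 hf h1
    have h2 : twn (F p.1 p.2) κ r ≤
        twn p.1 κ r + (∑ k ∈ Finset.range r, c' k) * p.2 := by
      unfold twn
      rw [Finset.sum_mul, ← Finset.sum_add_distrib]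
      refine Finset.sum_le_sum fun k hk => ?_
      have hk' := Finset.mem_range.1 hk
      refine hp ⟨k, hk'⟩ ha h0 hy (hq _ _ (hne k hk')) ?_
      intro hK
      by_contra hcon
      push Not at hcon
      exact hf k hk' ⟨hK, hcon⟩
    have h4 := mul_nonpos_of_nonpos_of_nonneg hsum h0
    linarith
  by_cases hM : ∀ k < r, ¬ S (κ k)
  · -- no pole
    have hM' : ∀ k < r, ¬ S (κ (k + 1)) := by
      intro k hk
      by_cases h : k + 1 < r
      · exact hM _ h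
      · have h2 : k + 1 = r := by omega
        have h3 : κ (k + 1) = κ 0 := by
          simp only [hκ, h2, he, clN_add]
        rw [h3]; exact hM 0 (by omega)
    rcases lt_or_ge (twn z κ r) (2 * π) with hlt | hge
    · have hT : Tendsto (fun p : (Fin n → ℝ) × ℝ => twn (F p.1 p.2) κ r)
          (𝓝 (z, 0)) (𝓝 (twn z κ r)) := by
        unfold twn
        refine tendsto_finsetSum _ fun k hk => ?_
        have := Finset.mem_range.1 hk
        exact wd_tendsto' (H.comp _) (H.comp _) (H.reg _ (hM k this)) (H.reg _ (hM' k this))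
      filter_upwards [hT.eventually (gt_mem_nhds hlt)] with p hp _ _ _ _ _ _ using hp.le
    rcases H.walk v r hr hv he hE (fun _ => hge)
      (fun ⟨k, hk, hS⟩ => absurd hS (hM k hk)) with hst | ⟨c, hc, hs⟩
    · exact key_static hst
    · have hnM : ¬ Mov lo S κ r := by
        rintro ⟨k, hk, ⟨h, -⟩ | ⟨h, -⟩⟩
        · exact hM k hk h
        · exact hM' k hk h
      rcases hs with hs | hs
      · exact absurd hs hnM
      have hs' : ∑ k ∈ Finset.range r, c k < 0 := by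
        have e : sumS S c κ r = ∑ k ∈ Finset.range r, c k := by
          unfold sumS
          refine Finset.sum_congr rfl fun k hk => ?_
          have hk' := Finset.mem_range.1 hk
          rw [if_neg (by rintro (h | h); exacts [hM k hk' h, hM' k hk' h])]
        rw [← e]; exact hs
      set γ := (-∑ k ∈ Finset.range r, c k) / (r + 1) with hγ
      have hr0 : (0 : ℝ) < r + 1 := by positivity
      have hγ0 : 0 < γ := div_pos (by linarith) hr0
      refine key_edges (fun k => c k + γ) (fun k hk => H.edge (hM k hk) (hM' k hk)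
        (hc k hk (hM k hk) (hM' k hk)) hγ0) ?_
      rw [Finset.sum_add_distrib, Finset.sum_const, Finset.card_range, nsmul_eq_mul]
      have e : γ * (r + 1) = -∑ k ∈ Finset.range r, c k := by rw [hγ]; field_simp
      nlinarith
  -- the walk meets the pole
  push Not at hM
  obtain ⟨k0, hk0, hS0⟩ := hM
  have hfst : ∀ k, Tendsto (fun p : (Fin n → ℝ) × ℝ => p.1 k) (𝓝 (z, 0)) (𝓝 (z k)) := fst_comp
  rcases lt_or_ge (2 * π) (twS S z κ r) with hlt | hge
  · have hT : Tendsto (fun p : (Fin n → ℝ) × ℝ => twS S p.1 κ r) (𝓝 (z, 0)) (𝓝 (twS S z κ r)) := by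
      unfold twS
      refine tendsto_finsetSum _ fun k hk => ?_
      by_cases hSk : S (κ k) ∨ S (κ (k + 1))
      · simp only [if_pos hSk]; exact tendsto_const_nhds
      · simp only [if_neg hSk]
        push Not at hSk
        exact wd_tendsto' (hfst _) (hfst _) (H.reg _ hSk.1) (H.reg _ hSk.2)
    filter_upwards [hT.eventually (lt_mem_nhds hlt)] with p hp _ _ _ _ _ h1
    exfalso
    have : twS S p.1 κ r ≤ twn p.1 κ r := by
      unfold twS twn
      refine Finset.sum_le_sum fun k _ => ?_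
      split_ifs
      · exact wd_nonneg _ _
      · exact le_rfl
    linarith
  rcases H.walk v r hr hv he hE (fun h => absurd hS0 (h k0 hk0))
    (fun _ => ⟨hge, hns ⟨k0, hk0, hS0⟩⟩) with
    hst | ⟨c, hc, hs⟩
  · exact key_static hst
  rcases hs with ⟨k1, hk1, hmov⟩ | hs
  · -- some edge at the pole closes with infinite speed
    have hS1 : S (κ k1) ∨ S (κ (k1 + 1)) := by
      rcases hmov with ⟨h, -⟩ | ⟨h, -⟩
      · exact Or.inl h
      · exact Or.inr h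
    have hmov' : (S (κ k1) ∧ z (κ (k1 + 1)) = -(1 / 2) ∧ 0 < lo (κ (k1 + 1))) ∨
        (S (κ (k1 + 1)) ∧ z (κ k1) = -(1 / 2) ∧ 0 < lo (κ k1)) := by
      have hne1 := hne k1 hk1
      rcases hmov with ⟨h, h'⟩ | ⟨h, h'⟩
      · left
        rcases hE k1 hk1 with ⟨-, h2⟩ | ⟨h2, -⟩ | ⟨h2, -⟩
        · exact ⟨h, h2, h'⟩
        · exact absurd (H.S1 _ _ h h2) hne1
        · exact absurd h h2
      · right
        rcases hE k1 hk1 with ⟨h2, -⟩ | ⟨-, h2⟩ | ⟨-, h2, -⟩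
        · exact absurd (H.S1 _ _ h2 h) hne1
        · exact ⟨h, h2, h'⟩
        · exact absurd h h2
    set B : ℝ := ∑ k ∈ Finset.range r, (|c k| + 1) with hB
    have hB0 : 0 ≤ B := Finset.sum_nonneg fun k _ => by positivity
    set c' : ℕ → ℝ := fun k => if k = k1 then -B else
      if S (κ k) ∨ S (κ (k + 1)) then 0 else c k + 1 with hc'
    refine key_edges c' (fun k hk => ?_) ?_
    · by_cases hk' : k = k1
      · subst hk'
        simp only [hc', if_true]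
        exact H.edge_pole hmov' (-B)
      · by_cases hSk : S (κ k) ∨ S (κ (k + 1))
        · simp only [hc', if_neg hk', if_pos hSk]
          exact H.edge_pole0 (hE k hk) hSk
        · simp only [hc', if_neg hk', if_neg hSk]
          push Not at hSk
          exact H.edge hSk.1 hSk.2 (hc k hk hSk.1 hSk.2) one_pos
    · have h1 : ∑ k ∈ Finset.range r, c' k ≤ ∑ k ∈ Finset.range r,
          ((|c k| + 1) + if k = k1 then -B else 0) := by
        refine Finset.sum_le_sum fun k _ => ?_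
        have habs := le_abs_self (c k)
        have habs0 : 0 ≤ |c k| := abs_nonneg _
        by_cases hkk : k = k1
        · subst hkk
          simp only [hc', if_true]
          linarith
        · simp only [hc', if_neg hkk, add_zero]
          split_ifs
          · linarith
          · linarith
      rw [Finset.sum_add_distrib, Finset.sum_ite_eq' (Finset.range r) k1] at h1
      simp only [Finset.mem_range, hk1, if_true] at h1
      linarith
  · -- the other edges close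
    set γ := (-sumS S c κ r) / (r + 1) with hγ
    have hr0 : (0 : ℝ) < r + 1 := by positivity
    have hγ0 : 0 < γ := div_pos (by linarith) hr0
    refine key_edges (fun k => (if S (κ k) ∨ S (κ (k + 1)) then 0 else c k) + γ)
      (fun k hk => ?_) ?_
    · by_cases hSk : S (κ k) ∨ S (κ (k + 1))
      · simp only [if_pos hSk, zero_add]
        have h0 := H.edge_pole0 (hE k hk) hSk
        unfold Edge3 at h0 ⊢
        filter_upwards [h0] with p hp ha h1 hy hm hl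
        have := hp ha h1 hy hm hl
        have := mul_nonneg hγ0.le h1
        linarith
      · simp only [if_neg hSk]
        push Not at hSk
        exact H.edge hSk.1 hSk.2 (hc k hk hSk.1 hSk.2) hγ0
    · rw [Finset.sum_add_distrib, Finset.sum_const, Finset.card_range, nsmul_eq_mul]
      have e : γ * (r + 1) = -sumS S c κ r := by rw [hγ]; field_simp
      have e2 : ∑ k ∈ Finset.range r, (if S (κ k) ∨ S (κ (k + 1)) then 0 else c k) =
        sumS S c κ r := rfl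
      rw [e2]
      nlinarith

/-- one slack walk does not become too long -/
lemma PHs.walk_slack (H : PHs hn z F lo hi S Slk) {v : ℕ → ℕ} {r : ℕ}
    (hv : IsWalk n v r) {δ : ℝ} (hδ : 0 < δ) :
    ∀ᶠ p : (Fin n → ℝ) × ℝ in 𝓝 (z, 0), AdmN p.1 →
    (∀ k, -1 < p.1 k) → (∀ i j, i ≠ j → -1 ≤ RR (p.1 i) (p.1 j)) → 0 ≤ p.2 →
    (∀ k < r, ¬ (¬ KP z lo hi S (clN n hn (v k)) (clN n hn (v (k + 1))) ∧
        1 ≤ RR (F p.1 p.2 (clN n hn (v k))) (F p.1 p.2 (clN n hn (v (k + 1)))))) →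
    twn p.1 (fun k => clN n hn (v k)) r ≤ 2 * π - δ →
    twn (F p.1 p.2) (fun k => clN n hn (v k)) r ≤ 2 * π := by
  classical
  set κ : ℕ → Fin n := fun k => clN n hn (v k) with hκ
  have hne : ∀ k < r, κ k ≠ κ (k + 1) := fun k hk => clN_step_ne hn (hv k hk)
  have hpos : 0 < δ / (r + 1) := by positivity
  have hall : ∀ᶠ p : (Fin n → ℝ) × ℝ in 𝓝 (z, 0), ∀ k : Fin r, AdmN p.1 → 0 ≤ p.2 →
      (∀ k, -1 < p.1 k) → -1 ≤ RR (p.1 (κ k)) (p.1 (κ (k + 1))) →
      (¬ KP z lo hi S (κ k) (κ (k + 1)) →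
        RR (F p.1 p.2 (κ k)) (F p.1 p.2 (κ (k + 1))) < 1) →
      wd (F p.1 p.2 (κ k)) (F p.1 p.2 (κ (k + 1))) ≤
        wd (p.1 (κ k)) (p.1 (κ (k + 1))) + δ / (r + 1) := by
    rw [eventually_all]; intro k
    by_cases hSk : S (κ k) ∨ S (κ (k + 1))
    · by_cases hE : Eok z S (κ k) (κ (k + 1))
      · have h0 := H.edge_pole0 hE hSk
        unfold Edge3 at h0
        filter_upwards [h0] with p hp ha h1 hy hm hl
        have := hp ha h1 hy hm hl
        linarith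
      · have h1 : ∀ᶠ p : (Fin n → ℝ) × ℝ in 𝓝 (z, 0), AdmN p.1 → (∀ k, -1 < p.1 k) → 0 ≤ p.2 →
            1 ≤ RR (F p.1 p.2 (κ k)) (F p.1 p.2 (κ (k + 1))) := by
          unfold Eok at hE
          push Not at hE
          obtain ⟨a1, a2, a3⟩ := hE
          by_cases s1 : S (κ k)
          · exact H.free_pole s1 (fun h => hne k k.isLt (H.S1 _ _ s1 h)) (a1 s1)
          · have s2 := hSk.resolve_left s1
            filter_upwards [H.free_pole s2 s1 (a2 s2)] with p hp ha hy h0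
            rw [RR_comm]; exact hp ha hy h0
        filter_upwards [h1] with p hp ha h0 hy _ _
        have h2 := hp ha hy h0
        have h3 : wd (F p.1 p.2 (κ k)) (F p.1 p.2 (κ (k + 1))) = 0 := by
          rw [wd_eq_RR, Real.arccos_eq_zero]; exact h2
        have := wd_nonneg (p.1 (κ k)) (p.1 (κ (k + 1)))
        linarith
    · push Not at hSk
      have t1 := wd_tendsto' (H.comp (κ k)) (H.comp (κ (k + 1))) (H.reg _ hSk.1) (H.reg _ hSk.2)
      have t2 := wd_tendsto' (fst_comp (z := z) (κ k)) (fst_comp (κ (k + 1))) (H.reg _ hSk.1)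
        (H.reg _ hSk.2)
      have t3 := t1.sub t2
      rw [sub_self] at t3
      filter_upwards [t3.eventually (gt_mem_nhds hpos)] with p hp _ _ _ _ _
      linarith
  filter_upwards [hall] with p hp ha hy hq h0 hf h1
  have h4 : twn (F p.1 p.2) κ r ≤ twn p.1 κ r + ∑ k ∈ Finset.range r, δ / (r + 1) := by
    unfold twn
    rw [← Finset.sum_add_distrib]
    refine Finset.sum_le_sum fun k hk => ?_
    have hk' := Finset.mem_range.1 hk
    refine hp ⟨k, hk'⟩ ha h0 hy (hq _ _ (hne k hk')) ?_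
    intro hK
    by_contra hcon
    push Not at hcon
    exact hf k hk' ⟨hK, hcon⟩
  rw [Finset.sum_const, Finset.card_range, nsmul_eq_mul] at h4
  have h5 : (r : ℝ) * (δ / (r + 1)) ≤ δ := by
    rw [← mul_div_assoc, div_le_iff₀ (by positivity)]
    nlinarith
  linarith

/-- **no relevant walk becomes too long** -/
lemma PHs.walks (H : PHs hn z F lo hi S Slk)
    (hcg : ∀ κ κ' r, (∀ k ≤ r, κ k = κ' k) → Slk κ r → Slk κ' r) {δ : ℝ} (hδ : 0 < δ) :
    ∀ᶠ p : (Fin n → ℝ) × ℝ in 𝓝 (z, 0),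
    ∀ (v : ℕ → ℕ) (r : ℕ), r ≤ n → IsWalk n v r → v r = v 0 + n →
    (∀ k < r, ¬ (fun _ _ : Fin n => False) (clN n hn (v k)) (clN n hn (v (k + 1)))) →
    (AdmN p.1 → (∀ k, -1 < p.1 k) → (∀ i j, i ≠ j → -1 ≤ RR (p.1 i) (p.1 j)) → 0 ≤ p.2 →
      (∀ k < r, ¬ (¬ KP z lo hi S (clN n hn (v k)) (clN n hn (v (k + 1))) ∧
        1 ≤ RR (F p.1 p.2 (clN n hn (v k))) (F p.1 p.2 (clN n hn (v (k + 1)))))) →
      twn p.1 (fun k => clN n hn (v k)) r ≤ 2 * π →
      ((∃ k < r, S (clN n hn (v k))) → Slk (fun k => clN n hn (v k)) r →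
        twn p.1 (fun k => clN n hn (v k)) r ≤ 2 * π - δ) →
      twn (F p.1 p.2) (fun k => clN n hn (v k)) r ≤ 2 * π) := by
  classical
  refine ev_walks (D := fun _ _ : Fin n => False)
    (P := fun (p : (Fin n → ℝ) × ℝ) (κ : ℕ → Fin n) (r : ℕ) => AdmN p.1 →
    (∀ k, -1 < p.1 k) → (∀ i j, i ≠ j → -1 ≤ RR (p.1 i) (p.1 j)) → 0 ≤ p.2 →
    (∀ k < r, ¬ (¬ KP z lo hi S (κ k) (κ (k + 1)) ∧
        1 ≤ RR (F p.1 p.2 (κ k)) (F p.1 p.2 (κ (k + 1))))) →
    twn p.1 κ r ≤ 2 * π → ((∃ k < r, S (κ k)) → Slk κ r → twn p.1 κ r ≤ 2 * π - δ) →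
    twn (F p.1 p.2) κ r ≤ 2 * π) hn ?_ ?_
  · intro p κ κ' r hκ h ha hy hq h0 hf h1 h2
    have e : ∀ y, twn y κ' r = twn y κ r := by
      intro y
      unfold twn
      refine Finset.sum_congr rfl fun k hk => ?_
      have := Finset.mem_range.1 hk
      rw [hκ k (by omega), hκ (k + 1) (by omega)]
    rw [e] at h1 ⊢
    refine h ha hy hq h0 (fun k hk => ?_) h1 ?_
    · rw [hκ k (by omega), hκ (k + 1) (by omega)]
      exact hf k hk
    · rintro ⟨k, hk, hS⟩ hsl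
      rw [← e]
      exact h2 ⟨k, hk, by rw [← hκ k hk.le]; exact hS⟩ (hcg κ κ' r hκ hsl)
  intro v r hr hv he _
  by_cases hsl : (∃ k < r, S (clN n hn (v k))) ∧ Slk (fun k => clN n hn (v k)) r
  · filter_upwards [H.walk_slack hv hδ] with p hp ha hy hq h0 hf _ h2
    exact hp ha hy hq h0 hf (h2 hsl.1 hsl.2)
  · filter_upwards [H.walk_one hr hv he fun h1 h2 => hsl ⟨h1, h2⟩] with p hp ha hy hq h0 hf h1 _
    exact hp ha hy hq h0 hf h1

/-- **Local lifting at a point.** -/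
theorem point_lift_s (hn2 : 2 ≤ n) (HP : Prm n P A) (H : PHs hn z F lo hi S Slk)
    (hcg : ∀ κ κ' r, (∀ k ≤ r, κ k = κ' k) → Slk κ r → Slk κ' r) {δ : ℝ} (hδ : 0 < δ)
    (hA : ∀ᶠ p : (Fin n → ℝ) × ℝ in 𝓝 (z, 0), AdmN p.1 → p.1 ∈ A → 0 ≤ p.2 → F p.1 p.2 ∈ A) :
    ∃ U ∈ 𝓝 z, ∃ ε > 0, ∀ y ∈ U, y ∈ A → AdmN y → (∀ k, -1 < y k) → ∀ η : Fin n → ℝ,
      (∀ i j, i ≠ j → gg (y i) (y j) (η i) (η j) ≤ 1 / 2) → Monotone η →
      (∀ k, 0 ≤ η k ∧ η k ≤ 2 * π) →
      (∀ v r, r ≤ n → IsWalk n v r → v r = v 0 + n → (∃ k < r, S (clN n hn (v k))) →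
        Slk (fun k => clN n hn (v k)) r → twn y (fun k => clN n hn (v k)) r ≤ 2 * π - δ) →
      ∀ t, 0 ≤ t → t ≤ ε →
      (∀ k, -1 < F y t k ∧ F y t k ≤ 1 / 2) ∧ F y t ∈ A ∧ ∃ η' : Fin n → ℝ,
        (∀ i j, i ≠ j → gg (F y t i) (F y t j) (η' i) (η' j) ≤ 1 / 2) ∧
        JoinedIn Conf (P y η) (P (F y t) η') := by
  have e1 := H.range
  have e2 : ∀ᶠ p : (Fin n → ℝ) × ℝ in 𝓝 (z, 0), ∀ i j, i ≠ j → ¬ KP z lo hi S i j → AdmN p.1 →
      (∀ k, -1 < p.1 k) → ∀ s, 0 ≤ s → s ≤ p.2 →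
      1 ≤ RR (F p.1 s i) (F p.1 s j) → 1 ≤ RR (F p.1 p.2 i) (F p.1 p.2 j) := by
    rw [eventually_all]; intro i
    rw [eventually_all]; intro j
    by_cases hij : i ≠ j ∧ ¬ KP z lo hi S i j
    · filter_upwards [H.persist hij.1 hij.2] with p hp _ _ using hp
    · exact Eventually.of_forall fun p h1 h2 => absurd ⟨h1, h2⟩ hij
  have e3 : ∀ᶠ p : (Fin n → ℝ) × ℝ in 𝓝 (z, 0), ∀ i j, i ≠ j → AdmN p.1 → (∀ k, -1 < p.1 k) →
      (∀ i j, i ≠ j → -1 ≤ RR (p.1 i) (p.1 j)) → 0 ≤ p.2 →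
      -1 ≤ RR (F p.1 p.2 i) (F p.1 p.2 j) := by
    rw [eventually_all]; intro i
    rw [eventually_all]; intro j
    by_cases hij : i ≠ j
    · filter_upwards [H.pole hn2 hij] with p hp _ using hp
    · exact Eventually.of_forall fun p h1 => absurd h1 hij
  have e4 : ∀ᶠ p : (Fin n → ℝ) × ℝ in 𝓝 (z, 0), ∀ i j, i ≠ j → KP z lo hi S i j →
      -(1 / 3) < √(1 - F p.1 p.2 i ^ 2) * √(1 - F p.1 p.2 j ^ 2) + F p.1 p.2 i * F p.1 p.2 j := by
    rw [eventually_all]; intro i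
    rw [eventually_all]; intro j
    by_cases hij : i ≠ j ∧ KP z lo hi S i j
    · obtain ⟨-, k1, k2, k3, -⟩ := hij
      have hc : Continuous fun x : Fin n → ℝ => √(1 - x i ^ 2) * √(1 - x j ^ 2) + x i * x j := by
        fun_prop
      have h1 := (hc.tendsto z).comp H.law.near
      have h2 : -(1 / 3) < √(1 - z i ^ 2) * √(1 - z j ^ 2) + z i * z j := by
        have c := mul_pos (sqrt_pos_of (H.reg i k1)) (sqrt_pos_of (H.reg j k2))
        unfold RR at k3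
        rw [div_eq_iff c.ne'] at k3
        linarith
      filter_upwards [h1.eventually (lt_mem_nhds h2)] with p hp _ _ using hp
    · exact Eventually.of_forall fun p h1 h2 => absurd ⟨h1, h2⟩ hij
  have e5 := H.walks hcg hδ
  have hev := ((e1.and e2).and (e3.and e4)).and (e5.and hA)
  rw [nhds_prod_eq, Filter.eventually_prod_iff] at hev
  obtain ⟨Q1, hQ1, Q2, hQ2, hQ⟩ := hev
  obtain ⟨ε, hε, hεQ⟩ := Metric.eventually_nhds_iff.1 hQ2
  have hQ' : ∀ t, 0 ≤ t → t ≤ ε / 2 → Q2 t := by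
    intro t h0 h1
    apply hεQ
    rw [Real.dist_eq, sub_zero, abs_of_nonneg h0]; linarith
  refine ⟨{y | Q1 y}, hQ1, ε / 2, by linarith, ?_⟩
  intro y hy hyA hadm hy1 η hF hmon hs hslk t ht0 htε
  have hall := fun τ (h0 : 0 ≤ τ) (h1 : τ ≤ ε / 2) => hQ hy (hQ' τ h0 h1)
  have hstart : F y 0 = y := H.law.start y
  have hyr : ∀ k, -1 < y k ∧ y k ≤ 1 / 2 := fun k => ⟨hy1 k, (hadm k).2⟩
  have hq : ∀ i j, i ≠ j → -1 ≤ RR (y i) (y j) := by
    intro i j hij
    have h1 := cos_le_of_gg (hyr i) (hyr j) (hF i j hij)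
    exact (Real.neg_one_le_cos _).trans h1
  have htime : ∀ τ ∈ Icc (0 : ℝ) 1, 0 ≤ τ * t ∧ τ * t ≤ ε / 2 := by
    intro τ hτ
    constructor
    · exact mul_nonneg hτ.1 ht0
    · nlinarith [hτ.2]
  have hrange : ∀ τ ∈ Icc (0 : ℝ) 1, ∀ k, -1 < F y (τ * t) k ∧ F y (τ * t) k ≤ 1 / 2 := by
    intro τ hτ
    obtain ⟨h0, h1⟩ := htime τ hτ
    exact (hall _ h0 h1).1.1.1 hadm hy1 h0
  have hz0 : F y (0 * t) = y := by rw [zero_mul, hstart]
  have hz1 : F y (1 * t) = F y t := by rw [one_mul]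
  have hG : GPath (KP z lo hi S) (fun τ => F y (τ * t)) := by
    refine ⟨?_, ?_, hrange, ?_, ?_, ?_⟩
    · rintro i j ⟨k1, k2, k3, k4⟩
      exact ⟨k2, k1, by rw [RR_comm]; exact k3, fun h => k4 h.symm⟩
    · intro k
      exact ((H.law.cont y k).comp (continuous_id.mul continuous_const)).continuousOn
    · intro i j hij hK s τ hs0 hsτ hτ1 h1
      obtain ⟨h3, h4⟩ := htime τ ⟨hs0.trans hsτ, hτ1⟩
      exact (hall _ h3 h4).1.1.2 i j hij hK hadm hy1 (s * t) (mul_nonneg hs0 ht0)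
        (mul_le_mul_of_nonneg_right hsτ ht0) h1
    · intro τ hτ i j hij hK
      obtain ⟨h0, h1⟩ := htime τ hτ
      exact (hall _ h0 h1).1.2.2 i j hij hK
    · intro τ hτ i j hij
      obtain ⟨h0, h1⟩ := htime τ hτ
      exact (hall _ h0 h1).1.2.1 i j hij hadm hy1 hq h0
  have hcon : Con (KP z lo hi S) (F y (0 * t)) η := by
    rw [hz0]
    exact con_of_srt hyr hF hmon hs
  obtain ⟨φ1, -, h2, hJ⟩ := stage_lift hn2 hn HP hG (fun τ hτ => by
      obtain ⟨h0, h1⟩ := htime τ hτ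
      exact (hall _ h0 h1).2.2 hadm hyA h0) (by
      intro τ hτ v r hr hv he hf
      obtain ⟨h0, h1⟩ := htime τ hτ
      exact (hall _ h0 h1).2.1 v r hr hv he (fun _ _ h => h) hadm hy1 hq h0 hf
        (walk_of_srt hn hyr hF hmon hs hv he) (hslk v r hr hv he)) hcon
  rw [hz0, hz1] at hJ
  rw [hz1] at h2
  have hr1 := hrange 1 ⟨zero_le_one, le_rfl⟩
  rw [hz1] at hr1
  exact ⟨hr1, (hall t ht0 htε).2.2 hadm hyA ht0, φ1, h2, hJ⟩

theorem point_lift (hn2 : 2 ≤ n) (HP : Prm n P A) (H : PH hn z F lo hi S)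
    (hA : ∀ᶠ p : (Fin n → ℝ) × ℝ in 𝓝 (z, 0), AdmN p.1 → p.1 ∈ A → 0 ≤ p.2 → F p.1 p.2 ∈ A) :
    ∃ U ∈ 𝓝 z, ∃ ε > 0, ∀ y ∈ U, y ∈ A → AdmN y → (∀ k, -1 < y k) → ∀ η : Fin n → ℝ,
      (∀ i j, i ≠ j → gg (y i) (y j) (η i) (η j) ≤ 1 / 2) → Monotone η →
      (∀ k, 0 ≤ η k ∧ η k ≤ 2 * π) → ∀ t, 0 ≤ t → t ≤ ε →
      (∀ k, -1 < F y t k ∧ F y t k ≤ 1 / 2) ∧ F y t ∈ A ∧ ∃ η' : Fin n → ℝ,
        (∀ i j, i ≠ j → gg (F y t i) (F y t j) (η' i) (η' j) ≤ 1 / 2) ∧
        JoinedIn Conf (P y η) (P (F y t) η') := by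
  obtain ⟨U, hU, ε, hε, h⟩ := point_lift_s hn2 HP H (fun _ _ _ _ h => h) one_pos hA
  exact ⟨U, hU, ε, hε, fun y hy hyA ha hy1 η hF hm hs t h0 ht =>
    h y hy hyA ha hy1 η hF hm hs (fun _ _ _ _ _ _ h => absurd h id) t h0 ht⟩

end

end Pool.Agent.Helper66.Kiss
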