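import Pool.Agent.Helper66.Kiss.Packed

set_option autoImplicit false

/-! # Subsets and closed walks -/

namespace Pool.Agent.Helper66.Kiss.Pk

open Finset

/-- the code of a finite increasing sequence -/
def code (u : ℕ → ℕ) (r : ℕ) : ℕ := ∑ k ∈ range r, 2 ^ u k

lemma code_succ (u : ℕ → ℕ) (r : ℕ) : code u (r + 1) = code u r + 2 ^ u r := by
  unfold code; rw [sum_range_succ]

lemma code_lt {u : ℕ → ℕ} {r m : ℕ} (hinc : ∀ k, k + 1 < r → u k < u (k + 1))
    (hm : ∀ k < r, u k < m) : code u r < 2 ^ m := by
  induction r generalizing m with
  | zero => unfold code; simp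
  | succ r ih =>
    rw [code_succ]
    have h1 : code u r < 2 ^ u r := by
      rcases Nat.eq_zero_or_pos r with h | h
      · subst h; unfold code; simp
      · refine ih (fun k hk => hinc k (by omega)) ?_
        -- all smaller elements are below `u r`
        have key : ∀ d k, k + d + 1 = r → u k < u r := by
          intro d
          induction d with
          | zero => intro k hk; have := hinc k (by omega); rwa [show k + 1 = r by omega] at this
          | succ d ihd =>
            intro k hk
            have h1 := ihd (k + 1) (by omega)
            have h2 := hinc k (by omega)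
            omega
        intro k hk
        exact key (r - k - 1) k (by omega)
    have h2 : u r < m := hm r (by omega)
    have h3 : 2 ^ u r + 2 ^ u r ≤ 2 ^ m := by
      rw [← two_mul, ← pow_succ']
      exact Nat.pow_le_pow_right (by norm_num) h2
    omega

lemma inc_lt {u : ℕ → ℕ} {r : ℕ} (hinc : ∀ k, k + 1 < r → u k < u (k + 1)) :
    ∀ j < r, ∀ k < j, u k < u j := by
  intro j
  induction j with
  | zero => intro _ k hk; omega
  | succ j ih =>
    intro hj k hk
    have h2 := hinc j hj
    rcases Nat.lt_or_ge k j with h | h
    · have := ih (by omega) k h; omega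
    · have : k = j := by omega
      rw [this]; exact h2

lemma tf_code {w : ℕ → ℕ} {u : ℕ → ℕ} {r : ℕ} (hinc : ∀ k, k + 1 < r + 1 → u k < u (k + 1)) :
    ∀ m, (∀ k < r + 1, u k < m) → tf w m (code u (r + 1)) = w (u r) := by
  intro m
  induction m with
  | zero => intro h; have := h 0 (by omega); omega
  | succ m ih =>
    intro h
    unfold tf
    by_cases hm : ∀ k < r + 1, u k < m
    · rw [if_pos (code_lt hinc hm)]; exact ih hm
    · push Not at hm
      obtain ⟨k, hk, hm⟩ := hm
      have h1 : u r = m := by
        have a1 := h r (by omega)
        have a2 := h k hk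
        rcases Nat.lt_or_ge k r with h3 | h3
        · have := inc_lt hinc r (by omega) k h3; omega
        · have : k = r := by omega
          rw [this] at hm; omega
      have h2 : ¬ code u (r + 1) < 2 ^ m := by
        rw [code_succ, h1]; omega
      rw [if_neg h2, h1]

lemma code_split (u : ℕ → ℕ) (r : ℕ) : code u (r + 1) - 2 ^ u r = code u r := by
  rw [code_succ]; omega

lemma lf_code {w : ℕ → ℕ} {u : ℕ → ℕ} : ∀ m r, (∀ k, k + 1 < r + 1 → u k < u (k + 1)) →
    (∀ k < r + 1, u k < m) → lf w m (code u (r + 1)) = w (u 0) := by
  intro m
  induction m with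
  | zero => intro r _ h; have := h 0 (by omega); omega
  | succ m ih =>
    intro r hinc h
    unfold lf
    by_cases hm : ∀ k < r + 1, u k < m
    · rw [if_pos (code_lt hinc hm)]; exact ih r hinc hm
    · push Not at hm
      obtain ⟨k, hk, hm⟩ := hm
      have h1 : u r = m := by
        have a1 := h r (by omega)
        have a2 := h k hk
        rcases Nat.lt_or_ge k r with h3 | h3
        · have := inc_lt hinc r (by omega) k h3; omega
        · have : k = r := by omega
          rw [this] at hm; omega
      have h2 : ¬ code u (r + 1) < 2 ^ m := by
        rw [code_succ, h1]; omega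
      rw [if_neg h2]
      rcases Nat.eq_zero_or_pos r with hr | hr
      · subst hr
        have e : code u (0 + 1) = 2 ^ m := by
          rw [code_succ, h1]; unfold code; simp
        rw [if_pos e, h1]
      · have hlt : ∀ k < r, u k < m := by
          intro k hk
          have := inc_lt hinc r (by omega) k hk; omega
        have e : ¬ code u (r + 1) = 2 ^ m := by
          rw [code_succ, h1]
          have : 0 < code u r := by
            unfold code
            exact sum_pos (fun k _ => by positivity) ⟨0, by simpa using hr⟩
          omega
        rw [if_neg e]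
        have e2 : code u (r + 1) - 2 ^ m = code u r := by rw [← h1]; exact code_split u r
        rw [e2]
        obtain ⟨q, rfl⟩ : ∃ q, r = q + 1 := ⟨r - 1, by omega⟩
        exact ih q (fun k hk => hinc k (by omega)) hlt

lemma pf_code {w : ℕ → ℕ → ℕ} {u : ℕ → ℕ} : ∀ m r, (∀ k, k + 1 < r + 1 → u k < u (k + 1)) →
    (∀ k < r + 1, u k < m) → pf w m (code u (r + 1)) = ∑ k ∈ range r, w (u k) (u (k + 1)) := by
  intro m
  induction m with
  | zero => intro r _ h; have := h 0 (by omega); omega
  | succ m ih =>
    intro r hinc h
    unfold pf
    by_cases hm : ∀ k < r + 1, u k < m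
    · rw [if_pos (code_lt hinc hm)]; exact ih r hinc hm
    · push Not at hm
      obtain ⟨k, hk, hm⟩ := hm
      have h1 : u r = m := by
        have a1 := h r (by omega)
        have a2 := h k hk
        rcases Nat.lt_or_ge k r with h3 | h3
        · have := inc_lt hinc r (by omega) k h3; omega
        · have : k = r := by omega
          rw [this] at hm; omega
      have h2 : ¬ code u (r + 1) < 2 ^ m := by
        rw [code_succ, h1]; omega
      have e2 : code u (r + 1) - 2 ^ m = code u r := by rw [← h1]; exact code_split u r
      rw [if_neg h2, e2]
      have hlt : ∀ k < r, u k < m := by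
        intro k hk
        have := inc_lt hinc r (by omega) k hk; omega
      rcases Nat.eq_zero_or_pos r with hr | hr
      · subst hr
        have e : code u 0 = 0 := by unfold code; simp
        rw [e, tf_zero]
        have : pf w m 0 = 0 := by
          clear ih h hinc hk hm h1 h2 e2 hlt e
          induction m with
          | zero => rfl
          | succ m ih => unfold pf; rw [if_pos (by positivity), ih]
        rw [this]; simp
      · obtain ⟨q, rfl⟩ : ∃ q, r = q + 1 := ⟨r - 1, by omega⟩
        rw [ih q (fun k hk => hinc k (by omega)) hlt,
          tf_code (fun k hk => hinc k (by omega)) m hlt, sum_range_succ _ q]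
        simp only [h1]

/-- **the closed sum of a subset is the sum along the closed walk** -/
theorem cf_code {w : ℕ → ℕ → ℕ} {u : ℕ → ℕ} {r : ℕ}
    (hinc : ∀ k, k + 1 < r + 2 → u k < u (k + 1)) : ∀ m, (∀ k < r + 2, u k < m) →
    cf w m (code u (r + 2)) = ∑ k ∈ range (r + 1), w (u k) (u (k + 1)) + w (u 0) (u (r + 1)) := by
  intro m
  induction m with
  | zero => intro h; have := h 0 (by omega); omega
  | succ m ih =>
    intro h
    unfold cf
    by_cases hm : ∀ k < r + 2, u k < m
    · rw [if_pos (code_lt hinc hm)]; exact ih hm
    · push Not at hm
      obtain ⟨k, hk, hm⟩ := hm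
      have h1 : u (r + 1) = m := by
        have a1 := h (r + 1) (by omega)
        have a2 := h k hk
        rcases Nat.lt_or_ge k (r + 1) with h3 | h3
        · have := inc_lt hinc (r + 1) (by omega) k h3; omega
        · have : k = r + 1 := by omega
          rw [this] at hm; omega
      have h2 : ¬ code u (r + 2) < 2 ^ m := by
        rw [code_succ, h1]; omega
      have e2 : code u (r + 2) - 2 ^ m = code u (r + 1) := by rw [← h1]; exact code_split u (r + 1)
      have hlt : ∀ k < r + 1, u k < m := by
        intro k hk
        have := inc_lt hinc (r + 1) (by omega) k hk; omega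
      rw [if_neg h2, e2, pf_code m r (fun k hk => hinc k (by omega)) hlt,
        tf_code (fun k hk => hinc k (by omega)) m hlt, lf_code m r (fun k hk => hinc k (by omega)) hlt,
        sum_range_succ _ r]
      simp only [h1]

end Pool.Agent.Helper66.Kiss.Pk
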