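import Pool.Agent.Helper66.Kiss.Lift
import Pool.Agent.Helper66.Kiss.PackSem

set_option autoImplicit false

/-! # Soundness of the packed test -/

namespace Pool.Agent.Helper66.Kiss.Pk

open Real Finset

/-- entry of an unordered pair -/
def ee (w : ℕ → ℕ → ℕ) (i j : ℕ) : ℕ := if i < j then w i j else w j i

lemma ee_comm (w : ℕ → ℕ → ℕ) (i j : ℕ) : ee w i j = ee w j i := by
  unfold ee
  rcases lt_trichotomy i j with h | h | h
  · rw [if_pos h, if_neg (by omega)]
  · rw [h]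
  · rw [if_neg (by omega), if_pos h]

/-- closed sums for walks in normal form -/
theorem closed_sum {n : ℕ} (hn : 0 < n) {w : ℕ → ℕ → ℕ} {u : ℕ → ℕ} {r : ℕ} (hr : 2 ≤ r)
    (hv : IsWalk n u r) (he : u r = u 0 + n) (hlt : ∀ k < r, u k < n) :
    ∑ k ∈ range r, ee w (clN n hn (u k)).val (clN n hn (u (k + 1))).val = cf w n (code u r) := by
  obtain ⟨q, rfl⟩ : ∃ q, r = q + 2 := ⟨r - 2, by omega⟩
  have hinc : ∀ k, k + 1 < q + 2 → u k < u (k + 1) := fun k hk => (hv k (by omega)).1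
  rw [cf_code hinc n hlt, sum_range_succ]
  congr 1
  · refine sum_congr rfl fun k hk => ?_
    have hk' := mem_range.1 hk
    rw [clN_of_lt hn (hlt k (by omega)), clN_of_lt hn (hlt (k + 1) (by omega))]
    unfold ee
    rw [if_pos (hinc k (by omega))]
  · rw [show q + 1 + 1 = q + 2 by ring, he, clN_add, clN_of_lt hn (hlt 0 (by omega)),
      clN_of_lt hn (hlt (q + 1) (by omega))]
    have := inc_lt hinc (q + 1) (by omega) 0 (by omega)
    unfold ee
    rw [if_neg (by simp only; omega)]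

/-- number of ones -/
def popc : ℕ → ℕ → ℕ
  | 0, _ => 0
  | m + 1, S => if S < 2 ^ m then popc m S else popc m (S - 2 ^ m) + 1

lemma popc_code {u : ℕ → ℕ} : ∀ m r, (∀ k, k + 1 < r → u k < u (k + 1)) → (∀ k < r, u k < m) →
    popc m (code u r) = r := by
  intro m
  induction m with
  | zero =>
    intro r _ h
    rcases Nat.eq_zero_or_pos r with h1 | h1
    · subst h1; rfl
    · have := h 0 h1; omega
  | succ m ih =>
    intro r hinc h
    unfold popc
    by_cases hm : ∀ k < r, u k < m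
    · rw [if_pos (code_lt hinc hm)]; exact ih r hinc hm
    · push Not at hm
      obtain ⟨k, hk, hm⟩ := hm
      obtain ⟨q, rfl⟩ : ∃ q, r = q + 1 := ⟨r - 1, by omega⟩
      have h1 : u q = m := by
        have a1 := h q (by omega)
        have a2 := h k hk
        rcases Nat.lt_or_ge k q with h3 | h3
        · have := inc_lt hinc q (by omega) k h3; omega
        · have : k = q := by omega
          rw [this] at hm; omega
      have h2 : ¬ code u (q + 1) < 2 ^ m := by
        rw [code_succ, h1]; omega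
      have e2 : code u (q + 1) - 2 ^ m = code u q := by rw [← h1]; exact code_split u q
      rw [if_neg h2, e2, ih q (fun k hk => hinc k (by omega)) (by
        intro k hk
        have := inc_lt hinc q (by omega) k hk; omega)]

lemma popc_le : ∀ m S, popc m S ≤ m := by
  intro m
  induction m with
  | zero => intro _; exact le_rfl
  | succ m ih =>
    intro S; unfold popc
    split_ifs
    · have := ih S; omega
    · have := ih (S - 2 ^ m); omega

/-- the lane test with a general mask -/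
lemma test_mask {f : ℕ → ℕ} {m K : ℕ} (hf : ∀ S < m, f S < 2 ^ 48)
    (h : (vec f m &&& (vec f m >>> 28)) &&& K = 0) {S : ℕ} (hS : S < m)
    (hK : K.testBit (48 * S + 19) = true) :
    ¬ ((f S).testBit 19 = true ∧ (f S).testBit 47 = true) := by
  rintro ⟨h1, h2⟩
  have h3 : ((vec f m &&& (vec f m >>> 28)) &&& K).testBit (48 * S + 19) = true := by
    rw [Nat.testBit_and, Nat.testBit_and, Nat.testBit_shiftRight,
      show 28 + (48 * S + 19) = 48 * S + 47 by ring, vec_testBit hf hS (by norm_num),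
      vec_testBit hf hS (by norm_num), h1, h2, hK]
    rfl
  rw [h] at h3
  simp at h3

/-- decomposition of the entries -/
structure WF (n : ℕ) (w D R : ℕ → ℕ → ℕ) : Prop where
  eq : ∀ i j, i < j → j < n → w i j = D i j + R i j * 2 ^ 20
  dl : ∀ i j, i < j → j < n → D i j ≤ 2 ^ 15
  rl : ∀ i j, i < j → j < n → R i j ≤ 2 ^ 24

/-- base of the ordinary test -/
def baseF (n : ℕ) (S : ℕ) : ℕ := (2 ^ 19 - 65536) + (2 ^ 27 - 2 ^ 23 * popc n S) * 2 ^ 20

lemma tf_congr {f g : ℕ → ℕ} : ∀ {t : ℕ}, (∀ i < t, f i = g i) → ∀ S, tf f t S = tf g t S := by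
  intro t
  induction t with
  | zero => intro _ _; rfl
  | succ t ih =>
    intro h S; unfold tf
    rw [ih (fun i hi => h i (by omega)), h t (by omega)]

lemma lf_congr {f g : ℕ → ℕ} : ∀ {t : ℕ}, (∀ i < t, f i = g i) → ∀ S, lf f t S = lf g t S := by
  intro t
  induction t with
  | zero => intro _ _; rfl
  | succ t ih =>
    intro h S; unfold lf
    rw [ih (fun i hi => h i (by omega)), ih (fun i hi => h i (by omega)), h t (by omega)]

lemma pf_congr {f g : ℕ → ℕ → ℕ} : ∀ {k : ℕ}, (∀ i j, i < j → j < k → f i j = g i j) →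
    ∀ S, pf f k S = pf g k S := by
  intro k
  induction k with
  | zero => intro _ _; rfl
  | succ k ih =>
    intro h S; unfold pf
    rw [ih (fun i j h1 h2 => h i j h1 (by omega)), ih (fun i j h1 h2 => h i j h1 (by omega)),
      tf_congr (fun i hi => h i k hi (by omega))]

lemma cf_congr {f g : ℕ → ℕ → ℕ} : ∀ {k : ℕ}, (∀ i j, i < j → j < k → f i j = g i j) →
    ∀ S, cf f k S = cf g k S := by
  intro k
  induction k with
  | zero => intro _ _; rfl
  | succ k ih =>
    intro h S; unfold cf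
    rw [ih (fun i j h1 h2 => h i j h1 (by omega)), pf_congr (fun i j h1 h2 => h i j h1 (by omega)),
      tf_congr (fun i hi => h i k hi (by omega)), lf_congr (fun i hi => h i k hi (by omega))]

lemma tf_lin (f g : ℕ → ℕ) (c : ℕ) : ∀ t S, tf (fun i => f i + g i * c) t S =
    tf f t S + tf g t S * c := by
  intro t
  induction t with
  | zero => intro _; simp [tf]
  | succ t ih => intro S; unfold tf; split_ifs <;> simp [ih]

lemma lf_lin (f g : ℕ → ℕ) (c : ℕ) : ∀ t S, lf (fun i => f i + g i * c) t S =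
    lf f t S + lf g t S * c := by
  intro t
  induction t with
  | zero => intro _; simp [lf]
  | succ t ih => intro S; unfold lf; split_ifs <;> simp [ih]

lemma pf_lin (f g : ℕ → ℕ → ℕ) (c : ℕ) : ∀ k S, pf (fun i j => f i j + g i j * c) k S =
    pf f k S + pf g k S * c := by
  intro k
  induction k with
  | zero => intro _; simp [pf]
  | succ k ih =>
    intro S; unfold pf
    split_ifs
    · exact ih S
    · rw [ih, tf_lin (fun i => f i k) (fun i => g i k)]; ring

lemma cf_lin (f g : ℕ → ℕ → ℕ) (c : ℕ) : ∀ k S, cf (fun i j => f i j + g i j * c) k S =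
    cf f k S + cf g k S * c := by
  intro k
  induction k with
  | zero => intro _; simp [cf]
  | succ k ih =>
    intro S; unfold cf
    split_ifs
    · exact ih S
    · rw [pf_lin, tf_lin (fun i => f i k) (fun i => g i k),
        lf_lin (fun i => f i k) (fun i => g i k)]; ring

lemma tf_le {f : ℕ → ℕ} {B : ℕ} : ∀ {t : ℕ}, (∀ i < t, f i ≤ B) → ∀ S, tf f t S ≤ B := by
  intro t
  induction t with
  | zero => intro _ _; exact Nat.zero_le _
  | succ t ih =>
    intro h S; unfold tf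
    split_ifs
    · exact ih (fun i hi => h i (by omega)) S
    · exact h t (by omega)

lemma lf_le {f : ℕ → ℕ} {B : ℕ} : ∀ {t : ℕ}, (∀ i < t, f i ≤ B) → ∀ S, lf f t S ≤ B := by
  intro t
  induction t with
  | zero => intro _ _; exact Nat.zero_le _
  | succ t ih =>
    intro h S; unfold lf
    split_ifs
    · exact ih (fun i hi => h i (by omega)) S
    · exact h t (by omega)
    · exact ih (fun i hi => h i (by omega)) _

lemma pf_le {f : ℕ → ℕ → ℕ} {B : ℕ} : ∀ {k : ℕ}, (∀ i j, i < j → j < k → f i j ≤ B) →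
    ∀ S, pf f k S ≤ popc k S * B := by
  intro k
  induction k with
  | zero => intro _ _; exact Nat.zero_le _
  | succ k ih =>
    intro h S; unfold pf popc
    split_ifs
    · exact ih (fun i j h1 h2 => h i j h1 (by omega)) S
    · have h1 := ih (fun i j h1 h2 => h i j h1 (by omega)) (S - 2 ^ k)
      have h2 := tf_le (f := fun i => f i k) (B := B) (t := k) (fun i hi => h i k hi (by omega))
        (S - 2 ^ k)
      rw [Nat.add_mul, one_mul]
      omega

lemma cf_le {f : ℕ → ℕ → ℕ} {B : ℕ} : ∀ {k : ℕ}, (∀ i j, i < j → j < k → f i j ≤ B) →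
    ∀ S, cf f k S ≤ (popc k S + 1) * B := by
  intro k
  induction k with
  | zero => intro _ _; exact Nat.zero_le _
  | succ k ih =>
    intro h S; unfold cf popc
    split_ifs
    · exact ih (fun i j h1 h2 => h i j h1 (by omega)) S
    · have h1 := pf_le (k := k) (fun i j h1 h2 => h i j h1 (by omega)) (S - 2 ^ k)
      have h2 := tf_le (f := fun i => f i k) (B := B) (t := k) (fun i hi => h i k hi (by omega))
        (S - 2 ^ k)
      have h3 := lf_le (f := fun i => f i k) (B := B) (t := k) (fun i hi => h i k hi (by omega))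
        (S - 2 ^ k)
      rw [Nat.add_mul, Nat.add_mul, one_mul]
      omega

section

variable {n : ℕ} {w D R : ℕ → ℕ → ℕ}

lemma cf_split (hw : WF n w D R) (S : ℕ) : cf w n S = cf D n S + cf R n S * 2 ^ 20 := by
  rw [cf_congr (g := fun i j => D i j + R i j * 2 ^ 20) (fun i j h1 h2 => hw.eq i j h1 h2), cf_lin]

/-- decoding a lane -/
lemma lane_bits (hw : WF n w D R) (hn : n ≤ 11) (S : ℕ) {cD cR : ℕ} (hD : cD ≤ 2 ^ 17)
    (hR : cR ≤ 2 ^ 25) :
    cf w n S + (cD + (2 ^ 19 - 65536 - 2 ^ 16)) +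
      (cR + (2 ^ 27 - 2 ^ 24 - 2 ^ 23 * popc n S)) * 2 ^ 20 < 2 ^ 48 ∧
    (2 ^ 19 ≤ cf D n S + (cD + (2 ^ 19 - 65536 - 2 ^ 16)) →
      2 ^ 27 ≤ cf R n S + (cR + (2 ^ 27 - 2 ^ 24 - 2 ^ 23 * popc n S)) →
      (cf w n S + (cD + (2 ^ 19 - 65536 - 2 ^ 16)) +
        (cR + (2 ^ 27 - 2 ^ 24 - 2 ^ 23 * popc n S)) * 2 ^ 20).testBit 19 = true ∧
      (cf w n S + (cD + (2 ^ 19 - 65536 - 2 ^ 16)) +
        (cR + (2 ^ 27 - 2 ^ 24 - 2 ^ 23 * popc n S)) * 2 ^ 20).testBit 47 = true) := by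
  have h1 := cf_le (f := D) (B := 2 ^ 15) (k := n) (fun i j h1 h2 => hw.dl i j h1 h2) S
  have h2 := cf_le (f := R) (B := 2 ^ 24) (k := n) (fun i j h1 h2 => hw.rl i j h1 h2) S
  have hp := popc_le n S
  have hp11 : popc n S ≤ 11 := hp.trans hn
  set a := cf D n S + (cD + (2 ^ 19 - 65536 - 2 ^ 16)) with ha
  set b := cf R n S + (cR + (2 ^ 27 - 2 ^ 24 - 2 ^ 23 * popc n S)) with hb
  have hal : a < 2 ^ 20 := by
    have : (popc n S + 1) * 2 ^ 15 ≤ 12 * 2 ^ 15 := Nat.mul_le_mul_right _ (by omega)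
    rw [ha]; omega
  have hbl : b < 2 ^ 28 := by
    rw [hb]
    have e : (popc n S + 1) * 2 ^ 24 = 2 ^ 24 * popc n S + 2 ^ 24 := by ring
    rw [e] at h2
    have : 2 ^ 23 * popc n S ≤ 2 ^ 23 * 11 := Nat.mul_le_mul_left _ hp11
    omega
  have e : cf w n S + (cD + (2 ^ 19 - 65536 - 2 ^ 16)) +
      (cR + (2 ^ 27 - 2 ^ 24 - 2 ^ 23 * popc n S)) * 2 ^ 20 = a + b * 2 ^ 20 := by
    rw [cf_split hw, ha, hb]; ring
  rw [e]
  refine ⟨?_, fun h3 h4 => ⟨bit_lo hal h3, bit_hi hal hbl h4⟩⟩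
  have : b * 2 ^ 20 ≤ (2 ^ 28 - 1) * 2 ^ 20 := Nat.mul_le_mul_right _ (by omega)
  omega

/-- base of the tests -/
def baseG (n : ℕ) (S : ℕ) : ℕ :=
  (2 ^ 19 - 65536 - 2 ^ 16) + (2 ^ 27 - 2 ^ 24 - 2 ^ 23 * popc n S) * 2 ^ 20

/-- **the general test** -/
theorem test_general (hw : WF n w D R) (hn : n ≤ 11) {cD cR K : ℕ} (hD : cD ≤ 2 ^ 17)
    (hR : cR ≤ 2 ^ 25)
    (h : ((vec (cf w n) (2 ^ n) + vec (baseG n) (2 ^ n) + (cD + cR * 2 ^ 20) * vec (fun _ => 1) (2 ^ n))
      &&& ((vec (cf w n) (2 ^ n) + vec (baseG n) (2 ^ n) +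
        (cD + cR * 2 ^ 20) * vec (fun _ => 1) (2 ^ n)) >>> 28)) &&& K = 0)
    {S : ℕ} (hS : S < 2 ^ n) (hK : K.testBit (48 * S + 19) = true) :
    ¬ (65536 + 2 ^ 16 ≤ cf D n S + cD ∧ 2 ^ 23 * popc n S + 2 ^ 24 ≤ cf R n S + cR) := by
  rw [vec_add, vec_mul, vec_add] at h
  have e : ∀ S, cf w n S + baseG n S + (cD + cR * 2 ^ 20) * 1 =
      cf w n S + (cD + (2 ^ 19 - 65536 - 2 ^ 16)) +
        (cR + (2 ^ 27 - 2 ^ 24 - 2 ^ 23 * popc n S)) * 2 ^ 20 := by
    intro S; unfold baseG; ring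
  have h1 := test_mask (fun S _ => by rw [e]; exact (lane_bits hw hn S hD hR).1) h hS hK
  rw [e] at h1
  rintro ⟨h2, h3⟩
  have hp11 : popc n S ≤ 11 := (popc_le n S).trans hn
  have h4 : 2 ^ 23 * popc n S ≤ 2 ^ 23 * 11 := Nat.mul_le_mul_left _ hp11
  exact h1 ((lane_bits hw hn S hD hR).2 (by omega) (by omega))

/-- sums of parts along a walk in normal form -/
lemma closed_DR (hn : 0 < n) {u : ℕ → ℕ} {r : ℕ} (hr : 2 ≤ r) (hv : IsWalk n u r)
    (he : u r = u 0 + n) (hlt : ∀ k < r, u k < n) (f : ℕ → ℕ → ℕ) :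
    cf f n (code u r) = ∑ k ∈ range r, ee f (clN n hn (u k)).val (clN n hn (u (k + 1))).val :=
  (closed_sum hn hr hv he hlt).symm

lemma walk_two_le {n : ℕ} {u : ℕ → ℕ} {r : ℕ} (hn : 0 < n) (hv : IsWalk n u r)
    (he : u r = u 0 + n) : 2 ≤ r := by
  rcases Nat.lt_or_ge r 2 with h | h
  · interval_cases r
    · omega
    · have := (hv 0 (by omega)).2
      rw [zero_add] at this
      omega
  · exact h

lemma walk_code_lt {n : ℕ} {u : ℕ → ℕ} {r : ℕ} (hv : IsWalk n u r) (hlt : ∀ k < r, u k < n) :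
    code u r < 2 ^ n := code_lt (fun k hk => (hv k (by omega)).1) hlt

lemma walk_popc {n : ℕ} {u : ℕ → ℕ} {r : ℕ} (hv : IsWalk n u r) (hlt : ∀ k < r, u k < n) :
    popc n (code u r) = r := popc_code n r (fun k hk => (hv k (by omega)).1) hlt

end

end Pool.Agent.Helper66.Kiss.Pk
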