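import Pool.Agent.Helper66.Kiss.PoleF
import Pool.Agent.Helper66.Kiss.PackTest

set_option autoImplicit false

/-! # From the packed tests to the walk conditions -/

namespace Pool.Agent.Helper66.Kiss.Pk

open Real Set Filter Topology

section

variable {n : ℕ} {z : Fin n → ℝ} {F : (Fin n → ℝ) → ℝ → Fin n → ℝ} {lo hi : Fin n → ℝ}

lemma rate_comm (z w v v' : ℝ) : rate z w v v' = rate w z v' v := by
  unfold rate; rw [nr_comm, rt_comm]

lemma EBs_symm {i j : Fin n} {c : ℝ} (h : EBs z F lo hi i j c) : EBs z F lo hi j i c := by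
  rcases h with h | ⟨h2, h3⟩
  · left
    refine ⟨fun h1 => ?_, fun h1 => ?_⟩
    · rw [RR_comm] at h1
      obtain ⟨a1, a2, a3, a4⟩ := h.1 h1
      exact ⟨by rw [rate_comm]; exact a1, by rw [rate_comm]; exact a3, by rw [rate_comm]; exact a2,
        by rw [rate_comm]; exact a4⟩
    · rw [RR_comm] at h1
      obtain ⟨a1, a2, a3, a4⟩ := h.2 h1
      exact ⟨by rw [nr_comm]; exact a1, by rw [nr_comm]; exact a3, by rw [nr_comm]; exact a2,
        by rw [nr_comm]; exact a4⟩
  · exact Or.inr ⟨h2.symm, h3⟩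

lemma EBs_mono {i j : Fin n} {c c' : ℝ} (h : EBs z F lo hi i j c) (hc : c ≤ c') :
    EBs z F lo hi i j c' := by
  rcases h with h | ⟨h1, h3⟩
  · left
    refine ⟨fun h1 => ?_, h.2⟩
    obtain ⟨a1, a2, a3, a4⟩ := h.1 h1
    exact ⟨a1.trans hc, a2.trans hc, a3.trans hc, a4.trans hc⟩
  · exact Or.inr ⟨h1, h3.trans hc⟩

/-- predicates transfer when all sums agree -/
lemma all_of_sums {X : Type*} {r : ℕ} {κ κ' : ℕ → X}
    (h : ∀ f : X → X → ℝ, ∑ k ∈ Finset.range r, f (κ' k) (κ' (k + 1)) =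
      ∑ k ∈ Finset.range r, f (κ k) (κ (k + 1)))
    {Q : X → X → Prop} (hQ : ∀ k < r, Q (κ' k) (κ' (k + 1))) : ∀ k < r, Q (κ k) (κ (k + 1)) := by
  classical
  intro k hk
  by_contra hcon
  have h1 := h fun i j => if Q i j then 0 else 1
  have h2 : ∑ k ∈ Finset.range r, (if Q (κ' k) (κ' (k + 1)) then (0 : ℝ) else 1) = 0 :=
    Finset.sum_eq_zero fun k hk => if_pos (hQ k (Finset.mem_range.1 hk))
  rw [h2] at h1
  have h3 : (0 : ℝ) < ∑ k ∈ Finset.range r, (if Q (κ k) (κ (k + 1)) then (0 : ℝ) else 1) := by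
    refine Finset.sum_pos' (fun i _ => by split_ifs <;> norm_num) ⟨k, Finset.mem_range.2 hk, ?_⟩
    rw [if_neg hcon]; norm_num
  linarith

/-- what the numbers of a pair mean -/
def POK (z : Fin n → ℝ) (F : (Fin n → ℝ) → ℝ → Fin n → ℝ) (lo hi : Fin n → ℝ) (ρ : ℝ) (i j : Fin n)
    (D R : ℕ) : Prop :=
  1 < RR (z i) (z j) ∨ (wd (z i) (z j) ≤ D * (π / 32768) ∧
    (2 ^ 23 + 2 ^ 22 + 2 ^ 21 ≤ R ∨ (2 ^ 23 - 2 ^ 18 ≤ R ∧
      EBs z F lo hi i j (((R : ℝ) - 2 ^ 23) * ρ))))

lemma POK.symm {ρ : ℝ} {i j : Fin n} {D R : ℕ} (h : POK z F lo hi ρ i j D R) :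
    POK z F lo hi ρ j i D R := by
  unfold POK at h ⊢
  rw [RR_comm, wd_comm]
  rcases h with h | ⟨h1, h2 | ⟨h2, h3⟩⟩
  · exact Or.inl h
  · exact Or.inr ⟨h1, Or.inl h2⟩
  · exact Or.inr ⟨h1, Or.inr ⟨h2, EBs_symm h3⟩⟩

variable {w D R : ℕ → ℕ → ℕ} {ρ : ℝ}

/-- the same for unordered pairs -/
lemma pok_ee (hp : ∀ i j : Fin n, i < j → POK z F lo hi ρ i j (D i j) (R i j)) {i j : Fin n}
    (hij : i ≠ j) : POK z F lo hi ρ i j (ee D i.val j.val) (ee R i.val j.val) := by
  unfold ee
  rcases lt_or_gt_of_ne hij with h | h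
  · have h' : i.val < j.val := h
    rw [if_pos h', if_pos h']; exact hp i j h
  · have h' : ¬ i.val < j.val := by
      have : j.val < i.val := h
      omega
    rw [if_neg h', if_neg h']
    exact (hp j i h).symm

/-- no closed walk fails the numerical test -/
def WalkOK (n : ℕ) (hn : 0 < n) (D R : ℕ → ℕ → ℕ) : Prop :=
  ∀ (v : ℕ → ℕ) (r : ℕ), IsWalk n v r → v r = v 0 + n →
    ¬ (65536 ≤ ∑ k ∈ Finset.range r, ee D (clN n hn (v k)).val (clN n hn (v (k + 1))).val ∧
      2 ^ 23 * r ≤ ∑ k ∈ Finset.range r, ee R (clN n hn (v k)).val (clN n hn (v (k + 1))).val)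

lemma nat_sum_eq {hn : 0 < n} {u v : ℕ → ℕ} {r : ℕ}
    (u4 : ∀ f : Fin n → Fin n → ℝ,
        ∑ k ∈ Finset.range r, f (clN n hn (u k)) (clN n hn (u (k + 1))) =
          ∑ k ∈ Finset.range r, f (clN n hn (v k)) (clN n hn (v (k + 1)))) (f : ℕ → ℕ → ℕ) :
    ∑ k ∈ Finset.range r, ee f (clN n hn (u k)).val (clN n hn (u (k + 1))).val =
      ∑ k ∈ Finset.range r, ee f (clN n hn (v k)).val (clN n hn (v (k + 1))).val := by
  have h1 := u4 fun i j => ((ee f i.val j.val : ℕ) : ℝ)
  exact_mod_cast h1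

/-- **ordinary walks** -/
theorem walkOK_of_test (hn : 0 < n) (hn11 : n ≤ 11) (hw : WF n w D R) {K : ℕ}
    (hK : ∀ S < 2 ^ n, K.testBit (48 * S + 19) = true)
    (h : ((vec (cf w n) (2 ^ n) + vec (baseG n) (2 ^ n) +
        (2 ^ 16 + 2 ^ 24 * 2 ^ 20) * vec (fun _ => 1) (2 ^ n))
      &&& ((vec (cf w n) (2 ^ n) + vec (baseG n) (2 ^ n) +
        (2 ^ 16 + 2 ^ 24 * 2 ^ 20) * vec (fun _ => 1) (2 ^ n)) >>> 28)) &&& K = 0) :
    WalkOK n hn D R := by
  intro v r hv he
  have hr2 := walk_two_le hn hv he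
  obtain ⟨u, u1, u2, u3, u4, -⟩ := walk_normal hn (by omega) hv he
  have htest := test_general hw hn11 (cD := 2 ^ 16) (cR := 2 ^ 24) (by norm_num) (by norm_num) h
    (walk_code_lt u1 u3) (hK _ (walk_code_lt u1 u3))
  rw [walk_popc u1 u3, closed_DR hn hr2 u1 u2 u3, closed_DR hn hr2 u1 u2 u3,
    nat_sum_eq u4, nat_sum_eq u4] at htest
  rintro ⟨h1, h2⟩
  exact htest ⟨by omega, by omega⟩

/-- sums of numbers of a path without free edges -/
lemma path_data {v : ℕ → ℕ} {r q : ℕ} (hn : 0 < n) (hv : IsWalk n v r) (hq : q ≤ r)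
    (hp : ∀ i j : Fin n, i < j → POK z F lo hi ρ i j (D i j) (R i j))
    (hE : ∀ k < q, RR (z (clN n hn (v k))) (z (clN n hn (v (k + 1)))) ≤ 1) :
    twn z (fun k => clN n hn (v k)) q ≤
      (∑ k ∈ Finset.range q, ee D (clN n hn (v k)).val (clN n hn (v (k + 1))).val : ℕ) *
        (π / 32768) ∧
    (∀ B : ℕ, ∑ k ∈ Finset.range q, ee R (clN n hn (v k)).val (clN n hn (v (k + 1))).val <
        2 ^ 23 * q + B → B + 2 ^ 18 * (q - 1) ≤ 2 ^ 22 + 2 ^ 21 →
      ∀ k < q, EBs z F lo hi (clN n hn (v k)) (clN n hn (v (k + 1)))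
        (((ee R (clN n hn (v k)).val (clN n hn (v (k + 1))).val : ℕ) - 2 ^ 23) * ρ)) := by
  have hne : ∀ k < q, clN n hn (v k) ≠ clN n hn (v (k + 1)) := fun k hk =>
    clN_step_ne hn (hv k (by omega))
  have hpk : ∀ k < q, wd (z (clN n hn (v k))) (z (clN n hn (v (k + 1)))) ≤
      (ee D (clN n hn (v k)).val (clN n hn (v (k + 1))).val : ℕ) * (π / 32768) ∧
      (2 ^ 23 + 2 ^ 22 + 2 ^ 21 ≤ ee R (clN n hn (v k)).val (clN n hn (v (k + 1))).val ∨
        (2 ^ 23 - 2 ^ 18 ≤ ee R (clN n hn (v k)).val (clN n hn (v (k + 1))).val ∧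
          EBs z F lo hi (clN n hn (v k)) (clN n hn (v (k + 1)))
            (((ee R (clN n hn (v k)).val (clN n hn (v (k + 1))).val : ℕ) - 2 ^ 23) * ρ))) := by
    intro k hk
    rcases pok_ee hp (hne k hk) with h | h
    · have := hE k hk; linarith
    · exact h
  constructor
  · unfold twn
    rw [Nat.cast_sum, Finset.sum_mul]
    exact Finset.sum_le_sum fun k hk => (hpk k (Finset.mem_range.1 hk)).1
  · intro B hB hB2 k0 hk0
    rcases (hpk k0 hk0).2 with hb | ⟨-, h⟩
    swap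
    · exact h
    exfalso
    have h1 : ∑ k ∈ Finset.range q, ((2 ^ 23 - 2 ^ 18) + if k = k0 then 2 ^ 22 + 2 ^ 21 + 2 ^ 18 else 0) ≤
        ∑ k ∈ Finset.range q, ee R (clN n hn (v k)).val (clN n hn (v (k + 1))).val := by
      refine Finset.sum_le_sum fun k hk => ?_
      by_cases hkk : k = k0
      · subst hkk; rw [if_pos rfl]; omega
      · rw [if_neg hkk]
        rcases (hpk k (Finset.mem_range.1 hk)).2 with h | ⟨h, -⟩ <;> omega
    rw [Finset.sum_add_distrib, Finset.sum_const, Finset.card_range, smul_eq_mul,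
      Finset.sum_ite_eq', if_pos (Finset.mem_range.2 hk0)] at h1
    omega

/-- **constants for closed walks** -/
theorem consts_of_walkOK (hn : 0 < n) (hn11 : n ≤ 11) (hρ : 0 < ρ)
    (hp : ∀ i j : Fin n, i < j → POK z F lo hi ρ i j (D i j) (R i j)) (hW : WalkOK n hn D R)
    {v : ℕ → ℕ} {r : ℕ} (hv : IsWalk n v r) (he : v r = v 0 + n)
    (hE : ∀ k < r, RR (z (clN n hn (v k))) (z (clN n hn (v (k + 1)))) ≤ 1)
    (ht : 2 * π ≤ twn z (fun k => clN n hn (v k)) r) :
    ∃ c : Fin n → Fin n → ℝ, (∀ k < r, EBs z F lo hi (clN n hn (v k)) (clN n hn (v (k + 1)))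
        (c (clN n hn (v k)) (clN n hn (v (k + 1))))) ∧
      ∑ k ∈ Finset.range r, c (clN n hn (v k)) (clN n hn (v (k + 1))) < 0 := by
  have hpi := Real.pi_pos
  obtain ⟨h1, h2⟩ := path_data (q := r) hn hv le_rfl hp hE
  have hr : r ≤ 11 := by
    have := isWalk_ge hv r le_rfl
    omega
  have hsD : 65536 ≤ ∑ k ∈ Finset.range r, ee D (clN n hn (v k)).val (clN n hn (v (k + 1))).val := by
    by_contra hcon
    push Not at hcon
    have h3 : ((∑ k ∈ Finset.range r,
        ee D (clN n hn (v k)).val (clN n hn (v (k + 1))).val : ℕ) : ℝ) < 65536 := by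
      exact_mod_cast hcon
    have := mul_lt_mul_of_pos_right h3 (by positivity : 0 < π / 32768)
    linarith
  have hsR : ∑ k ∈ Finset.range r, ee R (clN n hn (v k)).val (clN n hn (v (k + 1))).val <
      2 ^ 23 * r := by
    by_contra hcon
    push Not at hcon
    exact hW v r hv he ⟨hsD, hcon⟩
  refine ⟨fun i j => ((ee R i.val j.val : ℕ) - 2 ^ 23) * ρ, h2 0 (by omega) (by omega), ?_⟩
  rw [← Finset.sum_mul, Finset.sum_sub_distrib, Finset.sum_const, Finset.card_range,
    nsmul_eq_mul, ← Nat.cast_sum]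
  have h3 : ((∑ k ∈ Finset.range r,
      ee R (clN n hn (v k)).val (clN n hn (v (k + 1))).val : ℕ) : ℝ) < 2 ^ 23 * r := by
    exact_mod_cast hsR
  exact mul_neg_of_neg_of_pos (by linarith) hρ

end

/-! ## hops -/

section

variable {n : ℕ} {w D R : ℕ → ℕ → ℕ}

lemma code_bit {u : ℕ → ℕ} : ∀ (r : ℕ), (∀ k, k + 1 < r → u k < u (k + 1)) → ∀ j,
    ((code u r).testBit j = true ↔ ∃ k < r, u k = j) := by
  intro r
  induction r with
  | zero => intro _ j; unfold code; simp
  | succ r ih =>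
    intro hinc j
    have h1 : code u r < 2 ^ u r := code_lt (fun k hk => hinc k (by omega))
      (inc_lt hinc r (by omega))
    have e : code u (r + 1) = 2 ^ u r * 1 + code u r := by rw [code_succ]; ring
    rw [e, Nat.testBit_two_pow_mul_add _ h1]
    constructor
    · intro h
      split_ifs at h with h2
      · obtain ⟨k, hk, hj⟩ := (ih (fun k hk => hinc k (by omega)) j).1 h
        exact ⟨k, by omega, hj⟩
      · have h3 : j - u r = 0 := by
          rcases Nat.eq_zero_or_pos (j - u r) with h3 | h3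
          · exact h3
          · rw [Nat.testBit_lt_two_pow (Nat.one_lt_two_pow (by omega))] at h
            exact absurd h (by simp)
        exact ⟨r, by omega, by omega⟩
    · rintro ⟨k, hk, hj⟩
      rcases Nat.lt_or_ge k r with h2 | h2
      · have h3 := inc_lt hinc r (by omega) k h2
        rw [if_pos (by omega)]
        exact (ih (fun k hk => hinc k (by omega)) j).2 ⟨k, h2, hj⟩
      · have h3 : k = r := by omega
        rw [h3] at hj
        rw [if_neg (by omega), hj, Nat.sub_self]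
        rfl

/-- strictly between `l` and `m` in the cyclic order -/
def betw (l m j : ℕ) : Bool := if l < m then decide (l < j ∧ j < m) else decide (l < j ∨ j < m)

/-- the mask of the hop from `l` to `m` -/
def HopMask (n l m K : ℕ) : Prop := ∀ S < 2 ^ n, S.testBit l = true → S.testBit m = true →
  (∀ j < n, betw l m j = true → S.testBit j = false) → K.testBit (48 * S + 19) = true

/-- **the hop test** -/
theorem hop_test (hn : 0 < n) (hn11 : n ≤ 11) (hw : WF n w D R) {cD cR K A B l m : ℕ}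
    (hD : cD ≤ 2 ^ 17) (hR : cR ≤ 2 ^ 25) (hA : cD + ee D l m = A + 2 ^ 16)
    (hB : cR + ee R l m = 2 ^ 24 + 2 ^ 23 - 2 ^ 22 + B) (hK : HopMask n l m K)
    (h : ((vec (cf w n) (2 ^ n) + vec (baseG n) (2 ^ n) + (cD + cR * 2 ^ 20) * vec (fun _ => 1) (2 ^ n))
      &&& ((vec (cf w n) (2 ^ n) + vec (baseG n) (2 ^ n) +
        (cD + cR * 2 ^ 20) * vec (fun _ => 1) (2 ^ n)) >>> 28)) &&& K = 0)
    {v : ℕ → ℕ} {q : ℕ} (hv : IsWalk n v (q + 1)) (he : v (q + 1) = v 0 + n)
    (h0 : (clN n hn (v 0)).val = m) (hq : (clN n hn (v q)).val = l) :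
    ¬ (65536 ≤ ∑ k ∈ Finset.range q, ee D (clN n hn (v k)).val (clN n hn (v (k + 1))).val + A ∧
      2 ^ 23 * q + 2 ^ 22 ≤
        ∑ k ∈ Finset.range q, ee R (clN n hn (v k)).val (clN n hn (v (k + 1))).val + B) := by
  have hr2 := walk_two_le hn hv he
  obtain ⟨u, u1, u2, u3, u4, u5⟩ := walk_normal hn (by omega) hv he
  -- nodes of the two walks
  have hnodes : ∀ x : Fin n, (∃ k < q + 1, clN n hn (u k) = x) ↔ ∃ k < q + 1, clN n hn (v k) = x := by
    intro x
    constructor
    · rintro ⟨k, hk, hx⟩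
      by_contra hcon
      push Not at hcon
      exact u5 (fun i _ => i ≠ x) hcon k hk hx
    · rintro ⟨k, hk, hx⟩
      by_contra hcon
      push Not at hcon
      exact all_of_sums (κ' := fun k => clN n hn (u k)) (κ := fun k => clN n hn (v k)) u4
        (Q := fun i _ => i ≠ x) hcon k hk hx
  have hinc : ∀ k, k + 1 < q + 1 → u k < u (k + 1) := fun k hk => (u1 k (by omega)).1
  have hbit : ∀ x < n, (code u (q + 1)).testBit x = true ↔ ∃ k < q + 1, (v k) % n = x := by
    intro x hx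
    rw [code_bit (q + 1) hinc x]
    have h1 : (∃ k < q + 1, u k = x) ↔ ∃ k < q + 1, clN n hn (u k) = ⟨x, hx⟩ := by
      constructor
      · rintro ⟨k, hk, h⟩
        exact ⟨k, hk, by rw [clN_of_lt hn (u3 k hk)]; exact Fin.ext h⟩
      · rintro ⟨k, hk, h⟩
        refine ⟨k, hk, ?_⟩
        rw [clN_of_lt hn (u3 k hk)] at h
        exact congrArg Fin.val h
    rw [h1, hnodes]
    constructor
    · rintro ⟨k, hk, h⟩; exact ⟨k, hk, congrArg Fin.val h⟩
    · rintro ⟨k, hk, h⟩; exact ⟨k, hk, Fin.ext h⟩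
  have hmono : ∀ k j, k ≤ j → j ≤ q + 1 → v k ≤ v j := by
    intro k j hkj
    induction j with
    | zero => intro _; rw [Nat.le_zero.1 hkj]
    | succ j ih =>
      intro hj
      rcases Nat.lt_or_ge k (j + 1) with h | h
      · have := ih (by omega) (by omega)
        have := (hv j (by omega)).1
        omega
      · have : k = j + 1 := by omega
        rw [this]
  have hmn : m = v 0 % n := h0.symm
  have hln : l = v q % n := hq.symm
  have hbet : ∀ j < n, betw l m j = true → (code u (q + 1)).testBit j = false := by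
    intro j hj hb
    by_contra hcon
    rw [Bool.not_eq_false, hbit j hj] at hcon
    obtain ⟨k, hk, hkj⟩ := hcon
    have g1 := hmono 0 k (by omega) (by omega)
    have g2 := hmono k q (by omega) (by omega)
    have g3 := (hv q (by omega)).1
    have g4 := (hv q (by omega)).2
    rw [he] at g3 g4
    have d1 := Nat.div_add_mod (v 0) n
    have d2 := Nat.div_add_mod (v q) n
    have d3 := Nat.div_add_mod (v k) n
    have l1 := Nat.mod_lt (v 0) hn
    have l2 := Nat.mod_lt (v q) hn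
    have l3 := Nat.mod_lt (v k) hn
    rw [← hmn] at d1 l1
    rw [← hln] at d2 l2
    rw [hkj] at d3 l3
    have q1 : v 0 / n ≤ v k / n := Nat.div_le_div_right g1
    have q2 : v k / n ≤ v q / n := Nat.div_le_div_right g2
    have q3 : v q / n ≤ v 0 / n + 1 := by
      have := Nat.div_le_div_right (c := n) g3.le
      rwa [Nat.add_div_right _ hn] at this
    have e1 : n * (v 0 / n + 1) = n * (v 0 / n) + n := by ring
    unfold betw at hb
    rcases Nat.lt_or_ge (v 0 / n) (v q / n) with h5 | h5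
    · have h6 : v q / n = v 0 / n + 1 := by omega
      rw [h6, e1] at d2
      have hlm : l < m := by omega
      rw [if_pos hlm] at hb
      have hb' := of_decide_eq_true hb
      rcases Nat.lt_or_ge (v 0 / n) (v k / n) with h7 | h7
      · have h8 : v k / n = v 0 / n + 1 := by omega
        rw [h8, e1] at d3
        omega
      · have h8 : v k / n = v 0 / n := by omega
        rw [h8] at d3
        omega
    · have h6 : v q / n = v 0 / n := by omega
      have h8 : v k / n = v 0 / n := by omega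
      rw [h6] at d2
      rw [h8] at d3
      have hlm : ¬ l < m := by
        have := hmono 0 q (by omega) (by omega)
        omega
      rw [if_neg hlm] at hb
      have hb' := of_decide_eq_true hb
      omega
  have hcode := walk_code_lt u1 u3
  have hml : m < n := by rw [hmn]; exact Nat.mod_lt _ hn
  have hll : l < n := by rw [hln]; exact Nat.mod_lt _ hn
  have htest := test_general hw hn11 hD hR h hcode (hK _ hcode
    ((hbit l hll).2 ⟨q, by omega, hln.symm⟩) ((hbit m hml).2 ⟨0, by omega, hmn.symm⟩) hbet)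
  rw [walk_popc u1 u3, closed_DR hn hr2 u1 u2 u3, closed_DR hn hr2 u1 u2 u3] at htest
  have hsum : ∀ f : ℕ → ℕ → ℕ, ∑ k ∈ Finset.range (q + 1),
      ee f (clN n hn (u k)).val (clN n hn (u (k + 1))).val =
      ∑ k ∈ Finset.range q, ee f (clN n hn (v k)).val (clN n hn (v (k + 1))).val + ee f l m := by
    intro f
    have h1 := u4 fun i j => ((ee f i.val j.val : ℕ) : ℝ)
    have h2 : ∑ k ∈ Finset.range (q + 1),
        ee f (clN n hn (u k)).val (clN n hn (u (k + 1))).val =
        ∑ k ∈ Finset.range (q + 1), ee f (clN n hn (v k)).val (clN n hn (v (k + 1))).val := by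
      exact_mod_cast h1
    rw [h2, Finset.sum_range_succ, he, clN_add, h0, hq]
  rw [hsum D, hsum R] at htest
  rintro ⟨a1, a2⟩
  refine htest ⟨by omega, ?_⟩
  have : 2 ^ 23 * (q + 1) = 2 ^ 23 * q + 2 ^ 23 := by ring
  omega

end

end Pool.Agent.Helper66.Kiss.Pk
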