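import Pool.Agent.Helper66.Kiss.LeafG

set_option autoImplicit false

/-! # The second functional -/

namespace Pool.Agent.Helper66.Kiss

open Real Set Filter Topology Pk

/-- the penalty of a height which is not among the five largest -/
noncomputable def gB (x : ℝ) : ℝ := max (x + 1 / 2) (min (-x - 1 / 2) (1 / 4))

/-- sum of the five largest heights minus the penalties of the others -/
noncomputable def PhiB : (Fin 11 → ℝ) → ℝ := PhiAB (fun x => x) (fun x => -gB x)

lemma gB_cont : Continuous gB := by unfold gB; fun_prop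

lemma PhiB_cont : Continuous PhiB := PhiAB_cont continuous_id gB_cont.neg

lemma PhiB_perm (z : Fin 11 → ℝ) (τ : Equiv.Perm (Fin 11)) : PhiB (z ∘ τ) = PhiB z :=
  PhiAB_perm _ _ z τ

lemma gB_hi {x : ℝ} (h : -(1 / 2) ≤ x) : gB x = x + 1 / 2 := by
  unfold gB
  exact max_eq_left ((min_le_left _ _).trans (by linarith))

lemma gB_mid {x : ℝ} (h1 : -(3 / 4) ≤ x) (h2 : x ≤ -(1 / 2)) : gB x = -x - 1 / 2 := by
  unfold gB
  rw [min_eq_left (by linarith), max_eq_right (by linarith)]

lemma gB_lo {x : ℝ} (h : x ≤ -(3 / 4)) : gB x = 1 / 4 := by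
  unfold gB
  rw [min_eq_right (by linarith), max_eq_right (by linarith)]

/-- an optimal set consists of heights for which height plus penalty is largest -/
lemma PhiB_opt {z : Fin 11 → ℝ} {U : Finset (Fin 11)} (hU : U.card = 5)
    (h : ∑ k ∈ U, z k + ∑ k ∈ Uᶜ, -gB (z k) = PhiB z) {i j : Fin 11} (hi : i ∈ U) (hj : j ∉ U) :
    z j + gB (z j) ≤ z i + gB (z i) := by
  classical
  have hne : j ≠ i := fun e => hj (e ▸ hi)
  have hje : j ∉ U.erase i := fun h' => hj (Finset.mem_of_mem_erase h')
  set U' := insert j (U.erase i) with hU'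
  have hc : U'.card = 5 := by
    rw [hU', Finset.card_insert_of_notMem hje, Finset.card_erase_of_mem hi, hU]
  have h1 := le_PhiAB (A := fun x => x) (B := fun x => -gB x) z hc
  have hi' : i ∉ Uᶜ := by simpa using hi
  have hjc : j ∈ Uᶜ := by simpa using hj
  have hUc : U'ᶜ = insert i (Uᶜ.erase j) := by
    ext x
    simp only [hU', Finset.mem_compl, Finset.mem_insert, Finset.mem_erase, not_or, not_and]
    constructor
    · rintro ⟨a, b⟩
      by_cases hx : x = i
      · exact Or.inl hx
      · exact Or.inr ⟨a, b hx⟩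
    · rintro (rfl | ⟨a, b⟩)
      · exact ⟨Ne.symm hne, fun h => absurd rfl h⟩
      · exact ⟨a, fun _ => b⟩
  have hie : i ∉ Uᶜ.erase j := fun h' => hi' (Finset.mem_of_mem_erase h')
  rw [hUc, hU', Finset.sum_insert hje, Finset.sum_insert hie] at h1
  have e1 : z i + ∑ k ∈ U.erase i, z k = ∑ k ∈ U, z k := Finset.add_sum_erase U _ hi
  have e2 : -gB (z j) + ∑ k ∈ Uᶜ.erase j, -gB (z k) = ∑ k ∈ Uᶜ, -gB (z k) :=
    Finset.add_sum_erase Uᶜ (fun k => -gB (z k)) hjc
  have h2 : PhiAB (fun x => x) (fun x => -gB x) z = PhiB z := rfl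
  rw [h2] at h1
  linarith

/-- lower speed of minus the penalty -/
noncomputable def bB (v w x : ℝ) : ℝ :=
  if x < -(1 / 2) then hLo v w x else if x = -(1 / 2) then min (hLo v w x) (-hHi v w x)
  else -hHi v w x

lemma grLo_gB {v w z : Fin 11 → ℝ} (hvw : ∀ k, VW (v k) (w k)) (hz : ∀ k, z k ≤ 1 / 2)
    {k : Fin 11} (hk : -(3 / 4) < z k) :
    GrLo z (hF v w) (fun x => -gB x) k (bB (v k) (w k) (z k)) := by
  have hlaw := hF_law hvw hz
  unfold bB
  rcases lt_trichotomy (z k) (-(1 / 2)) with h | h | h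
  · rw [if_pos h]
    have := grLo_pos (ψ := fun x => -gB x) (c := 1) (d := 1 / 2) hlaw.start hlaw.near (hlaw.vel k)
      (by norm_num) (by
        filter_upwards [lt_mem_nhds hk, gt_mem_nhds h] with x h1 h2
        rw [gB_mid h1.le h2.le]; ring)
    rwa [one_mul] at this
  · rw [if_neg (by rw [h]; exact lt_irrefl _), if_pos h]
    have a1 := grLo_pos (ψ := fun x => x + 1 / 2) (c := 1) (d := 1 / 2) hlaw.start hlaw.near
      (hlaw.vel k) (by norm_num) (Eventually.of_forall fun x => by ring)
    have a2 := grLo_neg (ψ := fun x => -(x + 1 / 2)) (c := 1) (d := -(1 / 2)) hlaw.start hlaw.near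
      (hlaw.vel k) (by norm_num) (Eventually.of_forall fun x => by ring)
    have a3 := a1.min a2
    rw [one_mul, neg_one_mul] at a3
    intro γ hγ
    have c1 : Tendsto (fun p : (Fin 11 → ℝ) × ℝ => hF v w p.1 p.2 k) (𝓝 (z, 0)) (𝓝 (z k)) :=
      ((continuous_apply k).tendsto _).comp hlaw.near
    have c2 : Tendsto (fun p : (Fin 11 → ℝ) × ℝ => p.1 k) (𝓝 (z, 0)) (𝓝 (z k)) :=
      ((continuous_apply k).comp continuous_fst).tendsto' _ _ rfl
    have key : ∀ x : ℝ, -(3 / 4) ≤ x → -gB x = min (x + 1 / 2) (-(x + 1 / 2)) := by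
      intro x hx
      rcases le_total (-(1 / 2)) x with h1 | h1
      · rw [gB_hi h1, min_eq_right (by linarith)]
      · rw [gB_mid hx h1, min_eq_left (by linarith)]; ring
    filter_upwards [a3 γ hγ, c1.eventually (lt_mem_nhds hk), c2.eventually (lt_mem_nhds hk)] with
      p p1 p2 p3 ha h0
    have := p1 ha h0
    rw [key _ p2.le, key _ p3.le]
    exact this
  · rw [if_neg (by linarith), if_neg (ne_of_gt h)]
    have := grLo_neg (ψ := fun x => -gB x) (c := 1) (d := -(1 / 2)) hlaw.start hlaw.near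
      (hlaw.vel k) (by norm_num) (by
        filter_upwards [lt_mem_nhds h] with x h1
        rw [gB_hi h1.le]; ring)
    rwa [neg_one_mul] at this

lemma grLo_gB0 {v w z : Fin 11 → ℝ} (hvw : ∀ k, VW (v k) (w k)) (hz : ∀ k, z k ≤ 1 / 2)
    {k : Fin 11} (hk : z k < -(3 / 4)) : GrLo z (hF v w) (fun x => -gB x) k 0 := by
  have hlaw := hF_law hvw hz
  have := grLo_pos (ψ := fun x => -gB x) (c := 0) (d := -(1 / 4)) hlaw.start hlaw.near
    (hlaw.vel k) le_rfl (by
      filter_upwards [gt_mem_nhds hk] with x h1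
      rw [gB_lo h1.le]; ring)
  rwa [zero_mul] at this

/-- **growth of the second functional** -/
theorem grows_PhiB {z : Fin 11 → ℝ} {V W : Fin 10 → ℝ} {κ : ℝ} (hvw : ∀ l, VW (V l) (W l))
    (hz : ∀ k, z k ≤ 1 / 2) (h0 : z 0 < -(3 / 4)) (hlow : ∀ l : Fin 10, -(3 / 4) < z l.succ)
    (h5 : ∃ S : Finset (Fin 10), S.card = 5 ∧ ∀ l ∈ S, -(1 / 2) < z l.succ)
    (hg : ∀ U : Finset (Fin 10), U.card = 5 → (∀ i ∈ U, ∀ j, j ∉ U → z j.succ ≤ z i.succ) →
      0 < ∑ l ∈ U, hLo (V l) (W l) (z l.succ) + ∑ l ∈ Uᶜ, bB (V l) (W l) (z l.succ)) :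
    Grows z (hF (kV κ V) (kV κ W)) PhiB := by
  classical
  have hvw' := kV_VW (κ := κ) hvw
  have hlaw := hF_law (z := z) hvw' hz
  set a : Fin 11 → ℝ := fun k => hLo (kV κ V k) (kV κ W k) (z k) with ha
  set b : Fin 11 → ℝ := fun k => if k = 0 then 0 else bB (kV κ V k) (kV κ W k) (z k) with hb
  refine PhiAB_gain (A := fun x => x) (B := fun x => -gB x) (a := a) (b := b) continuous_id
    gB_cont.neg (fun k => grLo_id hlaw.start (hlaw.vel k)) ?_ ?_
  · intro k
    rcases Fin.eq_zero_or_eq_succ k with rfl | ⟨l, rfl⟩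
    · simp only [hb, if_true]
      exact grLo_gB0 hvw' hz h0
    · simp only [hb, if_neg (Fin.succ_ne_zero l)]
      exact grLo_gB hvw' hz (hlow l)
  · intro U hU hopt
    have hex := fun {i j : Fin 11} (hi : i ∈ U) (hj : j ∉ U) => PhiB_opt hU hopt hi hj
    obtain ⟨S, hS, hSh⟩ := h5
    -- all members are above the ring
    have hUh : ∀ i ∈ U, -(1 / 2) < z i := by
      intro i hi
      by_contra hcon
      push Not at hcon
      -- some height above the ring is not a member
      obtain ⟨l, hl, hlU⟩ : ∃ l ∈ S, l.succ ∉ U := by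
        by_contra hc
        push Not at hc
        have hsub : insert i (S.map (Fin.succEmb 10)) ⊆ U := by
          intro x hx
          rcases Finset.mem_insert.1 hx with rfl | hx
          · exact hi
          · obtain ⟨l, hl, rfl⟩ := Finset.mem_map.1 hx
            exact hc l hl
        have hni : i ∉ S.map (Fin.succEmb 10) := by
          intro hx
          obtain ⟨l, hl, e⟩ := Finset.mem_map.1 hx
          have := hSh l hl
          rw [← e] at hcon
          have e' : (Fin.succEmb 10) l = l.succ := rfl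
          rw [e'] at hcon
          linarith
        have := Finset.card_le_card hsub
        rw [Finset.card_insert_of_notMem hni, Finset.card_map, hS, hU] at this
        omega
      have h1 := hex hi hlU
      have h2 := hSh l hl
      rw [gB_hi h2.le] at h1
      have h3 : z i + gB (z i) ≤ -(1 / 2) := by
        rcases le_total (z i) (-(3 / 4)) with h | h
        · rw [gB_lo h]; linarith
        · rw [gB_mid h hcon]; linarith
      linarith
    have h0U : (0 : Fin 11) ∉ U := fun h => by have := hUh 0 h; linarith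
    have hord : ∀ i ∈ U, ∀ j, j ∉ U → z j ≤ z i := by
      intro i hi j hj
      by_contra hcon
      push Not at hcon
      have h1 := hex hi hj
      have h2 := hUh i hi
      rw [gB_hi h2.le, gB_hi (by linarith)] at h1
      linarith
    -- members among the ten
    set U' : Finset (Fin 10) := Finset.univ.filter fun l => l.succ ∈ U with hU'
    have eU : U = U'.map (Fin.succEmb 10) := by
      ext x
      rw [Finset.mem_map]
      constructor
      · intro hx
        rcases Fin.eq_zero_or_eq_succ x with rfl | ⟨l, rfl⟩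
        · exact absurd hx h0U
        · exact ⟨l, by simp [hU', hx], rfl⟩
      · rintro ⟨l, hl, rfl⟩
        simpa [hU'] using hl
    have eUc : Uᶜ = insert 0 (U'ᶜ.map (Fin.succEmb 10)) := by
      ext x
      rw [Finset.mem_insert, Finset.mem_map, Finset.mem_compl]
      rcases Fin.eq_zero_or_eq_succ x with rfl | ⟨l, rfl⟩
      · simp [h0U]
      · constructor
        · intro hx
          exact Or.inr ⟨l, by simp [hU', hx], rfl⟩
        · rintro (h | ⟨m, hm, e⟩)
          · exact absurd h (Fin.succ_ne_zero _)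
          · have e' : m = l := Fin.succ_injective _ e
            subst e'
            simpa [hU'] using hm
    have hn0 : (0 : Fin 11) ∉ U'ᶜ.map (Fin.succEmb 10) := by
      intro h
      obtain ⟨l, -, e⟩ := Finset.mem_map.1 h
      exact Fin.succ_ne_zero l e
    have hc' : U'.card = 5 := by
      rw [eU, Finset.card_map] at hU; exact hU
    have := hg U' hc' (by
      intro i hi j hj
      refine hord _ ?_ _ ?_
      · simpa [hU'] using hi
      · simpa [hU'] using hj)
    rw [eUc, Finset.sum_insert hn0, eU, Finset.sum_map, Finset.sum_map]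
    have hb0 : b 0 = 0 := by simp [hb]
    rw [hb0, zero_add]
    have e1 : ∀ l : Fin 10, a ((Fin.succEmb 10) l) = hLo (V l) (W l) (z l.succ) := fun l => by
      show hLo (kV κ V l.succ) (kV κ W l.succ) (z l.succ) = _
      rw [kV_succ, kV_succ]
    have e2 : ∀ l : Fin 10, b ((Fin.succEmb 10) l) = bB (V l) (W l) (z l.succ) := fun l => by
      show (if l.succ = 0 then 0 else bB (kV κ V l.succ) (kV κ W l.succ) (z l.succ)) = _
      rw [if_neg (Fin.succ_ne_zero l), kV_succ, kV_succ]
    simp only [e1, e2]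
    exact this

/-- **gain at a direction leaf**, both functionals -/
theorem gainL_of_leafK {z φ : Fin 11 → ℝ} {V W : Fin 10 → ℝ} {κ ρ : ℝ} {D R : ℕ → ℕ → ℕ}
    (H : LeafK z φ V W κ ρ D R) (hFe : Fe z φ) (h9 : z 0 ≤ -(9 / 10))
    (h : (0 < κ ∧ -1 < z 0) ∨ ((∀ l : Fin 10, -(3 / 4) < z l.succ) ∧
      (∃ S : Finset (Fin 10), S.card = 5 ∧ ∀ l ∈ S, -(1 / 2) < z l.succ) ∧
      (∀ U : Finset (Fin 10), U.card = 5 → (∀ i ∈ U, ∀ j, j ∉ U → z j.succ ≤ z i.succ) →
      0 < ∑ l ∈ U, hLo (V l) (W l) (z l.succ) + ∑ l ∈ Uᶜ, bB (V l) (W l) (z l.succ)))) :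
    GainL PhiB z φ := by
  rcases h with ⟨h1, h2⟩ | ⟨h1, h2, h3⟩
  · exact Or.inl (gainA_of_leafK H hFe h1 h2 h9)
  · exact Or.inr (gainS_of_leafK H hFe h9 (grows_PhiB H.vw (fun k => (hFe.1 k).2) (by linarith)
      h1 h2 h3))

end Pool.Agent.Helper66.Kiss
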