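import Pool.Agent.Helper66.Kiss.PGa

set_option autoImplicit false

/-! # The south pole with a moving point: estimates -/

namespace Pool.Agent.Helper66.Kiss

open Real Set Filter Topology

/-! ## the joint rate of the two edges at the moving point -/

/-- joint estimate -/
lemma joint_bound {α α' θ k s s' sb Cp : ℝ} (h1 : 0 < α) (h2 : α ≤ π / 2) (h1' : 0 < α')
    (h2' : α' ≤ π / 2) (hs : α + α' = 2 * θ) (hk : 0 ≤ k) (s0 : 0 ≤ s) (s1 : s ≤ sb)
    (s0' : 0 ≤ s') (s1' : s' ≤ sb)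
    (h : (sb ≤ cos θ ∧ Cp * sin θ < 2 * k * (cos θ - sb)) ∨
      (1 / 4 ≤ sin α * sin α' ∧ Cp + 8 * k * sb < 0)) :
    Cp - k * ((cos α - s) / sin α + (cos α' - s') / sin α') < 0 := by
  have hpi := Real.pi_pos
  have sa : 0 < sin α := Real.sin_pos_of_pos_of_lt_pi h1 (by linarith)
  have sa' : 0 < sin α' := Real.sin_pos_of_pos_of_lt_pi h1' (by linarith)
  have hθ0 : 0 < θ := by linarith
  have hθ1 : θ ≤ π / 2 := by linarith
  have sθ : 0 < sin θ := Real.sin_pos_of_pos_of_lt_pi hθ0 (by linarith)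
  have cθ : 0 ≤ cos θ := Real.cos_nonneg_of_mem_Icc ⟨by linarith, hθ1⟩
  -- products and sums
  set d := (α - α') / 2 with hd
  have eα : α = θ + d := by rw [hd]; linarith
  have eα' : α' = θ - d := by rw [hd]; linarith
  have e1 : sin α + sin α' = 2 * sin θ * cos d := by rw [eα, eα', sin_add, sin_sub]; ring
  have e2 : sin α * sin α' = sin θ ^ 2 - sin d ^ 2 := by
    rw [eα, eα', sin_add, sin_sub]
    have := sin_sq_add_cos_sq θ; have := sin_sq_add_cos_sq d
    nlinarith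
  have e3 : cos α * sin α' + cos α' * sin α = 2 * sin θ * cos θ := by
    have : sin (α' + α) = 2 * sin θ * cos θ := by
      rw [show α' + α = 2 * θ by linarith, sin_two_mul]
    rw [sin_add] at this
    linarith
  have hP : 0 < sin α * sin α' := mul_pos sa sa'
  have hP1 : sin α * sin α' ≤ sin θ ^ 2 := by rw [e2]; nlinarith [sq_nonneg (sin d)]
  have esum : (cos α - s) / sin α + (cos α' - s') / sin α' =
      (2 * sin θ * cos θ - (s * sin α' + s' * sin α)) / (sin α * sin α') := by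
    rw [← e3]; field_simp; ring
  have hσ : s * sin α' + s' * sin α ≤ 2 * sb * sin θ := by
    have hd1 := Real.cos_le_one d
    have : s * sin α' + s' * sin α ≤ sb * (sin α + sin α') := by nlinarith
    have hsb : 0 ≤ sb := s0.trans s1
    rw [e1] at this
    nlinarith [mul_nonneg hsb sθ.le]
  have hN : 2 * sin θ * (cos θ - sb) ≤ 2 * sin θ * cos θ - (s * sin α' + s' * sin α) := by linarith
  rw [esum]
  have hsb : 0 ≤ sb := s0.trans s1
  rcases h with ⟨a1, a2⟩ | ⟨a1, a2⟩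
  · -- regular case
    have h3 : 2 * (cos θ - sb) / sin θ ≤
        (2 * sin θ * cos θ - (s * sin α' + s' * sin α)) / (sin α * sin α') := by
      rw [div_le_div_iff₀ sθ hP]
      have h4 : 0 ≤ 2 * (cos θ - sb) := by linarith
      have h5 := mul_le_mul_of_nonneg_left hP1 h4
      nlinarith
    have h4 := mul_le_mul_of_nonneg_left h3 hk
    have h5 : Cp < k * (2 * (cos θ - sb) / sin θ) := by
      rw [← mul_div_assoc, lt_div_iff₀ sθ]; linarith
    linarith
  · have h3 : -(8 * sb) ≤ (2 * sin θ * cos θ - (s * sin α' + s' * sin α)) / (sin α * sin α') := by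
      rw [le_div_iff₀ hP]
      have h4 : sin θ ≤ 1 := Real.sin_le_one _
      have h5 : -(2 * sb) ≤ 2 * sin θ * (cos θ - sb) := by
        nlinarith [mul_nonneg sθ.le cθ, mul_nonneg sθ.le hsb]
      nlinarith
    have h4 := mul_le_mul_of_nonneg_left h3 hk
    linarith

/-- rate of a slowly closing edge at the moving point -/
lemma rate_pole {x w V g κ : ℝ} (hx : -1 < x ∧ x < 0) (hw : -1 < w ∧ w < 1) (hg : 0 ≤ g)
    (hxw : x - w / 2 ≤ 0) (hV : V = -(κ * (1 - x ^ 2))) (hR1 : -1 < RR x w) (hR2 : RR x w < 1) :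
    rate x w V g ≤ -(κ / -x * ((cos (wd x w) - √(1 - x ^ 2) / (2 * √(1 - w ^ 2))) / sin (wd x w))) := by
  have hx' : -1 < x ∧ x < 1 := ⟨hx.1, by linarith [hx.2]⟩
  have hS := sqrt_pos_lt hx'
  have hC := sqrt_pos_lt hw
  have hreg := sq_lt_of_RR hx' hw hR1 hR2
  obtain ⟨-, hrt⟩ := RR_abs_lt hx' hw hreg
  have hcos : cos (wd x w) = RR x w := by
    rw [wd_eq_RR, Real.cos_arccos hR1.le hR2.le]
  have hsin : sin (wd x w) = √(1 - RR x w ^ 2) := by rw [wd_eq_RR, Real.sin_arccos]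
  have hpos : 0 < √(1 - RR x w ^ 2) := by
    apply Real.sqrt_pos.2; nlinarith
  rw [hcos, hsin]
  unfold rate
  rw [← hrt]
  set S := √(1 - x ^ 2) with hSd
  set C := √(1 - w ^ 2) with hCd
  set Q := √(1 - RR x w ^ 2) with hQd
  have S2 : S ^ 2 = 1 - x ^ 2 := Real.sq_sqrt (by nlinarith [hx.1, hx.2])
  have C2 : C ^ 2 = 1 - w ^ 2 := Real.sq_sqrt (by nlinarith [hw.1, hw.2])
  have hRR : S * C * RR x w = 1 / 2 - x * w := by
    unfold RR; rw [mul_div_cancel₀ _ (by positivity)]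
  have hnr : nr x w V g ≤ -(κ / -x) * (S * (C * RR x w - S / 2)) := by
    unfold nr
    have h1 : (w - x / 2) * V / (1 - x ^ 2) = -(κ * (w - x / 2)) := by
      rw [hV]
      have : (1 : ℝ) - x ^ 2 ≠ 0 := by rw [← S2]; positivity
      field_simp
    have h2 : (x - w / 2) * g / (1 - w ^ 2) ≤ 0 :=
      div_nonpos_of_nonpos_of_nonneg (mul_nonpos_of_nonpos_of_nonneg hxw hg) (by rw [← C2]; positivity)
    have h3 : w - x / 2 = S * (C * RR x w - S / 2) / -x := by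
      have hne : -x ≠ 0 := by linarith [hx.2]
      rw [eq_div_iff hne]
      have : S * (C * RR x w - S / 2) = S * C * RR x w - S ^ 2 / 2 := by ring
      rw [this, hRR, S2]; ring
    rw [h1, h3]
    have h4 : -(κ * (S * (C * RR x w - S / 2) / -x)) = -(κ / -x) * (S * (C * RR x w - S / 2)) := by
      ring
    rw [h4]; linarith
  have hden : 0 < S * C * Q := by positivity
  rw [div_le_iff₀ hden]
  refine hnr.trans (le_of_eq ?_)
  field_simp

/-! ## exit times -/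

/-- a continuous function does not leave `[θ, ∞)` if it cannot leave from the boundary -/
lemma stay_ge {f : ℝ → ℝ} {θ a b : ℝ} (hab : a ≤ b) (hf : ContinuousOn f (Icc a b)) (h0 : θ ≤ f a)
    (h : ∀ t ∈ Ico a b, f t = θ → ∃ δ > 0, ∀ u, t < u → u ≤ t + δ → u ≤ b → θ ≤ f u) :
    θ ≤ f b := by
  by_contra hcon
  push Not at hcon
  set S : Set ℝ := {t | t ∈ Icc a b ∧ θ ≤ f t} with hS
  have hcl : IsClosed S := by
    have : S = Icc a b ∩ f ⁻¹' Ici θ := rfl
    rw [this]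
    exact hf.preimage_isClosed_of_isClosed isClosed_Icc isClosed_Ici
  have hne : S.Nonempty := ⟨a, ⟨le_rfl, hab⟩, h0⟩
  have hbdd : BddAbove S := ⟨b, fun t ht => ht.1.2⟩
  have hmem := hcl.csSup_mem hne hbdd
  set t0 := sSup S with ht0
  obtain ⟨⟨h1, h2⟩, h3⟩ := hmem
  have hlt : t0 < b := by
    rcases lt_or_eq_of_le h2 with h | h
    · exact h
    · rw [h] at h3; linarith
  have hafter : ∀ u, t0 < u → u ≤ b → f u < θ := by
    intro u hu hub
    by_contra hc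
    push Not at hc
    have : u ∈ S := ⟨⟨h1.trans hu.le, hub⟩, hc⟩
    have := le_csSup hbdd this
    linarith
  have heq : f t0 = θ := by
    apply le_antisymm _ h3
    have hc : ContinuousWithinAt f (Ioc t0 b) t0 :=
      (hf t0 ⟨h1, h2⟩).mono fun u hu => ⟨h1.trans hu.1.le, hu.2⟩
    have hb : (𝓝[Ioc t0 b] t0).NeBot := by
      rw [nhdsWithin_Ioc_eq_nhdsGT hlt]; infer_instance
    refine le_of_tendsto hc ?_
    filter_upwards [self_mem_nhdsWithin] with u hu
    exact (hafter u hu.1 hu.2).le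
  obtain ⟨δ, hδ, h4⟩ := h t0 ⟨h1, hlt⟩ heq
  set u := min (t0 + δ) b with hu
  have hu1 : t0 < u := lt_min (by linarith) hlt
  have := h4 u hu1 (min_le_left _ _) (min_le_right _ _)
  have := hafter u hu1 (min_le_right _ _)
  linarith

/-- the same with a time of first exit: just before `b` the function stays above -/
lemma stay_le {f : ℝ → ℝ} {θ a b : ℝ} (hab : a ≤ b) (hf : ContinuousOn f (Icc a b)) (h0 : f a ≤ θ)
    (h : ∀ t ∈ Ico a b, f t = θ → (∀ u, t < u → u ≤ b → θ < f u) → False) :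
    f b ≤ θ := by
  by_contra hcon
  push Not at hcon
  set S : Set ℝ := {t | t ∈ Icc a b ∧ f t ≤ θ} with hS
  have hcl : IsClosed S := by
    have : S = Icc a b ∩ f ⁻¹' Iic θ := rfl
    rw [this]
    exact hf.preimage_isClosed_of_isClosed isClosed_Icc isClosed_Iic
  have hne : S.Nonempty := ⟨a, ⟨le_rfl, hab⟩, h0⟩
  have hbdd : BddAbove S := ⟨b, fun t ht => ht.1.2⟩
  have hmem := hcl.csSup_mem hne hbdd
  set t0 := sSup S with ht0
  obtain ⟨⟨h1, h2⟩, h3⟩ := hmem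
  have hlt : t0 < b := by
    rcases lt_or_eq_of_le h2 with h | h
    · exact h
    · rw [h] at h3; linarith
  have hafter : ∀ u, t0 < u → u ≤ b → θ < f u := by
    intro u hu hub
    by_contra hc
    push Not at hc
    have : u ∈ S := ⟨⟨h1.trans hu.le, hub⟩, hc⟩
    have := le_csSup hbdd this
    linarith
  have heq : f t0 = θ := by
    apply le_antisymm h3
    have hc : ContinuousWithinAt f (Ioc t0 b) t0 :=
      (hf t0 ⟨h1, h2⟩).mono fun u hu => ⟨h1.trans hu.1.le, hu.2⟩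
    have hb : (𝓝[Ioc t0 b] t0).NeBot := by
      rw [nhdsWithin_Ioc_eq_nhdsGT hlt]; infer_instance
    refine ge_of_tendsto hc ?_
    filter_upwards [self_mem_nhdsWithin] with u hu
    exact (hafter u hu.1 hu.2).le
  exact h t0 ⟨h1, hlt⟩ heq hafter

/-! ## two-time bounds for edges -/

variable {n : ℕ}

section

variable {z : Fin n → ℝ} {F : (Fin n → ℝ) → ℝ → Fin n → ℝ} {i j : Fin n} {l1 u1 l2 u2 c : ℝ}

/-- two-time bound for a width -/
def Edge2T (z : Fin n → ℝ) (F : (Fin n → ℝ) → ℝ → Fin n → ℝ) (i j : Fin n) (c : ℝ) : Prop :=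
  ∀ᶠ p : (Fin n → ℝ) × ℝ in 𝓝 (z, 0), AdmN p.1 → (∀ k, -1 < p.1 k) → ∀ s, 0 ≤ s → s ≤ p.2 →
    -1 ≤ RR (F p.1 s i) (F p.1 s j) → RR (F p.1 p.2 i) (F p.1 p.2 j) < 1 →
    wd (F p.1 p.2 i) (F p.1 p.2 j) ≤ wd (F p.1 s i) (F p.1 s j) + c * (p.2 - s)

theorem edge2T_regular (hz : (-1 < z i ∧ z i ≤ 1 / 2) ∧ (-1 < z j ∧ z j ≤ 1 / 2))
    (hnear : Tendsto (fun p : (Fin n → ℝ) × ℝ => F p.1 p.2) (𝓝 (z, 0)) (𝓝 z))
    (hi : Vel2 z F i l1 u1) (hj : Vel2 z F j l2 u2)
    (hreg : 0 < 3 / 4 - z i ^ 2 - z j ^ 2 + z i * z j)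
    (c1 : rate (z i) (z j) l1 l2 < c) (c2 : rate (z i) (z j) l1 u2 < c)
    (c3 : rate (z i) (z j) u1 l2 < c) (c4 : rate (z i) (z j) u1 u2 < c) : Edge2T z F i j c := by
  set α : ℝ × ℝ → ℝ := fun x => (x.2 - x.1 / 2) / (1 - x.1 ^ 2) / rt x.1 x.2 with hα
  set β : ℝ × ℝ → ℝ := fun x => (x.1 - x.2 / 2) / (1 - x.2 ^ 2) / rt x.1 x.2 with hβ
  have hrate : ∀ x : ℝ × ℝ, ∀ p q, rate x.1 x.2 p q = α x * p + β x * q := by
    intro x p q
    simp only [hα, hβ, rate, nr]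
    ring
  have hrt : 0 < rt (z i) (z j) := Real.sqrt_pos.2 hreg
  have hzi : (1 : ℝ) - z i ^ 2 ≠ 0 := by have := hz.1; nlinarith
  have hzj : (1 : ℝ) - z j ^ 2 ≠ 0 := by have := hz.2; nlinarith
  have crt : ContinuousAt (fun x : ℝ × ℝ => rt x.1 x.2) (z i, z j) := by
    unfold rt; fun_prop
  have cα : ContinuousAt α (z i, z j) :=
    ((by fun_prop : ContinuousAt (fun x : ℝ × ℝ => x.2 - x.1 / 2) (z i, z j)).div
      (by fun_prop) hzi).div crt hrt.ne'
  have cβ : ContinuousAt β (z i, z j) :=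
    ((by fun_prop : ContinuousAt (fun x : ℝ × ℝ => x.1 - x.2 / 2) (z i, z j)).div
      (by fun_prop) hzj).div crt hrt.ne'
  obtain ⟨γ, hγ, hev⟩ := unif_affine (a0 := z i) (b0 := z j) (l1 := l1) (u1 := u1) (l2 := l2)
    (u2 := u2) (c := c) cα cβ (by rw [← hrate]; exact c1) (by rw [← hrate]; exact c2)
    (by rw [← hrate]; exact c3) (by rw [← hrate]; exact c4)
  have hreg' : ∀ᶠ x in 𝓝 (z i, z j), 0 < 3 / 4 - x.1 ^ 2 - x.2 ^ 2 + x.1 * x.2 := by
    have : ContinuousAt (fun x : ℝ × ℝ => 3 / 4 - x.1 ^ 2 - x.2 ^ 2 + x.1 * x.2) (z i, z j) := by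
      fun_prop
    exact this.eventually (lt_mem_nhds hreg)
  have hr1 : ∀ᶠ x in 𝓝 (z i, z j), (-1 < x.1 ∧ x.1 < 1) ∧ (-1 < x.2 ∧ x.2 < 1) := by
    have c1 : ContinuousAt (fun x : ℝ × ℝ => x.1) (z i, z j) := by fun_prop
    have c2 : ContinuousAt (fun x : ℝ × ℝ => x.2) (z i, z j) := by fun_prop
    exact ((c1.eventually (lt_mem_nhds hz.1.1)).and (c1.eventually (gt_mem_nhds
      (by linarith [hz.1.2] : z i < 1)))).and ((c2.eventually (lt_mem_nhds hz.2.1)).and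
      (c2.eventually (gt_mem_nhds (by linarith [hz.2.2] : z j < 1))))
  unfold Edge2T
  filter_upwards [segment_data2 hnear hi hj hγ ((hev.and hreg').and hr1)] with p hp ha _ s hs0 hst _ _
  rcases eq_or_lt_of_le hst with h | h
  · rw [h]; simp
  obtain ⟨a, b, e1, e2, hab, hbb, hseg⟩ := hp ha s hs0 h
  have h0 : 0 < p.2 - s := by linarith
  have hd : ∀ τ ∈ Icc 0 (p.2 - s), HasDerivAt (fun τ => wd (F p.1 s i + τ * a) (F p.1 s j + τ * b))
      (rate (F p.1 s i + τ * a) (F p.1 s j + τ * b) a b) τ := by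
    intro τ hτ
    obtain ⟨⟨-, k2⟩, k3⟩ := hseg τ hτ
    exact wd_hasDerivAt k3.1 k3.2 k2
  obtain ⟨τ, hτ, hτ2⟩ := exists_hasDerivAt_eq_slope
    (fun τ => wd (F p.1 s i + τ * a) (F p.1 s j + τ * b))
    (fun τ => rate (F p.1 s i + τ * a) (F p.1 s j + τ * b) a b) h0
    (fun τ hτ => (hd τ hτ).continuousAt.continuousWithinAt)
    (fun τ hτ => hd τ ⟨hτ.1.le, hτ.2.le⟩)
  have hlt : rate (F p.1 s i + τ * a) (F p.1 s j + τ * b) a b < c := by
    obtain ⟨⟨k1, -⟩, -⟩ := hseg τ ⟨hτ.1.le, hτ.2.le⟩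
    have := k1 a b hab hbb
    rw [← hrate] at this
    exact this
  rw [hτ2, sub_zero, div_lt_iff₀ h0] at hlt
  rw [e1, e2]
  simp only [zero_mul, add_zero] at hlt
  linarith

lemma NegP.edge2T (h : NegP z F i j)
    (hsing : 3 / 4 - z i ^ 2 - z j ^ 2 + z i * z j ≤ 0) (c : ℝ) : Edge2T z F i j c := by
  obtain ⟨δ, hδ, h⟩ := h
  have hrt : {x : ℝ × ℝ | rt x.1 x.2 < δ / (|c| + 1)} ∈ 𝓝 (z i, z j) := by
    have crt : ContinuousAt (fun x : ℝ × ℝ => rt x.1 x.2) (z i, z j) := by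
      unfold rt; fun_prop
    have h0 : rt (z i) (z j) = 0 := Real.sqrt_eq_zero_of_nonpos hsing
    exact crt.eventually (gt_mem_nhds (by simp only [h0]; positivity))
  unfold Edge2T
  filter_upwards [h _ hrt] with p hp ha hy s hs0 hst hm hl
  rcases eq_or_lt_of_le hst with h | h
  · rw [h]; simp
  obtain ⟨a, b, e1, e2, hseg⟩ := hp ha hy s hs0 h
  have h0 : 0 < p.2 - s := by linarith
  rw [e1, e2] at hl ⊢
  refine seg_closing h0 (fun s hs => (hseg s hs).2.1) (fun s hs => by linarith [(hseg s hs).2.2])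
    hm hl ?_
  intro s hs hpos
  exact rate_le_of hδ (hseg s hs).2.2 hpos (le_of_lt (hseg s hs).1)

end

end Pool.Agent.Helper66.Kiss
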