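import Pool.Agent.Helper66.Kiss.LiftStage
import Pool.Agent.Helper66.Kiss.LLEdge

set_option autoImplicit false

/-! # Lifting a height path when pairs become free -/

namespace Pool.Agent.Helper66.Kiss

open Real Set Filter Topology

variable {n : ℕ}

/-- longitudes compatible with the index order: kept pairs and pairs with `RR < 1` obey their
width, the other (free) pairs are only loosely bounded -/
def Con (K : Fin n → Fin n → Prop) (x φ : Fin n → ℝ) : Prop := ∀ i j, i < j →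
  (¬ K i j ∧ 1 ≤ RR (x i) (x j) → -((n + 1) * π) ≤ φ j - φ i ∧ φ j - φ i ≤ 2 * π + (n + 1) * π) ∧
  (¬ (¬ K i j ∧ 1 ≤ RR (x i) (x j)) → wd (x i) (x j) ≤ φ j - φ i ∧
    φ j - φ i ≤ 2 * π - wd (x i) (x j))

lemma RR_comm (a b : ℝ) : RR a b = RR b a := by
  unfold RR; rw [mul_comm a b, mul_comm (√(1 - a ^ 2))]

lemma RR_one_le {a b : ℝ} (ha : -1 < a ∧ a ≤ 1 / 2) (hb : -1 < b ∧ b ≤ 1 / 2) :
    1 ≤ RR a b ↔ √(1 - a ^ 2) * √(1 - b ^ 2) + a * b ≤ 1 / 2 := by
  have := mul_pos (sqrt_pos_of ha) (sqrt_pos_of hb)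
  unfold RR
  rw [le_div_iff₀ this]
  constructor <;> intro h <;> linarith

lemma RR_ge {a b : ℝ} (ha : -1 < a ∧ a ≤ 1 / 2) (hb : -1 < b ∧ b ≤ 1 / 2) :
    -1 ≤ RR a b ↔ -(√(1 - a ^ 2) * √(1 - b ^ 2)) ≤ 1 / 2 - a * b :=
  RR_ge_iff ⟨ha.1, by linarith [ha.2]⟩ ⟨hb.1, by linarith [hb.2]⟩

lemma RR_continuousOn {p : ℝ → Fin n → ℝ} {S : Set ℝ}
    (hc : ∀ k, ContinuousOn (fun t => p t k) S) (hr : ∀ t ∈ S, ∀ k, -1 < p t k ∧ p t k ≤ 1 / 2)
    (i j : Fin n) : ContinuousOn (fun t => RR (p t i) (p t j)) S := by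
  unfold RR
  refine ContinuousOn.div ?_ ?_ ?_
  · exact continuousOn_const.sub ((hc i).mul (hc j))
  · exact (continuousOn_const.sub ((hc i).pow 2)).sqrt.mul (continuousOn_const.sub ((hc j).pow 2)).sqrt
  · intro t ht
    exact (mul_pos (sqrt_pos_of (hr t ht i)) (sqrt_pos_of (hr t ht j))).ne'

/-- configurations from compatible longitudes -/
lemma gg_of_con {K : Fin n → Fin n → Prop} {x φ : Fin n → ℝ} (hr : ∀ k, -1 < x k ∧ x k ≤ 1 / 2)
    (hp : ∀ i j, i ≠ j → -1 ≤ RR (x i) (x j)) (h : Con K x φ) :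
    ∀ i j, i ≠ j → gg (x i) (x j) (φ i) (φ j) ≤ 1 / 2 := by
  have key : ∀ i j, i < j → gg (x i) (x j) (φ i) (φ j) ≤ 1 / 2 := by
    intro i j hij
    have c := mul_pos (sqrt_pos_of (hr i)) (sqrt_pos_of (hr j))
    by_cases h0 : ¬ K i j ∧ 1 ≤ RR (x i) (x j)
    · have h1 := h0.2
      rw [RR_one_le (hr i) (hr j)] at h1
      unfold gg
      have := Real.cos_le_one (φ i - φ j)
      nlinarith
    · obtain ⟨a1, a2⟩ := (h i j hij).2 h0
      have q3 := cos_le_of_arccos (hp i j hij.ne) a1 a2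
      unfold RR at q3
      rw [le_div_iff₀ c] at q3
      unfold gg
      rw [← cos_neg, neg_sub]
      linarith
  intro i j hij
  rcases lt_or_gt_of_ne hij with h5 | h5
  · exact key i j h5
  · rw [gg_comm]; exact key j i h5

/-- sorted feasible states are compatible -/
lemma con_of_srt {K : Fin n → Fin n → Prop} {x η : Fin n → ℝ} (hr : ∀ k, -1 < x k ∧ x k ≤ 1 / 2)
    (hF : ∀ i j, i ≠ j → gg (x i) (x j) (η i) (η j) ≤ 1 / 2) (hm : Monotone η)
    (hs : ∀ k, 0 ≤ η k ∧ η k ≤ 2 * π) : Con K x η := by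
  intro i j hij
  have hpi := Real.pi_pos
  have hmn := hm hij.le
  have hn : (0 : ℝ) ≤ (n + 1) * π := by positivity
  refine ⟨fun _ => ⟨by linarith, by linarith [(hs i).1, (hs j).2]⟩, fun _ => ?_⟩
  exact wd_le_of_gg (hr i) (hr j) (hF i j hij.ne) (by linarith)
    (by linarith [(hs i).1, (hs j).2])

/-- good height paths; `K` is the set of the kept pairs -/
structure GPath (K : Fin n → Fin n → Prop) (p : ℝ → Fin n → ℝ) : Prop where
  symm : ∀ i j, K i j → K j i
  cont : ∀ k, ContinuousOn (fun t => p t k) (Icc 0 1)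
  range : ∀ t ∈ Icc (0 : ℝ) 1, ∀ k, -1 < p t k ∧ p t k ≤ 1 / 2
  persist : ∀ i j, i ≠ j → ¬ K i j → ∀ s t, 0 ≤ s → s ≤ t → t ≤ 1 → 1 ≤ RR (p s i) (p s j) →
    1 ≤ RR (p t i) (p t j)
  vert : ∀ t ∈ Icc (0 : ℝ) 1, ∀ i j, i ≠ j → K i j →
    -(1 / 3) < √(1 - p t i ^ 2) * √(1 - p t j ^ 2) + p t i * p t j
  pole : ∀ t ∈ Icc (0 : ℝ) 1, ∀ i j, i ≠ j → -1 ≤ RR (p t i) (p t j)

/-- walks whose edges are not free -/
def NFW (hn : 0 < n) (K : Fin n → Fin n → Prop) (x : Fin n → ℝ) (v : ℕ → ℕ) (r : ℕ) : Prop :=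
  ∀ k < r, ¬ (¬ K (clN n hn (v k)) (clN n hn (v (k + 1))) ∧
    1 ≤ RR (x (clN n hn (v k))) (x (clN n hn (v (k + 1)))))

/-- width of a walk given by the nodes -/
noncomputable def twn (z : Fin n → ℝ) (κ : ℕ → Fin n) (r : ℕ) : ℝ :=
  ∑ k ∈ Finset.range r, wd (z (κ k)) (z (κ (k + 1)))

/-- a parametrisation of configurations by heights and longitudes -/
structure Prm (n : ℕ) (P : (Fin n → ℝ) → (Fin n → ℝ) → Fin 12 → E3) (A : Set (Fin n → ℝ)) : Prop where
  cont : Continuous fun q : (Fin n → ℝ) × (Fin n → ℝ) => P q.1 q.2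
  mem : ∀ z ∈ A, ∀ φ, (∀ i j, i ≠ j → gg (z i) (z j) (φ i) (φ j) ≤ 1 / 2) → P z φ ∈ Conf

section

variable {P : (Fin n → ℝ) → (Fin n → ℝ) → Fin 12 → E3} {A : Set (Fin n → ℝ)}

lemma joined_seg (HP : Prm n P A) {x φ φ' : Fin n → ℝ} (hx : x ∈ A)
    (h : ∀ s ∈ Icc (0 : ℝ) 1, ∀ i j, i ≠ j → gg (x i) (x j) ((1 - s) * φ i + s * φ' i)
        ((1 - s) * φ j + s * φ' j) ≤ 1 / 2) : JoinedIn Conf (P x φ) (P x φ') := by
  have hc : ContinuousOn (fun s : ℝ => P x (fun k => (1 - s) * φ k + s * φ' k)) (uIcc 0 1) := by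
    refine Continuous.continuousOn ?_
    have h1 : Continuous fun s : ℝ => (x, fun k => (1 - s) * φ k + s * φ' k) := by fun_prop
    exact HP.cont.comp h1
  have j1 := joined_of_seg (f := fun s => P x (fun k => (1 - s) * φ k + s * φ' k)) 0 1 hc (by
    intro s hs'
    rw [uIcc_of_le zero_le_one] at hs'
    exact HP.mem x hx _ (h s hs'))
  have e0 : P x (fun k => (1 - 0) * φ k + 0 * φ' k) = P x φ := by
    congr 1; funext k; ring
  have e1 : P x (fun k => (1 - 1) * φ k + 1 * φ' k) = P x φ' := by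
    congr 1; funext k; ring
  rw [e0, e1] at j1
  exact j1

/-- one stage: the free pairs do not change on `[a, b)` -/
lemma one_stage (hn2 : 2 ≤ n) (hn : 0 < n) (HP : Prm n P A) {K : Fin n → Fin n → Prop}
    {p : ℝ → Fin n → ℝ} (H : GPath K p)
    (hA : ∀ t ∈ Icc (0 : ℝ) 1, p t ∈ A) {a b : ℝ} (ha : 0 ≤ a) (hab : a ≤ b) (hb : b ≤ 1)
    (hwalk : ∀ t, a ≤ t → t < b → ∀ (v : ℕ → ℕ) (r : ℕ), r ≤ n → IsWalk n v r → v r = v 0 + n →
      NFW hn K (p t) v r → twn (p t) (fun k => clN n hn (v k)) r ≤ 2 * π)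
    (hst : ∀ t, a ≤ t → t < b → ∀ i j, i ≠ j → ¬ K i j → RR (p a i) (p a j) < 1 →
      RR (p t i) (p t j) < 1)
    {φa : Fin n → ℝ} (hφ : Con K (p a) φa) :
    ∃ φb, Con K (p b) φb ∧ JoinedIn Conf (P (p a) φa) (P (p b) φb) := by
  classical
  have hpi := Real.pi_pos
  set z : ℝ → Fin n → ℝ := fun τ => p (a + τ * (b - a)) with hz
  have htm : ∀ τ ∈ Icc (0 : ℝ) 1, a + τ * (b - a) ∈ Icc (0 : ℝ) 1 := by
    intro τ hτ
    constructor
    · nlinarith [hτ.1]
    · nlinarith [hτ.2, hτ.1]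
  have hta : ∀ τ ∈ Icc (0 : ℝ) 1, a ≤ a + τ * (b - a) := by
    intro τ hτ; nlinarith [hτ.1]
  have hz0 : z 0 = p a := by simp [hz]
  have hz1 : z 1 = p b := by simp [hz]
  have hcz : ∀ k, ContinuousOn (fun τ => z τ k) (Icc 0 1) := fun k =>
    (H.cont k).comp (by fun_prop) htm
  have hrz : ∀ τ ∈ Icc (0 : ℝ) 1, ∀ k, -1 < z τ k ∧ z τ k ≤ 1 / 2 := fun τ hτ => H.range _ (htm τ hτ)
  -- status of a pair
  have hlt : ∀ τ ∈ Ico (0 : ℝ) 1, ∀ i j, i ≠ j → ¬ K i j → ¬ 1 ≤ RR (p a i) (p a j) →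
      RR (z τ i) (z τ j) < 1 := by
    intro τ hτ i j hij hK hD
    rcases eq_or_lt_of_le hab with h | h
    · have : z τ = p a := by simp [hz, ← h]
      rw [this]; exact not_le.1 hD
    · exact hst _ (hta τ ⟨hτ.1, hτ.2.le⟩) (by nlinarith [hτ.2]) i j hij hK (not_le.1 hD)
  have HH : HPath n hn2 (fun i j => ¬ K i j ∧ 1 ≤ RR (p a i) (p a j)) z := by
    refine ⟨fun i j h => ⟨fun hK => h.1 (H.symm _ _ hK), by rw [RR_comm]; exact h.2⟩, hcz,
      fun τ hτ => hrz τ ⟨hτ.1, hτ.2.le⟩, ?_, ?_, ?_, ?_, ?_⟩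
    · intro i j hij _
      have : (𝓝[Ico (0 : ℝ) 1] 1) = 𝓝[<] 1 := nhdsWithin_Ico_eq_nhdsLT zero_lt_one
      have hc : ∀ k, Tendsto (fun τ => z τ k) (𝓝[<] (1 : ℝ)) (𝓝 (z 1 k)) := by
        intro k
        rw [← this]
        exact (hcz k 1 ⟨zero_le_one, le_rfl⟩).mono_left (nhdsWithin_mono _ Ico_subset_Icc_self)
      exact ⟨_, wd_tendsto' (hc i) (hc j) (hrz 1 ⟨zero_le_one, le_rfl⟩ i)
        (hrz 1 ⟨zero_le_one, le_rfl⟩ j)⟩
    · intro τ hτ i j hij hD
      have h1 := hrz τ ⟨hτ.1, hτ.2.le⟩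
      rw [← RR_one_le (h1 i) (h1 j)]
      exact H.persist i j hij hD.1 a _ ha (hta τ ⟨hτ.1, hτ.2.le⟩) (htm τ ⟨hτ.1, hτ.2.le⟩).2 hD.2
    · intro τ hτ i j hij hD
      have h1 := hrz τ ⟨hτ.1, hτ.2.le⟩
      rw [← RR_ge (h1 i) (h1 j)]
      exact H.pole _ (htm τ ⟨hτ.1, hτ.2.le⟩) i j hij
    · intro τ hτ i j hij hD
      have h1 := hrz τ ⟨hτ.1, hτ.2.le⟩
      by_cases hK : K i j
      · exact H.vert _ (htm τ ⟨hτ.1, hτ.2.le⟩) i j hij hK
      have h2 := hlt τ hτ i j hij hK (fun h => hD ⟨hK, h⟩)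
      have h3 := mt (RR_one_le (h1 i) (h1 j)).2 (not_le.2 h2)
      push Not at h3
      linarith
    · intro τ hτ v r hr hv he hD
      rcases eq_or_lt_of_le hab with h | h
      · -- degenerate interval: use the longitudes themselves
        have e : z τ = p a := by simp [hz, ← h]
        set ω : Fin n → Fin n → ℝ := fun i j => if ¬ K i j ∧ 1 ≤ RR (p a i) (p a j) then
          -((n + 1) * π) else wd (p a i) (p a j) with hω
        have hsym : ∀ i j, ω i j = ω j i := by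
          intro i j
          have e1 : (¬ K i j ∧ 1 ≤ RR (p a i) (p a j)) ↔ (¬ K j i ∧ 1 ≤ RR (p a j) (p a i)) := by
            rw [RR_comm]
            constructor
            · rintro ⟨a1, a2⟩; exact ⟨fun h => a1 (H.symm _ _ h), a2⟩
            · rintro ⟨a1, a2⟩; exact ⟨fun h => a1 (H.symm _ _ h), a2⟩
          simp only [hω, e1, wd_comm (p a i)]
        have hord : ∀ i j, i < j → ω i j ≤ φa j - φa i ∧ φa j - φa i ≤ 2 * π - ω i j := by
          intro i j hij
          by_cases h1 : ¬ K i j ∧ 1 ≤ RR (p a i) (p a j)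
          · have e1 : ω i j = -((n + 1) * π) := by simp only [hω]; rw [if_pos h1]
            rw [e1]
            have := (hφ i j hij).1 h1
            constructor <;> linarith [this.1, this.2]
          · have e1 : ω i j = wd (p a i) (p a j) := by simp only [hω]; rw [if_neg h1]
            rw [e1]
            exact (hφ i j hij).2 h1
        have h3 := lft_tel (n := n) hn hsym hord r hv
        have e2 := lft_add_mul (n := n) hn φa (v 0) 1
        rw [mul_one] at e2
        rw [he, e2] at h3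
        push_cast at h3
        have e3 : total (fun x y => wd (z τ (clN n (by omega) x)) (z τ (clN n (by omega) y))) v r =
            total (fun x y => ω (clN n hn x) (clN n hn y)) v r := by
          unfold total
          refine Finset.sum_congr rfl fun k hk => ?_
          have h5 := hD k (Finset.mem_range.1 hk)
          simp only [hω, e]
          rw [if_neg h5]
        rw [e3]
        linarith
      · have htb : a + τ * (b - a) < b := by nlinarith [hτ.2]
        have := hwalk _ (hta τ ⟨hτ.1, hτ.2.le⟩) htb v r hr hv he (by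
          rintro k hk ⟨h6, h7⟩
          exact absurd h7 (not_le.2 (hlt τ hτ _ _ (clN_step_ne hn (hv k hk)) h6
            (fun h8 => hD k hk ⟨h6, h8⟩))))
        exact this
  obtain ⟨φ, hc, hg, hs, hpr⟩ := liftB hn2 HH (φ0 := φa)
    (fun i j hij hD => (hφ i j hij).1 hD)
    (fun i j hij hD => by
      rw [hz0]
      exact (hφ i j hij).2 hD)
  refine ⟨φ 1, ?_, ?_⟩
  · -- constraints at the end
    have hne : (𝓝[Ico (0 : ℝ) 1] 1).NeBot := by
      rw [nhdsWithin_Ico_eq_nhdsLT zero_lt_one]; infer_instance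
    have hlim : ∀ k, Tendsto (fun τ => φ τ k) (𝓝[Ico (0 : ℝ) 1] 1) (𝓝 (φ 1 k)) := fun k =>
      (hc k 1 ⟨zero_le_one, le_rfl⟩).mono_left (nhdsWithin_mono _ Ico_subset_Icc_self)
    have hlimz : ∀ k, Tendsto (fun τ => z τ k) (𝓝[Ico (0 : ℝ) 1] 1) (𝓝 (z 1 k)) := fun k =>
      (hcz k 1 ⟨zero_le_one, le_rfl⟩).mono_left (nhdsWithin_mono _ Ico_subset_Icc_self)
    intro i j hij
    by_cases hD : ¬ K i j ∧ 1 ≤ RR (p a i) (p a j)
    · have h1 : -((n + 1) * π) ≤ φ 1 j - φ 1 i ∧ φ 1 j - φ 1 i ≤ 2 * π + (n + 1) * π := by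
        constructor
        · refine ge_of_tendsto ((hlim j).sub (hlim i)) ?_
          filter_upwards [self_mem_nhdsWithin] with τ hτ
          exact ((hpr τ hτ i j hij).1 hD).1
        · refine le_of_tendsto ((hlim j).sub (hlim i)) ?_
          filter_upwards [self_mem_nhdsWithin] with τ hτ
          exact ((hpr τ hτ i j hij).1 hD).2
      refine ⟨fun _ => h1, fun h2 => ?_⟩
      exact absurd ⟨hD.1, H.persist i j hij.ne hD.1 a b ha hab hb hD.2⟩ h2
    · have h1 : wd (p b i) (p b j) ≤ φ 1 j - φ 1 i ∧ φ 1 j - φ 1 i ≤ 2 * π - wd (p b i) (p b j) := by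
        have hw : Tendsto (fun τ => wd (z τ i) (z τ j)) (𝓝[Ico (0 : ℝ) 1] 1) (𝓝 (wd (p b i) (p b j))) := by
          rw [← hz1]
          exact wd_tendsto' (hlimz i) (hlimz j) (hrz 1 ⟨zero_le_one, le_rfl⟩ i)
            (hrz 1 ⟨zero_le_one, le_rfl⟩ j)
        constructor
        · refine le_of_tendsto_of_tendsto hw ((hlim j).sub (hlim i)) ?_
          filter_upwards [self_mem_nhdsWithin] with τ hτ
          exact ((hpr τ hτ i j hij).2 hD).1
        · refine le_of_tendsto_of_tendsto ((hlim j).sub (hlim i)) (tendsto_const_nhds.sub hw) ?_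
          filter_upwards [self_mem_nhdsWithin] with τ hτ
          exact ((hpr τ hτ i j hij).2 hD).2
      refine ⟨fun _ => ?_, fun _ => h1⟩
      have := wd_nonneg (p b i) (p b j)
      have hB : (0 : ℝ) ≤ (n + 1) * π := by positivity
      constructor <;> linarith [h1.1, h1.2]
  · have hA0 : z 0 ∈ A := by rw [hz0]; exact hA a ⟨ha, hab.trans hb⟩
    have j1 := joined_seg HP hA0 hs
    have hpc : ContinuousOn (fun t => P (z t) (φ t)) (uIcc 0 1) := by
      rw [uIcc_of_le zero_le_one]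
      exact HP.cont.comp_continuousOn ((continuousOn_pi.2 hcz).prodMk (continuousOn_pi.2 hc))
    have j2 := joined_of_seg (f := fun t => P (z t) (φ t)) 0 1 hpc (by
      intro t ht
      rw [uIcc_of_le zero_le_one] at ht
      exact HP.mem _ (hA _ (htm t ht)) _ (hg t ht))
    have := j1.trans j2
    rw [hz0, hz1] at this
    exact this

/-- **Lifting with growing free pairs.** -/
theorem stage_lift (hn2 : 2 ≤ n) (hn : 0 < n) (HP : Prm n P A) {K : Fin n → Fin n → Prop}
    {p : ℝ → Fin n → ℝ} (H : GPath K p) (hA : ∀ t ∈ Icc (0 : ℝ) 1, p t ∈ A)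
    (hwalk : ∀ t ∈ Icc (0 : ℝ) 1, ∀ (v : ℕ → ℕ) (r : ℕ), r ≤ n → IsWalk n v r → v r = v 0 + n →
      NFW hn K (p t) v r → twn (p t) (fun k => clN n hn (v k)) r ≤ 2 * π)
    {φ0 : Fin n → ℝ} (hφ : Con K (p 0) φ0) :
    ∃ φ1, Con K (p 1) φ1 ∧ (∀ i j, i ≠ j → gg (p 1 i) (p 1 j) (φ1 i) (φ1 j) ≤ 1 / 2) ∧
      JoinedIn Conf (P (p 0) φ0) (P (p 1) φ1) := by
  classical
  have key : ∀ (m : ℕ) (a : ℝ), 0 ≤ a → a ≤ 1 → ∀ φa, Con K (p a) φa →
      (Finset.univ.filter fun q : Fin n × Fin n => q.1 ≠ q.2 ∧ ¬ K q.1 q.2 ∧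
        RR (p a q.1) (p a q.2) < 1).card ≤ m →
      ∃ φ1, Con K (p 1) φ1 ∧ JoinedIn Conf (P (p a) φa) (P (p 1) φ1) := by
    intro m
    induction m with
    | zero =>
      intro a ha ha1 φa hφa hcard
      refine one_stage hn2 hn HP H hA ha ha1 le_rfl
        (fun t h1 h2 => hwalk t ⟨by linarith, by linarith⟩) ?_ hφa
      intro t h1 h2 i j hij hK hlt
      exfalso
      have : (i, j) ∈ (Finset.univ.filter fun q : Fin n × Fin n => q.1 ≠ q.2 ∧ ¬ K q.1 q.2 ∧
          RR (p a q.1) (p a q.2) < 1) := by simp [hij, hlt, hK]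
      rw [Nat.le_zero, Finset.card_eq_zero] at hcard
      rw [hcard] at this
      exact absurd this (Finset.notMem_empty _)
    | succ m ih =>
      intro a ha ha1 φa hφa hcard
      set T : Set ℝ := {t | t ∈ Icc a 1 ∧ ∃ i j, i ≠ j ∧ ¬ K i j ∧ RR (p a i) (p a j) < 1 ∧
        1 ≤ RR (p t i) (p t j)} with hT
      by_cases hTe : T.Nonempty
      · -- the first time a new pair becomes free
        have hTc : IsClosed T := by
          have e : T = ⋃ q ∈ {q : Fin n × Fin n | q.1 ≠ q.2 ∧ ¬ K q.1 q.2 ∧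
              RR (p a q.1) (p a q.2) < 1},
              (Icc a 1 ∩ (fun t => RR (p t q.1) (p t q.2)) ⁻¹' Ici 1) := by
            ext t
            simp only [hT, mem_ofPred_eq, mem_iUnion, mem_inter_iff, mem_preimage, mem_Ici, exists_prop,
              Prod.exists]
            constructor
            · rintro ⟨h1, i, j, h2, hK, h3, h4⟩; exact ⟨i, j, ⟨h2, hK, h3⟩, h1, h4⟩
            · rintro ⟨i, j, ⟨h2, hK, h3⟩, h1, h4⟩; exact ⟨h1, i, j, h2, hK, h3, h4⟩
          rw [e]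
          refine Set.Finite.isClosed_biUnion (Set.toFinite _) fun q _ => ?_
          have hsub : Icc a 1 ⊆ Icc (0 : ℝ) 1 := Icc_subset_Icc ha le_rfl
          exact (RR_continuousOn (fun k => (H.cont k).mono hsub) (fun t ht => H.range t (hsub ht))
            q.1 q.2).preimage_isClosed_of_isClosed isClosed_Icc isClosed_Ici
        have hbdd : BddBelow T := ⟨a, fun t ht => ht.1.1⟩
        have hbT : sInf T ∈ T := hTc.csInf_mem hTe hbdd
        set b := sInf T with hb
        obtain ⟨⟨hab, hb1⟩, i, j, hij, hK, hlt, hge⟩ := hbT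
        obtain ⟨φb, hφb, hJ⟩ := one_stage hn2 hn HP H hA ha hab hb1
          (fun t h1 h2 => hwalk t ⟨by linarith, by linarith⟩) (by
          intro t h1 h2 i j hij hK hlt
          by_contra hcon
          push Not at hcon
          have : t ∈ T := ⟨⟨h1, by linarith⟩, i, j, hij, hK, hlt, hcon⟩
          have := csInf_le hbdd this
          linarith) hφa
        have hcard2 : (Finset.univ.filter fun q : Fin n × Fin n => q.1 ≠ q.2 ∧ ¬ K q.1 q.2 ∧
            RR (p b q.1) (p b q.2) < 1).card ≤ m := by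
          have hsub : (Finset.univ.filter fun q : Fin n × Fin n => q.1 ≠ q.2 ∧ ¬ K q.1 q.2 ∧
              RR (p b q.1) (p b q.2) < 1) ⊂ (Finset.univ.filter fun q : Fin n × Fin n => q.1 ≠ q.2 ∧
              ¬ K q.1 q.2 ∧ RR (p a q.1) (p a q.2) < 1) := by
            rw [Finset.ssubset_iff_of_subset]
            · exact ⟨(i, j), by simp [hij, hlt, hK], by simp [hge]⟩
            · intro q hq
              simp only [Finset.mem_filter, Finset.mem_univ, true_and] at hq ⊢
              refine ⟨hq.1, hq.2.1, ?_⟩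
              by_contra hcon
              push Not at hcon
              exact absurd (H.persist q.1 q.2 hq.1 hq.2.1 a b ha hab hb1 hcon) (not_le.2 hq.2.2)
          have := Finset.card_lt_card hsub
          omega
        obtain ⟨φ1, h1, hJ2⟩ := ih b (by linarith) hb1 φb hφb hcard2
        exact ⟨φ1, h1, hJ.trans hJ2⟩
      · refine one_stage hn2 hn HP H hA ha ha1 le_rfl
          (fun t h1 h2 => hwalk t ⟨by linarith, by linarith⟩) ?_ hφa
        intro t h1 h2 i j hij hK hlt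
        by_contra hcon
        push Not at hcon
        exact hTe ⟨t, ⟨h1, h2.le⟩, i, j, hij, hK, hlt, hcon⟩
  obtain ⟨φ1, h1, hJ⟩ := key _ 0 le_rfl zero_le_one φ0 hφ le_rfl
  exact ⟨φ1, h1, gg_of_con (H.range 1 ⟨zero_le_one, le_rfl⟩) (H.pole 1 ⟨zero_le_one, le_rfl⟩) h1, hJ⟩

end

/-- the parametrisation with the north pole and eleven points -/
lemma prm_pinN : Prm 11 pinN {z | ∀ k, -1 ≤ z k ∧ z k ≤ 1 / 2} where
  cont := continuous_pinN (fun k => (continuous_apply k).comp continuous_fst)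
    (fun k => (continuous_apply k).comp continuous_snd)
  mem := fun _ hz _ h => pinN_mem ⟨hz, h⟩

/-- both poles occupied, the point `s` at the south pole -/
noncomputable def pinS (s : Fin 11) (z φ : Fin 10 → ℝ) : Fin 12 → E3 :=
  pinN (Fin.insertNth (α := fun _ => ℝ) s (-1) z) (Fin.insertNth (α := fun _ => ℝ) s 0 φ)

lemma prm_pinS (s : Fin 11) : Prm 10 (pinS s) {z | ∀ k, -(1 / 2) ≤ z k ∧ z k ≤ 1 / 2} where
  cont := by
    have hc : ∀ (c : ℝ) (k : Fin 11), Continuous fun z : Fin 10 → ℝ =>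
        Fin.insertNth (α := fun _ => ℝ) s c z k := by
      intro c k
      by_cases hk : k = s
      · subst hk; simp only [Fin.insertNth_apply_same]; exact continuous_const
      · obtain ⟨l, rfl⟩ := Fin.exists_succAbove_eq hk
        simp only [Fin.insertNth_apply_succAbove]; exact continuous_apply l
    exact continuous_pinN (fun k => (hc _ k).comp continuous_fst)
      (fun k => (hc _ k).comp continuous_snd)
  mem := by
    intro z hz φ h
    refine pinN_mem ⟨?_, ?_⟩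
    · intro k
      by_cases hk : k = s
      · subst hk; simp only [Fin.insertNth_apply_same]; norm_num
      · obtain ⟨l, rfl⟩ := Fin.exists_succAbove_eq hk
        simp only [Fin.insertNth_apply_succAbove]
        exact ⟨by linarith [(hz l).1], (hz l).2⟩
    · have hs : ∀ w a b, -(1 / 2) ≤ w → gg (-1) w a b ≤ 1 / 2 := by
        intro w a b hw
        unfold gg
        norm_num
        linarith
      intro i j hij
      by_cases hi : i = s
      · subst hi
        obtain ⟨l, rfl⟩ := Fin.exists_succAbove_eq (Ne.symm hij)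
        simp only [Fin.insertNth_apply_same, Fin.insertNth_apply_succAbove]
        exact hs _ _ _ (hz l).1
      · obtain ⟨l, rfl⟩ := Fin.exists_succAbove_eq hi
        by_cases hj : j = s
        · subst hj
          simp only [Fin.insertNth_apply_same, Fin.insertNth_apply_succAbove]
          rw [gg_comm]
          exact hs _ _ _ (hz l).1
        · obtain ⟨m, rfl⟩ := Fin.exists_succAbove_eq hj
          simp only [Fin.insertNth_apply_succAbove]
          exact h l m (fun he => hij (by rw [he]))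

end Pool.Agent.Helper66.Kiss
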