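import Pool.Agent.Helper66.Kiss.PoleA
import Pool.Agent.Helper66.Kiss.Stage

set_option autoImplicit false

/-! # The south pole with a moving point: the edges at the moving point -/

namespace Pool.Agent.Helper66.Kiss

open Real Set Filter Topology

/-- the flow of the moving point -/
noncomputable def sF (κ a t : ℝ) : ℝ := a + t * -(κ * (1 - a ^ 2))

lemma sF_zero (κ a : ℝ) : sF κ a 0 = a := by unfold sF; ring

lemma sF_aff (κ a t s : ℝ) : sF κ a (t + s) = sF κ a t + s * -(κ * (1 - a ^ 2)) := by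
  unfold sF; ring

lemma sF_le {κ a t : ℝ} (hκ : 0 ≤ κ) (ha : -1 ≤ a ∧ a ≤ 1) (ht : 0 ≤ t) : sF κ a t ≤ a := by
  unfold sF
  have h1 : 0 ≤ 1 - a ^ 2 := by nlinarith [ha.1, ha.2]
  have := mul_nonneg ht (mul_nonneg hκ h1)
  linarith

lemma sF_gt {κ a t : ℝ} (ha : -1 < a ∧ a ≤ 1) (ht : t * κ ≤ 1 / 4) : -1 < sF κ a t := by
  have e : sF κ a t = -1 + (1 + a) * (1 - t * κ * (1 - a)) := by unfold sF; ring
  rw [e]
  have h1 : 0 < 1 - t * κ * (1 - a) := by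
    have : 0 ≤ 1 - a := by linarith [ha.2]
    nlinarith [ha.1]
  have := mul_pos (by linarith [ha.1] : 0 < 1 + a) h1
  linarith

lemma sF_sq {κ a t : ℝ} (hκ : 0 ≤ κ) (ha : -1 < a ∧ a ≤ 0) (h0 : 0 ≤ t) (ht : t * κ ≤ 1 / 4) :
    (1 - a ^ 2) / 2 ≤ 1 - sF κ a t ^ 2 ∧ 1 - sF κ a t ^ 2 ≤ 1 - a ^ 2 := by
  have h1 := sF_le hκ ⟨ha.1.le, by linarith [ha.2]⟩ h0
  have h2 := sF_gt ⟨ha.1, by linarith [ha.2]⟩ ht
  constructor
  · have e1 : 1 + sF κ a t = (1 + a) * (1 - t * κ * (1 - a)) := by unfold sF; ring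
    have e2 : 1 - sF κ a t ^ 2 = (1 + a) * (1 - t * κ * (1 - a)) * (1 - sF κ a t) := by
      rw [← e1]; ring
    have h3 : 1 / 2 ≤ 1 - t * κ * (1 - a) := by
      have : 0 ≤ 1 - a := by linarith [ha.2]
      nlinarith [ha.1]
    rw [e2]
    have h4 : 0 < 1 + a := by linarith [ha.1]
    have h5 : 1 - a ≤ 1 - sF κ a t := by linarith
    have h6 : (1 + a) * (1 / 2) ≤ (1 + a) * (1 - t * κ * (1 - a)) :=
      mul_le_mul_of_nonneg_left h3 h4.le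
    have h7 := mul_le_mul h6 h5 (by linarith [ha.2]) (by positivity)
    nlinarith
  · nlinarith [ha.2]

/-- the speed of the moving point in units of `(1 - x ^ 2) / -x` -/
noncomputable def kk (κ a t : ℝ) : ℝ := κ * (1 - a ^ 2) / (1 - sF κ a t ^ 2) / -sF κ a t

lemma kk_bd {κ a t : ℝ} (hκ : 0 ≤ κ) (ha : -1 < a ∧ a ≤ -(9 / 10)) (h0 : 0 ≤ t)
    (ht : t * κ ≤ 1 / 4) : κ ≤ kk κ a t ∧ kk κ a t ≤ 3 * κ ∧
      0 ≤ κ * (1 - a ^ 2) / (1 - sF κ a t ^ 2) ∧ κ * (1 - a ^ 2) / (1 - sF κ a t ^ 2) ≤ 2 * κ := by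
  obtain ⟨h1, h2⟩ := sF_sq hκ ⟨ha.1, by linarith [ha.2]⟩ h0 ht
  have h3 := sF_le hκ ⟨ha.1.le, by linarith [ha.2]⟩ h0
  have h4 := sF_gt ⟨ha.1, by linarith [ha.2]⟩ ht
  have h5 : 0 < 1 - a ^ 2 := by nlinarith [ha.1, ha.2]
  have h6 : 0 < 1 - sF κ a t ^ 2 := by linarith
  have h7 : 0 < -sF κ a t := by linarith [ha.2]
  have b1 : κ ≤ κ * (1 - a ^ 2) / (1 - sF κ a t ^ 2) := by
    rw [le_div_iff₀ h6]; exact mul_le_mul_of_nonneg_left h2 hκ
  have b2 : κ * (1 - a ^ 2) / (1 - sF κ a t ^ 2) ≤ 2 * κ := by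
    rw [div_le_iff₀ h6]; nlinarith
  refine ⟨?_, ?_, hκ.trans b1, b2⟩
  · unfold kk
    rw [le_div_iff₀ h7]; nlinarith
  · unfold kk
    rw [div_le_iff₀ h7]; nlinarith [ha.2]

/-- one-dimensional flows of the touching points -/
structure Tch (g : ℝ → ℝ → ℝ) (m : Prop) : Prop where
  start : ∀ x, g x 0 = x
  cont : ∀ x, Continuous fun t => g x t
  near : Tendsto (fun q : ℝ × ℝ => g q.1 q.2) (𝓝 (-(1 / 2), 0)) (𝓝 (-(1 / 2)))
  pieces : ∃ v0 > 0, ∃ ε > 0, ∀ x, |x + 1 / 2| < ε →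
    (∀ τ u, 0 ≤ τ → τ ≤ u → u < ε → g x τ ≤ g x u) ∧
    (∀ τ, 0 ≤ τ → τ < ε → ∃ G, 0 ≤ G ∧ (g x τ < -(1 / 2) ∨ m → v0 ≤ G) ∧
      ∃ δ > 0, ∀ u, τ ≤ u → u ≤ τ + δ → g x u = g x τ + (u - τ) * G)

/-- free pairs at the pole stay free -/
lemma RR_persist {x x' w w' : ℝ} (h1 : -1 < x') (h2 : x' ≤ x) (h3 : x ≤ -(9 / 10))
    (h4 : -(3 / 5) ≤ w) (h5 : w ≤ w') (h6 : w' ≤ 1 / 2) (h : 1 ≤ RR x w) : 1 ≤ RR x' w' := by
  have hpi := Real.pi_pos
  rw [RR_one_le ⟨by linarith, by linarith⟩ ⟨by linarith, by linarith⟩] at h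
  rw [RR_one_le ⟨by linarith, by linarith⟩ ⟨by linarith, by linarith⟩]
  have key : ∀ y v : ℝ, -1 < y → y ≤ 1 → -1 < v → v ≤ 1 →
      cos (arccos (-v) - arccos (-y)) = √(1 - y ^ 2) * √(1 - v ^ 2) + y * v := by
    intro y v a1 a2 a3 a4
    rw [cos_sub, Real.cos_arccos (by linarith) (by linarith), Real.cos_arccos (by linarith)
      (by linarith), Real.sin_arccos, Real.sin_arccos]
    have : ∀ u : ℝ, (1 : ℝ) - (-u) ^ 2 = 1 - u ^ 2 := fun u => by ring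
    rw [this, this]; ring
  rw [← key x w (by linarith) (by linarith) (by linarith) (by linarith)] at h
  rw [← key x' w' (by linarith) (by linarith) (by linarith) (by linarith)]
  have a1 : arccos (-x) ≤ arccos (-w) := Real.arccos_le_arccos (by linarith)
  have a2 : arccos (-x') ≤ arccos (-x) := Real.arccos_le_arccos (by linarith)
  have a3 : arccos (-w) ≤ arccos (-w') := Real.arccos_le_arccos (by linarith)
  have a4 := Real.arccos_nonneg (-x')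
  have a4' := Real.arccos_nonneg (-x)
  have a5 := Real.arccos_le_pi (-w')
  have a5' := Real.arccos_le_pi (-w)
  have h60 : cos (π / 3) = 1 / 2 := Real.cos_pi_div_three
  rw [← h60] at h ⊢
  have h7 : π / 3 ≤ arccos (-w) - arccos (-x) := by
    by_contra hcon
    push Not at hcon
    have := Real.cos_lt_cos_of_nonneg_of_le_pi (by linarith) (by linarith : π / 3 ≤ π) hcon
    linarith
  exact Real.cos_le_cos_of_nonneg_of_le_pi (by linarith) (by linarith) (by linarith)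

lemma shallow_pos {x w : ℝ} (hx : -1 < x ∧ x < 0) (hw : -(1 / 2) ≤ w ∧ w ≤ 1 / 2) :
    0 < RR x w := by
  have hX := sqrt_pos_lt (z := x) ⟨hx.1, by linarith [hx.2]⟩
  have hW := sqrt_pos_lt (z := w) ⟨by linarith [hw.1], by linarith [hw.2]⟩
  unfold RR
  refine div_pos ?_ (mul_pos hX hW)
  nlinarith [hx.1, hx.2, hw.1, hw.2]

/-- numerators of the quickly closing edges -/
lemma nr_fast {κ v0 : ℝ} (hκ : 0 ≤ κ) (hv : 0 < v0) : ∃ ρ > 0, ∀ x w κ' g : ℝ, -1 < x →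
    x < -1 + ρ → |w + 1 / 2| < ρ → 0 ≤ κ' → κ' ≤ 2 * κ → v0 ≤ g →
    nr x w (-(κ' * (1 - x ^ 2))) g ≤ -(v0 / 4) := by
  refine ⟨min (1 / 6) (v0 / (12 * (κ + 1))), lt_min (by norm_num) (by positivity), ?_⟩
  intro x w κ' g h1 h2 h3 h4 h5 h6
  set ρ := min (1 / 6) (v0 / (12 * (κ + 1))) with hρ
  have r1 : ρ ≤ 1 / 6 := min_le_left _ _
  have r2 : ρ ≤ v0 / (12 * (κ + 1)) := min_le_right _ _
  have r3 : 12 * κ * ρ ≤ v0 := by
    rw [le_div_iff₀ (by positivity)] at r2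
    have : 0 < ρ := lt_min (by norm_num) (by positivity)
    nlinarith
  obtain ⟨w1, w2⟩ := abs_lt.1 h3
  have hx2 : (1 : ℝ) - x ^ 2 ≠ 0 := by nlinarith
  have hw2 : 0 < 1 - w ^ 2 := by nlinarith
  have hw3 : 1 - w ^ 2 ≤ 1 := by nlinarith [sq_nonneg w]
  have e : nr x w (-(κ' * (1 - x ^ 2))) g = -(κ' * (w - x / 2)) + (x - w / 2) * g / (1 - w ^ 2) := by
    unfold nr
    field_simp
  rw [e]
  have b1 : -(κ' * (w - x / 2)) ≤ v0 / 4 := by
    have c1 : -(w - x / 2) ≤ 3 / 2 * ρ := by linarith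
    have c2 : -(κ' * (w - x / 2)) ≤ κ' * (3 / 2 * ρ) := by nlinarith
    have c3 : κ' * (3 / 2 * ρ) ≤ 2 * κ * (3 / 2 * ρ) :=
      mul_le_mul_of_nonneg_right h5 (by nlinarith)
    nlinarith
  have b2 : (x - w / 2) * g / (1 - w ^ 2) ≤ -(v0 / 2) := by
    rw [div_le_iff₀ hw2]
    have c1 : x - w / 2 ≤ -(1 / 2) := by linarith
    have c2 : (x - w / 2) * g ≤ -(1 / 2) * g := mul_le_mul_of_nonneg_right c1 (by linarith)
    nlinarith
  linarith

/-- the edge between the moving point and a touching point, for small times -/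
structure Piece (κ a : ℝ) (g : ℝ → ℝ) (m : Prop) (B sb T : ℝ) : Prop where
  per : ∀ τ u, 0 ≤ τ → τ ≤ u → u ≤ T → 1 ≤ RR (sF κ a τ) (g τ) → 1 ≤ RR (sF κ a u) (g u)
  pole : -1 ≤ RR a (g 0) → ∀ u, 0 ≤ u → u ≤ T → -1 ≤ RR (sF κ a u) (g u)
  rng : ∀ u, 0 ≤ u → u ≤ T → -(3 / 5) ≤ g u ∧ g u ≤ 1 / 2
  pc : ∀ t0, 0 ≤ t0 → t0 < T → ∃ G, ∃ δ > 0,
    (∀ u, t0 ≤ u → u ≤ t0 + δ → g u = g t0 + (u - t0) * G) ∧
    ∀ ξ, t0 < ξ → ξ ≤ t0 + δ → ξ ≤ T → -1 ≤ RR (sF κ a t0) (g t0) → RR (sF κ a ξ) (g ξ) < 1 →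
      -1 < RR (sF κ a ξ) (g ξ) ∧
      (rate (sF κ a ξ) (g ξ) (-(κ * (1 - a ^ 2))) G ≤ -B ∨
        (¬ m ∧ 0 < RR (sF κ a ξ) (g ξ) ∧ ∃ s, 0 ≤ s ∧ s ≤ sb ∧
          rate (sF κ a ξ) (g ξ) (-(κ * (1 - a ^ 2))) G ≤
            -(kk κ a ξ * ((cos (wd (sF κ a ξ) (g ξ)) - s) / sin (wd (sF κ a ξ) (g ξ))))))

theorem Tch.local {g : ℝ → ℝ → ℝ} {m : Prop} (H : Tch g m) {κ : ℝ} (hκ : 0 ≤ κ) {B sb : ℝ}
    (hsb : 0 < sb) : ∃ ε > 0, ∀ a y, -1 < a → a < -1 + ε → |y + 1 / 2| < ε → ∀ T, 0 ≤ T → T < ε →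
      Piece κ a (g y) m B sb T := by
  obtain ⟨v0, hv0, ε0, hε0, hp⟩ := H.pieces
  obtain ⟨ρ, hρ, hfast⟩ := nr_fast hκ hv0
  -- rates of the fast edges
  have hrt : ∀ᶠ x : ℝ × ℝ in 𝓝 (-1, -(1 / 2)), rt x.1 x.2 < v0 / 4 / (|(-B)| + 1) := by
    have crt : ContinuousAt (fun x : ℝ × ℝ => rt x.1 x.2) (-1, -(1 / 2)) := by
      unfold rt; fun_prop
    have h0 : rt (-1) (-(1 / 2)) = 0 := Real.sqrt_eq_zero_of_nonpos (by norm_num)
    exact crt.eventually (gt_mem_nhds (by simp only [h0]; positivity))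
  have hs : ∀ᶠ x : ℝ × ℝ in 𝓝 (-1, -(1 / 2)), √(1 - x.1 ^ 2) / (2 * √(1 - x.2 ^ 2)) < sb := by
    have c1 : ContinuousAt (fun x : ℝ × ℝ => √(1 - x.1 ^ 2) / (2 * √(1 - x.2 ^ 2)))
        (-1, -(1 / 2)) := by
      refine ContinuousAt.div (by fun_prop) (by fun_prop) ?_
      simp only
      have : 0 < √(1 - (-(1 / 2) : ℝ) ^ 2) := Real.sqrt_pos.2 (by norm_num)
      positivity
    refine c1.eventually (gt_mem_nhds ?_)
    simp only
    norm_num [hsb]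
  obtain ⟨ρ2, hρ2, hnb⟩ := Metric.eventually_nhds_iff.1 (hrt.and hs)
  have hnb' : ∀ x w : ℝ, -1 < x → x < -1 + ρ2 → |w + 1 / 2| < ρ2 →
      rt x w < v0 / 4 / (|(-B)| + 1) ∧ √(1 - x ^ 2) / (2 * √(1 - w ^ 2)) < sb := by
    intro x w h1 h2 h3
    refine hnb (y := (x, w)) ?_
    rw [Prod.dist_eq, max_lt_iff, Real.dist_eq, Real.dist_eq]
    simp only
    refine ⟨by rw [abs_lt]; constructor <;> linarith, ?_⟩
    rwa [sub_neg_eq_add]
  set ρ' := min (min ρ ρ2) (1 / 10) with hρ'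
  have hρ'0 : 0 < ρ' := lt_min (lt_min hρ hρ2) (by norm_num)
  have q1 : ρ' ≤ ρ := (min_le_left _ _).trans (min_le_left _ _)
  have q2 : ρ' ≤ ρ2 := (min_le_left _ _).trans (min_le_right _ _)
  have q3 : ρ' ≤ 1 / 10 := min_le_right _ _
  obtain ⟨ε1, hε1, hn⟩ := Metric.tendsto_nhds_nhds.1 H.near ρ' hρ'0
  have hn' : ∀ y u : ℝ, |y + 1 / 2| < ε1 → 0 ≤ u → u < ε1 → |g y u + 1 / 2| < ρ' := by
    intro y u h1 h2 h3
    have := hn (x := (y, u)) (by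
      rw [Prod.dist_eq, max_lt_iff, Real.dist_eq, Real.dist_eq]
      simp only
      refine ⟨by rwa [sub_neg_eq_add], ?_⟩
      rw [sub_zero, abs_of_nonneg h2]; exact h3)
    rwa [Real.dist_eq, sub_neg_eq_add] at this
  set ε := min (min ε0 ε1) (min ρ' (1 / (4 * (κ + 1)))) with hε
  have hε' : 0 < ε := lt_min (lt_min hε0 hε1) (lt_min hρ'0 (by positivity))
  have e0 : ε ≤ ε0 := (min_le_left _ _).trans (min_le_left _ _)
  have e1 : ε ≤ ε1 := (min_le_left _ _).trans (min_le_right _ _)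
  have e2 : ε ≤ ρ' := (min_le_right _ _).trans (min_le_left _ _)
  have e3 : ε ≤ 1 / (4 * (κ + 1)) := (min_le_right _ _).trans (min_le_right _ _)
  refine ⟨ε, hε', ?_⟩
  intro a y ha1 ha2 hy T hT0 hTε
  have hadef : -1 < a ∧ a ≤ -(9 / 10) := ⟨ha1, by linarith⟩
  obtain ⟨hmono, hpc⟩ := hp y (by linarith)
  have htk : ∀ u, 0 ≤ u → u ≤ T → u * κ ≤ 1 / 4 := by
    intro u h1 h2
    have h3 : u ≤ 1 / (4 * (κ + 1)) := by linarith
    rw [le_div_iff₀ (by positivity)] at h3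
    nlinarith
  have hxr : ∀ u, 0 ≤ u → u ≤ T → -1 < sF κ a u ∧ sF κ a u ≤ a := fun u h1 h2 =>
    ⟨sF_gt ⟨ha1, by linarith⟩ (htk u h1 h2), sF_le hκ ⟨ha1.le, by linarith⟩ h1⟩
  have hgr : ∀ u, 0 ≤ u → u ≤ T → |g y u + 1 / 2| < ρ' := fun u h1 h2 =>
    hn' y u (by linarith) h1 (by linarith)
  -- numerators along fast pieces
  have hnum : ∀ u G, 0 ≤ u → u ≤ T → v0 ≤ G →
      nr (sF κ a u) (g y u) (-(κ * (1 - a ^ 2))) G ≤ -(v0 / 4) := by
    intro u G h1 h2 h3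
    obtain ⟨k1, k2, k3, k4⟩ := kk_bd hκ hadef h1 (htk u h1 h2)
    obtain ⟨x1, x2⟩ := hxr u h1 h2
    have h4 := hfast (sF κ a u) (g y u) (κ * (1 - a ^ 2) / (1 - sF κ a u ^ 2)) G x1
      (by linarith) (by linarith [hgr u h1 h2]) k3 k4 h3
    rwa [div_mul_cancel₀] at h4
    nlinarith
  have hfastpc : ∀ τ, 0 ≤ τ → ∀ G, v0 ≤ G → ∀ u, τ < u → u ≤ T →
      (∀ u', τ ≤ u' → u' ≤ u → g y u' = g y τ + (u' - τ) * G) →
      RR (sF κ a τ) (g y τ) < RR (sF κ a u) (g y u) := by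
    intro τ h0 G hG u h1 h2 haff
    have hseg : ∀ s ∈ Icc 0 (u - τ), sF κ a τ + s * -(κ * (1 - a ^ 2)) = sF κ a (τ + s) ∧
        g y τ + s * G = g y (τ + s) := by
      intro s hs
      refine ⟨(sF_aff κ a τ s).symm, ?_⟩
      rw [haff (τ + s) (by linarith [hs.1]) (by linarith [hs.2])]
      ring
    have h4 := seg_strictMono (x := sF κ a τ) (y := g y τ) (a := -(κ * (1 - a ^ 2))) (b := G)
      (t := u - τ) (by
        intro s hs
        obtain ⟨b1, b2⟩ := hseg s hs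
        rw [b1, b2]
        obtain ⟨x1, x2⟩ := hxr (τ + s) (by linarith [hs.1]) (by linarith [hs.2])
        have := abs_lt.1 (hgr (τ + s) (by linarith [hs.1]) (by linarith [hs.2]))
        exact ⟨⟨x1, by linarith⟩, by linarith [this.1], by linarith [this.2]⟩) (by
        intro s hs
        obtain ⟨b1, b2⟩ := hseg s hs
        rw [b1, b2]
        have := hnum (τ + s) G (by linarith [hs.1]) (by linarith [hs.2]) hG
        linarith)
    have h5 := h4 (left_mem_Icc.2 (by linarith)) (right_mem_Icc.2 (by linarith : 0 ≤ u - τ))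
      (by linarith)
    simp only [zero_mul, add_zero] at h5
    obtain ⟨b1, b2⟩ := hseg (u - τ) (right_mem_Icc.2 (by linarith : 0 ≤ u - τ))
    rw [b1, b2, show τ + (u - τ) = u by ring] at h5
    exact h5
  have hrng : ∀ u, 0 ≤ u → u ≤ T → -(3 / 5) ≤ g y u ∧ g y u ≤ 1 / 2 := by
    intro u h1 h2
    have := abs_lt.1 (hgr u h1 h2)
    exact ⟨by linarith [this.1], by linarith [this.2]⟩
  refine ⟨?_, ?_, hrng, ?_⟩
  · intro τ u h1 h2 h3 h4
    obtain ⟨x1, x2⟩ := hxr u (by linarith) h3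
    obtain ⟨x3, x4⟩ := hxr τ h1 (by linarith)
    refine RR_persist x1 ?_ (by linarith) (hrng τ h1 (by linarith)).1 (hmono τ u h1 h2 (by linarith))
      (hrng u (by linarith) h3).2 h4
    have e := sF_aff κ a τ (u - τ)
    rw [show τ + (u - τ) = u by ring] at e
    rw [e]
    have h5 : 0 ≤ 1 - a ^ 2 := by nlinarith
    have := mul_nonneg (by linarith : 0 ≤ u - τ) (mul_nonneg hκ h5)
    linarith
  · intro h0 u h1 h2
    refine stay_ge (f := fun u => RR (sF κ a u) (g y u)) h1 ?_ ?_ ?_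
    · unfold RR
      refine ContinuousOn.div ?_ ?_ ?_
      · have := H.cont y
        unfold sF
        fun_prop
      · have := H.cont y
        unfold sF
        fun_prop
      · intro τ hτ
        obtain ⟨x1, x2⟩ := hxr τ hτ.1 (hτ.2.trans h2)
        obtain ⟨w1, w2⟩ := hrng τ hτ.1 (hτ.2.trans h2)
        exact (mul_pos (sqrt_pos_lt ⟨x1, by linarith⟩) (sqrt_pos_lt ⟨by linarith, by linarith⟩)).ne'
    · simp only [sF_zero]; exact h0
    · intro τ hτ heq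
      obtain ⟨x1, x2⟩ := hxr τ hτ.1 (hτ.2.le.trans h2)
      obtain ⟨w1, w2⟩ := hrng τ hτ.1 (hτ.2.le.trans h2)
      have hdeep : g y τ < -(1 / 2) := by
        by_contra hcon
        push Not at hcon
        have := shallow_pos (x := sF κ a τ) (w := g y τ) ⟨x1, by linarith⟩ ⟨hcon, w2⟩
        rw [heq] at this
        linarith
      obtain ⟨G, hG0, hG, δ, hδ, haff⟩ := hpc τ hτ.1 (by linarith [hτ.2])
      refine ⟨δ, hδ, fun u' h3 h4 h5 => ?_⟩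
      have := hfastpc τ hτ.1 G (hG (Or.inl hdeep)) u' h3 (h5.trans h2)
        (fun u'' a1 a2 => haff u'' a1 (by linarith))
      rw [heq] at this
      exact this.le
  · intro t0 h0 hT
    obtain ⟨G, hG0, hG, δ, hδ, haff⟩ := hpc t0 h0 (by linarith)
    refine ⟨G, δ, hδ, haff, fun ξ h1 h2 h3 h4 h5 => ?_⟩
    obtain ⟨x1, x2⟩ := hxr ξ (by linarith) h3
    obtain ⟨w1, w2⟩ := hrng ξ (by linarith) h3
    have hgξ := hgr ξ (by linarith) h3
    obtain ⟨n1, n2⟩ := hnb' (sF κ a ξ) (g y ξ) x1 (by linarith) (by linarith)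
    by_cases hf : g y t0 < -(1 / 2) ∨ m
    · have hG' := hG hf
      have h6 := hfastpc t0 h0 G hG' ξ h1 h3 (fun u'' a1 a2 => haff u'' a1 (by linarith))
      refine ⟨by linarith, Or.inl ?_⟩
      have hreg := sq_lt_of_RR (z := sF κ a ξ) (w := g y ξ) ⟨x1, by linarith⟩
        ⟨by linarith, by linarith⟩ (by linarith) h5
      exact rate_le_of (δ := v0 / 4) (by linarith) (hnum ξ G (by linarith) h3 hG')
        (Real.sqrt_pos.2 hreg) n1.le
    · push Not at hf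
      obtain ⟨hf1, hf2⟩ := hf
      have hw0 : -(1 / 2) ≤ g y ξ := hf1.trans (hmono t0 ξ h0 h1.le (by linarith))
      have hpos := shallow_pos (x := sF κ a ξ) (w := g y ξ) ⟨x1, by linarith⟩ ⟨hw0, w2⟩
      refine ⟨by linarith, Or.inr ⟨hf2, hpos, √(1 - sF κ a ξ ^ 2) / (2 * √(1 - g y ξ ^ 2)),
        by positivity, n2.le, ?_⟩⟩
      have hne : (1 : ℝ) - sF κ a ξ ^ 2 ≠ 0 := by nlinarith
      have := rate_pole (x := sF κ a ξ) (w := g y ξ) (V := -(κ * (1 - a ^ 2))) (g := G)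
        (κ := κ * (1 - a ^ 2) / (1 - sF κ a ξ ^ 2)) ⟨x1, by linarith⟩ ⟨by linarith, by linarith⟩
        hG0 (by linarith) (by rw [div_mul_cancel₀ _ hne]) (by linarith) h5
      exact this

end Pool.Agent.Helper66.Kiss
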