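import Pool.Agent.Helper66.Kiss.PoleB

set_option autoImplicit false

/-! # The south pole with a moving point: walks through the moving point -/

namespace Pool.Agent.Helper66.Kiss

open Real Set Filter Topology

lemma slow_le {k κ s sb α : ℝ} (hk : 0 ≤ k) (hk3 : k ≤ 3 * κ) (s0 : 0 ≤ s) (s1 : s ≤ sb)
    (hsb2 : sb ≤ 1 / 2) (hsb3 : 6 * κ * sb ≤ 1) (h1 : 0 < α) (h2 : α ≤ π / 2) :
    -(k * ((cos α - s) / sin α)) ≤ 1 := by
  have hpi := Real.pi_pos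
  have sa : 0 < sin α := Real.sin_pos_of_pos_of_lt_pi h1 (by linarith)
  have ca : 0 ≤ cos α := Real.cos_nonneg_of_mem_Icc ⟨by linarith, h2⟩
  rcases le_or_gt s (cos α) with h | h
  · have := mul_nonneg hk (div_nonneg (by linarith : 0 ≤ cos α - s) sa.le)
    linarith
  · have h3 : 1 / 2 ≤ sin α := by
      have := sin_sq_add_cos_sq α
      nlinarith
    have h4 : -(2 * s) ≤ (cos α - s) / sin α := by
      rw [le_div_iff₀ sa]; nlinarith
    have h5 := mul_le_mul_of_nonneg_left h4 hk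
    have h6 : k * (2 * s) ≤ 3 * κ * (2 * sb) := by
      have : 0 ≤ 3 * κ := hk.trans hk3
      exact mul_le_mul hk3 (by linarith) (by linarith) this
    nlinarith

/-- **the walk through the moving point does not become too long** -/
theorem swalk {κ a T B sb C η : ℝ} {g1 g2 M : ℝ → ℝ} {m1 m2 : Prop} (hκ : 0 ≤ κ)
    (ha : -1 < a ∧ a ≤ -(9 / 10)) (hT : 0 ≤ T) (hTκ : T * κ ≤ 1 / 4) (hB : |C| + 2 ≤ B)
    (hsb2 : sb ≤ 1 / 2) (hsb3 : 6 * κ * sb ≤ 1) (hη : 0 < η)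
    (P1 : Piece κ a g1 m1 B sb T) (P2 : Piece κ a g2 m2 B sb T) (c1 : ContinuousOn g1 (Icc 0 T))
    (c2 : ContinuousOn g2 (Icc 0 T)) (cM : ContinuousOn M (Icc 0 T))
    (hM : ∀ t0 u, 0 ≤ t0 → t0 ≤ u → u ≤ T → M u ≤ M t0 + C * (u - t0))
    (f1 : -1 ≤ RR a (g1 0)) (f2 : -1 ≤ RR a (g2 0)) (n1 : RR (sF κ a T) (g1 T) < 1)
    (n2 : RR (sF κ a T) (g2 T) < 1)
    (hJ : m1 ∨ m2 ∨ ∀ ξ, 0 ≤ ξ → ξ ≤ T → ∀ θ, 0 < θ → θ ≤ π / 2 → 2 * π - M ξ < 2 * θ →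
      2 * θ < 2 * π - M ξ + η → ∀ k, κ ≤ k → k ≤ 3 * κ →
      (sb ≤ cos θ ∧ C * sin θ < 2 * k * (cos θ - sb)) ∨ (5 * π / 12 ≤ θ ∧ C + 8 * k * sb < 0))
    (h0 : wd a (g1 0) + wd a (g2 0) + M 0 ≤ 2 * π) :
    wd (sF κ a T) (g1 T) + wd (sF κ a T) (g2 T) + M T ≤ 2 * π := by
  have hpi := Real.pi_pos
  have htk : ∀ u, 0 ≤ u → u ≤ T → u * κ ≤ 1 / 4 := fun u h1 h2 =>
    (mul_le_mul_of_nonneg_right h2 hκ).trans hTκ
  have hxr : ∀ u, 0 ≤ u → u ≤ T → -1 < sF κ a u ∧ sF κ a u ≤ a := fun u h1 h2 =>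
    ⟨sF_gt ⟨ha.1, by linarith [ha.2]⟩ (htk u h1 h2),
      sF_le hκ ⟨ha.1.le, by linarith [ha.2]⟩ h1⟩
  have hxl : ∀ u, 0 ≤ u → u ≤ T → -1 < sF κ a u ∧ sF κ a u < 1 := fun u h1 h2 =>
    ⟨(hxr u h1 h2).1, by linarith [(hxr u h1 h2).2, ha.2]⟩
  have hgl : ∀ {g : ℝ → ℝ} {m : Prop}, Piece κ a g m B sb T → ∀ u, 0 ≤ u → u ≤ T →
      -1 < g u ∧ g u < 1 := by
    intro g m P u h1 h2
    have := P.rng u h1 h2
    exact ⟨by linarith [this.1], by linarith [this.2]⟩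
  have hlt : ∀ {g : ℝ → ℝ} {m : Prop}, Piece κ a g m B sb T → RR (sF κ a T) (g T) < 1 →
      ∀ u, 0 ≤ u → u ≤ T → RR (sF κ a u) (g u) < 1 := by
    intro g m P h u h1 h2
    by_contra hcon
    push Not at hcon
    have := P.per u T h1 h2 le_rfl hcon
    linarith
  have hcw : ∀ {g : ℝ → ℝ} {m : Prop}, Piece κ a g m B sb T → ContinuousOn g (Icc 0 T) →
      ContinuousOn (fun u => wd (sF κ a u) (g u)) (Icc 0 T) := by
    intro g m P hc
    simp only [wd_eq_RR]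
    refine Real.continuous_arccos.comp_continuousOn ?_
    unfold RR
    have hs : ContinuousOn (fun u => sF κ a u) (Icc 0 T) := by unfold sF; fun_prop
    refine ContinuousOn.div ?_ ?_ ?_
    · exact continuousOn_const.sub (hs.mul hc)
    · exact (continuousOn_const.sub (hs.pow 2)).sqrt.mul (continuousOn_const.sub (hc.pow 2)).sqrt
    · intro u hu
      exact (mul_pos (sqrt_pos_lt (hxl u hu.1 hu.2)) (sqrt_pos_lt (hgl P u hu.1 hu.2))).ne'
  set f : ℝ → ℝ := fun u => wd (sF κ a u) (g1 u) + wd (sF κ a u) (g2 u) + M u with hf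
  have hfc : ContinuousOn f (Icc 0 T) := ((hcw P1 c1).add (hcw P2 c2)).add cM
  show f T ≤ 2 * π
  refine stay_le hT hfc (by simp only [hf, sF_zero]; exact h0) ?_
  intro t0 ht0 heq hgt
  have hT0 : t0 < T := ht0.2
  obtain ⟨G1, δ1, hδ1, e1, r1⟩ := P1.pc t0 ht0.1 hT0
  obtain ⟨G2, δ2, hδ2, e2, r2⟩ := P2.pc t0 ht0.1 hT0
  -- closeness of the total
  obtain ⟨δ3, hδ3, hclose⟩ : ∃ δ3 > 0, ∀ u ∈ Icc 0 T, |u - t0| < δ3 → f u < 2 * π + η := by
    have h1 := hfc t0 ⟨ht0.1, hT0.le⟩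
    rw [Metric.continuousWithinAt_iff] at h1
    obtain ⟨δ, hδ, h2⟩ := h1 η hη
    refine ⟨δ, hδ, fun u hu hd => ?_⟩
    have h3 := h2 hu (by rwa [Real.dist_eq])
    rw [Real.dist_eq, heq] at h3
    linarith [(abs_lt.1 h3).2]
  set u1 := min (min (t0 + δ1) (t0 + δ2)) (min (t0 + δ3 / 2) T) with hu1
  have k0 : t0 < u1 := lt_min (lt_min (by linarith) (by linarith)) (lt_min (by linarith) hT0)
  have k1 : u1 ≤ t0 + δ1 := (min_le_left _ _).trans (min_le_left _ _)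
  have k2 : u1 ≤ t0 + δ2 := (min_le_left _ _).trans (min_le_right _ _)
  have k3 : u1 ≤ t0 + δ3 / 2 := (min_le_right _ _).trans (min_le_left _ _)
  have k4 : u1 ≤ T := (min_le_right _ _).trans (min_le_right _ _)
  set d := u1 - t0 with hd
  have hd0 : 0 < d := by linarith
  set X := sF κ a t0 with hX
  set V := -(κ * (1 - a ^ 2)) with hV
  have ex : ∀ s, X + s * V = sF κ a (t0 + s) := fun s => (sF_aff κ a t0 s).symm
  have ey1 : ∀ s ∈ Icc 0 d, g1 t0 + s * G1 = g1 (t0 + s) := by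
    intro s hs
    rw [e1 (t0 + s) (by linarith [hs.1]) (by linarith [hs.2])]; ring
  have ey2 : ∀ s ∈ Icc 0 d, g2 t0 + s * G2 = g2 (t0 + s) := by
    intro s hs
    rw [e2 (t0 + s) (by linarith [hs.1]) (by linarith [hs.2])]; ring
  have l1 : ∀ u, 0 ≤ u → u ≤ T → RR (sF κ a u) (g1 u) < 1 := hlt P1 n1
  have l2 : ∀ u, 0 ≤ u → u ≤ T → RR (sF κ a u) (g2 u) < 1 := hlt P2 n2
  have p1 := P1.pole f1 t0 ht0.1 hT0.le
  have p2 := P2.pole f2 t0 ht0.1 hT0.le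
  set A : ℝ → ℝ := fun s => wd (X + s * V) (g1 t0 + s * G1) + wd (X + s * V) (g2 t0 + s * G2) +
    C * s with hA
  have hpart : ∀ {g : ℝ → ℝ} {m : Prop} {G : ℝ}, Piece κ a g m B sb T →
      (∀ s ∈ Icc 0 d, g t0 + s * G = g (t0 + s)) →
      (∀ s ∈ Ioo 0 d, -1 < RR (sF κ a (t0 + s)) (g (t0 + s)) ∧
        RR (sF κ a (t0 + s)) (g (t0 + s)) < 1) →
      ContinuousOn (fun s => wd (X + s * V) (g t0 + s * G)) (Icc 0 d) ∧
      ∀ s ∈ Ioo 0 d, HasDerivAt (fun s => wd (X + s * V) (g t0 + s * G))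
        (rate (X + s * V) (g t0 + s * G) V G) s := by
    intro g m G P hy hlt2
    constructor
    · simp only [wd_eq_RR]
      refine Real.continuous_arccos.comp_continuousOn ?_
      intro s hs
      have h1 := hxl (t0 + s) (by linarith [ht0.1, hs.1]) (by linarith [hs.2])
      have h2 := hgl P (t0 + s) (by linarith [ht0.1, hs.1]) (by linarith [hs.2])
      rw [← ex s] at h1
      rw [← hy s hs] at h2
      exact (RR_hasDerivAt h1 h2).continuousAt.continuousWithinAt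
    · intro s hs
      have h1 := hxl (t0 + s) (by linarith [ht0.1, hs.1]) (by linarith [hs.2])
      have h2 := hgl P (t0 + s) (by linarith [ht0.1, hs.1]) (by linarith [hs.2])
      have h3 := hlt2 s hs
      rw [← ex s] at h1 h3
      rw [← hy s ⟨hs.1.le, hs.2.le⟩] at h2 h3
      exact wd_hasDerivAt h1 h2 (sq_lt_of_RR h1 h2 h3.1 h3.2)
  have hin1 : ∀ s ∈ Ioo 0 d, -1 < RR (sF κ a (t0 + s)) (g1 (t0 + s)) ∧
        RR (sF κ a (t0 + s)) (g1 (t0 + s)) < 1 := by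
    intro s hs
    have h2 := l1 (t0 + s) (by linarith [ht0.1, hs.1]) (by linarith [hs.2])
    exact ⟨(r1 (t0 + s) (by linarith [hs.1]) (by linarith [hs.2]) (by linarith [hs.2]) p1 h2).1, h2⟩
  have hin2 : ∀ s ∈ Ioo 0 d, -1 < RR (sF κ a (t0 + s)) (g2 (t0 + s)) ∧
        RR (sF κ a (t0 + s)) (g2 (t0 + s)) < 1 := by
    intro s hs
    have h2 := l2 (t0 + s) (by linarith [ht0.1, hs.1]) (by linarith [hs.2])
    exact ⟨(r2 (t0 + s) (by linarith [hs.1]) (by linarith [hs.2]) (by linarith [hs.2]) p2 h2).1, h2⟩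
  obtain ⟨q1, q1'⟩ := hpart P1 ey1 hin1
  obtain ⟨q2, q2'⟩ := hpart P2 ey2 hin2
  obtain ⟨s, hs, hs2⟩ := exists_hasDerivAt_eq_slope A
    (fun s => rate (X + s * V) (g1 t0 + s * G1) V G1 + rate (X + s * V) (g2 t0 + s * G2) V G2 +
      C * 1) hd0
    ((q1.add q2).add (by fun_prop))
    (fun s hs => ((q1' s hs).add (q2' s hs)).add ((hasDerivAt_id s).const_mul C))
  -- the slope is positive
  have hAd : A d = f u1 - M u1 + C * d := by
    have h1 := ex d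
    have h2 := ey1 d ⟨hd0.le, le_rfl⟩
    have h3 := ey2 d ⟨hd0.le, le_rfl⟩
    have h4 : t0 + d = u1 := by rw [hd]; ring
    simp only [hA, hf, h1, h2, h3, h4]; ring
  have hA0 : A 0 = f t0 - M t0 := by simp only [hA, hf, zero_mul, add_zero, mul_zero, hX]; ring
  have hpos : 0 < A d - A 0 := by
    have h1 := hgt u1 k0 k4
    have h2 := hM t0 u1 ht0.1 k0.le k4
    rw [hAd, hA0, heq]
    linarith
  have hsl : 0 < (A d - A 0) / (d - 0) := div_pos hpos (by linarith)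
  rw [← hs2, mul_one] at hsl
  set ξ := t0 + s with hξ
  have hs' : s ∈ Icc 0 d := ⟨hs.1.le, hs.2.le⟩
  rw [ex s, ey1 s hs', ey2 s hs'] at hsl
  have hξ0 : 0 ≤ ξ := by linarith [ht0.1, hs.1]
  have hξT : ξ ≤ T := by linarith [hs.2]
  obtain ⟨-, R1⟩ := r1 ξ (by linarith [hs.1]) (by linarith [hs.2]) hξT p1 (l1 ξ hξ0 hξT)
  obtain ⟨-, R2⟩ := r2 ξ (by linarith [hs.1]) (by linarith [hs.2]) hξT p2 (l2 ξ hξ0 hξT)
  obtain ⟨kb1, kb2, -, -⟩ := kk_bd hκ ha hξ0 (htk ξ hξ0 hξT)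
  have hang : ∀ {g : ℝ → ℝ}, 0 < RR (sF κ a ξ) (g ξ) → RR (sF κ a ξ) (g ξ) < 1 →
      0 < wd (sF κ a ξ) (g ξ) ∧ wd (sF κ a ξ) (g ξ) ≤ π / 2 := by
    intro g h1 h2
    rw [wd_eq_RR]
    exact ⟨Real.arccos_pos.2 h2, Real.arccos_le_pi_div_two.2 h1.le⟩
  have hCabs := le_abs_self C
  have hCabs0 := abs_nonneg C
  have one : ∀ {g : ℝ → ℝ} {m : Prop} {G : ℝ}, RR (sF κ a ξ) (g ξ) < 1 →
      (rate (sF κ a ξ) (g ξ) V G ≤ -B ∨
        (¬ m ∧ 0 < RR (sF κ a ξ) (g ξ) ∧ ∃ s, 0 ≤ s ∧ s ≤ sb ∧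
          rate (sF κ a ξ) (g ξ) V G ≤
            -(kk κ a ξ * ((cos (wd (sF κ a ξ) (g ξ)) - s) / sin (wd (sF κ a ξ) (g ξ)))))) →
      rate (sF κ a ξ) (g ξ) V G ≤ 1 := by
    intro g m G h1 h2
    rcases h2 with h2 | ⟨-, h3, s', s0, s1, h4⟩
    · linarith
    · obtain ⟨a1, a2⟩ := hang h3 h1
      exact h4.trans (slow_le (hκ.trans kb1) kb2 s0 s1 hsb2 hsb3 a1 a2)
  have o1 := one (l1 ξ hξ0 hξT) R1
  have o2 := one (l2 ξ hξ0 hξT) R2
  rcases R1 with R1 | ⟨hm1, b1, s1, s10, s11, R1⟩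
  · linarith
  rcases R2 with R2 | ⟨hm2, b2, s2, s20, s21, R2⟩
  · linarith
  rcases hJ with hJ | hJ | hJ
  · exact hm1 hJ
  · exact hm2 hJ
  obtain ⟨a1, a2⟩ := hang b1 (l1 ξ hξ0 hξT)
  obtain ⟨a3, a4⟩ := hang b2 (l2 ξ hξ0 hξT)
  have htot1 := hgt ξ (by linarith [hs.1]) hξT
  have htot2 := hclose ξ ⟨hξ0, hξT⟩ (by
    rw [abs_of_pos (by linarith [hs.1])]; linarith [hs.2])
  simp only [hf] at htot1 htot2
  set α := wd (sF κ a ξ) (g1 ξ) with hα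
  set α' := wd (sF κ a ξ) (g2 ξ) with hα'
  have hJ' := hJ ξ hξ0 hξT ((α + α') / 2) (by linarith) (by linarith) (by linarith) (by linarith)
    (kk κ a ξ) kb1 kb2
  have hk0 : 0 ≤ kk κ a ξ := hκ.trans kb1
  have hj := joint_bound (α := α) (α' := α') (θ := (α + α') / 2) (k := kk κ a ξ) (s := s1)
    (s' := s2) (sb := sb) (Cp := C) a1 a2 a3 a4 (by ring) hk0 s10 s11 s20 s21 (by
      rcases hJ' with h | ⟨h1, h2⟩
      · exact Or.inl h
      · refine Or.inr ⟨?_, h2⟩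
        have hs1 : 1 / 2 ≤ sin α := by
          rw [← Real.sin_pi_div_six]
          exact Real.sin_le_sin_of_le_of_le_pi_div_two (by linarith) a2 (by linarith)
        have hs2 : 1 / 2 ≤ sin α' := by
          rw [← Real.sin_pi_div_six]
          exact Real.sin_le_sin_of_le_of_le_pi_div_two (by linarith) a4 (by linarith)
        nlinarith)
  have e : kk κ a ξ * ((cos α - s1) / sin α + (cos α' - s2) / sin α') =
      kk κ a ξ * ((cos α - s1) / sin α) + kk κ a ξ * ((cos α' - s2) / sin α') := by ring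
  rw [e] at hj
  linarith

end Pool.Agent.Helper66.Kiss
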