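import Pool.Agent.Helper66.Kiss.PoleB
import Pool.Agent.Helper66.Kiss.PGb

set_option autoImplicit false

/-! # The south pole with a moving point: hypotheses and walks -/

namespace Pool.Agent.Helper66.Kiss

open Real Set Filter Topology

section

variable {n : ℕ} {z : Fin n → ℝ} {F : (Fin n → ℝ) → ℝ → Fin n → ℝ} {lo hi : Fin n → ℝ}
  {S : Fin n → Prop} {hn : 0 < n}

/-- two-time bound for the width of a pair which is not free -/
def Edge3T (z : Fin n → ℝ) (F : (Fin n → ℝ) → ℝ → Fin n → ℝ) (lo hi : Fin n → ℝ)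
    (S : Fin n → Prop) (i j : Fin n) (c : ℝ) : Prop :=
  ∀ᶠ p : (Fin n → ℝ) × ℝ in 𝓝 (z, 0), AdmN p.1 → (∀ k, -1 < p.1 k) → ∀ s, 0 ≤ s → s ≤ p.2 →
    -1 ≤ RR (F p.1 s i) (F p.1 s j) →
    (¬ KP z lo hi S i j → RR (F p.1 p.2 i) (F p.1 p.2 j) < 1) →
    wd (F p.1 p.2 i) (F p.1 p.2 j) ≤ wd (F p.1 s i) (F p.1 s j) + c * (p.2 - s)

lemma PHs.edgeT {Slk : (ℕ → Fin n) → ℕ → Prop} (H : PHs hn z F lo hi S Slk) {i j : Fin n} (hi' : ¬ S i) (hj : ¬ S j)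
    {c : ℝ} (h : EBs z F lo hi i j c) {γ : ℝ} (hγ : 0 < γ) : Edge3T z F lo hi S i j (c + γ) := by
  rcases h with h | ⟨s1, hc⟩
  swap
  · unfold Edge3T
    unfold MonoQ at s1
    filter_upwards [s1] with p hp ha _ s h0 hs _ _
    have h3 := mul_nonneg (by linarith : 0 ≤ c + γ) (by linarith : 0 ≤ p.2 - s)
    rcases hp ha s h0 hs with h1 | h1
    · rw [wd_eq_RR, wd_eq_RR]
      have h2 := Real.antitone_arccos h1
      linarith
    · have h2 : wd (F p.1 p.2 i) (F p.1 p.2 j) = 0 := by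
        rw [wd_eq_RR, Real.arccos_eq_zero]; exact h1
      have := wd_nonneg (F p.1 s i) (F p.1 s j)
      linarith
  rcases lt_or_ge (RR (z i) (z j) ^ 2) 1 with h1 | h1
  · have hr := h.1 h1
    have ri := H.reg i hi'
    have rj := H.reg j hj
    have a1 : -1 < RR (z i) (z j) ∧ RR (z i) (z j) < 1 := by
      constructor <;> nlinarith
    have hreg := sq_lt_of_RR ⟨ri.1, by linarith [ri.2]⟩ ⟨rj.1, by linarith [rj.2]⟩ a1.1 a1.2
    have hE := edge2T_regular (c := c + γ) ⟨ri, rj⟩ H.law.near (H.law.vel i)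
      (H.law.vel j) hreg
      (by linarith [hr.1]) (by linarith [hr.2.1]) (by linarith [hr.2.2.1]) (by linarith [hr.2.2.2])
    unfold Edge3T
    filter_upwards [hE, (H.RR_lim hi' hj).eventually (gt_mem_nhds a1.2)] with p p1 p2 ha hy s h0 hs hm _
    exact p1 ha hy s h0 hs hm p2
  · have hC := h.2 h1
    have hE := (H.negP_clo hi' hj hC).edge2T (by
      by_contra hcon
      push Not at hcon
      have ri := H.reg i hi'
      have rj := H.reg j hj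
      have := (RR_abs_lt ⟨ri.1, by linarith [ri.2]⟩ ⟨rj.1, by linarith [rj.2]⟩ hcon).1
      linarith) (c + γ)
    have hK : ¬ KP z lo hi S i j := fun h => h.2.2.2 hC
    unfold Edge3T
    filter_upwards [hE] with p p1 ha hy s h0 hs hm hl
    exact p1 ha hy s h0 hs hm (hl hK)

end

/-- constants for the joint rate -/
lemma exists_J {C κ θ0 : ℝ} (hκ : 0 ≤ κ) (h0 : 0 ≤ θ0) (h1 : θ0 ≤ π / 2)
    (h : C * sin θ0 < 2 * κ * cos θ0) : ∃ ρ > 0, ∃ sb > 0, sb ≤ 1 / 2 ∧ 6 * κ * sb ≤ 1 ∧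
      ∀ θ, |θ - θ0| < ρ → ∀ k, κ ≤ k → k ≤ 3 * κ →
      (sb ≤ cos θ ∧ C * sin θ < 2 * k * (cos θ - sb)) ∨ (5 * π / 12 ≤ θ ∧ C + 8 * k * sb < 0) := by
  have hpi := Real.pi_pos
  rcases lt_or_eq_of_le h1 with h2 | h2
  · have hc : 0 < cos θ0 := Real.cos_pos_of_mem_Ioo ⟨by linarith, h2⟩
    have e1 : ∀ᶠ x : ℝ × ℝ in 𝓝 (θ0, 0), x.2 < cos x.1 := by
      have c1 : ContinuousAt (fun x : ℝ × ℝ => cos x.1 - x.2) (θ0, 0) := by fun_prop
      filter_upwards [c1.eventually (lt_mem_nhds (by simpa using hc : (0 : ℝ) < _))] with x hx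
      linarith
    have e2 : ∀ᶠ x : ℝ × ℝ in 𝓝 (θ0, 0), C * sin x.1 < 2 * κ * (cos x.1 - x.2) := by
      have c1 : ContinuousAt (fun x : ℝ × ℝ => 2 * κ * (cos x.1 - x.2) - C * sin x.1) (θ0, 0) := by
        fun_prop
      filter_upwards [c1.eventually (lt_mem_nhds (by
        simp only [sub_zero]; linarith : (0 : ℝ) < _))] with x hx
      linarith
    obtain ⟨ρ, hρ, hh⟩ := Metric.eventually_nhds_iff.1 (e1.and e2)
    set sb := min (ρ / 2) (min (1 / 2) (1 / (6 * (κ + 1)))) with hsb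
    have s0 : 0 < sb := lt_min (by linarith) (lt_min (by norm_num) (by positivity))
    have s1 : sb ≤ ρ / 2 := min_le_left _ _
    have s2 : sb ≤ 1 / 2 := (min_le_right _ _).trans (min_le_left _ _)
    have s3 : sb ≤ 1 / (6 * (κ + 1)) := (min_le_right _ _).trans (min_le_right _ _)
    refine ⟨ρ, hρ, sb, s0, s2, ?_, ?_⟩
    · rw [le_div_iff₀ (by positivity)] at s3
      nlinarith
    · intro θ hθ k k1 k2
      obtain ⟨b1, b2⟩ := hh (y := (θ, sb)) (by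
        rw [Prod.dist_eq, max_lt_iff, Real.dist_eq, Real.dist_eq]
        simp only
        refine ⟨hθ, ?_⟩
        rw [sub_zero, abs_of_pos s0]; linarith)
      simp only at b1 b2
      refine Or.inl ⟨b1.le, b2.trans_le ?_⟩
      exact mul_le_mul_of_nonneg_right (by linarith) (by linarith)
  · rw [h2, Real.sin_pi_div_two, Real.cos_pi_div_two, mul_one, mul_zero] at h
    set sb := min (1 / 2) (min (1 / (6 * (κ + 1))) (-C / (48 * (κ + 1)))) with hsb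
    have s0 : 0 < sb := lt_min (by norm_num) (lt_min (by positivity)
      (div_pos (by linarith) (by positivity)))
    have s2 : sb ≤ 1 / 2 := min_le_left _ _
    have s3 : sb ≤ 1 / (6 * (κ + 1)) := (min_le_right _ _).trans (min_le_left _ _)
    have s4 : sb ≤ -C / (48 * (κ + 1)) := (min_le_right _ _).trans (min_le_right _ _)
    refine ⟨π / 12, by positivity, sb, s0, s2, ?_, ?_⟩
    · rw [le_div_iff₀ (by positivity)] at s3
      nlinarith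
    · intro θ hθ k k1 k2
      rw [h2] at hθ
      refine Or.inr ⟨by linarith [(abs_lt.1 hθ).1], ?_⟩
      rw [le_div_iff₀ (by positivity)] at s4
      have : k * sb ≤ 3 * κ * sb := mul_le_mul_of_nonneg_right k2 s0.le
      nlinarith

/-- the ten-point law of one-dimensional flows -/
def lawF (f : Fin 10 → ℝ → ℝ → ℝ) (y : Fin 10 → ℝ) (t : ℝ) (l : Fin 10) : ℝ := f l (y l) t

/-- hypotheses at a point of the south pole; `Hp l m` says that the hop from `l` to `m` can pass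
the moving point -/
structure PP (w : Fin 10 → ℝ) (f : Fin 10 → ℝ → ℝ → ℝ) (lo hi : Fin 10 → ℝ) (κ : ℝ)
    (mov : Fin 10 → Prop) (Hp : Fin 10 → Fin 10 → Prop) (Slk : (ℕ → Fin 10) → ℕ → Prop) :
    Prop where
  ph : PH (n := 10) (by norm_num) w (lawF f) lo hi (fun _ => False)
  κ0 : 0 ≤ κ
  κs : ∀ χ m, Slk χ m → 0 < κ
  rng : ∀ l, -(1 / 2) ≤ w l
  tch : ∀ l, w l = -(1 / 2) → Tch (f l) (mov l)
  pwalk : ∀ (v : ℕ → ℕ) (m : ℕ), 1 ≤ m → m + 1 ≤ 10 → IsWalk 10 v (m + 1) →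
    v (m + 1) = v 0 + 10 → Hp (clN 10 (by norm_num) (v m)) (clN 10 (by norm_num) (v 0)) →
    w (clN 10 (by norm_num) (v 0)) = -(1 / 2) →
    w (clN 10 (by norm_num) (v m)) = -(1 / 2) →
    (∀ k < m, RR (w (clN 10 (by norm_num) (v k))) (w (clN 10 (by norm_num) (v (k + 1)))) ≤ 1) →
    twn w (fun k => clN 10 (by norm_num) (v k)) m ≤ 2 * π →
    ¬ Slk (fun k => clN 10 (by norm_num) (v k)) m →
    ∃ c : ℕ → ℝ, (∀ k < m, EBs w (lawF f) lo hi (clN 10 (by norm_num) (v k))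
      (clN 10 (by norm_num) (v (k + 1))) (c k)) ∧
      (twn w (fun k => clN 10 (by norm_num) (v k)) m < π ∨ mov (clN 10 (by norm_num) (v 0)) ∨
        mov (clN 10 (by norm_num) (v m)) ∨
        (∑ k ∈ Finset.range m, c k) *
          sin ((2 * π - twn w (fun k => clN 10 (by norm_num) (v k)) m) / 2) <
        2 * κ * cos ((2 * π - twn w (fun k => clN 10 (by norm_num) (v k)) m) / 2))

section

variable {w : Fin 10 → ℝ} {f : Fin 10 → ℝ → ℝ → ℝ} {lo hi : Fin 10 → ℝ} {κ : ℝ}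
  {mov : Fin 10 → Prop} {Hp : Fin 10 → Fin 10 → Prop} {Slk : (ℕ → Fin 10) → ℕ → Prop}

/-- pairs of the moving point and a point above the touching height are free -/
lemma PP.free (H : PP w f lo hi κ mov Hp Slk) {l : Fin 10} (hl : w l ≠ -(1 / 2)) :
    ∀ᶠ x : ((Fin 10 → ℝ) × ℝ) × ℝ in 𝓝 ((w, 0), -1), AdmN x.1.1 → (∀ k, -1 < x.1.1 k) →
      -1 < x.2 → 0 ≤ x.1.2 → 1 ≤ RR (sF κ x.2 x.1.2) (lawF f x.1.1 x.1.2 l) := by
  have h1 : Tendsto (fun x : ((Fin 10 → ℝ) × ℝ) × ℝ => lawF f x.1.1 x.1.2 l) (𝓝 ((w, 0), -1))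
      (𝓝 (w l)) := (H.ph.comp l).comp (continuous_fst.tendsto ((w, (0 : ℝ)), (-1 : ℝ)))
  have h2 : Tendsto (fun x : ((Fin 10 → ℝ) × ℝ) × ℝ => sF κ x.2 x.1.2) (𝓝 ((w, 0), -1))
      (𝓝 (-1)) := by
    have hc : Continuous fun x : ((Fin 10 → ℝ) × ℝ) × ℝ => sF κ x.2 x.1.2 := by
      unfold sF; fun_prop
    refine hc.tendsto' _ _ ?_
    simp only [sF_zero]
  have h3 : Tendsto (fun x : ((Fin 10 → ℝ) × ℝ) × ℝ => √(1 - sF κ x.2 x.1.2 ^ 2) *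
      √(1 - lawF f x.1.1 x.1.2 l ^ 2) + sF κ x.2 x.1.2 * lawF f x.1.1 x.1.2 l)
      (𝓝 ((w, 0), -1)) (𝓝 (√(1 - (-1) ^ 2) * √(1 - w l ^ 2) + -1 * w l)) :=
    (((Real.continuous_sqrt.tendsto _).comp (tendsto_const_nhds.sub (h2.pow 2))).mul
      ((Real.continuous_sqrt.tendsto _).comp (tendsto_const_nhds.sub (h1.pow 2)))).add (h2.mul h1)
  have hlt : √(1 - (-1) ^ 2) * √(1 - w l ^ 2) + -1 * w l < 1 / 2 := by
    have := lt_of_le_of_ne (H.rng l) (Ne.symm hl)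
    norm_num
    linarith
  have h4 : ∀ᶠ x : ((Fin 10 → ℝ) × ℝ) × ℝ in 𝓝 ((w, 0), -1), x.2 ≤ 0 ∧ x.1.2 * κ ≤ 1 / 4 := by
    have c1 : Tendsto (fun x : ((Fin 10 → ℝ) × ℝ) × ℝ => x.2) (𝓝 ((w, 0), -1)) (𝓝 (-1)) :=
      continuous_snd.tendsto' _ _ rfl
    have c2 : Tendsto (fun x : ((Fin 10 → ℝ) × ℝ) × ℝ => x.1.2 * κ) (𝓝 ((w, 0), -1))
        (𝓝 (0 * κ)) := by
      have : Continuous fun x : ((Fin 10 → ℝ) × ℝ) × ℝ => x.1.2 * κ := by fun_prop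
      exact this.tendsto' _ _ rfl
    exact ((c1.eventually (gt_mem_nhds (by norm_num : (-1 : ℝ) < 0))).mono fun x hx => le_of_lt hx).and
      ((c2.eventually (gt_mem_nhds (by norm_num : 0 * κ < 1 / 4))).mono fun x hx => le_of_lt hx)
  have h5 : ∀ᶠ x : ((Fin 10 → ℝ) × ℝ) × ℝ in 𝓝 ((w, 0), -1), AdmN x.1.1 → (∀ k, -1 < x.1.1 k) →
      0 ≤ x.1.2 → ∀ k, -1 < lawF f x.1.1 x.1.2 k ∧ lawF f x.1.1 x.1.2 k ≤ 1 / 2 :=
    (continuous_fst.tendsto ((w, (0 : ℝ)), (-1 : ℝ))).eventually H.ph.range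
  filter_upwards [h3.eventually (gt_mem_nhds hlt), h4, h5] with x x1 x2 x3 ha hy hx h0
  have hr := x3 ha hy h0 l
  rw [RR_one_le ⟨sF_gt ⟨hx, by linarith [x2.1]⟩ x2.2, by
    linarith [sF_le H.κ0 ⟨hx.le, by linarith [x2.1]⟩ h0, x2.1]⟩ hr]
  exact x1.le

/-- the local description of the edges at the moving point -/
lemma PP.piece (H : PP w f lo hi κ mov Hp Slk) {l : Fin 10} (hl : w l = -(1 / 2)) (B : ℝ) {sb : ℝ}
    (hsb : 0 < sb) : ∀ᶠ x : ((Fin 10 → ℝ) × ℝ) × ℝ in 𝓝 ((w, 0), -1), -1 < x.2 → 0 ≤ x.1.2 →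
      Piece κ x.2 (f l (x.1.1 l)) (mov l) B sb x.1.2 := by
  obtain ⟨ε, hε, h⟩ := (H.tch l hl).local H.κ0 (B := B) hsb
  have c1 : Tendsto (fun x : ((Fin 10 → ℝ) × ℝ) × ℝ => x.2) (𝓝 ((w, 0), -1)) (𝓝 (-1)) :=
    continuous_snd.tendsto' _ _ rfl
  have c2 : Tendsto (fun x : ((Fin 10 → ℝ) × ℝ) × ℝ => x.1.2) (𝓝 ((w, 0), -1)) (𝓝 0) :=
    (continuous_snd.comp continuous_fst).tendsto' _ _ rfl
  have c3 : Tendsto (fun x : ((Fin 10 → ℝ) × ℝ) × ℝ => |x.1.1 l + 1 / 2|) (𝓝 ((w, 0), -1))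
      (𝓝 0) := by
    have : Continuous fun x : ((Fin 10 → ℝ) × ℝ) × ℝ => |x.1.1 l + 1 / 2| := by fun_prop
    refine this.tendsto' _ _ ?_
    simp only [hl]; norm_num
  filter_upwards [c1.eventually (gt_mem_nhds (by linarith : (-1 : ℝ) < -1 + ε)),
    c2.eventually (gt_mem_nhds hε), c3.eventually (gt_mem_nhds hε)] with x x1 x2 x3 h1 h2
  exact h x.2 (x.1.1 l) h1 x1 x3 x.1.2 h2 x2

/-- the predicate for walks through the moving point -/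
def SWp (w : Fin 10 → ℝ) (f : Fin 10 → ℝ → ℝ → ℝ) (lo hi : Fin 10 → ℝ) (κ : ℝ)
    (Hp : Fin 10 → Fin 10 → Prop) (Slk : (ℕ → Fin 10) → ℕ → Prop) (δ : ℝ)
    (x : ((Fin 10 → ℝ) × ℝ) × ℝ) (χ : ℕ → Fin 10) (r : ℕ) : Prop :=
  AdmN x.1.1 → (∀ k, -1 < x.1.1 k) → (∀ i j, i ≠ j → -1 ≤ RR (x.1.1 i) (x.1.1 j)) →
  -1 < x.2 → (∀ k, -1 ≤ RR x.2 (x.1.1 k)) → 0 ≤ x.1.2 → ∀ m, 1 ≤ m → r = m + 1 →
  Hp (χ m) (χ 0) →
  (∀ k < m, ¬ (¬ KP w lo hi (fun _ => False) (χ k) (χ (k + 1)) ∧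
    1 ≤ RR (lawF f x.1.1 x.1.2 (χ k)) (lawF f x.1.1 x.1.2 (χ (k + 1))))) →
  RR (sF κ x.2 x.1.2) (lawF f x.1.1 x.1.2 (χ 0)) < 1 →
  RR (sF κ x.2 x.1.2) (lawF f x.1.1 x.1.2 (χ m)) < 1 →
  wd x.2 (x.1.1 (χ 0)) + wd x.2 (x.1.1 (χ m)) + twn x.1.1 χ m ≤ 2 * π →
  (Slk χ m → wd x.2 (x.1.1 (χ 0)) + wd x.2 (x.1.1 (χ m)) + twn x.1.1 χ m ≤ 2 * π - δ) →
  wd (sF κ x.2 x.1.2) (lawF f x.1.1 x.1.2 (χ 0)) + wd (sF κ x.2 x.1.2) (lawF f x.1.1 x.1.2 (χ m)) +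
    twn (lawF f x.1.1 x.1.2) χ m ≤ 2 * π

end

end Pool.Agent.Helper66.Kiss
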