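import Pool.Agent.Helper66.Kiss.PoleC
import Pool.Agent.Helper66.Kiss.PoleD

set_option autoImplicit false

/-! # The south pole with a moving point: no walk becomes too long -/

namespace Pool.Agent.Helper66.Kiss

open Real Set Filter Topology

section

variable {w : Fin 10 → ℝ} {f : Fin 10 → ℝ → ℝ → ℝ} {lo hi : Fin 10 → ℝ} {κ : ℝ}
  {mov : Fin 10 → Prop} {Hp : Fin 10 → Fin 10 → Prop} {Slk : (ℕ → Fin 10) → ℕ → Prop}

/-- the widths of the inner edges are continuous along the law -/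
lemma twn_contOn {y : Fin 10 → ℝ} {T : ℝ} (hc : ∀ k, Continuous fun t => f k (y k) t)
    (hr : ∀ u, 0 ≤ u → u ≤ T → ∀ k, -1 < lawF f y u k ∧ lawF f y u k ≤ 1 / 2) (χ : ℕ → Fin 10)
    (m : ℕ) : ContinuousOn (fun u => twn (lawF f y u) χ m) (Icc 0 T) := by
  unfold twn
  refine continuousOn_finsetSum _ fun k _ => ?_
  simp only [wd_eq_RR]
  refine Real.continuous_arccos.comp_continuousOn ?_
  refine RR_continuousOn (p := fun u => lawF f y u) (fun k => (hc k).continuousOn) ?_ _ _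
  intro u hu k
  exact hr u hu.1 hu.2 k

/-- a slack walk through the moving point stays short -/
theorem PP.swalk_slack (H : PP w f lo hi κ mov Hp Slk) (χ : ℕ → Fin 10) (m : ℕ) (hκ : 0 < κ)
    (h0 : w (χ 0) = -(1 / 2)) (h1 : w (χ m) = -(1 / 2)) (hge : twn w χ m ≤ 2 * π) {δ : ℝ}
    (hδ : 0 < δ) : ∀ᶠ x : ((Fin 10 → ℝ) × ℝ) × ℝ in 𝓝 ((w, 0), -1), -1 < x.2 →
      (∀ k, -1 ≤ RR x.2 (x.1.1 k)) → 0 ≤ x.1.2 →
      RR (sF κ x.2 x.1.2) (lawF f x.1.1 x.1.2 (χ 0)) < 1 →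
      RR (sF κ x.2 x.1.2) (lawF f x.1.1 x.1.2 (χ m)) < 1 →
      wd x.2 (x.1.1 (χ 0)) + wd x.2 (x.1.1 (χ m)) + twn x.1.1 χ m ≤ 2 * π - δ →
      wd (sF κ x.2 x.1.2) (lawF f x.1.1 x.1.2 (χ 0)) +
        wd (sF κ x.2 x.1.2) (lawF f x.1.1 x.1.2 (χ m)) + twn (lawF f x.1.1 x.1.2) χ m ≤
        2 * π := by
  have hpi := Real.pi_pos
  have hpi3 := Real.pi_gt_three
  have hfst : Tendsto (fun x : ((Fin 10 → ℝ) × ℝ) × ℝ => x.1) (𝓝 ((w, 0), -1)) (𝓝 (w, 0)) :=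
    continuous_fst.tendsto ((w, (0 : ℝ)), (-1 : ℝ))
  set M0 := twn w χ m with hM0
  -- the bound
  obtain ⟨G, hG1, hG2, hG3, hGπ⟩ : ∃ G, M0 < G ∧ G < M0 + δ / 2 ∧ G < M0 + 1 ∧ G ≠ π := by
    set e := min (δ / 2) 1 with he
    have e0 : 0 < e := lt_min (by linarith) one_pos
    have e1 : e ≤ δ / 2 := min_le_left _ _
    have e2 : e ≤ 1 := min_le_right _ _
    by_cases h : M0 + e / 2 = π
    · exact ⟨M0 + e / 4, by linarith, by linarith, by linarith, by intro h'; linarith⟩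
    · exact ⟨M0 + e / 2, by linarith, by linarith, by linarith, h⟩
  obtain ⟨ρ, hρ, sb, hsb, hsb2, hsb3, hJ⟩ : ∃ ρ > 0, ∃ sb > 0, sb ≤ 1 / 2 ∧
      6 * κ * sb ≤ 1 ∧ (∀ θ, 0 < θ → θ ≤ π / 2 →
        2 * π - G < 2 * θ → 2 * θ < 2 * π - G + ρ → ∀ k, κ ≤ k → k ≤ 3 * κ →
        (sb ≤ cos θ ∧ 0 * sin θ < 2 * k * (cos θ - sb)) ∨
        (5 * π / 12 ≤ θ ∧ 0 + 8 * k * sb < 0)) := by
    rcases lt_or_gt_of_ne hGπ with h | h
    · refine ⟨1, one_pos, min (1 / 2) (1 / (6 * (κ + 1))), ?_, min_le_left _ _, ?_, ?_⟩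
      · exact lt_min (by norm_num) (by positivity)
      · have s3 : min (1 / 2) (1 / (6 * (κ + 1))) ≤ 1 / (6 * (κ + 1)) := min_le_right _ _
        have s0 : 0 < min (1 / 2) (1 / (6 * (κ + 1))) := lt_min (by norm_num) (by positivity)
        rw [le_div_iff₀ (by positivity)] at s3
        nlinarith
      · intro θ h1 h2 h3
        exfalso
        linarith
    · set g := (G - π) / 4 with hg
      have hg0 : 0 < g := by rw [hg]; linarith
      have hgπ : g < π := by rw [hg]; linarith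
      have hs : 0 < sin g := Real.sin_pos_of_pos_of_lt_pi hg0 hgπ
      set sb := min (sin g / 2) (min (1 / 2) (1 / (6 * (κ + 1)))) with hsb
      have s0 : 0 < sb := lt_min (by linarith) (lt_min (by norm_num) (by positivity))
      have s1 : sb ≤ sin g / 2 := min_le_left _ _
      have s2 : sb ≤ 1 / 2 := (min_le_right _ _).trans (min_le_left _ _)
      have s3 : sb ≤ 1 / (6 * (κ + 1)) := (min_le_right _ _).trans (min_le_right _ _)
      refine ⟨(G - π) / 2, by linarith, sb, s0, s2, ?_, ?_⟩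
      · rw [le_div_iff₀ (by positivity)] at s3
        nlinarith
      · intro θ h1 h2 h3 h4 k k1 k2
        have h5 : θ ≤ π / 2 - g := by rw [hg]; linarith
        have h6 : sin g ≤ cos θ := by
          rw [← Real.cos_pi_div_two_sub]
          exact Real.cos_le_cos_of_nonneg_of_le_pi h1.le (by linarith) h5
        refine Or.inl ⟨by linarith, ?_⟩
        rw [zero_mul]
        exact mul_pos (by linarith) (by linarith)
  have ev1 := H.piece h0 (|0| + 2) hsb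
  have ev2 := H.piece h1 (|0| + 2) hsb
  have ev3 : ∀ᶠ x : ((Fin 10 → ℝ) × ℝ) × ℝ in 𝓝 ((w, 0), -1),
      twn (lawF f x.1.1 x.1.2) χ m < G := by
    have hT : Tendsto (fun p : (Fin 10 → ℝ) × ℝ => twn (lawF f p.1 p.2) χ m) (𝓝 (w, 0))
        (𝓝 (twn w χ m)) := by
      unfold twn
      refine tendsto_finsetSum _ fun k _ => ?_
      exact wd_tendsto' (H.ph.comp _) (H.ph.comp _) (H.ph.reg _ fun h => h) (H.ph.reg _ fun h => h)
    exact hfst.eventually (hT.eventually (gt_mem_nhds hG1))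
  have ev4 : ∀ᶠ x : ((Fin 10 → ℝ) × ℝ) × ℝ in 𝓝 ((w, 0), -1), M0 - δ / 2 < twn x.1.1 χ m := by
    have hT : Tendsto (fun x : ((Fin 10 → ℝ) × ℝ) × ℝ => twn x.1.1 χ m) (𝓝 ((w, 0), -1))
        (𝓝 (twn w χ m)) := by
      unfold twn
      refine tendsto_finsetSum _ fun k _ => ?_
      exact wd_tendsto' ((fst_comp (χ k)).comp hfst) ((fst_comp (χ (k + 1))).comp hfst)
        (H.ph.reg _ fun h => h) (H.ph.reg _ fun h => h)
    exact hT.eventually (lt_mem_nhds (by linarith))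
  have ev8 : ∀ᶠ x : ((Fin 10 → ℝ) × ℝ) × ℝ in 𝓝 ((w, 0), -1), x.2 ≤ -(9 / 10) ∧
      x.1.2 * κ ≤ 1 / 4 := by
    have c1 : Tendsto (fun x : ((Fin 10 → ℝ) × ℝ) × ℝ => x.2) (𝓝 ((w, 0), -1)) (𝓝 (-1)) :=
      continuous_snd.tendsto' _ _ rfl
    have c2 : Tendsto (fun x : ((Fin 10 → ℝ) × ℝ) × ℝ => x.1.2 * κ) (𝓝 ((w, 0), -1))
        (𝓝 (0 * κ)) := by
      have : Continuous fun x : ((Fin 10 → ℝ) × ℝ) × ℝ => x.1.2 * κ := by fun_prop
      exact this.tendsto' _ _ rfl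
    exact ((c1.eventually (gt_mem_nhds (by norm_num : (-1 : ℝ) < -(9 / 10)))).mono
        fun x hx => le_of_lt hx).and
      ((c2.eventually (gt_mem_nhds (by norm_num : 0 * κ < 1 / 4))).mono fun x hx => le_of_lt hx)
  filter_upwards [ev1, ev2, ev3, ev4, ev8] with x g1 g2 g3 g4 g8 hx1 hqx ht hn0 hn1 htot
  have hstart : ∀ y, lawF f y 0 = y := H.ph.law.start
  have hcont : ∀ k, Continuous fun t => f k (x.1.1 k) t := fun k => H.ph.law.cont x.1.1 k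
  have hst0 : ∀ k, f k (x.1.1 k) 0 = x.1.1 k := fun k => congrFun (hstart x.1.1) k
  have key := swalk (C := 0) (B := |0| + 2) (η := ρ) H.κ0 ⟨hx1, g8.1⟩ ht g8.2 le_rfl hsb2 hsb3 hρ
    (g1 := f (χ 0) (x.1.1 (χ 0))) (g2 := f (χ m) (x.1.1 (χ m)))
    (M := fun _ => G) (g1 hx1 ht) (g2 hx1 ht)
    (hcont _).continuousOn (hcont _).continuousOn continuousOn_const
    (fun t0 u _ _ _ => by simp) (by rw [hst0]; exact hqx _) (by rw [hst0]; exact hqx _) hn0 hn1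
    (Or.inr (Or.inr fun ξ _ _ θ h3 h4 h5 h6 k k1 k2 => hJ θ h3 h4 h5 h6 k k1 k2)) (by
      simp only [hst0]
      linarith)
  have e1 : lawF f x.1.1 x.1.2 (χ 0) = f (χ 0) (x.1.1 (χ 0)) x.1.2 := rfl
  have e2 : lawF f x.1.1 x.1.2 (χ m) = f (χ m) (x.1.1 (χ m)) x.1.2 := rfl
  rw [e1, e2]
  linarith

theorem PP.swalk_one (H : PP w f lo hi κ mov Hp Slk) {v : ℕ → ℕ} {m : ℕ} (hm : 1 ≤ m) (hm10 : m + 1 ≤ 10)
    (hv : IsWalk 10 v (m + 1)) (he : v (m + 1) = v 0 + 10) {δ : ℝ} (hδ : 0 < δ) :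
    ∀ᶠ x : ((Fin 10 → ℝ) × ℝ) × ℝ in 𝓝 ((w, 0), -1),
      SWp w f lo hi κ Hp Slk δ x (fun k => clN 10 (by norm_num) (v k)) (m + 1) := by
  classical
  have hpi := Real.pi_pos
  set χ : ℕ → Fin 10 := fun k => clN 10 (by norm_num) (v k) with hχ
  have hne : ∀ k < m, χ k ≠ χ (k + 1) := fun k hk => clN_step_ne _ (hv k (by omega))
  have hfst : Tendsto (fun x : ((Fin 10 → ℝ) × ℝ) × ℝ => x.1) (𝓝 ((w, 0), -1)) (𝓝 (w, 0)) :=
    continuous_fst.tendsto ((w, (0 : ℝ)), (-1 : ℝ))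
  have hmeq : ∀ m', m + 1 = m' + 1 → m' = m := fun m' h => by omega
  -- touching ends
  by_cases h0 : w (χ 0) = -(1 / 2)
  swap
  · filter_upwards [H.free h0] with x hx ha hy hq hx1 hqx ht m' _ hm' _ _ hn0 _ _ _
    have := hx ha hy hx1 ht
    linarith
  by_cases h1 : w (χ m) = -(1 / 2)
  swap
  · filter_upwards [H.free h1] with x hx ha hy hq hx1 hqx ht m' _ hm' _ _ _ hn1 _ _
    rw [hmeq m' hm'] at hn1
    have := hx ha hy hx1 ht
    linarith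
  -- inner edges
  by_cases hE : ∀ k < m, RR (w (χ k)) (w (χ (k + 1))) ≤ 1
  swap
  · push Not at hE
    obtain ⟨k, hk, hE⟩ := hE
    have hl := hfst.eventually ((H.ph.RR_lim (i := χ k) (j := χ (k + 1)) (fun h => h) (fun h => h)).eventually
      (lt_mem_nhds hE))
    filter_upwards [hl] with x hx ha hy hq hx1 hqx ht m' _ hm' _ hnf _ _ _ _
    rw [hmeq m' hm'] at hnf
    refine absurd ⟨?_, hx.le⟩ (hnf k hk)
    rintro ⟨-, -, b3, -⟩
    linarith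
  -- the total
  rcases lt_or_ge (2 * π) (twn w χ m) with hlt | hge
  · have hT : Tendsto (fun x : ((Fin 10 → ℝ) × ℝ) × ℝ => twn x.1.1 χ m) (𝓝 ((w, 0), -1))
        (𝓝 (twn w χ m)) := by
      unfold twn
      refine tendsto_finsetSum _ fun k _ => ?_
      exact wd_tendsto' ((fst_comp (χ k)).comp hfst) ((fst_comp (χ (k + 1))).comp hfst)
        (H.ph.reg _ fun h => h) (H.ph.reg _ fun h => h)
    filter_upwards [hT.eventually (lt_mem_nhds hlt)] with x hx ha hy hq hx1 hqx ht m' _ hm' _ _ _ _ h6 _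
    rw [hmeq m' hm'] at h6
    have := wd_nonneg x.2 (x.1.1 (χ 0))
    have := wd_nonneg x.2 (x.1.1 (χ m))
    linarith
  by_cases hHp : Hp (χ m) (χ 0)
  swap
  · refine Eventually.of_forall ?_
    intro x ha hy hq hx1 hqx ht m' _ hm' h
    rw [hmeq m' hm'] at h
    exact absurd h hHp
  by_cases hsl : Slk χ m
  · filter_upwards [H.swalk_slack χ m (H.κs χ m hsl) h0 h1 hge hδ] with x hx ha hy hq hx1 hqx ht m' _
      hm' _ _ hn0 hn1 _ h7
    have hmm := hmeq m' hm'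
    subst hmm
    exact hx hx1 hqx ht hn0 hn1 (h7 hsl)
  obtain ⟨c, hc, hcase⟩ := H.pwalk v m hm hm10 hv he hHp h0 h1 hE hge hsl
  -- the constants
  set M0 := twn w χ m with hM0
  have hM00 : 0 ≤ M0 := by
    rw [hM0]; unfold twn
    exact Finset.sum_nonneg fun k _ => wd_nonneg _ _
  obtain ⟨γ, hγ, ρ, hρ, sb, hsb, hsb2, hsb3, hJ⟩ : ∃ γ > 0, ∃ ρ > 0, ∃ sb > 0, sb ≤ 1 / 2 ∧
      6 * κ * sb ≤ 1 ∧ (mov (χ 0) ∨ mov (χ m) ∨ ∀ Mξ, |Mξ - M0| < ρ → ∀ θ, 0 < θ → θ ≤ π / 2 →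
        2 * π - Mξ < 2 * θ → 2 * θ < 2 * π - Mξ + ρ → ∀ k, κ ≤ k → k ≤ 3 * κ →
        (sb ≤ cos θ ∧ ((∑ k ∈ Finset.range m, c k) + m * γ) * sin θ < 2 * k * (cos θ - sb)) ∨
        (5 * π / 12 ≤ θ ∧ ((∑ k ∈ Finset.range m, c k) + m * γ) + 8 * k * sb < 0)) := by
    have hκ := H.κ0
    have hdef : ∃ sb > 0, sb ≤ 1 / 2 ∧ 6 * κ * sb ≤ 1 := by
      refine ⟨min (1 / 2) (1 / (6 * (κ + 1))), lt_min (by norm_num) (by positivity),
        min_le_left _ _, ?_⟩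
      have s3 : min (1 / 2) (1 / (6 * (κ + 1))) ≤ 1 / (6 * (κ + 1)) := min_le_right _ _
      have s0 : 0 < min (1 / 2) (1 / (6 * (κ + 1))) := lt_min (by norm_num) (by positivity)
      rw [le_div_iff₀ (by positivity)] at s3
      nlinarith
    rcases lt_or_ge M0 π with hM | hM
    · obtain ⟨sb, s1, s2, s3⟩ := hdef
      refine ⟨1, one_pos, π - M0, by linarith, sb, s1, s2, s3, Or.inr (Or.inr ?_)⟩
      intro Mξ h1 θ h2 h3 h4 h5
      have := (abs_lt.1 h1).2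
      linarith
    rcases hcase with hcase | hcase | hcase | hcase
    · linarith
    · obtain ⟨sb, s1, s2, s3⟩ := hdef
      exact ⟨1, one_pos, 1, one_pos, sb, s1, s2, s3, Or.inl hcase⟩
    · obtain ⟨sb, s1, s2, s3⟩ := hdef
      exact ⟨1, one_pos, 1, one_pos, sb, s1, s2, s3, Or.inr (Or.inl hcase)⟩
    · set θ0 := (2 * π - M0) / 2 with hθ0
      set sl := 2 * κ * cos θ0 - (∑ k ∈ Finset.range m, c k) * sin θ0 with hsl
      have hsl0 : 0 < sl := by rw [hsl]; linarith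
      have hm0 : (0 : ℝ) < m := by exact_mod_cast hm
      set γ := sl / (2 * m) with hγ
      have hγ0 : 0 < γ := by positivity
      have hmγ : m * γ = sl / 2 := by rw [hγ]; field_simp
      have hs1 : sin θ0 ≤ 1 := Real.sin_le_one _
      have hs0 : 0 ≤ sin θ0 := Real.sin_nonneg_of_nonneg_of_le_pi (by rw [hθ0]; linarith)
        (by rw [hθ0]; linarith)
      obtain ⟨ρ, hρ, sb, s1, s2, s3, hJ⟩ := exists_J (C := (∑ k ∈ Finset.range m, c k) + m * γ)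
        (κ := κ) (θ0 := θ0) hκ (by rw [hθ0]; linarith) (by rw [hθ0]; linarith) (by
          rw [hmγ]; nlinarith)
      refine ⟨γ, hγ0, ρ, hρ, sb, s1, s2, s3, Or.inr (Or.inr ?_)⟩
      intro Mξ h1 θ h2 h3 h4 h5 k k1 k2
      have h6 := abs_lt.1 h1
      refine hJ θ ?_ k k1 k2
      rw [abs_lt, hθ0]
      constructor
      · linarith [h6.1]
      · linarith [h6.1]
  set C := (∑ k ∈ Finset.range m, c k) + m * γ with hC
  -- eventual facts
  have ev1 := H.piece h0 (|C| + 2) hsb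
  have ev2 := H.piece h1 (|C| + 2) hsb
  have ev3 : ∀ᶠ x : ((Fin 10 → ℝ) × ℝ) × ℝ in 𝓝 ((w, 0), -1), ∀ u, 0 ≤ u → u ≤ x.1.2 →
      |twn (lawF f x.1.1 u) χ m - M0| < ρ := by
    have hT : Tendsto (fun p : (Fin 10 → ℝ) × ℝ => twn (lawF f p.1 p.2) χ m) (𝓝 (w, 0))
        (𝓝 (twn w χ m)) := by
      unfold twn
      refine tendsto_finsetSum _ fun k _ => ?_
      exact wd_tendsto' (H.ph.comp _) (H.ph.comp _) (H.ph.reg _ fun h => h) (H.ph.reg _ fun h => h)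
    have h5 := hT.eventually (Metric.ball_mem_nhds _ hρ)
    have h6 := hfst.eventually (ev_all_le h5)
    filter_upwards [h6] with x hx u h1 h2
    have := hx u h1 h2
    rwa [Real.dist_eq] at this
  have ev4 : ∀ᶠ x : ((Fin 10 → ℝ) × ℝ) × ℝ in 𝓝 ((w, 0), -1), ∀ u, 0 ≤ u → u ≤ x.1.2 →
      AdmN x.1.1 → (∀ k, -1 < x.1.1 k) → ∀ k, -1 < lawF f x.1.1 u k ∧ lawF f x.1.1 u k ≤ 1 / 2 := by
    have h6 := hfst.eventually (ev_all_le H.ph.range)
    filter_upwards [h6] with x hx u h1 h2 ha hy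
    exact hx u h1 h2 ha hy h1
  have ev5 : ∀ᶠ x : ((Fin 10 → ℝ) × ℝ) × ℝ in 𝓝 ((w, 0), -1), ∀ u, 0 ≤ u → u ≤ x.1.2 →
      ∀ k : Fin m, AdmN x.1.1 → (∀ k, -1 < x.1.1 k) → ∀ s, 0 ≤ s → s ≤ u →
      -1 ≤ RR (lawF f x.1.1 s (χ k)) (lawF f x.1.1 s (χ (k + 1))) →
      (¬ KP w lo hi (fun _ => False) (χ k) (χ (k + 1)) →
        RR (lawF f x.1.1 u (χ k)) (lawF f x.1.1 u (χ (k + 1))) < 1) →
      wd (lawF f x.1.1 u (χ k)) (lawF f x.1.1 u (χ (k + 1))) ≤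
        wd (lawF f x.1.1 s (χ k)) (lawF f x.1.1 s (χ (k + 1))) + (c k + γ) * (u - s) := by
    have h5 : ∀ᶠ p : (Fin 10 → ℝ) × ℝ in 𝓝 (w, 0), ∀ k : Fin m, AdmN p.1 → (∀ k, -1 < p.1 k) →
        ∀ s, 0 ≤ s → s ≤ p.2 →
        -1 ≤ RR (lawF f p.1 s (χ k)) (lawF f p.1 s (χ (k + 1))) →
        (¬ KP w lo hi (fun _ => False) (χ k) (χ (k + 1)) →
          RR (lawF f p.1 p.2 (χ k)) (lawF f p.1 p.2 (χ (k + 1))) < 1) →
        wd (lawF f p.1 p.2 (χ k)) (lawF f p.1 p.2 (χ (k + 1))) ≤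
          wd (lawF f p.1 s (χ k)) (lawF f p.1 s (χ (k + 1))) + (c k + γ) * (p.2 - s) := by
      rw [eventually_all]; intro k
      exact H.ph.edgeT (fun h => h) (fun h => h) (hc k.val k.isLt) hγ
    have h6 := hfst.eventually (ev_all_le h5)
    filter_upwards [h6] with x hx u h1 h2
    exact hx u h1 h2
  have ev6 : ∀ᶠ x : ((Fin 10 → ℝ) × ℝ) × ℝ in 𝓝 ((w, 0), -1), ∀ k : Fin m,
      ¬ KP w lo hi (fun _ => False) (χ k) (χ (k + 1)) → AdmN x.1.1 → (∀ k, -1 < x.1.1 k) →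
      ∀ s, 0 ≤ s → s ≤ x.1.2 → 1 ≤ RR (lawF f x.1.1 s (χ k)) (lawF f x.1.1 s (χ (k + 1))) →
      1 ≤ RR (lawF f x.1.1 x.1.2 (χ k)) (lawF f x.1.1 x.1.2 (χ (k + 1))) := by
    rw [eventually_all]; intro k
    by_cases hK : KP w lo hi (fun _ => False) (χ k) (χ (k + 1))
    · exact Eventually.of_forall fun _ h => absurd hK h
    · filter_upwards [hfst.eventually (H.ph.persist (hne k.val k.isLt) hK)] with x hx _ using hx
  have ev7 : ∀ᶠ x : ((Fin 10 → ℝ) × ℝ) × ℝ in 𝓝 ((w, 0), -1), ∀ u, 0 ≤ u → u ≤ x.1.2 →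
      ∀ k : Fin m, AdmN x.1.1 → (∀ k, -1 < x.1.1 k) →
      (∀ i j, i ≠ j → -1 ≤ RR (x.1.1 i) (x.1.1 j)) →
      -1 ≤ RR (lawF f x.1.1 u (χ k)) (lawF f x.1.1 u (χ (k + 1))) := by
    have h5 : ∀ᶠ p : (Fin 10 → ℝ) × ℝ in 𝓝 (w, 0), ∀ k : Fin m, AdmN p.1 → (∀ k, -1 < p.1 k) →
        (∀ i j, i ≠ j → -1 ≤ RR (p.1 i) (p.1 j)) → 0 ≤ p.2 →
        -1 ≤ RR (lawF f p.1 p.2 (χ k)) (lawF f p.1 p.2 (χ (k + 1))) := by
      rw [eventually_all]; intro k
      exact H.ph.pole (by norm_num) (hne k.val k.isLt)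
    have h6 := hfst.eventually (ev_all_le h5)
    filter_upwards [h6] with x hx u h1 h2 k ha hy hq
    exact hx u h1 h2 k ha hy hq h1
  have ev8 : ∀ᶠ x : ((Fin 10 → ℝ) × ℝ) × ℝ in 𝓝 ((w, 0), -1), x.2 ≤ -(9 / 10) ∧
      x.1.2 * κ ≤ 1 / 4 := by
    have c1 : Tendsto (fun x : ((Fin 10 → ℝ) × ℝ) × ℝ => x.2) (𝓝 ((w, 0), -1)) (𝓝 (-1)) :=
      continuous_snd.tendsto' _ _ rfl
    have c2 : Tendsto (fun x : ((Fin 10 → ℝ) × ℝ) × ℝ => x.1.2 * κ) (𝓝 ((w, 0), -1))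
        (𝓝 (0 * κ)) := by
      have : Continuous fun x : ((Fin 10 → ℝ) × ℝ) × ℝ => x.1.2 * κ := by fun_prop
      exact this.tendsto' _ _ rfl
    exact ((c1.eventually (gt_mem_nhds (by norm_num : (-1 : ℝ) < -(9 / 10)))).mono
        fun x hx => le_of_lt hx).and
      ((c2.eventually (gt_mem_nhds (by norm_num : 0 * κ < 1 / 4))).mono fun x hx => le_of_lt hx)
  filter_upwards [ev1, ev2, ev3, ev4, ev5, ev6, ev7, ev8] with x g1 g2 g3 g4 g5 g6 g7 g8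
    ha hy hq hx1 hqx ht m' _ hm' _ hnf hn0 hn1 htot _
  have hmm := hmeq m' hm'
  subst hmm
  have hstart : ∀ y, lawF f y 0 = y := H.ph.law.start
  have hcont : ∀ k, Continuous fun t => f k (x.1.1 k) t := fun k => H.ph.law.cont x.1.1 k
  have hst0 : ∀ k, f k (x.1.1 k) 0 = x.1.1 k := fun k => congrFun (hstart x.1.1) k
  refine swalk (C := C) (B := |C| + 2) (η := ρ) H.κ0 ⟨hx1, g8.1⟩ ht g8.2 le_rfl hsb2 hsb3 hρ
    (g1 := f (χ 0) (x.1.1 (χ 0))) (g2 := f (χ m') (x.1.1 (χ m')))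
    (M := fun u => twn (lawF f x.1.1 u) χ m') (g1 hx1 ht) (g2 hx1 ht)
    (hcont _).continuousOn (hcont _).continuousOn
    (twn_contOn hcont (fun u h1 h2 => g4 u h1 h2 ha hy) χ m') ?_ ?_ ?_ hn0 hn1 ?_ ?_
  · intro t0 u h1 h2 h3
    have h4 : twn (lawF f x.1.1 u) χ m' ≤ ∑ k ∈ Finset.range m',
        (wd (lawF f x.1.1 t0 (χ k)) (lawF f x.1.1 t0 (χ (k + 1))) + (c k + γ) * (u - t0)) := by
      unfold twn
      refine Finset.sum_le_sum fun k hk => ?_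
      have hk' := Finset.mem_range.1 hk
      refine g5 u (h1.trans h2) h3 ⟨k, hk'⟩ ha hy t0 h1 h2
        (g7 t0 h1 (h2.trans h3) ⟨k, hk'⟩ ha hy hq) ?_
      intro hK
      by_contra hcon
      push Not at hcon
      exact hnf k hk' ⟨hK, g6 ⟨k, hk'⟩ hK ha hy u (h1.trans h2) h3 hcon⟩
    rw [Finset.sum_add_distrib, ← Finset.sum_mul, Finset.sum_add_distrib, Finset.sum_const,
      Finset.card_range, nsmul_eq_mul] at h4
    exact h4
  · rw [hst0]; exact hqx _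
  · rw [hst0]; exact hqx _
  · rcases hJ with h | h | h
    · exact Or.inl h
    · exact Or.inr (Or.inl h)
    · refine Or.inr (Or.inr ?_)
      intro ξ h1 h2 θ h3 h4 h5 h6 k k1 k2
      exact h _ (g3 ξ h1 h2) θ h3 h4 h5 h6 k k1 k2
  · simp only [hst0, hstart]
    exact htot

/-- **walks through the moving point** -/
theorem PP.swalks (H : PP w f lo hi κ mov Hp Slk)
    (hcg : ∀ κ κ' r, (∀ k ≤ r, κ k = κ' k) → Slk κ r → Slk κ' r) {δ : ℝ} (hδ : 0 < δ) : ∀ᶠ x : ((Fin 10 → ℝ) × ℝ) × ℝ in 𝓝 ((w, 0), -1),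
    ∀ (v : ℕ → ℕ) (r : ℕ), r ≤ 10 → IsWalk 10 v r → v r = v 0 + 10 →
      (∀ k < r, ¬ (fun _ _ : Fin 10 => False) (clN 10 (by norm_num) (v k))
        (clN 10 (by norm_num) (v (k + 1)))) →
      SWp w f lo hi κ Hp Slk δ x (fun k => clN 10 (by norm_num) (v k)) r := by
  refine ev_walks (D := fun _ _ : Fin 10 => False) (P := SWp w f lo hi κ Hp Slk δ) (by norm_num)
    ?_ ?_
  · intro x χ χ' r hχ h ha hy hq hx hqx ht m hm hr hHp hnf h0 h1 h2 h3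
    have e : ∀ y, twn y χ' m = twn y χ m := by
      intro y
      unfold twn
      refine Finset.sum_congr rfl fun k hk => ?_
      have := Finset.mem_range.1 hk
      rw [hχ k (by omega), hχ (k + 1) (by omega)]
    rw [e] at h2 h3 ⊢
    rw [← hχ 0 (by omega)] at h0 h2 h3 ⊢
    rw [← hχ m (by omega)] at h1 h2 h3 ⊢
    rw [← hχ 0 (by omega), ← hχ m (by omega)] at hHp
    refine h ha hy hq hx hqx ht m hm hr hHp (fun k hk => ?_) h0 h1 h2 fun hs =>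
      h3 (hcg χ χ' m (fun k hk => hχ k (by omega)) hs)
    rw [hχ k (by omega), hχ (k + 1) (by omega)]
    exact hnf k hk
  · intro v r hr hv he _
    rcases Nat.lt_or_ge r 2 with h | h
    · refine Eventually.of_forall fun x ha hy hq hx hqx ht m hm hrm => ?_
      omega
    · obtain ⟨m, rfl⟩ : ∃ m, r = m + 1 := ⟨r - 1, by omega⟩
      exact H.swalk_one (by omega) hr hv he hδ

end

end Pool.Agent.Helper66.Kiss
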