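import Pool.Agent.Helper66.Kiss.PoleE
import Pool.Agent.Helper66.Kiss.PoleF

set_option autoImplicit false

/-! # The south pole with a moving point: local lifting -/

namespace Pool.Agent.Helper66.Kiss

open Real Set Filter Topology

section

variable {w : Fin 10 → ℝ} {f : Fin 10 → ℝ → ℝ → ℝ} {lo hi : Fin 10 → ℝ} {κ : ℝ}
  {mov : Fin 10 → Prop} {Hp : Fin 10 → Fin 10 → Prop} {Slk : (ℕ → Fin 10) → ℕ → Prop} {δ : ℝ}

/-- what holds near the point -/
structure QQ (w : Fin 10 → ℝ) (f : Fin 10 → ℝ → ℝ → ℝ) (lo hi : Fin 10 → ℝ) (κ : ℝ)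
    (mov : Fin 10 → Prop) (Hp : Fin 10 → Fin 10 → Prop) (Slk : (ℕ → Fin 10) → ℕ → Prop) (δ : ℝ)
    (y : Fin 10 → ℝ) (t a : ℝ) : Prop where
  range : AdmN y → (∀ k, -1 < y k) → 0 ≤ t → ∀ k, -1 < lawF f y t k ∧ lawF f y t k ≤ 1 / 2
  persist : ∀ i j, i ≠ j → ¬ KP w lo hi (fun _ => False) i j → AdmN y → (∀ k, -1 < y k) →
    ∀ s, 0 ≤ s → s ≤ t → 1 ≤ RR (lawF f y s i) (lawF f y s j) →
      1 ≤ RR (lawF f y t i) (lawF f y t j)
  pole : ∀ i j, i ≠ j → AdmN y → (∀ k, -1 < y k) → (∀ i j, i ≠ j → -1 ≤ RR (y i) (y j)) →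
    0 ≤ t → -1 ≤ RR (lawF f y t i) (lawF f y t j)
  vert : ∀ i j, i ≠ j → KP w lo hi (fun _ => False) i j →
    -(1 / 3) < √(1 - lawF f y t i ^ 2) * √(1 - lawF f y t j ^ 2) + lawF f y t i * lawF f y t j
  walks : ∀ (v : ℕ → ℕ) (r : ℕ), r ≤ 10 → IsWalk 10 v r → v r = v 0 + 10 →
    AdmN y → (∀ k, -1 < y k) → (∀ i j, i ≠ j → -1 ≤ RR (y i) (y j)) → 0 ≤ t →
    NFW (by norm_num) (KP w lo hi (fun _ => False)) (lawF f y t) v r →
    twn y (fun k => clN 10 (by norm_num) (v k)) r ≤ 2 * π →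
    twn (lawF f y t) (fun k => clN 10 (by norm_num) (v k)) r ≤ 2 * π
  swalks : ∀ (v : ℕ → ℕ) (r : ℕ), r ≤ 10 → IsWalk 10 v r → v r = v 0 + 10 →
    SWp w f lo hi κ Hp Slk δ ((y, t), a) (fun k => clN 10 (by norm_num) (v k)) r
  touch : ∀ l, w l = -(1 / 2) → -1 < a → 0 ≤ t → Piece κ a (f l (y l)) (mov l) 0 1 t
  free : ∀ l, w l ≠ -(1 / 2) → AdmN y → (∀ k, -1 < y k) → -1 < a → 0 ≤ t →
    1 ≤ RR (sF κ a t) (lawF f y t l)
  bds : a ≤ -(9 / 10) ∧ t * κ ≤ 1 / 4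

theorem PP.near (H : PP w f lo hi κ mov Hp Slk)
    (hcg : ∀ κ κ' r, (∀ k ≤ r, κ k = κ' k) → Slk κ r → Slk κ' r) (hδ : 0 < δ) :
    ∃ U ∈ 𝓝 w, ∃ ε > 0, ∀ y ∈ U, ∀ t, |t| < ε → ∀ a, |a + 1| < ε →
      QQ w f lo hi κ mov Hp Slk δ y t a := by
  have hfst : Tendsto (fun x : ((Fin 10 → ℝ) × ℝ) × ℝ => x.1) (𝓝 ((w, 0), -1)) (𝓝 (w, 0)) :=
    continuous_fst.tendsto ((w, (0 : ℝ)), (-1 : ℝ))
  have e1 := hfst.eventually H.ph.range
  have e2 : ∀ᶠ p : (Fin 10 → ℝ) × ℝ in 𝓝 (w, 0), ∀ i j, i ≠ j →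
      ¬ KP w lo hi (fun _ => False) i j → AdmN p.1 → (∀ k, -1 < p.1 k) → ∀ s, 0 ≤ s → s ≤ p.2 →
      1 ≤ RR (lawF f p.1 s i) (lawF f p.1 s j) → 1 ≤ RR (lawF f p.1 p.2 i) (lawF f p.1 p.2 j) := by
    rw [eventually_all]; intro i
    rw [eventually_all]; intro j
    by_cases hij : i ≠ j ∧ ¬ KP w lo hi (fun _ => False) i j
    · filter_upwards [H.ph.persist hij.1 hij.2] with p hp _ _ using hp
    · exact Eventually.of_forall fun p h1 h2 => absurd ⟨h1, h2⟩ hij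
  have e3 : ∀ᶠ p : (Fin 10 → ℝ) × ℝ in 𝓝 (w, 0), ∀ i j, i ≠ j → AdmN p.1 → (∀ k, -1 < p.1 k) →
      (∀ i j, i ≠ j → -1 ≤ RR (p.1 i) (p.1 j)) → 0 ≤ p.2 →
      -1 ≤ RR (lawF f p.1 p.2 i) (lawF f p.1 p.2 j) := by
    rw [eventually_all]; intro i
    rw [eventually_all]; intro j
    by_cases hij : i ≠ j
    · filter_upwards [H.ph.pole (by norm_num) hij] with p hp _ using hp
    · exact Eventually.of_forall fun p h1 => absurd h1 hij
  have e4 : ∀ᶠ p : (Fin 10 → ℝ) × ℝ in 𝓝 (w, 0), ∀ i j, i ≠ j → KP w lo hi (fun _ => False) i j →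
      -(1 / 3) < √(1 - lawF f p.1 p.2 i ^ 2) * √(1 - lawF f p.1 p.2 j ^ 2) +
        lawF f p.1 p.2 i * lawF f p.1 p.2 j := by
    rw [eventually_all]; intro i
    rw [eventually_all]; intro j
    by_cases hij : i ≠ j ∧ KP w lo hi (fun _ => False) i j
    · obtain ⟨-, k1, k2, k3, -⟩ := hij
      have hc : Continuous fun x : Fin 10 → ℝ => √(1 - x i ^ 2) * √(1 - x j ^ 2) + x i * x j := by
        fun_prop
      have h1 := (hc.tendsto w).comp H.ph.law.near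
      have h2 : -(1 / 3) < √(1 - w i ^ 2) * √(1 - w j ^ 2) + w i * w j := by
        have c := mul_pos (sqrt_pos_of (H.ph.reg i k1)) (sqrt_pos_of (H.ph.reg j k2))
        unfold RR at k3
        rw [div_eq_iff c.ne'] at k3
        linarith
      filter_upwards [h1.eventually (lt_mem_nhds h2)] with p hp _ _ using hp
    · exact Eventually.of_forall fun p h1 h2 => absurd ⟨h1, h2⟩ hij
  have e5 := H.ph.walks (fun _ _ _ _ h => h) one_pos
  have e6 := H.swalks hcg hδ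
  have e7 : ∀ᶠ x : ((Fin 10 → ℝ) × ℝ) × ℝ in 𝓝 ((w, 0), -1), ∀ l, w l = -(1 / 2) → -1 < x.2 →
      0 ≤ x.1.2 → Piece κ x.2 (f l (x.1.1 l)) (mov l) 0 1 x.1.2 := by
    rw [eventually_all]; intro l
    by_cases hl : w l = -(1 / 2)
    · filter_upwards [H.piece hl 0 one_pos] with x hx _ using hx
    · exact Eventually.of_forall fun p h1 => absurd h1 hl
  have e8 : ∀ᶠ x : ((Fin 10 → ℝ) × ℝ) × ℝ in 𝓝 ((w, 0), -1), ∀ l, w l ≠ -(1 / 2) → AdmN x.1.1 →
      (∀ k, -1 < x.1.1 k) → -1 < x.2 → 0 ≤ x.1.2 →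
      1 ≤ RR (sF κ x.2 x.1.2) (lawF f x.1.1 x.1.2 l) := by
    rw [eventually_all]; intro l
    by_cases hl : w l = -(1 / 2)
    · exact Eventually.of_forall fun p h1 => absurd hl h1
    · filter_upwards [H.free hl] with x hx _ using hx
  have e9 : ∀ᶠ x : ((Fin 10 → ℝ) × ℝ) × ℝ in 𝓝 ((w, 0), -1), x.2 ≤ -(9 / 10) ∧
      x.1.2 * κ ≤ 1 / 4 := by
    have c1 : Tendsto (fun x : ((Fin 10 → ℝ) × ℝ) × ℝ => x.2) (𝓝 ((w, 0), -1)) (𝓝 (-1)) :=
      continuous_snd.tendsto' _ _ rfl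
    have c2 : Tendsto (fun x : ((Fin 10 → ℝ) × ℝ) × ℝ => x.1.2 * κ) (𝓝 ((w, 0), -1))
        (𝓝 (0 * κ)) := by
      have : Continuous fun x : ((Fin 10 → ℝ) × ℝ) × ℝ => x.1.2 * κ := by fun_prop
      exact this.tendsto' _ _ rfl
    exact ((c1.eventually (gt_mem_nhds (by norm_num : (-1 : ℝ) < -(9 / 10)))).mono
        fun x hx => le_of_lt hx).and
      ((c2.eventually (gt_mem_nhds (by norm_num : 0 * κ < 1 / 4))).mono fun x hx => le_of_lt hx)
  have hQ : ∀ᶠ x : ((Fin 10 → ℝ) × ℝ) × ℝ in 𝓝 ((w, 0), -1),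
      QQ w f lo hi κ mov Hp Slk δ x.1.1 x.1.2 x.2 := by
    filter_upwards [e1, hfst.eventually e2, hfst.eventually e3, hfst.eventually e4,
      hfst.eventually e5, e6, e7, e8, e9] with x x1 x2 x3 x4 x5 x6 x7 x8 x9
    refine ⟨x1, x2, x3, x4, ?_, ?_, x7, x8, x9⟩
    · intro v r hr hv he ha hy hq h0 hnf ht
      exact x5 v r hr hv he (fun _ _ h => h) ha hy hq h0 hnf ht fun _ h => absurd h id
    · intro v r hr hv he
      exact x6 v r hr hv he (fun _ _ h => h)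
  rw [nhds_prod_eq, Filter.eventually_prod_iff] at hQ
  obtain ⟨P1, hP1, P2, hP2, hQ⟩ := hQ
  rw [nhds_prod_eq, Filter.eventually_prod_iff] at hP1
  obtain ⟨P3, hP3, P4, hP4, hP⟩ := hP1
  obtain ⟨ε1, hε1, h1⟩ := Metric.eventually_nhds_iff.1 hP4
  obtain ⟨ε2, hε2, h2⟩ := Metric.eventually_nhds_iff.1 hP2
  refine ⟨{y | P3 y}, hP3, min ε1 ε2, lt_min hε1 hε2, ?_⟩
  intro y hy t ht a ha
  refine hQ (hP hy (h1 ?_)) (h2 ?_)
  · rw [Real.dist_eq, sub_zero]; exact ht.trans_le (min_le_left _ _)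
  · rw [Real.dist_eq, sub_neg_eq_add]; exact ha.trans_le (min_le_right _ _)

/-- lifting when no height is at the pole -/
lemma lift_regular {s : Fin 11} {y η : Fin 11 → ℝ} {t : ℝ} (hκ : 0 ≤ κ) (ht0 : 0 ≤ t)
    (hall : ∀ τ, 0 ≤ τ → τ ≤ t → QQ w f lo hi κ mov Hp Slk δ (fun l => y (s.succAbove l)) τ (y s))
    (hstart : ∀ k x, f k x 0 = x) (hcont : ∀ k x, Continuous fun t => f k x t)
    (hHp : ∀ (v : ℕ → ℕ) (m : ℕ), v 0 < v m → Psd s (v m) (v 0) →
      Hp (clN 10 (by norm_num) (v m)) (clN 10 (by norm_num) (v 0)))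
    (hF : Fe y η) (hs : Srtd η) (hy1 : ∀ k, -1 < y k)
    (hsl : ∀ (v : ℕ → ℕ) (m : ℕ), 1 ≤ m → m + 1 ≤ 10 → IsWalk 10 v (m + 1) →
      v (m + 1) = v 0 + 10 → Psd s (v m) (v 0) → Slk (fun k => clN 10 (by norm_num) (v k)) m →
      wd (y s) (y (s.succAbove (clN 10 (by norm_num) (v 0)))) +
        wd (y s) (y (s.succAbove (clN 10 (by norm_num) (v m)))) +
        twn (fun l => y (s.succAbove l)) (fun k => clN 10 (by norm_num) (v k)) m ≤ 2 * π - δ) :
    ∃ η', Fe (FF κ f s y t) η' ∧ JoinedIn Conf (pinN y η) (pinN (FF κ f s y t) η') := by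
  set u : Fin 10 → ℝ := fun l => y (s.succAbove l) with hu
  have hadm : AdmN u := fun k => hF.1 _
  have hu1 : ∀ k, -1 < u k := fun k => hy1 _
  have hyr : ∀ k, -1 < y k ∧ y k ≤ 1 / 2 := fun k => ⟨hy1 k, (hF.1 k).2⟩
  have hq11 : ∀ i j, i ≠ j → -1 ≤ RR (y i) (y j) := by
    intro i j hij
    have h1 := cos_le_of_gg (hyr i) (hyr j) (hF.2 i j hij)
    exact (Real.neg_one_le_cos _).trans h1
  have hq : ∀ i j, i ≠ j → -1 ≤ RR (u i) (u j) := fun i j hij =>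
    hq11 _ _ (fun h => hij (Fin.succAbove_right_injective h))
  have hqs : ∀ k, -1 ≤ RR (y s) (u k) := fun k => hq11 _ _ (Fin.succAbove_ne s k).symm
  have hst : ∀ y : Fin 11 → ℝ, FF κ f s y 0 = y := by
    intro y
    unfold FF
    rw [sF_zero]
    have : lawF f (fun l => y (s.succAbove l)) 0 = fun l => y (s.succAbove l) := by
      funext l; exact hstart l _
    rw [this]
    exact insS_eq rfl
  have htime : ∀ τ ∈ Icc (0 : ℝ) 1, 0 ≤ τ * t ∧ τ * t ≤ t := by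
    intro τ hτ
    constructor
    · exact mul_nonneg hτ.1 ht0
    · nlinarith [hτ.2]
  have hsr : ∀ τ, 0 ≤ τ → τ ≤ t → -1 < sF κ (y s) τ ∧ sF κ (y s) τ ≤ y s := by
    intro τ h0 h1
    have hb := (hall τ h0 h1).bds
    exact ⟨sF_gt ⟨hy1 s, by linarith [(hyr s).2]⟩ hb.2,
      sF_le hκ ⟨(hy1 s).le, by linarith [(hyr s).2]⟩ h0⟩
  have hrange : ∀ τ, 0 ≤ τ → τ ≤ t → ∀ k, -1 < FF κ f s y τ k ∧ FF κ f s y τ k ≤ 1 / 2 := by
    intro τ h0 h1 k
    by_cases hk : k = s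
    · subst hk
      rw [FF_same]
      obtain ⟨a1, a2⟩ := hsr τ h0 h1
      exact ⟨a1, a2.trans (hyr k).2⟩
    · obtain ⟨l, rfl⟩ := Fin.exists_succAbove_eq hk
      rw [FF_succ]
      exact (hall τ h0 h1).range hadm hu1 h0 l
  have hz0 : FF κ f s y (0 * t) = y := by rw [zero_mul, hst]
  have hz1 : FF κ f s y (1 * t) = FF κ f s y t := by rw [one_mul]
  -- persistence and feasibility at the moving point
  have hper : ∀ l, ∀ τ1 τ2, 0 ≤ τ1 → τ1 ≤ τ2 → τ2 ≤ t →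
      1 ≤ RR (sF κ (y s) τ1) (f l (u l) τ1) → 1 ≤ RR (sF κ (y s) τ2) (f l (u l) τ2) := by
    intro l τ1 τ2 h0 h1 h2 h3
    by_cases hl : w l = -(1 / 2)
    · exact ((hall τ2 (h0.trans h1) h2).touch l hl (hy1 s) (h0.trans h1)).per τ1 τ2 h0 h1 le_rfl h3
    · exact (hall τ2 (h0.trans h1) h2).free l hl hadm hu1 (hy1 s) (h0.trans h1)
  have hpol : ∀ l, ∀ τ, 0 ≤ τ → τ ≤ t → -1 ≤ RR (sF κ (y s) τ) (f l (u l) τ) := by
    intro l τ h0 h1
    by_cases hl : w l = -(1 / 2)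
    · refine ((hall τ h0 h1).touch l hl (hy1 s) h0).pole ?_ τ h0 le_rfl
      rw [hstart]; exact hqs l
    · have := (hall τ h0 h1).free l hl hadm hu1 (hy1 s) h0
      have h2 : lawF f u τ l = f l (u l) τ := rfl
      rw [h2] at this
      linarith
  have hG : GPath (KS w lo hi s) (fun τ => FF κ f s y (τ * t)) := by
    refine ⟨?_, ?_, ?_, ?_, ?_, ?_⟩
    · rintro i j ⟨l, l', rfl, rfl, k1, k2, k3, k4⟩
      exact ⟨l', l, rfl, rfl, k2, k1, by rw [RR_comm]; exact k3, fun h => k4 h.symm⟩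
    · intro k
      by_cases hk : k = s
      · subst hk
        simp only [FF_same]
        unfold sF
        fun_prop
      · obtain ⟨l, rfl⟩ := Fin.exists_succAbove_eq hk
        simp only [FF_succ]
        exact ((hcont l _).comp (continuous_id.mul continuous_const)).continuousOn
    · intro τ hτ
      obtain ⟨h0, h1⟩ := htime τ hτ
      exact hrange _ h0 h1
    · intro i j hij hK σ τ hs0 hsτ hτ1 h1
      obtain ⟨h3, h4⟩ := htime τ ⟨hs0.trans hsτ, hτ1⟩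
      have h5 : 0 ≤ σ * t := mul_nonneg hs0 ht0
      have h6 : σ * t ≤ τ * t := mul_le_mul_of_nonneg_right hsτ ht0
      by_cases hi' : i = s
      · subst hi'
        obtain ⟨l, rfl⟩ := Fin.exists_succAbove_eq (Ne.symm hij)
        simp only [FF_same, FF_succ] at h1 ⊢
        exact hper l _ _ h5 h6 h4 h1
      · obtain ⟨l, rfl⟩ := Fin.exists_succAbove_eq hi'
        by_cases hj' : j = s
        · subst hj'
          simp only [FF_same, FF_succ] at h1 ⊢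
          rw [RR_comm] at h1 ⊢
          exact hper l _ _ h5 h6 h4 h1
        · obtain ⟨m, rfl⟩ := Fin.exists_succAbove_eq hj'
          simp only [FF_succ] at h1 ⊢
          rw [KS_iff] at hK
          exact (hall _ h3 h4).persist l m (fun h => hij (by rw [h])) hK hadm hu1 _ h5 h6 h1
    · intro τ hτ i j hij hK
      obtain ⟨h0, h1⟩ := htime τ hτ
      obtain ⟨l, l', rfl, rfl, hK⟩ := hK
      simp only [FF_succ]
      exact (hall _ h0 h1).vert l l' (fun h => hij (by rw [h])) hK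
    · intro τ hτ i j hij
      obtain ⟨h0, h1⟩ := htime τ hτ
      by_cases hi' : i = s
      · subst hi'
        obtain ⟨l, rfl⟩ := Fin.exists_succAbove_eq (Ne.symm hij)
        simp only [FF_same, FF_succ]
        exact hpol l _ h0 h1
      · obtain ⟨l, rfl⟩ := Fin.exists_succAbove_eq hi'
        by_cases hj' : j = s
        · subst hj'
          simp only [FF_same, FF_succ]
          rw [RR_comm]
          exact hpol l _ h0 h1
        · obtain ⟨m, rfl⟩ := Fin.exists_succAbove_eq hj'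
          simp only [FF_succ]
          exact (hall _ h0 h1).pole l m (fun h => hij (by rw [h])) hadm hu1 hq h0
  have hcon : Con (KS w lo hi s) (FF κ f s y (0 * t)) η := by
    rw [hz0]
    exact con_of_srt hyr hF.2 hs.1 hs.2
  obtain ⟨φ1, -, h2, hJ⟩ := stage_lift (n := 11) (by norm_num) (by norm_num) prm_pinN hG
    (fun τ hτ => by
      obtain ⟨h0, h1⟩ := htime τ hτ
      intro k
      have := hrange _ h0 h1 k
      exact ⟨this.1.le, this.2⟩) (by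
      intro τ hτ v r hr hv he hf
      obtain ⟨h0, h1⟩ := htime τ hτ
      have hQ := hall _ h0 h1
      refine walks_of_ten (w := w) (lo := lo) (hi := hi) (s := s) (x := y)
        (x' := FF κ f s y (τ * t)) ?_ ?_ hv he hf (walk_of_srt (by norm_num) hyr hF.2 hs.1 hs.2 hv he)
      · intro v r hr hv he hf ht
        simp only [FF_succ] at hf ⊢
        exact hQ.walks v r hr hv he hadm hu1 hq h0 hf ht
      · intro v m hm hm10 hv he hps hf n1 n2 ht
        simp only [FF_succ, FF_same] at hf n1 n2 ⊢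
        have hlt : v 0 < v m := by
          have := isWalk_ge hv m (by omega)
          omega
        exact hQ.swalks v (m + 1) hm10 hv he hadm hu1 hq (hy1 s) hqs h0 m hm rfl
          (hHp v m hlt hps) hf n1 n2 ht (hsl v m hm hm10 hv he hps)) hcon
  rw [hz0, hz1] at hJ
  rw [hz1] at h2
  refine ⟨φ1, ⟨fun k => ?_, h2⟩, hJ⟩
  have := hrange t ht0 le_rfl k
  exact ⟨this.1.le, this.2⟩

end

end Pool.Agent.Helper66.Kiss
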