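import Pool.Agent.Helper66.Kiss.PhiB
import Pool.Agent.Helper54.R1.All
import Pool.Agent.Helper54.R1.Zero

set_option autoImplicit false

/-! # The FCC/HCP neighbourhood with the second functional -/

namespace Pool.Agent.Helper66.Kiss

open Real Set Filter Topology Helper54.R1

/-- lifting along a good direction -/
lemma GoodDir.lift2 {Φ : (Fin 11 → ℝ) → ℝ} {z φ : Fin 11 → ℝ}
    {V : (Fin 11 → ℝ) → Fin 11 → ℝ} {c : ℝ} (hF : Fe z φ) (hg : GoodDir univ Φ z φ V c) :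
    ∃ U ∈ 𝓝 (z, φ), ∃ t0 > 0, ∀ y η, (y, η) ∈ U → Fe y η → ∃ η', Fe (mv V y t0) η' ∧
      JoinedIn Conf (pinN y η) (pinN (mv V y t0) η') ∧ Φ y + c * t0 ≤ Φ (mv V y t0) := by
  have hz1 : ∀ k, -1 ≤ z k ∧ z k < 1 := fun k => ⟨(hF.1 k).1, by linarith [(hF.1 k).2]⟩
  obtain ⟨ψ, hψ⟩ := hg.dir
  have e1 := pairs_local (φ := φ) (ψ := ψ) hz1 hg.smooth hg.pole hF.2 hψ
  have hproj : Tendsto (fun p : HL × ℝ => (p.1.1, p.2)) (𝓝 ((z, φ), 0)) (𝓝 (z, 0)) := by
    have : Continuous (fun p : HL × ℝ => (p.1.1, p.2)) := by fun_prop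
    exact this.tendsto' _ _ rfl
  have e2 := hproj.eventually hg.stay
  have e3 := hproj.eventually hg.gain
  have e4 := (e1.and e2).and e3
  rw [nhds_prod_eq, Filter.eventually_prod_iff] at e4
  obtain ⟨P, hP, Q, hQ, hPQ⟩ := e4
  obtain ⟨ε, hε, hεQ⟩ := Metric.eventually_nhds_iff.1 hQ
  have hQ' : ∀ t, 0 ≤ t → t ≤ ε / 2 → Q t := by
    intro t h0 h1
    apply hεQ
    rw [Real.dist_eq, sub_zero, abs_of_nonneg h0]; linarith
  refine ⟨{y | P y}, hP, ε / 2, by linarith, ?_⟩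
  intro y η hyP hyF
  have hall := fun t (h0 : 0 ≤ t) (h1 : t ≤ ε / 2) => hPQ hyP (hQ' t h0 h1)
  have hfe : ∀ t, 0 ≤ t → t ≤ ε / 2 → Fe (mv V y t) (fun k => η k + t * ψ k) := by
    intro t h0 h1
    obtain ⟨⟨a1, a2⟩, -⟩ := hall t h0 h1
    exact ⟨(a2 (mem_univ _) hyF.1 h0).2, a1 hyF.2 h0⟩
  refine ⟨fun k => η k + ε / 2 * ψ k, hfe (ε / 2) (by linarith) le_rfl, ?_, ?_⟩
  · have hj := joined_of_seg (f := fun t => pinN (mv V y t) (fun k => η k + t * ψ k)) 0 (ε / 2)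
      (Continuous.continuousOn (continuous_pinN (fun k => by unfold mv; fun_prop)
        (fun k => by fun_prop))) (by
        intro t ht
        rw [uIcc_of_le (by linarith)] at ht
        exact pinN_mem (hfe t ht.1 ht.2))
    have e0 : pinN (mv V y 0) (fun k => η k + 0 * ψ k) = pinN y η := by
      congr 1
      · funext k; simp [mv]
      · funext k; simp
    rwa [e0] at hj
  · exact (hall (ε / 2) (by linarith) le_rfl).2 (mem_univ _) hyF.1 (by linarith)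

lemma Mu_eq_of_low {z : Fin 11 → ℝ} {k : Fin 11} (hk : z k ≤ -9 / 10)
    (h : ∀ j, j ≠ k → -3 / 4 ≤ z j) : Mu z = -(z k) := by
  obtain ⟨s, hs⟩ := exists_Mu z
  have h1 := neg_le_Mu z k
  by_cases hsk : s = k
  · rw [hs, hsk]
  · have := h s hsk
    rw [hs] at h1
    exfalso; linarith

/-! ## the functional -/

lemma hB_mono {x y : ℝ} (h : x ≤ y) : x + gB x ≤ y + gB y := by
  have key : ∀ x : ℝ, x + gB x = max (2 * x + 1 / 2) (min (-(1 / 2)) (x + 1 / 4)) := by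
    intro x
    unfold gB
    rw [← max_add_add_left, ← min_add_add_left]
    congr 1
    · ring
    · congr 1; ring
  rw [key, key]
  exact max_le_max (by linarith) (min_le_min le_rfl (by linarith))

lemma gB_lip (a b : ℝ) : gB b ≤ gB a + |b - a| := by
  have h1 := le_abs_self (b - a)
  have h2 := neg_abs_le (b - a)
  unfold gB
  apply max_le
  · have := le_max_left (a + 1 / 2) (min (-a - 1 / 2) (1 / 4))
    linarith
  · have h3 : min (-b - 1 / 2) (1 / 4) ≤ min (-a - 1 / 2) (1 / 4) + |b - a| := by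
      rw [← min_add_add_right]
      exact min_le_min (by linarith) (by linarith [abs_nonneg (b - a)])
    have := le_max_right (a + 1 / 2) (min (-a - 1 / 2) (1 / 4))
    linarith

lemma PhiB_top {z : Fin 11 → ℝ} {V : Finset (Fin 11)} (hV : V.card = 5) (c : ℝ)
    (h1 : ∀ i ∈ V, c ≤ z i) (h2 : ∀ i, i ∉ V → z i ≤ c) :
    PhiB z = ∑ k ∈ V, z k + ∑ k ∈ Vᶜ, -gB (z k) := by
  classical
  refine le_antisymm ?_ (le_PhiAB (A := fun x => x) (B := fun x => -gB x) z hV)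
  obtain ⟨W, hW, e⟩ := exists_PhiAB (fun x => x) (fun x => -gB x) z
  have e' : PhiB z = ∑ k ∈ W, z k + ∑ k ∈ Wᶜ, -gB (z k) := e
  rw [e']
  have key : ∀ W : Finset (Fin 11), ∑ k ∈ W, z k + ∑ k ∈ Wᶜ, -gB (z k) =
      ∑ k ∈ W, (z k + gB (z k)) - ∑ k, gB (z k) := by
    intro W
    rw [← Finset.sum_add_sum_compl W fun k => gB (z k), Finset.sum_add_distrib,
      Finset.sum_neg_distrib]
    ring
  rw [key, key]
  have e1 : ∑ i ∈ W, (z i + gB (z i)) = ∑ i ∈ W \ V, (z i + gB (z i)) +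
      ∑ i ∈ W ∩ V, (z i + gB (z i)) := by
    rw [← Finset.sum_union (Finset.disjoint_sdiff_inter W V), Finset.sdiff_union_inter]
  have e2 : ∑ i ∈ V, (z i + gB (z i)) = ∑ i ∈ V \ W, (z i + gB (z i)) +
      ∑ i ∈ W ∩ V, (z i + gB (z i)) := by
    rw [Finset.inter_comm, ← Finset.sum_union (Finset.disjoint_sdiff_inter V W),
      Finset.sdiff_union_inter]
  have hc : (W \ V).card = (V \ W).card := by
    have a1 := Finset.card_sdiff_add_card_inter W V
    have a2 := Finset.card_sdiff_add_card_inter V W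
    rw [Finset.inter_comm] at a2
    omega
  have e3 : ∑ i ∈ W \ V, (z i + gB (z i)) ≤ ((W \ V).card : ℝ) * (c + gB c) := by
    rw [← nsmul_eq_mul]
    exact Finset.sum_le_card_nsmul _ _ _ fun i hi => hB_mono (h2 i (Finset.mem_sdiff.1 hi).2)
  have e4 : ((V \ W).card : ℝ) * (c + gB c) ≤ ∑ i ∈ V \ W, (z i + gB (z i)) := by
    rw [← nsmul_eq_mul]
    exact Finset.card_nsmul_le_sum _ _ _ fun i hi => hB_mono (h1 i (Finset.mem_sdiff.1 hi).1)
  rw [hc] at e3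
  linarith

/-- the functional in terms of the roles -/
noncomputable def FR (ρ : Equiv.Perm (Fin 11)) (z : Fin 11 → ℝ) : ℝ :=
  z (ρ 0) + ∑ k, z (ρ (iU k)) - gB (z (ρ 5)) - ∑ k, gB (z (ρ (iL k))) - gB (z (ρ 10))

lemma iL_inj' : Function.Injective iL := fun _ _ h => iL_inj.1 h
lemma iU_inj' : Function.Injective iU := fun _ _ h => iU_inj.1 h

lemma PhiB_eq (ρ : Equiv.Perm (Fin 11)) (z : Fin 11 → ℝ) (hU : ∀ k, z (ρ 0) ≤ z (ρ (iU k)))
    (h5 : z (ρ 5) ≤ z (ρ 0)) (hL : ∀ k, z (ρ (iL k)) ≤ z (ρ 0)) (h10 : z (ρ 10) ≤ z (ρ 0)) :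
    PhiB z = FR ρ z := by
  rw [← PhiB_perm z ρ]
  have hs : (insert 0 (Finset.univ.map ⟨iU, iU_inj'⟩) : Finset (Fin 11)).card = 5 := by decide
  have hcomp : ((insert 0 (Finset.univ.map ⟨iU, iU_inj'⟩) : Finset (Fin 11)))ᶜ =
      insert 5 (insert 10 (Finset.univ.map ⟨iL, iL_inj'⟩)) := by decide
  rw [PhiB_top (z := z ∘ ρ) hs (z (ρ 0)), hcomp]
  · rw [Finset.sum_insert (by decide), Finset.sum_map, Finset.sum_insert (by decide),
      Finset.sum_insert (by decide), Finset.sum_map, Finset.sum_neg_distrib]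
    unfold FR
    simp only [Function.comp, Function.Embedding.coeFn_mk]
    ring
  · intro i hi
    rw [Finset.mem_insert, Finset.mem_map] at hi
    rcases hi with rfl | ⟨k, -, rfl⟩
    · exact le_rfl
    · exact hU k
  · intro i hi
    rw [Finset.mem_insert, Finset.mem_map] at hi
    push Not at hi
    rcases cases11 1 1 i with rfl | rfl | rfl | ⟨k, rfl⟩ | ⟨k, rfl⟩
    · exact absurd rfl hi.1
    · exact h5
    · exact h10
    · exact absurd rfl (hi.2 k (Finset.mem_univ k))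
    · exact hL k

/-- growth along the direction of the box -/
lemma FR_grow (ρ : Equiv.Perm (Fin 11)) {y : ℝ} (hy0 : 0 ≤ y) (hy : y ≤ 1 / 16)
    (z : Fin 11 → ℝ) {t : ℝ} (ht : 0 ≤ t) (h5 : -(1 / 2) ≤ z (ρ 5) - t) :
    FR ρ z + t ≤ FR ρ (mv (fun _ => vel ρ y) z t) := by
  unfold FR
  rw [mv_0, mv_5, mv_10]
  simp only [mv_U]
  rw [gB_hi h5, gB_hi (by linarith : -(1 / 2) ≤ z (ρ 5))]
  have hL : ∀ k, gB (mv (fun _ => vel ρ y) z t (ρ (iL k))) ≤ gB (z (ρ (iL k))) + 3 / 160 * t := by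
    intro k
    have e : mv (fun _ => vel ρ y) z t (ρ (iL k)) - z (ρ (iL k)) = t * (3 / 10 * y) := by
      show z (ρ (iL k)) + t * vel ρ y (ρ (iL k)) - z (ρ (iL k)) = _
      rw [vel_ρ, vv_L]; ring
    have h1 := gB_lip (z (ρ (iL k))) (mv (fun _ => vel ρ y) z t (ρ (iL k)))
    rw [e, abs_of_nonneg (by positivity)] at h1
    nlinarith
  have hs := Finset.sum_le_sum fun k (_ : k ∈ (Finset.univ : Finset (Fin 4))) => hL k
  rw [Finset.sum_add_distrib, Finset.sum_const, Finset.card_univ, Fintype.card_fin,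
    nsmul_eq_mul] at hs
  push_cast at hs
  linarith

theorem gainS_pos (K : Pcs) {z φ : Fin 11 → ℝ} (hF : Fe z φ) (ρ : Equiv.Perm (Fin 11))
    (hB : Box (z ∘ ρ)) (hy : z (ρ 5) < z (ρ 0)) : GainS PhiB z φ := by
  obtain ⟨h1, h2, h3, h4, h5, h6⟩ := box_facts hB
  have a1 := abs_le.1 h1
  have a2 := abs_le.1 h2
  obtain ⟨y, hyd⟩ : ∃ y, y = (z (ρ 0) - z (ρ 5)) / 2 := ⟨_, rfl⟩
  have hy0 : 0 ≤ y := by rw [hyd]; linarith
  have hy1 : y ≤ 1 / 16 := by rw [hyd]; linarith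
  obtain ⟨ψ, hψ⟩ := dir_of K hF ρ hB hy
  rw [← hyd] at hψ
  obtain ⟨r, hrd⟩ : ∃ r, r = min (1 / 100) ((z (ρ 0) - z (ρ 5)) / 4) := ⟨_, rfl⟩
  have hr1 : r ≤ 1 / 100 := by rw [hrd]; exact min_le_left _ _
  have hr2 : r ≤ (z (ρ 0) - z (ρ 5)) / 4 := by rw [hrd]; exact min_le_right _ _
  have hr0 : 0 < r := by rw [hrd]; exact lt_min (by norm_num) (by linarith)
  have hnear : ∀ᶠ p : (Fin 11 → ℝ) × ℝ in 𝓝 (z, 0), 0 ≤ p.2 →
      (∀ k, -1 ≤ p.1 k ∧ p.1 k ≤ 1 / 2) → (∀ k, -1 ≤ mv (fun _ => vel ρ y) p.1 p.2 k ∧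
        mv (fun _ => vel ρ y) p.1 p.2 k ≤ 1 / 2) ∧
        PhiB p.1 + 1 * p.2 ≤ PhiB (mv (fun _ => vel ρ y) p.1 p.2) ∧
        (∀ j, j ≠ ρ 10 → -3 / 4 ≤ p.1 j) ∧ p.1 (ρ 10) ≤ -9 / 10 := by
    filter_upwards [ev_close (vel ρ y) z hr0] with p hp h0 hb
    have c : ∀ i, -r < p.1 i - z i ∧ p.1 i - z i < r := fun i => abs_lt.1 (hp i).1
    have m : ∀ i, -r < mv (fun _ => vel ρ y) p.1 p.2 i - z i ∧
      mv (fun _ => vel ρ y) p.1 p.2 i - z i < r := fun i => abs_lt.1 (hp i).2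
    have e1 : PhiB p.1 = FR ρ p.1 := by
      apply PhiB_eq ρ p.1
      · intro k; linarith [c (ρ 0), c (ρ (iU k)), h4 k]
      · linarith [c (ρ 0), c (ρ 5)]
      · intro k; linarith [c (ρ 0), c (ρ (iL k)), (abs_le.1 (h5 k)).2]
      · linarith [c (ρ 0), c (ρ 10)]
    have e2 : PhiB (mv (fun _ => vel ρ y) p.1 p.2) = FR ρ (mv (fun _ => vel ρ y) p.1 p.2) := by
      apply PhiB_eq ρ
      · intro k; linarith [m (ρ 0), m (ρ (iU k)), h4 k]
      · linarith [m (ρ 0), m (ρ 5)]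
      · intro k; linarith [m (ρ 0), m (ρ (iL k)), (abs_le.1 (h5 k)).2]
      · linarith [m (ρ 0), m (ρ 10)]
    refine ⟨?_, ?_, ?_, by linarith [c (ρ 10)]⟩
    · intro k
      rcases casesρ ρ k with rfl | rfl | rfl | ⟨k, rfl⟩ | ⟨k, rfl⟩
      · constructor <;> linarith [m (ρ 0)]
      · constructor <;> linarith [m (ρ 5)]
      · rw [mv_10]; exact hb _
      · rw [mv_U]; exact hb _
      · have := abs_le.1 (h5 k)
        constructor <;> linarith [m (ρ (iL k))]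
    · rw [e1, e2, one_mul]
      refine FR_grow ρ hy0 hy1 p.1 h0 ?_
      have := m (ρ 5)
      rw [mv_5] at this
      linarith
    · intro j hj
      rcases casesρ ρ j with rfl | rfl | rfl | ⟨k, rfl⟩ | ⟨k, rfl⟩
      · linarith [c (ρ 0)]
      · linarith [c (ρ 5)]
      · exact absurd rfl hj
      · linarith [c (ρ (iU k)), h4 k]
      · linarith [c (ρ (iL k)), (abs_le.1 (h5 k)).1]
  have hG : GoodDir univ PhiB z φ (fun _ => vel ρ y) 1 := by
    refine ⟨one_pos, fun k => contDiffAt_const, pole_of (fun k => (hF.1 k).1) hB y, ?_, ?_,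
      ⟨ψ, hψ⟩⟩
    · filter_upwards [hnear] with p hp _ h2 h3 using ⟨mem_univ _, (hp h3 h2).1⟩
    · filter_upwards [hnear] with p hp _ h2 h3 using (hp h3 h2).2.1
  obtain ⟨U, hU, t0, ht0, hl⟩ := hG.lift2 hF
  have hM : ∀ᶠ x : HL in 𝓝 (z, φ), (∀ k, -1 ≤ x.1 k ∧ x.1 k ≤ 1 / 2) →
      (∀ j, j ≠ ρ 10 → -3 / 4 ≤ x.1 j) ∧ x.1 (ρ 10) ≤ -9 / 10 := by
    have hc : Tendsto (fun x : HL => (x.1, (0 : ℝ))) (𝓝 (z, φ)) (𝓝 (z, 0)) := by
      have : Continuous (fun x : HL => (x.1, (0 : ℝ))) := by fun_prop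
      exact this.tendsto' _ _ rfl
    filter_upwards [hc.eventually hnear] with x hx hb
    exact (hx le_rfl hb).2.2
  refine ⟨_, inter_mem hU hM, t0, ht0, ?_⟩
  rintro x η ⟨hx1, hx2⟩ hFx _
  obtain ⟨η', k1, k2, k3⟩ := hl x η hx1 hFx
  obtain ⟨m1, m2⟩ := hx2 hFx.1
  refine Or.inr ⟨_, η', k1, ?_, by rw [one_mul] at k3; exact k3, fun h => k2.trans h⟩
  rw [Mu_eq_of_low m2 m1]
  refine le_trans ?_ (neg_le_Mu _ (ρ 10))
  rw [mv_10]

/-- states near an exact state -/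
theorem near_exactS (K : Pcs) {x η : Fin 11 → ℝ} (hF : Fe x η) (ρ : Equiv.Perm (Fin 11))
    (h0 : |x (ρ 0)| ≤ 1 / 1000) (h5 : |x (ρ 5)| ≤ 1 / 1000) (hle : x (ρ 5) ≤ x (ρ 0))
    (hU : ∀ k, 1 / 2 - 1 / 1000 ≤ x (ρ (iU k))) (hL : ∀ k, |x (ρ (iL k)) + 1 / 2| ≤ 1 / 1000)
    (hS : x (ρ 10) ≤ -1 + 1 / 1000) :
    ∃ x' η', Fe x' η' ∧ x' (ρ 10) = x (ρ 10) ∧ JoinedIn Conf (pinN x η) (pinN x' η') ∧
      PhiB x + 1 / 250 ≤ PhiB x' := by
  have hB : Box (x ∘ ρ) := ⟨h0.trans (by norm_num), h5.trans (by norm_num), hle,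
    fun k => le_trans (by norm_num) (hU k), fun k => (hL k).trans (by norm_num),
    hS.trans (by norm_num)⟩
  have a0 := abs_le.1 h0
  have a5 := abs_le.1 h5
  have Φx : PhiB x = FR ρ x := by
    apply PhiB_eq ρ x
    · intro k; linarith [hU k]
    · exact hle
    · intro k; linarith [(abs_le.1 (hL k)).2]
    · linarith
  have gL : ∀ k, 0 ≤ gB (x (ρ (iL k))) := fun k => by
    have := abs_le.1 (hL k)
    rcases le_total (-(1 / 2)) (x (ρ (iL k))) with h | h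
    · rw [gB_hi h]; linarith
    · rw [gB_mid (by linarith) h]; linarith
  rcases hle.lt_or_eq with hlt | heq
  · -- y > 0
    obtain ⟨x', η', f1, f2, f3, f4, f5, f6⟩ := push K hF ρ hB hlt (by linarith)
    obtain ⟨b1, b2, b3, b4, b5, b6⟩ := box_facts f2
    have c1 := abs_le.1 b1
    have c2 := abs_le.1 b2
    have hH := (lab_main K (fe_comp f1 ρ) f2).hb
    have hUq := hH.Uq
    have hpq := hH.pq
    have hq := abs_le.1 hH.q
    have hL1 := hH.L1
    have hL2 := hH.L2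
    simp only [Function.comp] at hUq hpq hq hL1 hL2
    obtain ⟨y, hyd⟩ : ∃ y, y = (x' (ρ 0) - x' (ρ 5)) / 2 := ⟨_, rfl⟩
    rw [← hyd] at hUq hpq hq hL1 hL2
    have hy1 : 17 / 1000 < y := by linarith
    have hy2 : y ≤ 18 / 1000 := by linarith
    have hyy : y ^ 2 ≤ (18 / 1000) ^ 2 := by
      apply pow_le_pow_left₀ (by linarith) hy2
    have Φx' : PhiB x' = FR ρ x' := by
      apply PhiB_eq ρ x'
      · intro k; linarith [b4 k]
      · exact b3
      · intro k; linarith [(abs_le.1 (b5 k)).2]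
      · linarith
    have gL' : ∀ k, gB (x' (ρ (iL k))) ≤ 11 / 50 * y := fun k => by
      have := abs_le.1 (b5 k)
      rcases le_total (-(1 / 2)) (x' (ρ (iL k))) with h | h
      · rw [gB_hi h]; linarith [hL1 k]
      · rw [gB_mid (by linarith) h]; linarith [hL2 k]
    refine ⟨x', η', f1, f3, f6, ?_⟩
    rw [Φx, Φx']
    unfold FR
    rw [f3, gB_hi (by linarith : -(1 / 2) ≤ x (ρ 5)), gB_hi (by linarith : -(1 / 2) ≤ x' (ρ 5)),
      Fin.sum_univ_four, Fin.sum_univ_four, Fin.sum_univ_four, Fin.sum_univ_four]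
    have u0 := hUq 0
    have u1 := hUq 1
    have u2 := hUq 2
    have u3 := hUq 3
    have v0 := (hF.1 (ρ (iU 0))).2
    have v1 := (hF.1 (ρ (iU 1))).2
    have v2 := (hF.1 (ρ (iU 2))).2
    have v3 := (hF.1 (ρ (iU 3))).2
    have w0 := gL' 0
    have w1 := gL' 1
    have w2 := gL' 2
    have w3 := gL' 3
    have x0 := gL 0
    have x1 := gL 1
    have x2 := gL 2
    have x3 := gL 3
    linarith
  · -- exact state
    obtain ⟨x0, x5, x10, xU, xL, ψ, hψ⟩ := (lab_main K (fe_comp hF ρ) hB).ex heq.symm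
    simp only [Function.comp] at x0 x5 x10 xU xL
    have hfe : ∀ t : ℝ, 0 ≤ t → t ≤ 1 / 16 → Fe (mv (fun _ => vel ρ 0) x t)
        (fun i => η i + t * ψ (ρ.symm i)) := by
      intro t ht0 ht1
      have := fe_comp (hψ t ht0 ht1) ρ.symm
      have e1 : (fun i => (x ∘ ρ) i + t * vv 0 i) ∘ ρ.symm = mv (fun _ => vel ρ 0) x t := by
        funext i; simp [mv, vel]
      have e2 : (fun i => (η ∘ ρ) i + t * ψ i) ∘ ρ.symm = fun i => η i + t * ψ (ρ.symm i) := by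
        funext i; simp
      rwa [e1, e2] at this
    have hf1 := hfe (1 / 100) (by norm_num) (by norm_num)
    have mL : ∀ k, mv (fun _ => vel ρ 0) x (1 / 100) (ρ (iL k)) = -1 / 2 := by
      intro k
      show x (ρ (iL k)) + 1 / 100 * vel ρ 0 (ρ (iL k)) = _
      rw [vel_ρ, vv_L, xL]; ring
    have Φx' : PhiB (mv (fun _ => vel ρ 0) x (1 / 100)) =
        FR ρ (mv (fun _ => vel ρ 0) x (1 / 100)) := by
      apply PhiB_eq ρ
      · intro k; rw [mv_0, mv_U, xU, x0]; norm_num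
      · rw [mv_0, mv_5, x0, x5]; norm_num
      · intro k; rw [mv_0, mL, x0]; norm_num
      · rw [mv_0, mv_10, x0, x10]; norm_num
    refine ⟨mv (fun _ => vel ρ 0) x (1 / 100), fun i => η i + 1 / 100 * ψ (ρ.symm i), hf1,
      mv_10 _ _ _ _, ?_, ?_⟩
    · have hj := joined_of_seg (f := fun t => pinN (mv (fun _ => vel ρ 0) x t)
        (fun k => η k + t * ψ (ρ.symm k))) 0 (1 / 100)
        (Continuous.continuousOn (continuous_pinN (fun k => by unfold mv; fun_prop)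
          (fun k => by fun_prop))) (by
          intro t ht
          rw [uIcc_of_le (by norm_num)] at ht
          exact pinN_mem (hfe t ht.1 (ht.2.trans (by norm_num))))
      have b1 : mv (fun _ => vel ρ 0) x 0 = x := by funext k; simp [mv]
      have b2 : (fun k => η k + 0 * ψ (ρ.symm k)) = η := by funext k; simp
      have e0 : pinN (mv (fun _ => vel ρ 0) x 0) (fun k => η k + 0 * ψ (ρ.symm k)) = pinN x η := by
        rw [b1, b2]
      rwa [e0] at hj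
    · rw [Φx, Φx']
      have := FR_grow ρ (y := 0) le_rfl (by norm_num) x (t := 1 / 100) (by norm_num)
        (by rw [x5]; norm_num)
      linarith

/-- **Gain at every state of R1** -/
theorem r1_gainS' (K : Pcs) {z φ : Fin 11 → ℝ} (hF : Fe z φ) (ρ : Equiv.Perm (Fin 11))
    (hB : Box (z ∘ ρ)) : GainS PhiB z φ := by
  rcases hB.pq.lt_or_eq with hlt | heq
  · exact gainS_pos K hF ρ hB hlt
  obtain ⟨x0, x5, x10, xU, xL, -⟩ := (lab_main K (fe_comp hF ρ) hB).ex heq.symm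
  simp only [Function.comp] at x0 x5 x10 xU xL
  have hU : {s : HL | ∀ i, |s.1 i - z i| < 1 / 1000} ∈ 𝓝 (z, φ) := by
    have : ∀ᶠ s : HL in 𝓝 (z, φ), ∀ i, |s.1 i - z i| < 1 / 1000 := by
      rw [eventually_all]
      intro i
      have h1 : ContinuousAt (fun s : HL => |s.1 i - z i|) (z, φ) := by
        apply Continuous.continuousAt; fun_prop
      exact h1.eventually (gt_mem_nhds (show |z i - z i| < 1 / 1000 by simp))
    exact this
  refine ⟨_, hU, 1 / 250, by norm_num, ?_⟩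
  intro y η hyU hyF _
  have c : ∀ i, -(1 / 1000) < y i - z i ∧ y i - z i < 1 / 1000 := fun i => abs_lt.1 (hyU i)
  have g0 : |y (ρ 0)| ≤ 1 / 1000 := by
    have := c (ρ 0); rw [x0] at this
    exact abs_le.2 ⟨by linarith, by linarith⟩
  have g5 : |y (ρ 5)| ≤ 1 / 1000 := by
    have := c (ρ 5); rw [x5] at this
    exact abs_le.2 ⟨by linarith, by linarith⟩
  have gU : ∀ k, 1 / 2 - 1 / 1000 ≤ y (ρ (iU k)) := fun k => by
    have := c (ρ (iU k)); rw [xU] at this; linarith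
  have gL : ∀ k, |y (ρ (iL k)) + 1 / 2| ≤ 1 / 1000 := fun k => by
    have := c (ρ (iL k)); rw [xL] at this
    exact abs_le.2 ⟨by linarith, by linarith⟩
  have gS : y (ρ 10) ≤ -1 + 1 / 1000 := by
    have := c (ρ 10); rw [x10] at this; linarith
  have fin : ∀ ρ' : Equiv.Perm (Fin 11), |y (ρ' 0)| ≤ 1 / 1000 → |y (ρ' 5)| ≤ 1 / 1000 →
      y (ρ' 5) ≤ y (ρ' 0) → (∀ k, 1 / 2 - 1 / 1000 ≤ y (ρ' (iU k))) →
      (∀ k, |y (ρ' (iL k)) + 1 / 2| ≤ 1 / 1000) → y (ρ' 10) ≤ -1 + 1 / 1000 →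
      JB (pinN y η) ∨ ∃ y' η', Fe y' η' ∧ Mu y ≤ Mu y' ∧ PhiB y + 1 / 250 ≤ PhiB y' ∧
        (JB (pinN y' η') → JB (pinN y η)) := by
    intro ρ' q0 q5 qle qU qL qS
    obtain ⟨x', η', k1, k2, k3, k4⟩ := near_exactS K hyF ρ' q0 q5 qle qU qL qS
    refine Or.inr ⟨x', η', k1, ?_, k4, fun h => k3.trans h⟩
    have b0 := abs_le.1 q0
    have b5 := abs_le.1 q5
    rw [Mu_eq_of_low (k := ρ' 10) (by linarith) (by
      intro j hj
      rcases casesρ ρ' j with rfl | rfl | rfl | ⟨k, rfl⟩ | ⟨k, rfl⟩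
      · linarith
      · linarith
      · exact absurd rfl hj
      · linarith [qU k]
      · linarith [(abs_le.1 (qL k)).1])]
    refine le_trans ?_ (neg_le_Mu _ (ρ' 10))
    rw [k2]
  rcases le_total (y (ρ 5)) (y (ρ 0)) with h | h
  · exact fin ρ g0 g5 h gU gL gS
  · have e0 : ((Equiv.swap (0 : Fin 11) 5).trans ρ) 0 = ρ 5 := by simp
    have e5 : ((Equiv.swap (0 : Fin 11) 5).trans ρ) 5 = ρ 0 := by simp
    have eU : ∀ k, ((Equiv.swap (0 : Fin 11) 5).trans ρ) (iU k) = ρ (iU k) := by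
      intro k
      rw [Equiv.trans_apply]
      congr 1
      revert k; decide
    have eL : ∀ k, ((Equiv.swap (0 : Fin 11) 5).trans ρ) (iL k) = ρ (iL k) := by
      intro k
      rw [Equiv.trans_apply]
      congr 1
      revert k; decide
    have e10 : ((Equiv.swap (0 : Fin 11) 5).trans ρ) 10 = ρ 10 := by
      rw [Equiv.trans_apply]; congr 1
    refine fin ((Equiv.swap (0 : Fin 11) 5).trans ρ) ?_ ?_ ?_ ?_ ?_ ?_
    · rw [e0]; exact g5
    · rw [e5]; exact g0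
    · rw [e0, e5]; exact h
    · intro k; rw [eU]; exact gU k
    · intro k; rw [eL]; exact gL k
    · rw [e10]; exact gS

/-- **Gain at every state of R1** -/
theorem r1_gainS {z φ : Fin 11 → ℝ} (hF : Fe z φ) (ρ : Equiv.Perm (Fin 11))
    (hB : Box (z ∘ ρ)) : GainS PhiB z φ := r1_gainS' pcs hF ρ hB

end Pool.Agent.Helper66.Kiss
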