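import Pool.Agent.Helper66.Kiss.Basic

set_option autoImplicit false

/-! # Twelve kissing spheres: the two-ring family -/

namespace Pool.Agent.Helper66.Kiss

open Real Set

def up (k : Fin 5) : Fin 12 := ⟨k.val + 2, by omega⟩
def lo (k : Fin 5) : Fin 12 := ⟨k.val + 7, by omega⟩

lemma cases12 (i : Fin 12) : i = 0 ∨ i = 1 ∨ (∃ k, i = up k) ∨ (∃ k, i = lo k) := by
  revert i; decide

lemma up_inj {k l : Fin 5} : up k = up l ↔ k = l := by revert k l; decide
lemma lo_inj {k l : Fin 5} : lo k = lo l ↔ k = l := by revert k l; decide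

/-- assemble a configuration from two poles and two groups of five points -/
def asm {α : Type*} (N S : α) (u l : Fin 5 → α) : Fin 12 → α := fun i =>
  if i = 0 then N else if i = 1 then S else if h : i.val < 7 then
    u ⟨i.val - 2, by omega⟩ else l ⟨i.val - 7, by omega⟩

lemma asm_zero {α : Type*} (N S : α) (u l : Fin 5 → α) : asm N S u l 0 = N := rfl
lemma asm_one {α : Type*} (N S : α) (u l : Fin 5 → α) : asm N S u l 1 = S := rfl
lemma asm_up {α : Type*} (N S : α) (u l : Fin 5 → α) (k : Fin 5) : asm N S u l (up k) = u k := by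
  fin_cases k <;> rfl
lemma asm_lo {α : Type*} (N S : α) (u l : Fin 5 → α) (k : Fin 5) : asm N S u l (lo k) = l k := by
  fin_cases k <;> rfl

lemma asm_mem {N S : E3} {u l : Fin 5 → E3} (hN : inner ℝ N N = 1) (hS : inner ℝ S S = 1)
    (hu : ∀ k, inner ℝ (u k) (u k) = 1) (hl : ∀ k, inner ℝ (l k) (l k) = 1)
    (hNS : inner ℝ N S ≤ 1 / 2) (hNu : ∀ k, inner ℝ N (u k) ≤ 1 / 2)
    (hNl : ∀ k, inner ℝ N (l k) ≤ 1 / 2) (hSu : ∀ k, inner ℝ S (u k) ≤ 1 / 2)
    (hSl : ∀ k, inner ℝ S (l k) ≤ 1 / 2)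
    (huu : ∀ k m, k < m → inner ℝ (u k) (u m) ≤ 1 / 2)
    (hll : ∀ k m, k < m → inner ℝ (l k) (l m) ≤ 1 / 2)
    (hul : ∀ k m, inner ℝ (u k) (l m) ≤ 1 / 2) : asm N S u l ∈ Conf := by
  rw [mem_Conf_iff]
  constructor
  · intro i
    rcases cases12 i with rfl | rfl | ⟨k, rfl⟩ | ⟨k, rfl⟩
    · rwa [asm_zero]
    · rwa [asm_one]
    · rw [asm_up]; exact hu k
    · rw [asm_lo]; exact hl k
  · intro i j hij
    rcases cases12 i with rfl | rfl | ⟨k, rfl⟩ | ⟨k, rfl⟩ <;>
    rcases cases12 j with rfl | rfl | ⟨m, rfl⟩ | ⟨m, rfl⟩ <;>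
    simp only [asm_zero, asm_one, asm_up, asm_lo]
    · exact absurd rfl hij
    · exact hNS
    · exact hNu m
    · exact hNl m
    · rw [real_inner_comm]; exact hNS
    · exact absurd rfl hij
    · exact hSu m
    · exact hSl m
    · rw [real_inner_comm]; exact hNu k
    · rw [real_inner_comm]; exact hSu k
    · rcases lt_trichotomy k m with h | h | h
      · exact huu k m h
      · exact absurd (by rw [h]) hij
      · rw [real_inner_comm]; exact huu m k h
    · exact hul k m
    · rw [real_inner_comm]; exact hNl k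
    · rw [real_inner_comm]; exact hSl k
    · rw [real_inner_comm]; exact hul m k
    · rcases lt_trichotomy k m with h | h | h
      · exact hll k m h
      · exact absurd (by rw [h]) hij
      · rw [real_inner_comm]; exact hll m k h

lemma continuous_asm {X : Type*} [TopologicalSpace X] {N S : X → E3} {u l : X → Fin 5 → E3}
    (hN : Continuous N) (hS : Continuous S) (hu : ∀ k, Continuous fun x => u x k)
    (hl : ∀ k, Continuous fun x => l x k) : Continuous fun x => asm (N x) (S x) (u x) (l x) := by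
  refine continuous_pi fun i => ?_
  rcases cases12 i with rfl | rfl | ⟨k, rfl⟩ | ⟨k, rfl⟩
  · simpa [asm_zero] using hN
  · simpa [asm_one] using hS
  · simpa [asm_up] using hu k
  · simpa [asm_lo] using hl k

/-- any configuration is the assembly of its parts -/
lemma eq_asm (p : Fin 12 → E3) : p = asm (p 0) (p 1) (fun k => p (up k)) (fun k => p (lo k)) := by
  funext i
  rcases cases12 i with rfl | rfl | ⟨k, rfl⟩ | ⟨k, rfl⟩
  · rw [asm_zero]
  · rw [asm_one]
  · rw [asm_up]
  · rw [asm_lo]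

/-! ## the two-ring family -/

/-- poles, a ring at height `1/2` with longitudes `φ`, a ring at height `-1/2` with longitudes `ψ` -/
noncomputable def two (φ ψ : Fin 5 → ℝ) : Fin 12 → E3 :=
  asm e3 (-e3) (fun k => pt (1 / 2) (φ k)) (fun k => pt (-(1 / 2)) (ψ k))

/-- `arccos (1/3)`, the width of a contact of two balls at height `1/2` -/
noncomputable def al : ℝ := arccos (1 / 3)

lemma cos_al : cos al = 1 / 3 := Real.cos_arccos (by norm_num) (by norm_num)
lemma al_nonneg : 0 ≤ al := Real.arccos_nonneg _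
lemma al_le : al ≤ 2 * π / 5 := by
  -- cos (2π/5) = (√5 - 1)/4 < 1/3
  have h : cos (2 * π / 5) ≤ 1 / 3 := by
    have h1 : cos (2 * π / 5) = 2 * cos (π / 5) ^ 2 - 1 := by
      rw [← cos_two_mul]; ring_nf
    rw [h1, Real.cos_pi_div_five]
    have h5 : √5 ^ 2 = 5 := Real.sq_sqrt (by norm_num)
    have h6 : √5 ≤ 7 / 3 := by
      rw [Real.sqrt_le_left (by norm_num)]; norm_num
    nlinarith
  have h2 : al ≤ arccos (cos (2 * π / 5)) := Real.arccos_le_arccos h
  rwa [Real.arccos_cos (by positivity) (by linarith [Real.pi_pos])] at h2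

/-- ordered longitudes of a ring of five balls -/
def Srt (φ : Fin 5 → ℝ) : Prop := ∀ k m, k < m → al ≤ φ m - φ k ∧ φ m - φ k ≤ 2 * π - al

lemma cos_le_of_mem {x : ℝ} (h1 : al ≤ x) (h2 : x ≤ 2 * π - al) : cos x ≤ 1 / 3 := by
  rw [← cos_al]
  rcases le_total x π with h | h
  · exact Real.cos_le_cos_of_nonneg_of_le_pi al_nonneg h h1
  · rw [← Real.cos_two_pi_sub x]
    exact Real.cos_le_cos_of_nonneg_of_le_pi al_nonneg (by linarith) (by linarith)

lemma mem_of_cos_le {x : ℝ} (h0 : 0 ≤ x) (h1 : x ≤ 2 * π) (h : cos x ≤ 1 / 3) :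
    al ≤ x ∧ x ≤ 2 * π - al := by
  rcases le_total x π with h2 | h2
  · have : al ≤ x := by
      have := Real.arccos_le_arccos h
      rwa [Real.arccos_cos h0 h2] at this
    refine ⟨this, ?_⟩
    have hal : al ≤ π := Real.arccos_le_pi _
    linarith
  · have : al ≤ 2 * π - x := by
      have h3 : cos (2 * π - x) ≤ 1 / 3 := by rwa [Real.cos_two_pi_sub]
      have := Real.arccos_le_arccos h3
      rwa [Real.arccos_cos (by linarith) (by linarith)] at this
    have hal : al ≤ π := Real.arccos_le_pi _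
    exact ⟨by linarith, by linarith⟩

lemma sqrt_half : √(1 - (1 / 2 : ℝ) ^ 2) * √(1 - (1 / 2 : ℝ) ^ 2) = 3 / 4 := by
  rw [Real.mul_self_sqrt (by norm_num)]; norm_num

lemma sqrt_half' : √(1 - (-(1 / 2) : ℝ) ^ 2) * √(1 - (-(1 / 2) : ℝ) ^ 2) = 3 / 4 := by
  rw [Real.mul_self_sqrt (by norm_num)]; norm_num

lemma sqrt_half'' : √(1 - (1 / 2 : ℝ) ^ 2) * √(1 - (-(1 / 2) : ℝ) ^ 2) = 3 / 4 := by
  rw [neg_sq, Real.mul_self_sqrt (by norm_num)]; norm_num

lemma two_mem {φ ψ : Fin 5 → ℝ} (hφ : Srt φ) (hψ : Srt ψ) : two φ ψ ∈ Conf := by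
  refine asm_mem inner_e3_e3 (by rw [inner_neg_neg]; exact inner_e3_e3)
    (fun k => inner_pt_self _ _ (by norm_num)) (fun k => inner_pt_self _ _ (by norm_num))
    (by rw [inner_neg_right, inner_e3_e3]; norm_num) (fun k => by rw [inner_e3_pt])
    (fun k => by rw [inner_e3_pt]; norm_num) (fun k => by rw [inner_neg_left, inner_e3_pt]; norm_num)
    (fun k => by rw [inner_neg_left, inner_e3_pt]; norm_num) ?_ ?_ ?_
  · intro k m hkm
    rw [inner_pt, sqrt_half, ← cos_neg, neg_sub]
    have := cos_le_of_mem (hφ k m hkm).1 (hφ k m hkm).2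
    linarith
  · intro k m hkm
    rw [inner_pt, sqrt_half', ← cos_neg, neg_sub]
    have := cos_le_of_mem (hψ k m hkm).1 (hψ k m hkm).2
    linarith
  · intro k m
    rw [inner_pt, sqrt_half'']
    have := Real.cos_le_one (φ k - ψ m)
    linarith

lemma Srt.segment {φ φ' : Fin 5 → ℝ} (h : Srt φ) (h' : Srt φ') {t : ℝ} (ht : t ∈ Icc (0 : ℝ) 1) :
    Srt (fun k => (1 - t) * φ k + t * φ' k) := by
  intro k m hkm
  obtain ⟨h1, h2⟩ := h k m hkm
  obtain ⟨h3, h4⟩ := h' k m hkm
  constructor
  · have e1 := mul_le_mul_of_nonneg_left h1 (by linarith [ht.2] : (0 : ℝ) ≤ 1 - t)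
    have e2 := mul_le_mul_of_nonneg_left h3 ht.1
    show al ≤ (1 - t) * φ m + t * φ' m - ((1 - t) * φ k + t * φ' k)
    linarith
  · have e1 := mul_le_mul_of_nonneg_left h2 (by linarith [ht.2] : (0 : ℝ) ≤ 1 - t)
    have e2 := mul_le_mul_of_nonneg_left h4 ht.1
    show (1 - t) * φ m + t * φ' m - ((1 - t) * φ k + t * φ' k) ≤ 2 * π - al
    linarith

/-- all ordered two-ring configurations (with the same labels) are joined -/
lemma two_joined {φ φ' ψ ψ' : Fin 5 → ℝ} (hφ : Srt φ) (hφ' : Srt φ') (hψ : Srt ψ) (hψ' : Srt ψ') :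
    JoinedIn Conf (two φ ψ) (two φ' ψ') := by
  have h := joined_of_fun
    (f := fun t => two (fun k => (1 - t) * φ k + t * φ' k) (fun k => (1 - t) * ψ k + t * ψ' k))
    (continuous_asm continuous_const continuous_const
      (fun k => continuous_pt continuous_const (by fun_prop))
      (fun k => continuous_pt continuous_const (by fun_prop)))
    (fun t ht => two_mem (hφ.segment hφ' ht) (hψ.segment hψ' ht))
  simpa using h

/-- equally spaced longitudes -/
noncomputable def th (k : Fin 5) : ℝ := 2 * π / 5 * (k : ℕ)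

lemma Srt_th (c : ℝ) : Srt (fun k => th k + c) := by
  intro k m hkm
  have h1 : ((k : ℕ) : ℝ) + 1 ≤ (m : ℕ) := by exact_mod_cast hkm
  have h2 : ((m : ℕ) : ℝ) ≤ 4 := by exact_mod_cast (by omega : (m : ℕ) ≤ 4)
  have h3 : (0 : ℝ) ≤ (k : ℕ) := by positivity
  have h4 := al_le
  have hpi := Real.pi_pos
  simp only [th]
  constructor <;> nlinarith

/-- The permutation turning the upper ring by one step. -/
def cU : Equiv.Perm (Fin 12) where
  toFun := ![0, 1, 3, 4, 5, 6, 2, 7, 8, 9, 10, 11]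
  invFun := ![0, 1, 6, 2, 3, 4, 5, 7, 8, 9, 10, 11]
  left_inv := by decide
  right_inv := by decide

/-- The permutation turning the lower ring by one step. -/
def cL : Equiv.Perm (Fin 12) where
  toFun := ![0, 1, 2, 3, 4, 5, 6, 8, 9, 10, 11, 7]
  invFun := ![0, 1, 2, 3, 4, 5, 6, 11, 7, 8, 9, 10]
  left_inv := by decide
  right_inv := by decide

lemma cU_up (k : Fin 5) : cU (up k) = up (k + 1) := by revert k; decide
lemma cU_lo (k : Fin 5) : cU (lo k) = lo k := by revert k; decide
lemma cL_up (k : Fin 5) : cL (up k) = up k := by revert k; decide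
lemma cL_lo (k : Fin 5) : cL (lo k) = lo (k + 1) := by revert k; decide

lemma pt_th_succ (s : ℝ) (k : Fin 5) : pt s (th (k + 1)) = pt s (th k + 2 * π / 5) := by
  by_cases h : k = 4
  · subst h
    have h1 : th (4 : Fin 5) + 2 * π / 5 = th ((4 : Fin 5) + 1) + 2 * π := by
      simp only [th]
      have e1 : (((4 : Fin 5) : ℕ) : ℝ) = 4 := by norm_num
      have e2 : ((((4 : Fin 5) + 1 : Fin 5) : ℕ) : ℝ) = 0 := by
        norm_num
      rw [e1, e2]; ring
    rw [h1, pt_add_two_pi]
  · have h1 : th (k + 1) = th k + 2 * π / 5 := by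
      simp only [th]
      have : ((k + 1 : Fin 5) : ℕ) = (k : ℕ) + 1 := by
        revert h; revert k; decide
      rw [this]; push_cast; ring
    rw [h1]

lemma two_comp_cU (ψ : Fin 5 → ℝ) : two th ψ ∘ cU = two (fun k => th k + 2 * π / 5) ψ := by
  funext i
  rcases cases12 i with rfl | rfl | ⟨k, rfl⟩ | ⟨k, rfl⟩
  · rfl
  · rfl
  · simp only [Function.comp, two, cU_up, asm_up]
    exact pt_th_succ _ k
  · simp only [Function.comp, two, cU_lo, asm_lo]

lemma two_comp_cL (φ : Fin 5 → ℝ) : two φ th ∘ cL = two φ (fun k => th k + 2 * π / 5) := by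
  funext i
  rcases cases12 i with rfl | rfl | ⟨k, rfl⟩ | ⟨k, rfl⟩
  · rfl
  · rfl
  · simp only [Function.comp, two, cL_up, asm_up]
  · simp only [Function.comp, two, cL_lo, asm_lo]
    exact pt_th_succ _ k

lemma Srt_th0 : Srt th := by simpa using Srt_th 0

/-- base point -/
noncomputable def base : Fin 12 → E3 := two th th

lemma base_mem : base ∈ Conf := two_mem Srt_th0 Srt_th0

lemma joined_cU : JoinedIn Conf (base ∘ cU) base := by
  unfold base; rw [two_comp_cU]
  exact two_joined (Srt_th _) Srt_th0 Srt_th0 Srt_th0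

lemma joined_cL : JoinedIn Conf (base ∘ cL) base := by
  unfold base; rw [two_comp_cL]
  exact two_joined Srt_th0 Srt_th0 (Srt_th _) Srt_th0

/-- the subgroup of relabellings of the base point realised by motions -/
def G : Subgroup (Equiv.Perm (Fin 12)) where
  carrier := {σ | JoinedIn Conf (base ∘ σ) base}
  one_mem' := by
    show JoinedIn Conf (base ∘ (1 : Equiv.Perm (Fin 12))) base
    exact JoinedIn.refl base_mem
  mul_mem' := by
    intro σ τ hσ hτ
    show JoinedIn Conf (base ∘ (σ * τ : Equiv.Perm (Fin 12))) base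
    have h := comp_joined (show JoinedIn Conf (base ∘ σ) base from hσ) τ
    exact h.trans hτ
  inv_mem' := by
    intro σ hσ
    show JoinedIn Conf (base ∘ (σ⁻¹ : Equiv.Perm (Fin 12))) base
    have h := comp_joined (show JoinedIn Conf (base ∘ σ) base from hσ) σ⁻¹
    have e : (base ∘ ⇑σ) ∘ ⇑σ⁻¹ = base := by
      funext i; simp
    rw [e] at h
    exact h.symm

end Pool.Agent.Helper66.Kiss
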