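import Pool.Agent.Helper66.Kiss.FinalL
import Pool.Agent.Helper54.KA.Root

set_option autoImplicit false

/-! # The leaves at the roots; the root with a reflection, without flags -/

namespace Pool.Agent.Helper66.Kiss.Dl

open Real Pool.Agent.Helper98.DL Pool.Agent.Helper66.Kiss Pool.Agent.Helper54.KA

/-- the conclusion at the roots -/
abbrev PR : (ℕ → ℝ) → (ℕ → ℝ) → Prop := Pv (GainL PhiB)

lemma Zf_xt (Z : Fin 11 → ℝ) : Zf (xt Z) = Z := xt_fun Z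

lemma HSL.hy {z φ : ℕ → ℝ} (h : HSL z φ) : HyL z φ := by
  obtain ⟨Z, Φ, rfl, rfl, hS⟩ := h
  unfold HyL
  rw [Zf_xt, Zf_xt]
  exact hS

/-- **soundness of all leaves**, at the roots -/
theorem dlAll_root (L f D r : ℕ) (h : dlAll L f D r = true) :
    Helper54.KA.Good HSL PR L f := fun z φ hH hB hF =>
  dlAll_sound L f D r h z φ (HSL.hy hH) hB hF

/-- invariance under the reflection -/
theorem refl_root (Z Φ : Fin 11 → ℝ)
    (h : GainL PhiB (shz 10 (rfz Z)) (shφ 10 (rfφ Φ))) : GainL PhiB Z Φ :=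
  GainL.refl0 PhiB_perm h

/-! ## states whose first node is at most the last -/

/-- the hypotheses with the order of the first and the last node -/
def HSB (z φ : ℕ → ℝ) : Prop := HSL z φ ∧ z 1 ≤ z 10

lemma HSB.cf {z φ : ℕ → ℝ} (h : HSB z φ) : Cf z φ := HSL.cf h.1

/-- the first node is above the last -/
noncomputable def symC (L : ℕ) : Bool :=
  Nat.ble (Nat.succ (Nat.div (fdK L 11) 65536)) (Nat.mod (fdK L 2) 65536)

/-- **all leaves**, with the order of the first and the last node (kind `5`) -/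
noncomputable def dlB (L f D r : ℕ) : Bool :=
  Helper98.DL.cb (Nat.beq (Nat.mod r 8) 5) (symC L) (dlAll L f D r)

theorem symC_sound {L : ℕ} {z : ℕ → ℝ} (h : symC L = true) (hB : InB L z) : ¬ z 1 ≤ z 10 := by
  intro hz
  obtain ⟨hbox, -⟩ := box_bridge (Z := Zf z) hB (fun _ => rfl)
  have h1 := Nat.le_of_ble_eq_true h
  have e1 := hbox.lo 0
  have e2 := hbox.hi 9
  have e3 : Zf z (Fin.succ 0) = z 1 := rfl
  have e4 : Zf z (Fin.succ 9) = z 10 := rfl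
  rw [e3] at e1
  rw [e4] at e2
  have e5 : fdK L 11 / 65536 + 1 ≤ fdK L 2 % 65536 := h1
  have e6 : ((fdK L 11 / 65536 : ℕ) : ℝ) + 1 ≤ ((fdK L 2 % 65536 : ℕ) : ℝ) := by
    exact_mod_cast e5
  have e7 : (fdK L (((0 : Fin 10) : ℕ) + 2) % 65536 : ℕ) = fdK L 2 % 65536 := rfl
  have e8 : (fdK L (((9 : Fin 10) : ℕ) + 2) / 65536 : ℕ) = fdK L 11 / 65536 := rfl
  rw [e7] at e1
  rw [e8] at e2
  linarith

theorem dlB_root (L f D r : ℕ) (h : dlB L f D r = true) : Helper54.KA.Good HSB PR L f := by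
  intro z φ hH hB hF
  unfold dlB at h
  cases hk : Nat.beq (Nat.mod r 8) 5 with
  | true =>
    rw [hk] at h
    exact absurd hH.2 (symC_sound h hB)
  | false =>
    rw [hk] at h
    exact dlAll_root L f D r h z φ hH.1 hB hF

/-! ## the root box -/

/-- packed ends of the root box -/
def rcB (k1 k2 lo k : ℕ) : ℕ :=
  if k = 0 then (32768 + k1) + 65536 * (32768 + k2) else lo + 65536 * 6144

/-- the root box: special point in `[32768 + k1, 32768 + k2]`, the nodes in `[lo, 6144]` -/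
def rootB (k1 k2 lo : ℕ) : ℕ := tg (pk (rcB k1 k2 lo) 11)

lemma rcB_lt {k1 k2 lo : ℕ} (h1 : k1 ≤ 1023) (h2 : k2 ≤ 1023) (h3 : lo ≤ 6144) (k : ℕ) :
    rcB k1 k2 lo k < 2 ^ 32 := by
  unfold rcB
  have : (2 : ℕ) ^ 32 = 4294967296 := by norm_num
  rw [this]
  split_ifs <;> omega

lemma fd_rootB {k1 k2 lo : ℕ} (h1 : k1 ≤ 1023) (h2 : k2 ≤ 1023) (h3 : lo ≤ 6144) {k : ℕ}
    (hk : k < 11) : fd (rootB k1 k2 lo) (k + 1) = rcB k1 k2 lo k := by
  unfold rootB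
  rw [fd_tg]
  exact pk_field hk fun j _ => rcB_lt h1 h2 h3 j

lemma Fl_zero (z φ : ℕ → ℝ) : Fl 0 z φ := by
  constructor
  · intro i j _ _ _ _ h
    simp at h
  · intro i j _ _ h
    simp at h

theorem inB_rootB {Z Φ : Fin 11 → ℝ} {k1 k2 lo : ℕ} (h : St Z Φ)
    (h12 : k1 ≤ k2) (h2 : k2 ≤ 1023) (l1 : 1 ≤ lo) (l2 : lo ≤ 6144)
    (z1 : hgt (32768 + k1) ≤ Z 0) (z2 : Z 0 ≤ hgt (32768 + k2))
    (hl : ∀ i, 1 ≤ i → i ≤ 10 → hgt lo ≤ xt Z i) : InB (rootB k1 k2 lo) (xt Z) := by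
  intro k hk
  rw [fd_rootB (by omega) h2 l2 hk]
  have hc6 : isC 6144 = true := isC_iff.2 (by norm_num)
  by_cases k0 : k = 0
  · subst k0
    have e : rcB k1 k2 lo 0 = (32768 + k1) + 65536 * (32768 + k2) := by
      unfold rcB; rw [if_pos rfl]
    have m1 : rcB k1 k2 lo 0 % 65536 = 32768 + k1 := by rw [e]; omega
    have m2 : rcB k1 k2 lo 0 / 65536 = 32768 + k2 := by rw [e]; omega
    refine ⟨Or.inr ⟨rfl, ?_, ?_⟩, ?_, ?_, ?_⟩
    · rw [m1]; exact isS0_iff.2 ⟨by omega, by omega⟩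
    · rw [m2]; exact isS0_iff.2 ⟨by omega, by omega⟩
    · rw [m1, m2]; omega
    · rw [m1, xt_zero]; exact z1
    · rw [m2, xt_zero]; exact z2
  · have e : rcB k1 k2 lo k = lo + 65536 * 6144 := by
      unfold rcB; rw [if_neg k0]
    have m1 : rcB k1 k2 lo k % 65536 = lo := by rw [e]; omega
    have m2 : rcB k1 k2 lo k / 65536 = 6144 := by rw [e]; omega
    refine ⟨Or.inl ⟨k0, ?_, ?_⟩, ?_, ?_, ?_⟩
    · rw [m1]; exact isC_iff.2 ⟨l1, by omega⟩
    · rw [m2]; exact hc6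
    · rw [m1, m2]; exact l2
    · rw [m1]; exact hl k (by omega) (by omega)
    · rw [m2, hgt_6144]; exact (h.node (by omega) (by omega)).2

/-- **reduction to the root box** -/
theorem root_redB {k1 k2 lo : ℕ} {β r : ℝ} (h12 : k1 ≤ k2) (h2 : k2 ≤ 1023) (l1 : 1 ≤ lo)
    (l2 : lo ≤ 6144) (hβ : hgt (32768 + k2) ≤ β) (hr : hgt lo ≤ r) (hβ0 : β < 0) (hr0 : r < 0)
    (c1 : 1 / 2 < β * r) (c2 : (1 - β ^ 2) * (1 - r ^ 2) < (β * r - 1 / 2) ^ 2)
    (hroot : Helper54.KA.Good HSB PR (rootB k1 k2 lo) 0)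
    {Z Φ : Fin 11 → ℝ} (h : SL (11 / 12) Z Φ 0)
    (z1 : hgt (32768 + k1) ≤ Z 0) (z2 : Z 0 ≤ hgt (32768 + k2)) : GainL PhiB Z Φ := by
  have main : ∀ Z Φ : Fin 11 → ℝ, SL (11 / 12) Z Φ 0 → hgt (32768 + k1) ≤ Z 0 →
      Z 0 ≤ hgt (32768 + k2) → xt Z 1 ≤ xt Z 10 → GainL PhiB Z Φ := by
    intro Z Φ h z1 z2 hz
    have hst := SL.st h
    have hB := inB_rootB hst h12 h2 l1 l2 z1 z2 fun i i1 i2 =>
      hr.trans (low_node hst (z2.trans hβ) hβ0 hr0 c1 c2 i1 i2)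
    exact Pv_xt (P := GainL PhiB)
      (hroot (xt Z) (xt Φ) ⟨⟨Z, Φ, rfl, rfl, h⟩, hz⟩ hB (Fl_zero _ _))
  rcases le_total (xt Z 1) (xt Z 10) with hz | hz
  · exact main Z Φ h z1 z2 hz
  · apply refl_root
    refine main _ _ h.refl0 (by rw [refl0_zero]; exact z1) (by rw [refl0_zero]; exact z2) ?_
    rw [xt_reflz _ (by omega) (by omega), xt_reflz _ (by omega) (by omega)]
    exact hz

/-- the root box as a numeral -/
noncomputable def chkB (k1 k2 lo L : ℕ) : Bool := Nat.beq (rootB k1 k2 lo) L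

lemma chkB_eq {k1 k2 lo L : ℕ} (h : chkB k1 k2 lo L = true) : rootB k1 k2 lo = L :=
  Nat.eq_of_beq_eq_true h

end Pool.Agent.Helper66.Kiss.Dl
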