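import Pool.Agent.Helper66.Kiss.LeafC
import Pool.Agent.Helper66.Kiss.HGain

set_option autoImplicit false

/-! # Slack walks through the pole -/

namespace Pool.Agent.Helper66.Kiss

open Real Set Filter Topology Pk

/-- the path among the ten points is shorter than the difference of the angles of its ends -/
def SlkT (z φ : Fin 11 → ℝ) (χ : ℕ → Fin 10) (m : ℕ) : Prop :=
  twn (fun l : Fin 10 => z l.succ) χ m < φ (χ m).succ - φ (χ 0).succ

lemma SlkT.congr {z φ : Fin 11 → ℝ} {χ χ' : ℕ → Fin 10} {m : ℕ} (h : ∀ k ≤ m, χ k = χ' k)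
    (hs : SlkT z φ χ m) : SlkT z φ χ' m := by
  unfold SlkT at hs ⊢
  have e : twn (fun l : Fin 10 => z l.succ) χ m = twn (fun l : Fin 10 => z l.succ) χ' m := by
    unfold twn
    refine Finset.sum_congr rfl fun k hk => ?_
    have := Finset.mem_range.1 hk
    rw [h k (by omega), h (k + 1) (by omega)]
  rw [← e, ← h m le_rfl, ← h 0 (by omega)]
  exact hs

/-- **slack walks are short near the state** -/
theorem slk_near {z φ : Fin 11 → ℝ} (hz : ∀ k : Fin 10, -1 < z k.succ ∧ z k.succ ≤ 1 / 2) :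
    ∃ δ > 0, ∀ᶠ x : (Fin 11 → ℝ) × (Fin 11 → ℝ) in 𝓝 (z, φ), Fe x.1 x.2 → Srtd x.2 →
      (∀ k, -1 < x.1 k) → ∀ (v : ℕ → ℕ) (m : ℕ), 1 ≤ m → m + 1 ≤ 10 → IsWalk 10 v (m + 1) →
      v (m + 1) = v 0 + 10 → Psd 0 (v m) (v 0) →
      SlkT z φ (fun k => clN 10 (by norm_num) (v k)) m →
      wd (x.1 0) (x.1 (clN 10 (by norm_num) (v 0)).succ) +
        wd (x.1 0) (x.1 (clN 10 (by norm_num) (v m)).succ) +
        twn (fun l : Fin 10 => x.1 l.succ) (fun k => clN 10 (by norm_num) (v k)) m ≤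
        2 * π - δ := by
  have h1 : ∀ᶠ δ in 𝓝[>] (0 : ℝ), ∀ (v : ℕ → ℕ) (r : ℕ), r ≤ 10 → IsWalk 10 v r →
      v r = v 0 + 10 → (∀ k < r, ¬ (fun _ _ : Fin 10 => False) (clN 10 (by norm_num) (v k))
        (clN 10 (by norm_num) (v (k + 1)))) →
      ∀ m, r = m + 1 → SlkT z φ (fun k => clN 10 (by norm_num) (v k)) m →
      twn (fun l : Fin 10 => z l.succ) (fun k => clN 10 (by norm_num) (v k)) m + 3 * δ ≤
        φ (clN 10 (by norm_num) (v m)).succ - φ (clN 10 (by norm_num) (v 0)).succ := by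
    refine ev_walks (D := fun _ _ : Fin 10 => False) (P := fun (δ : ℝ) (χ : ℕ → Fin 10) (r : ℕ) =>
      ∀ m, r = m + 1 → SlkT z φ χ m → twn (fun l : Fin 10 => z l.succ) χ m + 3 * δ ≤
        φ (χ m).succ - φ (χ 0).succ) (by norm_num) ?_ ?_
    · intro δ χ χ' r hχ h m hm hs
      have e : twn (fun l : Fin 10 => z l.succ) χ m = twn (fun l : Fin 10 => z l.succ) χ' m := by
        unfold twn
        refine Finset.sum_congr rfl fun k hk => ?_
        have := Finset.mem_range.1 hk
        rw [hχ k (by omega), hχ (k + 1) (by omega)]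
      have := h m hm (hs.congr fun k hk => (hχ k (by omega)).symm)
      rwa [e, hχ m (by omega), hχ 0 (by omega)] at this
    · intro v r hr hv he _
      rcases Nat.eq_zero_or_pos r with h0 | h0
      · exact Eventually.of_forall fun δ m hm => by omega
      obtain ⟨m0, rfl⟩ : ∃ m, r = m + 1 := ⟨r - 1, by omega⟩
      by_cases hs : SlkT z φ (fun k => clN 10 (by norm_num) (v k)) m0
      · have hs' := hs
        unfold SlkT at hs'
        have hc : Tendsto (fun δ : ℝ => 3 * δ) (𝓝[>] 0) (𝓝 0) := by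
          have : Tendsto (fun δ : ℝ => 3 * δ) (𝓝 0) (𝓝 0) := by
            have : Continuous fun δ : ℝ => 3 * δ := by fun_prop
            exact this.tendsto' _ _ (by norm_num)
          exact this.mono_left nhdsWithin_le_nhds
        filter_upwards [hc.eventually (gt_mem_nhds (sub_pos.2 hs'))] with δ hδ m hm _
        have : m = m0 := by omega
        subst this
        linarith
      · refine Eventually.of_forall fun δ m hm h => ?_
        have : m = m0 := by omega
        subst this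
        exact absurd h hs
  obtain ⟨δ, hδ1, hδ2⟩ := (h1.and self_mem_nhdsWithin).exists
  have hδ : 0 < δ := hδ2
  refine ⟨δ, hδ, ?_⟩
  have h2 : ∀ᶠ x : (Fin 11 → ℝ) × (Fin 11 → ℝ) in 𝓝 (z, φ), ∀ (v : ℕ → ℕ) (r : ℕ), r ≤ 10 →
      IsWalk 10 v r → v r = v 0 + 10 →
      (∀ k < r, ¬ (fun _ _ : Fin 10 => False) (clN 10 (by norm_num) (v k))
        (clN 10 (by norm_num) (v (k + 1)))) → ∀ m, r = m + 1 →
      twn (fun l : Fin 10 => x.1 l.succ) (fun k => clN 10 (by norm_num) (v k)) m <
        twn (fun l : Fin 10 => z l.succ) (fun k => clN 10 (by norm_num) (v k)) m + δ ∧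
      φ (clN 10 (by norm_num) (v m)).succ - φ (clN 10 (by norm_num) (v 0)).succ - δ <
        x.2 (clN 10 (by norm_num) (v m)).succ - x.2 (clN 10 (by norm_num) (v 0)).succ := by
    refine ev_walks (D := fun _ _ : Fin 10 => False)
      (P := fun (x : (Fin 11 → ℝ) × (Fin 11 → ℝ)) (χ : ℕ → Fin 10) (r : ℕ) =>
      ∀ m, r = m + 1 → twn (fun l : Fin 10 => x.1 l.succ) χ m <
        twn (fun l : Fin 10 => z l.succ) χ m + δ ∧
      φ (χ m).succ - φ (χ 0).succ - δ < x.2 (χ m).succ - x.2 (χ 0).succ) (by norm_num) ?_ ?_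
    · intro x χ χ' r hχ h m hm
      have e : ∀ y : Fin 11 → ℝ, twn (fun l : Fin 10 => y l.succ) χ m =
          twn (fun l : Fin 10 => y l.succ) χ' m := by
        intro y
        unfold twn
        refine Finset.sum_congr rfl fun k hk => ?_
        have := Finset.mem_range.1 hk
        rw [hχ k (by omega), hχ (k + 1) (by omega)]
      have := h m hm
      rwa [e, e, hχ m (by omega), hχ 0 (by omega)] at this
    · intro v r hr hv he _
      rcases Nat.eq_zero_or_pos r with h0 | h0
      · exact Eventually.of_forall fun δ m hm => by omega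
      obtain ⟨m0, rfl⟩ : ∃ m, r = m + 1 := ⟨r - 1, by omega⟩
      have t1 : Tendsto (fun x : (Fin 11 → ℝ) × (Fin 11 → ℝ) =>
          twn (fun l : Fin 10 => x.1 l.succ) (fun k => clN 10 (by norm_num) (v k)) m0) (𝓝 (z, φ))
          (𝓝 (twn (fun l : Fin 10 => z l.succ) (fun k => clN 10 (by norm_num) (v k)) m0)) := by
        unfold twn
        refine tendsto_finsetSum _ fun k _ => ?_
        have hc : ∀ l : Fin 10, Tendsto (fun x : (Fin 11 → ℝ) × (Fin 11 → ℝ) => x.1 l.succ)
            (𝓝 (z, φ)) (𝓝 (z l.succ)) := fun l =>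
          ((continuous_apply l.succ).comp continuous_fst).tendsto' _ _ rfl
        exact wd_tendsto' (hc _) (hc _) (hz _) (hz _)
      have t2 : Tendsto (fun x : (Fin 11 → ℝ) × (Fin 11 → ℝ) =>
          x.2 (clN 10 (by norm_num) (v m0)).succ - x.2 (clN 10 (by norm_num) (v 0)).succ)
          (𝓝 (z, φ)) (𝓝 (φ (clN 10 (by norm_num) (v m0)).succ -
            φ (clN 10 (by norm_num) (v 0)).succ)) := by
        have hc : Continuous fun x : (Fin 11 → ℝ) × (Fin 11 → ℝ) =>
          x.2 (clN 10 (by norm_num) (v m0)).succ - x.2 (clN 10 (by norm_num) (v 0)).succ :=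
          ((continuous_apply _).comp continuous_snd).sub ((continuous_apply _).comp continuous_snd)
        exact hc.tendsto' _ _ rfl
      filter_upwards [t1.eventually (gt_mem_nhds (lt_add_of_pos_right _ hδ)),
        t2.eventually (lt_mem_nhds (sub_lt_self _ hδ))] with x x1 x2 m hm
      have : m = m0 := by omega
      subst this
      exact ⟨x1, x2⟩
  filter_upwards [h2] with x hx hF hs hy v m hm hm10 hv he hp hsl
  obtain ⟨a1, a2⟩ := hx v (m + 1) hm10 hv he (fun _ _ h => h) m rfl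
  have a3 := hδ1 v (m + 1) hm10 hv he (fun _ _ h => h) m rfl hsl
  have hlt : v 0 < v m := by
    have := isWalk_ge hv m (by omega)
    omega
  have hval := psd_zero hlt hp
  set i := clN 10 (by norm_num) (v 0) with hi
  set j := clN 10 (by norm_num) (v m) with hj
  have hr : ∀ k, -1 < x.1 k ∧ x.1 k ≤ 1 / 2 := fun k => ⟨hy k, (hF.1 k).2⟩
  have b0 : ∀ l : Fin 10, wd (x.1 0) (x.1 l.succ) ≤ x.2 l.succ - x.2 0 ∧
      x.2 l.succ - x.2 0 ≤ 2 * π - wd (x.1 0) (x.1 l.succ) := by
    intro l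
    have hm0 := hs.1 (Fin.zero_le l.succ)
    exact wd_le_of_gg (hr 0) (hr l.succ) (hF.2 0 l.succ (Fin.succ_ne_zero l).symm) (by linarith)
      (by linarith [(hs.2 0).1, (hs.2 l.succ).2])
  have b1 := (b0 i).1
  have b2 := (b0 j).2
  linarith

/-! ## the same for closed walks with eleven nodes -/

open Classical in
/-- the sum of the differences of the angles along the edges away from the pole -/
noncomputable def gpS (φ : Fin 11 → ℝ) (κ : ℕ → Fin 11) (r : ℕ) : ℝ :=
  ∑ k ∈ Finset.range r, if κ k = 0 ∨ κ (k + 1) = 0 then 0 else φ (κ (k + 1)) - φ (κ k)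

/-- slack closed walks -/
def SlkE (z φ : Fin 11 → ℝ) (κ : ℕ → Fin 11) (r : ℕ) : Prop :=
  twS (fun k => k = 0) z κ r < gpS φ κ r

lemma SlkE.congr {z φ : Fin 11 → ℝ} {κ κ' : ℕ → Fin 11} {r : ℕ} (h : ∀ k ≤ r, κ k = κ' k)
    (hs : SlkE z φ κ r) : SlkE z φ κ' r := by
  unfold SlkE at hs ⊢
  have e1 : twS (fun k => k = 0) z κ r = twS (fun k => k = 0) z κ' r := by
    unfold twS
    refine Finset.sum_congr rfl fun k hk => ?_
    have := Finset.mem_range.1 hk
    rw [h k (by omega), h (k + 1) (by omega)]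
  have e2 : gpS φ κ r = gpS φ κ' r := by
    unfold gpS
    refine Finset.sum_congr rfl fun k hk => ?_
    have := Finset.mem_range.1 hk
    rw [h k (by omega), h (k + 1) (by omega)]
  rwa [← e1, ← e2]

/-- the two kinds of slack walks agree -/
lemma SlkE_iff {z φ : Fin 11 → ℝ} {v u g : ℕ → ℕ} {q : ℕ}
    (u0 : clN 11 (by norm_num) (u 0) = 0) (ur : clN 11 (by norm_num) (u (q + 2)) = 0)
    (usum : ∀ f : Fin 11 → Fin 11 → ℝ,
        ∑ k ∈ Finset.range (q + 2), f (clN 11 (by norm_num) (u k))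
          (clN 11 (by norm_num) (u (k + 1))) =
        ∑ k ∈ Finset.range (q + 2), f (clN 11 (by norm_num) (v k))
          (clN 11 (by norm_num) (v (k + 1))))
    (gcl : ∀ k ≤ q, (clN 10 (by norm_num) (g k)).succ = clN 11 (by norm_num) (u (k + 1))) :
    SlkE z φ (fun k => clN 11 (by norm_num) (v k)) (q + 2) ↔
      SlkT z φ (fun k => clN 10 (by norm_num) (g k)) q := by
  classical
  unfold SlkE SlkT
  have e1 : twS (fun k : Fin 11 => k = 0) z (fun k => clN 11 (by norm_num) (v k)) (q + 2) =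
      twn (fun l : Fin 10 => z l.succ) (fun k => clN 10 (by norm_num) (g k)) q := by
    have a1 : twS (fun k : Fin 11 => k = 0) z (fun k => clN 11 (by norm_num) (v k)) (q + 2) =
        ∑ k ∈ Finset.range (q + 2),
        (fun i j : Fin 11 => if i = 0 ∨ j = 0 then (0 : ℝ) else wd (z i) (z j))
          (clN 11 (by norm_num) (v k)) (clN 11 (by norm_num) (v (k + 1))) := by
      unfold twS
      refine Finset.sum_congr rfl fun k _ => ?_
      by_cases h : clN 11 (by norm_num) (v k) = 0 ∨ clN 11 (by norm_num) (v (k + 1)) = 0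
      · simp only [if_pos h]
      · simp only [if_neg h]
    rw [a1, ← usum (fun i j : Fin 11 => if i = 0 ∨ j = 0 then (0 : ℝ) else wd (z i) (z j)),
      Finset.sum_range_succ, Finset.sum_range_succ', ur, u0]
    simp only [true_or, or_true, if_true, add_zero]
    unfold twn
    refine Finset.sum_congr rfl fun k hk => ?_
    have hk' := Finset.mem_range.1 hk
    rw [← gcl k (by omega), ← gcl (k + 1) (by omega), if_neg]
    rintro (h | h)
    · exact Fin.succ_ne_zero _ h
    · exact Fin.succ_ne_zero _ h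
  have e2 : gpS φ (fun k => clN 11 (by norm_num) (v k)) (q + 2) =
      φ (clN 10 (by norm_num) (g q)).succ - φ (clN 10 (by norm_num) (g 0)).succ := by
    have a1 : gpS φ (fun k => clN 11 (by norm_num) (v k)) (q + 2) =
        ∑ k ∈ Finset.range (q + 2),
        (fun i j : Fin 11 => if i = 0 ∨ j = 0 then (0 : ℝ) else φ j - φ i)
          (clN 11 (by norm_num) (v k)) (clN 11 (by norm_num) (v (k + 1))) := by
      unfold gpS
      refine Finset.sum_congr rfl fun k _ => ?_
      by_cases h : clN 11 (by norm_num) (v k) = 0 ∨ clN 11 (by norm_num) (v (k + 1)) = 0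
      · simp only [if_pos h]
      · simp only [if_neg h]
    rw [a1, ← usum (fun i j : Fin 11 => if i = 0 ∨ j = 0 then (0 : ℝ) else φ j - φ i),
      Finset.sum_range_succ, Finset.sum_range_succ', ur, u0]
    simp only [true_or, or_true, if_true, add_zero]
    rw [← Finset.sum_range_sub (fun k => φ (clN 10 (by norm_num) (g k)).succ) q]
    refine Finset.sum_congr rfl fun k hk => ?_
    have hk' := Finset.mem_range.1 hk
    rw [← gcl k (by omega), ← gcl (k + 1) (by omega), if_neg]
    rintro (h | h)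
    · exact Fin.succ_ne_zero _ h
    · exact Fin.succ_ne_zero _ h
  rw [e1, e2]

/-- **slack closed walks are short near the state** -/
theorem slk_near11 {z φ : Fin 11 → ℝ} (hz : ∀ k : Fin 10, -1 < z k.succ ∧ z k.succ ≤ 1 / 2) :
    ∃ δ > 0, ∀ᶠ x : (Fin 11 → ℝ) × (Fin 11 → ℝ) in 𝓝 (z, φ), Fe x.1 x.2 → Srtd x.2 →
      (∀ k, -1 < x.1 k) → ∀ (v : ℕ → ℕ) (r : ℕ), r ≤ 11 → IsWalk 11 v r → v r = v 0 + 11 →
      (∃ k < r, clN 11 (by norm_num) (v k) = 0) →
      SlkE z φ (fun k => clN 11 (by norm_num) (v k)) r →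
      twn x.1 (fun k => clN 11 (by norm_num) (v k)) r ≤ 2 * π - δ := by
  obtain ⟨δ, hδ, h⟩ := slk_near (φ := φ) hz
  refine ⟨δ, hδ, ?_⟩
  filter_upwards [h] with x hx hF hs hy v r hr hv he hS hsl
  rcases walk_split hv he with ⟨hr10, g, gw, ge, gcl⟩ |
    ⟨u, g, q, rfl, uw, ue, u0, ur, usum, uQ, gcl, hq⟩
  · obtain ⟨k, hk, h0⟩ := hS
    rw [← gcl k hk.le] at h0
    exact absurd h0 (Fin.succ_ne_zero _)
  · rw [SlkE_iff u0 ur usum gcl] at hsl
    have hq0 : 1 ≤ q := by
      rcases Nat.eq_zero_or_pos q with h0 | h0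
      · subst h0
        unfold SlkT twn at hsl
        simp at hsl
      · exact h0
    obtain ⟨hq10, gw, ge, gps⟩ := hq hq0
    have key := hx hF hs hy g q hq0 hq10 gw ge gps hsl
    have hsplit : twn x.1 (fun k => clN 11 (by norm_num) (v k)) (q + 2) =
        wd (x.1 0) (x.1 (clN 11 (by norm_num) (u 1))) +
        wd (x.1 0) (x.1 (clN 11 (by norm_num) (u (q + 1)))) +
        twn x.1 (fun k => clN 11 (by norm_num) (u (k + 1))) q := by
      have a0 : twn x.1 (fun k => clN 11 (by norm_num) (v k)) (q + 2) =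
          twn x.1 (fun k => clN 11 (by norm_num) (u k)) (q + 2) := by
        unfold twn
        exact (usum fun i j => wd (x.1 i) (x.1 j)).symm
      rw [a0]
      unfold twn
      rw [Finset.sum_range_succ, Finset.sum_range_succ']
      simp only [show q + 1 + 1 = q + 2 from rfl, ur, u0, zero_add]
      rw [wd_comm (x.1 (clN 11 (by norm_num) (u (q + 1)))) (x.1 0)]
      ring
    have e1 : clN 11 (by norm_num) (u 1) = (clN 10 (by norm_num) (g 0)).succ :=
      (gcl 0 (by omega)).symm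
    have e2 : clN 11 (by norm_num) (u (q + 1)) = (clN 10 (by norm_num) (g q)).succ :=
      (gcl q le_rfl).symm
    have e3 : twn (fun l : Fin 10 => x.1 l.succ) (fun k => clN 10 (by norm_num) (g k)) q =
        twn x.1 (fun k => clN 11 (by norm_num) (u (k + 1))) q := by
      unfold twn
      refine Finset.sum_congr rfl fun k hk => ?_
      have := Finset.mem_range.1 hk
      simp only [gcl k (by omega), gcl (k + 1) (by omega)]
    rw [hsplit, e1, e2, ← e3]
    exact key

/-- the law lifts near a state -/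
def LiftsN (z φ : Fin 11 → ℝ) (F : (Fin 11 → ℝ) → ℝ → Fin 11 → ℝ) : Prop :=
  ∃ U ∈ 𝓝 (z, φ), ∃ ε > 0, ∀ y η, (y, η) ∈ U → Fe y η → Srtd η → ∀ t, 0 ≤ t → t ≤ ε →
    ∃ η', Fe (F y t) η' ∧ JoinedIn Conf (pinN y η) (pinN (F y t) η')

lemma Lifts.toN {z φ : Fin 11 → ℝ} {F : (Fin 11 → ℝ) → ℝ → Fin 11 → ℝ} (h : Lifts z F) :
    LiftsN z φ F := by
  obtain ⟨U, hU, ε, hε, h⟩ := h
  exact ⟨(fun x : (Fin 11 → ℝ) × (Fin 11 → ℝ) => x.1) ⁻¹' U,
    continuous_fst.continuousAt hU, ε, hε, fun y η hy hF hs t h0 ht => h y hy η hF hs t h0 ht⟩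

end Pool.Agent.Helper66.Kiss
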