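import Pool.Agent.Helper66.Kiss.Glob2
import Pool.Agent.Helper66.Kiss.StA

set_option autoImplicit false

/-! # Stage A: symmetries, gain from the point conditions -/

namespace Pool.Agent.Helper66.Kiss

open Real Set Filter Topology

lemma inner_pin_turn {z φ φ' : Fin 11 → ℝ} (c : ℝ)
    (h : ∀ k, ∃ m : ℤ, φ' k = φ k + c + m * (2 * π)) (i j : Fin 12) :
    inner ℝ (pinN z φ' i) (pinN z φ' j) = inner ℝ (pinN z φ i) (pinN z φ j) := by
  rcases Fin.eq_zero_or_eq_succ i with rfl | ⟨k, rfl⟩ <;>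
    rcases Fin.eq_zero_or_eq_succ j with rfl | ⟨l, rfl⟩
  · rw [pinN_zero, pinN_zero]
  · rw [pinN_zero, pinN_zero, pinN_succ, pinN_succ, inner_e3_pt, inner_e3_pt]
  · rw [pinN_zero, pinN_zero, pinN_succ, pinN_succ, inner_pt_e3, inner_pt_e3]
  · rw [pinN_succ, pinN_succ, pinN_succ, pinN_succ, ← gg_eq, ← gg_eq]
    obtain ⟨m, hm⟩ := h k
    obtain ⟨m', hm'⟩ := h l
    exact gg_turn hm hm'

lemma Psi_turn {z φ φ' : Fin 11 → ℝ} (c : ℝ)
    (h : ∀ k, ∃ m : ℤ, φ' k = φ k + c + m * (2 * π)) : Psi (pinN z φ') = Psi (pinN z φ) :=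
  Psi_eq_of 1 fun i j => inner_pin_turn c h i j

lemma Psi_neg (z φ : Fin 11 → ℝ) : Psi (pinN z (fun k => -φ k)) = Psi (pinN z φ) := by
  refine Psi_eq_of 1 fun i j => ?_
  show _ = inner ℝ (pinN z φ i) (pinN z φ j)
  rcases Fin.eq_zero_or_eq_succ i with rfl | ⟨k, rfl⟩ <;>
    rcases Fin.eq_zero_or_eq_succ j with rfl | ⟨l, rfl⟩
  · rw [pinN_zero, pinN_zero]
  · rw [pinN_zero, pinN_zero, pinN_succ, pinN_succ, inner_e3_pt, inner_e3_pt]
  · rw [pinN_zero, pinN_zero, pinN_succ, pinN_succ, inner_pt_e3, inner_pt_e3]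
  · rw [pinN_succ, pinN_succ, pinN_succ, pinN_succ, ← gg_eq, ← gg_eq]
    unfold gg
    rw [← cos_neg]
    have e : -(-φ k - -φ l) = φ k - φ l := by ring
    rw [e]

lemma Psi_shift (m : Fin 11) (y η : Fin 11 → ℝ) :
    Psi (pinN (shz m y) (shφ m η)) = Psi (pinN y η) := by
  have h1 := Psi_turn (z := y ∘ Equiv.addRight m) (-η m) (shφ_turn m η)
  rw [Psi_ext] at h1
  exact h1

lemma Psi_refl (y η : Fin 11 → ℝ) : Psi (pinN (rfz y) (rfφ η)) = Psi (pinN y η) := by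
  have h1 := Psi_turn (z := y ∘ Fin.revPerm) 0 (rfφ_turn η)
  rw [Psi_neg, Psi_ext] at h1
  exact h1

lemma MA.shift {y η : Fin 11 → ℝ} (h : MA y η) (m : Fin 11) : MA (shz m y) (shφ m η) := by
  obtain ⟨s, hs⟩ := h
  refine ⟨s - m, ?_⟩
  rw [Psi_shift]
  unfold shz
  rwa [sub_add_cancel]

lemma MA.refl' {y η : Fin 11 → ℝ} (h : MA y η) : MA (rfz y) (rfφ η) := by
  obtain ⟨s, hs⟩ := h
  refine ⟨s.rev, ?_⟩
  rw [Psi_refl]
  unfold rfz
  rwa [Fin.rev_rev]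

lemma Mu_shift (m : Fin 11) (y : Fin 11 → ℝ) : Mu (shz m y) = Mu y :=
  Mu_perm y (Equiv.addRight m)

lemma Mu_refl (y : Fin 11 → ℝ) : Mu (rfz y) = Mu y := Mu_perm y Fin.revPerm

lemma cont_shift (m : Fin 11) : Continuous fun x : HL => (shz m x.1, shφ m x.2) := by
  unfold shz shφ
  refine Continuous.prodMk (by fun_prop) ?_
  rw [continuous_pi_iff]
  intro k
  by_cases h : k.val + m.val < 11
  · simp only [if_pos h]; fun_prop
  · simp only [if_neg h]; fun_prop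

theorem GainA.shift {z φ : Fin 11 → ℝ} (m : Fin 11) (h : GainA (shz m z) (shφ m φ)) :
    GainA z φ := by
  obtain ⟨U, hU, δ, hδ, h⟩ := h
  refine ⟨(fun x : HL => (shz m x.1, shφ m x.2)) ⁻¹' U, (cont_shift m).continuousAt hU, δ, hδ, ?_⟩
  intro y η hy hF hs
  rcases h _ _ hy (Fe_shift hF m) (hs.shift m) with h | ⟨X, h1, h2, h3⟩
  · exact Or.inl (JB_shift hF m h)
  · refine Or.inr ⟨X, h1, ?_, fun h => JB_shift hF m (h3 h)⟩
    rwa [Mu_shift] at h2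

theorem GainA.refl {z φ : Fin 11 → ℝ} (h : GainA (rfz z) (rfφ φ)) : GainA z φ := by
  obtain ⟨U, hU, δ, hδ, h⟩ := h
  have hc : Continuous fun x : HL => (rfz x.1, rfφ x.2) := by
    unfold rfz rfφ
    fun_prop
  refine ⟨(fun x : HL => (rfz x.1, rfφ x.2)) ⁻¹' U, hc.continuousAt hU, δ, hδ, ?_⟩
  intro y η hy hF hs
  rcases h _ _ hy (Fe_refl hF) hs.refl' with h | ⟨X, h1, h2, h3⟩
  · exact Or.inl (JB_refl hF h)
  · refine Or.inr ⟨X, h1, ?_, fun h => JB_refl hF (h3 h)⟩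
    rwa [Mu_refl] at h2

theorem GainS.shift {Φ : (Fin 11 → ℝ) → ℝ} (hΦp : ∀ z (τ : Equiv.Perm (Fin 11)), Φ (z ∘ τ) = Φ z)
    {z φ : Fin 11 → ℝ} (m : Fin 11) (h : GainS Φ (shz m z) (shφ m φ)) : GainS Φ z φ := by
  obtain ⟨U, hU, δ, hδ, h⟩ := h
  refine ⟨(fun x : HL => (shz m x.1, shφ m x.2)) ⁻¹' U, (cont_shift m).continuousAt hU, δ, hδ, ?_⟩
  intro y η hy hF hs
  rcases h _ _ hy (Fe_shift hF m) (hs.shift m) with h | ⟨y', η', h1, h2, h3, h4⟩
  · exact Or.inl (JB_shift hF m h)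
  · refine Or.inr ⟨y', η', h1, ?_, ?_, fun h => JB_shift hF m (h4 h)⟩
    · rwa [Mu_shift] at h2
    · have : Φ (shz m y) = Φ y := hΦp y (Equiv.addRight m)
      rwa [this] at h3

theorem GainS.refl {Φ : (Fin 11 → ℝ) → ℝ} (hΦp : ∀ z (τ : Equiv.Perm (Fin 11)), Φ (z ∘ τ) = Φ z)
    {z φ : Fin 11 → ℝ} (h : GainS Φ (rfz z) (rfφ φ)) : GainS Φ z φ := by
  obtain ⟨U, hU, δ, hδ, h⟩ := h
  have hc : Continuous fun x : HL => (rfz x.1, rfφ x.2) := by
    unfold rfz rfφ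
    fun_prop
  refine ⟨(fun x : HL => (rfz x.1, rfφ x.2)) ⁻¹' U, hc.continuousAt hU, δ, hδ, ?_⟩
  intro y η hy hF hs
  rcases h _ _ hy (Fe_refl hF) hs.refl' with h | ⟨y', η', h1, h2, h3, h4⟩
  · exact Or.inl (JB_refl hF h)
  · refine Or.inr ⟨y', η', h1, ?_, ?_, fun h => JB_refl hF (h4 h)⟩
    · rwa [Mu_refl] at h2
    · have : Φ (rfz y) = Φ y := hΦp y Fin.revPerm
      rwa [this] at h3

theorem GainL.shift {Φ : (Fin 11 → ℝ) → ℝ} (hΦp : ∀ z (τ : Equiv.Perm (Fin 11)), Φ (z ∘ τ) = Φ z)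
    {z φ : Fin 11 → ℝ} (m : Fin 11) (h : GainL Φ (shz m z) (shφ m φ)) : GainL Φ z φ := by
  rcases h with h | h
  · exact Or.inl (h.shift m)
  · exact Or.inr (h.shift hΦp m)

theorem GainL.refl {Φ : (Fin 11 → ℝ) → ℝ} (hΦp : ∀ z (τ : Equiv.Perm (Fin 11)), Φ (z ∘ τ) = Φ z)
    {z φ : Fin 11 → ℝ} (h : GainL Φ (rfz z) (rfφ φ)) : GainL Φ z φ := by
  rcases h with h | h
  · exact Or.inl h.refl
  · exact Or.inr (h.refl hΦp)

lemma pinN_continuous : Continuous fun x : HL => pinN x.1 x.2 :=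
  continuous_pinN (fun k => (continuous_apply k).comp continuous_fst)
    (fun k => (continuous_apply k).comp continuous_snd)

/-- near a state only its own lowest points are lowest -/
lemma Mu_near (z : Fin 11 → ℝ) : ∀ᶠ y in 𝓝 z, ∀ s, Mu y = -(y s) → Mu z = -(z s) := by
  rw [eventually_all]; intro s
  by_cases h : Mu z = -(z s)
  · exact Eventually.of_forall fun _ _ => h
  · have h' : -(z s) < Mu z := lt_of_le_of_ne (neg_le_Mu z s) (Ne.symm h)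
    have hc : Continuous fun y : Fin 11 → ℝ => Mu y + y s := Mu_cont.add (continuous_apply s)
    have := (hc.tendsto z).eventually (lt_mem_nhds (by linarith : (0 : ℝ) < _))
    filter_upwards [this] with x hx h2
    linarith

end Pool.Agent.Helper66.Kiss
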