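import Pool.Agent.Helper66.Kiss.StA2

set_option autoImplicit false

/-! # Stage A: gain by moving one of the two most antipodal points -/

namespace Pool.Agent.Helper66.Kiss

open Real Set Filter Topology

/-- unit vectors in the plane: either they lie together with `(1, 0)` in an open half plane, or
two of them block -/
lemma gordan2 {ι : Type*} (C : Finset ι) (x y : ι → ℝ) (hn : ∀ k ∈ C, x k ^ 2 + y k ^ 2 = 1) :
    (∃ p q : ℝ, p < 0 ∧ ∀ k ∈ C, p * x k + q * y k < 0) ∨
    ∃ k ∈ C, ∃ l ∈ C, 0 ≤ y k ∧ y l ≤ 0 ∧ x k + x l ≤ 0 := by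
  classical
  by_cases hC : C.Nonempty
  swap
  · left
    refine ⟨-1, 0, by norm_num, fun k hk => ?_⟩
    exact absurd ⟨k, hk⟩ hC
  by_contra hcon
  push Not at hcon
  obtain ⟨h1, h2⟩ := hcon
  have hpi := Real.pi_pos
  set f : ι → ℝ := fun k => if 0 ≤ y k then arccos (x k) else 0 with hf
  set g : ι → ℝ := fun k => if y k ≤ 0 then arccos (x k) else 0 with hg
  obtain ⟨a, ha, hfa⟩ := Finset.exists_max_image C f hC
  obtain ⟨b, hb, hgb⟩ := Finset.exists_max_image C g hC
  have f0 : ∀ k, 0 ≤ f k := by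
    intro k; simp only [hf]; split_ifs
    · exact Real.arccos_nonneg _
    · exact le_rfl
  have g0 : ∀ k, 0 ≤ g k := by
    intro k; simp only [hg]; split_ifs
    · exact Real.arccos_nonneg _
    · exact le_rfl
  have hx : ∀ k ∈ C, -1 ≤ x k ∧ x k ≤ 1 := by
    intro k hk
    have := hn k hk
    constructor <;> nlinarith [sq_nonneg (y k)]
  have key : ∀ k ∈ C, ∀ l ∈ C, 0 < x k + x l → arccos (x k) + arccos (x l) < π := by
    intro k hk l hl h
    have h3 : arccos (x k) < arccos (-x l) :=
      Real.arccos_lt_arccos (by linarith [(hx l hl).2]) (by linarith) (hx k hk).2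
    rw [Real.arccos_neg] at h3
    linarith
  have self : ∀ k ∈ C, y k = 0 → 0 < x k := by
    intro k hk h
    have := h2 k hk k hk h.ge h.le
    linarith
  have nopi : ∀ k ∈ C, arccos (x k) < π := by
    intro k hk
    have h3 := Real.arccos_le_pi (x k)
    rcases lt_or_eq_of_le h3 with h | h
    · exact h
    · exfalso
      rw [Real.arccos_eq_pi] at h
      have h4 : x k = -1 := le_antisymm h (hx k hk).1
      have h5 : y k = 0 := by
        have := hn k hk
        rw [h4] at this
        nlinarith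
      have := self k hk h5
      linarith
  have hfg : f a + g b < π := by
    simp only [hf, hg]
    split_ifs with h3 h4 h4
    · exact key a ha b hb (h2 a ha b hb h3 h4)
    · linarith [nopi a ha]
    · linarith [nopi b hb]
    · linarith
  set c : ℝ := (f a - g b) / 2 with hc
  have hcos : 0 < cos c := by
    apply Real.cos_pos_of_mem_Ioo
    have := f0 a; have := g0 b
    constructor <;> simp only [hc] <;> linarith
  refine absurd (h1 (-cos c) (-sin c) (by linarith)) ?_
  push Not
  intro k hk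
  have hsq := hn k hk
  have hck : cos (arccos (x k)) = x k := Real.cos_arccos (hx k hk).1 (hx k hk).2
  have hsk : sin (arccos (x k)) = |y k| := by
    rw [Real.sin_arccos, show 1 - x k ^ 2 = y k ^ 2 by linarith, Real.sqrt_sq_eq_abs]
  have ga := g0 b
  have fa := f0 a
  rcases le_total 0 (y k) with h3 | h3
  · have h4 : arccos (x k) ≤ f a := by
      have := hfa k hk
      simp only [hf, if_pos h3] at this
      simpa only [hf] using this
    have h5 : 0 < cos (arccos (x k) - c) := by
      apply Real.cos_pos_of_mem_Ioo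
      have := Real.arccos_nonneg (x k)
      constructor <;> simp only [hc] <;> linarith
    rw [cos_sub, hck, hsk, abs_of_nonneg h3] at h5
    linarith
  · have h4 : arccos (x k) ≤ g b := by
      have := hgb k hk
      simp only [hg, if_pos h3] at this
      simpa only [hg] using this
    have h5 : 0 < cos (arccos (x k) + c) := by
      apply Real.cos_pos_of_mem_Ioo
      have := Real.arccos_nonneg (x k)
      constructor <;> simp only [hc] <;> linarith
    rw [cos_add, hck, hsk, abs_of_nonpos h3] at h5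
    linarith

/-- the configuration with the point `a` moved in the direction `u` -/
noncomputable def mvp (a : Fin 12) (u : E3) (Y : Fin 12 → E3) (t : ℝ) : Fin 12 → E3 :=
  Function.update Y a ((‖Y a + t • u‖⁻¹) • (Y a + t • u))

lemma norm_add_ge {v u : E3} (hv : ‖v‖ = 1) (t : ℝ) : 1 + t * inner ℝ u v ≤ ‖v + t • u‖ := by
  have h := real_inner_le_norm (v + t • u) v
  rw [hv, mul_one, inner_add_left, inner_smul_left, real_inner_self_eq_norm_sq, hv] at h
  simpa using h

lemma conf_norm {Y : Fin 12 → E3} (hY : Y ∈ Conf) (i : Fin 12) : ‖Y i‖ = 1 := by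
  have h := ((mem_Conf_iff Y).1 hY).1 i
  rw [real_inner_self_eq_norm_sq] at h
  have h0 := norm_nonneg (Y i)
  nlinarith

/-- **moving one point** -/
theorem move_path {X : Fin 12 → E3} (hX : X ∈ Conf) (a : Fin 12) (u : E3)
    (hu : inner ℝ u (X a) = 0)
    (hc : ∀ k, k ≠ a → inner ℝ (X a) (X k) = 1 / 2 → inner ℝ u (X k) < 0) :
    ∀ᶠ p : (Fin 12 → E3) × ℝ in 𝓝 (X, 0), p.1 ∈ Conf → 0 ≤ p.2 → mvp a u p.1 p.2 ∈ Conf := by
  have cp : ∀ k, Continuous fun p : (Fin 12 → E3) × ℝ => p.1 k := fun k =>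
    (continuous_apply k).comp continuous_fst
  have ct : Continuous fun p : (Fin 12 → E3) × ℝ => p.2 := continuous_snd
  have cv : Continuous fun p : (Fin 12 → E3) × ℝ => p.1 a + p.2 • u :=
    (cp a).add (ct.smul continuous_const)
  -- no vanishing
  have e0 : ∀ᶠ p : (Fin 12 → E3) × ℝ in 𝓝 (X, 0), 0 < ‖p.1 a + p.2 • u‖ := by
    have h := (cv.norm.tendsto (X, (0 : ℝ))).eventually (lt_mem_nhds (a := 0) (by
      simp only [zero_smul, add_zero]
      rw [conf_norm hX]; norm_num))
    exact h
  have ek : ∀ᶠ p : (Fin 12 → E3) × ℝ in 𝓝 (X, 0), ∀ k, k ≠ a → p.1 ∈ Conf → 0 ≤ p.2 →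
      inner ℝ (p.1 a + p.2 • u) (p.1 k) ≤ 1 / 2 * ‖p.1 a + p.2 • u‖ := by
    rw [eventually_all]; intro k
    by_cases hk : k ≠ a
    swap
    · exact Eventually.of_forall fun p h => absurd h hk
    by_cases hck : inner ℝ (X a) (X k) = 1 / 2
    · have hlt := hc k hk hck
      have cc : Continuous fun p : (Fin 12 → E3) × ℝ =>
          inner ℝ u (p.1 k) - 1 / 2 * inner ℝ u (p.1 a) :=
        (continuous_const.inner (cp k)).sub (continuous_const.mul (continuous_const.inner (cp a)))
      have h := (cc.tendsto (X, (0 : ℝ))).eventually (gt_mem_nhds (a := 0) (by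
        simp only [hu]; linarith))
      filter_upwards [h] with p hp _ hY h0
      have h1 := norm_add_ge (u := u) (conf_norm hY a) p.2
      have h2 := ((mem_Conf_iff p.1).1 hY).2 a k (Ne.symm hk)
      rw [inner_add_left, inner_smul_left]
      simp only [conj_trivial]
      have h3 := mul_nonpos_of_nonneg_of_nonpos h0 hp.le
      nlinarith
    · have h2 := ((mem_Conf_iff X).1 hX).2 a k (Ne.symm hk)
      have hlt : inner ℝ (X a) (X k) < 1 / 2 := lt_of_le_of_ne h2 hck
      have cc : Continuous fun p : (Fin 12 → E3) × ℝ =>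
          inner ℝ (p.1 a + p.2 • u) (p.1 k) - 1 / 2 * ‖p.1 a + p.2 • u‖ :=
        (cv.inner (cp k)).sub (continuous_const.mul cv.norm)
      have h := (cc.tendsto (X, (0 : ℝ))).eventually (gt_mem_nhds (a := 0) (by
        simp only [zero_smul, add_zero]
        rw [conf_norm hX]; linarith))
      filter_upwards [h] with p hp _ _ _
      linarith
  filter_upwards [e0, ek] with p h0 hk hY ht
  rw [mem_Conf_iff]
  obtain ⟨hY1, hY2⟩ := (mem_Conf_iff p.1).1 hY
  set v := p.1 a + p.2 • u with hv
  have hself : inner ℝ ((‖v‖⁻¹) • v) ((‖v‖⁻¹) • v) = (1 : ℝ) := by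
    rw [inner_smul_left, inner_smul_right, real_inner_self_eq_norm_sq]
    simp only [conj_trivial]
    field_simp
  have hle : ∀ k, k ≠ a → inner ℝ ((‖v‖⁻¹) • v) (p.1 k) ≤ (1 / 2 : ℝ) := by
    intro k hka
    rw [inner_smul_left]
    simp only [conj_trivial]
    rw [inv_mul_le_iff₀ h0]
    have := hk k hka hY ht
    linarith
  constructor
  · intro i
    by_cases hi : i = a
    · subst hi; unfold mvp; rw [Function.update_self]; exact hself
    · unfold mvp; rw [Function.update_of_ne hi]; exact hY1 i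
  · intro i j hij
    by_cases hi : i = a
    · subst hi
      unfold mvp
      rw [Function.update_self, Function.update_of_ne (Ne.symm hij)]
      exact hle j (Ne.symm hij)
    · by_cases hj : j = a
      · subst hj
        unfold mvp
        rw [Function.update_self, Function.update_of_ne hi, real_inner_comm]
        exact hle i hi
      · unfold mvp
        rw [Function.update_of_ne hi, Function.update_of_ne hj]
        exact hY2 i j hij

/-- **gain by moving one point of the most antipodal pair** -/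
theorem gainA_move {z φ : Fin 11 → ℝ} (hF : Fe z φ) (a b : Fin 12) (hab : a ≠ b) (u : E3)
    (hu : inner ℝ u (pinN z φ a) = 0)
    (hc : ∀ k, k ≠ a → inner ℝ (pinN z φ a) (pinN z φ k) = 1 / 2 → inner ℝ u (pinN z φ k) < 0)
    (hb : inner ℝ u (pinN z φ b) < 0)
    (huniq : ∀ s, Mu z = -(z s) → (a = 0 ∧ b = s.succ) ∨ (a = s.succ ∧ b = 0)) :
    GainA z φ := by
  set X := pinN z φ with hXd
  have hX : X ∈ Conf := pinN_mem hF
  have h1 := move_path hX a u hu hc
  have cp : ∀ k, Continuous fun p : (Fin 12 → E3) × ℝ => p.1 k := fun k =>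
    (continuous_apply k).comp continuous_fst
  have ct : Continuous fun p : (Fin 12 → E3) × ℝ => p.2 := continuous_snd
  have cv : Continuous fun p : (Fin 12 → E3) × ℝ => p.1 a + p.2 • u :=
    (cp a).add (ct.smul continuous_const)
  have e0 : ∀ᶠ p : (Fin 12 → E3) × ℝ in 𝓝 (X, 0), 0 < ‖p.1 a + p.2 • u‖ := by
    have h := (cv.norm.tendsto (X, (0 : ℝ))).eventually (lt_mem_nhds (a := 0) (by
      simp only [zero_smul, add_zero]
      rw [conf_norm hX]; norm_num))
    exact h
  have hev := h1.and e0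
  rw [nhds_prod_eq, Filter.eventually_prod_iff] at hev
  obtain ⟨P, hP, Q, hQ, hPQ⟩ := hev
  obtain ⟨ε1, hε1, hQε⟩ := Metric.eventually_nhds_iff.1 hQ
  -- the step
  set κ : ℝ := -inner ℝ u (X b) with hκ
  have hκ0 : 0 < κ := by simp only [hκ]; linarith
  set ε : ℝ := min (ε1 / 2) (κ / (‖u‖ ^ 2 + 1)) with hε
  have hε0 : 0 < ε := lt_min (by linarith) (by positivity)
  have hq : ∀ t, 0 ≤ t → t ≤ ε → Q t := by
    intro t h0 ht
    apply hQε
    rw [Real.dist_eq, sub_zero, abs_of_nonneg h0]
    have := min_le_left (ε1 / 2) (κ / (‖u‖ ^ 2 + 1))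
    linarith
  -- the gain at the state itself
  have hPX : P X := hP.self_of_nhds
  set h : (Fin 12 → E3) → ℝ := fun Y => -inner ℝ ((‖Y a + ε • u‖⁻¹) • (Y a + ε • u)) (Y b) -
    -inner ℝ (Y a) (Y b) with hh
  have hX0 : 0 < h X := by
    simp only [hh]
    have hnv : ‖X a + ε • u‖ ^ 2 = 1 + ε ^ 2 * ‖u‖ ^ 2 := by
      rw [← real_inner_self_eq_norm_sq, inner_add_left, inner_add_right, inner_add_right,
        inner_smul_left, inner_smul_right, inner_smul_right, inner_smul_left,
        real_inner_self_eq_norm_sq, real_inner_self_eq_norm_sq, conf_norm hX,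
        real_inner_comm, hu]
      simp only [conj_trivial]
      ring
    set N := ‖X a + ε • u‖ with hN
    have hNpos : 0 < N := (hPQ hPX (hq ε hε0.le le_rfl)).2
    rw [inner_smul_left, inner_add_left, inner_smul_left]
    simp only [conj_trivial]
    set m := inner ℝ (X a) (X b) with hm
    have hub : inner ℝ u (X b) = -κ := by simp only [hκ]; ring
    rw [hub]
    have hm1 : -1 ≤ m := by
      have := abs_real_inner_le_norm (X a) (X b)
      rw [conf_norm hX, conf_norm hX, mul_one, abs_le] at this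
      exact this.1
    have hm2 : m ≤ 1 / 2 := ((mem_Conf_iff X).1 hX).2 a b hab
    -- `N` is only of second order larger than one
    have hεκ : ε * (‖u‖ ^ 2 + 1) ≤ κ := by
      have := min_le_right (ε1 / 2) (κ / (‖u‖ ^ 2 + 1))
      rwa [le_div_iff₀ (by positivity)] at this
    have hN1 : 1 ≤ N := by nlinarith [sq_nonneg (ε * ‖u‖)]
    have hN2 : N ≤ 1 + ε ^ 2 * ‖u‖ ^ 2 / 2 := by nlinarith [sq_nonneg (N - 1)]
    have h3 : N⁻¹ * (m + ε * -κ) < m := by
      rw [inv_mul_lt_iff₀ hNpos]
      have h4 : ε ^ 2 * ‖u‖ ^ 2 ≤ ε * κ := by nlinarith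
      have h5 : 0 < ε * κ := mul_pos hε0 hκ0
      nlinarith
    linarith
  have hcont : ContinuousAt h X := by
    have c4 : ContinuousAt (fun Y : Fin 12 → E3 => Y a) X := (continuous_apply a).continuousAt
    have c1 : ContinuousAt (fun Y : Fin 12 → E3 => Y a + ε • u) X := c4.add continuousAt_const
    have c2 : ContinuousAt (fun Y : Fin 12 → E3 => ‖Y a + ε • u‖⁻¹) X :=
      c1.norm.inv₀ (hPQ hPX (hq ε hε0.le le_rfl)).2.ne'
    have c3 : ContinuousAt (fun Y : Fin 12 → E3 => Y b) X := (continuous_apply b).continuousAt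
    exact (((c2.smul c1).inner c3).neg).sub ((c4.inner c3).neg)
  have hgain : ∀ᶠ Y in 𝓝 X, h X / 2 < h Y := hcont.eventually (lt_mem_nhds (by linarith))
  have hU : (fun x : HL => pinN x.1 x.2) ⁻¹' {Y | P Y ∧ h X / 2 < h Y} ∈ 𝓝 (z, φ) :=
    pinN_continuous.continuousAt (hP.and hgain)
  have hN : {x : HL | ∀ s, Mu x.1 = -(x.1 s) → Mu z = -(z s)} ∈ 𝓝 (z, φ) := by
    have := (continuous_fst.tendsto (z, φ)).eventually (Mu_near z)
    exact this
  refine ⟨_, inter_mem hU hN, h X / 2, by linarith, ?_⟩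
  rintro y η ⟨⟨hy1, hy2⟩, hy3⟩ hFy hs
  obtain ⟨s, hM⟩ := exists_Mu y
  right
  set Y := pinN y η with hYd
  have hY : Y ∈ Conf := pinN_mem hFy
  have hPsiY : Mu y ≤ -inner ℝ (Y a) (Y b) := by
    rcases huniq s (hy3 s hM) with ⟨e1, e2⟩ | ⟨e1, e2⟩
    · rw [e1, e2, hYd, pinN_zero, pinN_succ, inner_e3_pt]; exact hM.le
    · rw [e1, e2, hYd, pinN_zero, pinN_succ, inner_pt_e3]; exact hM.le
  have hmem : ∀ t, 0 ≤ t → t ≤ ε → mvp a u Y t ∈ Conf := fun t h0 ht =>
    (hPQ hy1 (hq t h0 ht)).1 hY h0
  have hpath : JoinedIn Conf (mvp a u Y 0) (mvp a u Y ε) := by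
    refine joined_of_seg (f := fun t => mvp a u Y t) 0 ε ?_ (by
      intro t ht
      rw [uIcc_of_le hε0.le] at ht
      exact hmem t ht.1 ht.2)
    rw [uIcc_of_le hε0.le]
    have hupd : ContinuousOn (fun t : ℝ => (‖Y a + t • u‖⁻¹) • (Y a + t • u)) (Icc 0 ε) := by
      have d1 : Continuous fun t : ℝ => ‖Y a + t • u‖ := by fun_prop
      have d2 : Continuous fun t : ℝ => Y a + t • u := by fun_prop
      have d3 : ContinuousOn (fun t : ℝ => ‖Y a + t • u‖⁻¹) (Icc 0 ε) :=
        d1.continuousOn.inv₀ fun t ht => (hPQ hy1 (hq t ht.1 ht.2)).2.ne'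
      exact d3.smul d2.continuousOn
    rw [continuousOn_pi]
    intro k
    by_cases hk : k = a
    · subst hk
      simp only [mvp, Function.update_self]
      exact hupd
    · simp only [mvp, Function.update_of_ne hk]
      exact continuousOn_const
  have h0 : mvp a u Y 0 = Y := by
    unfold mvp
    rw [zero_smul, add_zero, conf_norm hY, inv_one, one_smul, Function.update_eq_self]
  rw [h0] at hpath
  refine ⟨mvp a u Y ε, hmem ε hε0.le le_rfl, ?_, fun h => hpath.trans h⟩
  have h2 := le_Psi (mvp a u Y ε) hab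
  have h3 : inner ℝ (mvp a u Y ε a) (mvp a u Y ε b) =
      inner ℝ ((‖Y a + ε • u‖⁻¹) • (Y a + ε • u)) (Y b) := by
    unfold mvp
    rw [Function.update_self, Function.update_of_ne (Ne.symm hab)]
  rw [h3] at h2
  simp only [hh] at hy2
  linarith

end Pool.Agent.Helper66.Kiss
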