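import Pool.Agent.Helper66.Kiss.RootB

set_option autoImplicit false

/-! # Ranges of the tilt: from the roots to the theorem -/

namespace Pool.Agent.Helper66.Kiss.Dl

open Real Pool.Agent.Helper98.DL Pool.Agent.Helper66.Kiss Pool.Agent.Helper54.KA

/-- the states whose tilt number is between `a` and `b` are done -/
def Cov (a b : ℕ) : Prop :=
  ∀ Z Φ : Fin 11 → ℝ, SL (11 / 12) Z Φ 0 → hgt (32768 + a) ≤ Z 0 → Z 0 ≤ hgt (32768 + b) →
    GainL PhiB Z Φ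

theorem Cov.trans {a b c : ℕ} (h1 : Cov a b) (h2 : Cov b c) : Cov a c := by
  intro Z Φ h l1 l2
  rcases le_total (Z 0) (hgt (32768 + b)) with h3 | h3
  · exact h1 Z Φ h l1 h3
  · exact h2 Z Φ h h3 l2

/-- numeric conditions of a root -/
theorem root_num {K lo : ℕ} (hK : K ≤ 1023) (l2 : lo ≤ 4095)
    (c1 : 4096 * (16777216 + K ^ 2) < 2 * (16777216 - K ^ 2) * (4096 - lo))
    (c2 : 16 * 16777216 * K ^ 2 * lo * (8192 - lo) <
      (2 * (16777216 - K ^ 2) * (4096 - lo) - 4096 * (16777216 + K ^ 2)) ^ 2) :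
    hgt (32768 + K) < 0 ∧ hgt lo < 0 ∧ 1 / 2 < hgt (32768 + K) * hgt lo ∧
      (1 - hgt (32768 + K) ^ 2) * (1 - hgt lo ^ 2) < (hgt (32768 + K) * hgt lo - 1 / 2) ^ 2 := by
  have hK2 : K ^ 2 ≤ 1046529 := by nlinarith
  obtain ⟨M, hM⟩ : ∃ M, 16777216 - K ^ 2 = M := ⟨_, rfl⟩
  obtain ⟨m, hm⟩ : ∃ m, 4096 - lo = m := ⟨_, rfl⟩
  rw [hM, hm] at c1 c2
  have e1 : (M : ℝ) = 16777216 - (K : ℝ) ^ 2 := by
    have : M + K ^ 2 = 16777216 := by omega
    have : (M : ℝ) + (K : ℝ) ^ 2 = 16777216 := by exact_mod_cast this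
    linarith
  have e2 : (m : ℝ) = 4096 - (lo : ℝ) := by
    have : m + lo = 4096 := by omega
    have : (m : ℝ) + (lo : ℝ) = 4096 := by exact_mod_cast this
    linarith
  obtain ⟨A, hA⟩ : ∃ A, 2 * M * m - 4096 * (16777216 + K ^ 2) = A := ⟨_, rfl⟩
  obtain ⟨B, hB⟩ : ∃ B, 8192 - lo = B := ⟨_, rfl⟩
  rw [hA, hB] at c2
  have e3 : (A : ℝ) = 2 * M * m - 4096 * (16777216 + (K : ℝ) ^ 2) := by
    have : A + 4096 * (16777216 + K ^ 2) = 2 * M * m := by omega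
    have : (A : ℝ) + 4096 * (16777216 + (K : ℝ) ^ 2) = 2 * M * m := by exact_mod_cast this
    linarith
  have e4 : (B : ℝ) = 8192 - (lo : ℝ) := by
    have : B + lo = 8192 := by omega
    have : (B : ℝ) + (lo : ℝ) = 8192 := by exact_mod_cast this
    linarith
  have c1' : (4096 : ℝ) * (16777216 + (K : ℝ) ^ 2) < 2 * M * m := by exact_mod_cast c1
  have c2' : (16 : ℝ) * 16777216 * (K : ℝ) ^ 2 * lo * B < (A : ℝ) ^ 2 := by exact_mod_cast c2
  have hMpos : (0 : ℝ) < M := by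
    have : 0 < M := by omega
    exact_mod_cast this
  have hmpos : (0 : ℝ) < m := by
    have : 0 < m := by omega
    exact_mod_cast this
  have hD : (0 : ℝ) < 16777216 + (K : ℝ) ^ 2 := by positivity
  have h1 : hgt (32768 + K) = -((M : ℝ) / (16777216 + (K : ℝ) ^ 2)) := by
    rw [hgt_S, e1]
    have a1 : (1 : ℝ) + ((K : ℝ) / 4096) ^ 2 ≠ 0 := by positivity
    field_simp
    ring
  have h2 : hgt lo = -((m : ℝ) / 4096) := by
    rw [hgt_lt (by omega), e2]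
    ring
  have h3 : hgt (32768 + K) * hgt lo = (M : ℝ) * m / ((16777216 + (K : ℝ) ^ 2) * 4096) := by
    rw [h1, h2]
    field_simp
  have h4 : hgt (32768 + K) * hgt lo - 1 / 2 =
      (A : ℝ) / ((16777216 + (K : ℝ) ^ 2) * 8192) := by
    rw [h3, e3]
    field_simp
    ring
  refine ⟨?_, ?_, ?_, ?_⟩
  · rw [h1, neg_lt_zero]; positivity
  · rw [h2, neg_lt_zero]; positivity
  · rw [h3, lt_div_iff₀ (by positivity)]
    linarith
  · rw [h4, h1, h2]
    have e5 : (1 - (-((M : ℝ) / (16777216 + (K : ℝ) ^ 2))) ^ 2) * (1 - (-((m : ℝ) / 4096)) ^ 2) =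
        (16 * 16777216 * (K : ℝ) ^ 2 * lo * B) / ((16777216 + (K : ℝ) ^ 2) * 8192) ^ 2 := by
      rw [e1, e2, e4]
      field_simp
      ring
    rw [e5, div_pow]
    exact div_lt_div_of_pos_right c2' (by positivity)

/-- **a range of the tilt away from the pole**, from the root boxes -/
theorem covA {k1 k2 lo : ℕ} (h1 : 1 ≤ k1) (h12 : k1 ≤ k2) (h2 : k2 ≤ 1023) (l1 : 1 ≤ lo)
    (l2 : lo ≤ 4095)
    (c1 : 4096 * (16777216 + k2 ^ 2) < 2 * (16777216 - k2 ^ 2) * (4096 - lo))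
    (c2 : 16 * 16777216 * k2 ^ 2 * lo * (8192 - lo) <
      (2 * (16777216 - k2 ^ 2) * (4096 - lo) - 4096 * (16777216 + k2 ^ 2)) ^ 2)
    (hroot : ∀ a b, 1 ≤ a → a ≤ b → a + b ≤ 11 →
      Helper54.KA.Good HSL PR (rootL k1 k2 lo a b) (rootF a b)) : Cov k1 k2 := by
  intro Z Φ h z1 z2
  obtain ⟨g1, g2, g3, g4⟩ := root_num h2 l2 c1 c2
  refine root_red (P := GainL PhiB) h12 h2 l1 (by omega) le_rfl le_rfl g1 g2 g3 g4
    refl_root hroot h ?_ z1 z2
  refine lt_of_lt_of_le ?_ z1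
  rw [hgt_S]
  have a : (1 : ℝ) ≤ k1 := by exact_mod_cast h1
  have t0 : 0 < ((k1 : ℝ) / 4096) ^ 2 := by positivity
  have t1 : 0 < 1 + ((k1 : ℝ) / 4096) ^ 2 := by linarith
  rw [neg_lt_neg_iff, div_lt_one t1]
  linarith

/-- **a range of the tilt**, from the root box with the order of two nodes -/
theorem covB {k1 k2 lo : ℕ} (h12 : k1 ≤ k2) (h2 : k2 ≤ 1023) (l1 : 1 ≤ lo) (l2 : lo ≤ 4095)
    (c1 : 4096 * (16777216 + k2 ^ 2) < 2 * (16777216 - k2 ^ 2) * (4096 - lo))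
    (c2 : 16 * 16777216 * k2 ^ 2 * lo * (8192 - lo) <
      (2 * (16777216 - k2 ^ 2) * (4096 - lo) - 4096 * (16777216 + k2 ^ 2)) ^ 2)
    (hroot : Helper54.KA.Good HSB PR (rootB k1 k2 lo) 0) : Cov k1 k2 := by
  intro Z Φ h z1 z2
  obtain ⟨g1, g2, g3, g4⟩ := root_num h2 l2 c1 c2
  exact root_redB h12 h2 l1 (by omega) le_rfl le_rfl g1 g2 g3 g4 hroot h z1 z2

/-- **The space of twelve kissing spheres is path connected**, from the ranges of the tilt. -/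
theorem final_of_cov (h : Cov 0 855) :
    IsPathConnected
      {p : Fin 12 → EuclideanSpace ℝ (Fin 3) |
        (∀ i, ‖p i‖ = 1) ∧
        ∀ i j, i ≠ j → Real.pi / 3 ≤ InnerProductGeometry.angle (p i) (p j)} := by
  refine final_of_cert fun z φ hH => ?_
  refine h (Zf z) (Zf φ) hH ?_ ?_
  · refine le_trans ?_ (hH.fe.1 0).1
    rw [hgt_S]
    norm_num
  · refine hH.hi.le.trans ?_
    rw [hgt_S]
    norm_num

/-! ## checks of the ranges in use -/

example : 4096 * (16777216 + 9 ^ 2) < 2 * (16777216 - 9 ^ 2) * (4096 - 2032) ∧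
    16 * 16777216 * 9 ^ 2 * 2032 * (8192 - 2032) <
      (2 * (16777216 - 9 ^ 2) * (4096 - 2032) - 4096 * (16777216 + 9 ^ 2)) ^ 2 := by norm_num

example : 4096 * (16777216 + 18 ^ 2) < 2 * (16777216 - 18 ^ 2) * (4096 - 2016) ∧
    16 * 16777216 * 18 ^ 2 * 2016 * (8192 - 2016) <
      (2 * (16777216 - 18 ^ 2) * (4096 - 2016) - 4096 * (16777216 + 18 ^ 2)) ^ 2 := by norm_num

example : 4096 * (16777216 + 27 ^ 2) < 2 * (16777216 - 27 ^ 2) * (4096 - 2000) ∧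
    16 * 16777216 * 27 ^ 2 * 2000 * (8192 - 2000) <
      (2 * (16777216 - 27 ^ 2) * (4096 - 2000) - 4096 * (16777216 + 27 ^ 2)) ^ 2 := by norm_num

example : 4096 * (16777216 + 36 ^ 2) < 2 * (16777216 - 36 ^ 2) * (4096 - 1984) ∧
    16 * 16777216 * 36 ^ 2 * 1984 * (8192 - 1984) <
      (2 * (16777216 - 36 ^ 2) * (4096 - 1984) - 4096 * (16777216 + 36 ^ 2)) ^ 2 := by norm_num

end Pool.Agent.Helper66.Kiss.Dl
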