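import Pool.Agent.Helper66.Kiss.Top
import Pool.Agent.Helper54.KA.RootX

set_option autoImplicit false

/-! # Ranges of the tilt, from the roots of the fast runner -/

namespace Pool.Agent.Helper66.Kiss.Dl

open Real Pool.Agent.Helper98.DL Pool.Agent.Helper66.Kiss Pool.Agent.Helper54.KA

/-- **a range of the tilt away from the pole**, from the root boxes of the fast runner -/
theorem covAX {k1 k2 lo : ℕ} (h1 : 1 ≤ k1) (h12 : k1 ≤ k2) (h2 : k2 ≤ 1023) (l1 : 1 ≤ lo)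
    (l2 : lo ≤ 4095)
    (c1 : 4096 * (16777216 + k2 ^ 2) < 2 * (16777216 - k2 ^ 2) * (4096 - lo))
    (c2 : 16 * 16777216 * k2 ^ 2 * lo * (8192 - lo) <
      (2 * (16777216 - k2 ^ 2) * (4096 - lo) - 4096 * (16777216 + k2 ^ 2)) ^ 2)
    (hroot : ∀ a b, 1 ≤ a → a ≤ b → a + b ≤ 11 → GoodX HSL PR (rootX k1 k2 lo a b)) :
    Cov k1 k2 :=
  covA h1 h12 h2 l1 l2 c1 c2 fun a b ha hab hs =>
    good_of_rootX (by omega) h2 (by omega) (hroot a b ha hab hs)

lemma rootB_small {k1 k2 lo : ℕ} (h1 : k1 ≤ 1023) (h2 : k2 ≤ 1023) (h3 : lo ≤ 6144) :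
    rootB k1 k2 lo / 2 ^ 352 < 2 ^ 32 := by
  have h : pk (rcB k1 k2 lo) 11 < 2 ^ (32 * 11) := pk_lt fun k _ => rcB_lt h1 h2 h3 k
  have e : rootB k1 k2 lo = pk (rcB k1 k2 lo) 11 * 2 ^ 32 + pk (rcB k1 k2 lo) 11 % 4294967291 :=
    tg_eq _
  have h4 : pk (rcB k1 k2 lo) 11 % 4294967291 < 4294967291 := Nat.mod_lt _ (by norm_num)
  have h5 : rootB k1 k2 lo < 2 ^ 384 := by
    rw [e]
    have e1 : (2 : ℕ) ^ 384 = 2 ^ (32 * 11) * 2 ^ 32 := by rw [← pow_add]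
    rw [e1]
    generalize pk (rcB k1 k2 lo) 11 = U at h h4 ⊢
    have : (U + 1) * 2 ^ 32 ≤ 2 ^ (32 * 11) * 2 ^ 32 := Nat.mul_le_mul_right _ h
    omega
  rw [Nat.div_lt_iff_lt_mul (by positivity), ← pow_add]
  exact h5

lemma Fl_small {f : ℕ} (h : f < 2 ^ 32) (z φ : ℕ → ℝ) : Fl f z φ := by
  have key : ∀ m, f.testBit (32 + m) = false := fun m =>
    Nat.testBit_lt_two_pow (lt_of_lt_of_le h (Nat.pow_le_pow_right (by norm_num) (by omega)))
  constructor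
  · intro i j _ _ _ _ hb
    rw [key] at hb
    exact absurd hb (by simp)
  · intro i j _ _ hb
    rw [show 288 + (i + 16 * j) = 32 + (256 + (i + 16 * j)) by ring, key] at hb
    exact absurd hb (by simp)

/-- **a range of the tilt**, from the root box of the fast runner, with the order of two nodes -/
theorem covBX {k1 k2 lo X : ℕ} (h12 : k1 ≤ k2) (h2 : k2 ≤ 1023) (l1 : 1 ≤ lo) (l2 : lo ≤ 4095)
    (c1 : 4096 * (16777216 + k2 ^ 2) < 2 * (16777216 - k2 ^ 2) * (4096 - lo))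
    (c2 : 16 * 16777216 * k2 ^ 2 * lo * (8192 - lo) <
      (2 * (16777216 - k2 ^ 2) * (4096 - lo) - 4096 * (16777216 + k2 ^ 2)) ^ 2)
    (hX : Nat.beq (rootB k1 k2 lo) X = true) (hroot : GoodX HSB PR X) : Cov k1 k2 := by
  refine covB h12 h2 l1 l2 c1 c2 ?_
  have e := Nat.eq_of_beq_eq_true hX
  intro z φ hH hB _
  refine hroot z φ hH (e ▸ hB) ?_
  rw [← e]
  exact Fl_small (rootB_small (by omega) h2 (by omega)) z φ

end Pool.Agent.Helper66.Kiss.Dl
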